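import Mathlib

/-!
# Malcev coordinates of the second kind

`PG d`: a polynomial group law on `ℝ^d` with `ℤ^d` as a subgroup, in coordinates of the second
kind.  `A.Gp` is the type `Fin d → ℝ` with this group structure; it is a topological group.
-/

set_option autoImplicit false

open MeasureTheory Filter Topology

namespace MPd26.HK

/-- Integer points. -/
def IsInt {d : ℕ} (x : Fin d → ℝ) : Prop := ∀ j, ∃ n : ℤ, x j = n

/-- The half-open unit box. -/
def box (d : ℕ) : Set (Fin d → ℝ) := {x | ∀ j, 0 ≤ x j ∧ x j < 1}

/-- Malcev coordinates of the second kind: a polynomial triangular group law on `ℝ^d`, for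
which `ℤ^d` is a subgroup, such that `x * y = x + y` if the support of `x` lies before the
support of `y`. -/
structure PG (d : ℕ) where
  /-- the group law -/
  mul : (Fin d → ℝ) → (Fin d → ℝ) → (Fin d → ℝ)
  /-- the polynomials in the group law -/
  P : Fin d → MvPolynomial (Fin d ⊕ Fin d) ℝ
  mul_eq : ∀ x y j, mul x y j = x j + y j + MvPolynomial.eval (Sum.elim x y) (P j)
  vars : ∀ j s, s ∈ (P j).vars → Sum.elim id id s < j
  assoc : ∀ x y z, mul (mul x y) z = mul x (mul y z)
  zero_mul : ∀ x, mul 0 x = x
  mul_zero : ∀ x, mul x 0 = x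
  int : ∀ x y, IsInt x → IsInt y → IsInt (mul x y)
  second : ∀ (i : Fin d) (x y : Fin d → ℝ), (∀ j, i < j → x j = 0) → (∀ j, j < i → y j = 0) →
    mul x y = x + y

namespace PG
variable {d : ℕ} (A : PG d)

/-- The polynomial part of the law depends on the lower coordinates only. -/
lemma eval_congr (j : Fin d) {x y x' y' : Fin d → ℝ} (hx : ∀ i < j, x i = x' i)
    (hy : ∀ i < j, y i = y' i) :
    MvPolynomial.eval (Sum.elim x y) (A.P j) = MvPolynomial.eval (Sum.elim x' y') (A.P j) := by
  refine MvPolynomial.eval₂Hom_congr' rfl (fun s hs _ => ?_) rfl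
  have h := A.vars j s hs
  rcases s with i | i
  · exact hx i h
  · exact hy i h

lemma eval_zero_left (j : Fin d) (y : Fin d → ℝ) :
    MvPolynomial.eval (Sum.elim 0 y) (A.P j) = 0 := by
  have h := congrFun (A.zero_mul y) j
  rw [A.mul_eq] at h
  simp only [Pi.zero_apply, zero_add] at h
  linarith

lemma eval_zero_right (j : Fin d) (x : Fin d → ℝ) :
    MvPolynomial.eval (Sum.elim x 0) (A.P j) = 0 := by
  have h := congrFun (A.mul_zero x) j
  rw [A.mul_eq] at h
  simp only [Pi.zero_apply, add_zero] at h
  linarith

/-- Solving `x * y = w` for `y`, coordinate by coordinate. -/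
lemma exists_right (x w : Fin d → ℝ) : ∃ y, A.mul x y = w := by
  have key : ∀ k : ℕ, k ≤ d → ∃ y : Fin d → ℝ, ∀ j : Fin d, (j : ℕ) < k → A.mul x y j = w j := by
    intro k
    induction k with
    | zero => intro _; exact ⟨0, fun j hj => absurd hj (Nat.not_lt_zero _)⟩
    | succ k ih =>
      intro hk
      obtain ⟨y, hy⟩ := ih (Nat.le_of_succ_le hk)
      let j0 : Fin d := ⟨k, hk⟩
      let v : ℝ := w j0 - x j0 - MvPolynomial.eval (Sum.elim x y) (A.P j0)
      refine ⟨Function.update y j0 v, fun j hj => ?_⟩
      have hlow : ∀ i : Fin d, i < j0 → (Function.update y j0 v) i = y i := fun i hi =>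
        Function.update_of_ne (ne_of_lt hi) _ _
      by_cases hj' : j = j0
      · subst hj'
        rw [A.mul_eq, Function.update_self,
          A.eval_congr j0 (x' := x) (y' := y) (fun _ _ => rfl) hlow]
        show x j0 + (w j0 - x j0 - _) + _ = _
        ring
      · have hjk : (j : ℕ) < k := by
          rcases Nat.lt_succ_iff_lt_or_eq.1 hj with h | h
          · exact h
          · exact absurd (Fin.ext h) hj'
        have h1 : j < j0 := hjk
        rw [A.mul_eq, hlow j h1, A.eval_congr j (x' := x) (y' := y) (fun _ _ => rfl)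
          (fun i hi => hlow i (lt_trans hi h1)), ← A.mul_eq]
        exact hy j hjk
  obtain ⟨y, hy⟩ := key d le_rfl
  exact ⟨y, funext fun j => hy j j.2⟩

/-- The inverse. -/
noncomputable def inv (x : Fin d → ℝ) : Fin d → ℝ := (A.exists_right x 0).choose

lemma mul_inv (x : Fin d → ℝ) : A.mul x (A.inv x) = 0 := (A.exists_right x 0).choose_spec

lemma inv_mul (x : Fin d → ℝ) : A.mul (A.inv x) x = 0 := by
  have h1 := A.mul_inv x
  have h2 := A.mul_inv (A.inv x)
  have h3 : A.inv (A.inv x) = x := by
    calc A.inv (A.inv x) = A.mul 0 (A.inv (A.inv x)) := (A.zero_mul _).symm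
      _ = A.mul (A.mul x (A.inv x)) (A.inv (A.inv x)) := by rw [h1]
      _ = x := by rw [A.assoc, h2, A.mul_zero]
  rw [h3] at h2
  exact h2

/-- The type of points with the group structure. -/
def Gp (_ : PG d) : Type := Fin d → ℝ

noncomputable instance : TopologicalSpace A.Gp := inferInstanceAs (TopologicalSpace (Fin d → ℝ))
instance : MeasurableSpace A.Gp := inferInstanceAs (MeasurableSpace (Fin d → ℝ))
instance : BorelSpace A.Gp := inferInstanceAs (BorelSpace (Fin d → ℝ))
instance : T2Space A.Gp := inferInstanceAs (T2Space (Fin d → ℝ))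
instance : LocallyCompactSpace A.Gp := inferInstanceAs (LocallyCompactSpace (Fin d → ℝ))
instance : SecondCountableTopology A.Gp := inferInstanceAs (SecondCountableTopology (Fin d → ℝ))

noncomputable instance : Group A.Gp where
  mul x y := A.mul x y
  one := (0 : Fin d → ℝ)
  inv x := A.inv x
  mul_assoc x y z := A.assoc x y z
  one_mul x := A.zero_mul x
  mul_one x := A.mul_zero x
  inv_mul_cancel x := A.inv_mul x

lemma mul_def (x y : A.Gp) : x * y = A.mul x y := rfl
lemma one_def : (1 : A.Gp) = (0 : Fin d → ℝ) := rfl
lemma inv_def (x : A.Gp) : x⁻¹ = A.inv x := rfl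

lemma mul_apply (x y : A.Gp) (j : Fin d) : (x * y : A.Gp) j = x j + y j +
    MvPolynomial.eval (Sum.elim x y) (A.P j) := A.mul_eq x y j

lemma continuous_eval (p : MvPolynomial (Fin d ⊕ Fin d) ℝ) :
    Continuous fun q : (Fin d → ℝ) × (Fin d → ℝ) => MvPolynomial.eval (Sum.elim q.1 q.2) p := by
  have h : Continuous fun q : (Fin d → ℝ) × (Fin d → ℝ) => (Sum.elim q.1 q.2 : Fin d ⊕ Fin d → ℝ) := by
    refine continuous_pi fun s => ?_
    rcases s with i | i
    · exact (continuous_apply i).comp continuous_fst
    · exact (continuous_apply i).comp continuous_snd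
  exact (MvPolynomial.continuous_eval p).comp h

lemma continuous_mul' : Continuous fun q : (Fin d → ℝ) × (Fin d → ℝ) => A.mul q.1 q.2 := by
  refine continuous_pi fun j => ?_
  simp only [A.mul_eq]
  exact (((continuous_apply j).comp continuous_fst).add
    ((continuous_apply j).comp continuous_snd)).add (continuous_eval (A.P j))

lemma continuous_inv' : Continuous A.inv := by
  have key : ∀ k : ℕ, ∀ j : Fin d, (j : ℕ) < k → Continuous fun x => A.inv x j := by
    intro k
    induction k with
    | zero => exact fun j hj => absurd hj (Nat.not_lt_zero _)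
    | succ k ih =>
      intro j hj
      rcases Nat.lt_succ_iff_lt_or_eq.1 hj with h | h
      · exact ih j h
      · have hlow : ∀ i : Fin d, i < j → Continuous fun x => A.inv x i := fun i hi =>
          ih i (by rw [← h]; exact hi)
        have heq : (fun x => A.inv x j) = fun x => - x j -
            MvPolynomial.eval (Sum.elim x (fun i => if i < j then A.inv x i else 0)) (A.P j) := by
          funext x
          have h0 := congrFun (A.mul_inv x) j
          rw [A.mul_eq, A.eval_congr j (x' := x)
            (y' := fun i => if i < j then A.inv x i else 0) (fun _ _ => rfl)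
            (fun i hi => by simp [hi])] at h0
          simp only [Pi.zero_apply] at h0
          linarith
        rw [heq]
        refine (continuous_apply j).neg.sub ?_
        have h1 : Continuous fun x : Fin d → ℝ =>
            (x, fun i : Fin d => if i < j then A.inv x i else 0) := by
          refine continuous_id.prodMk (continuous_pi fun i => ?_)
          by_cases hi : i < j
          · simpa [hi] using hlow i hi
          · simpa [hi] using continuous_const
        exact (continuous_eval (A.P j)).comp h1
  exact continuous_pi fun j => key d j j.2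

instance : IsTopologicalGroup A.Gp where
  continuous_mul := A.continuous_mul'
  continuous_inv := A.continuous_inv'

/-- Inverses of integer points are integer points. -/
lemma int_right {x w y : Fin d → ℝ} (hx : IsInt x) (hw : IsInt w) (h : A.mul x y = w) :
    IsInt y := by
  have key : ∀ k : ℕ, ∀ j : Fin d, (j : ℕ) < k → ∃ n : ℤ, y j = n := by
    intro k
    induction k with
    | zero => exact fun j hj => absurd hj (Nat.not_lt_zero _)
    | succ k ih =>
      intro j hj
      rcases Nat.lt_succ_iff_lt_or_eq.1 hj with h' | h'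
      · exact ih j h'
      · have hlow : ∀ i : Fin d, i < j → ∃ n : ℤ, y i = n := fun i hi =>
          ih i (by rw [← h']; exact hi)
        let y' : Fin d → ℝ := fun i => if i < j then y i else 0
        have hy' : IsInt y' := by
          intro i
          by_cases hi : i < j
          · obtain ⟨n, hn⟩ := hlow i hi
            exact ⟨n, by simp only [y', hi, if_true, hn]⟩
          · exact ⟨0, by simp only [y', hi, if_false]; simp⟩
        obtain ⟨n, hn⟩ := A.int x y' hx hy' j
        obtain ⟨a, ha⟩ := hx j
        obtain ⟨b, hb⟩ := hw j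
        have h1 := congrFun h j
        rw [A.mul_eq] at h1 hn
        have h2 : y' j = 0 := by simp [y']
        rw [h2, A.eval_congr j (x' := x) (y' := y) (fun _ _ => rfl)
          (fun i hi => by simp [y', hi])] at hn
        refine ⟨b - n, ?_⟩
        push_cast
        linarith
  exact fun j => key d j j.2

lemma int_zero : IsInt (0 : Fin d → ℝ) := fun _ => ⟨0, by simp⟩

lemma int_inv {x : Fin d → ℝ} (hx : IsInt x) : IsInt (A.inv x) :=
  A.int_right hx int_zero (A.mul_inv x)

/-- Every point is uniquely `z * γ` with `z` in the box and `γ` integer. -/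
lemma exists_rep (x : Fin d → ℝ) : ∃ z γ : Fin d → ℝ, z ∈ box d ∧ IsInt γ ∧ A.mul z γ = x := by
  have key : ∀ k : ℕ, k ≤ d → ∃ z γ : Fin d → ℝ, (∀ j : Fin d, (j : ℕ) < k → 0 ≤ z j ∧ z j < 1) ∧
      IsInt γ ∧ A.mul z γ = x := by
    intro k
    induction k with
    | zero => intro _; exact ⟨x, 0, fun j hj => absurd hj (Nat.not_lt_zero _), int_zero,
        A.mul_zero x⟩
    | succ k ih =>
      intro hk
      obtain ⟨z, γ, hz, hγ, h⟩ := ih (Nat.le_of_succ_le hk)
      let j0 : Fin d := ⟨k, hk⟩
      let e : Fin d → ℝ := fun i => if i = j0 then -(⌊z j0⌋ : ℝ) else 0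
      let e' : Fin d → ℝ := fun i => if i = j0 then (⌊z j0⌋ : ℝ) else 0
      have he : IsInt e := fun i => by
        by_cases hi : i = j0
        · exact ⟨-⌊z j0⌋, by simp [e, hi]⟩
        · exact ⟨0, by simp [e, hi]⟩
      have he' : IsInt e' := fun i => by
        by_cases hi : i = j0
        · exact ⟨⌊z j0⌋, by simp [e', hi]⟩
        · exact ⟨0, by simp [e', hi]⟩
      have hee : A.mul e e' = 0 := by
        rw [A.second j0 e e' (fun j hj => by simp [e, (ne_of_gt hj)])
          (fun j hj => by simp [e', (ne_of_lt hj)])]
        funext i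
        by_cases hi : i = j0
        · simp [e, e', hi]
        · simp [e, e', hi]
      refine ⟨A.mul z e, A.mul e' γ, fun j hj => ?_, A.int _ _ he' hγ, ?_⟩
      · have hev : ∀ j : Fin d, j ≤ j0 → MvPolynomial.eval (Sum.elim z e) (A.P j) = 0 := by
          intro j hj
          rw [A.eval_congr j (x' := z) (y' := 0) (fun _ _ => rfl)
            (fun i hi => by
              have : i ≠ j0 := ne_of_lt (lt_of_lt_of_le hi hj)
              simp [e, this])]
          exact A.eval_zero_right j z
        by_cases hj' : j = j0
        · subst hj'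
          rw [A.mul_eq, hev j0 le_rfl]
          simp only [e, if_true, add_zero]
          have h1 := Int.floor_le (z j0)
          have h2 := Int.lt_floor_add_one (z j0)
          constructor <;> linarith
        · have hjk : (j : ℕ) < k := by
            rcases Nat.lt_succ_iff_lt_or_eq.1 hj with h | h
            · exact h
            · exact absurd (Fin.ext h) hj'
          have h1 : j < j0 := hjk
          rw [A.mul_eq, hev j h1.le]
          simp only [e, hj', if_false, add_zero]
          exact hz j hjk
      · rw [A.assoc, ← A.assoc e e' γ, hee, A.zero_mul, h]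
  obtain ⟨z, γ, hz, hγ, h⟩ := key d le_rfl
  exact ⟨z, γ, fun j => hz j j.2, hγ, h⟩

lemma rep_unique {z z' γ : Fin d → ℝ} (hz : z ∈ box d) (hz' : z' ∈ box d) (hγ : IsInt γ)
    (h : A.mul z γ = z') : z = z' ∧ γ = 0 := by
  have key : ∀ k : ℕ, ∀ j : Fin d, (j : ℕ) < k → γ j = 0 := by
    intro k
    induction k with
    | zero => exact fun j hj => absurd hj (Nat.not_lt_zero _)
    | succ k ih =>
      intro j hj
      rcases Nat.lt_succ_iff_lt_or_eq.1 hj with h' | h'
      · exact ih j h'
      · have hlow : ∀ i : Fin d, i < j → γ i = 0 := fun i hi => ih i (by rw [← h']; exact hi)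
        have h1 := congrFun h j
        rw [A.mul_eq, A.eval_congr j (x' := z) (y' := 0) (fun _ _ => rfl)
          (fun i hi => by simp [hlow i hi]), A.eval_zero_right] at h1
        obtain ⟨n, hn⟩ := hγ j
        have h2 := hz j
        have h3 := hz' j
        have h4 : (n : ℝ) < 1 := by rw [← hn]; linarith [h2.1, h3.2]
        have h5 : (-1 : ℝ) < n := by rw [← hn]; linarith [h2.2, h3.1]
        have h6 : n < 1 := by exact_mod_cast h4
        have h7 : -1 < n := by exact_mod_cast h5
        have h8 : n = 0 := by omega
        rw [hn, h8]; simp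
  have hγ0 : γ = 0 := funext fun j => key d j j.2
  refine ⟨?_, hγ0⟩
  rw [hγ0, A.mul_zero] at h
  exact h

/-- The representative in the box modulo right multiplication by integer points. -/
noncomputable def rep (x : Fin d → ℝ) : Fin d → ℝ := (A.exists_rep x).choose

lemma rep_spec (x : Fin d → ℝ) : A.rep x ∈ box d ∧ ∃ γ, IsInt γ ∧ A.mul (A.rep x) γ = x := by
  obtain ⟨γ, h1, h2, h3⟩ := (A.exists_rep x).choose_spec
  exact ⟨h1, γ, h2, h3⟩

/-- The subgroup of integer points. -/
def Γ : Subgroup A.Gp where
  carrier := {x | IsInt (x : Fin d → ℝ)}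
  mul_mem' {x y} hx hy := A.int x y hx hy
  one_mem' := int_zero
  inv_mem' hx := A.int_inv hx

/-- The `i`-th coordinate axis, a one-parameter subgroup. -/
def ax (i : Fin d) (t : ℝ) : A.Gp := (Pi.single i t : Fin d → ℝ)

lemma ax_add (i : Fin d) (s t : ℝ) : A.ax i (s + t) = A.ax i s * A.ax i t := by
  show (Pi.single i (s + t) : Fin d → ℝ) = A.mul (Pi.single i s) (Pi.single i t)
  rw [A.second i _ _ (fun j hj => by simp [Pi.single_apply, ne_of_gt hj])
    (fun j hj => by simp [Pi.single_apply, ne_of_lt hj]), Pi.single_add]

end PG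

end MPd26.HK
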