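import Pool.Agent.Lib.MP_d26cd8_an.HK.Met

/-!
# Elementary properties of `dist2` (project 86)
-/

set_option autoImplicit false

open MeasureTheory ProbabilityTheory Filter Topology
open scoped ComplexConjugate ENNReal

namespace MPd26.HK

section Dist
variable {Ω : Type} [mΩ : MeasurableSpace Ω] {μ : Measure Ω}

lemma dist2_nonneg (f g : Ω → ℂ) : 0 ≤ dist2 μ f g :=
  integral_nonneg fun x => by positivity

lemma dist2_comm (f g : Ω → ℂ) : dist2 μ f g = dist2 μ g f := by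
  unfold dist2
  congr 1; funext x
  rw [norm_sub_rev]

@[simp] lemma dist2_self (f : Ω → ℂ) : dist2 μ f f = 0 := by simp [dist2]

lemma dist2_congr {f f' g g' : Ω → ℂ} (hf : f =ᵐ[μ] f') (hg : g =ᵐ[μ] g') :
    dist2 μ f g = dist2 μ f' g' := by
  unfold dist2
  refine integral_congr_ae ?_
  filter_upwards [hf, hg] with x h1 h2
  rw [h1, h2]

lemma dist2_conj (f g : Ω → ℂ) :
    dist2 μ (fun x => conj (f x)) (fun x => conj (g x)) = dist2 μ f g := by
  unfold dist2
  congr 1; funext x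
  rw [← map_sub, RCLike.norm_conj]

/-- Multiplication by a phase. -/
lemma dist2_phase_mul {φ : Ω → ℂ} (hφ : ∀ x, ‖φ x‖ = 1) (f g : Ω → ℂ) :
    dist2 μ (fun x => φ x * f x) (fun x => φ x * g x) = dist2 μ f g := by
  unfold dist2
  congr 1; funext x
  rw [← mul_sub, norm_mul, hφ, one_mul]

/-- Composition with a measure preserving map. -/
lemma dist2_comp {Ω' : Type} [MeasurableSpace Ω'] {ν : Measure Ω'} {p : Ω → Ω'}
    (hp : MeasurePreserving p μ ν) {f g : Ω' → ℂ} (hf : Measurable f) (hg : Measurable g) :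
    dist2 μ (fun x => f (p x)) (fun x => g (p x)) = dist2 ν f g := by
  unfold dist2
  rw [← hp.map_eq, integral_map hp.measurable.aemeasurable]
  exact ((hf.sub hg).norm.pow_const 2).aestronglyMeasurable

lemma dist2_triangle {f g h : Ω → ℂ} (hf : MemLp f 2 μ) (hg : MemLp g 2 μ) (hh : MemLp h 2 μ) :
    Real.sqrt (dist2 μ f h) ≤ Real.sqrt (dist2 μ f g) + Real.sqrt (dist2 μ g h) := by
  rw [dist2_toLp hf hh, dist2_toLp hf hg, dist2_toLp hg hh, Real.sqrt_sq (norm_nonneg _),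
    Real.sqrt_sq (norm_nonneg _), Real.sqrt_sq (norm_nonneg _)]
  exact norm_sub_le_norm_sub_add_norm_sub _ _ _

lemma dist2_triangle' {f g h : Ω → ℂ} (hf : MemLp f 2 μ) (hg : MemLp g 2 μ) (hh : MemLp h 2 μ) :
    dist2 μ f h ≤ 2 * (dist2 μ f g + dist2 μ g h) := by
  have h1 := dist2_triangle hf hg hh
  have h2 := dist2_nonneg (μ := μ) f g
  have h3 := dist2_nonneg (μ := μ) g h
  have h4 := dist2_nonneg (μ := μ) f h
  have e1 := Real.sq_sqrt h2
  have e2 := Real.sq_sqrt h3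
  have e3 := Real.sq_sqrt h4
  have := Real.sqrt_nonneg (dist2 μ f h)
  nlinarith [sq_nonneg (Real.sqrt (dist2 μ f g) - Real.sqrt (dist2 μ g h)),
    Real.sqrt_nonneg (dist2 μ f g), Real.sqrt_nonneg (dist2 μ g h)]

/-- Cauchy-Schwarz. -/
lemma norm_integral_mul_le {f g : Ω → ℂ} (hf : MemLp f 2 μ) (hg : MemLp g 2 μ) :
    ‖∫ x, f x * g x ∂μ‖ ≤ Real.sqrt (dist2 μ f 0) * Real.sqrt (dist2 μ g 0) := by
  have hfc : MemLp (fun x => conj (f x)) 2 μ := by
    refine hf.of_le (Complex.continuous_conj.comp_aestronglyMeasurable hf.aestronglyMeasurable)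
      (ae_of_all _ fun x => by simp)
  have h0 : MemLp (0 : Ω → ℂ) 2 μ := MemLp.zero
  have key : ∫ x, f x * g x ∂μ = inner ℂ (hfc.toLp _) (hg.toLp g) := by
    rw [L2.inner_def]
    refine integral_congr_ae ?_
    filter_upwards [hfc.coeFn_toLp, hg.coeFn_toLp] with x h1 h2
    rw [h1, h2]
    simp [mul_comm]
  have n1 : dist2 μ f 0 = ‖hfc.toLp _‖ ^ 2 := by
    have h1 : dist2 μ f 0 = dist2 μ (fun x => conj (f x)) 0 := by
      simp [dist2]
    rw [h1, dist2_toLp hfc h0, MemLp.toLp_zero, sub_zero]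
  have n2 : dist2 μ g 0 = ‖hg.toLp g‖ ^ 2 := by
    rw [dist2_toLp hg h0, MemLp.toLp_zero, sub_zero]
  rw [key, n1, n2, Real.sqrt_sq (norm_nonneg _), Real.sqrt_sq (norm_nonneg _)]
  exact norm_inner_le_norm _ _

lemma norm_integral_sub_le [IsProbabilityMeasure μ] {f g : Ω → ℂ} (hf : MemLp f 2 μ)
    (hg : MemLp g 2 μ) : ‖∫ x, f x ∂μ - ∫ x, g x ∂μ‖ ≤ Real.sqrt (dist2 μ f g) := by
  have h1 : MemLp (fun _ : Ω => (1 : ℂ)) 2 μ := memLp_const 1
  have h2 := norm_integral_mul_le h1 (hf.sub hg)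
  have h3 : ∫ x, (fun _ : Ω => (1 : ℂ)) x * (f - g) x ∂μ = ∫ x, f x ∂μ - ∫ x, g x ∂μ := by
    simp only [one_mul, Pi.sub_apply]
    exact integral_sub (hf.integrable one_le_two) (hg.integrable one_le_two)
  have h4 : dist2 μ (fun _ : Ω => (1 : ℂ)) 0 = 1 := by simp [dist2]
  have h5 : dist2 μ (f - g) 0 = dist2 μ f g := by simp [dist2]
  rw [h3, h4, h5, Real.sqrt_one, one_mul] at h2
  exact h2

lemma dist2_eq_zero_iff {f g : Ω → ℂ} (hf : MemLp f 2 μ) (hg : MemLp g 2 μ) :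
    dist2 μ f g = 0 ↔ f =ᵐ[μ] g := by
  constructor
  · intro h
    rw [dist2_toLp hf hg] at h
    have h1 : hf.toLp f = hg.toLp g := by
      have := pow_eq_zero_iff (two_ne_zero) |>.1 h
      exact sub_eq_zero.1 (norm_eq_zero.1 this)
    have h2 := hf.coeFn_toLp
    have h3 := hg.coeFn_toLp
    rw [h1] at h2
    exact h2.symm.trans h3
  · intro h
    rw [dist2_congr h (ae_eq_refl g), dist2_self]

end Dist

section Proj
variable {Ω : Type} {m : MeasurableSpace Ω} [mΩ : MeasurableSpace Ω] {μ : Measure Ω}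

lemma Bdd.condExp_memLp [IsFiniteMeasure μ] {f : Ω → ℂ} (hf : Bdd f) (p : ℝ≥0∞) :
    MemLp (μ[f | m]) p μ := by
  obtain ⟨hm, C, hC⟩ := hf
  exact MemLp.of_bound integrable_condExp.aestronglyMeasurable C (condExp_bdd hC)

/-- `E(f|m)` has a bounded `m`-measurable version (bounded by the same constant). -/
lemma exists_condExp_version (hm : m ≤ mΩ) [IsFiniteMeasure μ] {f : Ω → ℂ} {C : ℝ} (hC0 : 0 ≤ C)
    (hC : ∀ x, ‖f x‖ ≤ C) :
    ∃ g : Ω → ℂ, Measurable[m] g ∧ (∀ x, ‖g x‖ ≤ C) ∧ μ[f | m] =ᵐ[μ] g := by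
  classical
  have h1 : Measurable[m] (μ[f | m]) := stronglyMeasurable_condExp.measurable
  have hs : MeasurableSet[m] {x | ‖(μ[f | m]) x‖ ≤ C} :=
    (measurable_norm.comp h1) measurableSet_Iic
  refine ⟨fun x => if ‖(μ[f | m]) x‖ ≤ C then (μ[f | m]) x else 0, ?_, ?_, ?_⟩
  · exact Measurable.ite hs h1 measurable_const
  · intro x
    by_cases h : ‖(μ[f | m]) x‖ ≤ C
    · simp [h]
    · simp [h, hC0]
  · filter_upwards [condExp_bdd (m := m) (μ := μ) hC] with x hx
    simp [hx]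

/-- `∫ h f = ∫ h E(f|m)` for `h` `m`-measurable. -/
lemma integral_meas_mul_condExp (hm : m ≤ mΩ) [IsFiniteMeasure μ] {f h : Ω → ℂ} (hf : Bdd f)
    (hh : Bdd h) (hhm : AEStronglyMeasurable[m] h μ) :
    ∫ x, h x * f x ∂μ = ∫ x, h x * (μ[f | m]) x ∂μ := by
  rw [← integral_condExp hm]
  exact integral_congr_ae (condExp_mul_left hhm ((hh.mul hf).integrable μ) (hf.integrable μ))

/-- `E(f|m)` is the nearest point: Pythagoras. -/
lemma dist2_condExp_add (hm : m ≤ mΩ) [IsFiniteMeasure μ] {f g : Ω → ℂ} (hf : Bdd f) (hg : Bdd g)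
    (hgm : AEStronglyMeasurable[m] g μ) :
    dist2 μ f g = dist2 μ f (μ[f | m]) + dist2 μ (μ[f | m]) g := by
  obtain ⟨hfm, C, hC⟩ := hf
  have hC0 : 0 ≤ |C| := abs_nonneg C
  obtain ⟨e, hem, heC, hfe⟩ := exists_condExp_version (m := m) (μ := μ) hm hC0
    (fun x => (hC x).trans (le_abs_self C))
  have hf : Bdd f := ⟨hfm, C, hC⟩
  have he : Bdd e := ⟨hem.mono hm le_rfl, |C|, heC⟩
  have hh : Bdd (fun x => conj (e x - g x)) := (he.sub hg).conj
  have hhm : AEStronglyMeasurable[m] (fun x => conj (e x - g x)) μ :=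
    Complex.continuous_conj.comp_aestronglyMeasurable
      (hem.stronglyMeasurable.aestronglyMeasurable.sub hgm)
  have h1 := integral_meas_mul_condExp hm (μ := μ) hf hh hhm
  have h2 : ∫ x, conj (e x - g x) * (μ[f | m]) x ∂μ = ∫ x, conj (e x - g x) * e x ∂μ :=
    integral_congr_ae (hfe.mono fun x hx => by simp only [hx])
  have h3 : ∫ x, conj (e x - g x) * (f x - e x) ∂μ = 0 := by
    have : (fun x => conj (e x - g x) * (f x - e x))
        = fun x => conj (e x - g x) * f x - conj (e x - g x) * e x := by funext x; ring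
    rw [this, integral_sub ((hh.mul hf).integrable μ) ((hh.mul he).integrable μ), h1, h2, sub_self]
  have h4 : ∫ x, (conj (e x - g x) * (f x - e x)).re ∂μ = 0 := by
    have := integral_re (𝕜 := ℂ) (((hh.mul (hf.sub he))).integrable μ)
    simp only [RCLike.re_eq_complex_re] at this
    rw [this, h3]; simp
  rw [dist2_congr (ae_eq_refl f) hfe, dist2_congr hfe (ae_eq_refl g)]
  unfold dist2
  have i1 : Integrable (fun x => ‖f x - e x‖ ^ 2) μ := by
    have h : Bdd (fun x => f x - e x) := hf.sub he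
    exact (h.memLp μ 2).integrable_norm_pow (p := 2) (by norm_num)
  have i2 : Integrable (fun x => ‖e x - g x‖ ^ 2) μ := by
    have h : Bdd (fun x => e x - g x) := he.sub hg
    exact (h.memLp μ 2).integrable_norm_pow (p := 2) (by norm_num)
  have i3 : Integrable (fun x => (conj (e x - g x) * (f x - e x)).re) μ :=
    ((hh.mul (hf.sub he)).integrable μ).re
  have h5 : ∀ x, ‖f x - g x‖ ^ 2 = ‖f x - e x‖ ^ 2 + ‖e x - g x‖ ^ 2
      + 2 * (conj (e x - g x) * (f x - e x)).re := by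
    intro x
    rw [← Complex.normSq_eq_norm_sq, ← Complex.normSq_eq_norm_sq, ← Complex.normSq_eq_norm_sq]
    have : f x - g x = (f x - e x) + (e x - g x) := by ring
    rw [this, Complex.normSq_add]
    ring_nf
  simp only [h5]
  have e1 : ∫ x, (‖f x - e x‖ ^ 2 + ‖e x - g x‖ ^ 2
      + 2 * (conj (e x - g x) * (f x - e x)).re) ∂μ
      = ∫ x, (‖f x - e x‖ ^ 2 + ‖e x - g x‖ ^ 2) ∂μ
        + ∫ x, 2 * (conj (e x - g x) * (f x - e x)).re ∂μ :=
    integral_add (i1.add i2) (i3.const_mul 2)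
  rw [e1, integral_add i1 i2, integral_const_mul, h4]
  ring

lemma dist2_condExp_le (hm : m ≤ mΩ) [IsFiniteMeasure μ] {f g : Ω → ℂ} (hf : Bdd f) (hg : Bdd g)
    (hgm : AEStronglyMeasurable[m] g μ) : dist2 μ f (μ[f | m]) ≤ dist2 μ f g := by
  rw [dist2_condExp_add hm hf hg hgm]
  linarith [dist2_nonneg (μ := μ) (μ[f | m]) g]

end Proj

end MPd26.HK
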