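import Pool.Agent.Lib.MP_d26cd8_an.HK.Basic

/-!
# Relatively independent squares and cubes: basic API (module SQ of project 86)
-/

set_option autoImplicit false

open MeasureTheory ProbabilityTheory Filter Topology
open scoped ComplexConjugate ENNReal

namespace MPd26.HK

section Bdd
variable {Ω : Type} [mΩ : MeasurableSpace Ω] {f g : Ω → ℂ}

lemma Bdd.meas (hf : Bdd f) : Measurable f := hf.1

lemma Bdd.integrable (hf : Bdd f) (μ : Measure Ω) [IsFiniteMeasure μ] : Integrable f μ := by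
  obtain ⟨hm, C, hC⟩ := hf
  exact Integrable.of_bound hm.aestronglyMeasurable C (ae_of_all _ hC)

lemma Bdd.mul (hf : Bdd f) (hg : Bdd g) : Bdd (fun x => f x * g x) := by
  obtain ⟨hm, C, hC⟩ := hf
  obtain ⟨hm', C', hC'⟩ := hg
  refine ⟨hm.mul hm', |C| * |C'|, fun x => ?_⟩
  rw [norm_mul]
  exact mul_le_mul ((hC x).trans (le_abs_self C)) ((hC' x).trans (le_abs_self C'))
    (norm_nonneg _) (abs_nonneg _)

lemma Bdd.add (hf : Bdd f) (hg : Bdd g) : Bdd (fun x => f x + g x) := by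
  obtain ⟨hm, C, hC⟩ := hf
  obtain ⟨hm', C', hC'⟩ := hg
  exact ⟨hm.add hm', C + C', fun x => (norm_add_le _ _).trans (add_le_add (hC x) (hC' x))⟩

lemma Bdd.neg (hf : Bdd f) : Bdd (fun x => -f x) := by
  obtain ⟨hm, C, hC⟩ := hf
  exact ⟨hm.neg, C, fun x => by rw [norm_neg]; exact hC x⟩

lemma Bdd.sub (hf : Bdd f) (hg : Bdd g) : Bdd (fun x => f x - g x) := by
  have := hf.add hg.neg
  simpa [sub_eq_add_neg] using this

lemma Bdd.conj (hf : Bdd f) : Bdd (fun x => conj (f x)) := by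
  obtain ⟨hm, C, hC⟩ := hf
  exact ⟨Complex.continuous_conj.measurable.comp hm, C, fun x => by simpa using hC x⟩

lemma Bdd.const (c : ℂ) : Bdd (fun _ : Ω => c) := ⟨measurable_const, ‖c‖, fun _ => le_rfl⟩

lemma Bdd.comp {Ω' : Type} [MeasurableSpace Ω'] {h : Ω' → Ω} (hf : Bdd f) (hh : Measurable h) :
    Bdd (fun x => f (h x)) := by
  obtain ⟨hm, C, hC⟩ := hf
  exact ⟨hm.comp hh, C, fun x => hC _⟩

lemma Bdd.prod {ι : Type} (s : Finset ι) {F : ι → Ω → ℂ} (hF : ∀ i ∈ s, Bdd (F i)) :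
    Bdd (fun x => ∏ i ∈ s, F i x) := by
  classical
  induction s using Finset.induction_on with
  | empty => simpa using Bdd.const 1
  | insert a s ha ih =>
    simp only [Finset.prod_insert ha]
    exact (hF a (Finset.mem_insert_self a s)).mul
      (ih fun i hi => hF i (Finset.mem_insert_of_mem hi))

lemma Bdd.sum {ι : Type} (s : Finset ι) {F : ι → Ω → ℂ} (hF : ∀ i ∈ s, Bdd (F i)) :
    Bdd (fun x => ∑ i ∈ s, F i x) := by
  classical
  induction s using Finset.induction_on with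
  | empty => simpa using Bdd.const 0
  | insert a s ha ih =>
    simp only [Finset.sum_insert ha]
    exact (hF a (Finset.mem_insert_self a s)).add
      (ih fun i hi => hF i (Finset.mem_insert_of_mem hi))

lemma IsPhase.bdd (hf : IsPhase f) : Bdd f := ⟨hf.1, 1, fun x => (hf.2 x).le⟩

lemma IsPhase.mul (hf : IsPhase f) (hg : IsPhase g) : IsPhase (fun x => f x * g x) :=
  ⟨hf.1.mul hg.1, fun x => by rw [norm_mul, hf.2, hg.2, one_mul]⟩

lemma IsPhase.conj (hf : IsPhase f) : IsPhase (fun x => conj (f x)) :=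
  ⟨Complex.continuous_conj.measurable.comp hf.1, fun x => by simpa using hf.2 x⟩

lemma IsPhase.const {c : ℂ} (hc : ‖c‖ = 1) : IsPhase (fun _ : Ω => c) :=
  ⟨measurable_const, fun _ => hc⟩

lemma IsPhase.comp {Ω' : Type} [MeasurableSpace Ω'] {h : Ω' → Ω} (hf : IsPhase f)
    (hh : Measurable h) : IsPhase (fun x => f (h x)) := ⟨hf.1.comp hh, fun x => hf.2 _⟩

lemma IsPhase.prod {ι : Type} (s : Finset ι) {F : ι → Ω → ℂ} (hF : ∀ i ∈ s, IsPhase (F i)) :
    IsPhase (fun x => ∏ i ∈ s, F i x) := by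
  classical
  induction s using Finset.induction_on with
  | empty => simpa using IsPhase.const (Ω := Ω) (c := 1) (by simp)
  | insert a s ha ih =>
    simp only [Finset.prod_insert ha]
    exact (hF a (Finset.mem_insert_self a s)).mul
      (ih fun i hi => hF i (Finset.mem_insert_of_mem hi))

lemma IsPhase.mul_conj (hf : IsPhase f) (x : Ω) : f x * conj (f x) = 1 := by
  rw [Complex.mul_conj, Complex.normSq_eq_norm_sq, hf.2]; simp

lemma IsPhase.conj_mul (hf : IsPhase f) (x : Ω) : conj (f x) * f x = 1 := by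
  rw [mul_comm]; exact hf.mul_conj x

end Bdd

section RelSq
variable {Ω : Type} {m : MeasurableSpace Ω} [mΩ : MeasurableSpace Ω]

/-- Pull-out property for complex functions. -/
lemma condExp_mul_left {μ : Measure Ω} {f g : Ω → ℂ} (hf : AEStronglyMeasurable[m] f μ)
    (hfg : Integrable (fun x => f x * g x) μ) (hg : Integrable g μ) :
    μ[fun x => f x * g x | m] =ᵐ[μ] fun x => f x * (μ[g | m]) x :=
  condExp_bilin_of_aestronglyMeasurable_left (ContinuousLinearMap.mul ℝ ℂ) hf hfg hg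

/-- `E(f|m)` is bounded by `C` a.e. if `f` is. -/
lemma condExp_bdd {μ : Measure Ω} {f : Ω → ℂ} {C : ℝ}
    (hC : ∀ x, ‖f x‖ ≤ C) : ∀ᵐ x ∂μ, ‖(μ[f | m]) x‖ ≤ C :=
  ae_bdd_norm_condExp_of_ae_bdd_norm (ae_of_all _ hC)

lemma integrable_mul_condExp {μ : Measure Ω} [IsFiniteMeasure μ] {f g : Ω → ℂ} (hf : Bdd f) :
    Integrable (fun x => f x * (μ[g | m]) x) μ := by
  obtain ⟨hm, C, hC⟩ := hf
  exact integrable_condExp.bdd_mul hm.aestronglyMeasurable (ae_of_all _ hC)

/-- `∫ f E(g|m) = ∫ E(f|m) E(g|m)`. -/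
lemma integral_mul_condExp (hm : m ≤ mΩ) {μ : Measure Ω} [IsFiniteMeasure μ] {f g : Ω → ℂ}
    (hf : Bdd f) (hg : Bdd g) :
    ∫ x, f x * (μ[g | m]) x ∂μ = ∫ x, (μ[f | m]) x * (μ[g | m]) x ∂μ := by
  have h1 : μ[fun x => (μ[g | m]) x * f x | m] =ᵐ[μ] fun x => (μ[g | m]) x * (μ[f | m]) x := by
    refine condExp_mul_left stronglyMeasurable_condExp.aestronglyMeasurable ?_ (hf.integrable μ)
    have := integrable_mul_condExp (m := m) (μ := μ) (g := g) hf
    refine this.congr (ae_of_all _ fun x => mul_comm _ _)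
  calc ∫ x, f x * (μ[g | m]) x ∂μ = ∫ x, (μ[g | m]) x * f x ∂μ := by
        congr 1; funext x; ring
    _ = ∫ x, (μ[fun x => (μ[g | m]) x * f x | m]) x ∂μ := (integral_condExp hm).symm
    _ = ∫ x, (μ[g | m]) x * (μ[f | m]) x ∂μ := integral_congr_ae h1
    _ = _ := by congr 1; funext x; ring

/-- `∫ f E(g|m) = ∫ E(f|m) g`. -/
lemma integral_mul_condExp_comm (hm : m ≤ mΩ) {μ : Measure Ω} [IsFiniteMeasure μ] {f g : Ω → ℂ}
    (hf : Bdd f) (hg : Bdd g) :
    ∫ x, f x * (μ[g | m]) x ∂μ = ∫ x, (μ[f | m]) x * g x ∂μ := by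
  rw [integral_mul_condExp hm hf hg]
  have h2 := integral_mul_condExp hm (μ := μ) hg hf
  calc ∫ x, (μ[f | m]) x * (μ[g | m]) x ∂μ = ∫ x, (μ[g | m]) x * (μ[f | m]) x ∂μ := by
        congr 1; funext x; ring
    _ = ∫ x, g x * (μ[f | m]) x ∂μ := h2.symm
    _ = _ := by congr 1; funext x; ring

end RelSq

section RelSq
variable {Ω : Type} {m : MeasurableSpace Ω} [mΩ : MeasurableSpace Ω] [StandardBorelSpace Ω]

lemma dis_apply (hm : m ≤ mΩ) (μ : Measure Ω) [IsFiniteMeasure μ] (x : Ω) :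
    dis hm μ x = condExpKernel μ m x := rfl

/-- `∫ F dμ_{m(x)}` is a version of `E(F|m)`. -/
lemma condExp_ae_eq_dis {E : Type} [NormedAddCommGroup E] [NormedSpace ℝ E] [CompleteSpace E]
    (hm : m ≤ mΩ) (μ : Measure Ω) [IsFiniteMeasure μ] {f : Ω → E} (hf : Integrable f μ) :
    μ[f | m] =ᵐ[μ] fun x => ∫ y, f y ∂(dis hm μ x) :=
  condExp_ae_eq_integral_condExpKernel hm hf

lemma relSq_fst (hm : m ≤ mΩ) (μ : Measure Ω) [IsFiniteMeasure μ] :
    (relSq hm μ).map Prod.fst = μ := by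
  unfold relSq
  exact Measure.fst_compProd μ (dis hm μ)

lemma mp_relSq_fst (hm : m ≤ mΩ) (μ : Measure Ω) [IsFiniteMeasure μ] :
    MeasurePreserving Prod.fst (relSq hm μ) μ := ⟨measurable_fst, relSq_fst hm μ⟩

/-- The product formula. -/
lemma integral_relSq_mul (hm : m ≤ mΩ) (μ : Measure Ω) [IsFiniteMeasure μ] {f g : Ω → ℂ}
    (hf : Bdd f) (hg : Bdd g) :
    ∫ p, f p.1 * g p.2 ∂(relSq hm μ) = ∫ x, f x * (μ[g | m]) x ∂μ := by
  have hb : Bdd (fun p : Ω × Ω => f p.1 * g p.2) := (hf.comp measurable_fst).mul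
    (hg.comp measurable_snd)
  unfold relSq
  rw [Measure.integral_compProd (hb.integrable _)]
  refine integral_congr_ae ?_
  filter_upwards [condExp_ae_eq_dis hm μ (hg.integrable μ)] with x hx
  simp only [hx]
  rw [integral_const_mul]

/-- The symmetric product formula. -/
lemma integral_relSq_mul' (hm : m ≤ mΩ) (μ : Measure Ω) [IsFiniteMeasure μ] {f g : Ω → ℂ}
    (hf : Bdd f) (hg : Bdd g) :
    ∫ p, f p.1 * g p.2 ∂(relSq hm μ) = ∫ x, (μ[f | m]) x * (μ[g | m]) x ∂μ :=
  (integral_relSq_mul hm μ hf hg).trans (integral_mul_condExp hm hf hg)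

/-- Real measure of a rectangle. -/
lemma relSq_real_prod (hm : m ≤ mΩ) (μ : Measure Ω) [IsFiniteMeasure μ] {A B : Set Ω}
    (hA : MeasurableSet A) (hB : MeasurableSet B) :
    (((relSq hm μ).real (A ×ˢ B) : ℝ) : ℂ)
      = ∫ x, (μ[A.indicator (fun _ => (1 : ℂ)) | m]) x *
          (μ[B.indicator (fun _ => (1 : ℂ)) | m]) x ∂μ := by
  have hbi : ∀ {A : Set Ω}, MeasurableSet A → Bdd (A.indicator (fun _ => (1 : ℂ))) := by
    intro A hA
    refine ⟨measurable_const.indicator hA, 1, fun x => ?_⟩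
    by_cases hx : x ∈ A <;> simp [hx]
  rw [← integral_relSq_mul' hm μ (hbi hA) (hbi hB)]
  have h1 : (fun p : Ω × Ω => A.indicator (fun _ => (1 : ℂ)) p.1 *
      B.indicator (fun _ => (1 : ℂ)) p.2) = (A ×ˢ B).indicator (fun _ => (1 : ℂ)) := by
    funext p
    by_cases h1 : p.1 ∈ A <;> by_cases h2 : p.2 ∈ B <;> simp [Set.indicator, h1, h2]
  rw [h1, integral_indicator (hA.prod hB)]
  simp

/-- A finite measure with the same values on rectangles as a formula symmetric in the factors. -/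
lemma relSq_swap (hm : m ≤ mΩ) (μ : Measure Ω) [IsFiniteMeasure μ] :
    (relSq hm μ).map Prod.swap = relSq hm μ := by
  have : IsFiniteMeasure (relSq hm μ) := by unfold relSq; infer_instance
  refine Measure.ext_prod fun {A B} hA hB => ?_
  rw [Measure.map_apply measurable_swap (hA.prod hB)]
  have h1 : Prod.swap ⁻¹' (A ×ˢ B) = B ×ˢ A := by ext p; simp [and_comm]
  rw [h1]
  have h2 : (relSq hm μ).real (B ×ˢ A) = (relSq hm μ).real (A ×ˢ B) := by
    have h3 := relSq_real_prod hm μ hA hB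
    have h4 := relSq_real_prod hm μ hB hA
    have : (((relSq hm μ).real (B ×ˢ A) : ℝ) : ℂ) = (((relSq hm μ).real (A ×ˢ B) : ℝ) : ℂ) := by
      rw [h3, h4]
      congr 1; funext x; ring
    exact_mod_cast this
  exact (measureReal_eq_measureReal_iff).1 h2

lemma mp_relSq_swap (hm : m ≤ mΩ) (μ : Measure Ω) [IsFiniteMeasure μ] :
    MeasurePreserving Prod.swap (relSq hm μ) (relSq hm μ) := ⟨measurable_swap, relSq_swap hm μ⟩

lemma mp_relSq_snd (hm : m ≤ mΩ) (μ : Measure Ω) [IsFiniteMeasure μ] :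
    MeasurePreserving Prod.snd (relSq hm μ) μ :=
  (mp_relSq_fst hm μ).comp (mp_relSq_swap hm μ)

/-- Almost everywhere statements on the square. -/
lemma ae_relSq_iff (hm : m ≤ mΩ) (μ : Measure Ω) [IsFiniteMeasure μ] {P : Ω × Ω → Prop}
    (hP : MeasurableSet {p | P p}) :
    (∀ᵐ p ∂(relSq hm μ), P p) ↔ ∀ᵐ x ∂μ, ∀ᵐ y ∂(dis hm μ x), P (x, y) := by
  unfold relSq
  exact Measure.ae_compProd_iff hP

lemma ae_ae_of_ae_relSq (hm : m ≤ mΩ) (μ : Measure Ω) [IsFiniteMeasure μ] {P : Ω × Ω → Prop}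
    (h : ∀ᵐ p ∂(relSq hm μ), P p) : ∀ᵐ x ∂μ, ∀ᵐ y ∂(dis hm μ x), P (x, y) := by
  unfold relSq at h
  exact Measure.ae_ae_of_ae_compProd h

/-- For `A` `m`-measurable, `μ_{m(x)}(Aᶜ) = 0` for almost all `x ∈ A`. -/
lemma dis_apply_of_meas (hm : m ≤ mΩ) (μ : Measure Ω) [IsFiniteMeasure μ] {A : Set Ω}
    (hA : MeasurableSet[m] A) : ∀ᵐ x ∂μ, ∀ᵐ y ∂(dis hm μ x), (y ∈ A ↔ x ∈ A) := by
  have key : ∀ {A : Set Ω}, MeasurableSet[m] A → ∀ᵐ x ∂μ, x ∈ A → dis hm μ x Aᶜ = 0 := by
    intro A hA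
    have h1 := condExpKernel_ae_eq_condExp (μ := μ) hm (hm _ hA.compl)
    have h2 : μ[(Aᶜ).indicator (fun _ => (1 : ℝ)) | m] = (Aᶜ).indicator (fun _ => (1 : ℝ)) :=
      condExp_of_stronglyMeasurable hm (stronglyMeasurable_const.indicator hA.compl)
        ((integrable_const (1 : ℝ)).indicator (hm _ hA.compl))
    rw [h2] at h1
    filter_upwards [h1] with x hx hxA
    have h3 : (condExpKernel μ m x).real Aᶜ = 0 := by
      rw [hx]; simp [hxA]
    rw [dis_apply]
    exact (measureReal_eq_zero_iff).1 h3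
  filter_upwards [key hA, key hA.compl] with x h1 h2
  by_cases hx : x ∈ A
  · filter_upwards [measure_eq_zero_iff_ae_notMem.1 (h1 hx)] with y hy
    simp only [Set.mem_compl_iff, not_not] at hy
    exact ⟨fun _ => hx, fun _ => hy⟩
  · have := h2 hx
    rw [compl_compl] at this
    filter_upwards [measure_eq_zero_iff_ae_notMem.1 this] with y hy
    exact ⟨fun h => absurd h hy, fun h => absurd h hx⟩

/-- `m`-measurable functions agree at the two points of the square. -/
lemma ae_dis_eq_of_meas {β : Type} [MeasurableSpace β] [MeasurableSpace.CountablySeparated β]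
    (hm : m ≤ mΩ) (μ : Measure Ω) [IsFiniteMeasure μ] {h : Ω → β} (hh : Measurable[m] h) :
    ∀ᵐ x ∂μ, ∀ᵐ y ∂(dis hm μ x), h y = h x := by
  obtain ⟨A, hAm, hAsep⟩ := exists_seq_separating β MeasurableSet.univ Set.univ
  have := ae_all_iff.2 fun n => dis_apply_of_meas hm μ (hh (hAm n))
  filter_upwards [this] with x hx
  filter_upwards [ae_all_iff.2 hx] with y hy
  exact hAsep _ (Set.mem_univ _) _ (Set.mem_univ _) hy

/-- The same on the square. -/
lemma ae_relSq_eq_of_meas {β : Type} [MeasurableSpace β] [MeasurableSpace.CountablySeparated β]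
    (hm : m ≤ mΩ) (μ : Measure Ω) [IsFiniteMeasure μ] {h : Ω → β} (hh : Measurable[m] h) :
    ∀ᵐ p ∂(relSq hm μ), h p.1 = h p.2 := by
  obtain ⟨A, hAm, hAsep⟩ := exists_seq_separating β MeasurableSet.univ Set.univ
  have h1 : ∀ n, ∀ᵐ p ∂(relSq hm μ), (p.2 ∈ h ⁻¹' (A n) ↔ p.1 ∈ h ⁻¹' (A n)) := by
    intro n
    have hs : MeasurableSet (h ⁻¹' (A n)) := hm _ (hh (hAm n))
    refine (ae_relSq_iff hm μ ?_).2 (dis_apply_of_meas hm μ (hh (hAm n)))
    exact (measurable_snd hs).iff (measurable_fst hs)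
  filter_upwards [ae_all_iff.2 h1] with p hp
  exact (hAsep _ (Set.mem_univ _) _ (Set.mem_univ _) hp).symm

end RelSq

/-! ### Cubes -/

section Cubes
variable {α : Type} {n : ℕ}

@[simp] lemma lo_join (p : Cube n α × Cube n α) : lo (join p) = p.1 := by
  funext ε; simp [lo, join]

@[simp] lemma hi_join (p : Cube n α × Cube n α) : hi (join p) = p.2 := by
  funext ε; simp [hi, join]

@[simp] lemma join_lo_hi (x : Cube (n + 1) α) : join (lo x, hi x) = x := by
  funext ε
  by_cases h : ε 0 = true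
  · have : (Fin.cons true fun i => ε i.succ : Vx (n + 1)) = ε := by
      rw [← h]; exact Fin.cons_self_tail ε
    simp [join, hi, h, this]
  · have h' : ε 0 = false := by simpa using h
    have : (Fin.cons false fun i => ε i.succ : Vx (n + 1)) = ε := by
      rw [← h']; exact Fin.cons_self_tail ε
    simp [join, lo, h', this]

lemma join_surj (x : Cube (n + 1) α) : ∃ p, join p = x := ⟨_, join_lo_hi x⟩

variable [mα : MeasurableSpace α]

lemma measurable_lo : Measurable (lo : Cube (n + 1) α → Cube n α) :=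
  measurable_pi_lambda _ fun _ => measurable_pi_apply _

lemma measurable_hi : Measurable (hi : Cube (n + 1) α → Cube n α) :=
  measurable_pi_lambda _ fun _ => measurable_pi_apply _

/-- `join` as a measurable equivalence. -/
def joinE : Cube n α × Cube n α ≃ᵐ Cube (n + 1) α where
  toFun := join
  invFun x := (lo x, hi x)
  left_inv p := by simp
  right_inv x := by simp
  measurable_toFun := measurable_join
  measurable_invFun := measurable_lo.prodMk measurable_hi

@[simp] lemma joinE_apply (p : Cube n α × Cube n α) : joinE p = join p := rfl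

omit mα in
lemma isEven_cons (b : Bool) (ε : Vx n) :
    isEven (Fin.cons b ε : Vx (n + 1)) = (if b then !isEven ε else isEven ε) := by
  unfold isEven
  rw [Fin.card_filter_univ_succ]
  cases b
  · simp
  · simp only [Fin.cons_zero, Fin.cons_succ, if_true]
    have h := Nat.mod_two_eq_zero_or_one (Finset.univ.filter fun i => ε i = true).card
    rcases h with h | h
    · rw [Nat.add_mod, h]; rfl
    · rw [Nat.add_mod, h]; rfl

omit mα in
lemma sg_conj (ε : Vx n) (z : ℂ) : sg ε (conj z) = conj (sg ε z) := by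
  unfold sg; split_ifs <;> rfl

omit mα in
lemma sg_mul (ε : Vx n) (z w : ℂ) : sg ε (z * w) = sg ε z * sg ε w := by
  unfold sg; split_ifs <;> simp

omit mα in
@[simp] lemma sg_one (ε : Vx n) : sg ε 1 = 1 := by
  unfold sg; split_ifs <;> simp

omit mα in
@[simp] lemma norm_sg (ε : Vx n) (z : ℂ) : ‖sg ε z‖ = ‖z‖ := by
  unfold sg; split_ifs <;> simp

omit mα in
lemma sg_cons_false (ε : Vx n) (z : ℂ) : sg (Fin.cons false ε : Vx (n + 1)) z = sg ε z := by
  unfold sg; rw [isEven_cons]; simp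

omit mα in
lemma sg_cons_true (ε : Vx n) (z : ℂ) :
    sg (Fin.cons true ε : Vx (n + 1)) z = conj (sg ε z) := by
  unfold sg; rw [isEven_cons]
  cases isEven ε <;> simp

omit mα in
lemma sg_v0 (z : ℂ) : sg (v0 : Vx n) z = z := by
  unfold sg isEven v0; simp

omit mα in
lemma prod_cube_succ (F : Vx (n + 1) → ℂ) :
    ∏ ε, F ε = (∏ ε : Vx n, F (Fin.cons false ε)) * ∏ ε : Vx n, F (Fin.cons true ε) := by
  rw [← (Fin.consEquiv (fun _ : Fin (n + 1) => Bool)).prod_comp, Fintype.prod_prod_type,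
    Fintype.prod_bool, mul_comm]
  rfl

omit mα in
lemma cp_succ (f : α → ℂ) (x : Cube (n + 1) α) :
    cp f (n + 1) x = cp f n (lo x) * conj (cp f n (hi x)) := by
  unfold cp
  rw [prod_cube_succ, map_prod]
  congr 1
  · exact Finset.prod_congr rfl fun ε _ => sg_cons_false ε _
  · exact Finset.prod_congr rfl fun ε _ => sg_cons_true ε _

omit mα in
lemma cp_join (f : α → ℂ) (p : Cube n α × Cube n α) :
    cp f (n + 1) (join p) = cp f n p.1 * conj (cp f n p.2) := by
  rw [cp_succ, lo_join, hi_join]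

omit mα in
lemma cp_zero (f : α → ℂ) (x : Cube 0 α) : cp f 0 x = f (x v0) := by
  unfold cp
  rw [Fintype.prod_subsingleton _ v0, sg_v0]

omit mα in
lemma cp_mul (f g : α → ℂ) (x : Cube n α) : cp (fun y => f y * g y) n x = cp f n x * cp g n x := by
  unfold cp
  rw [← Finset.prod_mul_distrib]
  exact Finset.prod_congr rfl fun ε _ => sg_mul ε _ _

omit mα in
lemma cp_conj (f : α → ℂ) (x : Cube n α) : cp (fun y => conj (f y)) n x = conj (cp f n x) := by
  unfold cp
  rw [map_prod]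
  exact Finset.prod_congr rfl fun ε _ => sg_conj ε _

omit mα in
lemma cp_cmap (f : α → ℂ) (g : α → α) (x : Cube n α) :
    cp f n (cmap g x) = cp (fun y => f (g y)) n x := rfl

lemma measurable_sg (ε : Vx n) : Measurable (sg ε) := by
  unfold sg
  split_ifs
  · exact measurable_id
  · exact Complex.continuous_conj.measurable

lemma _root_.MPd26.HK.Bdd.sg {f : α → ℂ} (hf : Bdd f) (ε : Vx n) : Bdd (fun x => sg ε (f x)) := by
  obtain ⟨hm, C, hC⟩ := hf
  exact ⟨(measurable_sg ε).comp hm, C, fun x => by rw [norm_sg]; exact hC x⟩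

lemma Bdd.cp {f : α → ℂ} (hf : Bdd f) (n : ℕ) : Bdd (cp f n) :=
  Bdd.prod _ fun ε _ => (hf.comp (measurable_pi_apply ε)).sg ε

lemma measurable_cp {f : α → ℂ} (hf : Measurable f) (n : ℕ) : Measurable (cp f n) :=
  Finset.measurable_prod _ fun ε _ => (measurable_sg ε).comp (hf.comp (measurable_pi_apply ε))

lemma IsPhase.cp {f : α → ℂ} (hf : IsPhase f) (n : ℕ) : IsPhase (cp f n) :=
  IsPhase.prod _ fun ε _ =>
    ⟨(measurable_sg ε).comp (hf.1.comp (measurable_pi_apply ε)), fun x => by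
      rw [norm_sg]; exact hf.2 _⟩

end Cubes

namespace Sys
variable {α : Type} [mα : MeasurableSpace α] [StandardBorelSpace α] (X : Sys α)

lemma integral_cm_zero {E : Type} [NormedAddCommGroup E] [NormedSpace ℝ E] (f : Cube 0 α → E)
    (hf : StronglyMeasurable f) : ∫ x, f x ∂(X.cm 0) = ∫ a, f (pt a) ∂X.μ := by
  rw [cm_zero, integral_map measurable_pt.aemeasurable hf.aestronglyMeasurable]

lemma integral_cm_succ {E : Type} [NormedAddCommGroup E] [NormedSpace ℝ E] (n : ℕ)
    (f : Cube (n + 1) α → E) :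
    ∫ x, f x ∂(X.cm (n + 1)) = ∫ p, f (join p) ∂(relSq (X.inv_le n) (X.cm n)) := by
  rw [cm_succ]
  exact integral_map_equiv joinE f

lemma ae_cm_succ_iff (n : ℕ) {P : Cube (n + 1) α → Prop} :
    (∀ᵐ x ∂(X.cm (n + 1)), P x) ↔ ∀ᵐ p ∂(relSq (X.inv_le n) (X.cm n)), P (join p) := by
  rw [cm_succ]
  exact (joinE (n := n) (α := α)).measurableEmbedding.ae_map_iff

lemma mp_join (n : ℕ) :
    MeasurePreserving join (relSq (X.inv_le n) (X.cm n)) (X.cm (n + 1)) :=
  ⟨measurable_join, rfl⟩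

lemma mp_split (n : ℕ) :
    MeasurePreserving (fun x : Cube (n + 1) α => (lo x, hi x)) (X.cm (n + 1))
      (relSq (X.inv_le n) (X.cm n)) :=
  (X.mp_join n).symm joinE

lemma mp_lo (n : ℕ) : MeasurePreserving (lo : Cube (n + 1) α → Cube n α) (X.cm (n + 1)) (X.cm n) :=
  (mp_relSq_fst (X.inv_le n) (X.cm n)).comp (X.mp_split n)

lemma mp_hi (n : ℕ) : MeasurePreserving (hi : Cube (n + 1) α → Cube n α) (X.cm (n + 1)) (X.cm n) :=
  (mp_relSq_snd (X.inv_le n) (X.cm n)).comp (X.mp_split n)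

/-- The product formula for the cube measures. -/
lemma integral_cm_succ_mul (n : ℕ) {A B : Cube n α → ℂ} (hA : Bdd A) (hB : Bdd B) :
    ∫ x, A (lo x) * B (hi x) ∂(X.cm (n + 1))
      = ∫ x, ((X.cm n)[A | X.inv n]) x * ((X.cm n)[B | X.inv n]) x ∂(X.cm n) := by
  rw [integral_cm_succ]
  simp only [lo_join, hi_join]
  exact integral_relSq_mul' _ _ hA hB

/-- All marginals of the cube measures are `μ`. -/
lemma mp_marg (n : ℕ) (ε : Vx n) :
    MeasurePreserving (fun x : Cube n α => x ε) (X.cm n) X.μ := by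
  induction n with
  | zero =>
    refine ⟨measurable_pi_apply ε, ?_⟩
    rw [cm_zero, Measure.map_map (measurable_pi_apply ε) measurable_pt]
    exact Measure.map_id
  | succ n ih =>
    by_cases h : ε 0 = true
    · have h1 : (fun x : Cube (n + 1) α => x ε) = (fun y : Cube n α => y fun i => ε i.succ) ∘ hi := by
        funext x
        have : (Fin.cons true fun i => ε i.succ : Vx (n + 1)) = ε := by
          rw [← h]; exact Fin.cons_self_tail ε
        simp [hi, this]
      rw [h1]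
      exact (ih _).comp (X.mp_hi n)
    · have h' : ε 0 = false := by simpa using h
      have h1 : (fun x : Cube (n + 1) α => x ε) = (fun y : Cube n α => y fun i => ε i.succ) ∘ lo := by
        funext x
        have : (Fin.cons false fun i => ε i.succ : Vx (n + 1)) = ε := by
          rw [← h']; exact Fin.cons_self_tail ε
        simp [lo, this]
      rw [h1]
      exact (ih _).comp (X.mp_lo n)

end Sys

end MPd26.HK
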