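import Pool.Agent.Lib.MP_d26cd8_an.HK.Flow

/-!
# MP_d26cd8_an: the suspension flow (module Susp)
-/

set_option autoImplicit false

open MeasureTheory ProbabilityTheory Filter Topology
open scoped ComplexConjugate ENNReal

namespace MPd26.HK

namespace SuspM

/-- Rotation of `[0,1)`. -/
noncomputable def rot (t : ℝ) (r : UI) : UI :=
  ⟨Int.fract ((r : ℝ) + t), Int.fract_nonneg _, Int.fract_lt_one _⟩

lemma measurable_rot2 : Measurable (fun p : ℝ × UI => rot p.1 p.2) := by
  apply Measurable.subtype_mk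
  exact measurable_fract.comp ((measurable_subtype_coe.comp measurable_snd).add measurable_fst)

lemma measurable_rot (t : ℝ) : Measurable (rot t) :=
  measurable_rot2.comp (measurable_const.prodMk measurable_id)

lemma volUI_apply (s : Set UI) :
    volUI s = volume (Subtype.val '' s) :=
  comap_subtype_coe_apply measurableSet_Ico volume s

instance : IsProbabilityMeasure volUI := by
  constructor
  rw [volUI_apply, Set.image_univ, Subtype.range_coe, Real.volume_Ico]
  simp

lemma mp_rot (t : ℝ) : MeasurePreserving (rot t) volUI volUI := by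
  refine ⟨measurable_rot t, ?_⟩
  ext s hs
  rw [Measure.map_apply (measurable_rot t) hs, volUI_apply, volUI_apply]
  set A : Set ℝ := Subtype.val '' s with hA
  have hAm : MeasurableSet A := (MeasurableEmbedding.subtype_coe measurableSet_Ico).measurableSet_image.2 hs
  have hA01 : ∀ x ∈ A, 0 ≤ x ∧ x < 1 := by
    rintro x ⟨y, -, rfl⟩
    exact y.2
  set t' : ℝ := Int.fract t with ht'
  have h0 : 0 ≤ t' := Int.fract_nonneg t
  have h1 : t' < 1 := Int.fract_lt_one t
  have hfr : ∀ r : ℝ, Int.fract (r + t) = Int.fract (r + t') := by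
    intro r
    rw [ht', show r + t = (r + Int.fract t) + (⌊t⌋ : ℝ) by
      rw [add_assoc, Int.fract_add_floor], Int.fract_add_intCast]
  have hset : Subtype.val '' (rot t ⁻¹' s) =
      (fun r => r + t') ⁻¹' (A ∩ Set.Ici t') ∪ (fun r => r + (t' - 1)) ⁻¹' (A \ Set.Ici t') := by
    ext r
    constructor
    · rintro ⟨y, hy, rfl⟩
      have hy1 : Int.fract ((y : ℝ) + t') ∈ A := by
        rw [← hfr]
        exact ⟨rot t y, hy, rfl⟩
      have hy2 := y.2
      by_cases hlt : (y : ℝ) + t' < 1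
      · left
        rw [Int.fract_eq_self.2 ⟨by linarith [hy2.1], hlt⟩] at hy1
        exact ⟨hy1, by simp only [Set.mem_Ici]; linarith [hy2.1]⟩
      · right
        push Not at hlt
        have e : Int.fract ((y : ℝ) + t') = (y : ℝ) + (t' - 1) := by
          rw [show (y : ℝ) + t' = ((y : ℝ) + (t' - 1)) + ((1 : ℤ) : ℝ) by push_cast; ring,
            Int.fract_add_intCast]
          exact Int.fract_eq_self.2 ⟨by linarith, by linarith [hy2.2]⟩
        rw [e] at hy1
        exact ⟨hy1, by simp only [Set.mem_Ici, not_le]; linarith [hy2.2]⟩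
    · rintro (⟨hr1, hr2⟩ | ⟨hr1, hr2⟩)
      · simp only [Set.mem_Ici] at hr2
        have h3 := hA01 _ hr1
        simp only at h3
        have hr : r ∈ Set.Ico (0 : ℝ) 1 := ⟨by linarith, by linarith⟩
        refine ⟨⟨r, hr⟩, ?_, rfl⟩
        obtain ⟨z, hz1, hz2⟩ := hr1
        have : rot t ⟨r, hr⟩ = z := by
          apply Subtype.ext
          rw [hz2]
          show Int.fract (r + t) = r + t'
          rw [hfr]
          exact Int.fract_eq_self.2 h3
        show rot t ⟨r, hr⟩ ∈ s
        rw [this]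
        exact hz1
      · simp only [Set.mem_Ici, not_le] at hr2
        have h3 := hA01 _ hr1
        simp only at h3
        have hr : r ∈ Set.Ico (0 : ℝ) 1 := ⟨by linarith, by linarith⟩
        refine ⟨⟨r, hr⟩, ?_, rfl⟩
        obtain ⟨z, hz1, hz2⟩ := hr1
        have : rot t ⟨r, hr⟩ = z := by
          apply Subtype.ext
          rw [hz2]
          show Int.fract (r + t) = r + (t' - 1)
          rw [hfr, show r + t' = (r + (t' - 1)) + ((1 : ℤ) : ℝ) by push_cast; ring,
            Int.fract_add_intCast]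
          exact Int.fract_eq_self.2 h3
        show rot t ⟨r, hr⟩ ∈ s
        rw [this]
        exact hz1
  rw [hset, measure_union, measure_preimage_add_right, measure_preimage_add_right,
    measure_inter_add_sdiff A measurableSet_Ici]
  · rw [Set.disjoint_left]
    rintro r ⟨hr1, hr2⟩ ⟨hr3, hr4⟩
    have h3 := hA01 _ hr1
    have h4 := hA01 _ hr3
    simp only at h3 h4
    linarith [h3.2, h4.1]
  · exact (measurable_id.add_const _) (hAm.diff measurableSet_Ici)

section
variable {α : Type} [mα : MeasurableSpace α] (X : Sys α)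

/-- Integer powers of `S`. -/
def pw (n : ℤ) : α → α := fun x => ((X.S.toEquiv : Equiv.Perm α) ^ n) x

lemma mp_pw (n : ℤ) : MeasurePreserving (pw X n) X.μ X.μ := by
  have hS : MeasurePreserving X.S X.μ X.μ := X.mp
  have hSi : MeasurePreserving X.S.symm X.μ X.μ := hS.symm X.S
  cases n with
  | ofNat k =>
    have : pw X (Int.ofNat k) = (X.S : α → α)^[k] := by
      funext x
      show ((X.S.toEquiv : Equiv.Perm α) ^ (k : ℤ)) x = _
      rw [zpow_natCast, Equiv.Perm.coe_pow]
      rfl
    rw [this]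
    exact hS.iterate k
  | negSucc k =>
    have : pw X (Int.negSucc k) = (X.S.symm : α → α)^[k + 1] := by
      funext x
      show ((X.S.toEquiv : Equiv.Perm α) ^ (Int.negSucc k)) x = _
      rw [zpow_negSucc, ← inv_pow, Equiv.Perm.coe_pow]
      rfl
    rw [this]
    exact hSi.iterate (k + 1)

lemma measurable_pw2 : Measurable (fun p : ℤ × α => pw X p.1 p.2) :=
  measurable_from_prod_countable_right fun n => (mp_pw X n).measurable

lemma suspT_eq (t : ℝ) (p : α × UI) : suspT X t p = (pw X ⌊(p.2 : ℝ) + t⌋ p.1, rot t p.2) := rfl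

lemma measurable_suspT : Measurable (fun p : ℝ × (α × UI) => suspT X p.1 p.2) := by
  have h1 : Measurable (fun p : ℝ × (α × UI) => (p.2.2 : ℝ) + p.1) :=
    (measurable_subtype_coe.comp (measurable_snd.comp measurable_snd)).add measurable_fst
  have h2 : Measurable (fun p : ℝ × (α × UI) => pw X ⌊(p.2.2 : ℝ) + p.1⌋ p.2.1) :=
    (measurable_pw2 X).comp ((Int.measurable_floor.comp h1).prodMk
      (measurable_fst.comp measurable_snd))
  have h3 : Measurable (fun p : ℝ × (α × UI) => rot p.1 p.2.2) :=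
    measurable_rot2.comp (measurable_fst.prodMk (measurable_snd.comp measurable_snd))
  exact h2.prodMk h3

lemma mp_suspT (t : ℝ) : MeasurePreserving (suspT X t) (X.μ.prod volUI) (X.μ.prod volUI) := by
  have h1 : MeasurePreserving (fun p : UI × α => (rot t p.1, pw X ⌊(p.1 : ℝ) + t⌋ p.2))
      (volUI.prod X.μ) (volUI.prod X.μ) := by
    refine (mp_rot t).skew_product (g := fun r x => pw X ⌊(r : ℝ) + t⌋ x) ?_ ?_
    · exact (measurable_pw2 X).comp ((Int.measurable_floor.comp
        ((measurable_subtype_coe.comp measurable_fst).add_const t)).prodMk measurable_snd)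
    · exact ae_of_all _ fun r => (mp_pw X _).map_eq
  have h2 : MeasurePreserving (Prod.swap : α × UI → UI × α) (X.μ.prod volUI) (volUI.prod X.μ) :=
    Measure.measurePreserving_swap
  have h3 : MeasurePreserving (Prod.swap : UI × α → α × UI) (volUI.prod X.μ) (X.μ.prod volUI) :=
    Measure.measurePreserving_swap
  exact (h3.comp h1).comp h2

lemma suspT_zero (p : α × UI) : suspT X 0 p = p := by
  obtain ⟨x, r⟩ := p
  rw [suspT_eq]
  have h1 : ⌊(r : ℝ) + 0⌋ = 0 := by
    rw [add_zero, Int.floor_eq_zero_iff]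
    exact r.2
  have h2 : rot 0 r = r := by
    apply Subtype.ext
    show Int.fract ((r : ℝ) + 0) = r
    rw [add_zero]
    exact Int.fract_eq_self.2 r.2
  simp only [h1, h2]
  rfl

lemma suspT_add (s t : ℝ) (p : α × UI) : suspT X (s + t) p = suspT X s (suspT X t p) := by
  obtain ⟨x, r⟩ := p
  simp only [suspT_eq]
  have e : (rot t r : ℝ) + s = ((r : ℝ) + (s + t)) - (⌊(r : ℝ) + t⌋ : ℝ) := by
    show Int.fract ((r : ℝ) + t) + s = _
    have := Int.fract_add_floor ((r : ℝ) + t)
    linarith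
  have h1 : ⌊(rot t r : ℝ) + s⌋ = ⌊(r : ℝ) + (s + t)⌋ - ⌊(r : ℝ) + t⌋ := by
    rw [e, Int.floor_sub_intCast]
  have h2 : rot s (rot t r) = rot (s + t) r := by
    apply Subtype.ext
    show Int.fract ((rot t r : ℝ) + s) = Int.fract ((r : ℝ) + (s + t))
    rw [e, Int.fract_sub_intCast]
  rw [h1, h2]
  refine Prod.ext ?_ rfl
  show pw X _ x = pw X _ (pw X _ x)
  unfold pw
  rw [← Equiv.Perm.mul_apply, ← zpow_add, sub_add_cancel]

end

end SuspM

open SuspM in
theorem specSusp : SpecSusp := by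
  intro α _ _ X
  let Fl : Flow (α × UI) :=
    { μ := X.μ.prod volUI
      prob := inferInstance
      T := suspT X
      T_zero := suspT_zero X
      T_add := suspT_add X
      meas := measurable_suspT X
      mp := mp_suspT X }
  refine ⟨Fl, rfl, rfl, ?_⟩
  intro hErg A hA hinv
  show (X.μ.prod volUI) A = 0 ∨ (X.μ.prod volUI) A = 1
  have hinv' : ∀ t : ℝ, ∀ᵐ (r : UI) ∂volUI, ∀ᵐ x ∂X.μ,
      ((pw X ⌊(r : ℝ) + t⌋ x, rot t r) ∈ A ↔ (x, r) ∈ A) := by
    intro t
    have h1 : ∀ᵐ p ∂(X.μ.prod volUI), (suspT X t p ∈ A ↔ p ∈ A) := by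
      filter_upwards [(hinv t : suspT X t ⁻¹' A =ᵐ[X.μ.prod volUI] A)] with p hp
      exact eq_iff_iff.1 hp
    have h2 : ∀ᵐ x ∂X.μ, ∀ᵐ (r : UI) ∂volUI,
        ((pw X ⌊(r : ℝ) + t⌋ x, rot t r) ∈ A ↔ (x, r) ∈ A) := Measure.ae_ae_of_ae_prod h1
    have hm : MeasurableSet {p : α × UI | suspT X t p ∈ A ↔ p ∈ A} :=
      ((mp_suspT X t).measurable hA).iff hA
    exact (Measure.ae_ae_comm (p := fun (x : α) (r : UI) => ((pw X ⌊(r : ℝ) + t⌋ x, rot t r) ∈ A ↔
      (x, r) ∈ A)) hm).1 h2
  set φ : UI → ℝ≥0∞ := fun r => X.μ ((fun x => (x, r)) ⁻¹' A) with hφ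
  have hφm : Measurable φ := measurable_measure_prodMk_right hA
  have hinvφ : ∀ t : ℝ, ∀ᵐ (r : UI) ∂volUI, φ (rot t r) = φ r := by
    intro t
    filter_upwards [hinv' t] with r hr
    have h1 : X.μ ((pw X ⌊(r : ℝ) + t⌋) ⁻¹' ((fun x => (x, rot t r)) ⁻¹' A)) =
        X.μ ((fun x => (x, r)) ⁻¹' A) := by
      apply measure_congr
      filter_upwards [hr] with x hx
      exact eq_iff_iff.2 hx
    rw [(mp_pw X _).measure_preimage (measurable_prodMk_right hA).nullMeasurableSet] at h1
    exact h1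
  have h01 : ∀ᵐ (r : UI) ∂volUI, φ r = 0 ∨ φ r = 1 := by
    filter_upwards [hinv' 1] with r hr
    have hfl : ⌊(r : ℝ) + 1⌋ = 1 := by
      rw [Int.floor_add_one, Int.floor_eq_zero_iff.2 r.2, zero_add]
    have hro : rot 1 r = r := by
      apply Subtype.ext
      show Int.fract ((r : ℝ) + 1) = r
      rw [Int.fract_add_one]
      exact Int.fract_eq_self.2 r.2
    rw [hfl, hro] at hr
    have hpw : ∀ x, pw X 1 x = X.S x := by
      intro x
      show ((X.S.toEquiv : Equiv.Perm α) ^ (1 : ℤ)) x = _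
      rw [zpow_one]
      rfl
    have h2 : X.S ⁻¹' ((fun x => (x, r)) ⁻¹' A) =ᵐ[X.μ] ((fun x => (x, r)) ⁻¹' A) := by
      filter_upwards [hr] with x hx
      rw [hpw] at hx
      exact eq_iff_iff.2 hx
    have h3 : QuasiErgodic X.S X.μ := Ergodic.quasiErgodic hErg
    rcases h3.ae_empty_or_univ₀ (measurable_prodMk_right hA).nullMeasurableSet h2 with h4 | h4
    · left
      exact (measure_congr h4).trans measure_empty
    · right
      exact (measure_congr h4).trans measure_univ
  have hmeas2 : MeasurableSet {p : UI × UI | φ (rot (p.1 : ℝ) p.2) = φ p.2} :=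
    measurableSet_eq_fun (hφm.comp (measurable_rot2.comp
      ((measurable_subtype_coe.comp measurable_fst).prodMk measurable_snd)))
      (hφm.comp measurable_snd)
  have hfub : ∀ᵐ (r : UI) ∂volUI, ∀ᵐ (t : UI) ∂volUI, φ (rot (t : ℝ) r) = φ r := by
    have h1 : ∀ᵐ (t : UI) ∂volUI, ∀ᵐ (r : UI) ∂volUI, φ (rot (t : ℝ) r) = φ r :=
      ae_of_all _ fun t => hinvφ t
    exact (Measure.ae_ae_comm (p := fun (t r : UI) => φ (rot (t : ℝ) r) = φ r) hmeas2).1 h1
  obtain ⟨r₀, hr1, hr2⟩ := (h01.and hfub).exists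
  have hswap : ∀ t : UI, rot (t : ℝ) r₀ = rot (r₀ : ℝ) t := by
    intro t
    apply Subtype.ext
    show Int.fract ((r₀ : ℝ) + t) = Int.fract ((t : ℝ) + r₀)
    rw [add_comm]
  have hconst : ∀ᵐ (r : UI) ∂volUI, φ r = φ r₀ := by
    have h1 : ∀ᵐ (t : UI) ∂volUI, φ (rot (r₀ : ℝ) t) = φ r₀ := by
      filter_upwards [hr2] with t ht
      rw [← hswap]
      exact ht
    rw [← (mp_rot (r₀ : ℝ)).map_eq]
    rw [ae_map_iff (measurable_rot _).aemeasurable (measurableSet_eq_fun hφm measurable_const)]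
    exact h1
  have hA' : (X.μ.prod volUI) A = φ r₀ := by
    rw [Measure.prod_apply_symm hA, lintegral_congr_ae hconst, lintegral_const, measure_univ,
      mul_one]
  rw [hA']
  exact hr1

end MPd26.HK
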