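import Pool.Agent.Lib.MP_d26cd8_an.HK.Spec

/-!
# MP_d26cd8_an, section 0: inner specifications (facts A1-A9, box averages, decomposition)

Text: /team-store/MP_d26cd8_an_A_h75.md.
-/

set_option autoImplicit false

open MeasureTheory ProbabilityTheory Filter Topology
open scoped ComplexConjugate ENNReal

namespace MPd26.HK

/-- Averages `(1/N) ∑_{n<N} f (T^n x)`. -/
noncomputable def avg {Ω : Type} (T : Ω → Ω) (f : Ω → ℂ) (N : ℕ) (x : Ω) : ℂ :=
  (N : ℂ)⁻¹ * ∑ n ∈ Finset.range N, f (T^[n] x)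

/-- Uniqueness of measures on a product (M0). -/
def SpecExtProd : Prop :=
  ∀ (Ω Ω' : Type) [MeasurableSpace Ω] [MeasurableSpace Ω'] (ρ ρ' : Measure (Ω × Ω'))
    [IsProbabilityMeasure ρ] [IsProbabilityMeasure ρ'],
    (∀ (f : Ω → ℂ) (g : Ω' → ℂ), Bdd f → Bdd g →
      ∫ p, f p.1 * g p.2 ∂ρ = ∫ p, f p.1 * g p.2 ∂ρ') → ρ = ρ'

/-- Uniqueness of measures on cubes (M0). -/
def SpecExtCube : Prop :=
  ∀ (α : Type) [MeasurableSpace α] (n : ℕ) (ρ ρ' : Measure (Cube n α))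
    [IsProbabilityMeasure ρ] [IsProbabilityMeasure ρ'],
    (∀ f : Vx n → α → ℂ, (∀ ε, Bdd (f ε)) →
      ∫ x, ∏ ε, f ε (x ε) ∂ρ = ∫ x, ∏ ε, f ε (x ε) ∂ρ') → ρ = ρ'

/-- Functions orthogonal to all products vanish (M0). -/
def SpecZeroProd : Prop :=
  ∀ (Ω Ω' : Type) [MeasurableSpace Ω] [MeasurableSpace Ω'] (ρ : Measure (Ω × Ω'))
    [IsProbabilityMeasure ρ] (h : Ω × Ω' → ℂ), Integrable h ρ →
    (∀ (f : Ω → ℂ) (g : Ω' → ℂ), Bdd f → Bdd g → ∫ p, h p * (f p.1 * g p.2) ∂ρ = 0) →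
    h =ᵐ[ρ] 0

/-- Functions orthogonal to all products of the coordinates other than `v0` are orthogonal to
all functions of these coordinates (M0). -/
def SpecZeroOthers : Prop :=
  ∀ (α : Type) [MeasurableSpace α] (n : ℕ) (ρ : Measure (Cube n α)) [IsProbabilityMeasure ρ]
    (h : Cube n α → ℂ), Integrable h ρ →
    (∀ f : Vx n → α → ℂ, (∀ ε, Bdd (f ε)) → (∀ y, f v0 y = 1) →
      ∫ x, h x * ∏ ε, f ε (x ε) ∂ρ = 0) →
    ∀ F : Cube n α → ℂ, Bdd F → AEStronglyMeasurable[others α v0] F ρ → ∫ x, h x * F x ∂ρ = 0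

/-- The same for `N`-measurable functions (M0). -/
def SpecZeroN : Prop :=
  ∀ (Ω Ω' : Type) (m mΩ : MeasurableSpace Ω) (m' mΩ' : MeasurableSpace Ω')
    (hm : m ≤ mΩ) (hm' : m' ≤ mΩ') (ρ : Measure (Ω × Ω'))
    [IsProbabilityMeasure ρ] (h : Ω × Ω' → ℂ), Integrable h ρ →
    (∀ (f : Ω → ℂ) (g : Ω' → ℂ), Bdd f → Bdd g → Measurable[m] f → Measurable[m'] g →
      ∫ p, h p * (f p.1 * g p.2) ∂ρ = 0) →
    ∀ F : Ω × Ω' → ℂ, Bdd F → Measurable[m.prod m'] F → ∫ p, h p * F p ∂ρ = 0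

/-- Integrals with respect to the relative square (M1). -/
def SpecRSInt : Prop :=
  ∀ (Ω : Type) (m : MeasurableSpace Ω) [mΩ : MeasurableSpace Ω] [StandardBorelSpace Ω]
    (hm : m ≤ mΩ) (μ : Measure Ω) [IsProbabilityMeasure μ] (f g : Ω → ℂ), Bdd f → Bdd g →
    ∫ p, f p.1 * g p.2 ∂(relSq hm μ) = ∫ x, f x * (μ[g | m]) x ∂μ ∧
    ∫ p, f p.1 * g p.2 ∂(relSq hm μ) = ∫ x, (μ[f | m]) x * g x ∂μ ∧
    ∫ p, f p.1 * g p.2 ∂(relSq hm μ) = ∫ x, (μ[f | m]) x * (μ[g | m]) x ∂μ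

/-- Marginals and swap of the relative square (M1). -/
def SpecRSMarg : Prop :=
  ∀ (Ω : Type) (m : MeasurableSpace Ω) [mΩ : MeasurableSpace Ω] [StandardBorelSpace Ω]
    (hm : m ≤ mΩ) (μ : Measure Ω) [IsProbabilityMeasure μ],
    MeasurePreserving Prod.fst (relSq hm μ) μ ∧ MeasurePreserving Prod.snd (relSq hm μ) μ ∧
    MeasurePreserving Prod.swap (relSq hm μ) (relSq hm μ)

/-- Functions of `m` have equal values at the two points (M1). -/
def SpecRSDiag : Prop :=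
  ∀ (Ω : Type) (m : MeasurableSpace Ω) [mΩ : MeasurableSpace Ω] [StandardBorelSpace Ω]
    (hm : m ≤ mΩ) (μ : Measure Ω) [IsProbabilityMeasure μ] (g : Ω → ℂ),
    AEStronglyMeasurable[m] g μ → ∀ᵐ p ∂(relSq hm μ), g p.1 = g p.2

/-- Mean ergodic theorem (M2). -/
def SpecMET : Prop :=
  ∀ (Ω : Type) [MeasurableSpace Ω] (μ : Measure Ω) [IsProbabilityMeasure μ] (T : Ω → Ω),
    MeasurePreserving T μ μ → ∀ f : Ω → ℂ, Bdd f →
    Tendsto (fun N => dist2 μ (avg T f N) (μ[f | MeasurableSpace.invariants T])) atTop (𝓝 0)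

/-- Invariant functions (M2). -/
def SpecInvFun : Prop :=
  ∀ (Ω : Type) [MeasurableSpace Ω] (μ : Measure Ω) [IsProbabilityMeasure μ] (T : Ω → Ω),
    MeasurePreserving T μ μ → ∀ f : Ω → ℂ, Bdd f →
    ((∀ᵐ x ∂μ, f (T x) = f x) ↔ AEStronglyMeasurable[MeasurableSpace.invariants T] f μ)

/-- Conditional expectations on invariants and intertwining maps (M2). -/
def SpecIntertwine : Prop :=
  ∀ (Ω Ω' : Type) [MeasurableSpace Ω] [MeasurableSpace Ω'] (μ : Measure Ω) (μ' : Measure Ω')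
    [IsProbabilityMeasure μ] [IsProbabilityMeasure μ'] (T : Ω → Ω) (T' : Ω' → Ω') (p : Ω → Ω'),
    MeasurePreserving T μ μ → MeasurePreserving T' μ' μ' → MeasurePreserving p μ μ' →
    (∀ᵐ x ∂μ, p (T x) = T' (p x)) → ∀ A : Ω' → ℂ, Bdd A →
    μ[A ∘ p | MeasurableSpace.invariants T] =ᵐ[μ]
      (μ'[A | MeasurableSpace.invariants T']) ∘ p

/-- Intertwining maps act on relative squares over the invariants (M2). -/
def SpecIntertwineSq : Prop :=
  ∀ (Ω Ω' : Type) [MeasurableSpace Ω] [StandardBorelSpace Ω] [MeasurableSpace Ω']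
    [StandardBorelSpace Ω'] (μ : Measure Ω) (μ' : Measure Ω')
    [IsProbabilityMeasure μ] [IsProbabilityMeasure μ'] (T : Ω → Ω) (T' : Ω' → Ω') (p : Ω → Ω'),
    MeasurePreserving T μ μ → MeasurePreserving T' μ' μ' → MeasurePreserving p μ μ' →
    (∀ᵐ x ∂μ, p (T x) = T' (p x)) →
    MeasurePreserving (Prod.map p p) (relSq (MeasurableSpace.invariants_le T) μ)
      (relSq (MeasurableSpace.invariants_le T') μ')

/-- Symmetry of the second relative square: `z10 ↔ z01` (M4). -/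
def SpecSwap : Prop :=
  ∀ (Ω : Type) [MeasurableSpace Ω] [StandardBorelSpace Ω] (μ : Measure Ω)
    [IsProbabilityMeasure μ] (T : Ω → Ω), MeasurePreserving T μ μ →
    MeasurePreserving (fun q : (Ω × Ω) × (Ω × Ω) => ((q.1.1, q.2.1), (q.1.2, q.2.2)))
      (relSq (MeasurableSpace.invariants_le (Prod.map T T))
        (relSq (MeasurableSpace.invariants_le T) μ))
      (relSq (MeasurableSpace.invariants_le (Prod.map T T))
        (relSq (MeasurableSpace.invariants_le T) μ))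

/-- Functions invariant under `id × T` (M3). -/
def SpecIdT : Prop :=
  ∀ (Ω : Type) [MeasurableSpace Ω] [StandardBorelSpace Ω] (μ : Measure Ω)
    [IsProbabilityMeasure μ] (T : Ω → Ω), MeasurePreserving T μ μ →
    ∀ F : Ω × Ω → ℂ, Bdd F →
      (∀ᵐ p ∂(relSq (MeasurableSpace.invariants_le T) μ), F (p.1, T p.2) = F p) →
      ∃ F' : Ω → ℂ, Bdd F' ∧ ∀ᵐ p ∂(relSq (MeasurableSpace.invariants_le T) μ), F p = F' p.1

/-- Functions invariant under the upper sides are functions of the vertex `0` (M3). -/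
def SpecUpper : Prop :=
  ∀ (α : Type) [MeasurableSpace α] [StandardBorelSpace α] (X : Sys α) (n : ℕ)
    (A : Cube n α → ℂ), Bdd A →
    (∀ i : Fin n, ∀ᵐ x ∂(X.cm n), A (appOn X.S (side i true) x) = A x) →
    ∃ A' : α → ℂ, Bdd A' ∧ ∀ᵐ x ∂(X.cm n), A x = A' (x v0)

/-- Dual functions (M6): `E(F(x_*)|x_0)` is measurable with respect to `x_*`. -/
def SpecDual : Prop :=
  ∀ (α : Type) [MeasurableSpace α] [StandardBorelSpace α] (X : Sys α) (n : ℕ)
    (F : Cube n α → ℂ), Bdd F → Measurable[others α v0] F →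
    ∃ D : α → ℂ, Bdd D ∧ AEStronglyMeasurable[others α v0] (fun x => D (x v0)) (X.cm n) ∧
      ∀ f : α → ℂ, Bdd f → ∫ x, f (x v0) * F x ∂(X.cm n) = ∫ x, f (x v0) * D (x v0) ∂(X.cm n)

/-- The powers of the seminorms. -/
noncomputable def Sys.NP {α : Type} [MeasurableSpace α] [StandardBorelSpace α] (X : Sys α)
    (k : ℕ) (f : α → ℂ) : ℝ := (∫ x, cp f k x ∂(X.cm k)).re

/-- The facts (N1)-(N5) used by PET (M3). -/
def SpecN : Prop :=
  ∀ (α : Type) [MeasurableSpace α] [StandardBorelSpace α] (X : Sys α) (f : α → ℂ), Bdd f →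
    ‖∫ x, f x ∂X.μ‖ ^ 2 ≤ X.NP 1 f ∧
    (∀ k : ℕ, 1 ≤ k → 0 ≤ X.NP k f ∧ ∫ x, cp f k x ∂(X.cm k) = (X.NP k f : ℂ) ∧
      X.NP k (fun x => f (X.S x)) = X.NP k f ∧ X.NP k (fun x => conj (f x)) = X.NP k f ∧
      Tendsto (fun H : ℕ => (H : ℝ)⁻¹ * ∑ h ∈ Finset.range H,
        X.NP k (fun x => f (X.S^[h] x) * conj (f x))) atTop (𝓝 (X.NP (k + 1) f)))

/-- Box averages converge jointly (M8). -/
def SpecBox : Prop :=
  ∀ (α : Type) [MeasurableSpace α] [StandardBorelSpace α] (X : Sys α) (n : ℕ)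
    (f : Vx n → α → ℂ), (∀ ε, Bdd (f ε)) →
    Tendsto (fun H : Fin n → ℕ => (∏ i, (H i : ℂ))⁻¹ *
        ∑ h ∈ Fintype.piFinset (fun i => Finset.range (H i)),
          ∫ x, ∏ ε, f ε (X.S^[∑ i, if ε i then h i else 0] x) ∂X.μ)
      atTop (𝓝 (∫ x, ∏ ε, f ε (x ε) ∂(X.cm n)))

/-- The cube measure of the relative square (M8): `(μ^[1])^[n] = μ^[n+1]`, the first direction
of `μ^[n+1]` in the base. -/
def SpecCubeSq : Prop :=
  ∀ (α : Type) [MeasurableSpace α] [StandardBorelSpace α] (X : Sys α) (X2 : Sys (α × α)),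
    (∀ p, X2.S p = (X.S p.1, X.S p.2)) →
    X2.μ = relSq (MeasurableSpace.invariants_le X.S) X.μ →
    ∀ n : ℕ, MeasurePreserving
      (fun (x : Cube n (α × α)) => (join (fun ε => (x ε).1, fun ε => (x ε).2) : Cube (n + 1) α))
      (X2.cm n) (X.cm (n + 1))

/-- Projection to a factor keeps vanishing seminorms (M3). -/
def SpecProj : Prop :=
  ∀ (α : Type) [MeasurableSpace α] [StandardBorelSpace α] (X : Sys α) (N : X.Factor) (k : ℕ)
    (f g : α → ℂ), Bdd f → Bdd g → g =ᵐ[X.μ] X.μ[f | N.σ] → X.sn (k + 1) f = 0 →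
    X.sn (k + 1) g = 0

/-- Ergodic decomposition (M9). -/
def SpecErgDec : Prop :=
  ∀ (α : Type) [MeasurableSpace α] [StandardBorelSpace α] (X : Sys α),
    ∀ᵐ x ∂X.μ, Ergodic X.S (condExpKernel X.μ (MeasurableSpace.invariants X.S) x)

/-- Seminorms and ergodic decomposition (M9). -/
def SpecErgSn : Prop :=
  ∀ (α : Type) [MeasurableSpace α] [StandardBorelSpace α] (X : Sys α) (k : ℕ) (f : α → ℂ),
    Bdd f → ∫ x, cp f (k + 1) x ∂(X.cm (k + 1)) = 0 →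
    ∀ᵐ x ∂X.μ, ∀ Y : Sys α, Y.S = X.S →
      Y.μ = condExpKernel X.μ (MeasurableSpace.invariants X.S) x →
      ∫ x, cp f (k + 1) x ∂(Y.cm (k + 1)) = 0

end MPd26.HK
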