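import Pool.Agent.Lib.MP_d26cd8_an.HK.Flow
import Pool.Agent.Lib.MP_d26cd8_an.HK.Spec0

/-!
# MP_d26cd8_an, HK: box averages over cubes `[0,H)^n`, and BoxOne
-/

set_option autoImplicit false

open MeasureTheory ProbabilityTheory Filter Topology
open scoped ComplexConjugate ENNReal

namespace MPd26.HK

namespace BoxOneM

lemma sum_fin {M : Type} [AddCommMonoid M] {n H : ℕ} (w : (Fin n → ℕ) → M) :
    ∑ h : Fin n → Fin H, w (fun i => (h i : ℕ)) =
      ∑ h ∈ Fintype.piFinset (fun _ : Fin n => Finset.range H), w h := by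
  refine Finset.sum_bij (fun h _ => fun i => (h i : ℕ)) ?_ ?_ ?_ ?_
  · intro h _
    simp only [Fintype.mem_piFinset, Finset.mem_range]
    exact fun i => (h i).2
  · intro h _ h' _ e
    funext i
    exact Fin.ext (congrFun e i)
  · intro h hh
    simp only [Fintype.mem_piFinset, Finset.mem_range] at hh
    exact ⟨fun i => ⟨h i, hh i⟩, Finset.mem_univ _, rfl⟩
  · intro h _
    rfl

lemma tendsto_diag (n : ℕ) : Tendsto (fun H : ℕ => (fun _ : Fin n => H)) atTop atTop := by
  refine tendsto_atTop.2 fun b => ?_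
  filter_upwards [eventually_ge_atTop (∑ i, b i)] with H hH i
  exact (Finset.single_le_sum (fun j _ => Nat.zero_le (b j)) (Finset.mem_univ i)).trans hH

/-- box averages over `[0,H)^n` -/
theorem tendsto_cube (hBox : SpecBox) {α : Type} [MeasurableSpace α] [StandardBorelSpace α]
    (X : Sys α) (n : ℕ) (f : Vx n → α → ℂ) (hf : ∀ ε, Bdd (f ε)) :
    Tendsto (fun H : ℕ => ((H : ℂ) ^ n)⁻¹ * ∑ h : Fin n → Fin H,
      ∫ x, ∏ ε : Vx n,
        f ε (X.S^[∑ i ∈ Finset.univ.filter (fun i => ε i = true), (h i : ℕ)] x) ∂X.μ)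
      atTop (𝓝 (∫ x, ∏ ε, f ε (x ε) ∂(X.cm n))) := by
  have h1 := (hBox α X n f hf).comp (tendsto_diag n)
  refine h1.congr fun H => ?_
  simp only [Function.comp, Finset.prod_const, Finset.card_univ, Fintype.card_fin]
  congr 1
  rw [← sum_fin (H := H) (fun h => ∫ x, ∏ ε : Vx n,
    f ε (X.S^[∑ i, if ε i then h i else 0] x) ∂X.μ)]
  refine Finset.sum_congr rfl fun h _ => ?_
  simp only [Finset.sum_filter]

end BoxOneM

theorem specBoxOne (hBox : SpecBox) (hG : SpecGCS) : SpecBoxOne := by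
  intro α _ _ X _ k f hf η h0
  have h1 := BoxOneM.tendsto_cube hBox X (k + 1) f hf
  have h2 : ∫ x, ∏ ε, f ε (x ε) ∂(X.cm (k + 1)) = 0 := by
    have h3 := hG α X k f hf
    have h4 : ∏ ε, X.sn (k + 1) (f ε) = 0 := Finset.prod_eq_zero (Finset.mem_univ η) h0
    rw [h4] at h3
    exact norm_le_zero_iff.1 h3
  rwa [h2] at h1

end MPd26.HK
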