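import Mathlib

/-!
# MP_d26cd8_an, Host-Kra theory: common definitions

Systems, cube measures, factors, phases.  Namespace `MPd26.HK`.
Text: /team-store/MP_d26cd8_an_D_h15.md.
-/

set_option autoImplicit false

open MeasureTheory ProbabilityTheory Filter Topology
open scoped ComplexConjugate ENNReal

namespace MPd26.HK

/-! ## Relatively independent squares -/

section RelSq
variable {Ω : Type} {m : MeasurableSpace Ω} [mΩ : MeasurableSpace Ω] [StandardBorelSpace Ω]

/-- The disintegration of `μ` over the sub-σ-algebra `m`, as a kernel on `Ω` with its own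
σ-algebra (`dis hm μ x` is the conditional measure `μ_{m(x)}`). -/
noncomputable def dis (hm : m ≤ mΩ) (μ : Measure Ω) [IsFiniteMeasure μ] : Kernel Ω Ω :=
  ⟨fun ω => condExpKernel μ m ω,
    (ProbabilityTheory.Kernel.measurable (condExpKernel μ m)).mono hm le_rfl⟩

instance (hm : m ≤ mΩ) (μ : Measure Ω) [IsFiniteMeasure μ] : IsMarkovKernel (dis hm μ) :=
  ⟨fun ω => inferInstanceAs (IsProbabilityMeasure (condExpKernel μ m ω))⟩

/-- The relatively independent square `μ ×_m μ`: the law of `(x, x')` with `x` of law `μ` and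
`x'` of law `μ_{m(x)}`. -/
noncomputable def relSq (hm : m ≤ mΩ) (μ : Measure Ω) [IsFiniteMeasure μ] : Measure (Ω × Ω) :=
  μ ⊗ₘ (dis hm μ)

instance (hm : m ≤ mΩ) (μ : Measure Ω) [IsProbabilityMeasure μ] :
    IsProbabilityMeasure (relSq hm μ) := by
  unfold relSq; infer_instance

end RelSq

/-! ## Cubes -/

/-- Vertices of the `n`-dimensional cube. -/
abbrev Vx (n : ℕ) : Type := Fin n → Bool

/-- Cubes with values in `α`. -/
abbrev Cube (n : ℕ) (α : Type) : Type := Vx n → α

/-- The vertex `0`. -/
def v0 {n : ℕ} : Vx n := fun _ => false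

/-- The parity of the number of coordinates equal to one. -/
def isEven {n : ℕ} (ε : Vx n) : Bool := (Finset.univ.filter fun i => ε i = true).card % 2 == 0

/-- `C^{|ε|} z`, `C` the complex conjugation. -/
noncomputable def sg {n : ℕ} (ε : Vx n) (z : ℂ) : ℂ := if isEven ε then z else conj z

section Cubes
variable {α : Type} {β : Type}

/-- `f^[n]` as a map of cubes. -/
def cmap (f : α → β) {n : ℕ} (x : Cube n α) : Cube n β := fun ε => f (x ε)

/-- `g` applied on the coordinates in `F` only. -/
noncomputable def appOn (g : α → α) {n : ℕ} (F : Set (Vx n)) (x : Cube n α) : Cube n α :=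
  open Classical in fun ε => if ε ∈ F then g (x ε) else x ε

/-- The side `{ε | ε i = b}`. -/
def side {n : ℕ} (i : Fin n) (b : Bool) : Set (Vx n) := {ε | ε i = b}

/-- The zero-dimensional cube. -/
def pt (x : α) : Cube 0 α := fun _ => x

/-- The cube with lower face `p.1` (`ε 0 = false`) and upper face `p.2` (`ε 0 = true`). -/
def join {n : ℕ} (p : Cube n α × Cube n α) : Cube (n + 1) α :=
  fun ε => if ε 0 then p.2 (fun i => ε i.succ) else p.1 (fun i => ε i.succ)

/-- Lower face. -/
def lo {n : ℕ} (x : Cube (n + 1) α) : Cube n α := fun ε => x (Fin.cons false ε)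

/-- Upper face. -/
def hi {n : ℕ} (x : Cube (n + 1) α) : Cube n α := fun ε => x (Fin.cons true ε)

/-- `f^{[n]}(x) = ∏_ε C^{|ε|} f(x_ε)`. -/
noncomputable def cp (f : α → ℂ) (n : ℕ) (x : Cube n α) : ℂ := ∏ ε : Vx n, sg ε (f (x ε))

/-- Symmetries of the cube: a permutation of the directions followed by a reflection. -/
def symm {n : ℕ} (σ : Equiv.Perm (Fin n)) (r : Vx n) (x : Cube n α) : Cube n α :=
  fun ε => x (fun i => xor (ε (σ i)) (r i))

/-- The coordinates other than `ε`. -/
def rst {n : ℕ} (ε : Vx n) (x : Cube n α) : {η : Vx n // η ≠ ε} → α := fun η => x η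

/-- The σ-algebra of cubes generated by the coordinates other than `ε`. -/
@[instance_reducible] def others (α : Type) [MeasurableSpace α] {n : ℕ} (ε : Vx n) :
    MeasurableSpace (Cube n α) :=
  MeasurableSpace.comap (rst ε) MeasurableSpace.pi

lemma measurable_rst [MeasurableSpace α] {n : ℕ} (ε : Vx n) :
    Measurable (rst ε : Cube n α → _) :=
  measurable_pi_lambda _ fun η => measurable_pi_apply η.1

lemma others_le [MeasurableSpace α] {n : ℕ} (ε : Vx n) : others α ε ≤ MeasurableSpace.pi :=
  (measurable_rst ε).comap_le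

lemma measurable_pt [MeasurableSpace α] : Measurable (pt : α → Cube 0 α) :=
  measurable_pi_lambda _ fun _ => measurable_id

lemma measurable_join [MeasurableSpace α] {n : ℕ} :
    Measurable (join : Cube n α × Cube n α → Cube (n + 1) α) := by
  refine measurable_pi_lambda _ fun ε => ?_
  unfold join
  by_cases h : ε 0 = true
  · simp only [h, if_true]
    exact (measurable_pi_apply _).comp measurable_snd
  · simp only [h]
    exact (measurable_pi_apply _).comp measurable_fst

lemma measurable_cmap [MeasurableSpace α] [MeasurableSpace β] {f : α → β} (hf : Measurable f)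
    {n : ℕ} : Measurable (cmap f : Cube n α → Cube n β) :=
  measurable_pi_lambda _ fun ε => hf.comp (measurable_pi_apply ε)

end Cubes

/-! ## Systems -/

/-- A measure preserving system on a standard Borel probability space. -/
structure Sys (α : Type) [MeasurableSpace α] where
  /-- the measure -/
  μ : Measure α
  prob : IsProbabilityMeasure μ
  /-- the transformation -/
  S : α ≃ᵐ α
  mp : MeasurePreserving S μ μ

/-- Sub-σ-algebras of `mα` invariant under `f` and `g`. -/
structure FactorOf {α : Type} (mα : MeasurableSpace α) (f g : α → α) where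
  /-- the σ-algebra -/
  σ : MeasurableSpace α
  le : σ ≤ mα
  inv : ∀ s, MeasurableSet[σ] s → MeasurableSet[σ] (f ⁻¹' s)
  inv' : ∀ s, MeasurableSet[σ] s → MeasurableSet[σ] (g ⁻¹' s)

/-- `N^[n]`, the σ-algebra of cubes generated by a factor. -/
@[instance_reducible] def FactorOf.cube {α : Type} {mα : MeasurableSpace α} {f g : α → α}
    (N : FactorOf mα f g) (n : ℕ) : MeasurableSpace (Cube n α) :=
  @MeasurableSpace.pi (Vx n) (fun _ => α) (fun _ => N.σ)

namespace Sys
variable {α : Type} [mα : MeasurableSpace α] (X : Sys α)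

instance : IsProbabilityMeasure X.μ := X.prob

/-- The σ-algebra `I_n` of `S^[n]`-invariant sets of cubes. -/
@[instance_reducible] def inv (n : ℕ) : MeasurableSpace (Cube n α) :=
  MeasurableSpace.invariants (cmap X.S)

lemma inv_le (n : ℕ) : X.inv n ≤ MeasurableSpace.pi :=
  MeasurableSpace.invariants_le _

/-- The cube measures, with the proof that they are probability measures. -/
noncomputable def cmP [StandardBorelSpace α] :
    (n : ℕ) → {ν : Measure (Cube n α) // IsProbabilityMeasure ν}
  | 0 => ⟨X.μ.map pt, Measure.isProbabilityMeasure_map measurable_pt.aemeasurable⟩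
  | n + 1 =>
      haveI := (cmP n).2
      ⟨(relSq (X.inv_le n) (cmP n).1).map join,
        Measure.isProbabilityMeasure_map measurable_join.aemeasurable⟩

/-- The cube measure `μ^[n]`. -/
noncomputable def cm [StandardBorelSpace α] (n : ℕ) : Measure (Cube n α) := (X.cmP n).1

instance [StandardBorelSpace α] (n : ℕ) : IsProbabilityMeasure (X.cm n) := (X.cmP n).2

lemma cm_zero [StandardBorelSpace α] : X.cm 0 = X.μ.map pt := rfl

lemma cm_succ [StandardBorelSpace α] (n : ℕ) :
    X.cm (n + 1) = (relSq (X.inv_le n) (X.cm n)).map join := rfl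

/-- A factor: an invariant sub-σ-algebra. -/
abbrev Factor (X : Sys α) : Type := FactorOf mα X.S X.S.symm

/-- The trivial factor. -/
def triv : X.Factor where
  σ := ⊥
  le := bot_le
  inv s hs := by
    rcases MeasurableSpace.measurableSet_bot_iff.1 hs with h | h <;> subst h
    · exact @MeasurableSet.empty _ ⊥
    · exact @MeasurableSet.univ _ ⊥
  inv' s hs := by
    rcases MeasurableSpace.measurableSet_bot_iff.1 hs with h | h <;> subst h
    · exact @MeasurableSet.empty _ ⊥
    · exact @MeasurableSet.univ _ ⊥

end Sys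

/-- `S^1`-valued measurable functions. -/
def IsPhase {α : Type} [MeasurableSpace α] (φ : α → ℂ) : Prop :=
  Measurable φ ∧ ∀ x, ‖φ x‖ = 1

/-- Bounded measurable functions. -/
def Bdd {α : Type} [MeasurableSpace α] (f : α → ℂ) : Prop :=
  Measurable f ∧ ∃ C : ℝ, ∀ x, ‖f x‖ ≤ C

/-- The square of the `L²`-distance. -/
noncomputable def dist2 {α : Type} [MeasurableSpace α] (μ : Measure α) (f g : α → ℂ) : ℝ :=
  ∫ x, ‖f x - g x‖ ^ 2 ∂μ

end MPd26.HK
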