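import Pool.Agent.Lib.MP_d26cd8_an.HK.A_Fac

/-!
# Relative conditional independence (SpecA9) and projections on factors (SpecProj), helper69
-/

set_option autoImplicit false

open MeasureTheory ProbabilityTheory Filter Topology
open scoped ComplexConjugate ENNReal

namespace MPd26.HK

namespace A9M

variable {α : Type} [mα : MeasurableSpace α]

theorem cube_le {f g : α → α} (N : FactorOf mα f g) (n : ℕ) :
    N.cube n ≤ MeasurableSpace.pi :=
  iSup_mono fun _ => MeasurableSpace.comap_mono N.le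

theorem join_cube {f g : α → α} (N : FactorOf mα f g) (n : ℕ) :
    @Measurable (Cube n α × Cube n α) (Cube (n + 1) α) ((N.cube n).prod (N.cube n))
      (N.cube (n + 1)) join := @measurable_join α N.σ n

theorem hi_cube {f g : α → α} (N : FactorOf mα f g) (n : ℕ) :
    @Measurable (Cube (n + 1) α) (Cube n α) (N.cube (n + 1)) (N.cube n) hi :=
  @measurable_hi α n N.σ

theorem lo_cube {f g : α → α} (N : FactorOf mα f g) (n : ℕ) :
    @Measurable (Cube (n + 1) α) (Cube n α) (N.cube (n + 1)) (N.cube n) lo :=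
  @measurable_lo α n N.σ

theorem apply_cube {f g : α → α} (N : FactorOf mα f g) (n : ℕ) (ε : Vx n) :
    @Measurable (Cube n α) α (N.cube n) N.σ (fun x => x ε) :=
  @measurable_pi_apply (Vx n) (fun _ => α) (fun _ => N.σ) ε

variable [StandardBorelSpace α] (X : Sys α)

/-- The integral over `μ^[n+1]` of `h(a) f(a) g(b)`, `g` of class `N^[n]`. -/
theorem exists_inv_version (hF : SpecFacInv) (N : X.Factor) (n : ℕ) {k : Cube n α → ℂ}
    (hk : Bdd k) (hkm : Measurable[N.cube n] k) :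
    ∃ k' : Cube n α → ℂ, Bdd k' ∧ Measurable[N.cube n] k' ∧
      (X.cm n)[k | X.inv n] =ᵐ[X.cm n] k' := by
  classical
  obtain ⟨hk1, C, hC⟩ := hk
  have h1 := hF α X N n k hkm ⟨hk1, C, hC⟩
  obtain ⟨u, hu, hku⟩ := h1
  have hs : MeasurableSet[N.cube n] {x | ‖u x‖ ≤ |C|} :=
    (measurable_norm.comp hu.measurable) measurableSet_Iic
  have hm : Measurable[N.cube n] (fun x => if ‖u x‖ ≤ |C| then u x else 0) :=
    Measurable.ite hs hu.measurable measurable_const
  refine ⟨fun x => if ‖u x‖ ≤ |C| then u x else 0, ⟨hm.mono (cube_le N n) le_rfl, |C|, ?_⟩, hm, ?_⟩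
  · intro x
    by_cases h : ‖u x‖ ≤ |C|
    · simp [h]
    · simp [h]
  · filter_upwards [hku, condExp_bdd (m := X.inv n) (μ := X.cm n)
      (fun x => (hC x).trans (le_abs_self C))] with x e1 e2
    rw [e1] at e2
    rw [e1, if_pos e2]

/-- `∫ h(b) F(a,b) = 0` for `F` of class `N^[n+1]` if `E(h|N^[n]) = 0`. -/
theorem zero_hi (hZ : SpecZeroN) (hF : SpecFacInv) (N : X.Factor) (n : ℕ) {h : Cube n α → ℂ}
    (hh : Bdd h) (h0 : ∀ F : Cube n α → ℂ, Bdd F → Measurable[N.cube n] F →
      ∫ x, h x * F x ∂(X.cm n) = 0)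
    (F : Cube (n + 1) α → ℂ) (hFb : Bdd F) (hFm : Measurable[N.cube (n + 1)] F) :
    ∫ x, h (hi x) * F x ∂(X.cm (n + 1)) = 0 := by
  rw [X.integral_cm_succ]
  simp only [hi_join]
  refine hZ (Cube n α) (Cube n α) (N.cube n) _ (N.cube n) _ (cube_le N n) (cube_le N n)
    (relSq (X.inv_le n) (X.cm n)) (fun p => h p.2) ((hh.comp measurable_snd).integrable _)
    (fun f g hf hg hfm hgm => ?_) (fun p => F (join p)) (hFb.comp measurable_join)
    (hFm.comp (join_cube N n))
  obtain ⟨f', hf', hfm', hff⟩ := exists_inv_version X hF N n hf hfm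
  have e1 : (fun p : Cube n α × Cube n α => h p.2 * (f p.1 * g p.2))
      = fun p => f p.1 * (h p.2 * g p.2) := by funext p; ring
  rw [e1, integral_relSq_mul (X.inv_le n) (X.cm n) hf (hh.mul hg),
    integral_mul_condExp_comm (X.inv_le n) hf (hh.mul hg)]
  have e2 : ∫ x, ((X.cm n)[f | X.inv n]) x * (h x * g x) ∂(X.cm n)
      = ∫ x, h x * (f' x * g x) ∂(X.cm n) := by
    refine integral_congr_ae ?_
    filter_upwards [hff] with x hx
    rw [hx]; ring
  rw [e2]
  exact h0 _ (hf'.mul hg) (hfm'.mul hgm)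

/-- The same for functions of the lower face. -/
theorem zero_lo (hZ : SpecZeroN) (hF : SpecFacInv) (N : X.Factor) (n : ℕ) {h : Cube n α → ℂ}
    (hh : Bdd h) (h0 : ∀ F : Cube n α → ℂ, Bdd F → Measurable[N.cube n] F →
      ∫ x, h x * F x ∂(X.cm n) = 0)
    (F : Cube (n + 1) α → ℂ) (hFb : Bdd F) (hFm : Measurable[N.cube (n + 1)] F) :
    ∫ x, h (lo x) * F x ∂(X.cm (n + 1)) = 0 := by
  rw [X.integral_cm_succ]
  simp only [lo_join]
  refine hZ (Cube n α) (Cube n α) (N.cube n) _ (N.cube n) _ (cube_le N n) (cube_le N n)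
    (relSq (X.inv_le n) (X.cm n)) (fun p => h p.1) ((hh.comp measurable_fst).integrable _)
    (fun f g hf hg hfm hgm => ?_) (fun p => F (join p)) (hFb.comp measurable_join)
    (hFm.comp (join_cube N n))
  obtain ⟨g', hg', hgm', hgg⟩ := exists_inv_version X hF N n hg hgm
  have e1 : (fun p : Cube n α × Cube n α => h p.1 * (f p.1 * g p.2))
      = fun p => (h p.1 * f p.1) * g p.2 := by funext p; ring
  rw [e1, integral_relSq_mul (X.inv_le n) (X.cm n) (hh.mul hf) hg]
  have e2 : ∫ x, h x * f x * ((X.cm n)[g | X.inv n]) x ∂(X.cm n)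
      = ∫ x, h x * (f x * g' x) ∂(X.cm n) := by
    refine integral_congr_ae ?_
    filter_upwards [hgg] with x hx
    rw [hx]; ring
  rw [e2]
  exact h0 _ (hf.mul hg') (hfm.mul hgm')

/-- `∫ u(x_0) H = 0` for `H` of class `N^[k]` if `E(u|N) = 0`. -/
theorem zero_v0 (hZ : SpecZeroN) (hF : SpecFacInv) (N : X.Factor) (k : ℕ) {u : α → ℂ}
    (hu : Bdd u) (h0 : X.μ[u | N.σ] =ᵐ[X.μ] 0)
    (F : Cube k α → ℂ) (hFb : Bdd F) (hFm : Measurable[N.cube k] F) :
    ∫ x, u (x v0) * F x ∂(X.cm k) = 0 := by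
  induction k with
  | zero =>
    have hb : Bdd (fun x : Cube 0 α => u (x v0) * F x) :=
      (hu.comp (measurable_pi_apply v0)).mul hFb
    rw [X.integral_cm_zero _ hb.1.stronglyMeasurable]
    have hpt : @Measurable α (Cube 0 α) N.σ (N.cube 0) pt := @measurable_pt α N.σ
    have h1 : ∫ a, u (pt a v0) * F (pt a) ∂X.μ = ∫ a, F (pt a) * u a ∂X.μ := by
      congr 1; funext a; exact mul_comm _ _
    rw [h1, integral_meas_mul_condExp N.le hu (hFb.comp measurable_pt)
      (hFm.comp hpt).stronglyMeasurable.aestronglyMeasurable]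
    rw [integral_congr_ae (g := fun _ => (0 : ℂ)) (h0.mono fun x hx => by
      simp only [hx]; simp)]
    simp
  | succ k ih =>
    have h1 := zero_lo X hZ hF N k (h := fun x => u (x v0)) (hu.comp (measurable_pi_apply v0))
      (fun F hF1 hF2 => ih F hF1 hF2) F hFb hFm
    have h2 : ∀ x : Cube (k + 1) α, lo x v0 = x v0 := by
      intro x
      show x (Fin.cons false v0) = x v0
      congr 1
      funext i
      refine Fin.cases ?_ (fun j => ?_) i <;> simp [v0]
    simpa only [h2] using h1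

end A9M

open A9M in
theorem specA9 (hZ : SpecZeroN) (hF : SpecFacInv) : SpecA9 := by
  intro α _ _ X N n g Q hg hQ hQm
  obtain ⟨hgm, C, hC⟩ := hg
  obtain ⟨Q', hQ'm, hQ'b, hQ'⟩ := exists_condExp_version (m := N.cube n) (μ := X.cm n)
    (cube_le N n) (abs_nonneg C) (fun x => (hC x).trans (le_abs_self C))
  have hg : Bdd g := ⟨hgm, C, hC⟩
  have hQ'B : Bdd Q' := ⟨hQ'm.mono (cube_le N n) le_rfl, |C|, hQ'b⟩
  refine ⟨Q', hQ'm, hQ'B, ?_⟩
  have h0 : ∀ F : Cube n α → ℂ, Bdd F → Measurable[N.cube n] F →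
      ∫ x, (g x - Q' x) * F x ∂(X.cm n) = 0 := by
    intro F hFb hFm
    have e1 := integral_meas_mul_condExp (cube_le N n) (μ := X.cm n) hg hFb
      hFm.stronglyMeasurable.aestronglyMeasurable
    have e2 : ∫ x, F x * ((X.cm n)[g | N.cube n]) x ∂(X.cm n) = ∫ x, F x * Q' x ∂(X.cm n) :=
      integral_congr_ae (hQ'.mono fun x hx => by simp only [hx])
    have e3 : (fun x => (g x - Q' x) * F x) = fun x => F x * g x - F x * Q' x := by
      funext x; ring
    rw [e3, integral_sub ((hFb.mul hg).integrable _) ((hFb.mul hQ'B).integrable _), e1, e2,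
      sub_self]
  have hkey := zero_hi X hZ hF N n (h := fun x => g x - Q' x) (hg.sub hQ'B) h0
  have hghi : Bdd (fun x : Cube (n + 1) α => g (hi x)) := hg.comp measurable_hi
  have hQhi : Bdd (fun x : Cube (n + 1) α => Q' (hi x)) := hQ'B.comp measurable_hi
  have hE : (fun x : Cube (n + 1) α => Q' (hi x)) =ᵐ[X.cm (n + 1)]
      (X.cm (n + 1))[fun x => g (hi x) | N.cube (n + 1)] := by
    refine ae_eq_condExp_of_forall_setIntegral_eq (cube_le N (n + 1)) (hghi.integrable _)
      (fun s _ _ => (hQhi.integrable _).integrableOn) ?_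
      (hQ'm.comp (hi_cube N n)).stronglyMeasurable.aestronglyMeasurable
    intro s hs _
    have hs' := cube_le N (n + 1) s hs
    have hI : Bdd (s.indicator (fun _ : Cube (n + 1) α => (1 : ℂ))) := by
      refine ⟨measurable_const.indicator hs', 1, fun x => ?_⟩
      by_cases hx : x ∈ s <;> simp [hx]
    have h1 := hkey (s.indicator fun _ => (1 : ℂ)) hI (measurable_const.indicator hs)
    have h2 : ∀ w : Cube (n + 1) α → ℂ, ∫ x in s, w x ∂(X.cm (n + 1))
        = ∫ x, w x * s.indicator (fun _ => (1 : ℂ)) x ∂(X.cm (n + 1)) := by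
      intro w
      rw [← integral_indicator hs']
      congr 1; funext x
      by_cases hx : x ∈ s <;> simp [hx]
    rw [h2, h2, ← sub_eq_zero, ← integral_sub ((hQhi.mul hI).integrable _)
      ((hghi.mul hI).integrable _), ← neg_eq_zero, ← integral_neg, ← h1]
    congr 1; funext x; ring
  calc dist2 (X.cm n) g Q' = dist2 (X.cm (n + 1)) (fun x => g (hi x)) (fun x => Q' (hi x)) :=
        (dist2_comp (X.mp_hi n) hgm hQ'B.1).symm
    _ = dist2 (X.cm (n + 1)) (fun x => g (hi x))
          ((X.cm (n + 1))[fun x => g (hi x) | N.cube (n + 1)]) :=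
        dist2_congr (ae_eq_refl _) hE
    _ ≤ _ := dist2_condExp_le (cube_le N (n + 1)) hghi hQ
        hQm.stronglyMeasurable.aestronglyMeasurable

open A9M in
theorem specProj (hZ : SpecZeroN) (hF : SpecFacInv) (hG : SpecGCS) : SpecProj := by
  classical
  intro α _ _ X N k f g hf hg hgN hf0
  obtain ⟨hgm, C, hC⟩ := hg
  obtain ⟨fm, D, hD⟩ := hf
  obtain ⟨g', hg'm, hg'b, hg'⟩ := exists_condExp_version (m := N.σ) (μ := X.μ)
    N.le (abs_nonneg D) (fun x => (hD x).trans (le_abs_self D))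
  have hf : Bdd f := ⟨fm, D, hD⟩
  have hg : Bdd g := ⟨hgm, C, hC⟩
  have hg'B : Bdd g' := ⟨hg'm.mono N.le le_rfl, |D|, hg'b⟩
  have hgg : g =ᵐ[X.μ] g' := hgN.trans hg'
  -- the difference is orthogonal to `N`
  have hu : Bdd (fun x => g' x - f x) := hg'B.sub hf
  have hu0 : X.μ[fun x => g' x - f x | N.σ] =ᵐ[X.μ] 0 := by
    have e1 : X.μ[fun x => g' x - f x | N.σ] =ᵐ[X.μ] X.μ[g' | N.σ] - X.μ[f | N.σ] :=
      condExp_sub (hg'B.integrable _) (hf.integrable _) _
    have e2 : X.μ[g' | N.σ] = g' :=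
      condExp_of_stronglyMeasurable N.le hg'm.stronglyMeasurable (hg'B.integrable _)
    rw [e2] at e1
    filter_upwards [e1, hg'] with x h1 h2
    rw [h1, Pi.sub_apply, h2]
    simp
  set H : Cube (k + 1) α → ℂ := fun x => ∏ ε ∈ Finset.univ.erase (v0 : Vx (k + 1)), sg ε (g' (x ε))
    with hH
  have hHb : Bdd H := Bdd.prod _ fun ε _ => (hg'B.comp (measurable_pi_apply ε)).sg ε
  have hHm : Measurable[N.cube (k + 1)] H :=
    Finset.measurable_prod _ fun ε _ => (measurable_sg ε).comp (hg'm.comp (apply_cube N (k + 1) ε))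
  have h1 := zero_v0 X hZ hF N (k + 1) hu hu0 H hHb hHm
  have hcp : ∫ x, cp g (k + 1) x ∂(X.cm (k + 1)) = ∫ x, g' (x v0) * H x ∂(X.cm (k + 1)) := by
    refine integral_congr_ae ?_
    have h2 : ∀ ε : Vx (k + 1), ∀ᵐ x ∂(X.cm (k + 1)), g (x ε) = g' (x ε) := fun ε =>
      (X.mp_marg (k + 1) ε).quasiMeasurePreserving.ae hgg
    filter_upwards [ae_all_iff.2 h2] with x hx
    rw [cp, ← Finset.mul_prod_erase Finset.univ _ (Finset.mem_univ (v0 : Vx (k + 1))), sg_v0]
    simp only [hx, hH]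
  have h3 : ∫ x, g' (x v0) * H x ∂(X.cm (k + 1)) = ∫ x, f (x v0) * H x ∂(X.cm (k + 1)) := by
    have h4 : Bdd (fun x : Cube (k + 1) α => g' (x v0) * H x) :=
      (hg'B.comp (measurable_pi_apply v0)).mul hHb
    have h5 : Bdd (fun x : Cube (k + 1) α => f (x v0) * H x) :=
      (hf.comp (measurable_pi_apply v0)).mul hHb
    rw [← sub_eq_zero, ← integral_sub (h4.integrable _) (h5.integrable _), ← h1]
    congr 1; funext x; ring
  -- Gowers-Cauchy-Schwarz
  have h6 := hG α X k (fun ε => if ε = v0 then f else fun y => sg ε (g' y)) (fun ε => by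
    by_cases h : ε = v0
    · simp only [h, if_true]; exact hf
    · simp only [h, if_false]; exact hg'B.sg ε)
  have h7 : ∀ x : Cube (k + 1) α, ∏ ε, (if ε = v0 then f else fun y => sg ε (g' y)) (x ε)
      = f (x v0) * H x := by
    intro x
    rw [← Finset.mul_prod_erase Finset.univ _ (Finset.mem_univ (v0 : Vx (k + 1)))]
    congr 1
    · simp
    · refine Finset.prod_congr rfl fun ε hε => ?_
      rw [if_neg (Finset.ne_of_mem_erase hε)]
  have h8 : ∏ ε : Vx (k + 1), X.sn (k + 1) (if ε = v0 then f else fun y => sg ε (g' y)) = 0 := by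
    refine Finset.prod_eq_zero (Finset.mem_univ v0) ?_
    rw [if_pos rfl]; exact hf0
  simp only [h7] at h6
  rw [h8, ← h3, ← hcp] at h6
  have h9 : ‖∫ x, cp g (k + 1) x ∂(X.cm (k + 1))‖ = 0 := le_antisymm h6 (norm_nonneg _)
  unfold Sys.sn
  rw [h9, Real.zero_rpow (by positivity)]

end MPd26.HK
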