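import Pool.Agent.Lib.MP_d26cd8_an.HK.Spec
import Pool.Agent.Lib.MP_d26cd8_an.Nil.UT

/-!
# MP_d26cd8_an, block D: flows, nil-maps, suspension (sections 5-6), definitions and Specs
-/

set_option autoImplicit false

open MeasureTheory ProbabilityTheory Filter Topology
open scoped ComplexConjugate ENNReal

namespace MPd26.HK

open MPd26.Nil

/-- Measure preserving flows. -/
structure Flow (α : Type) [MeasurableSpace α] where
  /-- the measure -/
  μ : Measure α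
  prob : IsProbabilityMeasure μ
  /-- the flow -/
  T : ℝ → α → α
  T_zero : ∀ x, T 0 x = x
  T_add : ∀ s t x, T (s + t) x = T s (T t x)
  meas : Measurable (fun p : ℝ × α => T p.1 p.2)
  mp : ∀ t, MeasurePreserving (T t) μ μ

namespace Flow
variable {α : Type} [mα : MeasurableSpace α] (Fl : Flow α)

instance : IsProbabilityMeasure Fl.μ := Fl.prob

lemma measT (t : ℝ) : Measurable (Fl.T t) :=
  Fl.meas.comp (measurable_const.prodMk measurable_id)

/-- `T_t` as a measurable equivalence. -/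
def eqv (t : ℝ) : α ≃ᵐ α where
  toFun := Fl.T t
  invFun := Fl.T (-t)
  left_inv x := by rw [← Fl.T_add, neg_add_cancel, Fl.T_zero]
  right_inv x := by rw [← Fl.T_add, add_neg_cancel, Fl.T_zero]
  measurable_toFun := Fl.measT t
  measurable_invFun := Fl.measT (-t)

/-- The system `(α, T_θ)`. -/
def sys (θ : ℝ) : Sys α where
  μ := Fl.μ
  prob := Fl.prob
  S := Fl.eqv θ
  mp := Fl.mp θ

/-- Ergodic flows. -/
def Erg : Prop :=
  ∀ A, MeasurableSet A → (∀ t, Fl.T t ⁻¹' A =ᵐ[Fl.μ] A) → Fl.μ A = 0 ∨ Fl.μ A = 1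

/-- Nil-maps of a flow. -/
def NilMap (m : ℕ) (π : α → NM m) : Prop :=
  Measurable π ∧ ∃ ξ : Mat m, IsSU ξ ∧
    ∀ t : ℝ, ∀ᵐ x ∂Fl.μ, π (Fl.T t x) = expU (t • ξ) • π x

end Flow

/-! ## Suspension -/

section Susp
variable {α : Type} [mα : MeasurableSpace α] (X : Sys α)

/-- The unit interval `[0,1)`. -/
abbrev UI : Type := Set.Ico (0 : ℝ) 1

/-- The suspension flow. -/
noncomputable def suspT (t : ℝ) (p : α × UI) : α × UI :=
  (((X.S.toEquiv : Equiv.Perm α) ^ ⌊(p.2 : ℝ) + t⌋) p.1,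
    ⟨Int.fract ((p.2 : ℝ) + t), Int.fract_nonneg _, Int.fract_lt_one _⟩)

/-- Lebesgue measure on `[0,1)`. -/
noncomputable def volUI : Measure UI := Measure.comap Subtype.val volume

end Susp

/-- The suspension flow exists, `T_1 = S × id`, and it is ergodic if the system is. -/
def SpecSusp : Prop :=
  ∀ (α : Type) [MeasurableSpace α] [StandardBorelSpace α] (X : Sys α),
    ∃ Fl : Flow (α × UI), Fl.μ = X.μ.prod volUI ∧ Fl.T = suspT X ∧ (X.Erg → Fl.Erg)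

/-- Continuity of flows in `L²` (squares). -/
def SpecFlowCont : Prop :=
  ∀ (α : Type) [MeasurableSpace α] [StandardBorelSpace α] (Fl : Flow α) (f : α → ℂ), Bdd f →
    Tendsto (fun t : ℝ => dist2 Fl.μ (fun x => f (Fl.T t x)) f) (𝓝 0) (𝓝 0)

/-- For all but countably many times an ergodic flow has ergodic time maps. -/
def SpecGen : Prop :=
  ∀ (α : Type) [MeasurableSpace α] [StandardBorelSpace α] (Fl : Flow α), Fl.Erg →
    {θ : ℝ | ¬ (Fl.sys θ).Erg}.Countable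

/-- 6.3: the cube measures do not depend on the ergodic time. -/
def SpecInd : Prop :=
  ∀ (α : Type) [MeasurableSpace α] [StandardBorelSpace α] (Fl : Flow α) (θ θ' : ℝ),
    (Fl.sys θ).Erg → (Fl.sys θ').Erg → ∀ n : ℕ, (Fl.sys θ).cm n = (Fl.sys θ').cm n

/-- `T_t` acts on the cube measures of `T_θ` by side maps. -/
def SpecFlowSide : Prop :=
  ∀ (α : Type) [MeasurableSpace α] [StandardBorelSpace α] (Fl : Flow α) (θ t : ℝ),
    (Fl.sys θ).Erg → ∀ n : ℕ, (Fl.sys θ).SidePres (Fl.T t) n ∧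
      MeasurePreserving (cmap (Fl.T t)) ((Fl.sys θ).cm n) ((Fl.sys θ).cm n) ∧
      (∀ s, MeasurableSet[((Fl.sys θ).Z n).σ] s → MeasurableSet[((Fl.sys θ).Z n).σ] (Fl.T t ⁻¹' s))

/-- The box averages of order `k` of `F` along `T`. -/
noncomputable def boxAvg {α : Type} [MeasurableSpace α] (μ : Measure α) (T : ℕ → α → α)
    (F : α → ℂ) (k H : ℕ) : ℂ :=
  ((H : ℂ) ^ k)⁻¹ * ∑ h : Fin k → Fin H, ∫ x, ∏ ε : Vx k,
    sg ε (F (T (∑ i ∈ Finset.univ.filter (fun i => ε i = true), (h i : ℕ)) x)) ∂μ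

/-- (A8) for one ergodic system: box averages are controlled by each vertex. -/
def SpecBoxOne : Prop :=
  ∀ (α : Type) [MeasurableSpace α] [StandardBorelSpace α] (X : Sys α), X.Erg → ∀ (k : ℕ)
    (f : Vx (k + 1) → α → ℂ), (∀ ε, Bdd (f ε)) → ∀ η : Vx (k + 1), X.sn (k + 1) (f η) = 0 →
    Tendsto (fun H : ℕ => ((H : ℂ) ^ (k + 1))⁻¹ * ∑ h : Fin (k + 1) → Fin H,
      ∫ x, ∏ ε : Vx (k + 1),
        f ε (X.S^[∑ i ∈ Finset.univ.filter (fun i => ε i = true), (h i : ℕ)] x) ∂X.μ)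
      atTop (𝓝 0)

/-- 6.2 -/
def SpecBoxFlow : Prop :=
  ∀ (α : Type) [MeasurableSpace α] [StandardBorelSpace α] (Fl : Flow α) (E F : α → ℂ),
    IsPhase E → (∀ t x, E (Fl.T t x) = Complex.exp (2 * Real.pi * t * Complex.I) * E x) →
    Bdd F → ∀ k : ℕ,
    (∀ δ : ℝ, 0 < δ → ∃ θ : ℝ, 0 < θ ∧ θ < δ ∧ Irrational θ ∧ (Fl.sys θ).Erg ∧
      (Fl.sys θ).sn (k + 2) F = 0) →
    Tendsto (fun H : ℕ => boxAvg Fl.μ (fun n => (Fl.T 1)^[n]) F (k + 2) H) atTop (𝓝 0)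

/-- Proposition 5.1: phases whose cube cocycle lives on a nilsystem factor are nil-measurable. -/
def SpecNilPhase : Prop :=
  ∀ (α : Type) [MeasurableSpace α] [StandardBorelSpace α] (Fl : Flow α) (θ : ℝ),
    Fl.Erg → (Fl.sys θ).Erg → ∀ (m : ℕ) (π : α → NM m), Fl.NilMap m π →
    ∀ (d : ℕ) (φ : α → ℂ) (K : Cube (d + 2) (NM m) → ℂ), IsPhase φ → Measurable K →
      (∀ᵐ x ∂((Fl.sys θ).cm (d + 2)), cp φ (d + 2) x = K (cmap π x)) →
      ∃ (m' : ℕ) (π' : α → NM m') (h : NM m' → ℂ), Fl.NilMap m' π' ∧ Measurable h ∧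
        ∀ᵐ x ∂Fl.μ, φ x = h (π' x)

/-- Theorem 5: functions measurable with respect to `Z_k(T_θ)` are limits of nil-functions. -/
def SpecNil : Prop :=
  ∀ (α : Type) [MeasurableSpace α] [StandardBorelSpace α] (Fl : Flow α) (θ : ℝ),
    Fl.Erg → (Fl.sys θ).Erg → ∀ (k : ℕ) (f : α → ℂ), (∀ x, ‖f x‖ ≤ 1) → Measurable f →
      AEStronglyMeasurable[((Fl.sys θ).Z k).σ] f Fl.μ → ∀ η : ℝ, 0 < η →
      ∃ (m : ℕ) (π : α → NM m) (h : NM m → ℂ), Fl.NilMap m π ∧ Continuous h ∧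
        (∀ y, ‖h y‖ ≤ 1) ∧ dist2 Fl.μ f (fun x => h (π x)) ≤ η

/-- CONCLUSION of block D: for an ergodic system `(X,S)` every bounded function on the suspension
is the sum of a limit of nil-functions of the suspension flow (the conditional expectation on a
flow-invariant σ-algebra `σ`) and a function all of whose box averages along `T_1 = S × id` of
orders `≥ 2` tend to zero. -/
def SpecD : Prop :=
  ∀ (α : Type) [MeasurableSpace α] [StandardBorelSpace α] (X : Sys α), X.Erg →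
    ∀ Fl : Flow (α × UI), Fl.μ = X.μ.prod volUI → Fl.T = suspT X →
    ∃ N : Sys.Factor (Fl.sys 1),
      (∀ t s, MeasurableSet[N.σ] s → MeasurableSet[N.σ] (Fl.T t ⁻¹' s)) ∧
      (∀ f : α × UI → ℂ, (∀ x, ‖f x‖ ≤ 1) → Measurable[N.σ] f → ∀ η : ℝ, 0 < η →
        ∃ (m : ℕ) (π : α × UI → NM m) (h : NM m → ℂ), Fl.NilMap m π ∧ Continuous h ∧
          (∀ y, ‖h y‖ ≤ 1) ∧ dist2 Fl.μ f (fun x => h (π x)) ≤ η) ∧
      (∀ F : α × UI → ℂ, Bdd F → Fl.μ[F | N.σ] =ᵐ[Fl.μ] 0 → ∀ k : ℕ,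
        Tendsto (fun H : ℕ => boxAvg Fl.μ (fun n => (Fl.T 1)^[n]) F (k + 2) H) atTop (𝓝 0))

end MPd26.HK
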