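import Pool.Agent.Lib.MP_d26cd8_an.HK.A_Nonneg
import Pool.Agent.Lib.MP_d26cd8_an.HK.Flow

/-!
# MP_d26cd8_an, HK: box averages converge jointly
-/

set_option autoImplicit false

open MeasureTheory ProbabilityTheory Filter Topology
open scoped ComplexConjugate ENNReal

namespace MPd26.HK

namespace BoxM

open NonnegM

/-! ### Averages of one transformation -/

section one
variable {Ω : Type} [MeasurableSpace Ω] [StandardBorelSpace Ω] {μ : Measure Ω}
  [IsProbabilityMeasure μ] {T : Ω → Ω}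

omit [StandardBorelSpace Ω] in
lemma bdd_avg (hT : Measurable T) {g : Ω → ℂ} (hg : Bdd g) (N : ℕ) : Bdd (avg T g N) := by
  unfold avg
  exact (Bdd.const _).mul (Bdd.sum _ fun n _ => hg.comp (hT.iterate n))

omit [StandardBorelSpace Ω] [IsProbabilityMeasure μ] in
lemma memLp_int_sq {u : Ω → ℂ} (hu : MemLp u 2 μ) : Integrable (fun x => ‖u x‖ ^ 2) μ :=
  hu.integrable_norm_pow (by norm_num)

omit [StandardBorelSpace Ω] [IsProbabilityMeasure μ] in
lemma memLp_mul_int {u v : Ω → ℂ} (hu : MemLp u 2 μ) (hv : MemLp v 2 μ) :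
    Integrable (fun x => u x * conj (v x)) μ := by
  have hv' : MemLp (fun x => conj (v x)) 2 μ := hv.star
  exact hu.integrable_mul hv'

omit [StandardBorelSpace Ω] [IsProbabilityMeasure μ] in
lemma condExp_iter (n : ℕ) {g : Ω → ℂ} :
    (μ[g | MeasurableSpace.invariants T]) ∘ T^[n] = μ[g | MeasurableSpace.invariants T] := by
  induction n with
  | zero => rfl
  | succ n ih =>
    rw [Function.iterate_succ', ← Function.comp_assoc,
      MeasurableSpace.comp_eq_of_measurable_invariants stronglyMeasurable_condExp.measurable, ih]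

lemma int_mul_conj_condExp {g : Ω → ℂ} (hg : Bdd g) :
    ∫ x, g x * conj ((μ[g | MeasurableSpace.invariants T]) x) ∂μ =
      ((∫ x, ‖(μ[g | MeasurableSpace.invariants T]) x‖ ^ 2 ∂μ : ℝ) : ℂ) := by
  have hle := MeasurableSpace.invariants_le T
  rw [← relSq_self hle μ hg, integral_relSq_mul hle μ hg hg.conj]
  refine integral_congr_ae ?_
  filter_upwards [condExp_conj hle μ hg] with x hx
  rw [hx]

/-- Pythagoras -/
lemma pyth (hT : MeasurePreserving T μ μ) {g : Ω → ℂ} (hg : Bdd g) {K : ℕ} (hK : K ≠ 0) :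
    dist2 μ (avg T g K) (μ[g | MeasurableSpace.invariants T]) =
      ∫ x, ‖avg T g K x‖ ^ 2 ∂μ -
        ∫ x, ‖(μ[g | MeasurableSpace.invariants T]) x‖ ^ 2 ∂μ := by
  have hle := MeasurableSpace.invariants_le T
  have h2 := int_mul_conj_condExp (μ := μ) (T := T) hg
  have hEinv := fun n => condExp_iter (μ := μ) (T := T) n (g := g)
  have hEm : MemLp (μ[g | MeasurableSpace.invariants T]) 2 μ := condExp_memLp hle hg
  have hEs : StronglyMeasurable (μ[g | MeasurableSpace.invariants T]) :=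
    stronglyMeasurable_condExp.mono hle
  set E := μ[g | MeasurableSpace.invariants T] with hE
  have hA : MemLp (avg T g K) 2 μ := Bdd.memLp (bdd_avg hT.measurable hg K)
  have h1 : ∀ n, ∫ x, g (T^[n] x) * conj (E x) ∂μ = ∫ x, g x * conj (E x) ∂μ := by
    intro n
    have e : (fun x => g (T^[n] x) * conj (E x)) = fun x => (fun y => g y * conj (E y)) (T^[n] x) := by
      funext x
      simp only
      rw [show E (T^[n] x) = E x from congrFun (hEinv n) x]
    rw [e]
    exact int_comp (hT.iterate n) (hg.1.mul (Complex.continuous_conj.measurable.comp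
      hEs.measurable))
  have h3 : ∫ x, avg T g K x * conj (E x) ∂μ = ((∫ x, ‖E x‖ ^ 2 ∂μ : ℝ) : ℂ) := by
    have e : (fun x => avg T g K x * conj (E x)) = fun x =>
        (K : ℂ)⁻¹ * ∑ n ∈ Finset.range K, g (T^[n] x) * conj (E x) := by
      funext x
      unfold avg
      rw [mul_assoc, Finset.sum_mul]
    rw [e, integral_const_mul, integral_finsetSum]
    · simp only [h1, h2, Finset.sum_const, Finset.card_range, nsmul_eq_mul]
      rw [← mul_assoc, inv_mul_cancel₀ (by exact_mod_cast hK), one_mul]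
    · intro n _
      exact memLp_mul_int (Bdd.memLp (hg.comp (hT.measurable.iterate n))) hEm
  have h4 : ∀ x, ‖avg T g K x - E x‖ ^ 2 = ‖avg T g K x‖ ^ 2 + ‖E x‖ ^ 2 -
      2 * (avg T g K x * conj (E x)).re := by
    intro x
    rw [← Complex.normSq_eq_norm_sq, ← Complex.normSq_eq_norm_sq, ← Complex.normSq_eq_norm_sq,
      Complex.normSq_sub]
  have i1 := memLp_int_sq hA
  have i2 := memLp_int_sq hEm
  have i3 : Integrable (fun x => 2 * (avg T g K x * conj (E x)).re) μ :=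
    (memLp_mul_int hA hEm).re.const_mul 2
  have h5 : ∫ x, 2 * (avg T g K x * conj (E x)).re ∂μ = 2 * ∫ x, ‖E x‖ ^ 2 ∂μ := by
    rw [integral_const_mul]
    congr 1
    have := integral_re (memLp_mul_int hA hEm)
    have e : ∫ x, (avg T g K x * conj (E x)).re ∂μ = (∫ x, avg T g K x * conj (E x) ∂μ).re := this
    rw [e, h3, Complex.ofReal_re]
  unfold dist2
  simp only [h4]
  have i12 : Integrable (fun x => ‖avg T g K x‖ ^ 2 + ‖E x‖ ^ 2) μ := i1.add i2
  rw [integral_sub i12 i3, integral_add i1 i2, h5]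
  ring

omit [StandardBorelSpace Ω] [IsProbabilityMeasure μ] in
/-- averages are contractions of `L²` -/
lemma avg_sq_le (hT : MeasurePreserving T μ μ) {u : Ω → ℂ} (hu : MemLp u 2 μ) (N : ℕ) :
    ∫ x, ‖avg T u N x‖ ^ 2 ∂μ ≤ ∫ x, ‖u x‖ ^ 2 ∂μ := by
  rcases Nat.eq_zero_or_pos N with h0 | h0
  · subst h0
    simp only [avg, Finset.range_zero, Finset.sum_empty, mul_zero, norm_zero]
    simp only [ne_eq, OfNat.ofNat_ne_zero, not_false_eq_true, zero_pow, integral_zero]
    exact integral_nonneg fun x => by positivity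
  have hN : (0 : ℝ) < N := by exact_mod_cast h0
  have hui : Integrable (fun x => ‖u x‖ ^ 2) μ := memLp_int_sq hu
  have hit : ∀ n, Integrable (fun x => ‖u (T^[n] x)‖ ^ 2) μ := fun n =>
    (hT.iterate n).integrable_comp_of_integrable hui
  have h1 : ∀ x, ‖avg T u N x‖ ^ 2 ≤ (N : ℝ)⁻¹ * ∑ n ∈ Finset.range N, ‖u (T^[n] x)‖ ^ 2 := by
    intro x
    have h2 : ‖avg T u N x‖ ≤ (N : ℝ)⁻¹ * ∑ n ∈ Finset.range N, ‖u (T^[n] x)‖ := by
      unfold avg
      rw [norm_mul, norm_inv, Complex.norm_natCast]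
      exact mul_le_mul_of_nonneg_left (norm_sum_le _ _) (by positivity)
    have h3 : (∑ n ∈ Finset.range N, ‖u (T^[n] x)‖) ^ 2 ≤
        N * ∑ n ∈ Finset.range N, ‖u (T^[n] x)‖ ^ 2 := by
      have := sq_sum_le_card_mul_sum_sq (s := Finset.range N) (f := fun n => ‖u (T^[n] x)‖)
      simpa using this
    calc ‖avg T u N x‖ ^ 2 ≤ ((N : ℝ)⁻¹ * ∑ n ∈ Finset.range N, ‖u (T^[n] x)‖) ^ 2 :=
          pow_le_pow_left₀ (norm_nonneg _) h2 2
      _ = (N : ℝ)⁻¹ ^ 2 * (∑ n ∈ Finset.range N, ‖u (T^[n] x)‖) ^ 2 := by ring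
      _ ≤ (N : ℝ)⁻¹ ^ 2 * (N * ∑ n ∈ Finset.range N, ‖u (T^[n] x)‖ ^ 2) :=
          mul_le_mul_of_nonneg_left h3 (by positivity)
      _ = _ := by field_simp
  have h5 : ∀ n, ∫ x, ‖u (T^[n] x)‖ ^ 2 ∂μ = ∫ x, ‖u x‖ ^ 2 ∂μ := by
    intro n
    have h6 := (hT.iterate n).map_eq
    conv_rhs => rw [← h6]
    rw [integral_map (hT.iterate n).measurable.aemeasurable]
    rw [h6]
    exact hui.aestronglyMeasurable
  calc ∫ x, ‖avg T u N x‖ ^ 2 ∂μ
      ≤ ∫ x, (N : ℝ)⁻¹ * ∑ n ∈ Finset.range N, ‖u (T^[n] x)‖ ^ 2 ∂μ :=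
        integral_mono_of_nonneg (ae_of_all _ fun x => by positivity)
          ((integrable_finsetSum _ fun n _ => hit n).const_mul _) (ae_of_all _ h1)
    _ = (N : ℝ)⁻¹ * ∑ n ∈ Finset.range N, ∫ x, ‖u (T^[n] x)‖ ^ 2 ∂μ := by
        rw [integral_const_mul, integral_finsetSum]
        exact fun n _ => hit n
    _ = ∫ x, ‖u x‖ ^ 2 ∂μ := by
        simp only [h5, Finset.sum_const, Finset.card_range, nsmul_eq_mul]
        field_simp

omit [MeasurableSpace Ω] [StandardBorelSpace Ω] in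
/-- averaging twice -/
lemma avg_avg {g : Ω → ℂ} {C : ℝ} (hC : ∀ x, ‖g x‖ ≤ C) {K L : ℕ} (hK : K ≠ 0) (hL : L ≠ 0)
    (x : Ω) : ‖avg T g L x - avg T (avg T g K) L x‖ ≤ 2 * K * C / L := by
  have hC0 : 0 ≤ C := (norm_nonneg _).trans (hC x)
  have hKr : (0 : ℝ) < K := by exact_mod_cast Nat.pos_of_ne_zero hK
  have hLr : (0 : ℝ) < L := by exact_mod_cast Nat.pos_of_ne_zero hL
  have hKc : (K : ℂ) ≠ 0 := by exact_mod_cast hK
  set a : ℕ → ℂ := fun n => g (T^[n] x) with ha
  have h1 : avg T (avg T g K) L x =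
      (K : ℂ)⁻¹ * ∑ j ∈ Finset.range K, (L : ℂ)⁻¹ * ∑ n ∈ Finset.range L, a (n + j) := by
    unfold avg
    simp only [ha, Finset.mul_sum]
    rw [Finset.sum_comm]
    refine Finset.sum_congr rfl fun j _ => Finset.sum_congr rfl fun n _ => ?_
    rw [← Function.iterate_add_apply, add_comm j n]
    ring
  have h2 : avg T g L x = (K : ℂ)⁻¹ * ∑ j ∈ Finset.range K, (L : ℂ)⁻¹ *
      ∑ n ∈ Finset.range L, a n := by
    unfold avg
    simp only [Finset.sum_const, Finset.card_range, nsmul_eq_mul]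
    rw [← mul_assoc (K : ℂ)⁻¹, inv_mul_cancel₀ hKc, one_mul]
  have h3 : ∀ j ∈ Finset.range K, ‖∑ n ∈ Finset.range L, a n - ∑ n ∈ Finset.range L, a (n + j)‖ ≤
      2 * K * C := by
    intro j hj
    have hj' : (j : ℝ) ≤ K := by exact_mod_cast (Finset.mem_range.1 hj).le
    have e1 : ∑ n ∈ Finset.range (L + j), a n = ∑ n ∈ Finset.range L, a n +
        ∑ n ∈ Finset.range j, a (L + n) := Finset.sum_range_add _ _ _
    have e2 : ∑ n ∈ Finset.range (j + L), a n = ∑ n ∈ Finset.range j, a n +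
        ∑ n ∈ Finset.range L, a (j + n) := Finset.sum_range_add _ _ _
    have e3 : ∑ n ∈ Finset.range L, a n - ∑ n ∈ Finset.range L, a (n + j) =
        ∑ n ∈ Finset.range j, a n - ∑ n ∈ Finset.range j, a (L + n) := by
      have e4 : ∑ n ∈ Finset.range L, a (n + j) = ∑ n ∈ Finset.range L, a (j + n) :=
        Finset.sum_congr rfl fun n _ => by rw [add_comm]
      rw [e4]
      rw [add_comm j L] at e2
      linear_combination e2 - e1
    rw [e3]
    have b1 : ∀ b : ℕ → ℕ, ‖∑ n ∈ Finset.range j, a (b n)‖ ≤ j * C := by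
      intro b
      refine (norm_sum_le _ _).trans ?_
      refine (Finset.sum_le_sum fun n _ => hC _).trans ?_
      simp
    calc _ ≤ ‖∑ n ∈ Finset.range j, a n‖ + ‖∑ n ∈ Finset.range j, a (L + n)‖ := norm_sub_le _ _
      _ ≤ j * C + j * C := add_le_add (b1 fun n => n) (b1 fun n => L + n)
      _ ≤ 2 * K * C := by nlinarith
  rw [h1, h2, ← mul_sub, ← Finset.sum_sub_distrib]
  rw [norm_mul, norm_inv, Complex.norm_natCast]
  calc (K : ℝ)⁻¹ * ‖∑ j ∈ Finset.range K, ((L : ℂ)⁻¹ * ∑ n ∈ Finset.range L, a n -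
        (L : ℂ)⁻¹ * ∑ n ∈ Finset.range L, a (n + j))‖
      ≤ (K : ℝ)⁻¹ * ∑ j ∈ Finset.range K, (2 * K * C / L) := by
        refine mul_le_mul_of_nonneg_left ?_ (by positivity)
        refine (norm_sum_le _ _).trans (Finset.sum_le_sum fun j hj => ?_)
        rw [← mul_sub, norm_mul, norm_inv, Complex.norm_natCast, div_eq_inv_mul]
        exact mul_le_mul_of_nonneg_left (h3 j hj) (by positivity)
    _ = 2 * K * C / L := by
        simp only [Finset.sum_const, Finset.card_range, nsmul_eq_mul]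
        field_simp

/-- longer averages are almost as good -/
lemma dist2_long (hT : MeasurePreserving T μ μ) {g : Ω → ℂ} (hg : Bdd g) {C : ℝ}
    (hC : ∀ x, ‖g x‖ ≤ C) {K L : ℕ} (hK : K ≠ 0) (hL : L ≠ 0) :
    dist2 μ (avg T g L) (μ[g | MeasurableSpace.invariants T]) ≤
      2 * dist2 μ (avg T g K) (μ[g | MeasurableSpace.invariants T]) +
        2 * (2 * K * C / L) ^ 2 := by
  have hle := MeasurableSpace.invariants_le T
  have hEinv := fun n => condExp_iter (μ := μ) (T := T) n (g := g)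
  have hEm : MemLp (μ[g | MeasurableSpace.invariants T]) 2 μ := condExp_memLp hle hg
  set E := μ[g | MeasurableSpace.invariants T] with hE
  have hLc : (L : ℂ) ≠ 0 := by exact_mod_cast hL
  have hAK : MemLp (avg T g K) 2 μ := Bdd.memLp (bdd_avg hT.measurable hg K)
  set u : Ω → ℂ := fun x => avg T g K x - E x with hu
  have hum : MemLp u 2 μ := hAK.sub hEm
  have hEavg : ∀ x, avg T E L x = E x := by
    intro x
    unfold avg
    have : ∀ n ∈ Finset.range L, E (T^[n] x) = E x := fun n _ => congrFun (hEinv n) x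
    rw [Finset.sum_congr rfl this]
    simp only [Finset.sum_const, Finset.card_range, nsmul_eq_mul]
    rw [← mul_assoc, inv_mul_cancel₀ hLc, one_mul]
  have h1 : ∀ x, avg T g L x - E x = avg T u L x + (avg T g L x - avg T (avg T g K) L x) := by
    intro x
    have e : avg T u L x = avg T (avg T g K) L x - avg T E L x := by
      rw [hu]
      unfold avg
      rw [← mul_sub, ← Finset.sum_sub_distrib]
    rw [e, hEavg]
    ring
  have h2 : ∀ x, ‖avg T g L x - E x‖ ^ 2 ≤ 2 * ‖avg T u L x‖ ^ 2 + 2 * (2 * K * C / L) ^ 2 := by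
    intro x
    have h3 := avg_avg (T := T) hC hK hL x
    have h4 : ‖avg T g L x - E x‖ ≤ ‖avg T u L x‖ + 2 * K * C / L := by
      rw [h1]
      exact (norm_add_le _ _).trans (add_le_add_right h3 _)
    have h5 : 0 ≤ 2 * K * C / L := (norm_nonneg _).trans h3
    nlinarith [norm_nonneg (avg T g L x - E x), norm_nonneg (avg T u L x),
      sq_nonneg (‖avg T u L x‖ - 2 * K * C / L)]
  have hAu : MemLp (avg T u L) 2 μ := by
    have e : avg T u L = fun x => avg T (avg T g K) L x - E x := by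
      funext x
      have e : avg T u L x = avg T (avg T g K) L x - avg T E L x := by
        rw [hu]
        unfold avg
        rw [← mul_sub, ← Finset.sum_sub_distrib]
      rw [e, hEavg]
    rw [e]
    exact (Bdd.memLp (bdd_avg hT.measurable (bdd_avg hT.measurable hg K) L)).sub hEm
  have i1 : Integrable (fun x => 2 * ‖avg T u L x‖ ^ 2) μ := (memLp_int_sq hAu).const_mul 2
  unfold dist2
  calc ∫ x, ‖avg T g L x - E x‖ ^ 2 ∂μ
      ≤ ∫ x, (2 * ‖avg T u L x‖ ^ 2 + 2 * (2 * K * C / L) ^ 2) ∂μ :=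
        integral_mono_of_nonneg (ae_of_all _ fun x => by positivity)
          (i1.add (integrable_const _)) (ae_of_all _ h2)
    _ = 2 * ∫ x, ‖avg T u L x‖ ^ 2 ∂μ + 2 * (2 * K * C / L) ^ 2 := by
        rw [integral_add i1 (integrable_const _), integral_const_mul]
        simp
    _ ≤ _ := by
        have := avg_sq_le hT hum L
        linarith

end one

/-! ### Box averages -/

section box
variable {n : ℕ}

/-- `ε · h` -/
def ex (ε : Vx n) (h : Fin n → ℕ) : ℕ := ∑ i, if ε i then h i else 0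

/-- the product along a parallelepiped -/
noncomputable def GG {α : Type} (S : α → α) (f : Vx n → α → ℂ) (h : Fin n → ℕ) (x : α) : ℂ :=
  ∏ ε, f ε (S^[ex ε h] x)

/-- the box -/
def bx (H : Fin n → ℕ) : Finset (Fin n → ℕ) := Fintype.piFinset fun i => Finset.range (H i)

/-- complex box averages -/
noncomputable def bac (H : Fin n → ℕ) (w : (Fin n → ℕ) → ℂ) : ℂ :=
  (∏ i, (H i : ℂ))⁻¹ * ∑ h ∈ bx H, w h

/-- real box averages -/
noncomputable def bav (H : Fin n → ℕ) (w : (Fin n → ℕ) → ℝ) : ℝ :=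
  (∏ i, (H i : ℝ))⁻¹ * ∑ h ∈ bx H, w h

lemma bac_ofReal (H : Fin n → ℕ) (w : (Fin n → ℕ) → ℝ) :
    bac H (fun h => (w h : ℂ)) = ((bav H w : ℝ) : ℂ) := by
  unfold bac bav
  push_cast
  rfl

lemma bac_mul (H : Fin n → ℕ) (c : ℂ) (w : (Fin n → ℕ) → ℂ) :
    bac H (fun h => c * w h) = c * bac H w := by
  unfold bac
  rw [← Finset.mul_sum]
  ring

lemma bac_sum {ι : Type} (s : Finset ι) (H : Fin n → ℕ) (w : ι → (Fin n → ℕ) → ℂ) :
    bac H (fun h => ∑ i ∈ s, w i h) = ∑ i ∈ s, bac H (w i) := by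
  unfold bac
  rw [Finset.sum_comm, Finset.mul_sum]

lemma bac_sub (H : Fin n → ℕ) (v w : (Fin n → ℕ) → ℂ) :
    bac H (fun h => v h - w h) = bac H v - bac H w := by
  unfold bac
  rw [Finset.sum_sub_distrib]
  ring

lemma bav_sub (H : Fin n → ℕ) (v w : (Fin n → ℕ) → ℝ) :
    bav H (fun h => v h - w h) = bav H v - bav H w := by
  unfold bav
  rw [Finset.sum_sub_distrib]
  ring

lemma bav_mono (H : Fin n → ℕ) {v w : (Fin n → ℕ) → ℝ} (h : ∀ x, v x ≤ w x) :
    bav H v ≤ bav H w := by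
  unfold bav
  exact mul_le_mul_of_nonneg_left (Finset.sum_le_sum fun x _ => h x) (by positivity)

lemma bav_lin (H : Fin n → ℕ) (hH : ∀ i, H i ≠ 0) (a b : ℝ) (w : (Fin n → ℕ) → ℝ) :
    bav H (fun h => a * w h + b) = a * bav H w + b := by
  unfold bav
  rw [Finset.sum_add_distrib, ← Finset.mul_sum, Finset.sum_const]
  have hc : (bx H).card = ∏ i, H i := by
    unfold bx
    rw [Fintype.card_piFinset]
    simp
  have h0 : (∏ i, (H i : ℝ)) ≠ 0 := Finset.prod_ne_zero_iff.2 fun i _ => by exact_mod_cast hH i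
  rw [hc, nsmul_eq_mul]
  push_cast
  field_simp

lemma norm_bac_le (H : Fin n → ℕ) (w : (Fin n → ℕ) → ℂ) : ‖bac H w‖ ≤ bav H fun h => ‖w h‖ := by
  unfold bac bav
  rw [norm_mul, norm_inv, norm_prod]
  simp only [Complex.norm_natCast]
  exact mul_le_mul_of_nonneg_left (norm_sum_le _ _) (by positivity)

lemma ex_cons (b : Bool) (ε : Vx n) (k : ℕ) (h : Fin n → ℕ) :
    ex (Fin.cons b ε : Vx (n + 1)) (Fin.cons k h) = (if b then k else 0) + ex ε h := by
  unfold ex
  rw [Fin.sum_univ_succ]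
  simp

lemma GG_cons {α : Type} (S : α → α) (f : Vx (n + 1) → α → ℂ) (k : ℕ) (h : Fin n → ℕ) (x : α) :
    GG S f (Fin.cons k h) x =
      GG S (fun ε => f (Fin.cons false ε)) h x * GG S (fun ε => f (Fin.cons true ε)) h (S^[k] x) := by
  unfold GG
  rw [prod_cube_succ]
  congr 1
  · refine Finset.prod_congr rfl fun ε _ => ?_
    rw [ex_cons]
    simp
  · refine Finset.prod_congr rfl fun ε _ => ?_
    rw [ex_cons]
    simp only [if_true]
    rw [add_comm k (ex ε h), Function.iterate_add_apply]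

lemma bac_succ (H : Fin (n + 1) → ℕ) (w : (Fin (n + 1) → ℕ) → ℂ) :
    bac H w = bac (Fin.tail H) fun h =>
      (H 0 : ℂ)⁻¹ * ∑ k ∈ Finset.range (H 0), w (Fin.cons k h) := by
  unfold bac
  rw [Fin.prod_univ_succ, mul_inv]
  have h1 : ∑ h ∈ bx H, w h =
      ∑ h ∈ bx (Fin.tail H), ∑ k ∈ Finset.range (H 0), w (Fin.cons k h) := by
    rw [← Finset.sum_product']
    refine Finset.sum_nbij' (fun h => (Fin.tail h, h 0)) (fun p => Fin.cons p.2 p.1) ?_ ?_ ?_ ?_ ?_
    · intro h hh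
      simp only [bx, Fintype.mem_piFinset] at hh
      simp only [bx, Finset.mem_product, Fintype.mem_piFinset]
      exact ⟨fun i => hh i.succ, hh 0⟩
    · intro p hp
      simp only [bx, Finset.mem_product, Fintype.mem_piFinset] at hp
      simp only [bx, Fintype.mem_piFinset]
      intro i
      refine Fin.cases ?_ (fun j => ?_) i
      · simpa using hp.2
      · have := hp.1 j
        simpa [Fin.tail] using this
    · intro h _
      exact Fin.cons_self_tail h
    · intro p _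
      simp
    · intro h _
      simp only [Fin.cons_self_tail]
  rw [h1, ← Finset.mul_sum]
  have h2 : (∏ i : Fin n, (H i.succ : ℂ)) = ∏ i, (Fin.tail H i : ℂ) := rfl
  rw [h2]
  ring

lemma Bdd.GG {α : Type} [MeasurableSpace α] {S : α → α} (hS : Measurable S) {f : Vx n → α → ℂ}
    (hf : ∀ ε, Bdd (f ε)) (h : Fin n → ℕ) : Bdd (GG S f h) :=
  Bdd.prod _ fun ε _ => (hf ε).comp (hS.iterate _)

lemma exists_bound {α : Type} [MeasurableSpace α] {f : Vx n → α → ℂ}
    (hf : ∀ ε, Bdd (f ε)) : ∃ C : ℝ, 0 ≤ C ∧ ∀ (S : α → α) (h : Fin n → ℕ) (x : α),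
      ‖GG S f h x‖ ≤ C := by
  choose hm C hC using hf
  refine ⟨∏ ε, |C ε|, by positivity, fun S h x => ?_⟩
  unfold BoxM.GG
  rw [norm_prod]
  exact Finset.prod_le_prod (fun _ _ => norm_nonneg _) fun ε _ => (hC ε _).trans (le_abs_self _)

/-- `K^{-2} ∑ ∑ ∫ g(T^k) conj g(T^k')` -/
lemma expand {Ω : Type} [MeasurableSpace Ω] {μ : Measure Ω} [IsProbabilityMeasure μ] {T : Ω → Ω}
    (hT : Measurable T) {g : Ω → ℂ} (hg : Bdd g) (K : ℕ) :
    ((∫ x, ‖avg T g K x‖ ^ 2 ∂μ : ℝ) : ℂ) = (K : ℂ)⁻¹ * (K : ℂ)⁻¹ *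
      ∑ k ∈ Finset.range K, ∑ k' ∈ Finset.range K, ∫ x, g (T^[k] x) * conj (g (T^[k'] x)) ∂μ := by
  have hb : ∀ k k', Bdd fun x => g (T^[k] x) * conj (g (T^[k'] x)) := fun k k' =>
    (hg.comp (hT.iterate k)).mul (hg.comp (hT.iterate k')).conj
  have h1 : ∀ x, ((‖avg T g K x‖ ^ 2 : ℝ) : ℂ) = (K : ℂ)⁻¹ * (K : ℂ)⁻¹ *
      ∑ k ∈ Finset.range K, ∑ k' ∈ Finset.range K, g (T^[k] x) * conj (g (T^[k'] x)) := by
    intro x
    push_cast
    rw [← Complex.mul_conj']
    unfold avg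
    rw [map_mul, map_inv₀, map_sum, Complex.conj_natCast]
    rw [← Finset.sum_mul_sum]
    ring
  rw [← integral_complex_ofReal]
  simp only [h1]
  rw [integral_const_mul, integral_finsetSum]
  · congr 1
    refine Finset.sum_congr rfl fun k _ => ?_
    rw [integral_finsetSum]
    exact fun k' _ => (hb k k').integrable μ
  · intro k _
    exact integrable_finsetSum _ fun k' _ => (hb k k').integrable μ

end box

/-! ### The square system -/

section sq
variable {α : Type} [mα : MeasurableSpace α] [StandardBorelSpace α] (X : Sys α)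

/-- the relative square as a system -/
noncomputable def X2 : Sys (α × α) where
  μ := relSq (MeasurableSpace.invariants_le X.S) X.μ
  prob := inferInstance
  S := X.S.prodCongr X.S
  mp := by
    have h1 : (X.S.prodCongr X.S : α × α → α × α) = Prod.map X.S id ∘ Prod.map id X.S := by
      funext p; rfl
    rw [h1]
    have m1 : MeasurePreserving (Prod.map id X.S) (relSq (MeasurableSpace.invariants_le X.S) X.μ)
        (relSq (MeasurableSpace.invariants_le X.S) X.μ) :=
      ⟨measurable_id.prodMap X.S.measurable, relSq_map_snd X.mp⟩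
    have m2 : MeasurePreserving (Prod.map X.S id) (relSq (MeasurableSpace.invariants_le X.S) X.μ)
        (relSq (MeasurableSpace.invariants_le X.S) X.μ) :=
      ⟨X.S.measurable.prodMap measurable_id, relSq_map_fst X.mp⟩
    exact m2.comp m1

lemma X2_S (p : α × α) : (X2 X).S p = (X.S p.1, X.S p.2) := rfl

lemma X2_iter (k : ℕ) (p : α × α) : ((X2 X).S)^[k] p = (X.S^[k] p.1, X.S^[k] p.2) := by
  induction k generalizing p with
  | zero => rfl
  | succ k ih => rw [Function.iterate_succ_apply, ih, X2_S]; rfl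

lemma GG_X2 {n : ℕ} (f g : Vx n → α → ℂ) (h : Fin n → ℕ) (p : α × α) :
    GG (X2 X).S (fun ε p => f ε p.1 * g ε p.2) h p = GG X.S f h p.1 * GG X.S g h p.2 := by
  unfold GG
  rw [← Finset.prod_mul_distrib]
  refine Finset.prod_congr rfl fun ε _ => ?_
  rw [X2_iter]

lemma int_X2 {n : ℕ} {f g : Vx n → α → ℂ} (hf : ∀ ε, Bdd (f ε)) (hg : ∀ ε, Bdd (g ε))
    (h : Fin n → ℕ) :
    ∫ p, GG (X2 X).S (fun ε p => f ε p.1 * g ε p.2) h p ∂(X2 X).μ =
      ∫ x, GG X.S f h x * (X.μ[GG X.S g h | MeasurableSpace.invariants X.S]) x ∂X.μ := by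
  simp only [GG_X2]
  exact integral_relSq_mul _ _ (Bdd.GG X.S.measurable hf h) (Bdd.GG X.S.measurable hg h)

lemma cm_X2 (hC : SpecCubeSq) {n : ℕ} {f g : Vx n → α → ℂ} (hf : ∀ ε, Bdd (f ε))
    (hg : ∀ ε, Bdd (g ε)) :
    ∫ x, ∏ ε, (f ε (x ε).1 * g ε (x ε).2) ∂((X2 X).cm n) =
      ∫ y, (∏ ε, f ε (lo y ε)) * ∏ ε, g ε (hi y ε) ∂(X.cm (n + 1)) := by
  have h := hC α X (X2 X) (X2_S X) rfl n
  have hb : Bdd fun y : Cube (n + 1) α => (∏ ε, f ε (lo y ε)) * ∏ ε, g ε (hi y ε) :=
    (Bdd.prod _ fun ε _ => (hf ε).comp ((measurable_pi_apply ε).comp measurable_lo)).mul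
      (Bdd.prod _ fun ε _ => (hg ε).comp ((measurable_pi_apply ε).comp measurable_hi))
  rw [← int_comp h hb.1]
  refine integral_congr_ae (ae_of_all _ fun x => ?_)
  simp only [lo_join, hi_join]
  rw [Finset.prod_mul_distrib]

end sq

/-- the statement for `n` directions -/
def BoxN (n : ℕ) : Prop :=
  ∀ (α : Type) [MeasurableSpace α] [StandardBorelSpace α] (X : Sys α) (f : Vx n → α → ℂ),
    (∀ ε, Bdd (f ε)) → Tendsto (fun H : Fin n → ℕ => bac H fun h => ∫ x, GG X.S f h x ∂X.μ) atTop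
      (𝓝 (∫ x, ∏ ε, f ε (x ε) ∂(X.cm n)))

section step
variable {α : Type} [mα : MeasurableSpace α] [StandardBorelSpace α] (X : Sys α) {n : ℕ}

lemma tendsto_V1 (hB : BoxN n) {f : Vx n → α → ℂ} (hf : ∀ ε, Bdd (f ε)) (K : ℕ) :
    Tendsto (fun H : Fin n → ℕ => bav H fun h => ∫ x, ‖avg X.S (GG X.S f h) K x‖ ^ 2 ∂X.μ) atTop
      (𝓝 (∫ x, ‖avg (cmap X.S) (fun x : Cube n α => ∏ ε, f ε (x ε)) K x‖ ^ 2 ∂(X.cm n))) := by
  have hF : Bdd (fun x : Cube n α => ∏ ε, f ε (x ε)) :=
    Bdd.prod _ fun ε _ => (hf ε).comp (measurable_pi_apply ε)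
  have key : Tendsto (fun H : Fin n → ℕ => ((bav H fun h =>
      ∫ x, ‖avg X.S (GG X.S f h) K x‖ ^ 2 ∂X.μ : ℝ) : ℂ)) atTop
      (𝓝 (((∫ x, ‖avg (cmap X.S) (fun x : Cube n α => ∏ ε, f ε (x ε)) K x‖ ^ 2 ∂(X.cm n) : ℝ)) : ℂ)) := by
    rw [expand (X.measurable_cmapS n) hF K]
    have e : ∀ H : Fin n → ℕ, ((bav H fun h =>
        ∫ x, ‖avg X.S (GG X.S f h) K x‖ ^ 2 ∂X.μ : ℝ) : ℂ) = (K : ℂ)⁻¹ * (K : ℂ)⁻¹ *
        ∑ k ∈ Finset.range K, ∑ k' ∈ Finset.range K, bac H fun h =>
          ∫ x, GG X.S (fun ε x => f ε (X.S^[k] x) * conj (f ε (X.S^[k'] x))) h x ∂X.μ := by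
      intro H
      rw [← bac_ofReal]
      have e1 : ∀ h, ((∫ x, ‖avg X.S (GG X.S f h) K x‖ ^ 2 ∂X.μ : ℝ) : ℂ) =
          (K : ℂ)⁻¹ * (K : ℂ)⁻¹ * ∑ k ∈ Finset.range K, ∑ k' ∈ Finset.range K,
          ∫ x, GG X.S (fun ε x => f ε (X.S^[k] x) * conj (f ε (X.S^[k'] x))) h x ∂X.μ := by
        intro h
        rw [expand X.S.measurable (Bdd.GG X.S.measurable hf h) K]
        congr 1
        refine Finset.sum_congr rfl fun k _ => Finset.sum_congr rfl fun k' _ => ?_
        refine integral_congr_ae (ae_of_all _ fun x => ?_)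
        simp only
        unfold GG
        rw [map_prod, ← Finset.prod_mul_distrib]
        refine Finset.prod_congr rfl fun ε _ => ?_
        change f ε (X.S^[ex ε h] (X.S^[k] x)) * conj (f ε (X.S^[ex ε h] (X.S^[k'] x))) =
          f ε (X.S^[k] (X.S^[ex ε h] x)) * conj (f ε (X.S^[k'] (X.S^[ex ε h] x)))
        rw [← Function.iterate_add_apply, ← Function.iterate_add_apply,
          ← Function.iterate_add_apply, ← Function.iterate_add_apply, add_comm k, add_comm k']
      simp only [e1]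
      rw [bac_mul, bac_sum]
      congr 1
      refine Finset.sum_congr rfl fun k _ => ?_
      rw [bac_sum]
    simp only [e]
    refine Tendsto.const_mul _ (tendsto_finset_sum _ fun k _ => tendsto_finset_sum _ fun k' _ => ?_)
    have h1 := hB α X (fun ε x => f ε (X.S^[k] x) * conj (f ε (X.S^[k'] x))) fun ε =>
      ((hf ε).comp (X.S.measurable.iterate k)).mul ((hf ε).comp (X.S.measurable.iterate k')).conj
    refine h1.trans (le_of_eq ?_)
    congr 1
    refine integral_congr_ae (ae_of_all _ fun x => ?_)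
    simp only
    rw [map_prod, ← Finset.prod_mul_distrib]
    refine Finset.prod_congr rfl fun ε _ => ?_
    rw [iter_cmap, iter_cmap]
    rfl
  have h2 := (Complex.continuous_re.tendsto _).comp key
  simpa [Function.comp_def] using h2

lemma tendsto_V2 (hB : BoxN n) (hC : SpecCubeSq) {f : Vx n → α → ℂ} (hf : ∀ ε, Bdd (f ε)) :
    Tendsto (fun H : Fin n → ℕ => bav H fun h =>
        ∫ x, ‖(X.μ[GG X.S f h | MeasurableSpace.invariants X.S]) x‖ ^ 2 ∂X.μ) atTop
      (𝓝 (∫ x, ‖((X.cm n)[fun x : Cube n α => ∏ ε, f ε (x ε) |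
        MeasurableSpace.invariants (cmap X.S)]) x‖ ^ 2 ∂(X.cm n))) := by
  have hF : Bdd (fun x : Cube n α => ∏ ε, f ε (x ε)) :=
    Bdd.prod _ fun ε _ => (hf ε).comp (measurable_pi_apply ε)
  have hfc : ∀ ε, Bdd (fun x => conj (f ε x)) := fun ε => (hf ε).conj
  have h1 := hB (α × α) (X2 X) (fun ε p => f ε p.1 * conj (f ε p.2)) fun ε =>
    ((hf ε).comp measurable_fst).mul ((hfc ε).comp measurable_snd)
  have e1 : ∫ x, ∏ ε, (f ε (x ε).1 * conj (f ε (x ε).2)) ∂((X2 X).cm n) =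
      ((∫ x, ‖((X.cm n)[fun x : Cube n α => ∏ ε, f ε (x ε) |
        MeasurableSpace.invariants (cmap X.S)]) x‖ ^ 2 ∂(X.cm n) : ℝ) : ℂ) := by
    rw [cm_X2 X hC hf hfc, X.integral_cm_succ n]
    refine Eq.trans ?_ (relSq_self (X.inv_le n) (X.cm n) hF)
    refine integral_congr_ae (ae_of_all _ fun p => ?_)
    simp only [lo_join, hi_join]
    rw [map_prod]
  rw [e1] at h1
  have e2 : ∀ H : Fin n → ℕ, bac H (fun h => ∫ x, GG (X2 X).S
      (fun ε p => f ε p.1 * conj (f ε p.2)) h x ∂(X2 X).μ) = ((bav H fun h =>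
        ∫ x, ‖(X.μ[GG X.S f h | MeasurableSpace.invariants X.S]) x‖ ^ 2 ∂X.μ : ℝ) : ℂ) := by
    intro H
    rw [← bac_ofReal]
    congr 1
    funext h
    have hG := Bdd.GG X.S.measurable hf h
    rw [← relSq_self (MeasurableSpace.invariants_le X.S) X.μ hG]
    refine integral_congr_ae (ae_of_all _ fun p => ?_)
    simp only
    rw [GG_X2 X f (fun ε x => conj (f ε x))]
    congr 1
    unfold GG
    rw [map_prod]
  simp only [e2] at h1
  have h2 := (Complex.continuous_re.tendsto _).comp h1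
  simpa [Function.comp_def] using h2

lemma small_V (hMET : SpecMET) (hB : BoxN n) (hC : SpecCubeSq) {f : Vx n → α → ℂ}
    (hf : ∀ ε, Bdd (f ε)) {δ : ℝ} (hδ : 0 < δ) :
    ∃ K0 : ℕ, K0 ≠ 0 ∧ ∃ H0 : Fin n → ℕ, ∀ K ≥ K0, ∀ H ≥ H0, (∀ i, H i ≠ 0) ∧
      bav H (fun h => dist2 X.μ (avg X.S (GG X.S f h) K)
        (X.μ[GG X.S f h | MeasurableSpace.invariants X.S])) ≤ δ := by
  have hF : Bdd (fun x : Cube n α => ∏ ε, f ε (x ε)) :=
    Bdd.prod _ fun ε _ => (hf ε).comp (measurable_pi_apply ε)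
  obtain ⟨C, hC0, hCb⟩ := exists_bound hf
  have h1 := hMET (Cube n α) (X.cm n) (cmap X.S) (X.mp_cmap n) _ hF
  have h2 : ∀ᶠ K : ℕ in atTop, dist2 (X.cm n) (avg (cmap X.S) (fun x : Cube n α => ∏ ε, f ε (x ε)) K)
      ((X.cm n)[fun x : Cube n α => ∏ ε, f ε (x ε) | MeasurableSpace.invariants (cmap X.S)]) <
      δ / 8 := h1.eventually_lt_const (by positivity)
  obtain ⟨K1, hK1, hK1'⟩ := (h2.and (eventually_ge_atTop 1)).exists
  have hK1n : K1 ≠ 0 := by omega
  have h3 : Tendsto (fun H : Fin n → ℕ => bav H (fun h => dist2 X.μ (avg X.S (GG X.S f h) K1)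
      (X.μ[GG X.S f h | MeasurableSpace.invariants X.S]))) atTop
      (𝓝 (dist2 (X.cm n) (avg (cmap X.S) (fun x : Cube n α => ∏ ε, f ε (x ε)) K1)
      ((X.cm n)[fun x : Cube n α => ∏ ε, f ε (x ε) | MeasurableSpace.invariants (cmap X.S)]))) := by
    rw [pyth (X.mp_cmap n) hF hK1n]
    have e : ∀ H : Fin n → ℕ, bav H (fun h => dist2 X.μ (avg X.S (GG X.S f h) K1)
      (X.μ[GG X.S f h | MeasurableSpace.invariants X.S])) =
      (bav H fun h => ∫ x, ‖avg X.S (GG X.S f h) K1 x‖ ^ 2 ∂X.μ) - (bav H fun h =>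
        ∫ x, ‖(X.μ[GG X.S f h | MeasurableSpace.invariants X.S]) x‖ ^ 2 ∂X.μ) := by
      intro H
      rw [← bav_sub]
      congr 1
      funext h
      exact pyth X.mp (Bdd.GG X.S.measurable hf h) hK1n
    simp only [e]
    exact (tendsto_V1 X hB hf K1).sub (tendsto_V2 X hB hC hf)
  have h4 := h3.eventually_lt_const (show _ < δ / 4 by linarith)
  have h5 : ∀ᶠ H : Fin n → ℕ in atTop, ∀ i, 1 ≤ H i := eventually_ge_atTop (fun _ => 1)
  obtain ⟨H0, hH0⟩ := (h4.and h5).exists_forall_of_atTop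
  have h6 : Tendsto (fun L : ℕ => 2 * (2 * K1 * C / (L : ℝ)) ^ 2) atTop (𝓝 (2 * 0 ^ 2)) :=
    ((tendsto_const_div_atTop_nhds_zero_nat (2 * K1 * C)).pow 2).const_mul 2
  have h7 : ∀ᶠ L : ℕ in atTop, 2 * (2 * K1 * C / (L : ℝ)) ^ 2 < δ / 2 :=
    h6.eventually_lt_const (by simpa using by positivity)
  obtain ⟨K0, hK0⟩ := (h7.and (eventually_ge_atTop 1)).exists_forall_of_atTop
  refine ⟨K0, by have := (hK0 K0 le_rfl).2; omega, H0, fun K hK H hH => ?_⟩
  obtain ⟨h8, h9⟩ := hH0 H hH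
  have hH' : ∀ i, H i ≠ 0 := fun i => by have := h9 i; omega
  obtain ⟨h10, h11⟩ := hK0 K hK
  refine ⟨hH', ?_⟩
  calc bav H (fun h => dist2 X.μ (avg X.S (GG X.S f h) K)
        (X.μ[GG X.S f h | MeasurableSpace.invariants X.S]))
      ≤ bav H (fun h => 2 * dist2 X.μ (avg X.S (GG X.S f h) K1)
        (X.μ[GG X.S f h | MeasurableSpace.invariants X.S]) + 2 * (2 * K1 * C / K) ^ 2) :=
        bav_mono H fun h => dist2_long X.mp (Bdd.GG X.S.measurable hf h) (hCb X.S h) hK1n (by omega)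
    _ = 2 * bav H (fun h => dist2 X.μ (avg X.S (GG X.S f h) K1)
        (X.μ[GG X.S f h | MeasurableSpace.invariants X.S])) + 2 * (2 * K1 * C / K) ^ 2 :=
        bav_lin H hH' _ _ _
    _ ≤ δ := by linarith

/-- The induction step. -/
lemma step (hMET : SpecMET) (hB : BoxN n) (hC : SpecCubeSq) {f : Vx (n + 1) → α → ℂ}
    (hf : ∀ ε, Bdd (f ε)) :
    Tendsto (fun H : Fin (n + 1) → ℕ => bac H fun h => ∫ x, GG X.S f h x ∂X.μ) atTop
      (𝓝 (∫ x, ∏ ε, f ε (x ε) ∂(X.cm (n + 1)))) := by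
  set f0 : Vx n → α → ℂ := fun ε => f (Fin.cons false ε) with hf0d
  set f1 : Vx n → α → ℂ := fun ε => f (Fin.cons true ε) with hf1d
  have hf0 : ∀ ε, Bdd (f0 ε) := fun ε => hf _
  have hf1 : ∀ ε, Bdd (f1 ε) := fun ε => hf _
  obtain ⟨C, hC0, hCb⟩ := exists_bound hf0
  have htail : Tendsto (fun H : Fin (n + 1) → ℕ => Fin.tail H) atTop atTop := by
    refine tendsto_atTop.2 fun b => ?_
    filter_upwards [eventually_ge_atTop (Fin.cons 0 b : Fin (n + 1) → ℕ)] with H hH i
    have := hH i.succ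
    simpa [Fin.tail] using this
  -- the main term
  have hm : Tendsto (fun H : Fin (n + 1) → ℕ => bac (Fin.tail H) fun h =>
      ∫ x, GG X.S f0 h x * (X.μ[GG X.S f1 h | MeasurableSpace.invariants X.S]) x ∂X.μ) atTop
      (𝓝 (∫ x, ∏ ε, f ε (x ε) ∂(X.cm (n + 1)))) := by
    have h1 := hB (α × α) (X2 X) (fun ε p => f0 ε p.1 * f1 ε p.2) fun ε =>
      ((hf0 ε).comp measurable_fst).mul ((hf1 ε).comp measurable_snd)
    rw [cm_X2 X hC hf0 hf1] at h1
    have e1 : ∫ y, (∏ ε, f0 ε (lo y ε)) * ∏ ε, f1 ε (hi y ε) ∂(X.cm (n + 1)) =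
        ∫ x, ∏ ε, f ε (x ε) ∂(X.cm (n + 1)) := by
      refine integral_congr_ae (ae_of_all _ fun y => ?_)
      simp only
      rw [prod_cube_succ]
      rfl
    rw [e1] at h1
    have h2 := h1.comp htail
    refine h2.congr fun H => ?_
    simp only [Function.comp]
    congr 1
    funext h
    exact int_X2 X hf0 hf1 h
  -- the error term
  have he : Tendsto (fun H : Fin (n + 1) → ℕ => (bac H fun h => ∫ x, GG X.S f h x ∂X.μ) -
      bac (Fin.tail H) fun h =>
      ∫ x, GG X.S f0 h x * (X.μ[GG X.S f1 h | MeasurableSpace.invariants X.S]) x ∂X.μ) atTop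
      (𝓝 0) := by
    rw [Metric.tendsto_nhds]
    intro δ hδ
    -- parameters
    set η : ℝ := δ / (2 * (C + 1)) with hη
    have hηp : 0 < η := by positivity
    obtain ⟨K0, hK0, H0, hKH⟩ := small_V X hMET hB hC hf1 (δ := η ^ 2) (by positivity)
    filter_upwards [eventually_ge_atTop (Fin.cons K0 H0 : Fin (n + 1) → ℕ)] with H hH
    have hH1 : K0 ≤ H 0 := by simpa using hH 0
    have hH2 : H0 ≤ Fin.tail H := fun i => by simpa [Fin.tail] using hH i.succ
    obtain ⟨hne, hV⟩ := hKH (H 0) hH1 (Fin.tail H) hH2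
    have hH0ne : H 0 ≠ 0 := by omega
    rw [dist_zero_right, bac_succ, ← bac_sub]
    have e1 : ∀ h : Fin n → ℕ, (H 0 : ℂ)⁻¹ * ∑ k ∈ Finset.range (H 0),
        ∫ x, GG X.S f (Fin.cons k h) x ∂X.μ -
        ∫ x, GG X.S f0 h x * (X.μ[GG X.S f1 h | MeasurableSpace.invariants X.S]) x ∂X.μ =
        ∫ x, GG X.S f0 h x * (avg X.S (GG X.S f1 h) (H 0) x -
          (X.μ[GG X.S f1 h | MeasurableSpace.invariants X.S]) x) ∂X.μ := by
      intro h
      have hG0 := Bdd.GG X.S.measurable hf0 h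
      have hG1 := Bdd.GG X.S.measurable hf1 h
      have e2 : (H 0 : ℂ)⁻¹ * ∑ k ∈ Finset.range (H 0),
          ∫ x, GG X.S f (Fin.cons k h) x ∂X.μ =
          ∫ x, GG X.S f0 h x * avg X.S (GG X.S f1 h) (H 0) x ∂X.μ := by
        have e3 : (fun x => GG X.S f0 h x * avg X.S (GG X.S f1 h) (H 0) x) = fun x =>
            (H 0 : ℂ)⁻¹ * ∑ k ∈ Finset.range (H 0), GG X.S f (Fin.cons k h) x := by
          funext x
          unfold avg
          simp only [GG_cons]
          rw [← Finset.mul_sum]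
          ring
        rw [e3, integral_const_mul, integral_finsetSum]
        intro k _
        exact (Bdd.GG X.S.measurable hf _).integrable _
      rw [e2, ← integral_sub]
      · refine integral_congr_ae (ae_of_all _ fun x => ?_)
        simp only
        ring
      · exact (hG0.mul (bdd_avg X.S.measurable hG1 _)).integrable _
      · exact integrable_mul_condExp hG0
    simp only [e1]
    have hbound : ∀ h : Fin n → ℕ, ‖∫ x, GG X.S f0 h x * (avg X.S (GG X.S f1 h) (H 0) x -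
          (X.μ[GG X.S f1 h | MeasurableSpace.invariants X.S]) x) ∂X.μ‖ ≤
        (C / (2 * η)) * dist2 X.μ (avg X.S (GG X.S f1 h) (H 0))
          (X.μ[GG X.S f1 h | MeasurableSpace.invariants X.S]) + C * η / 2 := by
      intro h
      have hG1 := Bdd.GG X.S.measurable hf1 h
      have hu : MemLp (fun x => avg X.S (GG X.S f1 h) (H 0) x -
          (X.μ[GG X.S f1 h | MeasurableSpace.invariants X.S]) x) 2 X.μ :=
        (Bdd.memLp (bdd_avg X.S.measurable hG1 _)).sub
          (condExp_memLp (MeasurableSpace.invariants_le X.S) hG1)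
      set u : α → ℂ := fun x => avg X.S (GG X.S f1 h) (H 0) x -
          (X.μ[GG X.S f1 h | MeasurableSpace.invariants X.S]) x with hud
      have i1 : Integrable (fun x => ‖u x‖ ^ 2) X.μ := memLp_int_sq hu
      have i2 : Integrable (fun x => C / (2 * η) * ‖u x‖ ^ 2 + C * η / 2) X.μ :=
        (i1.const_mul _).add (integrable_const _)
      have hp : ∀ x, ‖GG X.S f0 h x * u x‖ ≤ C / (2 * η) * ‖u x‖ ^ 2 + C * η / 2 := by
        intro x
        rw [norm_mul]
        have h1 : ‖GG X.S f0 h x‖ * ‖u x‖ ≤ C * ‖u x‖ :=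
          mul_le_mul_of_nonneg_right (hCb X.S h x) (norm_nonneg _)
        have h2 : ‖u x‖ ≤ ‖u x‖ ^ 2 / (2 * η) + η / 2 := by
          have h3 : 0 ≤ (‖u x‖ - η) ^ 2 / (2 * η) := by positivity
          have h4 : (‖u x‖ - η) ^ 2 / (2 * η) = ‖u x‖ ^ 2 / (2 * η) + η / 2 - ‖u x‖ := by
            field_simp
            ring
          linarith
        calc ‖GG X.S f0 h x‖ * ‖u x‖ ≤ C * ‖u x‖ := h1
          _ ≤ C * (‖u x‖ ^ 2 / (2 * η) + η / 2) := mul_le_mul_of_nonneg_left h2 hC0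
          _ = _ := by ring
      refine (norm_integral_le_of_norm_le i2 (ae_of_all _ hp)).trans (le_of_eq ?_)
      rw [integral_add (i1.const_mul _) (integrable_const _), integral_const_mul]
      simp [dist2, hud]
    calc ‖bac (Fin.tail H) _‖ ≤ bav (Fin.tail H) _ := norm_bac_le _ _
      _ ≤ bav (Fin.tail H) (fun h => (C / (2 * η)) * dist2 X.μ (avg X.S (GG X.S f1 h) (H 0))
          (X.μ[GG X.S f1 h | MeasurableSpace.invariants X.S]) + C * η / 2) :=
          bav_mono _ hbound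
      _ = (C / (2 * η)) * bav (Fin.tail H) (fun h => dist2 X.μ (avg X.S (GG X.S f1 h) (H 0))
          (X.μ[GG X.S f1 h | MeasurableSpace.invariants X.S])) + C * η / 2 :=
          bav_lin _ hne _ _ _
      _ ≤ (C / (2 * η)) * η ^ 2 + C * η / 2 := by
          have : 0 ≤ C / (2 * η) := by positivity
          have := mul_le_mul_of_nonneg_left hV this
          linarith
      _ = C * η := by field_simp; ring
      _ < δ := by
          rw [hη]
          rw [mul_div_assoc', div_lt_iff₀ (by positivity)]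
          nlinarith
  have := he.add hm
  simpa using this

end step

end BoxM

open BoxM in
theorem specBox (hMET : SpecMET) (hC : SpecCubeSq) : SpecBox := by
  have key : ∀ n, BoxN n := by
    intro n
    induction n with
    | zero =>
      intro α _ _ X f hf
      have h1 : ∀ H : Fin 0 → ℕ, bac H (fun h => ∫ x, GG X.S f h x ∂X.μ) =
          ∫ x, ∏ ε, f ε (x ε) ∂(X.cm 0) := by
        intro H
        have hb : Bdd fun x : Cube 0 α => ∏ ε, f ε (x ε) :=
          Bdd.prod _ fun ε _ => (hf ε).comp (measurable_pi_apply ε)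
        rw [X.integral_cm_zero _ hb.1.stronglyMeasurable]
        have h2 : bx H = {H} := by
          ext h
          simp only [bx, Fintype.mem_piFinset, Finset.mem_singleton]
          constructor
          · intro _; exact Subsingleton.elim _ _
          · intro _ i; exact i.elim0
        unfold bac
        rw [h2]
        simp only [Finset.univ_eq_empty, Finset.prod_empty, inv_one, one_mul,
          Finset.sum_singleton]
        refine integral_congr_ae (ae_of_all _ fun x => ?_)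
        simp only [GG]
        refine Finset.prod_congr rfl fun ε _ => ?_
        simp [ex, pt]
      simp only [h1]
      exact tendsto_const_nhds
    | succ n ih =>
      intro α _ _ X f hf
      exact step X hMET ih hC hf
  intro α _ _ X n f hf
  exact key n α X f hf

end MPd26.HK
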