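import Pool.Agent.Lib.MP_d26cd8_an.HK.A_Dual

/-!
# MP_d26cd8_an, HK: module CI (helper18)

Conditional independence of one vertex and the others over `Z_k`.
-/

set_option autoImplicit false

open MeasureTheory ProbabilityTheory Filter Topology
open scoped ComplexConjugate ENNReal

namespace MPd26.HK

namespace CIM

variable {α : Type} [mα : MeasurableSpace α] [StandardBorelSpace α] (X : Sys α)

/-- A function whose value at the vertex `0` is measurable with respect to the others is
`Z_k`-measurable. -/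
lemma measurable_Z {k : ℕ} {D : α → ℂ} (hD : Measurable D)
    (h : AEStronglyMeasurable[others α v0] (fun x : Cube (k + 1) α => D (x v0)) (X.cm (k + 1))) :
    Measurable[(X.Z k).σ] D := by
  obtain ⟨H, hH, hDH⟩ := h
  intro U hU
  obtain ⟨B, hB, hHB⟩ := hH.measurable hU
  refine ⟨hD hU, B, hB, ?_⟩
  have : (fun x : Cube (k + 1) α => x v0) ⁻¹' (D ⁻¹' U) =ᵐ[X.cm (k + 1)] H ⁻¹' U := by
    filter_upwards [hDH] with x hx
    refine propext ?_
    change D (x v0) ∈ U ↔ H x ∈ U
    rw [← hx]
  rw [hHB]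
  exact this

/-- The case of the vertex `0`. -/
lemma ci_v0 (hDual : SpecDual) (k : ℕ) {f : α → ℂ} {F : Cube (k + 1) α → ℂ} (hf : Bdd f)
    (hF : Bdd F) (hFm : Measurable[others α v0] F) :
    ∫ x, f (x v0) * F x ∂(X.cm (k + 1)) = ∫ x, (X.μ[f | (X.Z k).σ]) (x v0) * F x ∂(X.cm (k + 1)) := by
  obtain ⟨D, hD, hDm, hint⟩ := hDual α X (k + 1) F hF hFm
  have hDZ := measurable_Z X hD.1 hDm
  obtain ⟨f', hf'm, hf', hf'e⟩ := DualM.version (X.Z k).le X.μ hf
  have hm := X.mp_marg (k + 1) v0
  have marg : ∀ g : α → ℂ, Bdd g →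
      ∫ x, g (x v0) * D (x v0) ∂(X.cm (k + 1)) = ∫ y, D y * g y ∂X.μ := by
    intro g hg
    rw [← hm.map_eq, integral_map hm.measurable.aemeasurable
      ((hD.mul hg).1.aestronglyMeasurable)]
    refine integral_congr_ae (ae_of_all _ fun x => mul_comm _ _)
  calc ∫ x, f (x v0) * F x ∂(X.cm (k + 1)) = ∫ y, D y * f y ∂X.μ := by
        rw [hint f hf, marg f hf]
    _ = ∫ y, D y * (X.μ[f | (X.Z k).σ]) y ∂X.μ :=
        DualM.integral_pull (X.Z k).le X.μ hD hDZ.stronglyMeasurable.aestronglyMeasurable hf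
    _ = ∫ y, D y * f' y ∂X.μ := by
        refine integral_congr_ae ?_
        filter_upwards [hf'e] with y hy
        rw [hy]
    _ = ∫ x, f' (x v0) * F x ∂(X.cm (k + 1)) := by
        rw [hint f' hf', marg f' hf']
    _ = _ := by
        refine integral_congr_ae ?_
        have := hm.quasiMeasurePreserving.ae_eq_comp hf'e
        filter_upwards [this] with x hx
        have hx' : f' (x v0) = (X.μ[f | (X.Z k).σ]) (x v0) := hx
        rw [hx']

end CIM

theorem specCI (hDual : SpecDual) (hSym : SpecSym) : SpecCI := by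
  intro α _ _ X _ k ε f F hf hF hFm
  have hs := hSym α X (k + 1) 1 ε
  have e0 : ∀ y : Cube (k + 1) α, symm 1 ε y ε = y v0 := by
    intro y
    change y (fun i => xor (ε i) (ε i)) = y v0
    congr 1
    funext i
    simp [v0]
  have hFs : Measurable[others α v0] (fun y : Cube (k + 1) α => F (symm 1 ε y)) := by
    have h1 : @Measurable _ _ (others α v0) (others α ε) (symm 1 ε : Cube (k + 1) α → _) := by
      rw [others, measurable_comap_iff]
      have hv : ∀ η : {η : Vx (k + 1) // η ≠ ε}, (fun i => xor (η.1 i) (ε i) : Vx (k + 1)) ≠ v0 := by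
        intro η h
        apply η.2
        funext i
        have := congrFun h i
        simpa [v0] using this
      have h2 : (rst ε ∘ symm 1 ε : Cube (k + 1) α → _)
          = (fun (y : {η : Vx (k + 1) // η ≠ v0} → α) (η : {η : Vx (k + 1) // η ≠ ε}) =>
              y ⟨_, hv η⟩) ∘ rst v0 := by
        funext x η
        rfl
      rw [h2]
      exact (measurable_pi_lambda _ fun η => measurable_pi_apply _).comp (comap_measurable _)
    exact hFm.comp h1
  have hFb : Bdd (fun y : Cube (k + 1) α => F (symm 1 ε y)) := hF.comp hs.measurable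
  obtain ⟨f', hf'm, hf', hf'e⟩ := DualM.version (X.Z k).le X.μ hf
  have tr : ∀ g : α → ℂ, Bdd g → ∫ x, g (x ε) * F x ∂(X.cm (k + 1))
      = ∫ y, g (y v0) * F (symm 1 ε y) ∂(X.cm (k + 1)) := by
    intro g hg
    have hb : Bdd (fun x : Cube (k + 1) α => g (x ε) * F x) :=
      (hg.comp (measurable_pi_apply ε)).mul hF
    conv_lhs => rw [← hs.map_eq]
    rw [integral_map hs.measurable.aemeasurable hb.1.aestronglyMeasurable]
    refine integral_congr_ae (ae_of_all _ fun y => ?_)
    simp only [e0]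
  have h1 : ∫ x, (X.μ[f | (X.Z k).σ]) (x ε) * F x ∂(X.cm (k + 1))
      = ∫ x, f' (x ε) * F x ∂(X.cm (k + 1)) := by
    refine integral_congr_ae ?_
    have := (X.mp_marg (k + 1) ε).quasiMeasurePreserving.ae_eq_comp hf'e
    filter_upwards [this] with x hx
    have hx' : f' (x ε) = (X.μ[f | (X.Z k).σ]) (x ε) := hx
    rw [hx']
  rw [h1, tr f hf, tr f' hf', CIM.ci_v0 X hDual k hf hFb hFs]
  refine integral_congr_ae ?_
  have := (X.mp_marg (k + 1) v0).quasiMeasurePreserving.ae_eq_comp hf'e
  filter_upwards [this] with x hx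
  have hx' : f' (x v0) = (X.μ[f | (X.Z k).σ]) (x v0) := hx
  rw [hx']

end MPd26.HK
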