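import Pool.Agent.Lib.MP_d26cd8_an.HK.Sq
import Pool.Agent.Lib.MP_d26cd8_an.HK.Spec0

/-!
# MP_d26cd8_an, HK: the cube measures of the relative square
-/

set_option autoImplicit false

open MeasureTheory ProbabilityTheory Filter Topology
open scoped ComplexConjugate ENNReal

namespace MPd26.HK

namespace CubeSqM

variable {α : Type}

/-- the pair direction is the last one -/
def lst (n : ℕ) (x : Cube n (α × α)) : Cube (n + 1) α :=
  fun ε => if ε (Fin.last n) then (x (fun i => ε i.castSucc)).2 else (x (fun i => ε i.castSucc)).1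

lemma measurable_lst [MeasurableSpace α] (n : ℕ) :
    Measurable (lst n : Cube n (α × α) → Cube (n + 1) α) := by
  refine measurable_pi_lambda _ fun ε => ?_
  unfold lst
  split_ifs
  · exact measurable_snd.comp (measurable_pi_apply _)
  · exact measurable_fst.comp (measurable_pi_apply _)

lemma lst_join (n : ℕ) (p : Cube n (α × α) × Cube n (α × α)) :
    lst (n + 1) (join p) = join (Prod.map (lst n) (lst n) p) := by
  funext ε
  unfold lst join
  have h1 : (Fin.last (n + 1) : Fin (n + 2)) = (Fin.last n).succ := rfl
  have h2 : ((0 : Fin (n + 1)).castSucc : Fin (n + 2)) = 0 := rfl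
  simp only [h2, Prod.map]
  by_cases h0 : ε 0 = true
  · simp only [h0, if_true, h1]
    rfl
  · simp only [h0, h1]
    rfl

/-- the rotation of the directions -/
def rot (n : ℕ) : Equiv.Perm (Fin (n + 1)) := (finRotate (n + 1))

lemma rot_last (n : ℕ) : rot n (Fin.last n) = 0 := finRotate_last

lemma rot_castSucc (n : ℕ) (i : Fin n) : rot n i.castSucc = i.succ := by
  have := finRotate_of_lt (n := n) (k := i) i.2
  unfold rot
  exact this

lemma join_eq (n : ℕ) (x : Cube n (α × α)) :
    (join (fun ε => (x ε).1, fun ε => (x ε).2) : Cube (n + 1) α) = symm (rot n) v0 (lst n x) := by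
  funext ε
  unfold join symm lst v0
  simp only [Bool.xor_false, rot_last, rot_castSucc]

end CubeSqM

open CubeSqM in
theorem specCubeSq (hI : SpecIntertwineSq) (hS : SpecSym) : SpecCubeSq := by
  intro α _ _ X X2 hS2 hμ2 n
  have hT : (X2.S : α × α → α × α) = Prod.map X.S X.S := funext hS2
  have key : ∀ n, MeasurePreserving (lst n : Cube n (α × α) → Cube (n + 1) α)
      (X2.cm n) (X.cm (n + 1)) := by
    intro n
    induction n with
    | zero =>
      have h1 : MeasurePreserving (pt : α → Cube 0 α) X.μ (X.cm 0) := ⟨measurable_pt, rfl⟩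
      have h2 := hI α (Cube 0 α) X.μ (X.cm 0) X.S (cmap X.S) pt X.mp (X.mp_cmap 0) h1
        (ae_of_all _ fun x => rfl)
      have h3 : MeasurePreserving (pt : α × α → Cube 0 (α × α)) X2.μ (X2.cm 0) :=
        ⟨measurable_pt, rfl⟩
      have h4 : MeasurePreserving (fun x : Cube 0 (α × α) => x v0) (X2.cm 0) X2.μ :=
        X2.mp_marg 0 v0
      rw [hμ2] at h4
      have h5 := (X.mp_join 0).comp (h2.comp h4)
      have e : (join ∘ Prod.map pt pt ∘ fun x : Cube 0 (α × α) => x v0) =
          (lst 0 : Cube 0 (α × α) → Cube 1 α) := by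
        funext x ε
        unfold lst join
        have h6 : (fun i : Fin 0 => ε i.castSucc) = v0 := Subsingleton.elim _ _
        simp only [Function.comp, Prod.map, h6]
        rfl
      rw [← e]
      exact h5
    | succ n ih =>
      have h2 := hI _ _ (X2.cm n) (X.cm (n + 1)) (cmap X2.S) (cmap X.S) (lst n) (X2.mp_cmap n)
        (X.mp_cmap (n + 1)) ih (ae_of_all _ fun x => by
          funext ε
          unfold lst cmap
          rw [hT]
          by_cases h : ε (Fin.last n) = true <;> simp [h])
      have h5 := (X.mp_join (n + 1)).comp (h2.comp (X2.mp_split n))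
      have e : (join ∘ Prod.map (lst n) (lst n) ∘ fun x : Cube (n + 1) (α × α) => (lo x, hi x)) =
          (lst (n + 1) : Cube (n + 1) (α × α) → Cube (n + 2) α) := by
        funext x
        simp only [Function.comp]
        rw [← lst_join, join_lo_hi]
      rw [← e]
      exact h5
  have h := (hS α X (n + 1) (rot n) v0).comp (key n)
  have e : (fun (x : Cube n (α × α)) =>
      (join (fun ε => (x ε).1, fun ε => (x ε).2) : Cube (n + 1) α)) =
      symm (rot n) v0 ∘ lst n := funext fun x => join_eq n x
  rw [e]
  exact h

end MPd26.HK
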