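import Pool.Agent.Lib.MP_d26cd8_an.HK.A_Nonneg

/-!
# MP_d26cd8_an, HK: the ergodic decomposition (module M9)
-/

set_option autoImplicit false

open MeasureTheory ProbabilityTheory Filter Topology
open scoped ComplexConjugate ENNReal

namespace MPd26.HK

namespace ErgM

section gen
variable {Ω : Type} {m : MeasurableSpace Ω} [mΩ : MeasurableSpace Ω] [StandardBorelSpace Ω]
  {μ : Measure Ω} [IsProbabilityMeasure μ]

/-- null sets are null sets of the fibres -/
lemma ae_fibre (hm : m ≤ mΩ) {P : Ω → Prop} (h : ∀ᵐ y ∂μ, P y) :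
    ∀ᵐ x ∂μ, ∀ᵐ y ∂(condExpKernel μ m x), P y := by
  have h1 : ∀ᵐ y ∂(condExpKernel μ m ∘ₘ μ.trim hm), P y := by
    rw [condExpKernel_comp_trim hm]; exact h
  exact ae_of_ae_trim hm (Measure.ae_ae_of_ae_comp h1)

omit [StandardBorelSpace Ω] mΩ in
lemma const_gen {Ω₁ Ω₂ Ω₃ : Type} {m₁ : MeasurableSpace Ω₁} {m₂ : MeasurableSpace Ω₂}
    {m₃ : MeasurableSpace Ω₃} {ρ : Measure Ω₁} [SFinite ρ] {κ : Kernel Ω₁ Ω₂} [IsSFiniteKernel κ]
    {ν : Measure Ω₃} {a : Ω₃ → Ω₁} {b : Ω₃ → Ω₂} (ha : Measurable a) (hb : Measurable b)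
    (h : ρ ⊗ₘ κ = ν.map fun z => (a z, b z)) {g₁ : Ω₁ → ℝ} {g₂ : Ω₂ → ℝ}
    (h₁ : Measurable g₁) (h₂ : Measurable g₂) (hg : ∀ z, g₂ (b z) = g₁ (a z)) :
    ∀ᵐ x ∂ρ, ∀ᵐ y ∂(κ x), g₂ y = g₁ x := by
  have hS : MeasurableSet {p : Ω₁ × Ω₂ | g₂ p.2 = g₁ p.1} :=
    measurableSet_eq_fun (h₂.comp measurable_snd) (h₁.comp measurable_fst)
  have h4 : ∀ᵐ p ∂(ρ ⊗ₘ κ), g₂ p.2 = g₁ p.1 := by
    rw [h, ae_map_iff (ha.prodMk hb).aemeasurable hS]
    exact ae_of_all _ hg
  exact Measure.ae_ae_of_ae_compProd h4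

/-- functions of `m` are constant on the fibres -/
lemma const_fibre (hm : m ≤ mΩ) {g : Ω → ℝ} (hg : Measurable[m] g) :
    ∀ᵐ x ∂μ, ∀ᵐ y ∂(condExpKernel μ m x), g y = g x :=
  ae_of_ae_trim hm (const_gen (m₁ := m) (measurable_id'' hm) measurable_id
    (compProd_trim_condExpKernel (μ := μ) hm) hg (hg.mono hm le_rfl) fun _ => rfl)

omit [StandardBorelSpace Ω] [IsProbabilityMeasure μ] in
/-- a subsequence converges almost everywhere -/
lemma exists_subseq {F : ℕ → Ω → ℂ} {G : Ω → ℂ} (hF : ∀ n, MemLp (F n) 2 μ) (hG : MemLp G 2 μ)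
    (h : Tendsto (fun n => dist2 μ (F n) G) atTop (𝓝 0)) :
    ∃ ns : ℕ → ℕ, StrictMono ns ∧ ∀ᵐ x ∂μ, Tendsto (fun i => F (ns i) x) atTop (𝓝 (G x)) := by
  have hi : ∀ n, Integrable (fun x => ‖F n x - G x‖ ^ 2) μ := fun n =>
    ((hF n).sub hG).integrable_norm_pow (by norm_num)
  have h1 : TendstoInMeasure μ (fun n x => ‖F n x - G x‖ ^ 2) atTop (fun _ => (0 : ℝ)) := by
    refine tendstoInMeasure_of_tendsto_eLpNorm (p := 1) one_ne_zero
      (fun n => (hi n).aestronglyMeasurable) aestronglyMeasurable_const ?_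
    have h2 : ∀ n, eLpNorm ((fun x => ‖F n x - G x‖ ^ 2) - fun _ => (0 : ℝ)) 1 μ
        = ENNReal.ofReal (dist2 μ (F n) G) := by
      intro n
      have e : ((fun x => ‖F n x - G x‖ ^ 2) - fun _ => (0 : ℝ))
          = fun x => ‖F n x - G x‖ ^ 2 := by funext x; simp
      rw [e, eLpNorm_one_eq_lintegral_enorm, ← ofReal_integral_norm_eq_lintegral_enorm (hi n)]
      congr 1
      unfold dist2
      refine integral_congr_ae (ae_of_all _ fun x => ?_)
      simp
    simp only [h2]
    have := ENNReal.tendsto_ofReal h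
    simpa using this
  obtain ⟨ns, hns, h3⟩ := h1.exists_seq_tendsto_ae
  refine ⟨ns, hns, ?_⟩
  filter_upwards [h3] with x hx
  rw [tendsto_iff_norm_sub_tendsto_zero]
  have := hx.sqrt
  simpa using this

/-- a countable algebra of sets generating the σ-algebra -/
lemma exists_alg (Ω : Type) [mΩ : MeasurableSpace Ω] [StandardBorelSpace Ω] :
    ∃ 𝒜 : Set (Set Ω), 𝒜.Countable ∧ mΩ = MeasurableSpace.generateFrom 𝒜 ∧ IsPiSystem 𝒜 ∧
      ∀ s ∈ 𝒜, MeasurableSet s := by
  obtain ⟨b, hb, hb'⟩ := (inferInstance : MeasurableSpace.CountablyGenerated Ω).isCountablyGenerated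
  refine ⟨generateSetAlgebra b, countable_generateSetAlgebra hb, ?_, ?_, ?_⟩
  · rw [generateFrom_generateSetAlgebra_eq]; exact hb'
  · intro s hs t ht _
    exact isSetAlgebra_generateSetAlgebra.inter_mem hs ht
  · intro s hs
    rw [hb', ← generateFrom_generateSetAlgebra_eq]
    exact MeasurableSpace.measurableSet_generateFrom hs

end gen

section inv
variable {Ω : Type} [mΩ : MeasurableSpace Ω] [StandardBorelSpace Ω]
  {μ : Measure Ω} [IsProbabilityMeasure μ] {T : Ω → Ω}

omit [StandardBorelSpace Ω] in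
lemma condExp_comp (hT : MeasurePreserving T μ μ) {f : Ω → ℝ} (hf : Integrable f μ) :
    μ[f ∘ T | MeasurableSpace.invariants T] =ᵐ[μ] μ[f | MeasurableSpace.invariants T] := by
  have hle := MeasurableSpace.invariants_le T
  refine (ae_eq_condExp_of_forall_setIntegral_eq hle (hT.integrable_comp_of_integrable hf)
    (fun s _ _ => integrable_condExp.integrableOn) ?_
    stronglyMeasurable_condExp.aestronglyMeasurable).symm
  intro s hs _
  obtain ⟨hs1, hs2⟩ := MeasurableSpace.measurableSet_invariants.1 hs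
  rw [setIntegral_condExp hle hf hs]
  have hr := hT.restrict_preimage hs1
  rw [hs2] at hr
  calc ∫ x in s, f x ∂μ = ∫ y, f y ∂((μ.restrict s).map T) := by rw [hr.map_eq]
    _ = ∫ x in s, (f ∘ T) x ∂μ := by
      refine integral_map hT.measurable.aemeasurable ?_
      rw [hr.map_eq]
      exact hf.aestronglyMeasurable.restrict

/-- the fibre measures are invariant -/
lemma inv_fibre (hT : MeasurePreserving T μ μ) :
    ∀ᵐ x ∂μ, MeasurePreserving T (condExpKernel μ (MeasurableSpace.invariants T) x)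
      (condExpKernel μ (MeasurableSpace.invariants T) x) := by
  have hle := MeasurableSpace.invariants_le T
  obtain ⟨𝒜, hc, hg, hpi, hms⟩ := exists_alg Ω
  have h1 : ∀ s ∈ 𝒜, ∀ᵐ x ∂μ, (condExpKernel μ (MeasurableSpace.invariants T) x).real (T ⁻¹' s)
      = (condExpKernel μ (MeasurableSpace.invariants T) x).real s := by
    intro s hs
    have h2 := condExpKernel_ae_eq_condExp (μ := μ) hle (hms s hs)
    have h3 := condExpKernel_ae_eq_condExp (μ := μ) hle (hT.measurable (hms s hs))
    have h4 := condExp_comp hT (f := s.indicator fun _ => (1 : ℝ))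
      ((integrable_const 1).indicator (hms s hs))
    have e : (s.indicator fun _ => (1 : ℝ)) ∘ T = (T ⁻¹' s).indicator fun _ => (1 : ℝ) := by
      funext x; rfl
    rw [e] at h4
    filter_upwards [h2, h3, h4] with x h5 h6 h7
    rw [h5, h6]
    exact h7
  have h8 := (ae_ball_iff hc).2 h1
  filter_upwards [h8] with x hx
  refine ⟨hT.measurable, ?_⟩
  have : IsProbabilityMeasure ((condExpKernel μ (MeasurableSpace.invariants T) x).map T) :=
    Measure.isProbabilityMeasure_map hT.measurable.aemeasurable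
  refine ext_of_generate_finite 𝒜 hg hpi (fun s hs => ?_) ?_
  · rw [Measure.map_apply hT.measurable (hms s hs)]
    exact (measureReal_eq_measureReal_iff).1 (hx s hs)
  · simp

/-- the characteristic function -/
noncomputable def ch (s : Set Ω) : Ω → ℂ := s.indicator fun _ => (1 : ℂ)

omit [StandardBorelSpace Ω] in
lemma bdd_ch {s : Set Ω} (hs : MeasurableSet s) : Bdd (ch s) := by
  refine ⟨measurable_const.indicator hs, 1, fun x => ?_⟩
  unfold ch
  by_cases h : x ∈ s <;> simp [h]

omit [StandardBorelSpace Ω] in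
lemma int_ch {ν : Measure Ω} {s : Set Ω} (hs : MeasurableSet s) :
    ∫ x, ch s x ∂ν = (ν.real s : ℂ) := by
  unfold ch
  rw [integral_indicator hs]
  simp

/-- convergence of the averages in the fibres -/
lemma avg_fibre (hMET : SpecMET) (hT : MeasurePreserving T μ μ) {s : Set Ω}
    (hs : MeasurableSet s) :
    ∃ ns : ℕ → ℕ, StrictMono ns ∧ ∀ᵐ x ∂μ,
      ∀ᵐ y ∂(condExpKernel μ (MeasurableSpace.invariants T) x),
      Tendsto (fun i => avg T (ch s) (ns i) y) atTop
        (𝓝 ((condExpKernel μ (MeasurableSpace.invariants T) x).real s : ℂ)) := by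
  have hle := MeasurableSpace.invariants_le T
  have hb := bdd_ch hs
  have hA : ∀ N : ℕ, Bdd (avg T (ch s) N) := fun N => by
    unfold avg
    exact (Bdd.const _).mul (Bdd.sum _ fun n _ => hb.comp (hT.measurable.iterate n))
  obtain ⟨ns, hns, h1⟩ := exists_subseq (fun N => NonnegM.Bdd.memLp (hA N))
    (NonnegM.condExp_memLp hle hb) (hMET Ω μ T hT (ch s) hb)
  refine ⟨ns, hns, ?_⟩
  have h2 : μ[ch s | MeasurableSpace.invariants T] =ᵐ[μ] fun x =>
      ((condExpKernel μ (MeasurableSpace.invariants T) x).real s : ℂ) := by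
    filter_upwards [condExp_ae_eq_integral_condExpKernel hle (hb.integrable μ)] with x hx
    rw [hx, int_ch hs]
  have h3 : ∀ᵐ y ∂μ, Tendsto (fun i => avg T (ch s) (ns i) y) atTop
        (𝓝 ((condExpKernel μ (MeasurableSpace.invariants T) y).real s : ℂ)) := by
    filter_upwards [h1, h2] with y h4 h5
    rw [← h5]; exact h4
  have h6 : Measurable[MeasurableSpace.invariants T] fun x =>
      (condExpKernel μ (MeasurableSpace.invariants T) x).real s := by
    exact (measurable_condExpKernel hs).ennreal_toReal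
  filter_upwards [ae_fibre hle h3, const_fibre hle h6] with x h7 h8
  filter_upwards [h7, h8] with y h9 h10
  rw [← h10]; exact h9

omit [StandardBorelSpace Ω] in
/-- averages against invariant sets -/
lemma int_avg_inv {ν : Measure Ω} [IsProbabilityMeasure ν] (hT : MeasurePreserving T ν ν)
    {s B : Set Ω} (hs : MeasurableSet s) (hB : MeasurableSet B) (hB' : T ⁻¹' B = B)
    {N : ℕ} (hN : N ≠ 0) :
    ∫ x, avg T (ch s) N x * ch B x ∂ν = (ν.real (s ∩ B) : ℂ) := by
  have h1 : ∀ n : ℕ, ∀ x, ch B (T^[n] x) = ch B x := by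
    intro n
    induction n with
    | zero => intro x; rfl
    | succ n ih =>
      intro x
      rw [Function.iterate_succ_apply, ih]
      unfold ch
      by_cases h : x ∈ B
      · have h2 : T x ∈ B := by rw [← hB'] at h; exact h
        simp [h, h2]
      · have h2 : T x ∉ B := by rw [← hB'] at h; exact h
        simp [h, h2]
  have h2 : ∀ n : ℕ, ∫ x, ch s (T^[n] x) * ch B x ∂ν = (ν.real (s ∩ B) : ℂ) := by
    intro n
    have e : (fun x => ch s (T^[n] x) * ch B x) = fun x => (fun y => ch s y * ch B y) (T^[n] x) := by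
      funext x; simp only [h1]
    have e2 : (fun y => ch s y * ch B y) = ch (s ∩ B) := by
      funext y
      unfold ch
      by_cases ha : y ∈ s <;> by_cases hb : y ∈ B <;> simp [ha, hb]
    rw [e, NonnegM.int_comp (hT.iterate n) ((bdd_ch hs).mul (bdd_ch hB)).1, e2,
      int_ch (hs.inter hB)]
  unfold avg
  have e3 : (fun x => ((N : ℂ)⁻¹ * ∑ n ∈ Finset.range N, ch s (T^[n] x)) * ch B x) = fun x =>
      (N : ℂ)⁻¹ * ∑ n ∈ Finset.range N, ch s (T^[n] x) * ch B x := by
    funext x
    rw [mul_assoc, Finset.sum_mul]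
  rw [e3, integral_const_mul, integral_finsetSum]
  · simp only [h2, Finset.sum_const, Finset.card_range, nsmul_eq_mul]
    have : (N : ℂ) ≠ 0 := by exact_mod_cast hN
    field_simp
  · intro n _
    exact (((bdd_ch hs).comp (hT.measurable.iterate n)).mul (bdd_ch hB)).integrable ν

omit mΩ [StandardBorelSpace Ω] in
lemma norm_avg_le (s : Set Ω) (N : ℕ) (x : Ω) : ‖avg T (ch s) N x‖ ≤ 1 := by
  unfold avg
  rw [norm_mul, norm_inv, Complex.norm_natCast]
  have h1 : ‖∑ n ∈ Finset.range N, ch s (T^[n] x)‖ ≤ N := by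
    calc _ ≤ ∑ n ∈ Finset.range N, ‖ch s (T^[n] x)‖ := norm_sum_le _ _
      _ ≤ ∑ n ∈ Finset.range N, 1 := Finset.sum_le_sum fun n _ => by
          unfold ch
          by_cases h : T^[n] x ∈ s <;> simp [h]
      _ = N := by simp
  rcases Nat.eq_zero_or_pos N with h | h
  · subst h; simp
  · have h2 : (0 : ℝ) < N := by exact_mod_cast h
    rw [inv_mul_le_iff₀ h2]
    simpa using h1

end inv

end ErgM

open ErgM in
/-- **Ergodic decomposition.** -/
theorem specErgDec (hMET : SpecMET) : SpecErgDec := by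
  intro α _ _ X
  set κ := condExpKernel X.μ (MeasurableSpace.invariants X.S) with hκ
  obtain ⟨𝒜, hc, hg, hpi, hms⟩ := exists_alg α
  choose! ns hns h1 using fun (s : Set α) (hs : s ∈ 𝒜) => avg_fibre hMET X.mp (hms s hs)
  filter_upwards [inv_fibre X.mp, (ae_ball_iff hc).2 h1] with x hinv hav
  refine { hinv with aeconst_set := ?_ }
  intro B hB hB'
  have h2 : ∀ s ∈ 𝒜, (κ x).real (s ∩ B) = (κ x).real s * (κ x).real B := by
    intro s hs
    have hb := bdd_ch (hms s hs)
    have hbB := bdd_ch hB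
    have h3 : Tendsto (fun i => ∫ y, avg X.S (ch s) (ns s i) y * ch B y ∂(κ x)) atTop
        (𝓝 (∫ y, ((κ x).real s : ℂ) * ch B y ∂(κ x))) := by
      refine tendsto_integral_of_dominated_convergence (fun _ => 1) ?_ (integrable_const _) ?_ ?_
      · intro i
        have hA : Bdd (avg X.S (ch s) (ns s i)) := by
          unfold avg
          exact (Bdd.const _).mul (Bdd.sum _ fun n _ => hb.comp (hinv.measurable.iterate n))
        exact ((hA.mul hbB).integrable (κ x)).aestronglyMeasurable
      · intro i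
        refine ae_of_all _ fun y => ?_
        rw [norm_mul]
        have h4 : ‖ch B y‖ ≤ 1 := by
          unfold ch
          by_cases h : y ∈ B <;> simp [h]
        calc _ ≤ (1 : ℝ) * 1 := mul_le_mul (norm_avg_le s _ y) h4 (norm_nonneg _) zero_le_one
          _ = 1 := one_mul 1
      · filter_upwards [hav s hs] with y hy
        exact hy.mul_const _
    have h5 : ∀ᶠ i in atTop, ∫ y, avg X.S (ch s) (ns s i) y * ch B y ∂(κ x)
        = ((κ x).real (s ∩ B) : ℂ) := by
      filter_upwards [eventually_gt_atTop 0] with i hi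
      refine int_avg_inv hinv (hms s hs) hB hB' ?_
      have := (hns s hs).id_le i
      simp only [id] at this
      omega
    have h6 := tendsto_nhds_unique (h3.congr' h5) tendsto_const_nhds
    rw [integral_const_mul, int_ch hB] at h6
    exact_mod_cast h6.symm
  have h7 : (κ x).restrict B = (κ x) B • (κ x) := by
    have : IsFiniteMeasure ((κ x) B • (κ x)) := ⟨by
      simp only [Measure.smul_apply, smul_eq_mul, measure_univ, mul_one]
      exact measure_lt_top _ _⟩
    refine ext_of_generate_finite 𝒜 hg hpi (fun s hs => ?_) ?_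
    · rw [Measure.restrict_apply (hms s hs)]
      simp only [Measure.smul_apply, smul_eq_mul]
      rw [← ENNReal.toReal_eq_toReal_iff' (measure_ne_top _ _)
        (ENNReal.mul_ne_top (measure_ne_top _ _) (measure_ne_top _ _)), ENNReal.toReal_mul]
      have := h2 s hs
      simp only [Measure.real] at this
      rw [this, mul_comm]
    · simp
  have h8 : (κ x) B = (κ x) B * (κ x) B := by
    have := congrArg (fun ν : Measure α => ν B) h7
    simp only [Measure.restrict_apply hB, Set.inter_self, Measure.smul_apply, smul_eq_mul] at this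
    exact this
  by_cases h0 : (κ x) B = 0
  · rw [eventuallyConst_set']
    exact Or.inl (by rwa [ae_eq_empty])
  · have h9 : (κ x) B = 1 := by
      have := (ENNReal.mul_eq_left h0 (measure_ne_top _ _)).1 h8.symm
      exact this
    rw [eventuallyConst_set']
    refine Or.inr ?_
    rw [ae_eq_univ, prob_compl_eq_zero_iff hB]
    exact h9

end MPd26.HK
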