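import Pool.Agent.Lib.MP_d26cd8_an.HK.A_ErgDec

/-!
# MP_d26cd8_an, HK: seminorms and the ergodic decomposition (module M9)
-/

set_option autoImplicit false

open MeasureTheory ProbabilityTheory Filter Topology
open scoped ComplexConjugate ENNReal

namespace MPd26.HK

namespace ErgM

variable {α : Type} [mα : MeasurableSpace α]

/-- the box average of `f^{[n]}` with constant sides, as a function -/
noncomputable def bx (S : α → α) (n : ℕ) (f : α → ℂ) (N : ℕ) (y : α) : ℂ :=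
  (∏ _i : Fin n, (N : ℂ))⁻¹ * ∑ h ∈ Fintype.piFinset (fun _ : Fin n => Finset.range N),
    ∏ ε : Vx n, sg ε (f (S^[∑ i, if ε i then h i else 0] y))

omit mα in
lemma norm_sg {n : ℕ} (ε : Vx n) (z : ℂ) : ‖sg ε z‖ = ‖z‖ := by
  unfold sg
  split_ifs <;> simp

lemma bdd_sg {n : ℕ} (ε : Vx n) {f : α → ℂ} (hf : Bdd f) : Bdd fun x => sg ε (f x) := by
  unfold sg
  split_ifs
  · exact hf
  · exact hf.conj

lemma bdd_term {S : α → α} (hS : Measurable S) {n : ℕ} {f : α → ℂ} (hf : Bdd f)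
    (h : Fin n → ℕ) :
    Bdd fun y => ∏ ε : Vx n, sg ε (f (S^[∑ i, if ε i then h i else 0] y)) :=
  Bdd.prod _ fun ε _ => (bdd_sg ε hf).comp (hS.iterate _)

lemma bdd_bx {S : α → α} (hS : Measurable S) {n : ℕ} {f : α → ℂ} (hf : Bdd f) (N : ℕ) :
    Bdd (bx S n f N) := by
  unfold bx
  exact (Bdd.const _).mul (Bdd.sum _ fun h _ => bdd_term hS hf h)

lemma int_bx {S : α → α} (hS : Measurable S) {n : ℕ} {f : α → ℂ} (hf : Bdd f) (N : ℕ)
    (ν : Measure α) [IsProbabilityMeasure ν] :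
    ∫ y, bx S n f N y ∂ν = (∏ _i : Fin n, (N : ℂ))⁻¹ *
      ∑ h ∈ Fintype.piFinset (fun _ : Fin n => Finset.range N),
        ∫ y, ∏ ε : Vx n, sg ε (f (S^[∑ i, if ε i then h i else 0] y)) ∂ν := by
  unfold bx
  rw [integral_const_mul, integral_finsetSum]
  intro h _
  exact (bdd_term hS hf h).integrable ν

omit mα in
lemma norm_bx {S : α → α} {n : ℕ} {f : α → ℂ} {C : ℝ} (hC : ∀ x, ‖f x‖ ≤ C) (N : ℕ) (y : α) :
    ‖bx S n f N y‖ ≤ C ^ (Fintype.card (Vx n)) := by
  have hC0 : 0 ≤ C := (norm_nonneg _).trans (hC y)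
  unfold bx
  rw [norm_mul, norm_inv, norm_prod]
  simp only [Complex.norm_natCast]
  have h1 : ‖∑ h ∈ Fintype.piFinset (fun _ : Fin n => Finset.range N),
      ∏ ε : Vx n, sg ε (f (S^[∑ i, if ε i then h i else 0] y))‖ ≤
      (∏ _i : Fin n, (N : ℝ)) * C ^ (Fintype.card (Vx n)) := by
    calc _ ≤ ∑ h ∈ Fintype.piFinset (fun _ : Fin n => Finset.range N),
          ‖∏ ε : Vx n, sg ε (f (S^[∑ i, if ε i then h i else 0] y))‖ := norm_sum_le _ _
      _ ≤ ∑ h ∈ Fintype.piFinset (fun _ : Fin n => Finset.range N),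
          C ^ (Fintype.card (Vx n)) := by
          refine Finset.sum_le_sum fun h _ => ?_
          rw [norm_prod]
          calc _ ≤ ∏ _ε : Vx n, C := Finset.prod_le_prod (fun _ _ => norm_nonneg _) fun ε _ => by
                rw [norm_sg]; exact hC _
            _ = _ := by simp
      _ = _ := by
          rw [Finset.sum_const, Fintype.card_piFinset, nsmul_eq_mul]
          simp
  rcases eq_or_ne (∏ _i : Fin n, (N : ℝ)) 0 with h0 | h0
  · rw [h0, inv_zero, zero_mul]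
    positivity
  · have h2 : 0 < ∏ _i : Fin n, (N : ℝ) :=
      lt_of_le_of_ne (Finset.prod_nonneg fun _ _ => Nat.cast_nonneg _) (Ne.symm h0)
    rw [inv_mul_le_iff₀ h2]
    exact h1

lemma tendsto_const_fun (n : ℕ) :
    Tendsto (fun (N : ℕ) (_ : Fin n) => N) atTop (atTop : Filter (Fin n → ℕ)) := by
  refine tendsto_atTop_atTop.2 fun b => ⟨Finset.univ.sup b, fun a ha i => ?_⟩
  exact (Finset.le_sup (Finset.mem_univ i)).trans ha

lemma tendsto_bx [StandardBorelSpace α] (hBox : SpecBox) (Y : Sys α) {n : ℕ} {f : α → ℂ}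
    (hf : Bdd f) :
    Tendsto (fun N : ℕ => ∫ y, bx Y.S n f N y ∂Y.μ) atTop (𝓝 (∫ x, cp f n x ∂(Y.cm n))) := by
  have h := (hBox α Y n (fun ε x => sg ε (f x)) fun ε => bdd_sg ε hf).comp (tendsto_const_fun n)
  refine h.congr fun N => ?_
  rw [int_bx Y.S.measurable hf]
  rfl

end ErgM

open ErgM in
/-- **Seminorms and the ergodic decomposition.** -/
theorem specErgSn (hBox : SpecBox) : SpecErgSn := by
  classical
  intro α _ _ X k f hf h0
  have hle := MeasurableSpace.invariants_le (X.S : α → α)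
  set κ := condExpKernel X.μ (MeasurableSpace.invariants X.S) with hκ
  obtain ⟨hfm, C, hC⟩ := id hf
  set K : ℝ := C ^ (Fintype.card (Vx (k + 1))) with hK
  -- the limits in the fibres
  let L : α → ℂ := fun x => if h : ∃ Y : Sys α, Y.S = X.S ∧ Y.μ = κ x then
    ∫ z, cp f (k + 1) z ∂(h.choose.cm (k + 1)) else 0
  have hlimY : ∀ x, ∀ Y : Sys α, Y.S = X.S → Y.μ = κ x →
      Tendsto (fun N : ℕ => ∫ y, bx X.S (k + 1) f N y ∂(κ x)) atTop
        (𝓝 (∫ z, cp f (k + 1) z ∂(Y.cm (k + 1)))) := by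
    intro x Y h1 h2
    have := tendsto_bx hBox Y (n := k + 1) hf
    rw [h1, h2] at this
    exact this
  have hpair : ∀ᵐ x ∂X.μ, Tendsto (fun N : ℕ => ∫ y, bx X.S (k + 1) f N y ∂(κ x)) atTop
      (𝓝 (L x)) ∧ ∃ r : ℝ, 0 ≤ r ∧ L x = (r : ℂ) := by
    filter_upwards [inv_fibre X.mp] with x hx
    have hex : ∃ Y : Sys α, Y.S = X.S ∧ Y.μ = κ x :=
      ⟨⟨κ x, inferInstance, X.S, hx⟩, rfl, rfl⟩
    have hL : L x = ∫ z, cp f (k + 1) z ∂(hex.choose.cm (k + 1)) := by
      simp only [L]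
      rw [dif_pos hex]
    refine ⟨?_, ?_⟩
    · rw [hL]
      exact hlimY x _ hex.choose_spec.1 hex.choose_spec.2
    · rw [hL]
      exact specNonneg α hex.choose k f hf
  have hmeas : ∀ N : ℕ, AEStronglyMeasurable (fun x => ∫ y, bx X.S (k + 1) f N y ∂(κ x)) X.μ :=
    fun N => ((bdd_bx X.S.measurable hf N).integrable X.μ).aestronglyMeasurable.integral_condExpKernel
  have hbound : ∀ N : ℕ, ∀ x, ‖∫ y, bx X.S (k + 1) f N y ∂(κ x)‖ ≤ K := by
    intro N x
    have := norm_integral_le_of_norm_le_const (μ := κ x) (f := bx X.S (k + 1) f N) (C := K)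
      (ae_of_all _ fun y => norm_bx hC N y)
    simpa using this
  have hLm : AEStronglyMeasurable L X.μ :=
    aestronglyMeasurable_of_tendsto_ae atTop hmeas (hpair.mono fun x hx => hx.1)
  have hLb : ∀ᵐ x ∂X.μ, ‖L x‖ ≤ K := by
    filter_upwards [hpair] with x hx
    exact le_of_tendsto hx.1.norm (Eventually.of_forall fun N => hbound N x)
  have hLi : Integrable L X.μ :=
    (MemLp.of_bound (p := 1) hLm K hLb).integrable le_rfl
  have h1 : Tendsto (fun N : ℕ => ∫ x, ∫ y, bx X.S (k + 1) f N y ∂(κ x) ∂X.μ) atTop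
      (𝓝 (∫ x, L x ∂X.μ)) :=
    tendsto_integral_of_dominated_convergence (fun _ => K) hmeas (integrable_const _)
      (fun N => ae_of_all _ fun x => hbound N x) (hpair.mono fun x hx => hx.1)
  have h2 : ∀ N : ℕ, ∫ x, ∫ y, bx X.S (k + 1) f N y ∂(κ x) ∂X.μ
      = ∫ y, bx X.S (k + 1) f N y ∂X.μ := by
    intro N
    have h3 := condExp_ae_eq_integral_condExpKernel hle
      ((bdd_bx X.S.measurable (n := k + 1) hf N).integrable X.μ)
    rw [← integral_congr_ae h3, integral_condExp hle]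
  simp only [h2] at h1
  have h4 : ∫ x, L x ∂X.μ = 0 := by
    have h5 := tendsto_bx hBox X (n := k + 1) hf
    rw [h0] at h5
    exact tendsto_nhds_unique h1 h5
  have h6 : ∫ x, (L x).re ∂X.μ = 0 := by
    have h7 : ∫ x, RCLike.re (L x) ∂X.μ = RCLike.re (∫ x, L x ∂X.μ) := integral_re hLi
    rw [h4] at h7
    simpa using h7
  have h8 : (fun x => (L x).re) =ᵐ[X.μ] 0 := by
    refine (integral_eq_zero_iff_of_nonneg_ae ?_ hLi.re).1 h6
    filter_upwards [hpair] with x hx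
    obtain ⟨r, hr, hr'⟩ := hx.2
    simp only [Pi.zero_apply]
    rw [hr']
    simpa using hr
  filter_upwards [hpair, h8] with x hx h9
  intro Y h10 h11
  have h12 : L x = 0 := by
    obtain ⟨r, hr, hr'⟩ := hx.2
    simp only [Pi.zero_apply] at h9
    rw [hr', Complex.ofReal_re] at h9
    rw [hr', h9, Complex.ofReal_zero]
  have h13 := hlimY x Y h10 h11
  rw [tendsto_nhds_unique h13 hx.1, h12]

end MPd26.HK
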