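import Pool.Agent.Lib.MP_d26cd8_an.HK.Sq
import Pool.Agent.Lib.MP_d26cd8_an.HK.Spec0

/-!
# MP_d26cd8_an, HK: Nonneg, Mono
-/

set_option autoImplicit false

open MeasureTheory ProbabilityTheory Filter Topology
open scoped ComplexConjugate ENNReal

namespace MPd26.HK

namespace NonnegM

section relSq
variable {Ω : Type} {m : MeasurableSpace Ω} [mΩ : MeasurableSpace Ω] [StandardBorelSpace Ω]

lemma condExp_conj (hm : m ≤ mΩ) (μ : Measure Ω) [IsFiniteMeasure μ] {g : Ω → ℂ} (hg : Bdd g) :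
    μ[fun x => conj (g x) | m] =ᵐ[μ] fun x => conj ((μ[g | m]) x) := by
  refine (condExp_ae_eq_dis hm μ (hg.conj.integrable μ)).trans ?_
  filter_upwards [condExp_ae_eq_dis hm μ (hg.integrable μ)] with x hx
  rw [hx]
  exact integral_conj

/-- `∫ F(a) conj F(b) = ∫ |E(F|m)|²` -/
lemma relSq_self (hm : m ≤ mΩ) (μ : Measure Ω) [IsFiniteMeasure μ] {F : Ω → ℂ}
    (hF : Bdd F) :
    ∫ p, F p.1 * conj (F p.2) ∂(relSq hm μ) = ((∫ x, ‖(μ[F | m]) x‖ ^ 2 ∂μ : ℝ) : ℂ) := by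
  rw [integral_relSq_mul' hm μ hF hF.conj]
  rw [← integral_complex_ofReal]
  refine integral_congr_ae ?_
  filter_upwards [condExp_conj hm μ hF] with x hx
  rw [hx]
  push_cast
  rw [← Complex.mul_conj']

end relSq

section gen
variable {Ω : Type} [MeasurableSpace Ω] {μ : Measure Ω} [IsProbabilityMeasure μ]

lemma sq_int_le {g : Ω → ℝ} (h1 : Integrable g μ) (h2 : Integrable (fun x => g x ^ 2) μ) :
    (∫ x, g x ∂μ) ^ 2 ≤ ∫ x, g x ^ 2 ∂μ := by
  set c := ∫ x, g x ∂μ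
  have h3 : 0 ≤ ∫ x, (g x - c) ^ 2 ∂μ := integral_nonneg fun x => sq_nonneg _
  have h4 : ∫ x, (g x - c) ^ 2 ∂μ = ∫ x, g x ^ 2 ∂μ - 2 * c * c + c ^ 2 := by
    have e : (fun x => (g x - c) ^ 2) = fun x => g x ^ 2 - 2 * c * g x + c ^ 2 := by
      funext x; ring
    have i1 : Integrable (fun x => 2 * c * g x) μ := h1.const_mul _
    have i2 : Integrable (fun x => g x ^ 2 - 2 * c * g x) μ := h2.sub i1
    rw [e, integral_add i2 (integrable_const _), integral_sub h2 i1, integral_const_mul]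
    simp [c]
  rw [h4] at h3
  nlinarith

lemma norm_int_sq_le {G : Ω → ℂ} (h : MemLp G 2 μ) :
    ‖∫ x, G x ∂μ‖ ^ 2 ≤ ∫ x, ‖G x‖ ^ 2 ∂μ := by
  have h1 : Integrable (fun x => ‖G x‖) μ := (h.integrable one_le_two).norm
  have h2 : Integrable (fun x => ‖G x‖ ^ 2) μ := h.integrable_norm_pow (by norm_num)
  calc ‖∫ x, G x ∂μ‖ ^ 2 ≤ (∫ x, ‖G x‖ ∂μ) ^ 2 :=
        pow_le_pow_left₀ (norm_nonneg _) (norm_integral_le_integral_norm _) 2
    _ ≤ _ := sq_int_le h1 h2

lemma Bdd.memLp {f : Ω → ℂ} (hf : Bdd f) : MemLp f 2 μ := by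
  obtain ⟨hm, C, hC⟩ := hf
  exact MemLp.of_bound hm.aestronglyMeasurable C (ae_of_all _ hC)

omit [MeasurableSpace Ω] in
lemma condExp_memLp {m : MeasurableSpace Ω} {mΩ : MeasurableSpace Ω} (hm : m ≤ mΩ)
    {μ : Measure Ω} [IsProbabilityMeasure μ] {f : Ω → ℂ} (hf : Bdd f) :
    MemLp (μ[f | m]) 2 μ := by
  obtain ⟨hms, C, hC⟩ := hf
  exact MemLp.of_bound (stronglyMeasurable_condExp.mono hm).aestronglyMeasurable C (condExp_bdd hC)

/-- convergence in `L²` and integrals against bounded functions -/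
lemma tendsto_int {F : ℕ → Ω → ℂ} {G B : Ω → ℂ} (hF : ∀ n, MemLp (F n) 2 μ) (hG : MemLp G 2 μ)
    (hB : Bdd B) (h : Tendsto (fun n => dist2 μ (F n) G) atTop (𝓝 0)) :
    Tendsto (fun n => ∫ x, F n x * B x ∂μ) atTop (𝓝 (∫ x, G x * B x ∂μ)) := by
  obtain ⟨hBm, C, hC⟩ := hB
  have hC' : ∀ x, ‖B x‖ ≤ |C| := fun x => (hC x).trans (le_abs_self C)
  have hi : ∀ {H : Ω → ℂ}, MemLp H 2 μ → Integrable (fun x => H x * B x) μ := fun hH =>
    (hH.integrable one_le_two).mul_bdd hBm.aestronglyMeasurable (ae_of_all _ hC')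
  rw [tendsto_iff_norm_sub_tendsto_zero]
  have h1 : ∀ n, ‖∫ x, F n x * B x ∂μ - ∫ x, G x * B x ∂μ‖ ≤
      |C| * Real.sqrt (dist2 μ (F n) G) := by
    intro n
    have hd : MemLp (fun x => F n x - G x) 2 μ := (hF n).sub hG
    have h2 : Integrable (fun x => ‖F n x - G x‖) μ := (hd.integrable one_le_two).norm
    have h3 : Integrable (fun x => ‖F n x - G x‖ ^ 2) μ := hd.integrable_norm_pow (by norm_num)
    rw [← integral_sub (hi (hF n)) (hi hG)]
    calc ‖∫ x, (F n x * B x - G x * B x) ∂μ‖ ≤ ∫ x, ‖F n x - G x‖ * |C| ∂μ := by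
          refine norm_integral_le_of_norm_le (h2.mul_const _) (ae_of_all _ fun x => ?_)
          rw [← sub_mul, norm_mul]
          exact mul_le_mul_of_nonneg_left (hC' x) (norm_nonneg _)
      _ = |C| * ∫ x, ‖F n x - G x‖ ∂μ := by rw [integral_mul_const, mul_comm]
      _ ≤ |C| * Real.sqrt (dist2 μ (F n) G) := by
          refine mul_le_mul_of_nonneg_left ?_ (abs_nonneg _)
          refine Real.le_sqrt_of_sq_le ?_
          exact sq_int_le h2 h3
  refine squeeze_zero (fun n => norm_nonneg _) h1 ?_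
  have : Tendsto (fun n => |C| * Real.sqrt (dist2 μ (F n) G)) atTop
      (𝓝 (|C| * Real.sqrt 0)) := (h.sqrt).const_mul _
  simpa using this

/-- the mean ergodic theorem against a bounded function -/
lemma tendsto_avg (hMET : SpecMET) {T : Ω → Ω} (hT : MeasurePreserving T μ μ) {F B : Ω → ℂ}
    (hF : Bdd F) (hB : Bdd B) :
    Tendsto (fun N : ℕ => (N : ℂ)⁻¹ * ∑ n ∈ Finset.range N, ∫ x, F (T^[n] x) * B x ∂μ) atTop
      (𝓝 (∫ x, (μ[F | MeasurableSpace.invariants T]) x * B x ∂μ)) := by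
  have hFn : ∀ n : ℕ, Bdd (fun x => F (T^[n] x)) := fun n => hF.comp (hT.measurable.iterate n)
  have hA : ∀ N : ℕ, Bdd (avg T F N) := fun N => by
    unfold avg
    exact (Bdd.const _).mul (Bdd.sum _ fun n _ => hFn n)
  have h := tendsto_int (fun N => Bdd.memLp (hA N)) (condExp_memLp
    (MeasurableSpace.invariants_le T) hF) hB (hMET Ω μ T hT F hF)
  refine h.congr fun N => ?_
  unfold avg
  have e : (fun x => (N : ℂ)⁻¹ * ∑ n ∈ Finset.range N, F (T^[n] x) * B x) = fun x =>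
      (N : ℂ)⁻¹ * ∑ n ∈ Finset.range N, F (T^[n] x) * B x := rfl
  have e2 : (fun x => ((N : ℂ)⁻¹ * ∑ n ∈ Finset.range N, F (T^[n] x)) * B x) = fun x =>
      (N : ℂ)⁻¹ * ∑ n ∈ Finset.range N, F (T^[n] x) * B x := by
    funext x
    rw [mul_assoc, Finset.sum_mul]
  rw [e2, integral_const_mul, integral_finsetSum]
  intro n _
  exact ((hFn n).mul hB).integrable μ

omit [IsProbabilityMeasure μ] in
lemma int_comp {Ω' : Type} [MeasurableSpace Ω'] {ν : Measure Ω'} {T : Ω → Ω'}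
    (hT : MeasurePreserving T μ ν) {F : Ω' → ℂ} (hF : Measurable F) :
    ∫ x, F (T x) ∂μ = ∫ y, F y ∂ν := by
  rw [← hT.map_eq, integral_map hT.measurable.aemeasurable hF.aestronglyMeasurable]


end gen

section
variable {α : Type} [mα : MeasurableSpace α] [StandardBorelSpace α] (X : Sys α)

/-- `∫ f^{[n+1]} = ∫ |E(f^{[n]} | I_n)|²` -/
lemma int_cp_succ (n : ℕ) {f : α → ℂ} (hf : Bdd f) :
    ∫ x, cp f (n + 1) x ∂(X.cm (n + 1)) =
      ((∫ x, ‖((X.cm n)[cp f n | X.inv n]) x‖ ^ 2 ∂(X.cm n) : ℝ) : ℂ) := by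
  rw [X.integral_cm_succ n (cp f (n + 1))]
  simp only [cp_join]
  exact relSq_self (X.inv_le n) (X.cm n) (hf.cp n)

/-- `|∫ f^{[n]}|² ≤ ∫ f^{[n+1]}` -/
lemma sq_le (n : ℕ) {f : α → ℂ} (hf : Bdd f) :
    ‖∫ x, cp f n x ∂(X.cm n)‖ ^ 2 ≤ (∫ x, cp f (n + 1) x ∂(X.cm (n + 1))).re := by
  rw [int_cp_succ X n hf, Complex.ofReal_re]
  have h := norm_int_sq_le (μ := X.cm n) (condExp_memLp (X.inv_le n) (hf.cp n))
  rwa [integral_condExp (X.inv_le n)] at h

omit [StandardBorelSpace α] in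
lemma iter_cmap (n h : ℕ) : (cmap X.S : Cube n α → Cube n α)^[h] = cmap (X.S^[h]) := by
  induction h with
  | zero => rfl
  | succ h ih =>
    rw [Function.iterate_succ, ih]
    funext x ε
    simp only [Function.comp, cmap, Function.iterate_succ]

end

end NonnegM

theorem specNonneg : SpecNonneg := fun _ _ _ X n _ hf =>
  ⟨_, integral_nonneg fun _ => by positivity, NonnegM.int_cp_succ X n hf⟩

theorem specMono : SpecMono := by
  intro α _ _ X n f hf
  have h1 := NonnegM.sq_le X (n + 1) hf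
  have h2 : (∫ x, cp f (n + 2) x ∂(X.cm (n + 2))).re ≤ ‖∫ x, cp f (n + 2) x ∂(X.cm (n + 2))‖ :=
    Complex.re_le_norm _
  unfold Sys.sn
  set a := ‖∫ x, cp f (n + 1) x ∂(X.cm (n + 1))‖
  set b := ‖∫ x, cp f (n + 2) x ∂(X.cm (n + 2))‖
  have ha : 0 ≤ a := norm_nonneg _
  have h3 : a ^ 2 ≤ b := h1.trans h2
  have h4 : a ≤ b ^ ((1 / 2) : ℝ) := by
    rw [← Real.sqrt_eq_rpow]
    exact Real.le_sqrt_of_sq_le h3
  calc a ^ (((2 : ℝ) ^ (n + 1))⁻¹) ≤ (b ^ ((1 / 2) : ℝ)) ^ (((2 : ℝ) ^ (n + 1))⁻¹) :=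
        Real.rpow_le_rpow ha h4 (by positivity)
    _ = b ^ (((2 : ℝ) ^ (n + 2))⁻¹) := by
        rw [← Real.rpow_mul (norm_nonneg _)]
        congr 1
        rw [pow_succ (2 : ℝ) (n + 1), mul_inv]
        ring

theorem specN (hMET : SpecMET) : SpecN := by
  intro α _ _ X f hf
  refine ⟨?_, fun k hk => ?_⟩
  · have h := NonnegM.sq_le X 0 hf
    have e : ∫ x, cp f 0 x ∂(X.cm 0) = ∫ x, f x ∂X.μ := by
      rw [X.integral_cm_zero _ (measurable_cp hf.1 0).stronglyMeasurable]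
      simp only [cp_zero]
      rfl
    rw [e] at h
    exact h
  obtain ⟨n, rfl⟩ : ∃ n, k = n + 1 := ⟨k - 1, by omega⟩
  have hreal : ∫ x, cp f (n + 1) x ∂(X.cm (n + 1)) = (X.NP (n + 1) f : ℂ) := by
    unfold Sys.NP
    rw [NonnegM.int_cp_succ X n hf, Complex.ofReal_re]
  refine ⟨?_, hreal, ?_, ?_, ?_⟩
  · unfold Sys.NP
    rw [NonnegM.int_cp_succ X n hf, Complex.ofReal_re]
    exact integral_nonneg fun _ => by positivity
  · unfold Sys.NP
    congr 1
    exact NonnegM.int_comp (X.mp_cmap (n + 1)) (measurable_cp hf.1 (n + 1))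
  · unfold Sys.NP
    simp only [cp_conj]
    rw [integral_conj, Complex.conj_re]
  · have hF := hf.cp (n + 1)
    have h := NonnegM.tendsto_avg hMET (X.mp_cmap (n + 1)) hF hF.conj
    have e1 : ∫ x, ((X.cm (n + 1))[cp f (n + 1) | MeasurableSpace.invariants (cmap X.S)]) x *
        conj (cp f (n + 1) x) ∂(X.cm (n + 1)) = ∫ x, cp f (n + 2) x ∂(X.cm (n + 2)) := by
      rw [NonnegM.int_cp_succ X (n + 1) hf, ← NonnegM.relSq_self (X.inv_le (n + 1)) _ hF,
        integral_relSq_mul' _ _ hF hF.conj]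
      have h2 := integral_mul_condExp (X.inv_le (n + 1)) (μ := X.cm (n + 1)) hF.conj hF
      calc _ = ∫ x, conj (cp f (n + 1) x) * ((X.cm (n + 1))[cp f (n + 1) | X.inv (n + 1)]) x
            ∂(X.cm (n + 1)) := by
            refine integral_congr_ae (ae_of_all _ fun x => ?_)
            exact mul_comm _ _
        _ = _ := h2
        _ = _ := by
            refine integral_congr_ae (ae_of_all _ fun x => ?_)
            exact mul_comm _ _
    rw [e1] at h
    have h3 := (Complex.continuous_re.tendsto _).comp h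
    refine h3.congr fun H => ?_
    simp only [Function.comp]
    have e2 : ∀ h : ℕ, ∫ x, cp f (n + 1) ((cmap X.S)^[h] x) * conj (cp f (n + 1) x)
        ∂(X.cm (n + 1)) = ∫ x, cp (fun y => f (X.S^[h] y) * conj (f y)) (n + 1) x
        ∂(X.cm (n + 1)) := by
      intro h
      refine integral_congr_ae (ae_of_all _ fun x => ?_)
      simp only
      rw [cp_mul, cp_conj, NonnegM.iter_cmap]
      rfl
    simp only [e2]
    have e3 : ((H : ℂ)⁻¹ * ∑ h ∈ Finset.range H, ∫ x,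
        cp (fun y => f (X.S^[h] y) * conj (f y)) (n + 1) x ∂(X.cm (n + 1))).re =
        (H : ℝ)⁻¹ * ∑ h ∈ Finset.range H, (∫ x,
        cp (fun y => f (X.S^[h] y) * conj (f y)) (n + 1) x ∂(X.cm (n + 1))).re := by
      rw [← Complex.re_sum, ← Complex.re_ofReal_mul]
      push_cast
      rfl
    rw [e3]
    rfl

end MPd26.HK
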