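import Pool.Agent.Lib.MP_d26cd8_an.HK.Spec0
import Pool.Agent.Lib.MP_d26cd8_an.HK.Dist
import Pool.Agent.Lib.MP_d26cd8_an.HK.A_Nonneg

/-!
# The Gowers-Cauchy-Schwarz inequality for the cube measures (module GCS of project 86)

`specGCS (hS : SpecSym) : SpecGCS`.
-/

set_option autoImplicit false

open MeasureTheory ProbabilityTheory Filter Topology
open scoped ComplexConjugate ENNReal

namespace MPd26.HK.GCSM

/-! ### Signs -/

section Signs
variable {m : ℕ}

lemma prod_sign (v : Vx m) :
    (∏ i, (if v i = true then (-1 : ℤ) else 1)) = if isEven v then 1 else -1 := by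
  rw [Finset.prod_ite, Finset.prod_const_one, mul_one, Finset.prod_const]
  unfold isEven
  rcases Nat.even_or_odd (Finset.univ.filter fun i => v i = true).card with h | h
  · rw [h.neg_one_pow]
    have := Nat.even_iff.1 h
    simp [this]
  · rw [h.neg_one_pow]
    have := Nat.odd_iff.1 h
    simp [this]

lemma isEven_xor (v w : Vx m) : isEven (fun i => xor (v i) (w i)) = (isEven v == isEven w) := by
  have h := prod_sign (fun i => xor (v i) (w i))
  have h2 : (∏ i, (if xor (v i) (w i) = true then (-1 : ℤ) else 1))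
      = (∏ i, (if v i = true then (-1 : ℤ) else 1)) * ∏ i, (if w i = true then (-1 : ℤ) else 1) := by
    rw [← Finset.prod_mul_distrib]
    refine Finset.prod_congr rfl fun i _ => ?_
    cases v i <;> cases w i <;> simp
  rw [h2, prod_sign, prod_sign] at h
  cases h3 : isEven (fun i => xor (v i) (w i)) <;> cases h4 : isEven v <;> cases h5 : isEven w <;>
    simp [h3, h4, h5] at h ⊢

lemma sg_xor (v w : Vx m) (z : ℂ) : sg (fun i => xor (v i) (w i)) z = sg v (sg w z) := by
  unfold sg
  rw [isEven_xor]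
  cases isEven v <;> cases isEven w <;> simp

lemma sg_single (i : Fin m) (z : ℂ) : sg (fun j => decide (j = i)) z = conj z := by
  unfold sg isEven
  have : (Finset.univ.filter fun j : Fin m => decide (j = i) = true) = {i} := by
    ext j; simp
  rw [this]
  simp

/-- `sg v` of an integral. -/
lemma integral_sg {Ω : Type} [MeasurableSpace Ω] (μ : Measure Ω) (v : Vx m) (F : Ω → ℂ) :
    ∫ x, sg v (F x) ∂μ = sg v (∫ x, F x ∂μ) := by
  unfold sg
  split_ifs
  · rfl
  · exact integral_conj

lemma prod_sg {ι : Type} (s : Finset ι) (v : Vx m) (F : ι → ℂ) :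
    ∏ i ∈ s, sg v (F i) = sg v (∏ i ∈ s, F i) := by
  unfold sg
  split_ifs
  · rfl
  · exact (map_prod _ _ _).symm

lemma sg_comm (v w : Vx m) (z : ℂ) : sg v (sg w z) = sg w (sg v z) := by
  unfold sg
  split_ifs <;> simp

end Signs

/-! ### Families of functions -/

section Fam
variable {α : Type} {m : ℕ}

/-- The Cauchy-Schwarz family in direction `i`: keep the face `b`. -/
noncomputable def R (i : Fin m) (b : Bool) (g : Vx m → α → ℂ) : Vx m → α → ℂ :=
  fun ε y => if ε i = b then g ε y else conj (g (Function.update ε i b) y)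

/-- The family obtained from `f` after the directions in `D`, with the faces given by `η`. -/
noncomputable def G (D : Finset (Fin m)) (η : Vx m) (f : Vx m → α → ℂ) : Vx m → α → ℂ :=
  fun ε y => sg (fun i => if i ∈ D then xor (ε i) (η i) else false)
    (f (fun i => if i ∈ D then η i else ε i) y)

lemma G_empty (η : Vx m) (f : Vx m → α → ℂ) : G ∅ η f = f := by
  funext ε y
  unfold G
  simp only [Finset.notMem_empty, if_false]
  exact sg_v0 _

lemma G_univ (η : Vx m) (f : Vx m → α → ℂ) (ε : Vx m) (y : α) :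
    G Finset.univ η f ε y = sg ε (sg η (f η y)) := by
  unfold G
  simp only [Finset.mem_univ, if_true]
  exact sg_xor _ _ _

lemma R_G {D : Finset (Fin m)} {i : Fin m} (hi : i ∉ D) (η : Vx m) (f : Vx m → α → ℂ) :
    R i (η i) (G D η f) = G (insert i D) η f := by
  funext ε y
  unfold R
  by_cases h : ε i = η i
  · simp only [h, if_true]
    unfold G
    have h1 : (fun j => if j ∈ D then xor (ε j) (η j) else false)
        = fun j => if j ∈ insert i D then xor (ε j) (η j) else false := by
      funext j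
      by_cases hj : j = i
      · subst hj; simp [hi, h]
      · simp [Finset.mem_insert, hj]
    have h2 : (fun j => if j ∈ D then η j else ε j)
        = fun j => if j ∈ insert i D then η j else ε j := by
      funext j
      by_cases hj : j = i
      · subst hj; simp [hi, h]
      · simp [Finset.mem_insert, hj]
    rw [h1, h2]
  · simp only [h, if_false]
    unfold G
    have h1 : (fun j => if j ∈ insert i D then xor (ε j) (η j) else false)
        = fun j => xor (decide (j = i))
          ((fun j => if j ∈ D then xor (Function.update ε i (η i) j) (η j) else false) j) := by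
      funext j
      by_cases hj : j = i
      · subst hj
        simp only [Finset.mem_insert_self, if_true, hi, decide_true]
        cases h3 : ε j <;> cases h4 : η j <;> simp [h3, h4] at h ⊢
      · simp [Finset.mem_insert, hj]
    have h2 : (fun j => if j ∈ D then η j else Function.update ε i (η i) j)
        = fun j => if j ∈ insert i D then η j else ε j := by
      funext j
      by_cases hj : j = i
      · subst hj; simp [hi]
      · simp [Finset.mem_insert, hj]
    rw [h1, h2, sg_xor, sg_single]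

/-- Flip the `i`-th coordinate. -/
def flip (i : Fin m) (η : Vx m) : Vx m := Function.update η i (!(η i))

lemma flip_flip (i : Fin m) (η : Vx m) : flip i (flip i η) = η := by
  unfold flip
  funext j
  by_cases hj : j = i
  · subst hj; simp
  · simp [Function.update_of_ne hj]

/-- `flip` as an equivalence. -/
def flipE (i : Fin m) : Vx m ≃ Vx m := ⟨flip i, flip i, flip_flip i, flip_flip i⟩

lemma G_flip {D : Finset (Fin m)} {i : Fin m} (hi : i ∉ D) (η : Vx m) (f : Vx m → α → ℂ) :
    G D (flip i η) f = G D η f := by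
  funext ε y
  unfold G
  have h1 : (fun j => if j ∈ D then xor (ε j) (flip i η j) else false)
      = fun j => if j ∈ D then xor (ε j) (η j) else false := by
    funext j
    by_cases hj : j = i
    · subst hj; simp [hi]
    · simp [flip, Function.update_of_ne hj]
  have h2 : (fun j => if j ∈ D then flip i η j else ε j)
      = fun j => if j ∈ D then η j else ε j := by
    funext j
    by_cases hj : j = i
    · subst hj; simp [hi]
    · simp [flip, Function.update_of_ne hj]
  rw [h1, h2]

end Fam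

/-! ### The inequality -/

section Ineq
variable {α : Type} [mα : MeasurableSpace α] [StandardBorelSpace α] (X : Sys α) {n : ℕ}

omit [StandardBorelSpace α] in
lemma bdd_R {m : ℕ} {g : Vx m → α → ℂ} (hg : ∀ ε, Bdd (g ε)) (i : Fin m) (b : Bool) (ε : Vx m) :
    Bdd (R i b g ε) := by
  unfold R
  by_cases h : ε i = b
  · simpa only [h, if_true] using hg ε
  · simpa only [h, if_false] using (hg _).conj

omit [StandardBorelSpace α] in
lemma bdd_G {m : ℕ} {g : Vx m → α → ℂ} (hg : ∀ ε, Bdd (g ε)) (D : Finset (Fin m)) (η : Vx m)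
    (ε : Vx m) : Bdd (G D η g ε) := by
  unfold G
  exact (hg _).sg _

/-- `‖∫ ∏ f_ε‖`. -/
noncomputable def Φ {m : ℕ} (g : Vx m → α → ℂ) : ℝ := ‖∫ x, ∏ ε, g ε (x ε) ∂(X.cm m)‖

lemma int_split (g : Vx (n + 1) → α → ℂ) :
    ∫ x, ∏ ε, g ε (x ε) ∂(X.cm (n + 1)) = ∫ p, (∏ ε : Vx n, g (Fin.cons false ε) (p.1 ε)) *
      (∏ ε : Vx n, g (Fin.cons true ε) (p.2 ε)) ∂(relSq (X.inv_le n) (X.cm n)) := by
  rw [Sys.integral_cm_succ]
  congr 1
  funext p
  rw [prod_cube_succ]
  have h1 : ∀ ε : Vx n, join p (Fin.cons false ε) = p.1 ε := fun ε => by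
    have := congrFun (lo_join p) ε
    exact this
  have h2 : ∀ ε : Vx n, join p (Fin.cons true ε) = p.2 ε := fun ε => by
    have := congrFun (hi_join p) ε
    exact this
  simp only [h1, h2]

omit [StandardBorelSpace α] in
lemma bdd_face {m : ℕ} {g : Vx m → α → ℂ} (hg : ∀ ε, Bdd (g ε)) :
    Bdd (fun x : Cube m α => ∏ ε, g ε (x ε)) :=
  Bdd.prod _ fun ε _ => (hg ε).comp (measurable_pi_apply ε)

/-- Cauchy-Schwarz in direction `0`. -/
lemma cs_zero {g : Vx (n + 1) → α → ℂ} (hg : ∀ ε, Bdd (g ε)) :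
    Φ X g ^ 2 ≤ Φ X (R 0 false g) * Φ X (R 0 true g) := by
  set A : Cube n α → ℂ := fun x => ∏ ε : Vx n, g (Fin.cons false ε) (x ε) with hA
  set B : Cube n α → ℂ := fun x => ∏ ε : Vx n, g (Fin.cons true ε) (x ε) with hB
  have hAb : Bdd A := bdd_face fun ε => hg _
  have hBb : Bdd B := bdd_face fun ε => hg _
  have e0 : ∫ x, ∏ ε, g ε (x ε) ∂(X.cm (n + 1))
      = ∫ x, ((X.cm n)[A | X.inv n]) x * ((X.cm n)[B | X.inv n]) x ∂(X.cm n) := by
    rw [int_split]
    exact integral_relSq_mul' _ _ hAb hBb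
  have e1 : ∫ x, ∏ ε, R 0 false g ε (x ε) ∂(X.cm (n + 1))
      = ((∫ x, ‖((X.cm n)[A | X.inv n]) x‖ ^ 2 ∂(X.cm n) : ℝ) : ℂ) := by
    rw [int_split, ← NonnegM.relSq_self (X.inv_le n) (X.cm n) hAb]
    congr 1
    funext p
    congr 1
    simp only [hA, map_prod]
    refine Finset.prod_congr rfl fun ε _ => ?_
    simp [R, Fin.update_cons_zero]
  have e2 : ∫ x, ∏ ε, R 0 true g ε (x ε) ∂(X.cm (n + 1))
      = ((∫ x, ‖((X.cm n)[B | X.inv n]) x‖ ^ 2 ∂(X.cm n) : ℝ) : ℂ) := by
    have e3 : ∫ p, conj (B p.1) * B p.2 ∂(relSq (X.inv_le n) (X.cm n))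
        = ∫ p, B p.1 * conj (B p.2) ∂(relSq (X.inv_le n) (X.cm n)) := by
      have h1 := mp_relSq_swap (X.inv_le n) (X.cm n)
      have h2 := NonnegM.int_comp h1 (F := fun p => B p.1 * conj (B p.2))
        ((hBb.comp measurable_fst).mul (hBb.comp measurable_snd).conj).1
      rw [← h2]
      congr 1
      funext p
      simp only [Prod.fst_swap, Prod.snd_swap]
      ring
    rw [int_split, ← NonnegM.relSq_self (X.inv_le n) (X.cm n) hBb, ← e3]
    congr 1
    funext p
    congr 1
    simp only [hB, map_prod]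
    refine Finset.prod_congr rfl fun ε _ => ?_
    simp [R, Fin.update_cons_zero]
  unfold Φ
  rw [e0, e1, e2]
  have hAm : MemLp ((X.cm n)[A | X.inv n]) 2 (X.cm n) := Bdd.condExp_memLp hAb 2
  have hBm : MemLp ((X.cm n)[B | X.inv n]) 2 (X.cm n) := Bdd.condExp_memLp hBb 2
  have h1 := norm_integral_mul_le hAm hBm
  have n1 : 0 ≤ ∫ x, ‖((X.cm n)[A | X.inv n]) x‖ ^ 2 ∂(X.cm n) :=
    integral_nonneg fun x => by positivity
  have n2 : 0 ≤ ∫ x, ‖((X.cm n)[B | X.inv n]) x‖ ^ 2 ∂(X.cm n) :=
    integral_nonneg fun x => by positivity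
  have d1 : dist2 (X.cm n) ((X.cm n)[A | X.inv n]) 0
      = ∫ x, ‖((X.cm n)[A | X.inv n]) x‖ ^ 2 ∂(X.cm n) := by
    unfold dist2; simp
  have d2 : dist2 (X.cm n) ((X.cm n)[B | X.inv n]) 0
      = ∫ x, ‖((X.cm n)[B | X.inv n]) x‖ ^ 2 ∂(X.cm n) := by
    unfold dist2; simp
  rw [d1, d2] at h1
  rw [Complex.norm_of_nonneg n1, Complex.norm_of_nonneg n2]
  calc _ ≤ (Real.sqrt (∫ x, ‖((X.cm n)[A | X.inv n]) x‖ ^ 2 ∂(X.cm n)) *
        Real.sqrt (∫ x, ‖((X.cm n)[B | X.inv n]) x‖ ^ 2 ∂(X.cm n))) ^ 2 :=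
        pow_le_pow_left₀ (norm_nonneg _) h1 2
    _ = _ := by rw [mul_pow, Real.sq_sqrt n1, Real.sq_sqrt n2]

lemma Φ_perm (hS : SpecSym) {m : ℕ} {g : Vx m → α → ℂ} (hg : ∀ ε, Bdd (g ε))
    (i j : Fin m) : Φ X (fun ε => g (fun k => ε (Equiv.swap i j k))) = Φ X g := by
  unfold Φ
  have h := hS α X m (Equiv.swap i j) (fun _ => false)
  have h1 := NonnegM.int_comp h (F := fun x => ∏ ε, g ε (x ε)) (bdd_face hg).1
  rw [← h1]
  congr 1
  congr 1
  funext x
  have h2 : ∀ ε : Vx m, symm (Equiv.swap i j) (fun _ => false) x ε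
      = x (fun k => ε (Equiv.swap i j k)) := fun ε => by simp [symm]
  simp only [h2]
  refine Fintype.prod_equiv (Equiv.arrowCongr (Equiv.swap i j) (Equiv.refl Bool)) _ _ fun ε => ?_
  have h3 : (fun k => (Equiv.arrowCongr (Equiv.swap i j) (Equiv.refl Bool)) ε
      (Equiv.swap i j k)) = ε := by
    funext k
    simp [Equiv.arrowCongr]
  have h4 : (Equiv.arrowCongr (Equiv.swap i j) (Equiv.refl Bool)) ε
      = fun k => ε (Equiv.swap i j k) := by
    funext k
    simp [Equiv.arrowCongr]
  rw [h3, h4]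

/-- Cauchy-Schwarz in direction `i`. -/
lemma cs (hS : SpecSym) {g : Vx (n + 1) → α → ℂ} (hg : ∀ ε, Bdd (g ε)) (i : Fin (n + 1)) :
    Φ X g ^ 2 ≤ Φ X (R i false g) * Φ X (R i true g) := by
  have h0 := cs_zero X (g := fun ε => g (fun k => ε (Equiv.swap 0 i k))) fun ε => hg _
  have h1 : ∀ b : Bool, R 0 b (fun ε => g (fun k => ε (Equiv.swap 0 i k)))
      = fun ε => R i b g (fun k => ε (Equiv.swap 0 i k)) := by
    intro b
    funext ε y
    unfold R
    simp only [Equiv.swap_apply_right]
    have h2 : (fun k => Function.update ε 0 b (Equiv.swap 0 i k))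
        = Function.update (fun k => ε (Equiv.swap 0 i k)) i b := by
      funext k
      by_cases hk : k = i
      · subst hk; simp
      · have : Equiv.swap 0 i k ≠ 0 := by
          intro h
          apply hk
          have := congrArg (Equiv.swap 0 i) h
          simpa using this
        rw [Function.update_of_ne this, Function.update_of_ne hk]
    rw [h2]
  rw [h1, h1, Φ_perm X hS hg, Φ_perm X hS (bdd_R hg i false), Φ_perm X hS (bdd_R hg i true)] at h0
  exact h0

lemma main (hS : SpecSym) {f : Vx (n + 1) → α → ℂ} (hf : ∀ ε, Bdd (f ε))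
    (D : Finset (Fin (n + 1))) :
    Φ X f ^ (2 ^ (n + 1)) ≤ ∏ η : Vx (n + 1), Φ X (G D η f) := by
  classical
  have hΦ : ∀ g : Vx (n + 1) → α → ℂ, 0 ≤ Φ X g := fun g => norm_nonneg _
  induction D using Finset.induction_on with
  | empty =>
    simp only [G_empty, Finset.prod_const, Finset.card_univ, Fintype.card_fun, Fintype.card_bool,
      Fintype.card_fin]
    exact le_rfl
  | insert i D hi ih =>
    refine ih.trans ?_
    refine (pow_le_pow_iff_left₀ (Finset.prod_nonneg fun η _ => hΦ _)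
      (Finset.prod_nonneg fun η _ => hΦ _) (two_ne_zero)).1 ?_
    have h1 : ∏ η : Vx (n + 1), Φ X (G D η f) ^ 2
        ≤ ∏ η : Vx (n + 1), (Φ X (R i false (G D η f)) * Φ X (R i true (G D η f))) :=
      Finset.prod_le_prod (fun η _ => sq_nonneg _) fun η _ => cs X hS (bdd_G hf D η) i
    have h2 : ∀ η : Vx (n + 1), Φ X (R i false (G D η f)) * Φ X (R i true (G D η f))
        = Φ X (G (insert i D) η f) * Φ X (G (insert i D) (flip i η) f) := by
      intro η
      have h3 := R_G hi η f
      have h4 := R_G hi (flip i η) f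
      rw [G_flip hi] at h4
      have h5 : flip i η i = !(η i) := by simp [flip]
      rw [h5] at h4
      rw [← h3, ← h4]
      cases η i
      · rfl
      · exact mul_comm _ _
    rw [← Finset.prod_pow]
    refine h1.trans (le_of_eq ?_)
    simp only [h2]
    rw [Finset.prod_mul_distrib, (flipE i).prod_comp (fun η => Φ X (G (insert i D) η f)) |>.symm]
    have h6 : ∏ η : Vx (n + 1), Φ X (G (insert i D) (flip i η) f)
        = ∏ η : Vx (n + 1), Φ X (G (insert i D) η f) :=
      (flipE i).prod_comp (fun η => Φ X (G (insert i D) η f))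
    have h7 : ∏ η : Vx (n + 1), Φ X (G (insert i D) (flipE i η) f)
        = ∏ η : Vx (n + 1), Φ X (G (insert i D) η f) := h6
    rw [h6, h7, sq]

lemma Φ_univ {m : ℕ} (η : Vx m) (f : Vx m → α → ℂ) :
    Φ X (G Finset.univ η f) = ‖∫ x, cp (f η) m x ∂(X.cm m)‖ := by
  unfold Φ
  have h1 : ∀ x : Cube m α, ∏ ε, G Finset.univ η f ε (x ε) = sg η (cp (f η) m x) := by
    intro x
    unfold cp
    rw [← prod_sg]
    refine Finset.prod_congr rfl fun ε _ => ?_
    rw [G_univ, sg_comm]
  simp only [h1]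
  rw [integral_sg, norm_sg]

end Ineq

end MPd26.HK.GCSM

namespace MPd26.HK

open GCSM

theorem specGCS (hS : SpecSym) : SpecGCS := by
  intro α _ _ X n f hf
  have h1 := GCSM.main X hS hf Finset.univ
  simp only [Φ_univ] at h1
  have h0 : 0 ≤ ‖∫ x, ∏ ε, f ε (x ε) ∂(X.cm (n + 1))‖ := norm_nonneg _
  have hne : 2 ^ (n + 1) ≠ 0 := by positivity
  have h2 := Real.rpow_le_rpow (pow_nonneg h0 _) h1
    (z := (((2 ^ (n + 1) : ℕ) : ℝ))⁻¹) (by positivity)
  have h3 : (‖∫ x, ∏ ε, f ε (x ε) ∂(X.cm (n + 1))‖ ^ (2 ^ (n + 1))) ^ ((((2 ^ (n + 1) : ℕ) : ℝ))⁻¹)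
      = ‖∫ x, ∏ ε, f ε (x ε) ∂(X.cm (n + 1))‖ := Real.pow_rpow_inv_natCast h0 hne
  rw [h3] at h2
  refine h2.trans (le_of_eq ?_)
  rw [← Real.finsetProd_rpow _ _ fun η _ => norm_nonneg _]
  unfold Sys.sn
  push_cast
  rfl

end MPd26.HK
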