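import Pool.Agent.Lib.MP_d26cd8_an.HK.A_IdT

/-!
# Side maps (SpecUpper, SpecSideS)
-/

set_option autoImplicit false

open MeasureTheory ProbabilityTheory Filter Topology
open scoped ComplexConjugate ENNReal

namespace MPd26.HK

namespace SideM

section
variable {α : Type}

lemma appOn_join_zero_true (g : α → α) {n : ℕ} (p : Cube n α × Cube n α) :
    appOn g (side 0 true) (join p) = join (p.1, cmap g p.2) := by
  funext ε
  by_cases h : ε 0 = true
  · simp [appOn, join, side, cmap, h]
  · simp [appOn, join, side, h]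

lemma appOn_join_zero_false (g : α → α) {n : ℕ} (p : Cube n α × Cube n α) :
    appOn g (side 0 false) (join p) = join (cmap g p.1, p.2) := by
  funext ε
  by_cases h : ε 0 = true
  · simp [appOn, join, side, h]
  · simp [appOn, join, side, cmap, h]

lemma appOn_join_succ (g : α → α) {n : ℕ} (i : Fin n) (b : Bool) (p : Cube n α × Cube n α) :
    appOn g (side i.succ b) (join p)
      = join (appOn g (side i b) p.1, appOn g (side i b) p.2) := by
  funext ε
  by_cases h : ε 0 = true
  · by_cases h2 : ε i.succ = b <;> simp [appOn, join, side, h, h2]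
  · by_cases h2 : ε i.succ = b <;> simp [appOn, join, side, h, h2]

lemma measurable_appOn [MeasurableSpace α] {g : α → α} (hg : Measurable g) {n : ℕ}
    (F : Set (Vx n)) : Measurable (appOn g F : Cube n α → Cube n α) := by
  refine measurable_pi_lambda _ fun ε => ?_
  by_cases h : ε ∈ F
  · have e : (fun x : Cube n α => appOn g F x ε) = fun x => g (x ε) := by
      funext x; simp [appOn, h]
    rw [e]
    exact hg.comp (measurable_pi_apply ε)
  · have e : (fun x : Cube n α => appOn g F x ε) = fun x => x ε := by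
      funext x; simp [appOn, h]
    rw [e]
    exact measurable_pi_apply ε

lemma appOn_cmap (g : α → α) {n : ℕ} (F : Set (Vx n)) (x : Cube n α) :
    appOn g F (cmap g x) = cmap g (appOn g F x) := by
  funext ε
  by_cases h : ε ∈ F <;> simp [appOn, cmap, h]

end

section
variable {α : Type} [MeasurableSpace α] [StandardBorelSpace α] (X : Sys α)

/-- The side maps of `S` preserve the cube measures. -/
theorem sidePres (n : ℕ) : X.SidePres X.S n := by
  induction n with
  | zero => intro i; exact i.elim0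
  | succ n ih =>
    intro i b
    have hm := X.measurable_cmapS n
    refine ⟨measurable_appOn X.S.measurable _, ?_⟩
    rw [Sys.cm_succ, Measure.map_map (measurable_appOn X.S.measurable _) measurable_join]
    refine Fin.cases ?_ (fun i => ?_) i
    · cases b with
      | true =>
        have e : (appOn X.S (side 0 true) : Cube (n + 1) α → Cube (n + 1) α) ∘ join
            = join ∘ Prod.map id (cmap X.S) := by
          funext p; exact appOn_join_zero_true X.S p
        rw [e, ← Measure.map_map measurable_join (measurable_id.prodMap hm)]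
        exact congrArg (Measure.map join) (relSq_map_snd (X.mp_cmap n))
      | false =>
        have e : (appOn X.S (side 0 false) : Cube (n + 1) α → Cube (n + 1) α) ∘ join
            = join ∘ Prod.map (cmap X.S) id := by
          funext p; exact appOn_join_zero_false X.S p
        rw [e, ← Measure.map_map measurable_join (hm.prodMap measurable_id)]
        exact congrArg (Measure.map join) (relSq_map_fst (X.mp_cmap n))
    · have e : (appOn X.S (side i.succ b) : Cube (n + 1) α → Cube (n + 1) α) ∘ join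
          = join ∘ Prod.map (appOn X.S (side i b)) (appOn X.S (side i b)) := by
        funext p; exact appOn_join_succ X.S i b p
      have hma : Measurable (appOn X.S (side i b) : Cube n α → Cube n α) :=
        measurable_appOn X.S.measurable _
      rw [e, ← Measure.map_map measurable_join (hma.prodMap hma)]
      have h1 := specIntertwineSq (Cube n α) (Cube n α) (X.cm n) (X.cm n) (cmap X.S) (cmap X.S)
        (appOn X.S (side i b)) (X.mp_cmap n) (X.mp_cmap n) (ih i b)
        (Eventually.of_forall fun x => appOn_cmap X.S _ x)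
      exact congrArg (Measure.map join) h1.map_eq

/-- One step: a function on `μ^[n+1]` invariant under the upper side of the new direction is a
function of the lower face, and keeps its invariances under the other sides. -/
theorem step (n : ℕ) {A : Cube (n + 1) α → ℂ} (hA : Bdd A)
    (h0 : ∀ᵐ x ∂(X.cm (n + 1)), A (appOn X.S (side 0 true) x) = A x) :
    ∃ A₁ : Cube n α → ℂ, Bdd A₁ ∧ (∀ᵐ x ∂(X.cm (n + 1)), A x = A₁ (lo x)) ∧
      (∀ (i : Fin n) (b : Bool), (∀ᵐ x ∂(X.cm (n + 1)), A (appOn X.S (side i.succ b) x) = A x) →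
        ∀ᵐ y ∂(X.cm n), A₁ (appOn X.S (side i b) y) = A₁ y) ∧
      ((∀ᵐ x ∂(X.cm (n + 1)), A (appOn X.S (side 0 false) x) = A x) →
        ∀ᵐ y ∂(X.cm n), A₁ (cmap X.S y) = A₁ y) := by
  set ν := relSq (X.inv_le n) (X.cm n) with hν
  have hj : MeasurePreserving (join : Cube n α × Cube n α → Cube (n + 1) α) ν (X.cm (n + 1)) :=
    ⟨measurable_join, (X.cm_succ n).symm⟩
  have h1 : ∀ᵐ p ∂ν, (A ∘ join) (p.1, cmap X.S p.2) = (A ∘ join) p := by
    filter_upwards [hj.quasiMeasurePreserving.ae h0] with p hp
    rw [appOn_join_zero_true] at hp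
    exact hp
  obtain ⟨A₁, hA₁, h2⟩ := IdTM.idT (X.mp_cmap n) (hA.comp' measurable_join) h1
  have h2' : ∀ᵐ p ∂ν, A (join p) = A₁ p.1 := h2
  have h3 : ∀ᵐ x ∂(X.cm (n + 1)), A x = A₁ (lo x) := by
    rw [X.cm_succ n]
    have hms : MeasurableSet {x : Cube (n + 1) α | A x = A₁ (lo x)} :=
      measurableSet_eq_fun hA.meas (hA₁.meas.comp measurable_lo)
    rw [ae_map_iff measurable_join.aemeasurable hms]
    filter_upwards [h2'] with p hp
    rw [hp]; rfl
  have hfst := relSq_mp_fst (X.inv_le n) (X.cm n)
  -- from `ν` to `X.cm n`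
  have hdown : ∀ {P : Cube n α → Prop}, MeasurableSet {y | P y} → (∀ᵐ p ∂ν, P p.1) →
      ∀ᵐ y ∂(X.cm n), P y := by
    intro P hP h
    rw [← hfst.map_eq, ae_map_iff hfst.measurable.aemeasurable hP]
    exact h
  refine ⟨A₁, hA₁, h3, fun i b hi => ?_, fun hf => ?_⟩
  · have hma : Measurable (appOn X.S (side i b) : Cube n α → Cube n α) :=
      measurable_appOn X.S.measurable _
    have hpp := specIntertwineSq (Cube n α) (Cube n α) (X.cm n) (X.cm n) (cmap X.S) (cmap X.S)
        (appOn X.S (side i b)) (X.mp_cmap n) (X.mp_cmap n) (sidePres X n i b)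
        (Eventually.of_forall fun x => appOn_cmap X.S _ x)
    refine hdown (measurableSet_eq_fun (hA₁.meas.comp hma) hA₁.meas) ?_
    have h4 : ∀ᵐ p ∂ν, A (join (appOn X.S (side i b) p.1, appOn X.S (side i b) p.2))
        = A (join p) := by
      filter_upwards [hj.quasiMeasurePreserving.ae hi] with p hp
      rw [appOn_join_succ] at hp
      exact hp
    filter_upwards [h4, h2', hpp.quasiMeasurePreserving.ae h2'] with p e1 e2 e3
    rw [← e2, ← e1]
    exact e3.symm
  · refine hdown (measurableSet_eq_fun (hA₁.meas.comp (X.measurable_cmapS n)) hA₁.meas) ?_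
    have hTm : MeasurePreserving (Prod.map (cmap X.S) id) ν ν :=
      ⟨(X.measurable_cmapS n).prodMap measurable_id, relSq_map_fst (X.mp_cmap n)⟩
    have h4 : ∀ᵐ p ∂ν, A (join (cmap X.S p.1, p.2)) = A (join p) := by
      filter_upwards [hj.quasiMeasurePreserving.ae hf] with p hp
      rw [appOn_join_zero_false] at hp
      exact hp
    filter_upwards [h4, h2', hTm.quasiMeasurePreserving.ae h2'] with p e1 e2 e3
    rw [← e2, ← e1]
    exact e3.symm

theorem upper (n : ℕ) : ∀ A : Cube n α → ℂ, Bdd A →
    (∀ i : Fin n, ∀ᵐ x ∂(X.cm n), A (appOn X.S (side i true) x) = A x) →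
    ∃ A' : α → ℂ, Bdd A' ∧ ∀ᵐ x ∂(X.cm n), A x = A' (x v0) := by
  induction n with
  | zero =>
    intro A hA _
    refine ⟨fun y => A (pt y), hA.comp measurable_pt, Eventually.of_forall fun x => ?_⟩
    have : x = pt (x v0) := by
      funext ε
      have : ε = v0 := Subsingleton.elim _ _
      rw [this]; rfl
    conv_lhs => rw [this]
  | succ n ih =>
    intro A hA h
    obtain ⟨A₁, hA₁, h1, h2, -⟩ := step X n hA (h 0)
    obtain ⟨A', hA', h3⟩ := ih A₁ hA₁ fun i => h2 i true (h i.succ)
    refine ⟨A', hA', ?_⟩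
    filter_upwards [h1, (X.mp_lo n).quasiMeasurePreserving.ae h3] with x e1 e2
    rw [e1, e2]
    congr 1
    change x (Fin.cons false v0) = x v0
    congr 1
    funext j
    refine Fin.cases ?_ (fun j => ?_) j <;> simp [v0]

/-- Ergodicity of the side maps: bounded functions. -/
theorem sideErg (hX : X.Erg) (n : ℕ) : ∀ A : Cube (n + 1) α → ℂ, Bdd A →
    (∀ (i : Fin (n + 1)) (b : Bool), ∀ᵐ x ∂(X.cm (n + 1)), A (appOn X.S (side i b) x) = A x) →
    ∃ c : ℂ, ∀ᵐ x ∂(X.cm (n + 1)), A x = c := by
  induction n with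
  | zero =>
    intro A hA h
    obtain ⟨A₁, hA₁, h1, -, h3⟩ := step X 0 hA (h 0 true)
    have h4 := h3 (h 0 false)
    have hpt : MeasurePreserving (pt : α → Cube 0 α) X.μ (X.cm 0) := ⟨measurable_pt, rfl⟩
    have h5 : (fun y => A₁ (pt y)) ∘ X.S =ᵐ[X.μ] fun y => A₁ (pt y) := by
      filter_upwards [hpt.quasiMeasurePreserving.ae h4] with y hy
      exact hy
    obtain ⟨c, hc⟩ := Ergodic.quasiErgodic hX |>.ae_eq_const_of_ae_eq_comp_ae
      ((hA₁.comp measurable_pt).asm X.μ) h5
    refine ⟨c, ?_⟩
    have h6 : ∀ᵐ y ∂(X.cm 0), A₁ y = c := by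
      rw [X.cm_zero, ae_map_iff measurable_pt.aemeasurable
        (measurableSet_eq_fun hA₁.meas measurable_const)]
      filter_upwards [hc] with y hy
      exact hy
    filter_upwards [h1, (X.mp_lo 0).quasiMeasurePreserving.ae h6] with x e1 e2
    rw [e1, e2]
  | succ n ih =>
    intro A hA h
    obtain ⟨A₁, hA₁, h1, h2, -⟩ := step X (n + 1) hA (h 0 true)
    obtain ⟨c, hc⟩ := ih A₁ hA₁ fun i b => h2 i b (h i.succ b)
    refine ⟨c, ?_⟩
    filter_upwards [h1, (X.mp_lo (n + 1)).quasiMeasurePreserving.ae hc] with x e1 e2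
    rw [e1, e2]

end

/-- An injective bounded measurable map `ℂ → ℂ`. -/
noncomputable def sq (z : ℂ) : ℂ := z / ((1 + ‖z‖ : ℝ) : ℂ)

lemma sq_bdd (z : ℂ) : ‖sq z‖ ≤ 1 := by
  unfold sq
  have h : (0 : ℝ) < 1 + ‖z‖ := by positivity
  rw [norm_div, Complex.norm_real, Real.norm_of_nonneg h.le, div_le_one h]
  linarith [norm_nonneg z]

lemma measurable_sq : Measurable sq := by
  unfold sq
  exact measurable_id.div (Complex.measurable_ofReal.comp (measurable_const.add measurable_norm))

lemma sq_inj {z w : ℂ} (h : sq z = sq w) : z = w := by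
  unfold sq at h
  have hz : (0 : ℝ) < 1 + ‖z‖ := by positivity
  have hw : (0 : ℝ) < 1 + ‖w‖ := by positivity
  have h1 : ‖z‖ / (1 + ‖z‖) = ‖w‖ / (1 + ‖w‖) := by
    have := congrArg norm h
    rwa [norm_div, norm_div, Complex.norm_real, Complex.norm_real, Real.norm_of_nonneg hz.le,
      Real.norm_of_nonneg hw.le] at this
  have h2 : ‖z‖ = ‖w‖ := by
    rw [div_eq_div_iff hz.ne' hw.ne'] at h1
    nlinarith
  rw [h2] at h
  have h3 : ((1 + ‖w‖ : ℝ) : ℂ) ≠ 0 := by exact_mod_cast hw.ne'
  exact (div_left_inj' h3).1 h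

end SideM

theorem specUpper : SpecUpper := by
  intro α _ _ X n A hA h
  exact SideM.upper X n A hA h

theorem specSideS : SpecSideS := by
  intro α _ _ X n
  refine ⟨SideM.sidePres X n, fun hX A hA h => ?_⟩
  have hB : Bdd (fun x => SideM.sq (A x)) :=
    ⟨SideM.measurable_sq.comp hA, 1, fun x => SideM.sq_bdd _⟩
  obtain ⟨c, hc⟩ := SideM.sideErg X hX n _ hB fun i b => by
    filter_upwards [h i b] with x hx
    rw [hx]
  obtain ⟨x₀, hx₀⟩ := hc.exists
  refine ⟨A x₀, ?_⟩
  filter_upwards [hc] with x hx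
  exact SideM.sq_inj (hx.trans hx₀.symm)

end MPd26.HK
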