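import Pool.Agent.Lib.MP_d26cd8_an.HK.Spec0
import Pool.Agent.Lib.MP_d26cd8_an.HK.Sq

/-!
# Symmetry of the cube measures (module Sym of project 86)

`specSym (hIS : SpecIntertwineSq) (hSw : SpecSwap) : SpecSym`.
-/

set_option autoImplicit false

open MeasureTheory ProbabilityTheory Filter Topology
open scoped ComplexConjugate ENNReal

namespace MPd26.HK.SymM

section Maps
variable {α : Type} {n : ℕ}

lemma symm_symm' (σ σ' : Equiv.Perm (Fin n)) (r r' : Vx n) (x : Cube n α) :
    symm σ r (symm σ' r' x) = symm (σ * σ') (fun i => xor (r (σ' i)) (r' i)) x := by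
  funext ε
  unfold symm
  congr 1
  funext i
  simp [Equiv.Perm.mul_apply]

/-- Extension of a permutation by fixing `0`. -/
noncomputable def ext (σ : Equiv.Perm (Fin n)) : Equiv.Perm (Fin (n + 1)) :=
  Equiv.Perm.decomposeFin.symm (0, σ)

lemma ext_zero (σ : Equiv.Perm (Fin n)) : ext σ 0 = 0 := by
  unfold ext; simp

lemma ext_succ (σ : Equiv.Perm (Fin n)) (i : Fin n) : ext σ i.succ = (σ i).succ := by
  unfold ext
  rw [Equiv.Perm.decomposeFin_symm_apply_succ]
  simp

lemma symm_lift (σ : Equiv.Perm (Fin n)) (r : Vx n) (x : Cube (n + 1) α) :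
    symm (ext σ) (Fin.cons false r : Vx (n + 1)) x = join (symm σ r (lo x), symm σ r (hi x)) := by
  funext ε
  unfold join lo hi symm
  by_cases h : ε 0 = true
  · simp only [h, if_true]
    congr 1
    funext i
    refine Fin.cases ?_ (fun j => ?_) i
    · simp [ext_zero, h]
    · simp [ext_succ]
  · have h' : ε 0 = false := by simpa using h
    simp only [h']
    simp only [Bool.false_eq_true, if_false]
    congr 1
    funext i
    refine Fin.cases ?_ (fun j => ?_) i
    · simp [ext_zero, h']
    · simp [ext_succ]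

lemma symm_refl0 (x : Cube (n + 1) α) :
    symm 1 (Fin.cons true (fun _ => false) : Vx (n + 1)) x = join (hi x, lo x) := by
  funext ε
  unfold join lo hi symm
  by_cases h : ε 0 = true
  · simp only [h, if_true]
    congr 1
    funext i
    refine Fin.cases ?_ (fun j => ?_) i
    · simp [h]
    · simp
  · have h' : ε 0 = false := by simpa using h
    simp only [h']
    simp only [Bool.false_eq_true, if_false]
    congr 1
    funext i
    refine Fin.cases ?_ (fun j => ?_) i
    · simp [h']
    · simp

lemma symm_swap01 (x : Cube (n + 2) α) :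
    symm (Equiv.swap 0 1) (fun _ => false) x
      = join (join (lo (lo x), lo (hi x)), join (hi (lo x), hi (hi x))) := by
  funext ε
  have h1 : ∀ i : Fin n, (Equiv.swap (0 : Fin (n + 2)) 1) i.succ.succ = i.succ.succ := by
    intro i
    refine Equiv.swap_apply_of_ne_of_ne (Fin.succ_ne_zero _) ?_
    intro h
    have : (i.succ.succ : Fin (n + 2)) = (0 : Fin (n + 1)).succ := h
    exact Fin.succ_ne_zero _ (Fin.succ_injective _ this)
  have key : (fun i => xor (ε ((Equiv.swap (0 : Fin (n + 2)) 1) i)) false)
      = (Fin.cons (ε 1) (Fin.cons (ε 0) (fun i => ε i.succ.succ) : Vx (n + 1)) : Vx (n + 2)) := by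
    funext i
    refine Fin.cases ?_ (fun j => ?_) i
    · simp
    · refine Fin.cases ?_ (fun k => ?_) j
      · simp
      · rw [h1]; simp
  unfold symm
  rw [key]
  unfold join lo hi
  have h2 : (Fin.succ (0 : Fin (n + 1)) : Fin (n + 2)) = 1 := rfl
  cases h0 : ε 0 <;> cases h1 : ε 1 <;> simp [h1, h2]

end Maps

section Meas
variable {α : Type} [mα : MeasurableSpace α] [StandardBorelSpace α] (X : Sys α) {n : ℕ}

omit [StandardBorelSpace α] in
lemma measurable_symm (σ : Equiv.Perm (Fin n)) (r : Vx n) :
    Measurable (symm σ r : Cube n α → Cube n α) :=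
  measurable_pi_lambda _ fun _ => measurable_pi_apply _

lemma mp_prodMap {Ω : Type} [MeasurableSpace Ω] [StandardBorelSpace Ω] {μ : Measure Ω}
    [IsProbabilityMeasure μ] {T : Ω → Ω} (hT : MeasurePreserving T μ μ) :
    MeasurePreserving (Prod.map T T) (relSq (MeasurableSpace.invariants_le T) μ)
      (relSq (MeasurableSpace.invariants_le T) μ) := by
  have h1 : MeasurePreserving (Prod.map T id) (relSq (MeasurableSpace.invariants_le T) μ)
      (relSq (MeasurableSpace.invariants_le T) μ) :=
    ⟨hT.measurable.prodMap measurable_id, relSq_map_fst hT⟩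
  have h2 : MeasurePreserving (Prod.map id T) (relSq (MeasurableSpace.invariants_le T) μ)
      (relSq (MeasurableSpace.invariants_le T) μ) :=
    ⟨measurable_id.prodMap hT.measurable, relSq_map_snd hT⟩
  exact h1.comp h2

lemma mp_lift (hIS : SpecIntertwineSq) {σ : Equiv.Perm (Fin n)} {r : Vx n}
    (h : MeasurePreserving (symm σ r) (X.cm n) (X.cm n)) :
    MeasurePreserving (symm (ext σ) (Fin.cons false r : Vx (n + 1))) (X.cm (n + 1))
      (X.cm (n + 1)) := by
  have h1 := hIS (Cube n α) (Cube n α) (X.cm n) (X.cm n) (cmap X.S) (cmap X.S) (symm σ r)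
    (X.mp_cmap n) (X.mp_cmap n) h (ae_of_all _ fun x => rfl)
  have h2 := ((X.mp_join n).comp h1).comp (X.mp_split n)
  have h3 : (symm (ext σ) (Fin.cons false r : Vx (n + 1)) : Cube (n + 1) α → Cube (n + 1) α)
      = (join ∘ Prod.map (symm σ r) (symm σ r)) ∘ fun x => (lo x, hi x) := by
    funext x
    exact symm_lift σ r x
  rw [h3]
  exact h2

lemma mp_refl0 : MeasurePreserving
    (symm 1 (Fin.cons true (fun _ => false) : Vx (n + 1))) (X.cm (n + 1)) (X.cm (n + 1)) := by
  have h2 := ((X.mp_join n).comp (mp_relSq_swap (X.inv_le n) (X.cm n))).comp (X.mp_split n)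
  have h3 : (symm 1 (Fin.cons true (fun _ => false) : Vx (n + 1)) :
      Cube (n + 1) α → Cube (n + 1) α) = (join ∘ Prod.swap) ∘ fun x => (lo x, hi x) := by
    funext x
    exact symm_refl0 x
  rw [h3]
  exact h2

lemma mp_swap01 (hIS : SpecIntertwineSq) (hSw : SpecSwap) : MeasurePreserving
    (symm (Equiv.swap 0 1) (fun _ => false)) (X.cm (n + 2)) (X.cm (n + 2)) := by
  have hT := X.mp_cmap n
  have hS := hSw (Cube n α) (X.cm n) (cmap X.S) hT
  have hsplit := hIS (Cube (n + 1) α) (Cube n α × Cube n α) (X.cm (n + 1))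
    (relSq (X.inv_le n) (X.cm n)) (cmap X.S) (Prod.map (cmap X.S) (cmap X.S))
    (fun x => (lo x, hi x)) (X.mp_cmap (n + 1)) (mp_prodMap hT) (X.mp_split n)
    (ae_of_all _ fun x => rfl)
  have hjoin := hIS (Cube n α × Cube n α) (Cube (n + 1) α) (relSq (X.inv_le n) (X.cm n))
    (X.cm (n + 1)) (Prod.map (cmap X.S) (cmap X.S)) (cmap X.S) join
    (mp_prodMap hT) (X.mp_cmap (n + 1)) (X.mp_join n)
    (ae_of_all _ fun x => (Sys.cmap_join X.S x).symm)
  have h2 := ((((X.mp_join (n + 1)).comp hjoin).comp hS).comp hsplit).comp (X.mp_split (n + 1))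
  have h3 : (symm (Equiv.swap 0 1) (fun _ => false) : Cube (n + 2) α → Cube (n + 2) α)
      = (((join ∘ Prod.map join join) ∘
        fun q : (Cube n α × Cube n α) × (Cube n α × Cube n α) =>
          ((q.1.1, q.2.1), (q.1.2, q.2.2))) ∘
          Prod.map (fun x => (lo x, hi x)) (fun x => (lo x, hi x))) ∘ fun x => (lo x, hi x) := by
    funext x
    exact symm_swap01 x
  rw [h3]
  exact h2

end Meas

end MPd26.HK.SymM

namespace MPd26.HK

open SymM

theorem specSym (hIS : SpecIntertwineSq) (hSw : SpecSwap) : SpecSym := by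
  intro α _ _ X n
  induction n with
  | zero =>
    intro σ r
    have : (symm σ r : Cube 0 α → Cube 0 α) = id := by
      funext x ε
      unfold symm
      congr 1
      exact Subsingleton.elim _ _
    rw [this]
    exact MeasurePreserving.id _
  | succ n ih =>
    -- products
    have hmul : ∀ (σ σ' : Equiv.Perm (Fin (n + 1))) (r r' : Vx (n + 1)),
        MeasurePreserving (symm σ r) (X.cm (n + 1)) (X.cm (n + 1)) →
        MeasurePreserving (symm σ' r') (X.cm (n + 1)) (X.cm (n + 1)) →
        MeasurePreserving (symm (σ * σ') (fun i => xor (r (σ' i)) (r' i)))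
          (X.cm (n + 1)) (X.cm (n + 1)) := by
      intro σ σ' r r' h h'
      have h3 : (symm (σ * σ') (fun i => xor (r (σ' i)) (r' i)) :
          Cube (n + 1) α → Cube (n + 1) α) = symm σ r ∘ symm σ' r' := by
        funext x
        exact (symm_symm' σ σ' r r' x).symm
      rw [h3]
      exact h.comp h'
    have hmulp : ∀ (σ σ' : Equiv.Perm (Fin (n + 1))),
        MeasurePreserving (symm σ (fun _ => false)) (X.cm (n + 1)) (X.cm (n + 1)) →
        MeasurePreserving (symm σ' (fun _ => false)) (X.cm (n + 1)) (X.cm (n + 1)) →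
        MeasurePreserving (symm (σ * σ') (fun _ => false)) (X.cm (n + 1)) (X.cm (n + 1)) := by
      intro σ σ' h h'
      simpa using hmul σ σ' _ _ h h'
    -- extensions
    have hext : ∀ σ : Equiv.Perm (Fin n),
        MeasurePreserving (symm (ext σ) (fun _ => false)) (X.cm (n + 1)) (X.cm (n + 1)) := by
      intro σ
      have := mp_lift X hIS (ih σ (fun _ => false))
      have h2 : (Fin.cons false (fun _ => false) : Vx (n + 1)) = fun _ => false := by
        funext i
        refine Fin.cases ?_ (fun j => ?_) i <;> simp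
      rwa [h2] at this
    -- transpositions with `0`
    have hswap : ∀ p : Fin (n + 1),
        MeasurePreserving (symm (Equiv.swap 0 p) (fun _ => false)) (X.cm (n + 1))
          (X.cm (n + 1)) := by
      intro p
      refine Fin.cases ?_ (fun j => ?_) p
      · rw [Equiv.swap_self]
        have : (symm (Equiv.refl (Fin (n + 1))) (fun _ => false) :
            Cube (n + 1) α → Cube (n + 1) α) = id := by
          funext x ε
          simp [symm]
        rw [this]
        exact MeasurePreserving.id _
      · obtain ⟨m, rfl⟩ : ∃ m, n = m + 1 :=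
          ⟨n - 1, (Nat.succ_pred_eq_of_pos j.pos).symm⟩
        have h1 : Equiv.swap (0 : Fin (m + 1 + 1)) j.succ
            = ext (Equiv.swap 0 j) * Equiv.swap 0 1 * (ext (Equiv.swap 0 j)) := by
          have h2 : (ext (Equiv.swap 0 j))⁻¹ = ext (Equiv.swap 0 j) := by
            rw [inv_eq_iff_mul_eq_one]
            ext1 i
            refine Fin.cases ?_ (fun k => ?_) i
            · simp [ext_zero]
            · simp [ext_succ]
          have h3 := Equiv.swap_apply_apply (ext (Equiv.swap 0 j)) (0 : Fin (m + 1 + 1)) 1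
          rw [h2] at h3
          rw [← h3, ext_zero]
          have h4 : (1 : Fin (m + 1 + 1)) = (0 : Fin (m + 1)).succ := rfl
          rw [h4, ext_succ, Equiv.swap_apply_left]
        rw [h1]
        exact hmulp _ _ (hmulp _ _ (hext _) (mp_swap01 X hIS hSw)) (hext _)
    have hperm : ∀ σ : Equiv.Perm (Fin (n + 1)),
        MeasurePreserving (symm σ (fun _ => false)) (X.cm (n + 1)) (X.cm (n + 1)) := by
      intro σ
      obtain ⟨⟨p, e⟩, rfl⟩ := Equiv.Perm.decomposeFin.symm.surjective σ
      have h1 : Equiv.Perm.decomposeFin.symm (p, e) = Equiv.swap 0 p * ext e := by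
        ext1 i
        refine Fin.cases ?_ (fun k => ?_) i
        · simp [ext_zero]
        · rw [Equiv.Perm.decomposeFin_symm_apply_succ, Equiv.Perm.mul_apply, ext_succ]
      rw [h1]
      exact hmulp _ _ (hswap p) (hext e)
    -- reflections
    have hrefl : ∀ r : Vx (n + 1),
        MeasurePreserving (symm 1 r) (X.cm (n + 1)) (X.cm (n + 1)) := by
      intro r
      have h1 := mp_lift X hIS (ih 1 (fun i => r i.succ))
      have h2 : ext (1 : Equiv.Perm (Fin n)) = 1 := by
        ext1 i
        refine Fin.cases ?_ (fun k => ?_) i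
        · simp [ext_zero]
        · simp [ext_succ]
      rw [h2] at h1
      cases h0 : r 0
      · have : (Fin.cons false (fun i => r i.succ) : Vx (n + 1)) = r := by
          rw [← h0]; exact Fin.cons_self_tail r
        rwa [this] at h1
      · have h3 := hmul _ _ _ _ (mp_refl0 X) h1
        have h4 : (fun i => xor ((Fin.cons true (fun _ => false) : Vx (n + 1))
            ((1 : Equiv.Perm (Fin (n + 1))) i)) ((Fin.cons false (fun i => r i.succ) :
              Vx (n + 1)) i)) = r := by
          funext i
          refine Fin.cases ?_ (fun k => ?_) i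
          · simp [h0]
          · simp
        rw [h4] at h3
        simpa using h3
    intro σ r
    have h1 := hmul σ 1 (fun _ => false) r (hperm σ) (hrefl r)
    simpa using h1

end MPd26.HK
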