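import Pool.Agent.Lib.MP_d26cd8_an.HK.A_Dual

/-!
# MP_d26cd8_an, HK: module Zfac (helper18)

Functoriality of `Z_k`.
-/

set_option autoImplicit false

open MeasureTheory ProbabilityTheory Filter Topology
open scoped ComplexConjugate ENNReal

namespace MPd26.HK

namespace ZfacM

variable {α β : Type} [mα : MeasurableSpace α] [StandardBorelSpace α]
  [mβ : MeasurableSpace β] [StandardBorelSpace β]

lemma mpF {X : Sys α} {Y : Sys β} {p : α → β} (hp : FMap X Y p) :
    MeasurePreserving p X.μ Y.μ := ⟨hp.meas, hp.law⟩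

omit [StandardBorelSpace α] [StandardBorelSpace β] in
/-- Factors of ergodic systems are ergodic. -/
lemma erg {X : Sys α} {Y : Sys β} {p : α → β} (hX : Ergodic X.S X.μ) (hp : FMap X Y p) :
    Ergodic Y.S Y.μ := by
  have hm : MeasurePreserving p X.μ Y.μ := ⟨hp.meas, hp.law⟩
  refine ⟨Y.mp, ⟨fun s hs hs' => ?_⟩⟩
  have h1 : X.S ⁻¹' (p ⁻¹' s) =ᵐ[X.μ] p ⁻¹' s := by
    filter_upwards [hp.eqv] with x hx
    refine propext ?_
    change p (X.S x) ∈ s ↔ p x ∈ s
    rw [hx]
    have : Y.S (p x) ∈ s ↔ p x ∈ Y.S ⁻¹' s := Iff.rfl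
    rw [this, hs']
  have h2 := hX.quasiErgodic.ae_empty_or_univ₀ (hm.measurable hs).nullMeasurableSet h1
  rw [Filter.eventuallyConst_set']
  rcases h2 with h | h
  · left
    have : Y.μ s = 0 := by
      rw [← hm.measure_preimage hs.nullMeasurableSet, measure_congr h, measure_empty]
    exact ae_eq_empty.2 this
  · right
    have : Y.μ sᶜ = 0 := by
      rw [← hm.measure_preimage hs.compl.nullMeasurableSet, Set.preimage_compl]
      exact ae_eq_univ.1 h
    exact ae_eq_univ.2 this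

/-- `Z_k` contains with a set all measurable sets equal to it almost everywhere. -/
lemma inZ_congr (Y : Sys β) {k : ℕ} {A A' : Set β} (hA : MeasurableSet A)
    (h : A =ᵐ[Y.μ] A') (hA' : Y.InZ k A') : Y.InZ k A := by
  obtain ⟨_, B, hB, hAB⟩ := hA'
  exact ⟨hA, B, hB, ((Y.mp_marg (k + 1) v0).quasiMeasurePreserving.preimage_ae_eq h).trans hAB⟩

/-- Functoriality, easy direction. -/
lemma fwd (hFac : SpecFac) {X : Sys α} {Y : Sys β} {p : α → β} (hp : FMap X Y p) {k : ℕ}
    {A : Set β} (hA : Y.InZ k A) : X.InZ k (p ⁻¹' A) := by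
  obtain ⟨hAm, B, hB, hAB⟩ := hA
  have h1 := (hFac α β X Y p hp (k + 1)).1
  refine ⟨hp.meas hAm, (fun y η => p (y η)) ⁻¹' B,
    (measurable_pi_lambda _ fun η => hp.meas.comp (measurable_pi_apply η)) hB, ?_⟩
  exact h1.quasiMeasurePreserving.preimage_ae_eq hAB

omit [StandardBorelSpace α] [StandardBorelSpace β] [mα : MeasurableSpace α]
  [mβ : MeasurableSpace β] in
lemma cp_comp (f : β → ℂ) (p : α → β) {n : ℕ} (x : Cube n α) :
    cp (fun a => f (p a)) n x = cp f n (cmap p x) := rfl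

lemma sn_comp (hFac : SpecFac) {X : Sys α} {Y : Sys β} {p : α → β} (hp : FMap X Y p) (n : ℕ)
    {f : β → ℂ} (hf : Bdd f) : X.sn n (fun a => f (p a)) = Y.sn n f := by
  have h1 := (hFac α β X Y p hp n).1
  unfold Sys.sn
  have : ∫ x, cp f n x ∂(Y.cm n) = ∫ x, cp (fun a => f (p a)) n x ∂(X.cm n) := by
    rw [← h1.map_eq, integral_map h1.measurable.aemeasurable
      (hf.cp n).1.aestronglyMeasurable]
    rfl
  rw [this]

end ZfacM

open ZfacM in
theorem specZfac (hFac : SpecFac) (hZ : SpecZchar) : SpecZfac := by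
  intro α β _ _ _ _ X Y p hX hp k A hAm
  refine ⟨fun h => fwd hFac hp h, fun h => ?_⟩
  have hm := mpF hp
  have hY : Y.Erg := erg hX hp
  have h1 : Bdd (A.indicator fun _ => (1 : ℂ)) := by
    refine ⟨measurable_const.indicator hAm, 1, fun x => ?_⟩
    by_cases hx : x ∈ A <;> simp [hx]
  obtain ⟨g, hgm, hg, hge⟩ := DualM.version (Y.Z k).le Y.μ h1
  set f : β → ℂ := fun y => A.indicator (fun _ => (1 : ℂ)) y - g y with hf
  have hfb : Bdd f := h1.sub hg
  have e1 : Y.μ[f | (Y.Z k).σ] =ᵐ[Y.μ] 0 := by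
    have e2 : Y.μ[f | (Y.Z k).σ] =ᵐ[Y.μ]
        Y.μ[A.indicator (fun _ => (1 : ℂ)) | (Y.Z k).σ] - Y.μ[g | (Y.Z k).σ] :=
      condExp_sub (h1.integrable Y.μ) (hg.integrable Y.μ) (Y.Z k).σ
    have e3 : Y.μ[g | (Y.Z k).σ] = g :=
      condExp_of_stronglyMeasurable (Y.Z k).le hgm.stronglyMeasurable (hg.integrable Y.μ)
    filter_upwards [e2, hge] with y h2 h3
    rw [h2, e3]
    simp [h3]
  have s1 : Y.sn (k + 1) f = 0 := (hZ β Y hY k f hfb).2 e1
  have s2 : X.sn (k + 1) (fun a => f (p a)) = 0 := by rw [sn_comp hFac hp (k + 1) hfb, s1]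
  have hfp : Bdd (fun a => f (p a)) := hfb.comp hp.meas
  have s3 := (hZ α X hX k _ hfp).1 s2
  have hfm : Measurable[(X.Z k).σ] (fun a => f (p a)) := by
    have m1 : Measurable[(X.Z k).σ] (fun a => A.indicator (fun _ => (1 : ℂ)) (p a)) := by
      have : (fun a => A.indicator (fun _ => (1 : ℂ)) (p a)) = (p ⁻¹' A).indicator fun _ => 1 := rfl
      rw [this]
      exact measurable_const.indicator h
    have m2 : Measurable[(X.Z k).σ] (fun a => g (p a)) := by
      intro U hU
      exact fwd hFac hp (hgm hU)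
    exact m1.sub m2
  have s4 : X.μ[fun a => f (p a) | (X.Z k).σ] = fun a => f (p a) :=
    condExp_of_stronglyMeasurable (X.Z k).le hfm.stronglyMeasurable (hfp.integrable X.μ)
  rw [s4] at s3
  have s5 : ∀ᵐ y ∂Y.μ, f y = 0 := by
    rw [← hp.law]
    refine (ae_map_iff hp.meas.aemeasurable (hfb.1 (measurableSet_singleton 0))).2 ?_
    filter_upwards [s3] with a ha using ha
  have s6 : A =ᵐ[Y.μ] g ⁻¹' {1} := by
    filter_upwards [s5] with y hy
    refine propext ?_
    change y ∈ A ↔ g y = 1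
    by_cases h : y ∈ A
    · have : (1 : ℂ) - g y = 0 := by simpa [hf, h] using hy
      exact ⟨fun _ => (sub_eq_zero.1 this).symm, fun _ => h⟩
    · have h0 : g y = 0 := by simpa [hf, h] using hy
      exact ⟨fun h' => absurd h' h, fun h' => absurd (h0.symm.trans h') (by norm_num)⟩
  exact inZ_congr Y hAm s6 (hgm (measurableSet_singleton 1))

end MPd26.HK
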