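import Pool.Agent.Lib.MP_d26cd8_an.HK.Spec0
import Pool.Agent.Lib.MP_d26cd8_an.HK.Sq

/-!
# MP_d26cd8_an, HK: module Zmono (helper18)

`Z_k ⊆ Z_{k+1}`.
-/

set_option autoImplicit false

open MeasureTheory ProbabilityTheory Filter Topology
open scoped ComplexConjugate ENNReal

namespace MPd26.HK

theorem specZmono : SpecZmono := by
  intro α _ _ X _ k A hA
  obtain ⟨hAm, B, hB, hAB⟩ := hA
  have hv : ∀ η : Vx (k + 1), η ≠ v0 → (Fin.cons false η : Vx (k + 1 + 1)) ≠ v0 := by
    intro η hη h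
    apply hη
    funext i
    have := congrFun h i.succ
    simpa [v0] using this
  let q : ({η : Vx (k + 1 + 1) // η ≠ v0} → α) → ({η : Vx (k + 1) // η ≠ v0} → α) :=
    fun y η => y ⟨Fin.cons false η.1, hv η.1 η.2⟩
  have hq : Measurable q := measurable_pi_lambda _ fun η => measurable_pi_apply _
  refine ⟨hAm, q ⁻¹' B, hq hB, ?_⟩
  have h1 := (X.mp_lo (k + 1)).quasiMeasurePreserving.preimage_ae_eq hAB
  have e1 : (lo : Cube (k + 1 + 1) α → Cube (k + 1) α) ⁻¹' ((fun x : Cube (k + 1) α => x v0) ⁻¹' A)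
      = (fun x : Cube (k + 1 + 1) α => x v0) ⁻¹' A := by
    ext x
    simp only [Set.mem_preimage]
    have : lo x v0 = x v0 := by
      unfold lo
      congr 1
      funext i
      refine Fin.cases ?_ (fun j => ?_) i
      · rfl
      · rfl
    rw [this]
  have e2 : (lo : Cube (k + 1 + 1) α → Cube (k + 1) α) ⁻¹' (rst v0 ⁻¹' B)
      = rst v0 ⁻¹' (q ⁻¹' B) := by
    ext x
    rfl
  rw [e1, e2] at h1
  exact h1

end MPd26.HK
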