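import Pool.Agent.Lib.MP_d26cd8_an.HK.Spec0
import Pool.Agent.Lib.MP_d26cd8_an.HK.Sq

/-!
# MP_d26cd8_an, HK: module Zzero (helper18)

`Z_0` is trivial for ergodic systems.
-/

set_option autoImplicit false

open MeasureTheory ProbabilityTheory Filter Topology
open scoped ComplexConjugate ENNReal

namespace MPd26.HK

namespace ZzeroM

variable {α : Type} [mα : MeasurableSpace α] [StandardBorelSpace α] (X : Sys α)

/-- `S` on the lower vertex of the one-dimensional cube preserves `μ^[1]`. -/
lemma mp_lower (n : ℕ) :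
    MeasurePreserving (fun x : Cube (n + 1) α => (join (cmap X.S (lo x), hi x) : Cube (n + 1) α))
      (X.cm (n + 1)) (X.cm (n + 1)) := by
  have h1 : MeasurePreserving (Prod.map (cmap X.S) id) (relSq (X.inv_le n) (X.cm n))
      (relSq (X.inv_le n) (X.cm n)) :=
    ⟨(X.measurable_cmapS n).prodMap measurable_id, relSq_map_fst (X.mp_cmap n)⟩
  exact (X.mp_join n).comp (h1.comp (X.mp_split n))

end ZzeroM

theorem specZzero : SpecZzero := by
  intro α _ _ X hX A hA
  obtain ⟨hAm, B, hB, hAB⟩ := hA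
  have h0 := X.mp_marg 1 v0
  have hT := ZzeroM.mp_lower X 0
  set T : Cube 1 α → Cube 1 α := fun x => join (cmap X.S (lo x), hi x) with hTdef
  have e1 : T ⁻¹' ((fun x : Cube 1 α => x v0) ⁻¹' A)
      =ᵐ[X.cm 1] T ⁻¹' (rst v0 ⁻¹' B) := hT.quasiMeasurePreserving.preimage_ae_eq hAB
  have e2 : T ⁻¹' (rst v0 ⁻¹' B) = (rst v0 ⁻¹' B : Set (Cube 1 α)) := by
    ext x
    simp only [Set.mem_preimage]
    have : rst v0 (T x) = rst v0 x := by
      funext η
      obtain ⟨η, hη⟩ := η
      have h1 : η 0 = true := by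
        by_contra h
        apply hη
        funext i
        have : i = 0 := Subsingleton.elim _ _
        subst this
        simpa [v0] using h
      have h2 : join (lo x, hi x) η = x η := congrFun (join_lo_hi x) η
      change join (cmap X.S (lo x), hi x) η = x η
      rw [← h2]
      unfold join
      simp [h1]
    rw [this]
  have e3 : T ⁻¹' ((fun x : Cube 1 α => x v0) ⁻¹' A)
      = (fun x : Cube 1 α => x v0) ⁻¹' (X.S ⁻¹' A) := by
    ext x
    simp only [Set.mem_preimage]
    have h2 : join (lo x, hi x) v0 = x v0 := congrFun (join_lo_hi x) v0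
    have : (T x) v0 = X.S (x v0) := by
      rw [← h2]
      change join (cmap X.S (lo x), hi x) v0 = _
      unfold join cmap
      simp [v0]
    rw [this]
  have e4 : (fun x : Cube 1 α => x v0) ⁻¹' (X.S ⁻¹' A) =ᵐ[X.cm 1]
      (fun x : Cube 1 α => x v0) ⁻¹' A := by
    rw [← e3]
    refine e1.trans ?_
    rw [e2]
    exact hAB.symm
  have e5 : X.S ⁻¹' A =ᵐ[X.μ] A := by
    have h1 : ∀ᵐ x ∂(X.cm 1), (x v0 ∈ X.S ⁻¹' A ↔ x v0 ∈ A) := by
      filter_upwards [e4] with x hx
      exact Iff.of_eq hx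
    have h2 : MeasurableSet {a | a ∈ X.S ⁻¹' A ↔ a ∈ A} := (X.S.measurable hAm).iff hAm
    have h3 : ∀ᵐ a ∂X.μ, (a ∈ X.S ⁻¹' A ↔ a ∈ A) := by
      rw [← h0.map_eq]
      exact (ae_map_iff h0.measurable.aemeasurable h2).2 h1
    filter_upwards [h3] with a ha
    exact propext ha
  have hE : Ergodic X.S X.μ := hX
  rcases hE.quasiErgodic.ae_empty_or_univ₀ hAm.nullMeasurableSet e5 with h | h
  · left; rw [measure_congr h, measure_empty]
  · right; rw [measure_congr h, measure_univ]

end MPd26.HK
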