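import Pool.Agent.Lib.MP_d26cd8_an.HK.Spec0
import Pool.Agent.Lib.MP_d26cd8_an.HK.Sq

/-!
# MP_d26cd8_an: automorphisms act by side maps (module Aut)

The relative square `ρ₂` of the relative square is invariant under the exchange of the two middle
points; `(G × id) × (G × id)` preserves `ρ₂`, hence so does `(G × G) × id`.
-/

set_option autoImplicit false

open MeasureTheory ProbabilityTheory Filter Topology
open scoped ComplexConjugate ENNReal

namespace MPd26.HK

namespace AutM

section
variable {Ω : Type} {m : MeasurableSpace Ω} [mΩ : MeasurableSpace Ω]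

/-- `E(f ∘ G | m) = E(f | m)` if `G` acts trivially on `m`. -/
lemma condExp_comp {E : Type} [NormedAddCommGroup E] [NormedSpace ℝ E] [CompleteSpace E]
    (hm : m ≤ mΩ) {μ : Measure Ω} [IsFiniteMeasure μ] {G : Ω → Ω}
    (hG : MeasurePreserving G μ μ) (htriv : ∀ A, MeasurableSet[m] A → G ⁻¹' A =ᵐ[μ] A)
    {f : Ω → E} (hf : Integrable f μ) : μ[f ∘ G | m] =ᵐ[μ] μ[f | m] := by
  refine ae_eq_condExp_of_forall_setIntegral_eq hm hf
    (fun s _ _ => integrable_condExp.integrableOn) ?_ stronglyMeasurable_condExp.aestronglyMeasurable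
  intro s hs _
  rw [setIntegral_condExp hm (hG.integrable_comp_of_integrable hf) hs,
    ← setIntegral_congr_set (htriv s hs)]
  have h2 := hG.restrict_preimage (hm s hs)
  calc ∫ x in G ⁻¹' s, (f ∘ G) x ∂μ = ∫ x, f x ∂((μ.restrict (G ⁻¹' s)).map G) := by
        rw [integral_map hG.measurable.aemeasurable]
        · rfl
        · rw [h2.map_eq]
          exact hf.aestronglyMeasurable.restrict
    _ = ∫ x in s, f x ∂μ := by rw [h2.map_eq]

variable [StandardBorelSpace Ω]

/-- `id × G` preserves the relative square if `G` acts trivially on `m`. -/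
lemma mp_id_prod (hm : m ≤ mΩ) {μ : Measure Ω} [IsFiniteMeasure μ] {G : Ω → Ω}
    (hG : MeasurePreserving G μ μ) (htriv : ∀ A, MeasurableSet[m] A → G ⁻¹' A =ᵐ[μ] A) :
    MeasurePreserving (Prod.map id G) (relSq hm μ) (relSq hm μ) := by
  refine ⟨measurable_id.prodMap hG.measurable, ?_⟩
  have : IsFiniteMeasure (relSq hm μ) := by unfold relSq; infer_instance
  have : IsFiniteMeasure ((relSq hm μ).map (Prod.map id G)) := by infer_instance
  refine Measure.ext_prod fun {A B} hA hB => ?_
  rw [Measure.map_apply (measurable_id.prodMap hG.measurable) (hA.prod hB)]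
  have h1 : Prod.map id G ⁻¹' (A ×ˢ B) = A ×ˢ (G ⁻¹' B) := by ext p; simp
  rw [h1, relSq_prod _ _ hA (hG.measurable hB), relSq_prod _ _ hA hB]
  refine lintegral_congr_ae (ae_restrict_of_ae ?_)
  have e1 := condExpKernel_ae_eq_condExp (μ := μ) hm (hG.measurable hB)
  have e2 := condExpKernel_ae_eq_condExp (μ := μ) hm hB
  have e3 := condExp_comp hm hG htriv (f := B.indicator fun _ => (1 : ℝ))
    ((integrable_const (1 : ℝ)).indicator hB)
  have e4 : (B.indicator fun _ => (1 : ℝ)) ∘ G = (G ⁻¹' B).indicator fun _ => (1 : ℝ) := rfl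
  rw [e4] at e3
  filter_upwards [e1, e2, e3] with x h1 h2 h3
  have : (condExpKernel μ m x).real (G ⁻¹' B) = (condExpKernel μ m x).real B := by rw [h1, h2, h3]
  rw [← ofReal_measureReal, ← ofReal_measureReal, this]

/-- `G × id` preserves the relative square if `G` acts trivially on `m`. -/
lemma mp_prod_id (hm : m ≤ mΩ) {μ : Measure Ω} [IsFiniteMeasure μ] {G : Ω → Ω}
    (hG : MeasurePreserving G μ μ) (htriv : ∀ A, MeasurableSet[m] A → G ⁻¹' A =ᵐ[μ] A) :
    MeasurePreserving (Prod.map G id) (relSq hm μ) (relSq hm μ) := by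
  have h1 := mp_id_prod hm hG htriv
  have h2 := mp_relSq_swap hm μ
  exact (h2.comp h1).comp h2

/-- If `Γ × id` preserves the relative square then `Γ` acts trivially on `m`. -/
lemma triv_of_mp (hm : m ≤ mΩ) {μ : Measure Ω} [IsFiniteMeasure μ] {Γ : Ω → Ω}
    (hΓ : MeasurePreserving Γ μ μ)
    (h : MeasurePreserving (Prod.map Γ id) (relSq hm μ) (relSq hm μ)) (A : Set Ω)
    (hA : MeasurableSet[m] A) : Γ ⁻¹' A =ᵐ[μ] A := by
  have hA' : MeasurableSet A := hm A hA
  -- the points of the square are both in `A` or both outside `A`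
  have hdiag : ∀ᵐ p ∂(relSq hm μ), (p.1 ∈ A ↔ p.2 ∈ A) := by
    have hs : MeasurableSet {p : Ω × Ω | p.1 ∈ A ↔ p.2 ∈ A} :=
      (measurable_fst hA').iff (measurable_snd hA')
    rw [ae_relSq_iff hm μ hs]
    filter_upwards [dis_apply_of_meas hm μ hA] with x hx
    filter_upwards [hx] with y hy
    exact hy.symm
  have h1 : ∀ᵐ p ∂(relSq hm μ), (Γ p.1 ∈ A ↔ p.2 ∈ A) := by
    have := h.quasiMeasurePreserving.ae hdiag
    exact this
  have h2 : ∀ᵐ p ∂(relSq hm μ), (Γ p.1 ∈ A ↔ p.1 ∈ A) := by
    filter_upwards [h1, hdiag] with p hp1 hp2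
    rw [hp1, hp2]
  have h3 : ∀ᵐ x ∂μ, (Γ x ∈ A ↔ x ∈ A) := by
    rw [← relSq_fst hm μ, ae_map_iff measurable_fst.aemeasurable]
    · exact h2
    · exact (hΓ.measurable hA').iff hA'
  filter_upwards [h3] with x hx
  exact eq_iff_iff.2 hx

end

section
variable {α : Type} {n : ℕ}

lemma appOn_join_true (g : α → α) (p : Cube n α × Cube n α) :
    appOn g (side 0 true) (join p) = join (Prod.map id (cmap g) p) := by
  classical
  funext ε
  unfold appOn side join cmap
  by_cases h : ε 0 = true
  · simp [h]
  · simp [h]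

lemma appOn_join_false (g : α → α) (p : Cube n α × Cube n α) :
    appOn g (side 0 false) (join p) = join (Prod.map (cmap g) id p) := by
  classical
  funext ε
  unfold appOn side join cmap
  by_cases h : ε 0 = true
  · simp [h]
  · simp [h]

lemma appOn_mem (g : α → α) {k : ℕ} {F : Set (Vx k)} {ε : Vx k} (h : ε ∈ F) (x : Cube k α) :
    appOn g F x ε = g (x ε) := by
  unfold appOn
  exact if_pos h

lemma appOn_notMem (g : α → α) {k : ℕ} {F : Set (Vx k)} {ε : Vx k} (h : ε ∉ F) (x : Cube k α) :
    appOn g F x ε = x ε := by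
  unfold appOn
  exact if_neg h

lemma appOn_conj (g : α → α) (i : Fin (n + 1)) (b : Bool) (x : Cube (n + 1) α) :
    appOn g (side i b) x = symm (Equiv.swap 0 i) (fun _ => false)
      (appOn g (side 0 b) (symm (Equiv.swap 0 i) (fun _ => false) x)) := by
  funext ε
  have e1 : (fun j => xor (ε ((Equiv.swap 0 i) j)) false : Vx (n + 1)) 0 = ε i := by
    simp
  have e2 : (fun j => xor ((fun j => xor (ε ((Equiv.swap 0 i) j)) false : Vx (n + 1))
      ((Equiv.swap 0 i) j)) false : Vx (n + 1)) = ε := by
    funext j
    simp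
  have e3 : ∀ y : Cube (n + 1) α, symm (Equiv.swap 0 i) (fun _ => false) y ε =
      y (fun j => xor (ε ((Equiv.swap 0 i) j)) false) := fun y => rfl
  have e4 : symm (Equiv.swap 0 i) (fun _ => false) x
      (fun j => xor (ε ((Equiv.swap 0 i) j)) false) = x ε := by
    show x _ = x ε
    rw [e2]
  rw [e3]
  by_cases h : ε i = b
  · have h1 : ε ∈ side i b := h
    have h2 : (fun j => xor (ε ((Equiv.swap 0 i) j)) false : Vx (n + 1)) ∈ side 0 b := by
      show (fun j => xor (ε ((Equiv.swap 0 i) j)) false : Vx (n + 1)) 0 = b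
      rw [e1]
      exact h
    rw [appOn_mem g h1, appOn_mem g h2, e4]
  · have h1 : ε ∉ side i b := h
    have h2 : (fun j => xor (ε ((Equiv.swap 0 i) j)) false : Vx (n + 1)) ∉ side 0 b := by
      show ¬ (fun j => xor (ε ((Equiv.swap 0 i) j)) false : Vx (n + 1)) 0 = b
      rw [e1]
      exact h
    rw [appOn_notMem g h1, appOn_notMem g h2, e4]

end

end AutM

open AutM in
theorem specAut (hSym : SpecSym) (hSwap : SpecSwap) (hIS : SpecIntertwineSq) : SpecAut := by
  intro α _ _ X g hErg hg hcomm
  have hcm : ∀ n : ℕ, ∀ x : Cube n α, cmap g (cmap X.S x) = cmap X.S (cmap g x) := by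
    intro n x
    funext ε
    exact hcomm (x ε)
  have hmg : ∀ n : ℕ, Measurable (cmap g : Cube n α → Cube n α) := fun n =>
    measurable_cmap g.measurable
  -- the main induction
  have main : ∀ n : ℕ, MeasurePreserving (cmap g) (X.cm n) (X.cm n) ∧
      ∀ A : Set (Cube n α), MeasurableSet[X.inv n] A → cmap g ⁻¹' A =ᵐ[X.cm n] A := by
    intro n
    induction n with
    | zero =>
      have h1 : MeasurePreserving (cmap g) (X.cm 0) (X.cm 0) := by
        refine ⟨hmg 0, ?_⟩
        have : (cmap g : Cube 0 α → Cube 0 α) ∘ pt = pt ∘ g := rfl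
        rw [Sys.cm_zero, Measure.map_map (hmg 0) measurable_pt, this,
          ← Measure.map_map measurable_pt g.measurable, hg.map_eq]
      refine ⟨h1, ?_⟩
      intro A hA
      obtain ⟨hA1, hA2⟩ := MeasurableSpace.measurableSet_invariants.1 hA
      have hB : MeasurableSet (pt ⁻¹' A : Set α) := measurable_pt hA1
      have hinv : X.S ⁻¹' (pt ⁻¹' A : Set α) = pt ⁻¹' A := by
        ext x
        have : pt x ∈ cmap X.S ⁻¹' A ↔ pt x ∈ A := by rw [hA2]
        exact this
      have h01 : X.μ (pt ⁻¹' A : Set α) = 0 ∨ X.μ (pt ⁻¹' A : Set α)ᶜ = 0 := by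
        rcases hErg.ae_empty_or_univ_of_ae_le_preimage' hB.nullMeasurableSet
          (Filter.EventuallyEq.le (Filter.EventuallyEq.of_eq hinv.symm)) (measure_ne_top _ _) with h | h
        · left
          exact (measure_congr h).trans measure_empty
        · right
          have h' := h.compl
          rw [Set.compl_univ] at h'
          exact (measure_congr h').trans measure_empty
      rcases h01 with h | h
      · have h3 : X.cm 0 A = 0 := by
          rw [Sys.cm_zero, Measure.map_apply measurable_pt hA1]
          exact h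
        have h4 : X.cm 0 (cmap g ⁻¹' A) = 0 := by
          rw [h1.measure_preimage hA1.nullMeasurableSet, h3]
        exact (ae_eq_empty.2 h4).trans (ae_eq_empty.2 h3).symm
      · have h3 : X.cm 0 Aᶜ = 0 := by
          rw [Sys.cm_zero, Measure.map_apply measurable_pt hA1.compl]
          exact h
        have h4 : X.cm 0 (cmap g ⁻¹' A)ᶜ = 0 := by
          rw [← Set.preimage_compl, h1.measure_preimage hA1.compl.nullMeasurableSet, h3]
        have h5 : A =ᵐ[X.cm 0] Set.univ := by
          rw [ae_eq_univ]
          exact h3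
        have h6 : (cmap g ⁻¹' A : Set (Cube 0 α)) =ᵐ[X.cm 0] Set.univ := by
          rw [ae_eq_univ]
          exact h4
        exact h6.trans h5.symm
    | succ n ih =>
      obtain ⟨ih1, ih2⟩ := ih
      have hf := mp_prod_id (X.inv_le n) ih1 ih2
      have hs := mp_id_prod (X.inv_le n) ih1 ih2
      have hgg : MeasurePreserving (Prod.map (cmap g) (cmap g)) (relSq (X.inv_le n) (X.cm n))
          (relSq (X.inv_le n) (X.cm n)) := by
        have := hf.comp hs
        exact this
      have hj := X.mp_join n
      have hmp : MeasurePreserving (cmap g) (X.cm (n + 1)) (X.cm (n + 1)) := by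
        have h1 : (cmap g : Cube (n + 1) α → Cube (n + 1) α) =
            join ∘ Prod.map (cmap g) (cmap g) ∘ (fun x => (lo x, hi x)) := by
          funext x
          show cmap g x = join (Prod.map (cmap g) (cmap g) (lo x, hi x))
          rw [← Sys.cmap_join, join_lo_hi]
        rw [h1]
        exact hj.comp (hgg.comp (X.mp_split n))
      refine ⟨hmp, ?_⟩
      -- invariance of the second square under `(G × G) × id`
      set T : Cube n α → Cube n α := cmap X.S with hT
      have hTmp : MeasurePreserving T (X.cm n) (X.cm n) := X.mp_cmap n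
      set ρ := relSq (X.inv_le n) (X.cm n) with hρ
      have hTT : MeasurePreserving (Prod.map T T) ρ ρ := by
        have h1 : MeasurePreserving (Prod.map id T) ρ ρ :=
          ⟨measurable_id.prodMap hTmp.measurable, relSq_map_snd hTmp⟩
        have h2 : MeasurePreserving (Prod.map T id) ρ ρ :=
          ⟨hTmp.measurable.prodMap measurable_id, relSq_map_fst hTmp⟩
        exact h2.comp h1
      have hcomm2 : ∀ᵐ p ∂ρ, Prod.map (cmap g) id (Prod.map T T p) =
          Prod.map T T (Prod.map (cmap g) id p) := by
        refine ae_of_all _ fun p => ?_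
        refine Prod.ext ?_ rfl
        exact hcm n p.1
      have h1 := hIS _ _ ρ ρ (Prod.map T T) (Prod.map T T) (Prod.map (cmap g) id) hTT hTT hf hcomm2
      have h2 := hSwap _ (X.cm n) T hTmp
      have h3 : MeasurePreserving (Prod.map (Prod.map (cmap g) (cmap g)) id)
          (relSq (MeasurableSpace.invariants_le (Prod.map T T)) ρ)
          (relSq (MeasurableSpace.invariants_le (Prod.map T T)) ρ) := (h2.comp h1).comp h2
      intro A hA
      obtain ⟨hA1, hA2⟩ := MeasurableSpace.measurableSet_invariants.1 hA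
      have hA' : MeasurableSet[MeasurableSpace.invariants (Prod.map T T)] (join ⁻¹' A) := by
        refine MeasurableSpace.measurableSet_invariants.2 ⟨measurable_join hA1, ?_⟩
        ext p
        have h4 : cmap X.S (join p) ∈ A ↔ join p ∈ A := by
          have : join p ∈ cmap X.S ⁻¹' A ↔ join p ∈ A := by rw [hA2]
          exact this
        rw [Sys.cmap_join] at h4
        exact h4
      have h5 := triv_of_mp (MeasurableSpace.invariants_le (Prod.map T T)) hgg h3 _ hA'
      have h6 : ∀ᵐ x ∂(X.cm (n + 1)), (cmap g x ∈ A ↔ x ∈ A) := by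
        rw [X.ae_cm_succ_iff n]
        filter_upwards [h5] with p hp
        have h7 : join (Prod.map (cmap g) (cmap g) p) ∈ A ↔ join p ∈ A := eq_iff_iff.1 hp
        rw [Sys.cmap_join]
        exact h7
      filter_upwards [h6] with x hx
      exact eq_iff_iff.2 hx
  intro n
  refine ⟨?_, (main n).1, (main n).2⟩
  intro i b
  cases n with
  | zero => exact i.elim0
  | succ n =>
    obtain ⟨ih1, ih2⟩ := main n
    have hf := mp_prod_id (X.inv_le n) ih1 ih2
    have hs := mp_id_prod (X.inv_le n) ih1 ih2
    have hj := X.mp_join n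
    have h0 : MeasurePreserving (appOn g (side 0 b)) (X.cm (n + 1)) (X.cm (n + 1)) := by
      cases b with
      | true =>
        have h1 : (appOn g (side 0 true) : Cube (n + 1) α → Cube (n + 1) α) =
            join ∘ Prod.map id (cmap g) ∘ (fun x => (lo x, hi x)) := by
          funext x
          show appOn g (side 0 true) x = join (Prod.map id (cmap g) (lo x, hi x))
          rw [← appOn_join_true, join_lo_hi]
        rw [h1]
        exact hj.comp (hs.comp (X.mp_split n))
      | false =>
        have h1 : (appOn g (side 0 false) : Cube (n + 1) α → Cube (n + 1) α) =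
            join ∘ Prod.map (cmap g) id ∘ (fun x => (lo x, hi x)) := by
          funext x
          show appOn g (side 0 false) x = join (Prod.map (cmap g) id (lo x, hi x))
          rw [← appOn_join_false, join_lo_hi]
        rw [h1]
        exact hj.comp (hf.comp (X.mp_split n))
    have hσ := hSym α X (n + 1) (Equiv.swap 0 i) (fun _ => false)
    have h2 : (appOn g (side i b) : Cube (n + 1) α → Cube (n + 1) α) =
        symm (Equiv.swap 0 i) (fun _ => false) ∘ appOn g (side 0 b) ∘
          symm (Equiv.swap 0 i) (fun _ => false) := by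
      funext x
      exact appOn_conj g i b x
    rw [h2]
    exact hσ.comp (h0.comp hσ)

end MPd26.HK
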