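import Pool.Agent.Lib.MP_d26cd8_an.HK.Basic

/-!
# MP_d26cd8_an, block D: master specification (sections 0-3 and 6)

Text: /team-store/MP_d26cd8_an_D_h15.md (+ simplifications in the referee reports).
-/

set_option autoImplicit false

open MeasureTheory ProbabilityTheory Filter Topology
open scoped ComplexConjugate ENNReal

namespace MPd26.HK

/-! ## More definitions -/

/-- The law of `(a,b,c)`, `a` of law `μ`, and `b, c` independent of law `μ_{m(a)}`. -/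
noncomputable def relCb {Ω : Type} {m : MeasurableSpace Ω} [mΩ : MeasurableSpace Ω]
    [StandardBorelSpace Ω] (hm : m ≤ mΩ) (μ : Measure Ω) [IsFiniteMeasure μ] :
    Measure (Ω × (Ω × Ω)) :=
  μ ⊗ₘ (dis hm μ ×ₖ dis hm μ)

namespace Sys
variable {α : Type} [mα : MeasurableSpace α] [StandardBorelSpace α] (X : Sys α)

/-- Ergodicity. -/
def Erg : Prop := Ergodic X.S X.μ

/-- The Host-Kra seminorm `|||f|||_n` (for `n = 0` it is `|∫ f|`). -/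
noncomputable def sn (n : ℕ) (f : α → ℂ) : ℝ :=
  ‖∫ x, cp f n x ∂(X.cm n)‖ ^ (((2 : ℝ) ^ n)⁻¹)

/-- The side maps of `g` preserve the cube measure `μ^[n]`. -/
def SidePres (g : α → α) (n : ℕ) : Prop :=
  ∀ (i : Fin n) (b : Bool), MeasurePreserving (appOn g (side i b)) (X.cm n) (X.cm n)

/-- `φ ∈ P_m(V|N)`: `φ` is a phase and `φ^[m]` is `N^[m]`-measurable (mod null sets). -/
def Ph (N : X.Factor) (m : ℕ) (φ : α → ℂ) : Prop :=
  IsPhase φ ∧ AEStronglyMeasurable[N.cube m] (cp φ m) (X.cm m)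

/-- Cube cocycles of level `n + 1`. -/
structure CCoc (n : ℕ) (κ : Cube (n + 1) α → ℂ) : Prop where
  phase : IsPhase κ
  coc : ∀ᵐ p ∂(relCb (X.inv_le n) (X.cm n)),
    κ (join (p.1, p.2.1)) * κ (join (p.2.1, p.2.2)) = κ (join (p.1, p.2.2))
  sym : ∀ (σ : Equiv.Perm (Fin (n + 1))) (r : Vx (n + 1)),
    ∀ᵐ x ∂(X.cm (n + 1)), κ (symm σ r x) = sg r (κ x)

/-- `κ'` is the derivative of `κ` along `g`. -/
def Der (g : α → α) (n : ℕ) (κ : Cube (n + 1) α → ℂ) (κ' : Cube n α → ℂ) : Prop :=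
  ∀ᵐ p ∂(relSq (X.inv_le n) (X.cm n)),
    κ' p.2 = κ (join p) * conj (κ (join (p.1, cmap g p.2)))

end Sys

/-- Factor maps (almost everywhere equivariant). -/
structure FMap {α β : Type} [MeasurableSpace α] [MeasurableSpace β] (X : Sys α) (Y : Sys β)
    (p : α → β) : Prop where
  meas : Measurable p
  law : X.μ.map p = Y.μ
  eqv : ∀ᵐ x ∂X.μ, p (X.S x) = Y.S (p x)

/-! ## 0. Facts A1-A9 -/

/-- (A1) symmetry of the cube measures. -/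
def SpecSym : Prop :=
  ∀ (α : Type) [MeasurableSpace α] [StandardBorelSpace α] (X : Sys α) (n : ℕ)
    (σ : Equiv.Perm (Fin n)) (r : Vx n), MeasurePreserving (symm σ r) (X.cm n) (X.cm n)

/-- (A2) marginals. -/
def SpecMarg : Prop :=
  ∀ (α : Type) [MeasurableSpace α] [StandardBorelSpace α] (X : Sys α) (n : ℕ) (ε : Vx n),
    MeasurePreserving (fun x : Cube n α => x ε) (X.cm n) X.μ

/-- (A2) faces: the restriction of `μ^[n+1]` to each of the two faces in the new direction. -/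
def SpecFace : Prop :=
  ∀ (α : Type) [MeasurableSpace α] [StandardBorelSpace α] (X : Sys α) (n : ℕ),
    MeasurePreserving (lo : Cube (n + 1) α → Cube n α) (X.cm (n + 1)) (X.cm n) ∧
    MeasurePreserving (hi : Cube (n + 1) α → Cube n α) (X.cm (n + 1)) (X.cm n)

/-- (A2) factor maps. -/
def SpecFac : Prop :=
  ∀ (α β : Type) [MeasurableSpace α] [StandardBorelSpace α] [MeasurableSpace β]
    [StandardBorelSpace β] (X : Sys α) (Y : Sys β) (p : α → β), FMap X Y p →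
    ∀ n : ℕ, MeasurePreserving (cmap p : Cube n α → Cube n β) (X.cm n) (Y.cm n) ∧
      ∀ A : Cube n β → ℂ, Bdd A →
        (X.cm n)[A ∘ cmap p | X.inv n] =ᵐ[X.cm n] ((Y.cm n)[A | Y.inv n]) ∘ cmap p

/-- (A2) for sub-σ-algebras: `E(·|I_n)` preserves `N^[n]`-measurability. -/
def SpecFacInv : Prop :=
  ∀ (α : Type) [MeasurableSpace α] [StandardBorelSpace α] (X : Sys α) (N : X.Factor) (n : ℕ)
    (A : Cube n α → ℂ), Measurable[N.cube n] A → Bdd A →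
      AEStronglyMeasurable[N.cube n] ((X.cm n)[A | X.inv n]) (X.cm n)

/-- The seminorm integrals are nonnegative reals (`n ≥ 1`). -/
def SpecNonneg : Prop :=
  ∀ (α : Type) [MeasurableSpace α] [StandardBorelSpace α] (X : Sys α) (n : ℕ) (f : α → ℂ),
    Bdd f → ∃ c : ℝ, 0 ≤ c ∧ ∫ x, cp f (n + 1) x ∂(X.cm (n + 1)) = (c : ℂ)

/-- (A3) Gowers-Cauchy-Schwarz. -/
def SpecGCS : Prop :=
  ∀ (α : Type) [MeasurableSpace α] [StandardBorelSpace α] (X : Sys α) (n : ℕ)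
    (f : Vx (n + 1) → α → ℂ), (∀ ε, Bdd (f ε)) →
    ‖∫ x, ∏ ε, f ε (x ε) ∂(X.cm (n + 1))‖ ≤ ∏ ε, X.sn (n + 1) (f ε)

/-- (A3) monotonicity. -/
def SpecMono : Prop :=
  ∀ (α : Type) [MeasurableSpace α] [StandardBorelSpace α] (X : Sys α) (n : ℕ) (f : α → ℂ),
    Bdd f → X.sn (n + 1) f ≤ X.sn (n + 2) f

/-- (A4) `|||f|||_{k+1} = 0` iff `E(f|Z_k) = 0`. -/
def SpecZchar : Prop :=
  ∀ (α : Type) [MeasurableSpace α] [StandardBorelSpace α] (X : Sys α), X.Erg →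
    ∀ (k : ℕ) (f : α → ℂ), Bdd f →
      (X.sn (k + 1) f = 0 ↔ X.μ[f | (X.Z k).σ] =ᵐ[X.μ] 0)

/-- (A4) nestedness. -/
def SpecZmono : Prop :=
  ∀ (α : Type) [MeasurableSpace α] [StandardBorelSpace α] (X : Sys α), X.Erg →
    ∀ k : ℕ, (X.Z k).σ ≤ (X.Z (k + 1)).σ

/-- (A4) `Z_0` is trivial. -/
def SpecZzero : Prop :=
  ∀ (α : Type) [MeasurableSpace α] [StandardBorelSpace α] (X : Sys α), X.Erg →
    ∀ A : Set α, MeasurableSet[(X.Z 0).σ] A → X.μ A = 0 ∨ X.μ A = 1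

/-- (A4) functoriality. -/
def SpecZfac : Prop :=
  ∀ (α β : Type) [MeasurableSpace α] [StandardBorelSpace α] [MeasurableSpace β]
    [StandardBorelSpace β] (X : Sys α) (Y : Sys β) (p : α → β), X.Erg → FMap X Y p →
    ∀ (k : ℕ) (A : Set β), MeasurableSet A →
      (MeasurableSet[(Y.Z k).σ] A ↔ MeasurableSet[(X.Z k).σ] (p ⁻¹' A))

/-- (A5) conditional independence of one vertex and the others over `Z_k`. -/
def SpecCI : Prop :=
  ∀ (α : Type) [MeasurableSpace α] [StandardBorelSpace α] (X : Sys α), X.Erg →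
    ∀ (k : ℕ) (ε : Vx (k + 1)) (f : α → ℂ) (F : Cube (k + 1) α → ℂ), Bdd f → Bdd F →
      Measurable[others α ε] F →
      ∫ x, f (x ε) * F x ∂(X.cm (k + 1)) = ∫ x, (X.μ[f | (X.Z k).σ]) (x ε) * F x ∂(X.cm (k + 1))

/-- (A7) the side maps of `S` preserve the cube measures and act ergodically. -/
def SpecSideS : Prop :=
  ∀ (α : Type) [MeasurableSpace α] [StandardBorelSpace α] (X : Sys α) (n : ℕ),
    X.SidePres X.S n ∧
    (X.Erg → ∀ A : Cube (n + 1) α → ℂ, Measurable A →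
      (∀ (i : Fin (n + 1)) (b : Bool), ∀ᵐ x ∂(X.cm (n + 1)), A (appOn X.S (side i b) x) = A x) →
      ∃ c : ℂ, ∀ᵐ x ∂(X.cm (n + 1)), A x = c)

/-- (A9) relative conditional independence. -/
def SpecA9 : Prop :=
  ∀ (α : Type) [MeasurableSpace α] [StandardBorelSpace α] (X : Sys α) (N : X.Factor) (n : ℕ)
    (g : Cube n α → ℂ) (Q : Cube (n + 1) α → ℂ), Bdd g → Bdd Q → Measurable[N.cube (n + 1)] Q →
    ∃ Q' : Cube n α → ℂ, Measurable[N.cube n] Q' ∧ Bdd Q' ∧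
      dist2 (X.cm n) g Q' ≤ dist2 (X.cm (n + 1)) (fun x => g (hi x)) Q

/-- (AUT) 3.7 -/
def SpecAut : Prop :=
  ∀ (α : Type) [MeasurableSpace α] [StandardBorelSpace α] (X : Sys α) (g : α ≃ᵐ α), X.Erg →
    MeasurePreserving g X.μ X.μ → (∀ x, g (X.S x) = X.S (g x)) →
    ∀ n : ℕ, X.SidePres g n ∧ MeasurePreserving (cmap g) (X.cm n) (X.cm n) ∧
      ∀ A : Set (Cube n α), MeasurableSet[X.inv n] A → cmap g ⁻¹' A =ᵐ[X.cm n] A

/-! ## 1. FIX -/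

/-- Birkhoff products `∏_{j<n} ρ∘S^j`. -/
noncomputable def bprod {α : Type} (S : α → α) (ρ : α → ℂ) (n : ℕ) (x : α) : ℂ :=
  ∏ j ∈ Finset.range n, ρ (S^[j] x)

/-- Lemma 1.3 (FIX). -/
def SpecFix : Prop :=
  ∃ δ₀ : ℝ, 0 < δ₀ ∧ ∃ C : ℝ, 0 < C ∧
  ∀ (α : Type) [MeasurableSpace α] [StandardBorelSpace α] (X : Sys α) (N : X.Factor),
    X.Erg → ∀ (ρ φ : α → ℂ), IsPhase ρ → IsPhase φ → ∀ δ : ℝ, 0 ≤ δ → δ ≤ δ₀ →
    (∀ n : ℕ, dist2 (relSq N.le X.μ)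
        (fun p => conj (bprod X.S ρ n p.1) * bprod X.S ρ n p.2 *
          (φ (X.S^[n] p.1) * conj (φ (X.S^[n] p.2))))
        (fun p => φ p.1 * conj (φ p.2)) ≤ δ ^ 2) →
    ∃ ψ θ : α → ℂ, IsPhase ψ ∧ IsPhase θ ∧ Measurable[N.σ] θ ∧
      (∀ᵐ x ∂X.μ, ψ (X.S x) = θ x * ρ x * ψ x) ∧ dist2 X.μ ψ φ ≤ C * δ

/-! ## 2. Phases and cube cocycles -/

/-- 2.0(b) derivatives of phases. -/
def SpecPhDer : Prop :=
  ∀ (α : Type) [MeasurableSpace α] [StandardBorelSpace α] (X : Sys α) (N : X.Factor) (m : ℕ)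
    (g : α ≃ᵐ α), (∀ s, MeasurableSet[N.σ] s → MeasurableSet[N.σ] (g ⁻¹' s)) →
    MeasurePreserving g X.μ X.μ → X.SidePres g (m + 2) →
    ∀ φ : α → ℂ, X.Ph N (m + 2) φ → X.Ph N (m + 1) (fun x => φ (g x) * conj (φ x))

/-- Lemma 2.1 (separation); `|τ-1|_2 < 2^{-(m+1)}`. -/
def SpecSep : Prop :=
  ∀ (α : Type) [MeasurableSpace α] [StandardBorelSpace α] (X : Sys α) (N : X.Factor),
    X.Erg → ∀ (m : ℕ) (τ : α → ℂ), X.Ph N (m + 1) τ →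
      dist2 X.μ τ (fun _ => 1) < (1 / 4 : ℝ) ^ (m + 1) → AEStronglyMeasurable[N.σ] τ X.μ

/-- Lemma 2.1 for the trivial factor. -/
def SpecSep0 : Prop :=
  ∀ (α : Type) [MeasurableSpace α] [StandardBorelSpace α] (X : Sys α),
    X.Erg → ∀ (m : ℕ) (τ : α → ℂ) (c : ℂ), ‖c‖ = 1 → X.Ph X.triv (m + 1) τ →
      dist2 X.μ τ (fun _ => c) < (1 / 4 : ℝ) ^ (m + 1) →
      ∃ c' : ℂ, ‖c'‖ = 1 ∧ ∀ᵐ x ∂X.μ, τ x = c'

/-- Theorem 2.2 (relative 99 percent inverse theorem). -/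
def SpecInv99 : Prop :=
  ∀ (m : ℕ) (δ : ℝ), 0 < δ → ∃ e : ℝ, 0 < e ∧
  ∀ (α : Type) [MeasurableSpace α] [StandardBorelSpace α] (X : Sys α) (N : X.Factor),
    X.Erg → ∀ (φ : α → ℂ) (Q : Cube (m + 1) α → ℂ), IsPhase φ → Bdd Q →
      Measurable[N.cube (m + 1)] Q → dist2 (X.cm (m + 1)) (cp φ (m + 1)) Q ≤ e →
      ∃ φ' : α → ℂ, X.Ph N (m + 1) φ' ∧ dist2 X.μ φ φ' ≤ δ

/-- Cube cocycles are coboundaries on the fibres of `I_n`. -/
def SpecCocTriv : Prop :=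
  ∀ (Ω : Type) (m : MeasurableSpace Ω) [mΩ : MeasurableSpace Ω] [StandardBorelSpace Ω]
    (hm : m ≤ mΩ) (μ : Measure Ω) [IsProbabilityMeasure μ] (κ : Ω × Ω → ℂ), IsPhase κ →
    (∀ᵐ p ∂(relCb hm μ), κ (p.1, p.2.1) * κ (p.2.1, p.2.2) = κ (p.1, p.2.2)) →
    ∃ G : Ω → ℂ, IsPhase G ∧ ∀ᵐ p ∂(relSq hm μ), κ p = G p.1 * conj (G p.2)

/-- Lemma 2.3 (derivatives of cube cocycles). -/
def SpecCocDer : Prop :=
  ∀ (α : Type) [MeasurableSpace α] [StandardBorelSpace α] (X : Sys α) (n : ℕ) (g : α ≃ᵐ α),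
    MeasurePreserving g X.μ X.μ → X.SidePres g (n + 2) →
    ∀ κ : Cube (n + 2) α → ℂ, X.CCoc (n + 1) κ →
      ∃ κ' : Cube (n + 1) α → ℂ, X.CCoc n κ' ∧ X.Der g (n + 1) κ κ'

/-- Theorem 2.4 (small cube cocycles are coboundaries). -/
def SpecSmall : Prop :=
  ∀ (n : ℕ) (δ : ℝ), 0 < δ → ∃ e : ℝ, 0 < e ∧
  ∀ (α : Type) [MeasurableSpace α] [StandardBorelSpace α] (X : Sys α),
    X.Erg → ∀ κ : Cube (n + 1) α → ℂ, X.CCoc n κ →
      dist2 (X.cm (n + 1)) κ (fun _ => 1) ≤ e →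
      ∃ F : α → ℂ, IsPhase F ∧ (∀ᵐ x ∂(X.cm (n + 1)), κ x = cp F (n + 1) x) ∧
        dist2 X.μ F (fun _ => 1) ≤ δ

/-! ## 3. `L²(Z_{k+1})` is spanned by `L^∞(Z_k)·P_{k+2}(V|Z_k)` -/

/-- Section 3. -/
def SpecPhases : Prop :=
  ∀ (α : Type) [MeasurableSpace α] [StandardBorelSpace α] (X : Sys α), X.Erg →
    ∀ (k : ℕ) (f : α → ℂ), Bdd f → Measurable[(X.Z (k + 1)).σ] f → ∀ η : ℝ, 0 < η →
      ∃ (r : ℕ) (b φ : Fin r → α → ℂ),
        (∀ i, Bdd (b i) ∧ Measurable[(X.Z k).σ] (b i) ∧ X.Ph (X.Z k) (k + 2) (φ i)) ∧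
        dist2 X.μ f (fun x => ∑ i, b i x * φ i x) ≤ η

end MPd26.HK
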