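import Pool.Agent.Lib.MP_d26cd8_an.HK.Sq
import Pool.Agent.Lib.MP_d26cd8_an.HK.Spec

set_option autoImplicit false

namespace MPd26.HK

theorem specMarg : SpecMarg := fun _ _ _ X n ε => X.mp_marg n ε

theorem specFace : SpecFace := fun _ _ _ X n => ⟨X.mp_lo n, X.mp_hi n⟩

end MPd26.HK
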