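import Pool.Agent.Lib.MP_d26cd8_an.HK.A_Swap
import Pool.Agent.Lib.MP_d26cd8_an.HK.A_Sym
import Pool.Agent.Lib.MP_d26cd8_an.HK.A_GCS
import Pool.Agent.Lib.MP_d26cd8_an.HK.A_SideS
import Pool.Agent.Lib.MP_d26cd8_an.HK.A_CubeSq
import Pool.Agent.Lib.MP_d26cd8_an.HK.A_Box
import Pool.Agent.Lib.MP_d26cd8_an.HK.BoxOne
import Pool.Agent.Lib.MP_d26cd8_an.HK.A_ErgDec
import Pool.Agent.Lib.MP_d26cd8_an.HK.A_ErgSn
import Pool.Agent.Lib.MP_d26cd8_an.HK.A_A9
import Pool.Agent.Lib.MP_d26cd8_an.HK.A_CI
import Pool.Agent.Lib.MP_d26cd8_an.HK.A_Zchar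
import Pool.Agent.Lib.MP_d26cd8_an.HK.A_Zfac
import Pool.Agent.Lib.MP_d26cd8_an.HK.A_Zmono
import Pool.Agent.Lib.MP_d26cd8_an.HK.A_Zzero
import Pool.Agent.Lib.MP_d26cd8_an.HK.Aut
import Pool.Agent.Lib.MP_d26cd8_an.HK.Marg

/-!
# Section 0: all facts without hypotheses
-/

set_option autoImplicit false

namespace MPd26.HK.A

theorem swap : SpecSwap := specSwap
theorem sym : SpecSym := specSym specIntertwineSq specSwap
theorem gcs : SpecGCS := specGCS sym
theorem marg : SpecMarg := specMarg
theorem face : SpecFace := specFace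
theorem fac : SpecFac := specFac specIntertwine specIntertwineSq
theorem facInv : SpecFacInv := specFacInv
theorem nonneg : SpecNonneg := specNonneg
theorem mono : SpecMono := specMono
theorem n : SpecN := specN specMET
theorem sideS : SpecSideS := specSideS
theorem a9 : SpecA9 := specA9 specZeroN specFacInv
theorem proj : SpecProj := specProj specZeroN specFacInv gcs
theorem dual : SpecDual := specDual specIntertwine specSideS specUpper
theorem ci : SpecCI := specCI dual sym
theorem zchar : SpecZchar := specZchar ci gcs specZeroOthers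
theorem zmono : SpecZmono := specZmono
theorem zzero : SpecZzero := specZzero
theorem zfac : SpecZfac := specZfac fac zchar
theorem aut : SpecAut := specAut sym specSwap specIntertwineSq
theorem cubeSq : SpecCubeSq := specCubeSq specIntertwineSq sym
theorem box : SpecBox := specBox specMET cubeSq
theorem boxOne : SpecBoxOne := specBoxOne box gcs
theorem ergDec : SpecErgDec := specErgDec specMET
theorem ergSn : SpecErgSn := specErgSn box

end MPd26.HK.A
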