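import Pool.Agent.Lib.MP_d26cd8_an.HK.BridgeSpec
import Pool.Agent.Lib.MP_d26cd8_an.HK.Dist

/-!
# ACTCONT: `L²`-continuity of the action on cubes of a nilmanifold
-/

set_option autoImplicit false

open MeasureTheory ProbabilityTheory Filter Topology
open scoped ComplexConjugate ENNReal BoundedContinuousFunction

namespace MPd26.HK

open MPd26.Nil

namespace ActContM

/-- Joint continuity of the action on the coordinates in `F`. -/
lemma appOn_cont {m n d : ℕ} {g : (Fin d → ℝ) → UT m} (hg : Continuous g) (F : Set (Vx n)) :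
    Continuous fun q : (Fin d → ℝ) × Cube n (NM m) =>
      appOn (fun y : NM m => g q.1 • y) F q.2 := by
  refine continuous_pi fun ε => ?_
  unfold appOn
  by_cases h : ε ∈ F
  · simp only [h, if_true]
    exact (hg.comp continuous_fst).smul ((continuous_apply ε).comp continuous_snd)
  · simp only [h, if_false]
    exact (continuous_apply ε).comp continuous_snd

/-- Approximation in `L²` by bounded continuous functions. -/
lemma exists_approx {m n : ℕ} (ρ : Measure (Cube n (NM m))) [IsProbabilityMeasure ρ]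
    {κ : Cube n (NM m) → ℂ} (hκ : MemLp κ 2 ρ) {δ : ℝ} (hδ : 0 < δ) :
    ∃ f : Cube n (NM m) →ᵇ ℂ, dist2 ρ κ f ≤ δ := by
  have : TopologicalSpace.MetrizableSpace (Cube n (NM m)) :=
    TopologicalSpace.metrizableSpace_of_t3_secondCountable _
  have : ρ.WeaklyRegular := inferInstance
  have hs : 0 < Real.sqrt δ := Real.sqrt_pos.2 hδ
  obtain ⟨f, hf, hfm⟩ := hκ.exists_boundedContinuous_eLpNorm_sub_le (by simp)
    (ε := ENNReal.ofReal (Real.sqrt δ)) (by simpa using hs)
  refine ⟨f, ?_⟩
  rw [dist2_toLp hκ hfm, ← MemLp.toLp_sub, Lp.norm_toLp]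
  have h1 : (eLpNorm (κ - ⇑f) 2 ρ).toReal ≤ Real.sqrt δ := by
    have := ENNReal.toReal_mono ENNReal.ofReal_ne_top hf
    rwa [ENNReal.toReal_ofReal hs.le] at this
  calc (eLpNorm (κ - ⇑f) 2 ρ).toReal ^ 2 ≤ (Real.sqrt δ) ^ 2 :=
        pow_le_pow_left₀ ENNReal.toReal_nonneg h1 2
    _ = δ := Real.sq_sqrt hδ.le

end ActContM

open ActContM in
theorem specActCont : SpecActCont := by
  intro m n d _ ρ _ g F hg hg0 hT κ hκ
  have hTc := appOn_cont hg F
  have hT0 : ∀ x : Cube n (NM m), appOn (fun y : NM m => g 0 • y) F x = x := by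
    intro x
    funext ε
    unfold appOn
    by_cases h : ε ∈ F <;> simp [h, hg0]
  obtain ⟨hκm, C, hC⟩ := hκ
  have hκL : MemLp κ 2 ρ := MemLp.of_bound hκm.aestronglyMeasurable C (ae_of_all _ hC)
  rw [Metric.tendsto_nhds]
  intro ε hε
  obtain ⟨f, hf⟩ := exists_approx ρ hκL (δ := ε / 12) (by positivity)
  have hfm : MemLp (f : Cube n (NM m) → ℂ) 2 ρ :=
    MemLp.of_bound f.continuous.aestronglyMeasurable ‖f‖ (ae_of_all _ f.norm_coe_le_norm)
  -- the continuous part
  have hcont : Tendsto (fun z => dist2 ρ (fun x => f (appOn (fun y : NM m => g z • y) F x)) f)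
      (𝓝 0) (𝓝 0) := by
    have h1 : Tendsto (fun z : Fin d → ℝ =>
        ∫ x, ‖f (appOn (fun y : NM m => g z • y) F x) - f x‖ ^ 2 ∂ρ) (𝓝 0)
        (𝓝 (∫ _, (0 : ℝ) ∂ρ)) := by
      refine tendsto_integral_filter_of_dominated_convergence (fun _ => (‖f‖ + ‖f‖) ^ 2) ?_ ?_
        (integrable_const _) ?_
      · refine Eventually.of_forall fun z => ?_
        have h2 : Continuous fun x : Cube n (NM m) => appOn (fun y : NM m => g z • y) F x :=
          hTc.comp (Continuous.prodMk_right z)
        exact (((f.continuous.comp h2).sub f.continuous).norm.pow 2).aestronglyMeasurable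
      · refine Eventually.of_forall fun z => ae_of_all _ fun x => ?_
        rw [norm_pow, norm_norm]
        refine pow_le_pow_left₀ (norm_nonneg _) ((norm_sub_le _ _).trans ?_) 2
        exact add_le_add (f.norm_coe_le_norm _) (f.norm_coe_le_norm _)
      · refine ae_of_all _ fun x => ?_
        have h2 : Continuous fun z : Fin d → ℝ =>
            ‖f (appOn (fun y : NM m => g z • y) F x) - f x‖ ^ 2 :=
          (((f.continuous.comp (hTc.comp (Continuous.prodMk_left x))).sub
            continuous_const).norm).pow 2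
        have h3 := h2.tendsto 0
        simp only [hT0, sub_self, norm_zero] at h3
        simpa using h3
    simpa [dist2] using h1
  have hev := (Metric.tendsto_nhds.1 hcont) (ε / 12) (by positivity)
  filter_upwards [hev] with z hz
  have hTm : Measurable (appOn (fun y : NM m => g z • y) F) := (hT z).measurable
  have hκT : MemLp (fun x => κ (appOn (fun y : NM m => g z • y) F x)) 2 ρ :=
    MemLp.of_bound (hκm.comp hTm).aestronglyMeasurable C (ae_of_all _ fun x => hC _)
  have hfT : MemLp (fun x => f (appOn (fun y : NM m => g z • y) F x)) 2 ρ :=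
    MemLp.of_bound (f.continuous.measurable.comp hTm).aestronglyMeasurable ‖f‖
      (ae_of_all _ fun x => f.norm_coe_le_norm _)
  have h1 := dist2_triangle' hκT hfT hκL
  have h2 := dist2_triangle' hfT hfm hκL
  have h3 : dist2 ρ (fun x => κ (appOn (fun y : NM m => g z • y) F x))
      (fun x => f (appOn (fun y : NM m => g z • y) F x)) = dist2 ρ κ f :=
    dist2_comp (hT z) hκm f.continuous.measurable
  have h4 : dist2 ρ f κ = dist2 ρ κ f := dist2_comm _ _
  rw [Real.dist_eq, sub_zero] at hz ⊢
  rw [abs_of_nonneg (dist2_nonneg _ _)] at hz ⊢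
  rw [h3] at h1
  rw [h4] at h2
  have h5 : 0 ≤ dist2 ρ κ f := dist2_nonneg _ _
  linarith

end MPd26.HK
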