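import Pool.Agent.Lib.MP_d26cd8_an.HK.BridgeSpec

/-!
# MP_d26cd8_an, bridge: CHART (box coordinates on a nilmanifold)
-/

set_option autoImplicit false

open MeasureTheory ProbabilityTheory Filter Topology
open scoped ComplexConjugate ENNReal

namespace MPd26.HK

open MPd26.Nil

namespace ChartM

variable {m d : ℕ} {x0 : UT m} {P : PG d} {ψ : P.Gp →* UT m}

lemma measurableSet_box (d : ℕ) : MeasurableSet (box d) := by
  have h : box d = ⋂ j : Fin d, {x : Fin d → ℝ | 0 ≤ x j} ∩ {x : Fin d → ℝ | x j < 1} := by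
    ext x
    simp [box]
  rw [h]
  exact MeasurableSet.iInter fun j =>
    (measurableSet_le measurable_const (measurable_pi_apply j)).inter
      (measurableSet_lt (measurable_pi_apply j) measurable_const)

lemma zero_mem_box (d : ℕ) : (0 : Fin d → ℝ) ∈ box d := fun j => by simp

lemma continuous_qm (hψ : Continuous ψ) : Continuous (qm x0 ψ) := by
  have h : Continuous fun z : P.Gp => ((x0 * ψ z : UT m) : NM m) :=
    continuous_quotient_mk'.comp (continuous_const.mul hψ)
  exact h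

lemma coset_eq_iff (hL : ∀ z : P.Gp, ψ z ∈ LT m ↔ HK.IsInt z) (z z' : P.Gp) :
    ((x0 * ψ z : UT m) : NM m) = ((x0 * ψ z' : UT m) : NM m) ↔
      ∃ γ : P.Gp, HK.IsInt γ ∧ z * γ = z' := by
  rw [QuotientGroup.eq]
  have e : (x0 * ψ z)⁻¹ * (x0 * ψ z') = ψ (z⁻¹ * z') := by
    rw [map_mul, map_inv]; group
  rw [e, hL]
  constructor
  · intro h
    exact ⟨_, h, mul_inv_cancel_left z z'⟩
  · rintro ⟨γ, hγ, rfl⟩
    rw [inv_mul_cancel_left]
    exact hγ

lemma qm_eq_iff (hL : ∀ z : P.Gp, ψ z ∈ LT m ↔ HK.IsInt z) (z z' : Fin d → ℝ) :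
    qm x0 ψ z = qm x0 ψ z' ↔ ∃ γ, HK.IsInt γ ∧ P.mul z γ = z' :=
  coset_eq_iff hL z z'

end ChartM

open ChartM in
theorem specChart : SpecChart := by
  intro m _ x0 d P ψ hψ _ hL ν hν
  have hc : Continuous (qm x0 ψ) := continuous_qm hψ
  have hm : Measurable (qm x0 ψ) := hc.measurable
  have hbox := measurableSet_box d
  have : StandardBorelSpace (box d) := hbox.standardBorel
  let q : box d → NM m := fun z => qm x0 ψ z
  have hq : Measurable q := hm.comp measurable_subtype_coe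
  have hqi : Function.Injective q := by
    intro z z' h
    obtain ⟨γ, hγ, h2⟩ := (qm_eq_iff hL _ _).1 h
    exact Subtype.ext (P.rep_unique z.2 z'.2 hγ h2).1
  have hemb : MeasurableEmbedding q := hq.measurableEmbedding hqi
  obtain ⟨b, hb, hbq⟩ := hemb.exists_measurable_extend (g := id) measurable_id
    (fun _ => ⟨⟨0, zero_mem_box d⟩⟩)
  have hbq' : ∀ z : box d, b (q z) = z := fun z => congrFun hbq z
  refine ⟨fun y => b y, ⟨measurable_subtype_coe.comp hb, fun y => (b y).2, fun z => ?_, ?_, ?_⟩⟩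
  · obtain ⟨w, γ, hw, hγ, h⟩ := P.exists_rep z
    have h1 : qm x0 ψ w = qm x0 ψ z := (qm_eq_iff hL _ _).2 ⟨γ, hγ, h⟩
    refine ⟨γ, hγ, ?_⟩
    rw [← h1]
    have h2 := hbq' ⟨w, hw⟩
    have h3 : b (qm x0 ψ w) = ⟨w, hw⟩ := h2
    rw [h3]
    exact h
  · rw [hν]
    have h1 : ∀ᵐ y ∂((volume.restrict (box d)).map (qm x0 ψ)), y ∈ Set.range q := by
      have h2 : ∀ᵐ z ∂(volume.restrict (box d)), qm x0 ψ z ∈ Set.range q :=
        (ae_restrict_iff' hbox).2 (ae_of_all _ fun z hz => ⟨⟨z, hz⟩, rfl⟩)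
      exact (ae_map_iff (p := fun y => y ∈ Set.range q) hm.aemeasurable
        hemb.measurableSet_range).2 h2
    filter_upwards [h1] with y hy
    obtain ⟨z, rfl⟩ := hy
    rw [hbq' z]
  · have hb' : Measurable fun y => (b y : Fin d → ℝ) := measurable_subtype_coe.comp hb
    rw [hν, Measure.map_map hb' hm]
    have h1 : ((fun y => (b y : Fin d → ℝ)) ∘ qm x0 ψ) =ᵐ[volume.restrict (box d)] id := by
      refine (ae_restrict_iff' hbox).2 (ae_of_all _ fun z hz => ?_)
      have h3 : b (qm x0 ψ z) = ⟨z, hz⟩ := hbq' ⟨z, hz⟩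
      simp only [Function.comp, h3, id]
    rw [Measure.map_congr h1, Measure.map_id]

end MPd26.HK
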