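import Pool.Agent.Lib.MP_d26cd8_an.HK.BridgeSpec
import Pool.Agent.Lib.MP_d26cd8_an.helper29.PolyEmb

/-!
# EMBED: a map into the box of a `PG` with a one-parameter group is a nil-map
-/

set_option autoImplicit false

open MeasureTheory ProbabilityTheory Filter Topology
open scoped ComplexConjugate ENNReal

namespace MPd26.HK

open MPd26.Nil

namespace EmbedM

/-- The finite sum of `expM` is the exponential of the Banach algebra. -/
lemma expM_eq_exp {m : ℕ} {A : Mat m} (hA : IsSU A) : expM A = NormedSpace.exp A := by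
  rw [NormedSpace.exp_eq_tsum ℝ]
  simp only
  rw [tsum_eq_sum (s := Finset.range m)]
  · rfl
  · intro r hr
    have h1 : m ≤ r := by simpa using hr
    obtain ⟨k, rfl⟩ := Nat.exists_eq_add_of_le h1
    rw [pow_add, hA.pow_eq_zero, zero_mul, smul_zero]

/-- Embedding of a `PG` into the unitriangular matrices. -/
lemma exists_hom {D : ℕ} (A : PG D) : ∃ (m : ℕ) (r : A.Gp →* UT m),
    Continuous r ∧ Function.Injective r ∧ ∀ z : A.Gp, r z ∈ LT m ↔ HK.IsInt z := by
  obtain ⟨m, ρ, hmul, hone, htri, hdiag, hcont, hinj, hint⟩ :=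
    MPd26.PolyEmb.polyEmb D A.mul A.P A.mul_eq
      (fun j i hi => A.vars j (Sum.inr i) hi) A.assoc A.mul_zero A.zero_mul A.int
  have hsu : ∀ s, IsSU (ρ s - 1) := by
    intro s i j hij
    rw [Matrix.sub_apply]
    rcases Nat.lt_succ_iff_lt_or_eq.1 hij with h | h
    · have h1 : j < i := h
      rw [htri s i j h1, Matrix.one_apply_ne (ne_of_gt h1), sub_zero]
    · have h1 : j = i := Fin.ext h
      subst h1
      rw [hdiag, Matrix.one_apply_eq, sub_self]
  refine ⟨m, ⟨⟨fun s => ⟨ρ s, hsu s⟩, ?_⟩, ?_⟩, ?_, ?_, ?_⟩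
  · exact UT.ext hone
  · intro s t
    exact UT.ext (hmul s t)
  · exact UT.isInducing_mat.continuous_iff.2 hcont
  · intro s t h
    exact hinj (congrArg UT.mat h)
  · intro z
    rw [mem_LT]
    exact hint z

/-- Continuous one-parameter groups of unitriangular matrices. -/
lemma exists_gen {m : ℕ} (τ : ℝ → UT m) (hc : Continuous τ)
    (hadd : ∀ s t, τ (s + t) = τ s * τ t) : ∃ ξ : Mat m, IsSU ξ ∧ ∀ t : ℝ, τ t = expU (t • ξ) := by
  have h0 : τ 0 = 1 := by
    have := hadd 0 0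
    rw [add_zero] at this
    exact (mul_eq_left.1 this.symm)
  have hsu : ∀ (t : ℝ) (i j : Fin m), (j : ℕ) < (i : ℕ) + 1 → ((τ t).mat - 1) i j = 0 :=
    fun t => (τ t).su
  obtain ⟨ξ, hξ, h⟩ := MPd26.OnePar.onePar m (fun t => (τ t).mat)
    (UT.continuous_mat.comp hc) (by simp [h0]) (fun s t => by simp [hadd])
    (fun t i j hij => by
      have h1 := hsu t i j (by have : (j : ℕ) < i := hij; omega)
      rwa [Matrix.sub_apply, Matrix.one_apply_ne (ne_of_gt hij), sub_zero] at h1)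
    (fun t i => by
      have h1 := hsu t i i (Nat.lt_succ_self _)
      rw [Matrix.sub_apply, Matrix.one_apply_eq] at h1
      linarith)
  have hs : IsSU ξ := fun i j hij => hξ i j (by
    have : (j : ℕ) ≤ i := Nat.lt_succ_iff.1 hij
    exact this)
  refine ⟨ξ, hs, fun t => ?_⟩
  apply UT.ext
  have h2 : IsSU (t • ξ) := Lev.smul t hs
  rw [expU_mat h2, expM_eq_exp h2]
  exact h t

/-- `z ↦ [r z]` is injective on the box. -/
lemma box_inj {m D : ℕ} {A : PG D} {r : A.Gp →* UT m} (hr : ∀ z : A.Gp, r z ∈ LT m ↔ HK.IsInt z)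
    {z z' : Fin D → ℝ} (hz : z ∈ box D) (hz' : z' ∈ box D)
    (h : ((r z : UT m) : NM m) = ((r z' : UT m) : NM m)) : z = z' := by
  have h1 : (r z)⁻¹ * r z' ∈ LT m := QuotientGroup.eq.1 h
  obtain ⟨w, hw⟩ : ∃ w : A.Gp, w = z := ⟨z, rfl⟩
  obtain ⟨w', hw'⟩ : ∃ w : A.Gp, w = z' := ⟨z', rfl⟩
  have h2 : r (w⁻¹ * w') = (r z)⁻¹ * r z' := by
    rw [r.map_mul, r.map_inv, hw, hw']
  rw [← h2] at h1
  refine (A.rep_unique hz hz' ((hr _).1 h1) ?_).1
  have h3 : w * (w⁻¹ * w') = w' := mul_inv_cancel_left w w'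
  subst hw hw'
  exact h3

lemma measurable_box {D : ℕ} : MeasurableSet (box D) := by
  unfold box
  simp only [Set.ofPred_forall]
  refine MeasurableSet.iInter fun j => ?_
  exact (measurableSet_le measurable_const (measurable_pi_apply j)).inter
    (measurableSet_lt (measurable_pi_apply j) measurable_const)

end EmbedM

open EmbedM in
theorem specEmbed : SpecEmbed := by
  intro D A α _ Fl σ p Φ hσ hσa hp hpb hΦ hT
  obtain ⟨m, r, hrc, hri, hr⟩ := exists_hom A
  obtain ⟨ξ, hξ, hτ⟩ := exists_gen (fun t => r (σ t)) (hrc.comp hσ)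
    (fun s t => by rw [hσa]; exact r.map_mul (σ s) (σ t))
  have hq : Continuous (fun z : Fin D → ℝ => ((r z : UT m) : NM m)) :=
    continuous_quot_mk.comp hrc
  -- the extension of `Φ`
  have hemb : MeasurableEmbedding ((box D).domRestrict (fun z : Fin D → ℝ => ((r z : UT m) : NM m))) :=
    hq.continuousOn.measurableEmbedding measurable_box
      (fun z hz z' hz' h => box_inj hr hz hz' h)
  obtain ⟨h, hhm, hh⟩ := hemb.exists_measurable_extend
    (g := (box D).domRestrict Φ) (hΦ.comp measurable_subtype_coe) (fun _ => ⟨0⟩)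
  refine ⟨m, fun x => ((r (p x) : UT m) : NM m), h, ⟨hq.measurable.comp hp, ξ, hξ, fun t => ?_⟩,
    hhm, fun x => ?_⟩
  · filter_upwards [hT t] with x hx
    obtain ⟨γ, hγ, hx⟩ := hx
    have h1 : r (σ t) * r (p x) = r (p (Fl.T t x)) * r γ :=
      (r.map_mul _ _).symm.trans ((congrArg r hx).trans (r.map_mul _ _))
    have h2 : ((r (p (Fl.T t x)) : UT m) : NM m) = ((r (p (Fl.T t x)) * r γ : UT m) : NM m) := by
      rw [QuotientGroup.eq, inv_mul_cancel_left]
      exact (hr γ).2 hγ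
    show ((r (p (Fl.T t x)) : UT m) : NM m) = expU (t • ξ) • ((r (p x) : UT m) : NM m)
    rw [h2, ← h1, ← hτ t]
    rfl
  · have := congrFun hh ⟨p x, hpb x⟩
    exact this.symm

end MPd26.HK
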