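import Pool.Agent.Lib.MP_d26cd8_an.HK.Approx

/-!
# Theorem 5 (module Nil of project 86): functions measurable with respect to `Z_k(T_θ)` are limits
of nil-functions
-/

set_option autoImplicit false

open MeasureTheory ProbabilityTheory Filter Topology
open scoped ComplexConjugate ENNReal

namespace MPd26.HK
namespace NilM

open MPd26.Nil

section
variable {α : Type} [mα : MeasurableSpace α] [StandardBorelSpace α] (Fl : Flow α) (θ : ℝ)

/-- `F` on cubes is a limit of continuous functions of cubes of nil-maps. -/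
def NAc (n : ℕ) (F : Cube n α → ℂ) : Prop :=
  ∀ η : ℝ, 0 < η → ∃ (m : ℕ) (π : α → NM m) (K : Cube n (NM m) → ℂ),
    Fl.NilMap m π ∧ Continuous K ∧ (∃ C : ℝ, ∀ y, ‖K y‖ ≤ C) ∧
    dist2 ((Fl.sys θ).cm n) F (fun x => K (cmap π x)) ≤ η

omit [StandardBorelSpace α] in
/-- the trivial nil-map -/
lemma trivNil : Fl.NilMap 0 (fun _ => ((1 : UT 0) : NM 0)) := by
  refine ⟨measurable_const, 0, Lev.zero 1, fun t => ae_of_all _ fun x => ?_⟩
  rw [smul_zero, expU_zero, one_smul]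

variable {Fl θ}

omit [StandardBorelSpace α] in
lemma bdd_comp {m n : ℕ} {π : α → NM m} (hπ : Fl.NilMap m π) {K : Cube n (NM m) → ℂ}
    (hK : Continuous K) (hb : ∃ C : ℝ, ∀ y, ‖K y‖ ≤ C) : Bdd (fun x : Cube n α => K (cmap π x)) := by
  obtain ⟨C, hC⟩ := hb
  exact ⟨hK.measurable.comp (measurable_cmap hπ.1), C, fun x => hC _⟩

lemma NAc.congr {n : ℕ} {F G : Cube n α → ℂ} (h : NAc Fl θ n F) (hFG : F =ᵐ[(Fl.sys θ).cm n] G) :
    NAc Fl θ n G := by
  intro η hη
  obtain ⟨m, π, K, h1, h2, h3, h4⟩ := h η hη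
  exact ⟨m, π, K, h1, h2, h3, by rwa [← dist2_congr hFG (ae_eq_refl _)]⟩

lemma NAc.const (n : ℕ) (c : ℂ) : NAc Fl θ n (fun _ => c) := by
  intro η hη
  refine ⟨0, _, fun _ => c, trivNil Fl, continuous_const, ⟨‖c‖, fun _ => le_rfl⟩, ?_⟩
  rw [dist2_self]; exact hη.le

lemma NAc.lim {n : ℕ} {F : Cube n α → ℂ} (hF : Bdd F)
    (h : ∀ η : ℝ, 0 < η → ∃ G, NAc Fl θ n G ∧ Bdd G ∧ dist2 ((Fl.sys θ).cm n) F G ≤ η) :
    NAc Fl θ n F := by
  intro η hη
  obtain ⟨G, hG, hGb, hFG⟩ := h (η / 4) (by positivity)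
  obtain ⟨m, π, K, h1, h2, h3, h4⟩ := hG (η / 4) (by positivity)
  refine ⟨m, π, K, h1, h2, h3, ?_⟩
  have := dist2_triangle' (hF.memLp ((Fl.sys θ).cm n) 2) (hGb.memLp ((Fl.sys θ).cm n) 2)
    ((bdd_comp h1 h2 h3).memLp ((Fl.sys θ).cm n) 2)
  linarith

lemma NAc.add (hP : SpecProdNilPair) {n : ℕ} {F G : Cube n α → ℂ} (hFb : Bdd F) (hGb : Bdd G)
    (hF : NAc Fl θ n F) (hG : NAc Fl θ n G) : NAc Fl θ n (fun x => F x + G x) := by
  intro η hη
  obtain ⟨m₁, π₁, K₁, a1, a2, a3, a4⟩ := hF (η / 4) (by positivity)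
  obtain ⟨m₂, π₂, K₂, b1, b2, b3, b4⟩ := hG (η / 4) (by positivity)
  obtain ⟨m, π, p₁, p₂, c1, c2, c3, c4, c5⟩ := hP α Fl m₁ m₂ π₁ π₂ a1 b1
  have e1 : ∀ x : Cube n α, cmap p₁ (cmap π x) = cmap π₁ x := fun x => funext fun ε => c4 _
  have e2 : ∀ x : Cube n α, cmap p₂ (cmap π x) = cmap π₂ x := fun x => funext fun ε => c5 _
  have f1 : Continuous (cmap p₁ : Cube n (NM m) → Cube n (NM m₁)) :=
    continuous_pi fun ε => c2.comp (continuous_apply ε)
  have f2 : Continuous (cmap p₂ : Cube n (NM m) → Cube n (NM m₂)) :=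
    continuous_pi fun ε => c3.comp (continuous_apply ε)
  refine ⟨m, π, fun y => K₁ (cmap p₁ y) + K₂ (cmap p₂ y), c1, (a2.comp f1).add (b2.comp f2), ?_, ?_⟩
  · obtain ⟨C, hC⟩ := a3
    obtain ⟨D, hD⟩ := b3
    exact ⟨C + D, fun y => (norm_add_le _ _).trans (add_le_add (hC _) (hD _))⟩
  · simp only [e1, e2]
    have h1 := bdd_comp a1 a2 a3
    have h2 := bdd_comp b1 b2 b3
    have t := dist2_triangle' (μ := (Fl.sys θ).cm n) ((hFb.add hGb).memLp _ 2)
      ((h1.add hGb).memLp _ 2) ((h1.add h2).memLp _ 2)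
    have t1 : dist2 ((Fl.sys θ).cm n) (fun x => F x + G x) (fun x => K₁ (cmap π₁ x) + G x)
        = dist2 ((Fl.sys θ).cm n) F (fun x => K₁ (cmap π₁ x)) := by
      unfold dist2; congr 1; funext x; congr 2; ring
    have t2 : dist2 ((Fl.sys θ).cm n) (fun x => K₁ (cmap π₁ x) + G x)
        (fun x => K₁ (cmap π₁ x) + K₂ (cmap π₂ x))
        = dist2 ((Fl.sys θ).cm n) G (fun x => K₂ (cmap π₂ x)) := by
      unfold dist2; congr 1; funext x; congr 2; ring
    rw [t1, t2] at t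
    linarith

/-- Multiplication by a function bounded by `C`. -/
lemma dist2_mul_le {Ω : Type} [MeasurableSpace Ω] {μ : Measure Ω} [IsFiniteMeasure μ]
    {F G H : Ω → ℂ} {C : ℝ} (hF : Bdd F) (hG : Bdd G) (hH : Measurable H) (hC : ∀ x, ‖H x‖ ≤ C) :
    dist2 μ (fun x => H x * F x) (fun x => H x * G x) ≤ C ^ 2 * dist2 μ F G := by
  unfold dist2
  rw [← integral_const_mul]
  have hHb : Bdd H := ⟨hH, C, hC⟩
  refine integral_mono ?_ ?_ fun x => ?_
  · have h : Bdd (fun x => H x * F x - H x * G x) := (hHb.mul hF).sub (hHb.mul hG)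
    exact (h.memLp μ 2).integrable_norm_pow (p := 2) (by norm_num)
  · have h : Bdd (fun x => F x - G x) := hF.sub hG
    exact ((h.memLp μ 2).integrable_norm_pow (p := 2) (by norm_num)).const_mul _
  · simp only
    rw [← mul_sub, norm_mul, mul_pow]
    exact mul_le_mul_of_nonneg_right (pow_le_pow_left₀ (norm_nonneg _) (hC x) 2) (by positivity)

lemma NAc.mul (hP : SpecProdNilPair) {n : ℕ} {F G : Cube n α → ℂ} (hFb : Bdd F) (hGb : Bdd G)
    (hF : NAc Fl θ n F) (hG : NAc Fl θ n G) : NAc Fl θ n (fun x => F x * G x) := by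
  intro η hη
  obtain ⟨hFm, B, hB⟩ := hFb
  have hFb : Bdd F := ⟨hFm, B, hB⟩
  obtain ⟨m₂, π₂, K₂, b1, b2, ⟨D, hD⟩, b4⟩ := hG (η / (4 * (B ^ 2 + 1))) (by positivity)
  obtain ⟨m₁, π₁, K₁, a1, a2, a3, a4⟩ := hF (η / (4 * (D ^ 2 + 1))) (by positivity)
  obtain ⟨m, π, p₁, p₂, c1, c2, c3, c4, c5⟩ := hP α Fl m₁ m₂ π₁ π₂ a1 b1
  have e1 : ∀ x : Cube n α, cmap p₁ (cmap π x) = cmap π₁ x := fun x => funext fun ε => c4 _
  have e2 : ∀ x : Cube n α, cmap p₂ (cmap π x) = cmap π₂ x := fun x => funext fun ε => c5 _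
  have f1 : Continuous (cmap p₁ : Cube n (NM m) → Cube n (NM m₁)) :=
    continuous_pi fun ε => c2.comp (continuous_apply ε)
  have f2 : Continuous (cmap p₂ : Cube n (NM m) → Cube n (NM m₂)) :=
    continuous_pi fun ε => c3.comp (continuous_apply ε)
  refine ⟨m, π, fun y => K₁ (cmap p₁ y) * K₂ (cmap p₂ y), c1, (a2.comp f1).mul (b2.comp f2), ?_, ?_⟩
  · obtain ⟨C, hC⟩ := a3
    refine ⟨|C| * |D|, fun y => ?_⟩
    rw [norm_mul]
    exact mul_le_mul ((hC _).trans (le_abs_self C)) ((hD _).trans (le_abs_self D))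
      (norm_nonneg _) (abs_nonneg _)
  · simp only [e1, e2]
    have h1 := bdd_comp a1 a2 a3
    have h2 := bdd_comp b1 b2 ⟨D, hD⟩
    have t := dist2_triangle' (μ := (Fl.sys θ).cm n) ((hFb.mul hGb).memLp _ 2)
      ((hFb.mul h2).memLp _ 2) ((h1.mul h2).memLp _ 2)
    have t1 := dist2_mul_le (μ := (Fl.sys θ).cm n) hGb h2 hFm hB
    have t2 : dist2 ((Fl.sys θ).cm n) (fun x => F x * K₂ (cmap π₂ x))
        (fun x => K₁ (cmap π₁ x) * K₂ (cmap π₂ x))
        ≤ D ^ 2 * dist2 ((Fl.sys θ).cm n) F (fun x => K₁ (cmap π₁ x)) := by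
      have := dist2_mul_le (μ := (Fl.sys θ).cm n) hFb h1 h2.1 (fun x => hD (cmap π₂ x))
      simpa only [mul_comm] using this
    have u1 : B ^ 2 * dist2 ((Fl.sys θ).cm n) G (fun x => K₂ (cmap π₂ x)) ≤ η / 4 := by
      calc B ^ 2 * dist2 ((Fl.sys θ).cm n) G (fun x => K₂ (cmap π₂ x))
          ≤ (B ^ 2 + 1) * (η / (4 * (B ^ 2 + 1))) :=
            mul_le_mul (by linarith) b4 (dist2_nonneg _ _) (by positivity)
        _ = η / 4 := by field_simp
    have u2 : D ^ 2 * dist2 ((Fl.sys θ).cm n) F (fun x => K₁ (cmap π₁ x)) ≤ η / 4 := by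
      calc D ^ 2 * dist2 ((Fl.sys θ).cm n) F (fun x => K₁ (cmap π₁ x))
          ≤ (D ^ 2 + 1) * (η / (4 * (D ^ 2 + 1))) :=
            mul_le_mul (by linarith) a4 (dist2_nonneg _ _) (by positivity)
        _ = η / 4 := by field_simp
    linarith

/-- `f` on `α` is a limit of nil-functions. -/
def NA (Fl : Flow α) (θ : ℝ) (f : α → ℂ) : Prop := NAc Fl θ 0 (fun x => f (x v0))

lemma NA.cube {f : α → ℂ} (hf : Bdd f) (h : NA Fl θ f) (n : ℕ) (ε : Vx n) :
    NAc Fl θ n (fun x => f (x ε)) := by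
  intro η hη
  obtain ⟨m, π, K, h1, h2, ⟨C, hC⟩, h4⟩ := h η hη
  refine ⟨m, π, fun y => K (fun _ => y ε), h1,
    h2.comp (continuous_pi fun _ => continuous_apply ε), ⟨C, fun y => hC _⟩, ?_⟩
  have hg : Measurable fun a : α => K (fun _ => π a) :=
    h2.measurable.comp (measurable_pi_lambda _ fun _ => h1.1)
  have e1 := dist2_comp ((Fl.sys θ).mp_marg n ε) hf.1 hg
  have e2 := dist2_comp ((Fl.sys θ).mp_marg 0 v0) hf.1 hg
  have e3 : (fun x : Cube 0 α => K (fun _ => π (x v0))) = fun x => K (cmap π x) := by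
    funext x
    congr 1
    funext ε
    rw [Subsingleton.elim ε v0]; rfl
  have e4 : dist2 ((Fl.sys θ).cm 0) (fun x : Cube 0 α => f (x v0)) (fun x => K (fun _ => π (x v0)))
      ≤ η := by rw [e3]; exact h4
  calc dist2 ((Fl.sys θ).cm n) (fun x => f (x ε)) (fun x => K (fun _ => cmap π x ε))
      = dist2 (Fl.sys θ).μ f (fun a => K (fun _ => π a)) := e1
    _ = _ := e2.symm
    _ ≤ η := e4

/-- From nil-functions on `α` to functions measurable for the cube σ-algebra. -/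
lemma NAc.of_factor (hP : SpecProdNilPair) (N : (Fl.sys θ).Factor)
    (hN : ∀ f : α → ℂ, Bdd f → Measurable[N.σ] f → NA Fl θ f) (n : ℕ) {F : Cube n α → ℂ}
    (hF : Measurable[N.cube n] F) (hFb : ∃ B : ℝ, ∀ x, ‖F x‖ ≤ B) : NAc Fl θ n F := by
  classical
  have hle : N.cube n ≤ MeasurableSpace.pi := by
    refine iSup_le fun ε => ?_
    exact (MeasurableSpace.comap_mono N.le).trans (measurable_pi_apply ε).comap_le
  let P : (Cube n α → ℂ) → Prop := fun F => Bdd F ∧ NAc Fl θ n F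
  have key : P F := by
    refine approx_gen (μ := (Fl.sys θ).cm n) hle
      (Set.pi Set.univ '' Set.pi Set.univ fun _ : Vx n => {s : Set α | MeasurableSet[N.σ] s})
      ?_ ?_ P ⟨Bdd.const 1, NAc.const n 1⟩ ?_ ?_ ?_ ?_ hF hFb
    · exact (@generateFrom_pi (Vx n) (fun _ => α) _ (fun _ => N.σ)).symm
    · exact @isPiSystem_pi (Vx n) (fun _ => α) (fun _ => N.σ)
    · rintro _ ⟨A, hA, rfl⟩
      have hA' : ∀ ε, MeasurableSet[N.σ] (A ε) := fun ε => hA ε (Set.mem_univ ε)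
      have e : (Set.pi Set.univ A).indicator (fun _ => (1 : ℂ))
          = fun x : Cube n α => ∏ ε : Vx n, (A ε).indicator (fun _ => (1 : ℂ)) (x ε) := by
        funext x
        by_cases hx : x ∈ Set.pi Set.univ A
        · rw [Set.indicator_of_mem hx, Finset.prod_eq_one]
          intro ε _
          exact Set.indicator_of_mem (hx ε (Set.mem_univ ε)) _
        · rw [Set.indicator_of_notMem hx]
          simp only [Set.mem_pi, Set.mem_univ, true_implies, not_forall] at hx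
          obtain ⟨ε, hε⟩ := hx
          exact (Finset.prod_eq_zero (Finset.mem_univ ε) (Set.indicator_of_notMem hε _)).symm
      have hb : ∀ ε, Bdd ((A ε).indicator (fun _ => (1 : ℂ))) := by
        intro ε
        refine ⟨measurable_const.indicator (N.le _ (hA' ε)), 1, fun x => ?_⟩
        by_cases hx : x ∈ A ε <;> simp [hx]
      have hprod : ∀ s : Finset (Vx n), P (fun x : Cube n α => ∏ ε ∈ s,
          (A ε).indicator (fun _ => (1 : ℂ)) (x ε)) := by
        intro s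
        induction s using Finset.induction_on with
        | empty => simpa using (⟨Bdd.const 1, NAc.const n 1⟩ : P fun _ => 1)
        | insert a s ha ih =>
          simp only [Finset.prod_insert ha]
          have h1 : Bdd (fun x : Cube n α => (A a).indicator (fun _ => (1 : ℂ)) (x a)) :=
            (hb a).comp (measurable_pi_apply a)
          have h2 : NA Fl θ ((A a).indicator (fun _ => (1 : ℂ))) :=
            hN _ (hb a) (measurable_const.indicator (hA' a))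
          exact ⟨h1.mul ih.1, (h2.cube (hb a) n a).mul hP h1 ih.1 ih.2⟩
      rw [e]
      exact hprod Finset.univ
    · rintro f g ⟨hf, hf'⟩ ⟨hg, hg'⟩
      exact ⟨hf.add hg, hf'.add hP hf hg hg'⟩
    · rintro c f ⟨hf, hf'⟩
      exact ⟨(Bdd.const c).mul hf, (NAc.const n c).mul hP (Bdd.const c) hf hf'⟩
    · intro f hf h
      refine ⟨hf, NAc.lim hf fun η hη => ?_⟩
      obtain ⟨g, ⟨hg1, hg2⟩, hg3, hg4⟩ := h η hη
      exact ⟨g, hg2, hg1, hg4⟩
  exact key.2

/-- functions whose level sets are trivial are constant -/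
lemma ae_const_of_zero_one {Ω : Type} [MeasurableSpace Ω] {μ : Measure Ω} [IsProbabilityMeasure μ]
    {f : Ω → ℂ} (hf : Measurable f)
    (h : ∀ s : Set ℂ, MeasurableSet s → μ (f ⁻¹' s) = 0 ∨ μ (f ⁻¹' s) = 1) :
    ∃ c : ℂ, ∀ᵐ x ∂μ, f x = c := by
  have : IsZeroOneMeasure (μ.map f) := ⟨fun s hs => by rw [Measure.map_apply hf hs]; exact h s hs⟩
  have : IsProbabilityMeasure (μ.map f) := Measure.isProbabilityMeasure_map hf.aemeasurable
  obtain ⟨c, hc⟩ := IsZeroOneMeasure.exists_eq_dirac (μ := μ.map f)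
  refine ⟨c, ?_⟩
  have h1 : ∀ᵐ y ∂(μ.map f), y = c := by
    rw [hc]
    exact (ae_dirac_iff (p := fun y => y = c) (measurableSet_singleton c)).2 rfl
  exact ae_of_ae_map hf.aemeasurable h1

/-- measurable bounded functions of nil-maps are limits of continuous ones -/
lemma NA.of_meas (hc : ∀ m, CompactSpace (NM m)) {m : ℕ} {π : α → NM m} (hπ : Fl.NilMap m π)
    {h : NM m → ℂ} (hh : Bdd h) : NA Fl θ (fun x => h (π x)) := by
  intro η hη
  have := hc m
  have : T3Space (NM m) := inferInstance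
  have : TopologicalSpace.MetrizableSpace (NM m) :=
    TopologicalSpace.metrizableSpace_of_t3_secondCountable _
  let := TopologicalSpace.metrizableSpaceMetric (NM m)
  set ν : Measure (NM m) := Fl.μ.map π with hν
  have : IsProbabilityMeasure ν := Measure.isProbabilityMeasure_map hπ.1.aemeasurable
  have hmp : MeasurePreserving π Fl.μ ν := ⟨hπ.1, rfl⟩
  have he : ENNReal.ofReal (Real.sqrt η) ≠ 0 := by
    rw [Ne, ENNReal.ofReal_eq_zero, not_le]; exact Real.sqrt_pos.2 hη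
  obtain ⟨g, hg, hgL⟩ := (hh.memLp ν 2).exists_boundedContinuous_eLpNorm_sub_le
    (by norm_num) he
  have hgb : Bdd (g : NM m → ℂ) := ⟨g.continuous.measurable, ‖g‖, fun y => g.norm_coe_le_norm y⟩
  refine ⟨m, π, fun y => g (y v0), hπ, g.continuous.comp (continuous_apply v0),
    ⟨‖g‖, fun y => g.norm_coe_le_norm _⟩, ?_⟩
  have e1 : dist2 ((Fl.sys θ).cm 0) (fun x : Cube 0 α => h (π (x v0)))
      (fun x => g (cmap π x v0)) = dist2 Fl.μ (fun a => h (π a)) (fun a => g (π a)) :=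
    dist2_comp (f := fun a => h (π a)) (g := fun a => g (π a)) ((Fl.sys θ).mp_marg 0 v0)
      (hh.1.comp hπ.1) (hgb.1.comp hπ.1)
  have e2 : dist2 Fl.μ (fun a => h (π a)) (fun a => g (π a)) = dist2 ν h g :=
    dist2_comp hmp hh.1 hgb.1
  rw [e1, e2, dist2_toLp (hh.memLp ν 2) (hgb.memLp ν 2), ← MemLp.toLp_sub, Lp.norm_toLp]
  have h2 : (eLpNorm (h - (g : NM m → ℂ)) 2 ν).toReal ≤ Real.sqrt η := by
    have := ENNReal.toReal_mono ENNReal.ofReal_ne_top hg
    rwa [ENNReal.toReal_ofReal (Real.sqrt_nonneg η)] at this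
  calc (eLpNorm (h - (g : NM m → ℂ)) 2 ν).toReal ^ 2 ≤ (Real.sqrt η) ^ 2 :=
        pow_le_pow_left₀ ENNReal.toReal_nonneg h2 2
    _ = η := Real.sq_sqrt hη.le

/-- The nilsystem with the law of a nil-map. -/
noncomputable def ySys (Fl : Flow α) (θ : ℝ) {m : ℕ} {π : α → NM m} (hπ : Measurable π)
    (ξ : Mat m) (h : ∀ t : ℝ, ∀ᵐ x ∂Fl.μ, π (Fl.T t x) = expU (t • ξ) • π x) : Sys (NM m) where
  μ := Fl.μ.map π
  prob := Measure.isProbabilityMeasure_map hπ.aemeasurable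
  S := (Homeomorph.smul (expU (θ • ξ))).toMeasurableEquiv
  mp := by
    refine ⟨(Homeomorph.smul (expU (θ • ξ))).toMeasurableEquiv.measurable, ?_⟩
    rw [Measure.map_map (Homeomorph.smul (expU (θ • ξ))).toMeasurableEquiv.measurable hπ]
    have h1 : ((Homeomorph.smul (expU (θ • ξ))).toMeasurableEquiv ∘ π) =ᵐ[Fl.μ] π ∘ Fl.T θ := by
      filter_upwards [h θ] with x hx
      exact hx.symm
    rw [Measure.map_congr h1, ← Measure.map_map hπ (Fl.measT θ), (Fl.mp θ).map_eq]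

omit [StandardBorelSpace α] in
lemma fmap_nil (Fl : Flow α) (θ : ℝ) {m : ℕ} {π : α → NM m} (hπ : Measurable π)
    (ξ : Mat m) (h : ∀ t : ℝ, ∀ᵐ x ∂Fl.μ, π (Fl.T t x) = expU (t • ξ) • π x) :
    FMap (Fl.sys θ) (ySys Fl θ hπ ξ h) π := ⟨hπ, rfl, h θ⟩

/-- Phases with respect to a factor all of whose functions are limits of nil-functions. -/
lemma NA.phase (hP : SpecProdNilPair) (hI : SpecInv99) (hNP : SpecNilPhase)
    (hc : ∀ m, CompactSpace (NM m)) (hF : Fl.Erg) (hE : (Fl.sys θ).Erg) (N : (Fl.sys θ).Factor)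
    (hN : ∀ f : α → ℂ, Bdd f → Measurable[N.σ] f → NA Fl θ f) (d : ℕ) {φ : α → ℂ}
    (hφ : (Fl.sys θ).Ph N (d + 2) φ) : NA Fl θ φ := by
  classical
  obtain ⟨hφ1, hφ2⟩ := hφ
  -- cube of `φ`
  have h1 : NAc Fl θ (d + 2) (cp φ (d + 2)) := by
    set Q := hφ2.mk (cp φ (d + 2)) with hQ
    have hQm : Measurable[N.cube (d + 2)] Q := hφ2.stronglyMeasurable_mk.measurable
    have hs : MeasurableSet[N.cube (d + 2)] {x | ‖Q x‖ ≤ 1} :=
      (measurable_norm.comp hQm) measurableSet_Iic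
    have h2 : NAc Fl θ (d + 2) (fun x => if ‖Q x‖ ≤ 1 then Q x else 0) := by
      refine NAc.of_factor hP N hN (d + 2) (Measurable.ite hs hQm measurable_const) ⟨1, fun x => ?_⟩
      by_cases h : ‖Q x‖ ≤ 1 <;> simp [h]
    refine h2.congr ?_
    filter_upwards [hφ2.ae_eq_mk] with x hx
    have h3 : ‖Q x‖ = 1 := by rw [hQ, ← hx]; exact (hφ1.cp (d + 2)).2 x
    simp only [h3, le_refl, if_true]
    exact hx.symm
  refine NAc.lim (hφ1.bdd.comp (measurable_pi_apply v0)) fun η hη => ?_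
  obtain ⟨e, he, hinv⟩ := hI (d + 1) η hη
  obtain ⟨m, π, K, hπ, hKc, hKb, hK⟩ := h1 e he
  obtain ⟨hπm, ξ, hξ, hπξ⟩ := hπ
  have hπ : Fl.NilMap m π := ⟨hπm, ξ, hξ, hπξ⟩
  have hfm := fmap_nil Fl θ hπm ξ hπξ
  obtain ⟨φ', hφ', hd⟩ := hinv α (Fl.sys θ) hfm.fac hE φ (fun x => K (cmap π x)) hφ1
    (bdd_comp hπ hKc hKb) (hKc.measurable.comp (hfm.meas_cmap (d + 1 + 1))) hK
  obtain ⟨K', hK', hφK⟩ := hfm.exists_fac_cube (d + 1 + 1) hφ'.2
  obtain ⟨m', π', h, hπ', hhm, hφh⟩ := hNP α Fl θ hF hE m π hπ d φ' K' hφ'.1 hK' hφK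
  have hb : Bdd (fun y => if ‖h y‖ ≤ 1 then h y else 0) := by
    refine ⟨Measurable.ite ((measurable_norm.comp hhm) measurableSet_Iic) hhm measurable_const, 1,
      fun y => ?_⟩
    by_cases h' : ‖h y‖ ≤ 1 <;> simp [h']
  refine ⟨fun x => (fun y => if ‖h y‖ ≤ 1 then h y else 0) (π' (x v0)), NA.of_meas hc hπ' hb,
    hb.comp (hπ'.1.comp (measurable_pi_apply v0)), ?_⟩
  have h5 : φ' =ᵐ[Fl.μ] fun a => (fun y => if ‖h y‖ ≤ 1 then h y else 0) (π' a) := by
    filter_upwards [hφh] with a ha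
    have h3 : ‖h (π' a)‖ = 1 := by rw [← ha]; exact hφ'.1.2 a
    simp only [h3, le_refl, if_true]
    exact ha
  have e1 := dist2_comp ((Fl.sys θ).mp_marg 0 v0) hφ1.1
    (g := fun a => (fun y => if ‖h y‖ ≤ 1 then h y else 0) (π' a)) (hb.1.comp hπ'.1)
  rw [e1]
  have e2 : dist2 (Fl.sys θ).μ φ (fun a => (fun y => if ‖h y‖ ≤ 1 then h y else 0) (π' a))
      = dist2 (Fl.sys θ).μ φ φ' := dist2_congr (ae_eq_refl φ) h5.symm
  rw [e2]
  exact hd

/-- The induction. -/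
theorem NA.of_Z (hP : SpecProdNilPair) (hPh : SpecPhases) (hI : SpecInv99) (hNP : SpecNilPhase)
    (hZ0 : SpecZzero) (hc : ∀ m, CompactSpace (NM m)) (hF : Fl.Erg) (hE : (Fl.sys θ).Erg) (k : ℕ) :
    ∀ f : α → ℂ, Bdd f → Measurable[((Fl.sys θ).Z k).σ] f → NA Fl θ f := by
  induction k with
  | zero =>
    intro f hf hfm
    obtain ⟨c, hc'⟩ := ae_const_of_zero_one (μ := Fl.μ) hf.1 fun s hs =>
      hZ0 α (Fl.sys θ) hE _ (hfm hs)
    refine (NAc.const 0 c).congr ?_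
    filter_upwards [((Fl.sys θ).mp_marg 0 v0).quasiMeasurePreserving.ae hc'] with x hx
    exact hx.symm
  | succ k ih =>
    intro f hf hfm
    refine NAc.lim (hf.comp (measurable_pi_apply v0)) fun η hη => ?_
    obtain ⟨r, b, φ, hbφ, hd⟩ := hPh α (Fl.sys θ) hE k f hf hfm η hη
    have hterm : ∀ i, Bdd (fun x => b i x * φ i x) ∧ NA Fl θ (fun x => b i x * φ i x) := by
      intro i
      obtain ⟨h1, h2, h3⟩ := hbφ i
      have hφ : NA Fl θ (φ i) := NA.phase hP hI hNP hc hF hE _ ih k h3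
      exact ⟨h1.mul h3.1.bdd, (ih _ h1 h2).mul hP (h1.comp (measurable_pi_apply v0))
        (h3.1.bdd.comp (measurable_pi_apply v0)) hφ⟩
    have hsum : ∀ s : Finset (Fin r), Bdd (fun x => ∑ i ∈ s, b i x * φ i x) ∧
        NA Fl θ (fun x => ∑ i ∈ s, b i x * φ i x) := by
      intro s
      induction s using Finset.induction_on with
      | empty =>
        simp only [Finset.sum_empty]
        exact ⟨Bdd.const 0, NAc.const 0 0⟩
      | insert a s ha ih' =>
        simp only [Finset.sum_insert ha]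
        exact ⟨(hterm a).1.add ih'.1, (hterm a).2.add hP
          ((hterm a).1.comp (measurable_pi_apply v0)) (ih'.1.comp (measurable_pi_apply v0)) ih'.2⟩
    refine ⟨_, (hsum Finset.univ).2, (hsum Finset.univ).1.comp (measurable_pi_apply v0), ?_⟩
    have e1 := dist2_comp ((Fl.sys θ).mp_marg 0 v0) hf.1 (hsum Finset.univ).1.1
    rw [e1]
    exact hd

end

end NilM

open MPd26.Nil

/-- truncation to the unit disc -/
noncomputable def trunc (z : ℂ) : ℂ := (((max 1 ‖z‖)⁻¹ : ℝ) : ℂ) * z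

lemma continuous_trunc : Continuous trunc := by
  unfold trunc
  refine (Complex.continuous_ofReal.comp ?_).mul continuous_id
  refine (continuous_const.max continuous_norm).inv₀ fun z => ?_
  have : (1 : ℝ) ≤ max 1 ‖z‖ := le_max_left _ _
  positivity

lemma norm_trunc_le (z : ℂ) : ‖trunc z‖ ≤ 1 := by
  unfold trunc
  have h1 : (1 : ℝ) ≤ max 1 ‖z‖ := le_max_left _ _
  have h0 : (0 : ℝ) < max 1 ‖z‖ := by positivity
  rw [norm_mul, Complex.norm_real, Real.norm_of_nonneg (by positivity), inv_mul_le_iff₀ h0, mul_one]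
  exact le_max_right _ _

/-- truncation does not increase the distance to points of the unit disc -/
lemma norm_sub_trunc_le {w z : ℂ} (hw : ‖w‖ ≤ 1) : ‖w - trunc z‖ ≤ ‖w - z‖ := by
  by_cases hz : ‖z‖ ≤ 1
  · have : trunc z = z := by unfold trunc; rw [max_eq_left hz]; simp
    rw [this]
  · push Not at hz
    have hz0 : (0 : ℝ) < ‖z‖ := by linarith
    have e : trunc z = (((‖z‖)⁻¹ : ℝ) : ℂ) * z := by unfold trunc; rw [max_eq_right hz.le]
    set t : ℝ := (‖z‖)⁻¹ with ht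
    have ht1 : t < 1 := inv_lt_one_of_one_lt₀ hz
    have ht0 : 0 < t := inv_pos.2 hz0
    have hsq : ‖w - trunc z‖ ^ 2 ≤ ‖w - z‖ ^ 2 := by
      rw [e, ← Complex.normSq_eq_norm_sq, ← Complex.normSq_eq_norm_sq]
      have hw2 : w.re * w.re + w.im * w.im ≤ 1 := by
        rw [← Complex.normSq_apply, Complex.normSq_eq_norm_sq]
        exact pow_le_one₀ (norm_nonneg _) hw
      have hz2 : z.re * z.re + z.im * z.im = ‖z‖ ^ 2 := by
        rw [← Complex.normSq_apply, Complex.normSq_eq_norm_sq]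
      have htz : t * ‖z‖ = 1 := inv_mul_cancel₀ hz0.ne'
      simp only [Complex.normSq_apply, Complex.sub_re, Complex.sub_im, Complex.mul_re,
        Complex.mul_im, Complex.ofReal_re, Complex.ofReal_im]
      have hcs : w.re * z.re + w.im * z.im ≤ ‖z‖ := by
        have h1 : (w.re * z.re + w.im * z.im) ^ 2 ≤ ‖z‖ ^ 2 := by
          nlinarith [sq_nonneg (w.re * z.im - w.im * z.re), sq_nonneg ‖z‖]
        exact abs_le_of_sq_le_sq' h1 hz0.le |>.2
      have h3 : t * ‖z‖ ^ 2 = ‖z‖ := by rw [pow_two, ← mul_assoc, htz, one_mul]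
      have h4 : 0 ≤ (1 + t) * ‖z‖ ^ 2 - 2 * (w.re * z.re + w.im * z.im) := by nlinarith
      have h5 := mul_nonneg (sub_nonneg.2 ht1.le) h4
      rw [← hz2] at h5
      nlinarith
    exact (pow_le_pow_iff_left₀ (norm_nonneg _) (norm_nonneg _) two_ne_zero).1 hsq

/-- Theorem 5. -/
theorem specNil (hP : SpecProdNilPair) (hPh : SpecPhases) (hI : SpecInv99) (hNP : SpecNilPhase)
    (hZ0 : SpecZzero) (hc : ∀ m, CompactSpace (NM m)) : SpecNil := by
  intro α _ _ Fl θ hF hE k f hf1 hfm hfZ η hη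
  have hfb : Bdd f := ⟨hfm, 1, hf1⟩
  set g := hfZ.mk f with hg
  have hgm : Measurable[((Fl.sys θ).Z k).σ] g := hfZ.stronglyMeasurable_mk.measurable
  have hs : MeasurableSet[((Fl.sys θ).Z k).σ] {x | ‖g x‖ ≤ 1} :=
    (measurable_norm.comp hgm) measurableSet_Iic
  classical
  set g' : α → ℂ := fun x => if ‖g x‖ ≤ 1 then g x else 0 with hg'
  have hgm' : Measurable[((Fl.sys θ).Z k).σ] g' := Measurable.ite hs hgm measurable_const
  have hgb' : Bdd g' := by
    refine ⟨hgm'.mono ((Fl.sys θ).Z k).le le_rfl, 1, fun x => ?_⟩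
    by_cases h : ‖g x‖ ≤ 1 <;> simp [hg', h]
  have hfg : f =ᵐ[Fl.μ] g' := by
    filter_upwards [hfZ.ae_eq_mk] with x hx
    have : ‖g x‖ ≤ 1 := by rw [hg, ← hx]; exact hf1 x
    simp only [hg', this, if_true]
    exact hx
  have hNA := NilM.NA.of_Z hP hPh hI hNP hZ0 hc hF hE k g' hgb' hgm'
  obtain ⟨m, π, K, h1, h2, h3, h4⟩ := hNA η hη
  refine ⟨m, π, fun y => trunc (K (fun _ => y)), h1,
    continuous_trunc.comp (h2.comp (continuous_pi fun _ => continuous_id)),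
    fun y => norm_trunc_le _, ?_⟩
  have hKm : Measurable fun a : α => K (fun _ => π a) :=
    h2.measurable.comp (measurable_pi_lambda _ fun _ => h1.1)
  have e3 : (fun x : Cube 0 α => K (fun _ => π (x v0))) = fun x => K (cmap π x) := by
    funext x
    congr 1
    funext ε
    rw [Subsingleton.elim ε v0]; rfl
  have e2 : dist2 ((Fl.sys θ).cm 0) (fun x : Cube 0 α => g' (x v0))
      (fun x => K (fun _ => π (x v0))) = dist2 Fl.μ g' (fun a => K (fun _ => π a)) :=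
    dist2_comp (g := fun a => K (fun _ => π a)) ((Fl.sys θ).mp_marg 0 v0) hgb'.1 hKm
  have h5 : dist2 Fl.μ g' (fun a => K (fun _ => π a)) ≤ η := by
    rw [← e2, e3]; exact h4
  have h6 : dist2 Fl.μ f (fun a => K (fun _ => π a)) ≤ η := by
    rwa [dist2_congr hfg (ae_eq_refl _)]
  refine le_trans ?_ h6
  obtain ⟨C, hC⟩ := h3
  have hKb : Bdd (fun a : α => K (fun _ => π a)) := ⟨hKm, C, fun a => hC _⟩
  have htb : Bdd (fun a : α => trunc (K (fun _ => π a))) :=
    ⟨continuous_trunc.measurable.comp hKm, 1, fun a => norm_trunc_le _⟩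
  unfold dist2
  refine integral_mono ?_ ?_ fun x => ?_
  · have h : Bdd (fun x => f x - trunc (K (fun _ => π x))) := hfb.sub htb
    exact (h.memLp Fl.μ 2).integrable_norm_pow (p := 2) (by norm_num)
  · have h : Bdd (fun x => f x - K (fun _ => π x)) := hfb.sub hKb
    exact (h.memLp Fl.μ 2).integrable_norm_pow (p := 2) (by norm_num)
  · exact pow_le_pow_left₀ (norm_nonneg _) (norm_sub_trunc_le (hf1 x)) 2

end MPd26.HK
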