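import Pool.Agent.Lib.MP_d26cd8_an.HK.B_Lift
import Pool.Agent.Lib.MP_d26cd8_an.HK.Nil

/-!
# FINALB: `SpecNilPhase` from the modules of the bridge (helper15)
-/

set_option autoImplicit false

open MeasureTheory ProbabilityTheory Filter Topology
open scoped ComplexConjugate ENNReal

namespace MPd26.HK
namespace BFinM

open MPd26.Nil LiftM

lemma standardBorel_NM {m : ℕ} (hc : CompactSpace (NM m)) : StandardBorelSpace (NM m) := by
  have : T3Space (NM m) := inferInstance
  have : TopologicalSpace.MetrizableSpace (NM m) :=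
    TopologicalSpace.metrizableSpace_of_t3_secondCountable _
  let := TopologicalSpace.metrizableSpaceMetric (NM m)
  have : PolishSpace (NM m) := inferInstance
  infer_instance

lemma expU_add_smul {m : ℕ} {ξ : Mat m} (hξ : IsSU ξ) (s t : ℝ) :
    expU ((s + t) • ξ) = expU (s • ξ) * expU (t • ξ) := by
  rw [add_smul]
  exact expU_add (hξ.smul s) (hξ.smul t) ((Commute.refl ξ).smul_left s |>.smul_right t)

lemma continuous_expU_smul {m : ℕ} {ξ : Mat m} (hξ : IsSU ξ) :
    Continuous fun t : ℝ => expU (t • ξ) := by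
  rw [UT.isInducing_mat.continuous_iff]
  have h1 : (UT.mat ∘ fun t : ℝ => expU (t • ξ)) = fun t : ℝ => expM (t • ξ) := by
    funext t
    exact expU_mat (hξ.smul t)
  rw [h1]
  exact continuous_expM.comp (continuous_id.smul continuous_const)

section
variable {α : Type} [mα : MeasurableSpace α]

/-- The flow on `NM m` with the law of a nil-map. -/
noncomputable def flY (Fl : Flow α) {m : ℕ} {π : α → NM m} (hπ : Measurable π)
    {ξ : Mat m} (hξ : IsSU ξ) (h : ∀ t : ℝ, ∀ᵐ x ∂Fl.μ, π (Fl.T t x) = expU (t • ξ) • π x) :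
    Flow (NM m) where
  μ := Fl.μ.map π
  prob := Measure.isProbabilityMeasure_map hπ.aemeasurable
  T t y := expU (t • ξ) • y
  T_zero y := by rw [zero_smul, expU_zero, one_smul]
  T_add s t y := by rw [expU_add_smul hξ, mul_smul]
  meas := by
    have h1 : Continuous fun p : ℝ × NM m => expU (p.1 • ξ) • p.2 :=
      ((continuous_expU_smul hξ).comp continuous_fst).smul continuous_snd
    exact h1.measurable
  mp t := by
    refine ⟨(continuous_const_smul (expU (t • ξ))).measurable, ?_⟩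
    rw [Measure.map_map (continuous_const_smul (expU (t • ξ))).measurable hπ]
    have h1 : ((fun y : NM m => expU (t • ξ) • y) ∘ π) =ᵐ[Fl.μ] π ∘ Fl.T t := by
      filter_upwards [h t] with x hx
      exact hx.symm
    rw [Measure.map_congr h1, ← Measure.map_map hπ (Fl.measT t), (Fl.mp t).map_eq]

lemma fmapY (Fl : Flow α) {m : ℕ} {π : α → NM m} (hπ : Measurable π)
    {ξ : Mat m} (hξ : IsSU ξ) (h : ∀ t : ℝ, ∀ᵐ x ∂Fl.μ, π (Fl.T t x) = expU (t • ξ) • π x)
    (θ : ℝ) : FMap (Fl.sys θ) ((flY Fl hπ hξ h).sys θ) π := ⟨hπ, rfl, h θ⟩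

/-- A factor of an ergodic system is ergodic. -/
lemma fmap_erg {β : Type} [MeasurableSpace β] {X : Sys α} {Y : Sys β} {p : α → β}
    (hp : FMap X Y p) (hX : X.Erg) : Y.Erg := by
  refine ⟨Y.mp, ⟨fun s hs hinv => ?_⟩⟩
  have h1 : X.S ⁻¹' (p ⁻¹' s) =ᵐ[X.μ] p ⁻¹' s := by
    filter_upwards [hp.eqv] with x hx
    show (p (X.S x) ∈ s) = (p x ∈ s)
    rw [hx]
    have : (Y.S (p x) ∈ s) = (p x ∈ Y.S ⁻¹' s) := rfl
    rw [this, hinv]
  have h2 := hX.ae_empty_or_univ_of_ae_le_preimage (hp.meas hs).nullMeasurableSet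
    h1.symm.le
  rw [Filter.eventuallyConst_set']
  rcases h2 with h2 | h2
  · left
    rw [ae_eq_empty] at h2 ⊢
    rw [← hp.law, Measure.map_apply hp.meas hs]
    exact h2
  · right
    rw [ae_eq_univ] at h2 ⊢
    rw [← hp.law, Measure.map_apply hp.meas hs.compl]
    exact h2

end

/-- The law of the constant functions on `Unit`. -/
lemma class_data {m : ℕ} (hClass : SpecClass) (FlY : Flow (NM m)) {ξ : Mat m} (hξ : IsSU ξ)
    (hT : ∀ t y, FlY.T t y = expU (t • ξ) • y) (θ : ℝ) (hE : (FlY.sys θ).Erg) :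
    ∃ (x0 : UT m) (A : RAlg Unit m), (Ad (fun _ => x0⁻¹) (fun _ => ξ)) ∈ A.V ∧
      FlowIrr A (fun _ : Unit => Ad (fun _ => x0⁻¹) (fun _ => ξ)) ∧
      IsHaar A.V (fun _ => x0) (FlY.μ.map (fun y _ => y)) := by
  have hcm : Measurable fun (y : NM m) (_ : Unit) => y := measurable_pi_lambda _ fun _ => measurable_id
  have hact : ∀ t : ℝ, Measurable (act (E (t • fun _ : Unit => ξ)) : (Unit → NM m) → _) := fun t =>
    measurable_pi_lambda _ fun i =>
      (continuous_const_smul (expU (t • ξ))).measurable.comp (measurable_pi_apply i)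
  have hcomm : ∀ t : ℝ, act (E (t • fun _ : Unit => ξ)) ∘ (fun (y : NM m) (_ : Unit) => y) =
      (fun (y : NM m) (_ : Unit) => y) ∘ FlY.T t := by
    intro t
    funext y u
    show expU (t • ξ) • y = FlY.T t y
    rw [hT]
  have hprob : IsProbabilityMeasure (FlY.μ.map (fun (y : NM m) (_ : Unit) => y)) :=
    Measure.isProbabilityMeasure_map hcm.aemeasurable
  obtain ⟨x0, A, h1, h2, h3⟩ := hClass Unit m Unit (fun _ _ => ξ) (fun _ _ => hξ)
    (FlY.μ.map (fun y _ => y)) hprob (fun _ t => by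
      refine ⟨hact t, ?_⟩
      rw [Measure.map_map (hact t) hcm]
      have := hcomm t
      rw [show act (E (t • (fun _ : Unit => ξ))) ∘ (fun (y : NM m) (_ : Unit) => y) = _ from this,
        ← Measure.map_map hcm (FlY.measT t), (FlY.mp t).map_eq])
    (fun B hB hinv => by
      have h1 : (fun (y : NM m) (_ : Unit) => y) ⁻¹' (act (E (θ • fun _ : Unit => ξ)) ⁻¹' B) =
          (fun (y : NM m) (_ : Unit) => y) ⁻¹' B := by rw [hinv () θ]
      rw [← Set.preimage_comp, hcomm θ, Set.preimage_comp] at h1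
      rw [Measure.map_apply hcm hB]
      have h2 := hE.measure_self_or_compl_eq_zero (hcm hB) h1
      rcases h2 with h2 | h2
      · left; exact h2
      · right
        exact (prob_compl_eq_zero_iff (hcm hB)).1 h2)
  exact ⟨x0 (), A, h1 (), h2, h3⟩

/-- The point `x₀` is in the support. -/
lemma supp_pos {m d : ℕ} {x0 : UT m} {P : PG d} {ψ : P.Gp →* UT m} (hψ : Continuous ψ)
    {ν : Measure (NM m)} (hν : ν = (volume.restrict (box d)).map (qm x0 ψ)) {O : Set (NM m)}
    (hO : IsOpen O) (hx : ((x0 : UT m) : NM m) ∈ O) : 0 < ν O := by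
  have hq := continuous_qm (x0 := x0) hψ
  rw [hν, Measure.map_apply hq.measurable hO.measurableSet,
    Measure.restrict_apply' (LiftGrp.measurableSet_box d)]
  have h0 : (0 : Fin d → ℝ) ∈ qm x0 ψ ⁻¹' O := by
    show ((x0 * ψ (0 : Fin d → ℝ) : UT m) : NM m) ∈ O
    rw [psi_zero, mul_one]
    exact hx
  obtain ⟨ε, hε, hball⟩ := Metric.isOpen_iff.1 (hO.preimage hq) 0 h0
  set U : Set (Fin d → ℝ) := (qm x0 ψ ⁻¹' O) ∩ Set.univ.pi fun _ => Set.Ioo (0 : ℝ) 1 with hU
  have hUo : IsOpen U := (hO.preimage hq).inter (isOpen_set_pi Set.finite_univ fun _ _ => isOpen_Ioo)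
  have hUn : U.Nonempty := by
    refine ⟨fun _ => min (ε / 2) (1 / 2), hball ?_, fun j _ => ⟨?_, ?_⟩⟩
    · rw [Metric.mem_ball, dist_pi_lt_iff hε]
      intro j
      rw [Pi.zero_apply, Real.dist_eq, sub_zero, abs_of_pos (lt_min (by linarith) (by norm_num))]
      exact (min_le_left _ _).trans_lt (by linarith)
    · exact lt_min (by linarith) (by norm_num)
    · exact (min_le_right _ _).trans_lt (by norm_num)
  have hUb : U ⊆ qm x0 ψ ⁻¹' O ∩ box d := fun z hz =>
    ⟨hz.1, fun j => ⟨(hz.2 j (Set.mem_univ j)).1.le, (hz.2 j (Set.mem_univ j)).2⟩⟩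
  exact (hUo.measure_pos volume hUn).trans_le (measure_mono hUb)

section
variable {α : Type} [mα : MeasurableSpace α] [StandardBorelSpace α]

/-- `id × g` preserves the square. -/
lemma mp_idg {X : Sys α} {g : α → α} {n : ℕ} (hg : X.SidePres g (n + 1)) :
    MeasurePreserving (Prod.map id (cmap g)) (relSq (X.inv_le n) (X.cm n))
      (relSq (X.inv_le n) (X.cm n)) := by
  have h1 := hg 0 true
  have h2 : (Prod.map id (cmap g) : Cube n α × Cube n α → _) =
      (fun x : Cube (n + 1) α => (lo x, hi x)) ∘ appOn g (side 0 true) ∘ join := by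
    funext p
    show _ = (lo (appOn g (side 0 true) (join p)), hi (appOn g (side 0 true) (join p)))
    rw [AutM.appOn_join_true, lo_join, hi_join]
  rw [h2]
  exact (X.mp_split n).comp (h1.comp (X.mp_join n))

/-- the square of a factor map -/
lemma mp_pp {β : Type} [MeasurableSpace β] [StandardBorelSpace β] {X : Sys α} {Y : Sys β}
    {p : α → β} {n : ℕ} (h : MeasurePreserving (cmap p : Cube (n + 1) α → Cube (n + 1) β)
      (X.cm (n + 1)) (Y.cm (n + 1))) :
    MeasurePreserving (Prod.map (cmap p) (cmap p)) (relSq (X.inv_le n) (X.cm n))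
      (relSq (Y.inv_le n) (Y.cm n)) := by
  have h2 : (Prod.map (cmap p) (cmap p) : Cube n α × Cube n α → Cube n β × Cube n β) =
      (fun x : Cube (n + 1) β => (lo x, hi x)) ∘ cmap p ∘ join := by
    funext q
    show _ = (lo (cmap p (join q)), hi (cmap p (join q)))
    rw [Sys.cmap_join, lo_join, hi_join]
  rw [h2]
  exact (Y.mp_split n).comp (h.comp (X.mp_join n))

omit mα [StandardBorelSpace α] in
lemma cp_mulg (f g : α → ℂ) (n : ℕ) (x : Cube n α) :
    cp (fun y => f y * g y) n x = cp f n x * cp g n x := by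
  unfold cp
  rw [← Finset.prod_mul_distrib]
  exact Finset.prod_congr rfl fun ε _ => sg_mul ε _ _

omit [StandardBorelSpace α] in
lemma int_norm_le_sqrt {μ : Measure α} [IsProbabilityMeasure μ] {f g : α → ℂ} (hf : Bdd f)
    (hg : Bdd g) : ∫ x, ‖f x - g x‖ ∂μ ≤ Real.sqrt (dist2 μ f g) := by
  have hint : MemLp (fun y => ‖f y - g y‖) 2 μ := ((hf.sub hg).memLp μ 2).norm
  refine Real.le_sqrt_of_sq_le ?_
  have hvar := ProbabilityTheory.variance_nonneg (fun y => ‖f y - g y‖) μ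
  rw [ProbabilityTheory.variance_eq_sub hint] at hvar
  have : dist2 μ f g = ∫ y, ((fun y => ‖f y - g y‖) ^ 2) y ∂μ := rfl
  rw [this]
  linarith

/-- The derivative of the cube cocycle along the flow. -/
lemma der_flow (hFac : SpecFac) (hFS : SpecFlowSide) {m : ℕ} [StandardBorelSpace (NM m)]
    (Fl : Flow α) (FlY : Flow (NM m)) (θ : ℝ) (hE : (Fl.sys θ).Erg) {π : α → NM m}
    (hfm : FMap (Fl.sys θ) (FlY.sys θ) π)
    (d : ℕ) {φ : α → ℂ} {K : Cube (d + 2) (NM m) → ℂ} (hφ : IsPhase φ) (hK : IsPhase K)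
    (hφK : ∀ᵐ x ∂((Fl.sys θ).cm (d + 2)), cp φ (d + 2) x = K (cmap π x)) (t : ℝ)
    (hπT : ∀ᵐ x ∂Fl.μ, π (Fl.T t x) = FlY.T t (π x)) {R : NM m → ℂ} (hRph : IsPhase R)
    (hR : ∀ᵐ x ∂Fl.μ, φ (Fl.T t x) = R (π x) * φ x) :
    (FlY.sys θ).Der (FlY.T t) (d + 1) K (cp R (d + 1)) := by
  set X := Fl.sys θ with hX
  set Y := FlY.sys θ with hY
  have h1 := mp_pp (X := X) (Y := Y) (n := d + 1) (hFac α (NM m) X Y π hfm (d + 2)).1
  have h2 := mp_idg (X := X) (n := d + 1) (hFS α Fl θ t hE (d + 2)).1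
  have hTc : Measurable (cmap (FlY.T t) : Cube (d + 1) (NM m) → _) := measurable_cmap (FlY.measT t)
  have hms : MeasurableSet {p : Cube (d + 1) (NM m) × Cube (d + 1) (NM m) |
      cp R (d + 1) p.2 = K (join p) * conj (K (join (p.1, cmap (FlY.T t) p.2)))} := by
    refine measurableSet_eq_fun ((measurable_cp hRph.1 (d + 1)).comp measurable_snd) ?_
    refine (hK.1.comp measurable_join).mul (Complex.continuous_conj.measurable.comp
      (hK.1.comp (measurable_join.comp (measurable_fst.prodMk (hTc.comp measurable_snd)))))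
  unfold Sys.Der
  rw [← h1.map_eq]
  refine (ae_map_iff h1.measurable.aemeasurable hms).2 ?_
  have hsnd := mp_relSq_snd (X.inv_le (d + 1)) (X.cm (d + 1))
  have e1 : ∀ᵐ q ∂(relSq (X.inv_le (d + 1)) (X.cm (d + 1))),
      cp φ (d + 2) (join q) = K (cmap π (join q)) :=
    (X.mp_join (d + 1)).quasiMeasurePreserving.ae hφK
  have e2 := h2.quasiMeasurePreserving.ae e1
  have e3 : ∀ᵐ q ∂(relSq (X.inv_le (d + 1)) (X.cm (d + 1))),
      cp (fun x => φ (Fl.T t x)) (d + 1) q.2 = cp (fun x => R (π x) * φ x) (d + 1) q.2 :=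
    hsnd.quasiMeasurePreserving.ae (Inv99M.cp_congr_ae (X := X) hR (d + 1))
  have e4 : ∀ᵐ q ∂(relSq (X.inv_le (d + 1)) (X.cm (d + 1))),
      ∀ ε, π (Fl.T t (q.2 ε)) = FlY.T t (π (q.2 ε)) := by
    refine ae_all_iff.2 fun ε => ?_
    exact hsnd.quasiMeasurePreserving.ae ((X.mp_marg (d + 1) ε).quasiMeasurePreserving.ae hπT)
  filter_upwards [e1, e2, e3, e4] with q f1 f2 f3 f4
  rw [cp_join, Sys.cmap_join] at f1 f2
  rw [cp_mulg] at f3
  have f5 : (Prod.map (cmap π) (cmap π) (Prod.map id (cmap (Fl.T t)) q) :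
      Cube (d + 1) (NM m) × Cube (d + 1) (NM m)) =
      (cmap π q.1, cmap (FlY.T t) (cmap π q.2)) := by
    refine Prod.ext rfl ?_
    funext ε
    exact f4 ε
  rw [f5] at f2
  show cp R (d + 1) (cmap π q.2) = K (join (Prod.map (cmap π) (cmap π) q)) *
    conj (K (join (cmap π q.1, cmap (FlY.T t) (cmap π q.2))))
  rw [← f1, ← f2]
  have f6 : cp φ (d + 1) (Prod.map id (cmap (Fl.T t)) q).2 =
      cp R (d + 1) (cmap π q.2) * cp φ (d + 1) q.2 := f3
  have f7 : cp φ (d + 1) (Prod.map id (cmap (Fl.T t)) q).1 = cp φ (d + 1) q.1 := rfl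
  rw [f6, f7, map_mul, Complex.conj_conj]
  have f8 := (hφ.cp (d + 1)).mul_conj q.1
  have f9 := (hφ.cp (d + 1)).conj_mul q.2
  calc cp R (d + 1) (cmap π q.2) = (cp φ (d + 1) q.1 * conj (cp φ (d + 1) q.1)) *
        (conj (cp φ (d + 1) q.2) * cp φ (d + 1) q.2) * cp R (d + 1) (cmap π q.2) := by
        rw [f8, f9]; ring
    _ = _ := by ring

end

end BFinM

open BFinM LiftM MPd26.Nil in
theorem specNilPhase (hClass : SpecClass) (hMal : SpecMal) (hCh : SpecChart) (hYS : SpecYSide)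
    (hCF : SpecCCocFac) (hRho : SpecRho) (hLift : SpecLift) (hEmb : SpecEmbed) (hFac : SpecFac)
    (hFS : SpecFlowSide) (hFC : SpecFlowCont) (hV : SpecVol) (hCore : SpecCore) (hExt : SpecExt)
    (hNX : SpecNilX) (hc : ∀ m, CompactSpace (NM m)) : SpecNilPhase := by
  classical
  intro α _ _ Fl θ hF hE m π hπ d φ K hφ hK hφK
  have hπ' := hπ
  obtain ⟨hπm, ξ, hξ, hπξ⟩ := hπ'
  have : StandardBorelSpace (NM m) := standardBorel_NM (hc m)
  set FlY := flY Fl hπm hξ hπξ with hFlY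
  set X := Fl.sys θ with hX
  set Y := FlY.sys θ with hY
  have hfm : FMap X Y π := fmapY Fl hπm hξ hπξ θ
  have hEY : Y.Erg := fmap_erg hfm hE
  obtain ⟨x0, A, hAd, hirr, hHaar⟩ := class_data hClass FlY hξ (fun t y => rfl) θ hEY
  obtain ⟨dd, P, ψ, hψc, hψi, hψr, hLT, hone, hlaw⟩ := hMal m A
  obtain ⟨a, hac, ha, hψa⟩ := hone _ hAd
  have hqm : Measurable (qm x0 ψ) := (continuous_qm (x0 := x0) hψc).measurable
  have hcm : Measurable fun (y : NM m) (_ : Unit) => y :=
    measurable_pi_lambda _ fun _ => measurable_id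
  have hback : FlY.μ = (FlY.μ.map (fun (y : NM m) (_ : Unit) => y)).map (fun z => z ()) := by
    rw [Measure.map_map (measurable_pi_apply ()) hcm]
    exact Measure.map_id.symm
  -- the law
  have hν : FlY.μ = (volume.restrict (box dd)).map (qm x0 ψ) := by
    have h1 : FlY.μ.map (fun (y : NM m) (_ : Unit) => y) =
        (volume.restrict (box dd)).map (fun (z : Fin dd → ℝ) (_ : Unit) => qm x0 ψ z) :=
      hlaw x0 _ hHaar
    rw [hback, h1, Measure.map_map (measurable_pi_apply ())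
      (measurable_pi_lambda _ fun _ => hqm)]
    rfl
  obtain ⟨b, hb⟩ := hCh m x0 dd P ψ hψc hψi hLT FlY.μ hν
  -- the one-parameter group
  have hGa : ∀ t, Gm x0 ψ (a t) = expU (t • ξ) := by
    intro t
    have h1 := (expU_conj x0⁻¹ (hξ.smul t)).2
    have h2 : ψ (a t) = x0⁻¹ * expU (t • ξ) * (x0⁻¹)⁻¹ := by
      rw [hψa t, ← h1]
      show expU (t • ((x0⁻¹).mat * ξ * ((x0⁻¹)⁻¹).mat)) = _
      rw [Matrix.mul_smul, Matrix.smul_mul]
    show x0 * ψ (a t) * x0⁻¹ = _
    rw [h2]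
    group
  have hT : ∀ t y, FlY.T t y = Gm x0 ψ (a t) • y := fun t y => by
    rw [hGa]
    rfl
  -- `K` as a phase
  set K' : Cube (d + 2) (NM m) → ℂ := fun x => if ‖K x‖ = 1 then K x else 1 with hK'
  have hK'ph : IsPhase K' := by
    refine ⟨Measurable.ite (hK.norm (measurableSet_singleton 1)) hK measurable_const, fun x => ?_⟩
    by_cases h : ‖K x‖ = 1
    · simp only [hK', h, if_true]
    · simp only [hK', h, if_false, norm_one]
  have hφK' : ∀ᵐ x ∂(X.cm (d + 2)), cp φ (d + 2) x = K' (cmap π x) := by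
    filter_upwards [hφK] with x hx
    have h1 : ‖K (cmap π x)‖ = 1 := by
      rw [← hx]
      exact (hφ.cp (d + 2)).2 x
    simp only [hK', h1, if_true, hx]
  have hCC : Y.CCoc (d + 1) K' := hCF α (NM m) X Y π hfm (d + 1) φ K' hφ hK'ph hφK'
  -- the group acts on the cubes
  have hVz : ∀ z : Fin dd → ℝ, (fun _ : Unit => logU (ψ z)) ∈ A.V := by
    intro z
    have h1 : ψ z ∈ Set.range ψ := ⟨z, rfl⟩
    rw [hψr] at h1
    exact h1
  have hEz : ∀ z : Fin dd → ℝ, E (fun _ : Unit => logU (ψ z)) () = ψ z := fun z => expU_logU _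
  have hside : ∀ (z : Fin dd → ℝ) (k : ℕ),
      Y.SidePres (fun y : NM m => (x0 * ψ z * x0⁻¹) • y) k := by
    intro z k
    have h1 := hYS m ξ hξ FlY θ (fun _ _ => rfl) hEY x0 A hAd hirr hHaar
      (fun O hO hx => supp_pos hψc hν hO hx) _ (hVz z) k
    rw [hEz z] at h1
    exact h1
  have hmp : ∀ z : Fin dd → ℝ,
      MeasurePreserving (fun y : NM m => (x0 * ψ z * x0⁻¹) • y) Y.μ Y.μ := by
    intro z
    have h1 := hHaar.inv _ (hVz z)
    refine ⟨(continuous_const_smul _).measurable, ?_⟩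
    have h2 : (fun y : NM m => (x0 * ψ z * x0⁻¹) • y) =
        (fun w : Unit → NM m => w ()) ∘ act ((fun _ => x0) * E (fun _ : Unit => logU (ψ z)) *
          (fun _ => x0)⁻¹) ∘ (fun (y : NM m) (_ : Unit) => y) := by
      funext y
      show _ = (x0 * E (fun _ : Unit => logU (ψ z)) () * x0⁻¹) • y
      rw [hEz z]
    show FlY.μ.map _ = FlY.μ
    rw [h2, ← Measure.map_map (measurable_pi_apply ()) (h1.measurable.comp hcm),
      ← Measure.map_map h1.measurable hcm, h1.map_eq, ← hback]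
  have hL := hLift m dd Y x0 P ψ b d K' hEY hb hψc hLT hCC hside hmp
  -- the multipliers
  choose R hRph hR using fun t => hRho α Fl θ hF hE m π hπ d φ K' hφ hK'ph.1 hφK' t
  have hπb : ∀ᵐ x ∂Fl.μ, qm x0 ψ (b (π x)) = π x := ae_of_ae_map hπm.aemeasurable hb.left
  set ρ : ℝ → (Fin dd → ℝ) → ℂ := fun t z => R t (qm x0 ψ z) with hρdef
  have hρ : ∀ t, P.RPh (ρ t) := by
    intro t
    refine ⟨⟨(hRph t).1.comp hqm, fun z => (hRph t).2 _⟩, fun z γ hγ => ?_⟩
    show R t (qm x0 ψ (P.mul z γ)) = R t (qm x0 ψ z)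
    rw [qm_int hLT hγ]
  have hLρ : ∀ t, LiftP Y x0 P ψ b d K' (a t) (ρ t) := by
    intro t
    refine ⟨hρ t, ?_⟩
    have h1 : Y.Der (FlY.T t) (d + 1) K' (cp (R t) (d + 1)) :=
      der_flow hFac hFS Fl FlY θ hE hfm d hφ hK'ph hφK' t (hπξ t) (hRph t) (hR t)
    have h2 : cp (R t) (d + 1) =ᵐ[Y.cm (d + 1)] cp (fun y => ρ t (b y)) (d + 1) := by
      refine Inv99M.cp_congr_ae (X := Y) ?_ (d + 1)
      filter_upwards [hb.left] with y hy
      show R t y = R t (qm x0 ψ (b y))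
      rw [hy]
    have h3 := der_congr h1 h2
    have h4 : FlY.T t = fun y => (x0 * ψ (a t) * x0⁻¹) • y := by
      funext y
      rw [hT]
      rfl
    rw [h4] at h3
    exact h3
  have hcoc : ∀ s t, ∀ᵐ z, ρ (s + t) z = ρ s (P.mul (a t) z) * ρ t z := by
    intro s t
    refine LiftGrp.ae_of_box hV P (hρ (s + t)) (rph_mul (hρ s) (hρ t) (a t)) ?_
    have hms : MeasurableSet {y | R (s + t) y = R s (FlY.T t y) * R t y} :=
      measurableSet_eq_fun (hRph _).1 (((hRph s).1.comp (FlY.measT t)).mul (hRph t).1)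
    have h1 : ∀ᵐ y ∂FlY.μ, R (s + t) y = R s (FlY.T t y) * R t y := by
      refine (ae_map_iff hπm.aemeasurable hms).2 ?_
      filter_upwards [hR (s + t), hR t, (Fl.mp t).quasiMeasurePreserving.ae (hR s), hπξ t]
        with x e1 e2 e3 e4
      rw [Fl.T_add, e3, e2, e4] at e1
      have hφ0 : φ x ≠ 0 := by
        intro h
        have := hφ.2 x
        rw [h, norm_zero] at this
        exact zero_ne_one this
      refine mul_right_cancel₀ hφ0 ?_
      rw [← e1]
      show R s (expU (t • ξ) • π x) * (R t (π x) * φ x) =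
        R s (expU (t • ξ) • π x) * R t (π x) * φ x
      ring
    have h2 : ∀ᵐ z ∂(volume.restrict (box dd)),
        R (s + t) (qm x0 ψ z) = R s (FlY.T t (qm x0 ψ z)) * R t (qm x0 ψ z) := by
      rw [hν] at h1
      exact ae_of_ae_map hqm.aemeasurable h1
    filter_upwards [h2] with z hz
    show R (s + t) (qm x0 ψ z) = R s (qm x0 ψ (P.mul (a t) z)) * R t (qm x0 ψ z)
    rw [hz, hT, Gm_smul_qm]
  have hcont : ∀ t₀, Tendsto (fun t => bd (ρ t) (ρ t₀)) (𝓝 t₀) (𝓝 0) := by
    intro t₀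
    have h1 : ∀ t, bd (ρ t) (ρ t₀) = ∫ x, ‖R t (π x) - R t₀ (π x)‖ ∂Fl.μ := by
      intro t
      have hm : Measurable fun y => ‖R t y - R t₀ y‖ := ((hRph t).1.sub (hRph t₀).1).norm
      have e1 : ∫ z in box dd, ‖ρ t z - ρ t₀ z‖ =
          ∫ y, ‖R t y - R t₀ y‖ ∂((volume.restrict (box dd)).map (qm x0 ψ)) :=
        (integral_map hqm.aemeasurable hm.aestronglyMeasurable).symm
      unfold bd
      rw [e1, ← hν]
      exact integral_map hπm.aemeasurable hm.aestronglyMeasurable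
    have h2 : ∀ t, bd (ρ t) (ρ t₀) ≤
        Real.sqrt (dist2 Fl.μ (fun x => φ (Fl.T (t - t₀) x)) φ) := by
      intro t
      rw [h1]
      have e1 : ∫ x, ‖R t (π x) - R t₀ (π x)‖ ∂Fl.μ =
          ∫ x, ‖φ (Fl.T t x) - φ (Fl.T t₀ x)‖ ∂Fl.μ := by
        refine integral_congr_ae ?_
        filter_upwards [hR t, hR t₀] with x e1 e2
        rw [e1, e2, ← sub_mul, norm_mul, hφ.2, mul_one]
      have e2 : dist2 Fl.μ (fun x => φ (Fl.T (t - t₀) x)) φ =
          dist2 Fl.μ (fun x => φ (Fl.T t x)) (fun x => φ (Fl.T t₀ x)) := by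
        rw [← dist2_comp (Fl.mp t₀) (f := fun x => φ (Fl.T (t - t₀) x)) (g := φ)
          (hφ.1.comp (Fl.measT _)) hφ.1]
        congr 1
        funext x
        rw [← Fl.T_add, sub_add_cancel]
      rw [e1, e2]
      exact int_norm_le_sqrt (hφ.comp (Fl.measT t)).bdd (hφ.comp (Fl.measT t₀)).bdd
    have h3 : Tendsto (fun t => Real.sqrt (dist2 Fl.μ (fun x => φ (Fl.T (t - t₀) x)) φ))
        (𝓝 t₀) (𝓝 0) := by
      have e1 := hFC α Fl φ hφ.bdd
      have e2 : Tendsto (fun t : ℝ => t - t₀) (𝓝 t₀) (𝓝 0) :=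
        tendsto_sub_nhds_zero_iff.2 tendsto_id
      have e3 := (e1.comp e2).sqrt
      rw [Real.sqrt_zero] at e3
      exact e3
    exact squeeze_zero (fun t => LiftGrp.bd_nonneg _ _) h2 h3
  -- section 5
  obtain ⟨c, f, θ', hcoc', hpoly, hcint, hfph, hθc, -, hθ, hfγ, hρf⟩ :=
    hCore dd P _ hL a ρ hac ha hLρ hcoc hcont
  obtain ⟨A', hA'⟩ := hExt dd P c hcoc' hpoly hcint
  obtain ⟨p, Φ, hp, hpb, hΦ, hφΦ, hpT⟩ := hNX dd P A' c f θ' a ρ hfph ha hθ hA' hfγ hρf hρ α Fl.μ
    Fl.T (fun x => b (π x)) φ Fl.mp (hb.meas.comp hπm) (fun x => hb.mem _)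
    (by
      intro s hs
      have h1 : (FlY.μ.map b) s = 0 := by
        rw [hb.law]
        exact le_antisymm ((Measure.restrict_le_self s).trans hs.le) bot_le
      have h2 : FlY.μ (b ⁻¹' s) = 0 := (Measure.QuasiMeasurePreserving.preimage_null
        ⟨hb.meas, Measure.AbsolutelyContinuous.rfl⟩ h1)
      exact (Measure.QuasiMeasurePreserving.preimage_null
        ⟨hπm, Measure.AbsolutelyContinuous.rfl⟩ h2))
    hφ
    (by
      intro t
      filter_upwards [hπξ t, hπb] with x h1 h2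
      obtain ⟨γ, hγ, h3⟩ := hb.right (P.mul (a t) (b (π x)))
      refine ⟨γ, hγ, ?_⟩
      have h4 : qm x0 ψ (P.mul (a t) (b (π x))) = π (Fl.T t x) := by
        rw [← Gm_smul_qm, h2, h1, hGa]
      rw [h4] at h3
      exact h3.symm)
    (by
      intro t
      filter_upwards [hR t, hπb] with x h1 h2
      show φ (Fl.T t x) = R t (qm x0 ψ (b (π x))) * φ x
      rw [h2, h1])
  obtain ⟨m', π', h, h1, h2, h3⟩ := hEmb (dd + 1) A' α Fl
    (fun t => (Fin.snoc (a t) (θ' t) : Fin (dd + 1) → ℝ)) p Φ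
    (by
      refine continuous_pi fun j => ?_
      refine Fin.lastCases ?_ (fun i => ?_) j
      · simp only [Fin.snoc_last]
        exact hθc
      · simp only [Fin.snoc_castSucc]
        exact (continuous_apply i).comp hac)
    (by
      intro s t
      show (Fin.snoc (a (s + t)) (θ' (s + t)) : Fin (dd + 1) → ℝ) = A'.mul _ _
      rw [hA', hθ, ha]
      rfl) hp hpb hΦ hpT
  exact ⟨m', π', h, h1, h2, ae_of_all _ fun x => (hφΦ x).trans (h3 x)⟩

end MPd26.HK
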