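import Pool.Agent.Lib.MP_d26cd8_an.HK.SymCp

/-!
# MP_d26cd8_an, module Inv99 (Theorem 2.2, relative 99 percent inverse theorem)
-/

set_option autoImplicit false

open MeasureTheory ProbabilityTheory Filter Topology
open scoped ComplexConjugate ENNReal

namespace MPd26.HK
namespace Inv99M

open PhM SepM PhDerM SymCpM

section Gen
variable {Ω : Type} [mΩ : MeasurableSpace Ω] {μ : Measure Ω}

lemma dist2_mono {f g f' g' : Ω → ℂ} (hf : Bdd f') (hg : Bdd g') [IsFiniteMeasure μ]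
    (h : ∀ x, ‖f x - g x‖ ≤ ‖f' x - g' x‖) : dist2 μ f g ≤ dist2 μ f' g' := by
  unfold dist2
  refine integral_mono_of_nonneg (ae_of_all _ fun x => by positivity) ?_
    (ae_of_all _ fun x => pow_le_pow_left₀ (norm_nonneg _) (h x) 2)
  obtain ⟨hm, C, hC⟩ := hf.sub hg
  refine Integrable.of_bound (hm.norm.pow_const 2).aestronglyMeasurable (C ^ 2)
    (ae_of_all _ fun x => ?_)
  rw [Real.norm_eq_abs, abs_of_nonneg (by positivity)]
  exact pow_le_pow_left₀ (norm_nonneg _) (hC x) 2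

/-- normalisation of a complex number -/
noncomputable def nz (w : ℂ) : ℂ := open Classical in if w = 0 then 1 else w / (‖w‖ : ℂ)

lemma norm_nz (w : ℂ) : ‖nz w‖ = 1 := by
  unfold nz
  split_ifs with h
  · simp
  · rw [norm_div, Complex.norm_real, norm_norm, div_self (norm_ne_zero_iff.2 h)]

lemma measurable_nz : Measurable nz := by
  unfold nz
  refine Measurable.ite (measurableSet_singleton 0) measurable_const ?_
  exact measurable_id.div (Complex.measurable_ofReal.comp measurable_norm)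

lemma nz_dist {z w : ℂ} (hz : ‖z‖ = 1) : ‖z - nz w‖ ≤ ‖(2 : ℂ) * z - (2 : ℂ) * w‖ := by
  rw [← mul_sub, norm_mul]
  have h2 : ‖(2 : ℂ)‖ = 2 := by simp
  rw [h2]
  by_cases h : w = 0
  · have : nz w = 1 := by unfold nz; simp [h]
    rw [this, h, sub_zero, hz]
    calc ‖z - 1‖ ≤ ‖z‖ + ‖(1 : ℂ)‖ := norm_sub_le _ _
      _ = 2 * 1 := by rw [hz, norm_one]; ring
  · have hw : ‖w‖ ≠ 0 := norm_ne_zero_iff.2 h
    have e1 : nz w = w / (‖w‖ : ℂ) := by unfold nz; simp [h]
    have e2 : ‖w - nz w‖ = |‖w‖ - 1| := by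
      have : w - nz w = nz w * ((‖w‖ - 1 : ℝ) : ℂ) := by
        rw [e1]
        have hw' : (‖w‖ : ℂ) ≠ 0 := by exact_mod_cast hw
        push_cast
        field_simp
      rw [this, norm_mul, norm_nz, one_mul, Complex.norm_real, Real.norm_eq_abs]
    have e3 : |‖w‖ - 1| ≤ ‖z - w‖ := by
      rw [← hz, abs_sub_comm]
      exact abs_norm_sub_norm_le z w
    calc ‖z - nz w‖ = ‖(z - w) + (w - nz w)‖ := by congr 1; ring
      _ ≤ ‖z - w‖ + ‖w - nz w‖ := norm_add_le _ _
      _ ≤ 2 * ‖z - w‖ := by rw [e2]; linarith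

lemma dist2_two_mul (f g : Ω → ℂ) :
    dist2 μ (fun x => (2 : ℂ) * f x) (fun x => (2 : ℂ) * g x) = 4 * dist2 μ f g := by
  unfold dist2
  rw [← integral_const_mul]
  congr 1; funext x
  rw [← mul_sub, norm_mul, mul_pow]
  norm_num

lemma sqrt_le_of_sq_le {a b : ℝ} (hb : 0 ≤ b) (h : a ≤ b ^ 2) : Real.sqrt a ≤ b :=
  Real.sqrt_le_iff.2 ⟨hb, h⟩

lemma le_sq_of_sqrt_le {a b : ℝ} (ha : 0 ≤ a) (h : Real.sqrt a ≤ b) : a ≤ b ^ 2 := by
  have h1 := Real.sq_sqrt ha
  have h2 := Real.sqrt_nonneg a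
  nlinarith

end Gen

section Sys
variable {α : Type} [mα : MeasurableSpace α] [StandardBorelSpace α] (X : Sys α)

/-- the cube measure `μ^[1]` as image of `μ × μ` -/
lemma mp_one (hX : X.Erg) :
    MeasurePreserving (fun p : α × α => (join (pt p.1, pt p.2) : Cube 1 α)) (X.μ.prod X.μ)
      (X.cm 1) := by
  have h1 : MeasurePreserving (pt : α → Cube 0 α) X.μ (X.cm 0) := ⟨measurable_pt, rfl⟩
  have h2 : MeasurePreserving (Prod.map pt pt : α × α → Cube 0 α × Cube 0 α) (X.μ.prod X.μ)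
      ((X.cm 0).prod (X.cm 0)) := h1.prod h1
  have h3 : MeasurePreserving (join : Cube 0 α × Cube 0 α → Cube 1 α)
      ((X.cm 0).prod (X.cm 0)) (X.cm 1) := by
    rw [← relSq_zero X hX]
    exact X.mp_join 0
  exact h3.comp h2

/-- Lipschitz bound for `cp` -/
lemma sqrt_dist2_cp {f g : α → ℂ} (hf : IsPhase f) (hg : IsPhase g) (n : ℕ) :
    Real.sqrt (dist2 (X.cm n) (cp f n) (cp g n)) ≤ 2 ^ n * Real.sqrt (dist2 X.μ f g) := by
  induction n with
  | zero =>
    have h1 : ∀ f : α → ℂ, cp f 0 = fun x => f (x v0) := fun f => by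
      funext x; exact cp_zero f x
    rw [h1, h1, dist2_comp (X.mp_marg 0 v0) hf.1 hg.1]
    simp
  | succ n ih =>
    have h1 : ∀ f : α → ℂ, cp f (n + 1) = fun x => cp f n (lo x) * conj (cp f n (hi x)) := fun f => by
      funext x; exact cp_succ f x
    rw [h1, h1]
    have h2 := sqrt_dist2_mul (μ := X.cm (n + 1)) ((hf.cp n).comp measurable_lo)
      ((hg.cp n).comp measurable_lo) ((hf.cp n).comp measurable_hi).conj
      ((hg.cp n).comp measurable_hi).conj (a := 2 ^ n * Real.sqrt (dist2 X.μ f g))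
      (b := 2 ^ n * Real.sqrt (dist2 X.μ f g)) ?_ ?_
    · refine h2.trans (le_of_eq ?_)
      rw [pow_succ]; ring
    · rw [dist2_comp (X.mp_lo n) (measurable_cp hf.1 n) (measurable_cp hg.1 n)]
      exact ih
    · rw [dist2_conj (fun x => cp f n (hi x)) (fun x => cp g n (hi x)),
        dist2_comp (X.mp_hi n) (measurable_cp hf.1 n) (measurable_cp hg.1 n)]
      exact ih

lemma cp_congr_ae {f g : α → ℂ} (h : f =ᵐ[X.μ] g) (n : ℕ) : cp f n =ᵐ[X.cm n] cp g n := by
  have h1 : ∀ ε : Vx n, ∀ᵐ x ∂(X.cm n), f (x ε) = g (x ε) := fun ε =>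
    (X.mp_marg n ε).quasiMeasurePreserving.ae_eq_comp h
  filter_upwards [ae_all_iff.2 h1] with x hx
  unfold cp
  exact Finset.prod_congr rfl fun ε _ => by rw [hx ε]

omit [StandardBorelSpace α] in
lemma appOn_inv {n : ℕ} (F : Set (Vx n)) (x : Cube n α) :
    appOn X.S.symm F (appOn X.S F x) = x := by
  classical
  funext ε
  unfold appOn
  by_cases h : ε ∈ F <;> simp [h]

/-- functions of modulus one with `N^[n+1]`-measurable derivatives along all sides -/
lemma meas_of_sides (hSS : SpecSideS) (hX : X.Erg) (N : X.Factor) {n : ℕ}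
    {G : Cube (n + 1) α → ℂ} (hG : IsPhase G)
    (hK : ∀ (i : Fin (n + 1)) (b : Bool), AEStronglyMeasurable[N.cube (n + 1)]
      (fun x => G (appOn X.S (side i b) x) * conj (G x)) (X.cm (n + 1)))
    {Q : Cube (n + 1) α → ℂ} (hQ : Measurable[N.cube (n + 1)] Q) (hQb : Bdd Q)
    (hd : dist2 (X.cm (n + 1)) G Q < 1) :
    AEStronglyMeasurable[N.cube (n + 1)] G (X.cm (n + 1)) := by
  have hle := cube_le N (n + 1)
  set w : Cube (n + 1) α → ℂ := (X.cm (n + 1))[G | N.cube (n + 1)] with hw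
  have hwm : Measurable w := (stronglyMeasurable_condExp (m := N.cube (n + 1))).measurable.mono
    hle le_rfl
  have hpres := (hSS α X (n + 1)).1
  have herg := (hSS α X n).2
  have key : ∀ (i : Fin (n + 1)) (b : Bool), ∀ᵐ x ∂(X.cm (n + 1)),
      w (appOn X.S (side i b) x) =
        (G (appOn X.S (side i b) x) * conj (G x)) * w x := by
    intro i b
    have h1 := condExp_comp (μ := X.cm (n + 1)) hle (hpres i b) (T' := appOn X.S.symm (side i b))
      (appOn_inv X (side i b)) (measurable_appOn_cube N (n + 1) (measurable_S N) _)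
      (measurable_appOn_cube N (n + 1) (measurable_Ssymm N) _) (hG.bdd.integrable _)
    have hKp : IsPhase (fun x => G (appOn X.S (side i b) x) * conj (G x)) :=
      (hG.comp (hpres i b).measurable).mul hG.conj
    have h2 : (fun x => G (appOn X.S (side i b) x)) =
        fun x => (G (appOn X.S (side i b) x) * conj (G x)) * G x := by
      funext x
      rw [mul_assoc, hG.conj_mul, mul_one]
    have h3 := condExp_mul_left (m := N.cube (n + 1)) (μ := X.cm (n + 1)) (hK i b)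
      ((hKp.mul hG).bdd.integrable _) (hG.bdd.integrable _)
    rw [← h2] at h3
    filter_upwards [h1, h3] with x e1 e2
    exact e1.trans e2
  obtain ⟨d, hd'⟩ := herg hX (fun x => G x * conj (w x))
    (hG.1.mul (Complex.continuous_conj.measurable.comp hwm)) (fun i b => by
      filter_upwards [key i b] with x hx
      rw [hx]
      set T := appOn X.S (side i b) x
      have e1 := hG.mul_conj T
      have e2 := hG.conj_mul x
      simp only [map_mul, Complex.conj_conj]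
      calc G T * (conj (G T) * G x * conj (w x)) = (G T * conj (G T)) * (G x * conj (w x)) := by ring
        _ = _ := by rw [e1, one_mul])
  obtain ⟨c, hc⟩ := herg hX (fun x => w x * conj (w x))
    (hwm.mul (Complex.continuous_conj.measurable.comp hwm)) (fun i b => by
      filter_upwards [key i b] with x hx
      rw [hx]
      set T := appOn X.S (side i b) x
      have e1 := hG.mul_conj T
      have e2 := hG.conj_mul x
      simp only [map_mul, Complex.conj_conj]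
      calc G T * conj (G x) * w x * (conj (G T) * G x * conj (w x)) =
          (G T * conj (G T)) * ((conj (G x) * G x) * (w x * conj (w x))) := by ring
        _ = _ := by rw [e1, e2, one_mul, one_mul])
  have hc0 : c ≠ 0 := by
    intro h0
    have hw0 : w =ᵐ[X.cm (n + 1)] 0 := by
      filter_upwards [hc] with x hx
      rw [h0, Complex.mul_conj, Complex.ofReal_eq_zero, Complex.normSq_eq_zero] at hx
      exact hx
    have h1 := dist2_condExp_le hle hG.bdd hQb hQ.stronglyMeasurable.aestronglyMeasurable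
      (μ := X.cm (n + 1))
    rw [dist2_congr (Filter.EventuallyEq.refl _ G) hw0] at h1
    have h2 : dist2 (X.cm (n + 1)) G 0 = 1 := by
      unfold dist2
      simp only [Pi.zero_apply, sub_zero, hG.2]
      simp
    rw [h2] at h1
    linarith
  refine aesm_congr (f := fun x => (d / c) * w x)
    (stronglyMeasurable_condExp.const_mul _).aestronglyMeasurable ?_
  filter_upwards [hc, hd'] with x e1 e2
  rw [div_mul_eq_mul_div, eq_div_iff hc0, ← e1, ← e2]
  ring

omit [StandardBorelSpace α] in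
lemma iter_symm_apply (h : ℕ) (x : α) : X.S.symm^[h] (X.S^[h] x) = x :=
  (Function.LeftInverse.iterate (fun x => X.S.symm_apply_apply x) h) x

omit [StandardBorelSpace α] in
lemma appOn_iter {n : ℕ} (F : Set (Vx n)) (h : ℕ) (x : Cube n α) :
    appOn (X.S^[h]) F x = (appOn X.S F)^[h] x := by
  classical
  induction h with
  | zero =>
    funext ε
    unfold appOn
    by_cases h : ε ∈ F <;> simp [h]
  | succ h ih =>
    rw [Function.iterate_succ_apply', ← ih]
    funext ε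
    unfold appOn
    by_cases h' : ε ∈ F
    · simp only [h', if_true]
      exact Function.iterate_succ_apply' _ _ _
    · simp only [h', if_false]

lemma side_iter {n : ℕ} (hp : X.SidePres X.S n) (i : Fin n) (b : Bool) (h : ℕ) :
    MeasurePreserving (appOn (X.S^[h]) (side i b)) (X.cm n) (X.cm n) := by
  have : (appOn (X.S^[h]) (side i b) : Cube n α → Cube n α) = (appOn X.S (side i b))^[h] := by
    funext x; exact appOn_iter X _ h x
  rw [this]
  exact (hp i b).iterate h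

omit [StandardBorelSpace α] in
lemma measurable_iter (N : X.Factor) (h : ℕ) : Measurable[N.σ, N.σ] (X.S^[h]) :=
  @Measurable.iterate _ N.σ _ (measurable_S N) h

/-- base case -/
lemma base (hX : X.Erg) (N : X.Factor) {φ : α → ℂ} {Q : Cube 1 α → ℂ} (hφ : IsPhase φ)
    (hQb : Bdd Q) (hQ : Measurable[N.cube 1] Q) {δ : ℝ}
    (hd : dist2 (X.cm 1) (cp φ 1) Q ≤ δ / 4) :
    ∃ φ' : α → ℂ, X.Ph N 1 φ' ∧ dist2 X.μ φ φ' ≤ δ := by
  have h1 := dist2_comp (mp_one X hX) (hφ.cp 1).1 hQb.1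
  set j : α × α → Cube 1 α := fun p => join (pt p.1, pt p.2) with hj
  have hint : Integrable (fun p : α × α => ‖cp φ 1 (j p) - Q (j p)‖ ^ 2) (X.μ.prod X.μ) := by
    obtain ⟨hm, C, hC⟩ := (((hφ.cp 1).bdd).sub hQb).comp (mp_one X hX).measurable
    refine Integrable.of_bound (hm.norm.pow_const 2).aestronglyMeasurable (C ^ 2)
      (ae_of_all _ fun x => ?_)
    rw [Real.norm_eq_abs, abs_of_nonneg (by positivity)]
    exact pow_le_pow_left₀ (norm_nonneg _) (hC x) 2
  have h2 : dist2 (X.cm 1) (cp φ 1) Q = ∫ b, ∫ a, ‖cp φ 1 (j (a, b)) - Q (j (a, b))‖ ^ 2 ∂X.μ ∂X.μ := by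
    rw [← h1]
    unfold dist2
    exact integral_prod_symm _ hint
  obtain ⟨b, hb⟩ := exists_le_integral (μ := X.μ) hint.integral_prod_right
  rw [← h2] at hb
  set q : α → ℂ := fun a => Q (j (a, b)) * φ b with hq
  have hqm : Measurable[N.σ] q := by
    have hm : Measurable[N.σ, N.cube 1] (fun a : α => j (a, b)) := by
      refine @measurable_pi_lambda _ _ _ N.σ (fun _ => N.σ) _ fun ε => ?_
      simp only [hj]
      unfold join
      by_cases h : ε 0 = true
      · simp only [h, if_true]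
        exact @measurable_const _ _ N.σ N.σ _
      · simp only [h]
        exact @measurable_id _ N.σ
    exact (hQ.comp hm).mul_const _
  have hqb : Bdd q := by
    obtain ⟨_, C, hC⟩ := hQb
    exact ⟨hqm.mono N.le le_rfl, C, fun a => by
      simp only [hq]; rw [norm_mul, hφ.2, mul_one]; exact hC _⟩
  have h3 : dist2 X.μ φ q ≤ δ / 4 := by
    refine le_trans (le_of_eq ?_) (hb.trans hd)
    unfold dist2
    refine integral_congr_ae (ae_of_all _ fun a => ?_)
    have e1 : cp φ 1 (j (a, b)) = φ a * conj (φ b) := by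
      simp only [hj]
      rw [cp_join, cp_zero, cp_zero]; rfl
    have e2 : φ a - q a = (cp φ 1 (j (a, b)) - Q (j (a, b))) * φ b := by
      rw [e1, sub_mul, mul_assoc, hφ.conj_mul, mul_one]
    show ‖φ a - q a‖ ^ 2 = ‖cp φ 1 (j (a, b)) - Q (j (a, b))‖ ^ 2
    rw [e2, norm_mul, hφ.2, mul_one]
  refine ⟨fun a => nz (q a), ?_, ?_⟩
  · refine Ph.of_meas ⟨measurable_nz.comp hqb.1, fun a => norm_nz _⟩ ?_
    exact (measurable_nz.comp hqm).stronglyMeasurable.aestronglyMeasurable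
  · have h4 := dist2_mono (μ := X.μ) (f := φ) (g := fun a => nz (q a))
      (f' := fun a => (2 : ℂ) * φ a) (g' := fun a => (2 : ℂ) * q a)
      ((Bdd.const 2).mul hφ.bdd) ((Bdd.const 2).mul hqb) (fun a => nz_dist (hφ.2 a))
    rw [dist2_two_mul] at h4
    linarith

/-- products of functions bounded by one -/
lemma sqrt_dist2_mul_le {Ω : Type} [mΩ : MeasurableSpace Ω] {μ : Measure Ω}
    [IsProbabilityMeasure μ] {f f' g g' : Ω → ℂ} (hf : Bdd f) (hf' : Bdd f') (hg : Bdd g)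
    (hg' : Bdd g') (h1 : ∀ x, ‖g x‖ ≤ 1) (h2 : ∀ x, ‖f' x‖ ≤ 1) {a b : ℝ}
    (ha : Real.sqrt (dist2 μ f f') ≤ a) (hb : Real.sqrt (dist2 μ g g') ≤ b) :
    Real.sqrt (dist2 μ (fun x => f x * g x) (fun x => f' x * g' x)) ≤ a + b := by
  refine sqrt_dist2_le_two (g := fun x => f' x * g x) (hf.mul hg) (hf'.mul hg) (hf'.mul hg') ?_ ?_
  · refine (Real.sqrt_le_sqrt (dist2_mono hf hf' fun x => ?_)).trans ha
    rw [← sub_mul, norm_mul]
    exact mul_le_of_le_one_right (norm_nonneg _) (h1 x)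
  · refine (Real.sqrt_le_sqrt (dist2_mono hg hg' fun x => ?_)).trans hb
    rw [← mul_sub, norm_mul]
    exact mul_le_of_le_one_left (norm_nonneg _) (h2 x)

/-- derivatives are close to `N`-measurable functions one level below -/
lemma der_step (hA9 : SpecA9) (hSS : SpecSideS) (N : X.Factor) {m : ℕ} {φ : α → ℂ}
    (hφ : IsPhase φ) {Q : Cube (m + 2) α → ℂ} (hQ : Measurable[N.cube (m + 2)] Q)
    (hQ1 : ∀ x, ‖Q x‖ ≤ 1) {e : ℝ} (he : 0 ≤ e)
    (hd : dist2 (X.cm (m + 2)) (cp φ (m + 2)) Q ≤ e) (h : ℕ) :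
    ∃ Q' : Cube (m + 1) α → ℂ, Measurable[N.cube (m + 1)] Q' ∧ Bdd Q' ∧
      dist2 (X.cm (m + 1)) (cp (fun x => φ (X.S^[h] x) * conj (φ x)) (m + 1)) Q' ≤ 4 * e := by
  have hle := cube_le N (m + 2)
  have hQm : Measurable Q := hQ.mono hle le_rfl
  have hQb : Bdd Q := ⟨hQm, 1, hQ1⟩
  have hF := hφ.cp (m + 2)
  set ρ : α → ℂ := fun x => φ (X.S^[h] x) * conj (φ x) with hρ
  have hSm : Measurable (X.S^[h]) := X.S.measurable.iterate h
  have hρp : IsPhase ρ := (hφ.comp hSm).mul hφ.conj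
  set T : Cube (m + 2) α → Cube (m + 2) α := appOn (X.S^[h]) (side 0 true) with hT
  have hTp : MeasurePreserving T (X.cm (m + 2)) (X.cm (m + 2)) :=
    side_iter X (hSS α X (m + 2)).1 0 true h
  have hTm : Measurable[N.cube (m + 2), N.cube (m + 2)] T :=
    measurable_appOn_cube N (m + 2) (measurable_iter X N h) _
  set R : Cube (m + 2) α → ℂ := fun x => Q (T x) * conj (Q x) with hR
  have hRm : Measurable[N.cube (m + 2)] R :=
    (hQ.comp hTm).mul (Complex.continuous_conj.measurable.comp hQ)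
  have hRb : Bdd R := (hQb.comp hTp.measurable).mul hQb.conj
  have hsq : Real.sqrt (dist2 (X.cm (m + 2)) (cp φ (m + 2)) Q) ≤ Real.sqrt e :=
    Real.sqrt_le_sqrt hd
  have e1 : Real.sqrt (dist2 (X.cm (m + 2))
      (fun x => cp φ (m + 2) (T x) * conj (cp φ (m + 2) x)) R) ≤ Real.sqrt e + Real.sqrt e := by
    refine sqrt_dist2_mul_le (hF.comp hTp.measurable).bdd (hQb.comp hTp.measurable)
      hF.conj.bdd hQb.conj (fun x => (hF.conj.2 x).le) (fun x => hQ1 _) ?_ ?_
    · rw [dist2_comp hTp hF.1 hQm]; exact hsq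
    · rw [dist2_conj (cp φ (m + 2)) Q]; exact hsq
  have e2 : dist2 (X.cm (m + 2))
      (fun x => cp φ (m + 2) (T x) * conj (cp φ (m + 2) x)) R ≤ 4 * e := by
    refine (le_sq_of_sqrt_le (dist2_nonneg _ _) e1).trans (le_of_eq ?_)
    have := Real.sq_sqrt he
    nlinarith
  obtain ⟨Q', hQ'm, hQ'b, hQ'⟩ := hA9 α X N (m + 1) (fun x => conj (cp ρ (m + 1) x)) R
    (hρp.cp (m + 1)).conj.bdd hRb hRm
  refine ⟨fun x => conj (Q' x), Complex.continuous_conj.measurable.comp hQ'm, hQ'b.conj, ?_⟩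
  have e3 : (fun x : Cube (m + 2) α => (fun x => conj (cp ρ (m + 1) x)) (hi x)) =
      fun x => cp φ (m + 2) (T x) * conj (cp φ (m + 2) x) := by
    funext x
    exact (cp_side0 hφ.2 (X.S^[h]) x).symm
  rw [e3] at hQ'
  have e4 := dist2_conj (μ := X.cm (m + 1)) (fun x => conj (cp ρ (m + 1) x)) Q'
  simp only [Complex.conj_conj] at e4
  change dist2 (X.cm (m + 1)) (fun x => cp ρ (m + 1) x) (fun x => conj (Q' x)) ≤ 4 * e
  rw [e4]
  exact hQ'.trans e2

omit [StandardBorelSpace α] in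
lemma bprod_succ (ρ : α → ℂ) (n : ℕ) (x : α) :
    bprod X.S ρ (n + 1) x = bprod X.S ρ n x * ρ (X.S^[n] x) := by
  unfold bprod
  rw [Finset.prod_range_succ]

omit [StandardBorelSpace α] in
lemma bprod_zero (ρ : α → ℂ) (x : α) : bprod X.S ρ 0 x = 1 := by
  unfold bprod
  simp

omit [StandardBorelSpace α] in
lemma bprod_phase {ρ : α → ℂ} (hρ : IsPhase ρ) (n : ℕ) : IsPhase (bprod X.S ρ n) := by
  induction n with
  | zero =>
    have : bprod X.S ρ 0 = fun _ => 1 := by funext x; exact bprod_zero X ρ x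
    rw [this]; exact IsPhase.const (by simp)
  | succ n ih =>
    have : bprod X.S ρ (n + 1) = fun x => bprod X.S ρ n x * ρ (X.S^[n] x) := by
      funext x; exact bprod_succ X ρ n x
    rw [this]
    exact ih.mul (hρ.comp (X.S.measurable.iterate n))

/-- the products `bprod ρ'_1 n` and `ρ'_n` differ by `N`-measurable functions -/
lemma bprod_meas (hSep : SpecSep) (hX : X.Erg) (N : X.Factor) {m : ℕ} {φ : α → ℂ}
    (hφ : IsPhase φ) {s : ℝ} (hs1 : 9 * s ^ 2 < (1 / 4 : ℝ) ^ (m + 1))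
    {ρ' : ℕ → α → ℂ} (hρ' : ∀ h, X.Ph N (m + 1) (ρ' h))
    (hd : ∀ h, Real.sqrt (dist2 X.μ (fun x => φ (X.S^[h] x) * conj (φ x)) (ρ' h)) ≤ s) (n : ℕ) :
    AEStronglyMeasurable[N.σ] (fun x => bprod X.S (ρ' 1) n x * conj (ρ' n x)) X.μ := by
  induction n with
  | zero =>
    have h1 : dist2 X.μ (ρ' 0) (fun _ => 1) < (1 / 4 : ℝ) ^ (m + 1) := by
      have e1 : (fun x => φ (X.S^[0] x) * conj (φ x)) = fun _ => (1 : ℂ) := by
        funext x; exact hφ.mul_conj x
      have e2 := hd 0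
      rw [e1, dist2_comm] at e2
      have e3 := le_sq_of_sqrt_le (dist2_nonneg _ _) e2
      nlinarith
    have h2 := aesm_conj (hSep α X N hX m (ρ' 0) (hρ' 0) h1)
    refine aesm_congr h2 (ae_of_all _ fun x => ?_)
    simp only [bprod_zero, one_mul]
  | succ n ih =>
    set B : α → ℂ := fun x => (ρ' n x * ρ' 1 (X.S^[n] x)) * conj (ρ' (n + 1) x) with hB
    have hBP : X.Ph N (m + 1) B := Ph.mul (Ph.mul (hρ' n) (Ph.compIter (hρ' 1) n)) (Ph.conj (hρ' (n + 1)))
    have hSn : MeasurePreserving (X.S^[n]) X.μ X.μ := X.mp.iterate n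
    have hph : ∀ h, IsPhase (fun x => φ (X.S^[h] x) * conj (φ x)) := fun h =>
      (hφ.comp (X.S.measurable.iterate h)).mul hφ.conj
    have h1 : Real.sqrt (dist2 X.μ (fun x =>
        ((fun x => φ (X.S^[n] x) * conj (φ x)) x *
          (fun x => φ (X.S^[1] x) * conj (φ x)) (X.S^[n] x)) *
        conj ((fun x => φ (X.S^[n + 1] x) * conj (φ x)) x)) B) ≤ (s + s) + s := by
      refine sqrt_dist2_mul ((hph n).mul ((hph 1).comp hSn.measurable))
        ((hρ' n).1.mul ((hρ' 1).1.comp hSn.measurable)) (hph (n + 1)).conj (hρ' (n + 1)).1.conj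
        (sqrt_dist2_mul (hph n) (hρ' n).1 ((hph 1).comp hSn.measurable)
          ((hρ' 1).1.comp hSn.measurable) (hd n) ?_) ?_
      · rw [dist2_comp hSn (hph 1).1 (hρ' 1).1.1]; exact hd 1
      · rw [dist2_conj (fun x => φ (X.S^[n + 1] x) * conj (φ x)) (ρ' (n + 1))]; exact hd (n + 1)
    have h2 : (fun x =>
        ((fun x => φ (X.S^[n] x) * conj (φ x)) x *
          (fun x => φ (X.S^[1] x) * conj (φ x)) (X.S^[n] x)) *
        conj ((fun x => φ (X.S^[n + 1] x) * conj (φ x)) x)) = fun _ => (1 : ℂ) := by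
      funext x
      have e1 : X.S^[1] (X.S^[n] x) = X.S^[n + 1] x := by
        rw [Function.iterate_one, Function.iterate_succ_apply']
      simp only [e1, map_mul, Complex.conj_conj]
      have e2 := hφ.mul_conj (X.S^[n] x)
      have e3 := hφ.mul_conj (X.S^[n + 1] x)
      have e4 := hφ.mul_conj x
      calc φ (X.S^[n] x) * conj (φ x) * (φ (X.S^[n + 1] x) * conj (φ (X.S^[n] x))) *
            (conj (φ (X.S^[n + 1] x)) * φ x)
          = (φ (X.S^[n] x) * conj (φ (X.S^[n] x))) *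
            ((φ (X.S^[n + 1] x) * conj (φ (X.S^[n + 1] x))) * (φ x * conj (φ x))) := by ring
        _ = 1 := by rw [e2, e3, e4]; ring
    rw [h2, dist2_comm] at h1
    have h3 := le_sq_of_sqrt_le (dist2_nonneg _ _) h1
    have h4 : dist2 X.μ B (fun _ => 1) < (1 / 4 : ℝ) ^ (m + 1) := by
      refine h3.trans_lt (lt_of_eq_of_lt ?_ hs1)
      ring
    have h5 := hSep α X N hX m B hBP h4
    refine aesm_congr (aesm_mul ih h5) (ae_of_all _ fun x => ?_)
    simp only [hB, bprod_succ]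
    have e2 := (hρ' n).1.conj_mul x
    calc bprod X.S (ρ' 1) n x * ρ' 1 (X.S^[n] x) * conj (ρ' (n + 1) x)
        = (conj (ρ' n x) * ρ' n x) *
          (bprod X.S (ρ' 1) n x * ρ' 1 (X.S^[n] x) * conj (ρ' (n + 1) x)) := by rw [e2, one_mul]
      _ = _ := by ring

/-- the hypothesis of FIX -/
lemma fix_hyp (N : X.Factor) {φ : α → ℂ} (hφ : IsPhase φ) {s : ℝ} {ρ' : ℕ → α → ℂ}
    (hρ' : ∀ h, IsPhase (ρ' h))
    (hd : ∀ h, Real.sqrt (dist2 X.μ (fun x => φ (X.S^[h] x) * conj (φ x)) (ρ' h)) ≤ s)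
    (hb : ∀ n, AEStronglyMeasurable[N.σ] (fun x => bprod X.S (ρ' 1) n x * conj (ρ' n x)) X.μ)
    (n : ℕ) :
    dist2 (relSq N.le X.μ)
        (fun p => conj (bprod X.S (ρ' 1) n p.1) * bprod X.S (ρ' 1) n p.2 *
          (φ (X.S^[n] p.1) * conj (φ (X.S^[n] p.2))))
        (fun p => φ p.1 * conj (φ p.2)) ≤ (2 * s) ^ 2 := by
  have hbp := bprod_phase X (hρ' 1) n
  have hSn : MeasurePreserving (X.S^[n]) X.μ X.μ := X.mp.iterate n
  obtain ⟨Q, hQm, hQ1, hQ⟩ := exists_phase_version (hbp.mul (hρ' n).conj) (hb n)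
  have m1 := mp_relSq_fst N.le X.μ
  have m2 := mp_relSq_snd N.le X.μ
  have h1 := m1.quasiMeasurePreserving.ae hQ
  have h2 := m2.quasiMeasurePreserving.ae hQ
  have h3 := ae_relSq_eq_of_meas N.le X.μ hQm
  set v : α → ℂ := fun x => conj (ρ' n x) * φ (X.S^[n] x) with hv
  have hvp : IsPhase v := (hρ' n).conj.mul (hφ.comp hSn.measurable)
  have h4 : (fun p : α × α => conj (bprod X.S (ρ' 1) n p.1) * bprod X.S (ρ' 1) n p.2 *
          (φ (X.S^[n] p.1) * conj (φ (X.S^[n] p.2)))) =ᵐ[relSq N.le X.μ]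
      fun p => v p.1 * conj (v p.2) := by
    filter_upwards [h1, h2, h3] with p e1 e2 e3
    have e4 : bprod X.S (ρ' 1) n p.1 * conj (ρ' n p.1) =
        bprod X.S (ρ' 1) n p.2 * conj (ρ' n p.2) := by
      rw [e1, e2]; exact e3
    have a1 := (hρ' n).conj_mul p.2
    have a2 := hbp.conj_mul p.1
    have e5 : conj (bprod X.S (ρ' 1) n p.1) * bprod X.S (ρ' 1) n p.2 =
        conj (ρ' n p.1) * ρ' n p.2 := by
      calc conj (bprod X.S (ρ' 1) n p.1) * bprod X.S (ρ' 1) n p.2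
          = conj (bprod X.S (ρ' 1) n p.1) *
            (bprod X.S (ρ' 1) n p.2 * conj (ρ' n p.2)) * ρ' n p.2 := by
              rw [← mul_assoc, mul_assoc _ (conj (ρ' n p.2)), a1, mul_one]
        _ = (conj (bprod X.S (ρ' 1) n p.1) * bprod X.S (ρ' 1) n p.1) *
            (conj (ρ' n p.1) * ρ' n p.2) := by rw [← e4]; ring
        _ = _ := by rw [a2, one_mul]
    rw [e5]
    simp only [hv, map_mul, Complex.conj_conj]
    ring
  rw [dist2_congr h4 (Filter.EventuallyEq.refl _ _)]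
  have h5 : Real.sqrt (dist2 X.μ v φ) ≤ s := by
    have e1 : dist2 X.μ v φ = dist2 X.μ (fun x => φ (X.S^[n] x) * conj (φ x)) (ρ' n) := by
      have e2 := dist2_phase_mul (μ := X.μ) (φ := fun x => conj (φ (X.S^[n] x)))
        (hφ.comp hSn.measurable).conj.2 v φ
      have e3 : (fun x => conj (φ (X.S^[n] x)) * v x) = fun x => conj (ρ' n x) := by
        funext x
        simp only [hv]
        have := hφ.conj_mul (X.S^[n] x)
        rw [mul_left_comm, this, mul_one]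
      have e4 : (fun x => conj (φ (X.S^[n] x)) * φ x) =
          fun x => conj (φ (X.S^[n] x) * conj (φ x)) := by
        funext x
        rw [map_mul, Complex.conj_conj]
      rw [← e2, e3, e4, dist2_conj (ρ' n) (fun x => φ (X.S^[n] x) * conj (φ x)), dist2_comm]
    rw [e1]; exact hd n
  have h6 : Real.sqrt (dist2 (relSq N.le X.μ) (fun p => v p.1 * conj (v p.2))
      (fun p => φ p.1 * conj (φ p.2))) ≤ s + s := by
    refine sqrt_dist2_mul (hvp.comp m1.measurable) (hφ.comp m1.measurable)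
      (hvp.comp m2.measurable).conj (hφ.comp m2.measurable).conj ?_ ?_
    · rw [dist2_comp m1 hvp.1 hφ.1]; exact h5
    · rw [dist2_conj (fun p : α × α => v p.2) (fun p => φ p.2), dist2_comp m2 hvp.1 hφ.1]
      exact h5
  refine (le_sq_of_sqrt_le (dist2_nonneg _ _) h6).trans (le_of_eq ?_)
  ring

/-- induction step -/
lemma core (hA9 : SpecA9) (hSep : SpecSep) (hSS : SpecSideS) (hSym : SpecSym) (hX : X.Erg)
    (N : X.Factor) {m : ℕ} {φ : α → ℂ} (hφ : IsPhase φ) {Q : Cube (m + 2) α → ℂ}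
    (hQb : Bdd Q) (hQ : Measurable[N.cube (m + 2)] Q) {e s η : ℝ} (he : 0 ≤ e)
    (hd : dist2 (X.cm (m + 2)) (cp φ (m + 2)) Q ≤ e) (hs : 0 < s)
    (hs1 : 9 * s ^ 2 < (1 / 4 : ℝ) ^ (m + 1))
    (hIH : ∀ (φ : α → ℂ) (Q : Cube (m + 1) α → ℂ), IsPhase φ → Bdd Q →
      Measurable[N.cube (m + 1)] Q → dist2 (X.cm (m + 1)) (cp φ (m + 1)) Q ≤ 4 * e →
      ∃ φ' : α → ℂ, X.Ph N (m + 1) φ' ∧ dist2 X.μ φ φ' ≤ s ^ 2)
    (hfix : ∀ (ρ φ : α → ℂ), IsPhase ρ → IsPhase φ →
      (∀ n : ℕ, dist2 (relSq N.le X.μ)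
        (fun p => conj (bprod X.S ρ n p.1) * bprod X.S ρ n p.2 *
          (φ (X.S^[n] p.1) * conj (φ (X.S^[n] p.2))))
        (fun p => φ p.1 * conj (φ p.2)) ≤ (2 * s) ^ 2) →
      ∃ ψ θ : α → ℂ, IsPhase ψ ∧ IsPhase θ ∧ Measurable[N.σ] θ ∧
      (∀ᵐ x ∂X.μ, ψ (X.S x) = θ x * ρ x * ψ x) ∧ dist2 X.μ ψ φ ≤ η)
    (hη : 2 * (4 ^ (m + 2) * η + e) < 1) :
    ∃ φ' : α → ℂ, X.Ph N (m + 2) φ' ∧ dist2 X.μ φ φ' ≤ η := by
  have hle := cube_le N (m + 2)
  have hF := hφ.cp (m + 2)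
  obtain ⟨Q₁, hQ₁m, hQ₁1, hQ₁⟩ := exists_condExp_version (m := N.cube (m + 2))
    (μ := X.cm (m + 2)) hle zero_le_one (fun x => (hF.2 x).le)
  have hQ₁b : Bdd Q₁ := ⟨hQ₁m.mono hle le_rfl, 1, hQ₁1⟩
  have hd₁ : dist2 (X.cm (m + 2)) (cp φ (m + 2)) Q₁ ≤ e := by
    rw [← dist2_congr (Filter.EventuallyEq.refl _ (cp φ (m + 2))) hQ₁]
    exact (dist2_condExp_le hle hF.bdd hQb hQ.stronglyMeasurable.aestronglyMeasurable).trans hd
  have key : ∀ h : ℕ, ∃ φ' : α → ℂ, X.Ph N (m + 1) φ' ∧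
      dist2 X.μ (fun x => φ (X.S^[h] x) * conj (φ x)) φ' ≤ s ^ 2 := by
    intro h
    obtain ⟨Q', h1, h2, h3⟩ := der_step X hA9 hSS N hφ hQ₁m hQ₁1 he hd₁ h
    exact hIH _ Q' ((hφ.comp (X.S.measurable.iterate h)).mul hφ.conj) h2 h1 h3
  choose ρ' hρ'1 hρ'2 using key
  have hd' : ∀ h, Real.sqrt (dist2 X.μ (fun x => φ (X.S^[h] x) * conj (φ x)) (ρ' h)) ≤ s :=
    fun h => sqrt_le_of_sq_le hs.le (hρ'2 h)
  have hb := bprod_meas X hSep hX N hφ hs1 hρ'1 hd'
  obtain ⟨ψ, θ, hψ, hθ, hθm, hψθ, hψφ⟩ := hfix (ρ' 1) φ (hρ'1 1).1 hφ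
    (fix_hyp X N hφ (fun h => (hρ'1 h).1) hd' hb)
  have h1 : X.Ph N (m + 1) (fun x => θ x * ρ' 1 x) :=
    Ph.mul (Ph.of_meas hθ hθm.stronglyMeasurable.aestronglyMeasurable) (hρ'1 1)
  have h2 : (fun x => ψ (X.S x) * conj (ψ x)) =ᵐ[X.μ] fun x => θ x * ρ' 1 x := by
    filter_upwards [hψθ] with x hx
    rw [hx, mul_assoc, hψ.mul_conj, mul_one]
  have h3 : AEStronglyMeasurable[N.cube (m + 1)]
      (cp (fun x => ψ (X.S x) * conj (ψ x)) (m + 1)) (X.cm (m + 1)) :=
    aesm_congr h1.2 (cp_congr_ae X h2 (m + 1))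
  have h4 : dist2 (X.cm (m + 2)) (cp ψ (m + 2)) Q₁ < 1 := by
    have e1 := dist2_triangle' (μ := X.cm (m + 2)) ((hψ.cp (m + 2)).bdd.memLp _ 2)
      (hF.bdd.memLp _ 2) (hQ₁b.memLp _ 2)
    have e2 : dist2 (X.cm (m + 2)) (cp ψ (m + 2)) (cp φ (m + 2)) ≤ 4 ^ (m + 2) * dist2 X.μ ψ φ := by
      refine (le_sq_of_sqrt_le (dist2_nonneg _ _) (sqrt_dist2_cp X hψ hφ (m + 2))).trans
        (le_of_eq ?_)
      rw [mul_pow, Real.sq_sqrt (dist2_nonneg _ _), ← pow_mul, mul_comm (m + 2) 2, pow_mul]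
      norm_num
    have e3 : (4 : ℝ) ^ (m + 2) * dist2 X.μ ψ φ ≤ 4 ^ (m + 2) * η :=
      mul_le_mul_of_nonneg_left hψφ (by positivity)
    linarith
  refine ⟨ψ, ⟨hψ, ?_⟩, ?_⟩
  · exact meas_of_sides X hSS hX N (hψ.cp (m + 2)) (side_meas hSym N hψ X.S h3) hQ₁m hQ₁b h4
  · rw [dist2_comm]; exact hψφ

end Sys

end Inv99M

open PhM SepM PhDerM SymCpM Inv99M in
/-- module Inv99 -/
theorem specInv99 (hA9 : SpecA9) (hFix : SpecFix) (hSep : SpecSep) (hSS : SpecSideS)
    (hSym : SpecSym) : SpecInv99 := by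
  obtain ⟨δ₀, hδ₀, C, hC, hfix⟩ := hFix
  intro m
  induction m with
  | zero =>
    intro δ hδ
    refine ⟨δ / 4, by positivity, ?_⟩
    intro α _ _ X N hX φ Q hφ hQb hQ hd
    exact base X hX N hφ hQb hQ hd
  | succ m ih =>
    intro δ hδ
    set η : ℝ := min δ ((1 / 4 : ℝ) ^ (m + 2) / 8) with hη
    have hηpos : 0 < η := lt_min hδ (by positivity)
    have hη1 : η ≤ δ := min_le_left _ _
    have hη2 : 4 ^ (m + 2) * η ≤ 1 / 8 := by
      calc (4 : ℝ) ^ (m + 2) * η ≤ 4 ^ (m + 2) * ((1 / 4 : ℝ) ^ (m + 2) / 8) :=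
            mul_le_mul_of_nonneg_left (min_le_right _ _) (by positivity)
        _ = (4 * (1 / 4 : ℝ)) ^ (m + 2) / 8 := by rw [mul_pow]; ring
        _ = 1 / 8 := by norm_num
    set s : ℝ := min (min (δ₀ / 2) (η / (2 * C))) ((1 / 4 : ℝ) ^ (m + 1) / 10) with hs
    have hspos : 0 < s := lt_min (lt_min (by positivity) (by positivity)) (by positivity)
    have hs1 : 2 * s ≤ δ₀ := by
      have : s ≤ δ₀ / 2 := (min_le_left _ _).trans (min_le_left _ _)
      linarith
    have hs2 : C * (2 * s) ≤ η := by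
      have : s ≤ η / (2 * C) := (min_le_left _ _).trans (min_le_right _ _)
      rw [le_div_iff₀ (by positivity)] at this
      linarith
    have hs3 : 9 * s ^ 2 < (1 / 4 : ℝ) ^ (m + 1) := by
      have h1 : s ≤ (1 / 4 : ℝ) ^ (m + 1) / 10 := min_le_right _ _
      have h2 : (1 / 4 : ℝ) ^ (m + 1) ≤ 1 := pow_le_one₀ (by norm_num) (by norm_num)
      have h3 : 0 < (1 / 4 : ℝ) ^ (m + 1) := by positivity
      nlinarith
    obtain ⟨e', he', hIH⟩ := ih (s ^ 2) (by positivity)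
    refine ⟨min (e' / 4) (1 / 8), lt_min (by positivity) (by norm_num), ?_⟩
    intro α _ _ X N hX φ Q hφ hQb hQ hd
    have he1 : 4 * min (e' / 4) (1 / 8) ≤ e' := by
      have := min_le_left (e' / 4) (1 / 8)
      linarith
    have he2 : min (e' / 4) (1 / 8) ≤ 1 / 8 := min_le_right _ _
    obtain ⟨φ', h1, h2⟩ := core X hA9 hSep hSS hSym hX N hφ hQb hQ
      (e := min (e' / 4) (1 / 8)) (s := s) (η := η)
      (le_min (by positivity) (by norm_num)) hd hspos hs3
      (fun φ Q h1 h2 h3 h4 => hIH α X N hX φ Q h1 h2 h3 (h4.trans he1))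
      (fun ρ φ h1 h2 h3 => by
        obtain ⟨ψ, θ, a1, a2, a3, a4, a5⟩ := hfix α X N hX ρ φ h1 h2 (2 * s) (by positivity) hs1 h3
        exact ⟨ψ, θ, a1, a2, a3, a4, a5.trans hs2⟩)
      (by linarith)
    exact ⟨φ', h1, h2.trans hη1⟩

end MPd26.HK
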