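import Pool.Agent.Lib.MP_d26cd8_an.HK.BridgeSpec
import Pool.Agent.Lib.MP_d26cd8_an.HK.Inv99
import Pool.Agent.Lib.MP_d26cd8_an.HK.Aut
import Pool.Agent.Lib.MP_d26cd8_an.D5.NilX

/-!
# LIFT (module of the bridge): the predicate of lifts satisfies `LiftData`
-/

set_option autoImplicit false

open MeasureTheory ProbabilityTheory Filter Topology
open scoped ComplexConjugate ENNReal

namespace MPd26.HK
namespace LiftM

open MPd26.Nil

section Alg
variable {m d : ℕ} {x0 : UT m} {P : PG d} {ψ : P.Gp →* UT m}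

/-- the element of `UT m` -/
noncomputable def Gm (x0 : UT m) {P : PG d} (ψ : P.Gp →* UT m) (g : Fin d → ℝ) : UT m :=
  x0 * ψ g * x0⁻¹

lemma psi_mul (g h : Fin d → ℝ) : ψ (P.mul g h) = ψ g * ψ h :=
  ψ.map_mul (show P.Gp from g) (show P.Gp from h)

lemma psi_zero : ψ (0 : Fin d → ℝ) = 1 := ψ.map_one

lemma psi_inv (g : Fin d → ℝ) : ψ (P.inv g) = (ψ g)⁻¹ := ψ.map_inv (show P.Gp from g)

lemma Gm_mul (g h : Fin d → ℝ) : Gm x0 ψ (P.mul g h) = Gm x0 ψ g * Gm x0 ψ h := by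
  unfold Gm
  rw [psi_mul]
  group

lemma Gm_zero : Gm x0 ψ (0 : Fin d → ℝ) = 1 := by
  unfold Gm
  rw [psi_zero]
  group

lemma Gm_inv (g : Fin d → ℝ) : Gm x0 ψ (P.inv g) = (Gm x0 ψ g)⁻¹ := by
  unfold Gm
  rw [psi_inv]
  group

lemma Gm_smul_qm (g z : Fin d → ℝ) : Gm x0 ψ g • qm x0 ψ z = qm x0 ψ (P.mul g z) := by
  unfold Gm qm
  rw [psi_mul]
  show (((x0 * ψ g * x0⁻¹) * (x0 * ψ z) : UT m) : NM m) = _
  congr 1
  group

lemma qm_int (hLT : ∀ z : P.Gp, ψ z ∈ LT m ↔ HK.IsInt z) {γ : Fin d → ℝ} (hγ : HK.IsInt γ)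
    (z : Fin d → ℝ) : qm x0 ψ (P.mul z γ) = qm x0 ψ z := by
  unfold qm
  rw [psi_mul, ← mul_assoc]
  refine (QuotientGroup.eq.2 ?_).symm
  rw [inv_mul_cancel_left]
  exact (hLT γ).2 hγ

lemma continuous_qm (hψ : Continuous ψ) : Continuous (qm x0 ψ) := by
  have h1 : Continuous fun z : P.Gp => ((x0 * ψ z : UT m) : NM m) :=
    QuotientGroup.continuous_mk.comp (continuous_const.mul hψ)
  exact h1

lemma continuous_Gm (hψ : Continuous ψ) : Continuous (Gm x0 ψ) := by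
  have h1 : Continuous fun z : P.Gp => x0 * ψ z * x0⁻¹ :=
    (continuous_const.mul hψ).mul continuous_const
  exact h1

/-- `y ↦ u y` as a measurable equivalence -/
noncomputable def uE (u : UT m) : NM m ≃ᵐ NM m where
  toFun y := u • y
  invFun y := u⁻¹ • y
  left_inv y := inv_smul_smul u y
  right_inv y := smul_inv_smul u y
  measurable_toFun := (continuous_const_smul u).measurable
  measurable_invFun := (continuous_const_smul u⁻¹).measurable

end Alg

section Data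
variable {m d : ℕ} [StandardBorelSpace (NM m)] {Y : Sys (NM m)} {x0 : UT m} {P : PG d}
  {ψ : P.Gp →* UT m} {b : NM m → Fin d → ℝ}

omit [StandardBorelSpace (NM m)] in
lemma F_b_qm (hb : Chart x0 P ψ b Y.μ) {F : (Fin d → ℝ) → ℂ} (hF : P.RPh F) (z : Fin d → ℝ) :
    F (b (qm x0 ψ z)) = F z := by
  obtain ⟨γ, hγ, h⟩ := hb.right z
  conv_rhs => rw [← h]
  exact (hF.2 _ γ hγ).symm

omit [StandardBorelSpace (NM m)] in
lemma F_b_smul (hb : Chart x0 P ψ b Y.μ) {F : (Fin d → ℝ) → ℂ} (hF : P.RPh F) (g : Fin d → ℝ) :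
    ∀ᵐ y ∂Y.μ, F (b (Gm x0 ψ g • y)) = F (P.mul g (b y)) := by
  filter_upwards [hb.left] with y hy
  conv_lhs => rw [← hy]
  rw [Gm_smul_qm, F_b_qm hb hF]

omit [StandardBorelSpace (NM m)] in
lemma ae_b (hb : Chart x0 P ψ b Y.μ) {p : (Fin d → ℝ) → Prop} (h : ∀ᵐ z, p z) :
    ∀ᵐ y ∂Y.μ, p (b y) := by
  have h1 : ∀ᵐ z ∂(Y.μ.map b), p z := by
    rw [hb.law]
    exact ae_restrict_of_ae h
  exact ae_of_ae_map hb.meas.aemeasurable h1

lemma rph_mul {F F' : (Fin d → ℝ) → ℂ} (hF : P.RPh F) (hF' : P.RPh F') (h : Fin d → ℝ) :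
    P.RPh (fun z => F (P.mul h z) * F' z) := by
  have hm : Measurable (P.mul h) :=
    (P.continuous_mul'.comp (continuous_const.prodMk continuous_id)).measurable
  refine ⟨⟨(hF.1.1.comp hm).mul hF'.1.1, fun z => ?_⟩, fun z γ hγ => ?_⟩
  · rw [norm_mul, hF.1.2, hF'.1.2, one_mul]
  · show F (P.mul h (P.mul z γ)) * F' (P.mul z γ) = F (P.mul h z) * F' z
    rw [← P.assoc, hF.2 _ γ hγ, hF'.2 _ γ hγ]

lemma rph_inv {F : (Fin d → ℝ) → ℂ} (hF : P.RPh F) (h : Fin d → ℝ) :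
    P.RPh (fun z => conj (F (P.mul h z))) := by
  have hm : Measurable (P.mul h) :=
    (P.continuous_mul'.comp (continuous_const.prodMk continuous_id)).measurable
  refine ⟨⟨Complex.continuous_conj.measurable.comp (hF.1.1.comp hm), fun z => ?_⟩,
    fun z γ hγ => ?_⟩
  · rw [RCLike.norm_conj, hF.1.2]
  · show conj (F (P.mul h (P.mul z γ))) = conj (F (P.mul h z))
    rw [← P.assoc, hF.2 _ γ hγ]

/-- `id × g` preserves the square. -/
lemma mp_id {g : NM m → NM m} (hg : ∀ k : ℕ, Y.SidePres g k) (n : ℕ) :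
    MeasurePreserving (Prod.map id (cmap g)) (relSq (Y.inv_le n) (Y.cm n))
      (relSq (Y.inv_le n) (Y.cm n)) := by
  have h1 := hg (n + 1) 0 true
  have h2 : (Prod.map id (cmap g) : Cube n (NM m) × Cube n (NM m) → _) =
      (fun x : Cube (n + 1) (NM m) => (lo x, hi x)) ∘ appOn g (side 0 true) ∘ join := by
    funext p
    show _ = (lo (appOn g (side 0 true) (join p)), hi (appOn g (side 0 true) (join p)))
    rw [AutM.appOn_join_true, lo_join, hi_join]
  rw [h2]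
  exact (Y.mp_split n).comp (h1.comp (Y.mp_join n))

omit [StandardBorelSpace (NM m)] in
lemma cp_conj (f : NM m → ℂ) (n : ℕ) (x : Cube n (NM m)) :
    cp (fun y => conj (f y)) n x = conj (cp f n x) := by
  unfold cp
  rw [map_prod]
  exact Finset.prod_congr rfl fun ε _ => sg_conj ε _

omit [StandardBorelSpace (NM m)] in
lemma cp_mul (f g : NM m → ℂ) (n : ℕ) (x : Cube n (NM m)) :
    cp (fun y => f y * g y) n x = cp f n x * cp g n x := by
  unfold cp
  rw [← Finset.prod_mul_distrib]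
  exact Finset.prod_congr rfl fun ε _ => sg_mul ε _ _

omit [StandardBorelSpace (NM m)] in
lemma cp_const {c : ℂ} (hc : ‖c‖ = 1) (n : ℕ) (x : Cube (n + 1) (NM m)) :
    cp (fun _ => c) (n + 1) x = 1 := by
  rw [cp_succ]
  have h1 : cp (fun _ : NM m => c) n (hi x) = cp (fun _ => c) n (lo x) := rfl
  rw [h1]
  have h2 : ‖cp (fun _ : NM m => c) n (lo x)‖ = 1 :=
    ((IsPhase.const (Ω := NM m) hc).cp n).2 _
  rw [Complex.mul_conj, Complex.normSq_eq_norm_sq, h2]
  simp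

/-- replace the derivative by an a.e. equal function -/
lemma der_congr {g : NM m → NM m} {n : ℕ} {K : Cube (n + 1) (NM m) → ℂ}
    {κ κ' : Cube n (NM m) → ℂ} (h : Y.Der g n K κ) (he : κ =ᵐ[Y.cm n] κ') : Y.Der g n K κ' := by
  have h1 : ∀ᵐ p ∂(relSq (Y.inv_le n) (Y.cm n)), κ p.2 = κ' p.2 :=
    (mp_relSq_snd (Y.inv_le n) (Y.cm n)).quasiMeasurePreserving.ae_eq_comp he
  unfold Sys.Der at h ⊢
  filter_upwards [h, h1] with p h2 h3
  rw [← h3, h2]

lemma cp_b_smul (hb : Chart x0 P ψ b Y.μ) {F : (Fin d → ℝ) → ℂ} (hF : P.RPh F) (g : Fin d → ℝ)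
    (n : ℕ) : ∀ᵐ x ∂(Y.cm n), cp (fun y => F (b y)) n (cmap (fun y => Gm x0 ψ g • y) x) =
      cp (fun y => F (P.mul g (b y))) n x :=
  Inv99M.cp_congr_ae (X := Y) (F_b_smul hb hF g) n

end Data

end LiftM

open LiftM MPd26.Nil in
theorem specLift (hCD : SpecCocDer) (hSm : SpecSmall) (hS0 : SpecSep0) (hAC : SpecActCont)
    (hV : SpecVol) : SpecLift := by
  intro m d _ Y x0 P ψ b n K hErg hb hψ hLT hK hside hmp
  have hside' : ∀ (z : Fin d → ℝ) (k : ℕ), Y.SidePres (fun y : NM m => Gm x0 ψ z • y) k := hside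
  have hmp' : ∀ z : Fin d → ℝ, MeasurePreserving (fun y : NM m => Gm x0 ψ z • y) Y.μ Y.μ := hmp
  have hKph : ∀ x, K x * conj (K x) = 1 := hK.phase.mul_conj
  have hKph' : ∀ x, conj (K x) * K x = 1 := hK.phase.conj_mul
  refine
    { ph := fun g F h => h.1
      ae := ?_
      const := ?_
      mul := ?_
      inv := ?_
      small := ?_
      sep := ?_ }
  · intro g F F' h hF' he
    refine ⟨hF', der_congr h.2 ?_⟩
    exact Inv99M.cp_congr_ae (X := Y) (ae_b (p := fun z => F z = F' z) hb he) (n + 1)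
  · intro c hc
    refine ⟨⟨⟨measurable_const, fun _ => hc⟩, fun _ _ _ => rfl⟩, ?_⟩
    refine ae_of_all _ fun p => ?_
    show cp (fun _ : NM m => c) (n + 1) p.2 = _
    rw [cp_const hc]
    have h1 : cmap (fun y : NM m => (x0 * ψ (0 : Fin d → ℝ) * x0⁻¹) • y) p.2 = p.2 := by
      funext ε
      show Gm x0 ψ (0 : Fin d → ℝ) • p.2 ε = p.2 ε
      rw [Gm_zero, one_smul]
    rw [h1]
    exact (hKph _).symm
  · intro g h F F' hF hF'
    refine ⟨rph_mul hF.1 hF'.1 h, ?_⟩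
    have h1 : ∀ᵐ p ∂(relSq (Y.inv_le (n + 1)) (Y.cm (n + 1))),
        cp (fun y => F (b y)) (n + 1) (cmap (fun y => Gm x0 ψ h • y) p.2) =
          K (join (p.1, cmap (fun y => Gm x0 ψ h • y) p.2)) *
          conj (K (join (p.1, cmap (fun y => Gm x0 ψ g • y) (cmap (fun y => Gm x0 ψ h • y) p.2)))) :=
      (mp_id (hside' h) (n + 1)).quasiMeasurePreserving.ae hF.2
    have h2 : ∀ᵐ p ∂(relSq (Y.inv_le (n + 1)) (Y.cm (n + 1))),
        cp (fun y => F (b y)) (n + 1) (cmap (fun y => Gm x0 ψ h • y) p.2) =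
          cp (fun y => F (P.mul h (b y))) (n + 1) p.2 :=
      (mp_relSq_snd (Y.inv_le (n + 1)) (Y.cm (n + 1))).quasiMeasurePreserving.ae
        (cp_b_smul hb hF.1 h (n + 1))
    have h3 := hF'.2
    unfold Sys.Der at h3 ⊢
    filter_upwards [h1, h2, h3] with p e1 e2 e3
    have e4 : cmap (fun y : NM m => (x0 * ψ (P.mul g h) * x0⁻¹) • y) p.2 =
        cmap (fun y => Gm x0 ψ g • y) (cmap (fun y => Gm x0 ψ h • y) p.2) := by
      funext ε
      show Gm x0 ψ (P.mul g h) • p.2 ε = Gm x0 ψ g • Gm x0 ψ h • p.2 ε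
      rw [Gm_mul, mul_smul]
    rw [e4, cp_mul, ← e2, e1, e3]
    have e5 := hKph' (join (p.1, cmap (fun y => Gm x0 ψ h • y) p.2))
    show _ * _ * (_ * conj (K (join (p.1, cmap (fun y => Gm x0 ψ h • y) p.2)))) = _
    calc _ = K (join (p.1, p.2)) * conj (K (join (p.1, cmap (fun y => Gm x0 ψ g • y)
            (cmap (fun y => Gm x0 ψ h • y) p.2)))) *
          (conj (K (join (p.1, cmap (fun y => Gm x0 ψ h • y) p.2))) *
            K (join (p.1, cmap (fun y => Gm x0 ψ h • y) p.2))) := by ring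
      _ = _ := by rw [e5, mul_one]
  · intro g F hF
    refine ⟨rph_inv hF.1 _, ?_⟩
    have h1 : ∀ᵐ p ∂(relSq (Y.inv_le (n + 1)) (Y.cm (n + 1))),
        cp (fun y => F (b y)) (n + 1) (cmap (fun y => Gm x0 ψ (P.inv g) • y) p.2) =
          K (join (p.1, cmap (fun y => Gm x0 ψ (P.inv g) • y) p.2)) *
          conj (K (join (p.1, cmap (fun y => Gm x0 ψ g • y)
            (cmap (fun y => Gm x0 ψ (P.inv g) • y) p.2)))) :=
      (mp_id (hside' (P.inv g)) (n + 1)).quasiMeasurePreserving.ae hF.2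
    have h2 : ∀ᵐ p ∂(relSq (Y.inv_le (n + 1)) (Y.cm (n + 1))),
        cp (fun y => F (b y)) (n + 1) (cmap (fun y => Gm x0 ψ (P.inv g) • y) p.2) =
          cp (fun y => F (P.mul (P.inv g) (b y))) (n + 1) p.2 :=
      (mp_relSq_snd (Y.inv_le (n + 1)) (Y.cm (n + 1))).quasiMeasurePreserving.ae
        (cp_b_smul hb hF.1 (P.inv g) (n + 1))
    unfold Sys.Der
    filter_upwards [h1, h2] with p e1 e2
    have e4 : cmap (fun y => Gm x0 ψ g • y) (cmap (fun y => Gm x0 ψ (P.inv g) • y) p.2) = p.2 := by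
      funext ε
      show Gm x0 ψ g • Gm x0 ψ (P.inv g) • p.2 ε = p.2 ε
      rw [← mul_smul, ← Gm_mul, P.mul_inv, Gm_zero, one_smul]
    rw [cp_conj, ← e2, e1, e4, map_mul, Complex.conj_conj, mul_comm]
    rfl
  · intro η hη
    obtain ⟨e, he, hsm⟩ := hSm n (η ^ 2) (by positivity)
    have hcont := hAC m (n + 2) d (Y.cm (n + 2)) (Gm x0 ψ) (side 0 true) (continuous_Gm hψ)
      Gm_zero (fun z => hside' z (n + 2) 0 true) K hK.phase.bdd
    have hev := hcont.eventually (Iic_mem_nhds he)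
    refine ⟨_, hev, fun g hg => ?_⟩
    have hg' : dist2 (Y.cm (n + 2)) (fun x => K (appOn (fun y : NM m => Gm x0 ψ g • y)
      (side 0 true) x)) K ≤ e := hg
    obtain ⟨κ', hκ', hder⟩ := hCD (NM m) Y n (uE (Gm x0 ψ g)) (hmp' g) (hside' g (n + 2)) K hK
    have hdist : dist2 (Y.cm (n + 1)) κ' (fun _ => 1) ≤ e := by
      refine le_trans (le_of_eq ?_) hg'
      have h1 : dist2 (Y.cm (n + 1)) κ' (fun _ => 1) =
          dist2 (relSq (Y.inv_le (n + 1)) (Y.cm (n + 1))) (fun p => κ' p.2) (fun _ => 1) :=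
        (dist2_comp (mp_relSq_snd (Y.inv_le (n + 1)) (Y.cm (n + 1))) hκ'.phase.1
          measurable_const).symm
      have h2 : dist2 (relSq (Y.inv_le (n + 1)) (Y.cm (n + 1))) (fun p => κ' p.2) (fun _ => 1) =
          dist2 (relSq (Y.inv_le (n + 1)) (Y.cm (n + 1)))
            (fun p => K (join (Prod.map id (cmap (uE (Gm x0 ψ g))) p))) (fun p => K (join p)) := by
        unfold dist2
        refine integral_congr_ae ?_
        filter_upwards [hder] with p hp
        show ‖κ' p.2 - 1‖ ^ 2 = ‖K (join (p.1, cmap (uE (Gm x0 ψ g)) p.2)) - K (join p)‖ ^ 2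
        rw [hp]
        have h3 := hKph (join (p.1, cmap (uE (Gm x0 ψ g)) p.2))
        have h4 : K (join p) * conj (K (join (p.1, cmap (uE (Gm x0 ψ g)) p.2))) - 1 =
            (K (join p) - K (join (p.1, cmap (uE (Gm x0 ψ g)) p.2))) *
              conj (K (join (p.1, cmap (uE (Gm x0 ψ g)) p.2))) := by
          rw [sub_mul, h3]
        rw [h4, norm_mul, RCLike.norm_conj, hK.phase.2, mul_one, norm_sub_rev]
      have h3 : dist2 (Y.cm (n + 2)) (fun x => K (appOn (fun y : NM m => Gm x0 ψ g • y)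
          (side 0 true) x)) K = dist2 (relSq (Y.inv_le (n + 1)) (Y.cm (n + 1)))
            (fun p => K (appOn (fun y : NM m => Gm x0 ψ g • y) (side 0 true) (join p)))
            (fun p => K (join p)) :=
        (dist2_comp (Y.mp_join (n + 1)) (hK.phase.1.comp
          (hside' g (n + 2) 0 true).measurable) hK.phase.1).symm
      rw [h1, h2, h3]
      congr 1
      funext p
      rw [AutM.appOn_join_true]
      rfl
    obtain ⟨F, hF, hFc, hFd⟩ := hsm (NM m) Y hErg κ' hκ' hdist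
    have hFt : P.RPh (fun z => F (qm x0 ψ z)) := by
      refine ⟨⟨hF.1.comp (continuous_qm hψ).measurable, fun z => hF.2 _⟩, fun z γ hγ => ?_⟩
      show F (qm x0 ψ (P.mul z γ)) = F (qm x0 ψ z)
      rw [qm_int hLT hγ]
    refine ⟨fun z => F (qm x0 ψ z), ⟨hFt, ?_⟩, ?_⟩
    · refine der_congr hder ?_
      have hFc' : κ' =ᵐ[Y.cm (n + 1)] cp F (n + 1) := hFc
      refine hFc'.trans ?_
      refine Inv99M.cp_congr_ae (X := Y) ?_ (n + 1)
      filter_upwards [hb.left] with y hy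
      rw [hy]
    · have hm : Measurable fun z => ‖F (qm x0 ψ z) - 1‖ := (hFt.1.1.sub_const 1).norm
      have h1 : bd (fun z => F (qm x0 ψ z)) (fun _ => 1) = ∫ y, ‖F y - 1‖ ∂Y.μ := by
        unfold bd
        rw [← hb.law, integral_map hb.meas.aemeasurable hm.aestronglyMeasurable]
        refine integral_congr_ae ?_
        filter_upwards [hb.left] with y hy
        rw [hy]
      have h2 : ∫ y, ‖F y - 1‖ ∂Y.μ ≤ Real.sqrt (dist2 Y.μ F (fun _ => 1)) := by
        have hint : MemLp (fun y => ‖F y - 1‖) 2 Y.μ :=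
          ((hF.bdd.sub (Bdd.const 1)).memLp Y.μ 2).norm
        refine Real.le_sqrt_of_sq_le ?_
        have hvar := ProbabilityTheory.variance_nonneg (fun y => ‖F y - 1‖) Y.μ
        rw [ProbabilityTheory.variance_eq_sub hint] at hvar
        have : dist2 Y.μ F (fun _ => 1) = ∫ y, ((fun y => ‖F y - 1‖) ^ 2) y ∂Y.μ := rfl
        rw [this]
        linarith
      rw [h1]
      refine h2.trans ?_
      calc Real.sqrt (dist2 Y.μ F (fun _ => 1)) ≤ Real.sqrt (η ^ 2) := Real.sqrt_le_sqrt hFd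
        _ = η := Real.sqrt_sq hη.le
  · refine ⟨(1 / 4 : ℝ) ^ (n + 2), by positivity, fun Q hQ hbd => ?_⟩
    have h1 : ∀ᵐ x ∂(Y.cm (n + 1)), cp (fun y => Q (b y)) (n + 1) x = 1 := by
      have h2 : ∀ᵐ p ∂(relSq (Y.inv_le (n + 1)) (Y.cm (n + 1))),
          cp (fun y => Q (b y)) (n + 1) p.2 = 1 := by
        have h3 := hQ.2
        unfold Sys.Der at h3
        filter_upwards [h3] with p hp
        have h4 : cmap (fun y : NM m => (x0 * ψ (0 : Fin d → ℝ) * x0⁻¹) • y) p.2 = p.2 := by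
          funext ε
          show Gm x0 ψ (0 : Fin d → ℝ) • p.2 ε = p.2 ε
          rw [Gm_zero, one_smul]
        rw [hp, h4]
        exact hKph _
      have h5 := (mp_relSq_snd (Y.inv_le (n + 1)) (Y.cm (n + 1))).map_eq
      rw [← h5]
      refine (ae_map_iff measurable_snd.aemeasurable ?_).2 h2
      exact (measurable_cp (hQ.1.1.1.comp hb.meas) (n + 1)) (measurableSet_singleton 1)
    have hph : Y.Ph Y.triv (n + 1) (fun y => Q (b y)) := by
      refine ⟨⟨hQ.1.1.1.comp hb.meas, fun y => hQ.1.1.2 _⟩, ?_⟩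
      exact ⟨fun _ => 1, stronglyMeasurable_const, h1⟩
    have hbd' : dist2 Y.μ (fun y => Q (b y)) (fun _ => 1) < (1 / 4 : ℝ) ^ (n + 1) := by
      have hm : Measurable fun z => ‖Q z - 1‖ := (hQ.1.1.1.sub_const 1).norm
      have e1 : bd Q (fun _ => 1) = ∫ y, ‖Q (b y) - 1‖ ∂Y.μ := by
        unfold bd
        rw [← hb.law, integral_map hb.meas.aemeasurable hm.aestronglyMeasurable]
      have hB : Bdd (fun y => Q (b y) - 1) :=
        Bdd.sub (IsPhase.bdd ⟨hQ.1.1.1.comp hb.meas, fun y => hQ.1.1.2 _⟩) (Bdd.const 1)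
      have e2 : dist2 Y.μ (fun y => Q (b y)) (fun _ => 1) ≤ 2 * ∫ y, ‖Q (b y) - 1‖ ∂Y.μ := by
        unfold dist2
        rw [← integral_const_mul]
        refine integral_mono_of_nonneg (ae_of_all _ fun y => by positivity)
          ((hB.integrable Y.μ).norm.const_mul 2) (ae_of_all _ fun y => ?_)
        show ‖Q (b y) - 1‖ ^ 2 ≤ 2 * ‖Q (b y) - 1‖
        have e3 : ‖Q (b y) - 1‖ ≤ 2 := by
          calc ‖Q (b y) - 1‖ ≤ ‖Q (b y)‖ + ‖(1 : ℂ)‖ := norm_sub_le _ _
            _ = 2 := by rw [hQ.1.1.2, norm_one]; norm_num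
        nlinarith [norm_nonneg (Q (b y) - 1)]
      rw [← e1] at e2
      have e4 : (1 / 4 : ℝ) ^ (n + 2) = (1 / 4) ^ (n + 1) * (1 / 4) := pow_succ _ _
      have e5 : (0 : ℝ) < (1 / 4) ^ (n + 1) := by positivity
      rw [e4] at hbd
      linarith
    obtain ⟨c, hc, hQc⟩ := hS0 (NM m) Y hErg n (fun y => Q (b y)) 1 norm_one hph hbd'
    refine ⟨c, ?_⟩
    refine LiftGrp.ae_of_box hV P hQ.1 (F' := fun _ => c)
      ⟨⟨measurable_const, fun _ => hc⟩, fun _ _ _ => rfl⟩ ?_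
    show ∀ᵐ z ∂(volume.restrict (box d)), Q z = c
    rw [← hb.law]
    exact (ae_map_iff hb.meas.aemeasurable (hQ.1.1.1 (measurableSet_singleton c))).2 hQc

end MPd26.HK
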