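import Pool.Agent.Lib.MP_d26cd8_an.HK.Dist
import Pool.Agent.Lib.MP_d26cd8_an.HK.Spec

/-!
# MP_d26cd8_an, section 2: basic facts on phases, the measure `μ^[1]`, conditional
expectations under side maps
-/

set_option autoImplicit false

open MeasureTheory ProbabilityTheory Filter Topology
open scoped ComplexConjugate ENNReal

namespace MPd26.HK
namespace PhM

section Gen
variable {Ω : Type} {m : MeasurableSpace Ω} [mΩ : MeasurableSpace Ω] {μ : Measure Ω}

/-- composition with a map which is measurable for the small σ-algebra -/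
lemma aesm_comp {E : Type} [TopologicalSpace E] {f : Ω → E} (hf : AEStronglyMeasurable[m] f μ)
    {T : Ω → Ω} (hT : MeasurePreserving T μ μ) (hTm : Measurable[m, m] T) :
    AEStronglyMeasurable[m] (fun x => f (T x)) μ := by
  obtain ⟨g, hg, hfg⟩ := hf
  exact ⟨fun x => g (T x), hg.comp_measurable hTm, hT.quasiMeasurePreserving.ae_eq_comp hfg⟩

/-- composition with a map between two spaces -/
lemma aesm_comp' {Ω' : Type} {m' : MeasurableSpace Ω'} [mΩ' : MeasurableSpace Ω'] {ν : Measure Ω'}
    {E : Type} [TopologicalSpace E] {f : Ω' → E} (hf : AEStronglyMeasurable[m'] f ν)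
    {T : Ω → Ω'} (hT : MeasurePreserving T μ ν) (hTm : Measurable[m, m'] T) :
    AEStronglyMeasurable[m] (fun x => f (T x)) μ := by
  obtain ⟨g, hg, hfg⟩ := hf
  exact ⟨fun x => g (T x), hg.comp_measurable hTm, hT.quasiMeasurePreserving.ae_eq_comp hfg⟩

lemma aesm_mul {f g : Ω → ℂ} (hf : AEStronglyMeasurable[m] f μ) (hg : AEStronglyMeasurable[m] g μ) :
    AEStronglyMeasurable[m] (fun x => f x * g x) μ := by
  obtain ⟨f', hf', hff'⟩ := hf
  obtain ⟨g', hg', hgg'⟩ := hg
  exact ⟨fun x => f' x * g' x, hf'.mul hg', hff'.mul hgg'⟩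

lemma aesm_conj {f : Ω → ℂ} (hf : AEStronglyMeasurable[m] f μ) :
    AEStronglyMeasurable[m] (fun x => conj (f x)) μ := by
  obtain ⟨f', hf', hff'⟩ := hf
  refine ⟨fun x => conj (f' x), Complex.continuous_conj.comp_stronglyMeasurable hf', ?_⟩
  filter_upwards [hff'] with x hx
  rw [hx]

lemma aesm_congr {f g : Ω → ℂ} (hf : AEStronglyMeasurable[m] f μ) (h : g =ᵐ[μ] f) :
    AEStronglyMeasurable[m] g μ := by
  obtain ⟨f', hf', hff'⟩ := hf
  exact ⟨f', hf', h.trans hff'⟩

/-- conditional expectations and invertible maps preserving the small σ-algebra -/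
lemma condExp_comp (hm : m ≤ mΩ) [IsFiniteMeasure μ] {T T' : Ω → Ω} (hT : MeasurePreserving T μ μ)
    (h1 : ∀ x, T' (T x) = x) (hTm : Measurable[m, m] T) (hT'm : Measurable[m, m] T')
    {f : Ω → ℂ} (hf : Integrable f μ) :
    (fun x => (μ[f | m]) (T x)) =ᵐ[μ] μ[fun x => f (T x) | m] := by
  refine ae_eq_condExp_of_forall_setIntegral_eq hm (hT.integrable_comp_of_integrable hf)
    (fun s _ _ => (hT.integrable_comp_of_integrable integrable_condExp).integrableOn) ?_ ?_
  · intro s hs _
    have hs' : MeasurableSet[m] (T' ⁻¹' s) := hT'm hs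
    have hpre : T ⁻¹' (T' ⁻¹' s) = s := by
      ext x; simp [h1]
    have key : ∀ g : Ω → ℂ, Integrable g μ →
        ∫ x in s, g (T x) ∂μ = ∫ x in T' ⁻¹' s, g x ∂μ := by
      intro g hg
      have h2 := hT.restrict_preimage (hm _ hs')
      rw [hpre] at h2
      rw [← h2.map_eq, integral_map hT.measurable.aemeasurable]
      rw [h2.map_eq]
      exact hg.aestronglyMeasurable.restrict
    rw [key _ integrable_condExp, key _ hf, setIntegral_condExp hm hf hs']
  · exact (stronglyMeasurable_condExp.comp_measurable hTm).aestronglyMeasurable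

end Gen

section Sys
variable {α : Type} [mα : MeasurableSpace α] [StandardBorelSpace α] (X : Sys α)

lemma erg_condExp_zero (hX : X.Erg) {B : Set (Cube 0 α)} (hB : MeasurableSet B) :
    ∀ᵐ x ∂(X.cm 0), (condExpKernel (X.cm 0) (X.inv 0) x) B = X.cm 0 B := by
  have hle := X.inv_le 0
  have e1 := condExpKernel_ae_eq_condExp (μ := X.cm 0) hle hB
  have e2 : (fun _ : Cube 0 α => (X.cm 0).real B) =ᵐ[X.cm 0]
      (X.cm 0)[B.indicator (fun _ => (1 : ℝ)) | X.inv 0] := by
    refine ae_eq_condExp_of_forall_setIntegral_eq hle ((integrable_const (1 : ℝ)).indicator hB)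
      (fun s _ _ => (integrable_const _).integrableOn) ?_
      stronglyMeasurable_const.aestronglyMeasurable
    intro s hs _
    obtain ⟨hs1, hs2⟩ := MeasurableSpace.measurableSet_invariants.1 hs
    have h01 : X.cm 0 s = 0 ∨ X.cm 0 sᶜ = 0 := by
      have hpt : MeasurableSet (pt ⁻¹' s : Set α) := measurable_pt hs1
      have hinv : X.S ⁻¹' (pt ⁻¹' s) = pt ⁻¹' s := by
        have : X.S ⁻¹' (pt ⁻¹' s) = pt ⁻¹' (cmap X.S ⁻¹' s) := rfl
        rw [this, hs2]
      rcases hX.toPreErgodic.measure_self_or_compl_eq_zero hpt hinv with h | h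
      · left; rw [Sys.cm_zero, Measure.map_apply measurable_pt hs1]; exact h
      · right; rw [Sys.cm_zero, Measure.map_apply measurable_pt hs1.compl]; exact h
    rw [setIntegral_indicator hB]
    simp only [integral_const, smul_eq_mul, mul_one, measureReal_restrict_apply_univ]
    rcases h01 with h | h
    · have h1 : (X.cm 0).real s = 0 := by rw [Measure.real, h]; rfl
      have h2 : (X.cm 0).real (s ∩ B) = 0 := by
        rw [Measure.real, measure_mono_null Set.inter_subset_left h]; rfl
      rw [h1, h2, zero_mul]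
    · have h1 : (X.cm 0).real s = 1 := by
        have := prob_compl_eq_zero_iff (μ := X.cm 0) hs1
        rw [Measure.real, this.1 h]; rfl
      have h2 : (X.cm 0).real (s ∩ B) = (X.cm 0).real B := by
        rw [Measure.real, Measure.real]
        congr 1
        apply measure_congr
        have : s =ᵐ[X.cm 0] Set.univ := by
          rw [ae_eq_univ]; exact h
        have h3 := this.inter (Filter.EventuallyEq.refl _ B)
        simpa using h3
      rw [h1, h2, one_mul]
  filter_upwards [e1, e2] with x h1 h2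
  rw [← ofReal_measureReal, ← ofReal_measureReal, h1, ← h2]

/-- `μ^[1] = μ × μ` for an ergodic system. -/
lemma relSq_zero (hX : X.Erg) :
    relSq (X.inv_le 0) (X.cm 0) = (X.cm 0).prod (X.cm 0) := by
  refine Measure.ext_prod fun {A B} hA hB => ?_
  rw [relSq_prod _ _ hA hB, Measure.prod_prod]
  have := erg_condExp_zero X hX hB
  rw [setLIntegral_congr_fun_ae hA (this.mono fun x hx _ => hx), setLIntegral_const, mul_comm]

/-- Almost everywhere statements for `μ^[1]`. -/
lemma ae_cm_one (hX : X.Erg) {P : Cube 1 α → Prop} (hP : ∀ᵐ x ∂(X.cm 1), P x) :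
    ∀ᵐ b ∂X.μ, ∀ᵐ a ∂X.μ, P (join (pt a, pt b)) := by
  have h1 := (X.ae_cm_succ_iff 0).1 hP
  rw [relSq_zero X hX] at h1
  have h2 : ∀ᵐ p ∂((X.cm 0).prod (X.cm 0)), P (join (p.2, p.1)) :=
    (Measure.measurePreserving_swap (μ := X.cm 0) (ν := X.cm 0)).quasiMeasurePreserving.ae h1
  have h3 := Measure.ae_ae_of_ae_prod h2
  have hpt : MeasurePreserving (pt : α → Cube 0 α) X.μ (X.cm 0) := ⟨measurable_pt, rfl⟩
  have h4 := hpt.quasiMeasurePreserving.ae h3
  filter_upwards [h4] with b hb
  exact hpt.quasiMeasurePreserving.ae hb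

omit [StandardBorelSpace α] in
variable {X} in
lemma measurable_cmap_cube (N : X.Factor) (n : ℕ) {g : α → α} (hg : Measurable[N.σ, N.σ] g) :
    Measurable[N.cube n, N.cube n] (cmap g : Cube n α → Cube n α) :=
  @measurable_pi_lambda _ _ _ (N.cube n) (fun _ => N.σ) _ fun ε =>
    hg.comp (@measurable_pi_apply _ _ (fun _ => N.σ) ε)

omit [StandardBorelSpace α] in
variable {X} in
lemma measurable_coord_cube (N : X.Factor) (n : ℕ) (ε : Vx n) :
    Measurable[N.cube n, N.σ] (fun x : Cube n α => x ε) :=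
  @measurable_pi_apply _ _ (fun _ => N.σ) ε

omit [StandardBorelSpace α] in
variable {X} in
lemma measurable_appOn_cube (N : X.Factor) (n : ℕ) {g : α → α} (hg : Measurable[N.σ, N.σ] g)
    (F : Set (Vx n)) :
    Measurable[N.cube n, N.cube n] (appOn g F : Cube n α → Cube n α) := by
  classical
  refine @measurable_pi_lambda _ _ _ (N.cube n) (fun _ => N.σ) _ fun ε => ?_
  unfold appOn
  by_cases h : ε ∈ F
  · simp only [h, if_true]
    exact hg.comp (measurable_coord_cube N n ε)
  · simp only [h, if_false]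
    exact measurable_coord_cube N n ε

omit [StandardBorelSpace α] in
variable {X} in
lemma cube_le (N : X.Factor) (n : ℕ) : N.cube n ≤ (MeasurableSpace.pi : MeasurableSpace (Cube n α)) := by
  unfold FactorOf.cube
  exact iSup_mono fun ε => MeasurableSpace.comap_mono N.le

omit [StandardBorelSpace α] in
variable {X} in
lemma measurable_S (N : X.Factor) : Measurable[N.σ, N.σ] X.S := fun s hs => N.inv s hs

omit [StandardBorelSpace α] in
variable {X} in
lemma measurable_Ssymm (N : X.Factor) : Measurable[N.σ, N.σ] X.S.symm := fun s hs => N.inv' s hs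

omit [StandardBorelSpace α] in
variable {X} in
lemma measurable_lo_cube (N : X.Factor) (n : ℕ) :
    Measurable[N.cube (n + 1), N.cube n] (lo : Cube (n + 1) α → Cube n α) :=
  @measurable_pi_lambda _ _ _ (N.cube (n + 1)) (fun _ => N.σ) _ fun _ =>
    measurable_coord_cube N (n + 1) _

omit [StandardBorelSpace α] in
variable {X} in
lemma measurable_hi_cube (N : X.Factor) (n : ℕ) :
    Measurable[N.cube (n + 1), N.cube n] (hi : Cube (n + 1) α → Cube n α) :=
  @measurable_pi_lambda _ _ _ (N.cube (n + 1)) (fun _ => N.σ) _ fun _ =>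
    measurable_coord_cube N (n + 1) _

/-! ### the groups `Ph` -/

variable {X} {N : X.Factor} {n : ℕ} {φ ψ : α → ℂ}

lemma Ph.mul (h1 : X.Ph N n φ) (h2 : X.Ph N n ψ) : X.Ph N n (fun x => φ x * ψ x) := by
  refine ⟨h1.1.mul h2.1, ?_⟩
  have : cp (fun y => φ y * ψ y) n = fun x => cp φ n x * cp ψ n x := by
    funext x; exact cp_mul φ ψ x
  rw [this]
  exact aesm_mul h1.2 h2.2

lemma Ph.conj (h1 : X.Ph N n φ) : X.Ph N n (fun x => conj (φ x)) := by
  refine ⟨h1.1.conj, ?_⟩
  have : cp (fun y => conj (φ y)) n = fun x => conj (cp φ n x) := by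
    funext x; exact cp_conj φ x
  rw [this]
  exact aesm_conj h1.2

lemma Ph.compS (h1 : X.Ph N n φ) : X.Ph N n (fun x => φ (X.S x)) := by
  refine ⟨h1.1.comp X.S.measurable, ?_⟩
  have : cp (fun y => φ (X.S y)) n = fun x => cp φ n (cmap X.S x) := by
    funext x; exact (cp_cmap φ X.S x).symm
  rw [this]
  exact aesm_comp h1.2 (X.mp_cmap n) (measurable_cmap_cube N n (measurable_S N))

lemma Ph.compIter (h1 : X.Ph N n φ) (j : ℕ) : X.Ph N n (fun x => φ (X.S^[j] x)) := by
  induction j with
  | zero => exact h1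
  | succ j ih =>
    have := Ph.compS ih
    refine (congrArg (X.Ph N n) ?_).mpr this
    funext x
    rw [Function.iterate_succ_apply]

/-- `N`-measurable phases (mod null sets) are in all `Ph`. -/
lemma Ph.of_meas (hφ : IsPhase φ) (hm : AEStronglyMeasurable[N.σ] φ X.μ) : X.Ph N n φ := by
  refine ⟨hφ, ?_⟩
  obtain ⟨g, hg, hφg⟩ := hm
  refine ⟨cp g n, ?_, ?_⟩
  · have h0 : Measurable[N.cube n] (cp g n) :=
      @Finset.measurable_prod _ _ _ _ _ _ (N.cube n) _ _ fun ε _ =>
        (measurable_sg ε).comp (hg.measurable.comp (measurable_coord_cube N n ε))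
    exact h0.stronglyMeasurable
  · have h1 : ∀ ε : Vx n, ∀ᵐ x ∂(X.cm n), φ (x ε) = g (x ε) := fun ε =>
      (X.mp_marg n ε).quasiMeasurePreserving.ae_eq_comp hφg
    filter_upwards [ae_all_iff.2 h1] with x hx
    unfold cp
    exact Finset.prod_congr rfl fun ε _ => by rw [hx ε]

lemma Ph.const {c : ℂ} (hc : ‖c‖ = 1) : X.Ph N n (fun _ => c) :=
  Ph.of_meas (IsPhase.const hc) stronglyMeasurable_const.aestronglyMeasurable

end Sys

end PhM
end MPd26.HK
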