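import Pool.Agent.Lib.MP_d26cd8_an.HK.Ph

/-!
# MP_d26cd8_an, modules Sep and Sep0 (Lemma 2.1)
-/

set_option autoImplicit false

open MeasureTheory ProbabilityTheory Filter Topology
open scoped ComplexConjugate ENNReal

namespace MPd26.HK
namespace SepM

open PhM

section Dist
variable {Ω : Type} [mΩ : MeasurableSpace Ω] {μ : Measure Ω} [IsProbabilityMeasure μ]

/-- distance of two phases -/
lemma dist2_phase {φ ψ : Ω → ℂ} (hφ : IsPhase φ) (hψ : IsPhase ψ) :
    dist2 μ φ ψ = 2 - 2 * (∫ x, φ x * conj (ψ x) ∂μ).re := by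
  have h1 : ∀ x, ‖φ x - ψ x‖ ^ 2 = 2 - 2 * (φ x * conj (ψ x)).re := by
    intro x
    have hexp : ‖φ x - ψ x‖ ^ 2 = ‖φ x‖ ^ 2 + ‖ψ x‖ ^ 2 - 2 * (φ x * conj (ψ x)).re := by
      rw [← Complex.normSq_eq_norm_sq, ← Complex.normSq_eq_norm_sq, ← Complex.normSq_eq_norm_sq,
        Complex.normSq_apply, Complex.normSq_apply, Complex.normSq_apply, Complex.mul_re,
        Complex.conj_re, Complex.conj_im, Complex.sub_re, Complex.sub_im]
      ring
    rw [hexp, hφ.2, hψ.2]; ring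
  have hint : Integrable (fun x => φ x * conj (ψ x)) μ := (hφ.mul hψ.conj).bdd.integrable μ
  unfold dist2
  simp only [h1]
  have h2 : ∫ x, (φ x * conj (ψ x)).re ∂μ = (∫ x, φ x * conj (ψ x) ∂μ).re := integral_re hint
  have h3 : Integrable (fun x => 2 * (φ x * conj (ψ x)).re) μ := hint.re.const_mul 2
  rw [integral_sub (integrable_const _) h3, integral_const_mul, h2]
  simp

lemma sqrt_dist2_le_two {f g h : Ω → ℂ} (hf : Bdd f) (hg : Bdd g) (hh : Bdd h) {a b : ℝ}
    (h1 : Real.sqrt (dist2 μ f g) ≤ a) (h2 : Real.sqrt (dist2 μ g h) ≤ b) :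
    Real.sqrt (dist2 μ f h) ≤ a + b :=
  (dist2_triangle (hf.memLp μ 2) (hg.memLp μ 2) (hh.memLp μ 2)).trans (add_le_add h1 h2)

/-- products of phases -/
lemma sqrt_dist2_mul {φ φ' ψ ψ' : Ω → ℂ} (h1 : IsPhase φ) (h2 : IsPhase φ') (h3 : IsPhase ψ)
    (h4 : IsPhase ψ') {a b : ℝ} (ha : Real.sqrt (dist2 μ φ φ') ≤ a)
    (hb : Real.sqrt (dist2 μ ψ ψ') ≤ b) :
    Real.sqrt (dist2 μ (fun x => φ x * ψ x) (fun x => φ' x * ψ' x)) ≤ a + b := by
  refine sqrt_dist2_le_two (g := fun x => φ' x * ψ x) (h1.mul h3).bdd (h2.mul h3).bdd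
    (h2.mul h4).bdd ?_ ?_
  · have e : dist2 μ (fun x => φ x * ψ x) (fun x => φ' x * ψ x) = dist2 μ φ φ' := by
      have := dist2_phase_mul (μ := μ) h3.2 φ φ'
      rw [← this]
      congr 1 <;> funext x <;> ring
    rw [e]; exact ha
  · rw [dist2_phase_mul h2.2]; exact hb

omit [IsProbabilityMeasure μ] in
lemma dist2_mul_conj_one {φ ψ : Ω → ℂ} (hψ : IsPhase ψ) :
    dist2 μ (fun x => φ x * conj (ψ x)) (fun _ => 1) = dist2 μ φ ψ := by
  have := dist2_phase_mul (μ := μ) hψ.conj.2 φ ψ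
  rw [← this]
  congr 1
  · funext x; ring
  · funext x; exact (hψ.conj_mul x).symm

end Dist

section Erg
variable {α : Type} [mα : MeasurableSpace α] [StandardBorelSpace α] (X : Sys α)

omit [StandardBorelSpace α] in
lemma erg_const (hX : Ergodic X.S X.μ) {F : α → ℂ} (hF : Measurable F)
    (h : ∀ᵐ x ∂X.μ, F (X.S x) = F x) : ∃ c : ℂ, ∀ᵐ x ∂X.μ, F x = c := by
  obtain ⟨c, hc⟩ := hX.quasiErgodic.ae_eq_const_of_ae_eq_comp₀ hF.nullMeasurable h
  exact ⟨c, hc⟩

omit [StandardBorelSpace α] in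
lemma erg_const_real (hX : Ergodic X.S X.μ) {F : α → ℝ} (hF : Measurable F)
    (h : ∀ᵐ x ∂X.μ, F (X.S x) = F x) : ∃ c : ℝ, ∀ᵐ x ∂X.μ, F x = c := by
  obtain ⟨c, hc⟩ := hX.quasiErgodic.ae_eq_const_of_ae_eq_comp₀ hF.nullMeasurable h
  exact ⟨c, hc⟩

omit [StandardBorelSpace α] in
/-- a phase with nonzero conditional expectation whose derivative is `N`-measurable -/
lemma meas_of_der (N : X.Factor) (hX : X.Erg) {τ : α → ℂ} (hτ : IsPhase τ)
    (h0 : ∫ x, τ x ∂X.μ ≠ 0)
    (hd : AEStronglyMeasurable[N.σ] (fun x => τ (X.S x) * conj (τ x)) X.μ) :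
    AEStronglyMeasurable[N.σ] τ X.μ := by
  set w : α → ℂ := X.μ[τ | N.σ] with hw
  set θ : α → ℂ := fun x => τ (X.S x) * conj (τ x) with hθ
  have hθp : IsPhase θ := (hτ.comp X.S.measurable).mul hτ.conj
  have hwm : Measurable w := (stronglyMeasurable_condExp (m := N.σ)).measurable.mono N.le le_rfl
  have h1 := condExp_comp (μ := X.μ) N.le X.mp (T' := X.S.symm) (fun x => X.S.symm_apply_apply x)
    (measurable_S N) (measurable_Ssymm N) (hτ.bdd.integrable X.μ)
  have h2 : (fun x => τ (X.S x)) = fun x => θ x * τ x := by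
    funext x
    simp only [hθ]
    rw [mul_assoc, hτ.conj_mul, mul_one]
  rw [h2] at h1
  have h3 := condExp_mul_left (m := N.σ) (μ := X.μ) hd ((hθp.mul hτ).bdd.integrable X.μ)
    (hτ.bdd.integrable X.μ)
  have h4 : ∀ᵐ x ∂X.μ, w (X.S x) = θ x * w x := by
    filter_upwards [h1, h3] with x e1 e2
    exact e1.trans e2
  obtain ⟨c, hc⟩ := erg_const_real X hX (F := fun x => ‖w x‖) hwm.norm
    (h4.mono fun x hx => by rw [hx, norm_mul, hθp.2, one_mul])
  obtain ⟨d, hd'⟩ := erg_const X hX (F := fun x => τ x * conj (w x))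
    (hτ.1.mul (Complex.continuous_conj.measurable.comp hwm))
    (h4.mono fun x hx => by
      rw [hx, map_mul]
      have e1 : τ (X.S x) = θ x * τ x := congrFun h2 x
      rw [e1]
      have e2 := hθp.mul_conj x
      calc θ x * τ x * (conj (θ x) * conj (w x)) = (θ x * conj (θ x)) * (τ x * conj (w x)) := by ring
        _ = _ := by rw [e2, one_mul])
  have hc0 : c ≠ 0 := by
    intro h
    apply h0
    rw [← integral_condExp N.le]
    have : w =ᵐ[X.μ] 0 := by
      filter_upwards [hc] with x hx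
      rw [h] at hx
      exact norm_eq_zero.1 hx
    rw [integral_congr_ae this]
    simp
  refine aesm_congr (f := fun x => (d / ((c : ℂ) ^ 2)) * w x)
    (stronglyMeasurable_condExp.const_mul _).aestronglyMeasurable ?_
  filter_upwards [hc, hd'] with x e1 e2
  have e3 : conj (w x) * w x = (c : ℂ) ^ 2 := by
    rw [mul_comm, Complex.mul_conj, Complex.normSq_eq_norm_sq, e1]; push_cast; rfl
  have hcc : (c : ℂ) ^ 2 ≠ 0 := pow_ne_zero _ (by exact_mod_cast hc0)
  rw [div_mul_eq_mul_div, eq_div_iff hcc, ← e3, ← e2]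
  ring

/-- level one -/
lemma meas_of_one (N : X.Factor) (hX : X.Erg) {τ : α → ℂ} (hτ : X.Ph N 1 τ) :
    AEStronglyMeasurable[N.σ] τ X.μ := by
  obtain ⟨hp, Q, hQ, hQe⟩ := hτ
  have h1 := ae_cm_one X hX hQe
  obtain ⟨b, hb⟩ := h1.exists
  refine ⟨fun a => Q (join (pt a, pt b)) * τ b, ?_, ?_⟩
  · have hm : Measurable[N.σ, N.cube 1] (fun a : α => (join (pt a, pt b) : Cube 1 α)) := by
      refine @measurable_pi_lambda _ _ _ N.σ (fun _ => N.σ) _ fun ε => ?_
      unfold join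
      by_cases h : ε 0 = true
      · simp only [h, if_true]
        exact @measurable_const _ _ N.σ N.σ _
      · simp only [h]
        exact @measurable_id _ N.σ
    exact (hQ.comp_measurable hm).mul_const _
  · filter_upwards [hb] with a ha
    rw [← ha, cp_join, cp_zero, cp_zero]
    change τ a = τ a * conj (τ b) * τ b
    rw [mul_assoc, hp.conj_mul, mul_one]

omit [StandardBorelSpace α] in
lemma integral_ne_zero {τ : α → ℂ} (hτ : IsPhase τ) (h : dist2 X.μ τ (fun _ => 1) < 2) :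
    ∫ x, τ x ∂X.μ ≠ 0 := by
  intro h0
  rw [dist2_phase hτ (IsPhase.const (by simp))] at h
  simp only [map_one, mul_one, h0, Complex.zero_re, mul_zero, sub_zero] at h
  exact lt_irrefl _ h

end Erg

end SepM

open PhM SepM in
/-- module Sep -/
theorem specSep (hPD : SpecPhDer) (hSS : SpecSideS) : SpecSep := by
  intro α _ _ X N hX m
  induction m with
  | zero =>
    intro τ hτ _
    exact meas_of_one X N hX hτ
  | succ m ih =>
    intro τ hτ hd
    have hside := (hSS α X (m + 2)).1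
    have h1 := hPD α X N m X.S (fun s hs => N.inv s hs) X.mp hside τ hτ
    have hle : (1 / 4 : ℝ) ^ (m + 1 + 1) ≤ 1 / 4 := by
      calc (1 / 4 : ℝ) ^ (m + 1 + 1) ≤ (1 / 4 : ℝ) ^ 1 :=
            pow_le_pow_of_le_one (by norm_num) (by norm_num) (by omega)
        _ = _ := by norm_num
    apply meas_of_der X N hX hτ.1 (integral_ne_zero X hτ.1 (by linarith))
    apply ih _ h1
    rw [dist2_mul_conj_one hτ.1]
    have e1 : Real.sqrt (dist2 X.μ (fun x => τ (X.S x)) τ) ≤
        Real.sqrt (dist2 X.μ τ (fun _ => 1)) + Real.sqrt (dist2 X.μ τ (fun _ => 1)) := by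
      refine sqrt_dist2_le_two (g := fun _ => 1) (hτ.1.comp X.S.measurable).bdd (Bdd.const 1)
        hτ.1.bdd ?_ ?_
      · rw [dist2_comp X.mp hτ.1.1 measurable_const]
      · rw [dist2_comm]
    have e2 : dist2 X.μ (fun x => τ (X.S x)) τ ≤ 4 * dist2 X.μ τ (fun _ => 1) := by
      have h3 := dist2_nonneg (μ := X.μ) (fun x => τ (X.S x)) τ
      have h4 := dist2_nonneg (μ := X.μ) τ (fun _ => 1)
      have h5 := Real.sqrt_nonneg (dist2 X.μ (fun x => τ (X.S x)) τ)
      have h6 := Real.sqrt_nonneg (dist2 X.μ τ (fun _ => 1))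
      have h7 := Real.sq_sqrt h3
      have h8 := Real.sq_sqrt h4
      nlinarith
    calc _ ≤ 4 * dist2 X.μ τ (fun _ => 1) := e2
      _ < 4 * (1 / 4 : ℝ) ^ (m + 1 + 1) := by linarith
      _ = (1 / 4 : ℝ) ^ (m + 1) := by rw [pow_succ (1 / 4 : ℝ) (m + 1)]; ring

open PhM SepM in
/-- module Sep0 -/
theorem specSep0 (hS : SpecSep) : SpecSep0 := by
  intro α _ _ X hX m τ c hc hτ hd
  have h1 : X.Ph X.triv (m + 1) (fun x => conj c * τ x) :=
    Ph.mul (Ph.const (by rw [RCLike.norm_conj]; exact hc)) hτ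
  have hcc : conj c * c = 1 := by
    rw [mul_comm, Complex.mul_conj, Complex.normSq_eq_norm_sq, hc]; simp
  have h2 : dist2 X.μ (fun x => conj c * τ x) (fun _ => 1) < (1 / 4 : ℝ) ^ (m + 1) := by
    have := dist2_phase_mul (μ := X.μ) (φ := fun _ => conj c)
      (fun _ => by rw [RCLike.norm_conj]; exact hc) τ (fun _ => c)
    simp only [hcc] at this
    rw [this]; exact hd
  obtain ⟨g, hg, hge⟩ := hS α X X.triv hX m _ h1 h2
  have hconst : ∃ k : ℂ, g = fun _ => k := by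
    have hg' : StronglyMeasurable[⊥] g := hg
    have := stronglyMeasurable_bot_iff (f := g) |>.1 hg'
    exact this
  obtain ⟨k, hk⟩ := hconst
  have h3 : ∀ᵐ x ∂X.μ, τ x = c * k := by
    filter_upwards [hge] with x hx
    rw [hk] at hx
    simp only at hx
    rw [← hx, ← mul_assoc, mul_comm c, hcc, one_mul]
  refine ⟨c * k, ?_, h3⟩
  obtain ⟨x, hx⟩ := h3.exists
  rw [← hx]; exact hτ.1.2 x

end MPd26.HK
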