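import Pool.Agent.Lib.MP_d26cd8_an.HK.BridgeSpec
import Pool.Agent.Lib.MP_d26cd8_an.HK.Nil
import Pool.Agent.Lib.MP_d26cd8_an.HK.Ph
import Pool.Agent.Lib.MP_d26cd8_an.HK.Sep

/-!
# RHO: multiplicative derivatives of a phase along the flow (project 86, bridge, 5(a))
-/

set_option autoImplicit false

open MeasureTheory ProbabilityTheory Filter Topology
open scoped ComplexConjugate ENNReal

namespace MPd26.HK

open MPd26.Nil

theorem specRho (hPD : SpecPhDer) (hSep : SpecSep) (hFS : SpecFlowSide) (hFC : SpecFlowCont) :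
    SpecRho := by
  classical
  intro α _ _ Fl θ hF hE m π hπ d φ K hφ hK hφK t
  obtain ⟨hπm, ξ, hξ, hπξ⟩ := hπ
  have hfm := NilM.fmap_nil Fl θ hπm ξ hπξ
  set X := Fl.sys θ with hX
  set N := hfm.fac with hN
  -- invariance of the factor
  have hinv : ∀ s A, MeasurableSet[N.σ] A → MeasurableSet[N.σ] (Fl.T s ⁻¹' A) := by
    rintro s A ⟨hA, B, hB, hAB⟩
    refine ⟨Fl.measT s hA, (fun y : NM m => expU (s • ξ) • y) ⁻¹' B,
      (continuous_const_smul (expU (s • ξ))).measurable hB, ?_⟩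
    have h1 : Fl.T s ⁻¹' A =ᵐ[Fl.μ] Fl.T s ⁻¹' (π ⁻¹' B) :=
      (Fl.mp s).quasiMeasurePreserving.preimage_ae_eq hAB
    refine h1.trans ?_
    filter_upwards [hπξ s] with x hx
    show (π (Fl.T s x) ∈ B) = (expU (s • ξ) • π x ∈ B)
    rw [hx]
  have hTm : ∀ s, Measurable[N.σ, N.σ] (Fl.T s) := fun s A hA => hinv s A hA
  -- the phase
  have hPh : X.Ph N (d + 2) φ := by
    refine ⟨hφ, ?_⟩
    have h1 : Measurable[N.cube (d + 2)] (fun x : Cube (d + 2) α => K (cmap π x)) :=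
      hK.comp (hfm.meas_cmap (d + 2))
    exact PhM.aesm_congr h1.stronglyMeasurable.aestronglyMeasurable hφK
  have hder : ∀ s, X.Ph N (d + 1) (fun x => φ (Fl.T s x) * conj (φ x)) := fun s =>
    hPD α X N d (Fl.eqv s) (fun A hA => hinv s A hA) (Fl.mp s) ((hFS α Fl θ s hE (d + 2)).1) φ hPh
  have hphT : ∀ s, IsPhase (fun x => φ (Fl.T s x)) := fun s => hφ.comp (Fl.measT s)
  -- small times
  obtain ⟨t0, ht0, hsmall⟩ : ∃ t0 : ℝ, 0 < t0 ∧ ∀ s : ℝ, |s| < t0 →
      AEStronglyMeasurable[N.σ] (fun x => φ (Fl.T s x) * conj (φ x)) Fl.μ := by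
    have h1 := (tendsto_order.1 (hFC α Fl φ hφ.bdd)).2 ((1 / 4 : ℝ) ^ (d + 1)) (by positivity)
    obtain ⟨t0, ht0, h2⟩ := Metric.eventually_nhds_iff.1 h1
    refine ⟨t0, ht0, fun s hs => ?_⟩
    refine hSep α X N hE d _ (hder s) ?_
    have h3 := SepM.dist2_mul_conj_one (μ := Fl.μ) (φ := fun x => φ (Fl.T s x)) hφ
    have h4 := h2 (y := s) (by rwa [Real.dist_eq, sub_zero])
    rw [← h3] at h4
    exact h4
  -- multiples of a small time
  have hmul : ∀ (s : ℝ), |s| < t0 → ∀ n : ℕ,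
      AEStronglyMeasurable[N.σ] (fun x => φ (Fl.T (n * s) x) * conj (φ x)) Fl.μ := by
    intro s hs n
    induction n with
    | zero =>
      have : (fun x => φ (Fl.T (((0 : ℕ) : ℝ) * s) x) * conj (φ x)) = fun _ => (1 : ℂ) := by
        funext x
        rw [Nat.cast_zero, zero_mul, Fl.T_zero]
        exact hφ.mul_conj x
      rw [this]
      exact aestronglyMeasurable_const
    | succ n ih =>
      have h1 := PhM.aesm_comp (hsmall s hs) (Fl.mp (n * s)) (hTm (n * s))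
      have h2 := PhM.aesm_mul h1 ih
      refine PhM.aesm_congr h2 (ae_of_all _ fun x => ?_)
      have h3 : Fl.T (((n + 1 : ℕ) : ℝ) * s) x = Fl.T s (Fl.T (n * s) x) := by
        rw [← Fl.T_add]
        congr 1
        push_cast
        ring
      simp only [h3]
      have h4 := hφ.conj_mul (Fl.T (n * s) x)
      calc φ (Fl.T s (Fl.T (n * s) x)) * conj (φ x)
          = φ (Fl.T s (Fl.T (n * s) x)) * (conj (φ (Fl.T (n * s) x)) * φ (Fl.T (n * s) x)) *
              conj (φ x) := by rw [h4, mul_one]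
        _ = _ := by ring
  -- all times
  obtain ⟨n, hn⟩ := exists_nat_gt (|t| / t0)
  have hn0 : (0 : ℝ) < n := lt_of_le_of_lt (by positivity) hn
  have hlt : |t / n| < t0 := by
    rw [abs_div, abs_of_pos hn0, div_lt_iff₀ hn0]
    rw [div_lt_iff₀ ht0] at hn
    linarith
  have hall : AEStronglyMeasurable[N.σ] (fun x => φ (Fl.T t x) * conj (φ x)) Fl.μ := by
    have := hmul (t / n) hlt n
    rwa [mul_div_cancel₀ t hn0.ne'] at this
  obtain ⟨R0, hR0, hfac⟩ := exists_fac (m' := N.σ) (μ := Fl.μ) (q := π)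
    (fun S hS => by obtain ⟨_, B, hB, h⟩ := hS; exact ⟨B, hB, h⟩)
    hall.stronglyMeasurable_mk.measurable
  have hset : MeasurableSet {y : NM m | ‖R0 y‖ = 1} :=
    (measurable_norm.comp hR0) (measurableSet_singleton 1)
  refine ⟨fun y => if ‖R0 y‖ = 1 then R0 y else 1,
    ⟨Measurable.ite hset hR0 measurable_const, fun y => ?_⟩, ?_⟩
  · show ‖(if ‖R0 y‖ = 1 then R0 y else 1)‖ = 1
    by_cases h : ‖R0 y‖ = 1
    · rw [if_pos h, h]
    · rw [if_neg h, norm_one]
  · filter_upwards [hfac, hall.ae_eq_mk] with x h1 h2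
    have h3 : φ (Fl.T t x) * conj (φ x) = R0 (π x) := h2.trans h1
    have h4 : ‖R0 (π x)‖ = 1 := by
      rw [← h3, norm_mul, hφ.2, RCLike.norm_conj, hφ.2, mul_one]
    simp only [h4, if_true]
    rw [← h3, mul_assoc, hφ.conj_mul, mul_one]

end MPd26.HK
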