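import Pool.Agent.Lib.MP_d26cd8_an.HK.BridgeSpec
import Pool.Agent.Lib.MP_d26cd8_an.HK.Ph

/-!
# YSIDE: side maps of an ergodic nilflow (project 86, bridge)
-/

set_option autoImplicit false

open MeasureTheory ProbabilityTheory Filter Topology
open scoped ComplexConjugate ENNReal

namespace MPd26.HK

open MPd26.Nil

namespace YSideM

section Pos
variable {Ω : Type} {m : MeasurableSpace Ω} [mΩ : MeasurableSpace Ω] [StandardBorelSpace Ω]

lemma relSq_pos (hm : m ≤ mΩ) (μ : Measure Ω) [IsFiniteMeasure μ] {B : Set Ω}
    (hB : MeasurableSet B) (h : μ B ≠ 0) : relSq hm μ (B ×ˢ B) ≠ 0 := by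
  intro h0
  rw [relSq_prod _ _ hB hB] at h0
  have h1 : ∀ᵐ x ∂(μ.restrict B), (condExpKernel μ m x) B = 0 := by
    have := (lintegral_eq_zero_iff (Kernel.measurable_coe (dis hm μ) hB)).1 h0
    exact this
  have h1' : ∀ᵐ x ∂μ, x ∈ B → (condExpKernel μ m x) B = 0 := (ae_restrict_iff' hB).1 h1
  have e1 := condExpKernel_ae_eq_condExp (μ := μ) hm hB
  set g := μ[B.indicator (fun _ => (1 : ℝ)) | m] with hg
  have hs : MeasurableSet[m] {x | g x = 0} :=
    stronglyMeasurable_condExp.measurable (measurableSet_singleton (0 : ℝ))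
  have h2 : ∫ x in {x | g x = 0}, g x ∂μ
      = ∫ x in {x | g x = 0}, B.indicator (fun _ => (1 : ℝ)) x ∂μ :=
    setIntegral_condExp hm ((integrable_const (1 : ℝ)).indicator hB) hs
  have h3 : ∫ x in {x | g x = 0}, g x ∂μ = 0 :=
    setIntegral_eq_zero_of_forall_eq_zero fun x hx => hx
  rw [h3, setIntegral_indicator hB] at h2
  simp only [integral_const, smul_eq_mul, mul_one, measureReal_restrict_apply_univ] at h2
  have h4 : μ ({x | g x = 0} ∩ B) = 0 := (measureReal_eq_zero_iff).1 h2.symm
  have h5 : ∀ᵐ x ∂μ, x ∉ {x | g x = 0} ∩ B := measure_eq_zero_iff_ae_notMem.1 h4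
  refine h (measure_eq_zero_iff_ae_notMem.2 ?_)
  filter_upwards [h1', e1, h5] with x h6 h7 h8 hx
  refine h8 ⟨?_, hx⟩
  show g x = 0
  rw [← h7, Measure.real, h6 hx]
  rfl

end Pos

section
variable {α : Type} [mα : MeasurableSpace α] [StandardBorelSpace α] (X : Sys α)

lemma allin_ne_zero {O : Set α} (hO : MeasurableSet O) (h : X.μ O ≠ 0) (n : ℕ) :
    X.cm n {z | ∀ i, z i ∈ O} ≠ 0 := by
  have hmeas : ∀ n, MeasurableSet {z : Cube n α | ∀ i, z i ∈ O} := fun n => by
    have : {z : Cube n α | ∀ i, z i ∈ O} = Set.univ.pi fun _ => O := by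
      ext z; simp
    rw [this]
    exact MeasurableSet.univ_pi fun _ => hO
  induction n with
  | zero =>
    rw [Sys.cm_zero, Measure.map_apply measurable_pt (hmeas 0)]
    have : pt ⁻¹' {z : Cube 0 α | ∀ i, z i ∈ O} = O := by
      ext x
      simp [pt]
    rw [this]
    exact h
  | succ n ih =>
    rw [Sys.cm_succ, Measure.map_apply measurable_join (hmeas (n + 1))]
    have : join ⁻¹' {z : Cube (n + 1) α | ∀ i, z i ∈ O} =
        {z : Cube n α | ∀ i, z i ∈ O} ×ˢ {z : Cube n α | ∀ i, z i ∈ O} := by
      ext p
      constructor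
      · intro hp
        constructor
        · intro ε
          have := hp (Fin.cons false ε)
          simpa [join] using this
        · intro ε
          have := hp (Fin.cons true ε)
          simpa [join] using this
      · rintro ⟨h1, h2⟩ ε
        unfold join
        by_cases h : ε 0 = true
        · simp only [h, if_true]
          exact h2 _
        · simp only [h]
          exact h1 _
    rw [this]
    exact relSq_pos _ _ (hmeas n) ih

end

end YSideM

theorem specYSide (hSide : SpecSide) (hFS : SpecFlowSide) (hSS : SpecSideS) : SpecYSide := by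
  classical
  intro m _ ξ hξ Fl θ hT hE x0 A hA hirr hHaar hsupp v hv n
  cases n with
  | zero => intro i; exact i.elim0
  | succ n =>
    intro i b
    set X := Fl.sys θ with hX
    -- the action of the flow on a side
    have hact : ∀ (j : Fin (n + 1) × Bool) (t : ℝ),
        (act (E ((side j.1 j.2 : Set (Vx (n + 1))).indicator (fun _ => t • ξ))) :
          Cube (n + 1) (NM m) → Cube (n + 1) (NM m)) = appOn (Fl.T t) (side j.1 j.2) := by
      intro j t
      funext z ε
      unfold act appOn E
      by_cases h : ε ∈ (side j.1 j.2 : Set (Vx (n + 1)))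
      · rw [Set.indicator_of_mem h, if_pos h, hT]
      · rw [Set.indicator_of_notMem h, if_neg h, expU_zero, one_smul]
    refine (?_ : MeasurePreserving (appOn (fun y : NM m => (x0 * E v () * x0⁻¹) • y) (side i b))
      (X.cm (n + 1)) (X.cm (n + 1)))
    have key := hSide (Vx (n + 1)) m ξ hξ x0 A hA hirr (Fin (n + 1) × Bool)
      (fun j => side j.1 j.2) (X.cm (n + 1)) inferInstance ?_ ?_ ?_ (i, b) v hv
      (fun ε => if ε ∈ (side i b : Set (Vx (n + 1))) then x0 * E v () * x0⁻¹ else 1)
      (fun ε => ⟨fun h => if_pos h, fun h => if_neg h⟩)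
    · have e : (act (fun ε => if ε ∈ (side i b : Set (Vx (n + 1))) then x0 * E v () * x0⁻¹ else 1) :
          Cube (n + 1) (NM m) → Cube (n + 1) (NM m)) =
          appOn (fun y : NM m => (x0 * E v () * x0⁻¹) • y) (side i b) := by
        funext z ε
        unfold act appOn
        by_cases h : ε ∈ (side i b : Set (Vx (n + 1)))
        · simp only [if_pos h]
        · simp only [if_neg h, one_smul]
      rw [e] at key
      exact key
    · intro j t
      rw [hact j t]
      exact (hFS (NM m) Fl θ t hE (n + 1)).1 j.1 j.2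
    · intro B hB hinv
      have h1 := (hSS (NM m) X n).2 hE (B.indicator fun _ => (1 : ℂ))
        (measurable_const.indicator hB) (fun i b => ae_of_all _ fun x => by
          have h2 := hinv (i, b) θ
          rw [hact (i, b) θ] at h2
          have h3 : appOn X.S (side i b) x ∈ B ↔ x ∈ B := by
            have : x ∈ appOn (Fl.T θ) (side i b) ⁻¹' B ↔ x ∈ B := by rw [h2]
            exact this
          by_cases hx : x ∈ B
          · rw [Set.indicator_of_mem hx, Set.indicator_of_mem (h3.2 hx)]
          · rw [Set.indicator_of_notMem hx, Set.indicator_of_notMem fun h => hx (h3.1 h)])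
      obtain ⟨c, hc⟩ := h1
      by_cases h1 : c = 1
      · right
        refine (prob_compl_eq_zero_iff hB).1 (measure_eq_zero_iff_ae_notMem.2 ?_)
        filter_upwards [hc] with x hx hxB
        rw [Set.indicator_of_notMem hxB, h1] at hx
        exact zero_ne_one hx
      · left
        refine measure_eq_zero_iff_ae_notMem.2 ?_
        filter_upwards [hc] with x hx hxB
        rw [Set.indicator_of_mem hxB] at hx
        exact h1 hx.symm
    · intro O hO hx
      exact pos_iff_ne_zero.2 (YSideM.allin_ne_zero X hO.measurableSet (hsupp O hO hx).ne' (n + 1))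

end MPd26.HK
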