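import Pool.Agent.Lib.MP_d26cd8_an.HK.Flow
import Pool.Agent.Lib.MP_d26cd8_an.HK.Sq
import Pool.Agent.Lib.MP_d26cd8_an.HK.BoxOne
import Pool.Agent.Lib.MP_d26cd8_an.HK.A_Nonneg

/-!
# MP_d26cd8_an, HK: box averages of a flow along `T_1` from those along small irrational times
(module BoxFlow, text [D 6.2])
-/

set_option autoImplicit false

open MeasureTheory ProbabilityTheory Filter Topology
open scoped ComplexConjugate ENNReal

namespace MPd26.HK

namespace BoxFlowM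

/-! ## Products -/

lemma norm_prod_sub_prod {ι : Type} (s : Finset ι) (a b : ι → ℂ) {C : ℝ} (hC : 1 ≤ C)
    (ha : ∀ i ∈ s, ‖a i‖ ≤ C) (hb : ∀ i ∈ s, ‖b i‖ ≤ C) :
    ‖∏ i ∈ s, a i - ∏ i ∈ s, b i‖ ≤ C ^ s.card * ∑ i ∈ s, ‖a i - b i‖ := by
  classical
  have hC0 : 0 ≤ C := zero_le_one.trans hC
  induction s using Finset.induction_on with
  | empty => simp
  | insert i s hi ih =>
    rw [Finset.prod_insert hi, Finset.prod_insert hi, Finset.sum_insert hi,
      Finset.card_insert_of_notMem hi]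
    have h1 := ih (fun j hj => ha j (Finset.mem_insert_of_mem hj))
      (fun j hj => hb j (Finset.mem_insert_of_mem hj))
    have h2 : ‖∏ j ∈ s, b j‖ ≤ C ^ s.card := by
      rw [norm_prod]
      calc ∏ j ∈ s, ‖b j‖ ≤ ∏ _j ∈ s, C :=
            Finset.prod_le_prod (fun _ _ => norm_nonneg _)
              (fun j hj => hb j (Finset.mem_insert_of_mem hj))
        _ = C ^ s.card := by rw [Finset.prod_const]
    have h3 := ha i (Finset.mem_insert_self i s)
    have h4 : a i * ∏ j ∈ s, a j - b i * ∏ j ∈ s, b j =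
        a i * (∏ j ∈ s, a j - ∏ j ∈ s, b j) + (a i - b i) * ∏ j ∈ s, b j := by ring
    rw [h4]
    calc ‖a i * (∏ j ∈ s, a j - ∏ j ∈ s, b j) + (a i - b i) * ∏ j ∈ s, b j‖
        ≤ ‖a i‖ * ‖∏ j ∈ s, a j - ∏ j ∈ s, b j‖ + ‖a i - b i‖ * ‖∏ j ∈ s, b j‖ := by
          refine (norm_add_le _ _).trans ?_
          rw [norm_mul, norm_mul]
      _ ≤ C * (C ^ s.card * ∑ j ∈ s, ‖a j - b j‖) + ‖a i - b i‖ * C ^ s.card := by
          gcongr
      _ ≤ C * (C ^ s.card * ∑ j ∈ s, ‖a j - b j‖) + ‖a i - b i‖ * C ^ (s.card + 1) := by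
          gcongr
          exact Nat.le_succ _
      _ = C ^ (s.card + 1) * (‖a i - b i‖ + ∑ j ∈ s, ‖a j - b j‖) := by ring

/-! ## A bump function -/

/-- a nonnegative, continuous, 1-periodic function supported in `[0, δ] + ℤ` -/
noncomputable def bmp (δ y : ℝ) : ℝ :=
  max 0 (Real.cos (2 * Real.pi * y - Real.pi * δ) - Real.cos (Real.pi * δ))

lemma bmp_nonneg (δ y : ℝ) : 0 ≤ bmp δ y := le_max_left _ _

lemma bmp_le (δ y : ℝ) : bmp δ y ≤ 2 := by
  unfold bmp
  refine max_le (by norm_num) ?_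
  have h1 := Real.cos_le_one (2 * Real.pi * y - Real.pi * δ)
  have h2 := Real.neg_one_le_cos (Real.pi * δ)
  linarith

lemma bmp_continuous (δ : ℝ) : Continuous (bmp δ) := by
  unfold bmp
  fun_prop

lemma bmp_periodic (δ : ℝ) : Function.Periodic (bmp δ) 1 := by
  intro y
  unfold bmp
  have h1 : 2 * Real.pi * (y + 1) - Real.pi * δ = (2 * Real.pi * y - Real.pi * δ) + 2 * Real.pi := by
    ring
  rw [h1, Real.cos_add_two_pi]

lemma bmp_lip (δ x y : ℝ) : |bmp δ x - bmp δ y| ≤ 2 * Real.pi * |x - y| := by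
  unfold bmp
  have h1 := abs_max_sub_max_le_abs (Real.cos (2 * Real.pi * x - Real.pi * δ) - Real.cos (Real.pi * δ))
    (Real.cos (2 * Real.pi * y - Real.pi * δ) - Real.cos (Real.pi * δ)) 0
  rw [max_comm 0, max_comm 0]
  refine h1.trans ?_
  have h2 : (Real.cos (2 * Real.pi * x - Real.pi * δ) - Real.cos (Real.pi * δ)) -
    (Real.cos (2 * Real.pi * y - Real.pi * δ) - Real.cos (Real.pi * δ)) =
    Real.cos (2 * Real.pi * x - Real.pi * δ) - Real.cos (2 * Real.pi * y - Real.pi * δ) := by ring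
  rw [h2]
  refine (Real.abs_cos_sub_cos_le _ _).trans ?_
  have h3 : (2 * Real.pi * x - Real.pi * δ) - (2 * Real.pi * y - Real.pi * δ) =
    (2 * Real.pi) * (x - y) := by ring
  rw [h3, abs_mul, abs_of_pos Real.two_pi_pos]

lemma bmp_supp {δ y : ℝ} (h0 : 0 < δ) (h1 : δ < 1) (h : bmp δ y ≠ 0) : Int.fract y < δ := by
  by_contra hlt
  push Not at hlt
  apply h
  have hp : bmp δ y = bmp δ (Int.fract y) := by
    have h2 := (bmp_periodic δ).sub_int_mul_eq ⌊y⌋ (x := y)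
    rw [mul_one] at h2
    exact h2.symm
  rw [hp]
  unfold bmp
  rw [max_eq_left_iff, sub_nonpos]
  have hf1 := Int.fract_lt_one y
  have hpi := Real.pi_pos
  rcases le_total (2 * Real.pi * Int.fract y - Real.pi * δ) Real.pi with h3 | h3
  · exact Real.cos_le_cos_of_nonneg_of_le_pi (by positivity) h3 (by nlinarith)
  · rw [← Real.cos_two_pi_sub (2 * Real.pi * Int.fract y - Real.pi * δ)]
    exact Real.cos_le_cos_of_nonneg_of_le_pi (by positivity) (by linarith) (by nlinarith)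

lemma bmp_int_pos {δ : ℝ} (h0 : 0 < δ) (h1 : δ < 1) : 0 < ∫ y in (0 : ℝ)..1, bmp δ y := by
  have hi : ∀ a b : ℝ, IntervalIntegrable (bmp δ) volume a b := fun a b =>
    (bmp_continuous δ).intervalIntegrable a b
  rw [← intervalIntegral.integral_add_adjacent_intervals (hi 0 δ) (hi δ 1)]
  have h2 : 0 ≤ ∫ y in δ..1, bmp δ y :=
    intervalIntegral.integral_nonneg h1.le fun y _ => bmp_nonneg δ y
  have h3 : 0 < ∫ y in (0 : ℝ)..δ, bmp δ y := by
    refine intervalIntegral.intervalIntegral_pos_of_pos_on (hi 0 δ) (fun y hy => ?_) h0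
    unfold bmp
    refine lt_max_of_lt_right ?_
    rw [sub_pos]
    have hpi := Real.pi_pos
    rw [← Real.cos_abs (2 * Real.pi * y - Real.pi * δ)]
    refine Real.cos_lt_cos_of_nonneg_of_le_pi (abs_nonneg _) (by nlinarith) ?_
    rw [abs_lt]
    constructor
    · nlinarith [mul_pos hpi hy.1]
    · nlinarith [mul_lt_mul_of_pos_left hy.2 hpi]
  linarith

/-! ## Riemann sums -/

/-- the mass of the cell `[h, h + 1)` -/
noncomputable def cell (g : ℝ → ℝ) (θ : ℝ) (h : ℕ) : ℝ :=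
  ∑ j ∈ Finset.Ico ⌈(h : ℝ) / θ⌉₊ ⌈((h : ℝ) + 1) / θ⌉₊, θ * g (θ * j)

lemma riemann {g : ℝ → ℝ} (hg : Continuous g) (hp : Function.Periodic g 1) {K M : ℝ}
    (hK0 : 0 ≤ K) (hK : ∀ x y, |g x - g y| ≤ K * |x - y|) (hM : ∀ x, |g x| ≤ M) {θ : ℝ}
    (h0 : 0 < θ) (h1 : θ ≤ 1) (h : ℕ) :
    |cell g θ h - ∫ y in (0 : ℝ)..1, g y| ≤ (2 * K + 2 * M) * θ := by
  have hM0 : 0 ≤ M := (abs_nonneg _).trans (hM 0)
  unfold cell
  set a := ⌈(h : ℝ) / θ⌉₊ with ha
  set b := ⌈((h : ℝ) + 1) / θ⌉₊ with hb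
  have hh0 : (0 : ℝ) ≤ h := Nat.cast_nonneg h
  have hab : a ≤ b := Nat.ceil_mono (by gcongr; linarith)
  have ha1 : (h : ℝ) ≤ θ * a := by
    have := Nat.le_ceil ((h : ℝ) / θ)
    rwa [div_le_iff₀' h0] at this
  have ha2 : θ * a < h + θ := by
    have := Nat.ceil_lt_add_one (a := (h : ℝ) / θ) (by positivity)
    calc θ * a < θ * ((h : ℝ) / θ + 1) := mul_lt_mul_of_pos_left this h0
      _ = h + θ := by field_simp
  have hb1 : (h : ℝ) + 1 ≤ θ * b := by
    have := Nat.le_ceil (((h : ℝ) + 1) / θ)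
    rwa [div_le_iff₀' h0] at this
  have hb2 : θ * b < h + 1 + θ := by
    have := Nat.ceil_lt_add_one (a := ((h : ℝ) + 1) / θ) (by positivity)
    calc θ * b < θ * (((h : ℝ) + 1) / θ + 1) := mul_lt_mul_of_pos_left this h0
      _ = h + 1 + θ := by field_simp
  have hi : ∀ u v : ℝ, IntervalIntegrable g volume u v := fun u v => hg.intervalIntegrable u v
  have e1 : ∑ j ∈ Finset.Ico a b, ∫ y in (θ * (j : ℕ))..(θ * ((j + 1 : ℕ) : ℝ)), g y =
      ∫ y in (θ * a)..(θ * b), g y :=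
    intervalIntegral.sum_integral_adjacent_intervals_Ico (a := fun j : ℕ => θ * (j : ℝ)) hab
      (fun k _ => hi _ _)
  have e2 : |∑ j ∈ Finset.Ico a b, θ * g (θ * j) - ∫ y in (θ * a)..(θ * b), g y| ≤
      ((b : ℝ) - a) * (K * θ * θ) := by
    rw [← e1, ← Finset.sum_sub_distrib]
    refine (Finset.abs_sum_le_sum_abs _ _).trans ?_
    have h2 : ∀ j ∈ Finset.Ico a b, |θ * g (θ * j) -
        ∫ y in (θ * (j : ℕ))..(θ * ((j + 1 : ℕ) : ℝ)), g y| ≤ K * θ * θ := by
      intro j _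
      have e3 : θ * g (θ * j) - ∫ y in (θ * (j : ℕ))..(θ * ((j + 1 : ℕ) : ℝ)), g y =
          ∫ y in (θ * (j : ℕ))..(θ * ((j + 1 : ℕ) : ℝ)), (g (θ * j) - g y) := by
        rw [intervalIntegral.integral_sub (by simp) (hi _ _), intervalIntegral.integral_const]
        congr 1
        rw [smul_eq_mul]
        push_cast
        ring
      rw [e3, ← Real.norm_eq_abs]
      have h3 := intervalIntegral.norm_integral_le_of_norm_le_const
        (f := fun y => g (θ * j) - g y) (a := θ * (j : ℕ)) (b := θ * ((j + 1 : ℕ) : ℝ))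
        (C := K * θ) (fun y hy => by
          rw [Set.uIoc_of_le (by push_cast; nlinarith)] at hy
          rw [Real.norm_eq_abs]
          refine (hK _ _).trans ?_
          refine mul_le_mul_of_nonneg_left ?_ hK0
          rw [abs_sub_comm, abs_of_pos (by linarith [hy.1])]
          have := hy.2
          push_cast at this
          linarith)
      refine h3.trans (le_of_eq ?_)
      have : θ * ((j + 1 : ℕ) : ℝ) - θ * (j : ℕ) = θ := by push_cast; ring
      rw [this, abs_of_pos h0]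
    refine (Finset.sum_le_sum h2).trans (le_of_eq ?_)
    rw [Finset.sum_const, Nat.card_Ico, nsmul_eq_mul, Nat.cast_sub hab]
  have e4 : ∫ y in (h : ℝ)..((h : ℝ) + 1), g y = ∫ y in (0 : ℝ)..1, g y := by
    have := hp.intervalIntegral_add_eq (h : ℝ) 0
    simpa using this
  have e5 : ∫ y in (θ * a)..(θ * b), g y = (∫ y in (0 : ℝ)..1, g y) +
      (∫ y in ((h : ℝ) + 1)..(θ * b), g y) - ∫ y in (h : ℝ)..(θ * a), g y := by
    rw [← e4, intervalIntegral.integral_add_adjacent_intervals (hi _ _) (hi _ _),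
      intervalIntegral.integral_interval_sub_left (hi _ _) (hi _ _)]
  have e6 : |∫ y in ((h : ℝ) + 1)..(θ * b), g y| ≤ M * θ := by
    rw [← Real.norm_eq_abs]
    refine (intervalIntegral.norm_integral_le_of_norm_le_const (C := M) (fun y _ => ?_)).trans ?_
    · rw [Real.norm_eq_abs]; exact hM y
    · refine mul_le_mul_of_nonneg_left ?_ hM0
      rw [abs_of_nonneg (by linarith)]
      linarith
  have e7 : |∫ y in (h : ℝ)..(θ * a), g y| ≤ M * θ := by
    rw [← Real.norm_eq_abs]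
    refine (intervalIntegral.norm_integral_le_of_norm_le_const (C := M) (fun y _ => ?_)).trans ?_
    · rw [Real.norm_eq_abs]; exact hM y
    · refine mul_le_mul_of_nonneg_left ?_ hM0
      rw [abs_of_nonneg (by linarith)]
      linarith
  have e8 : ((b : ℝ) - a) * (K * θ * θ) ≤ 2 * K * θ := by
    have h5 : ((b : ℝ) - a) * θ ≤ 2 := by nlinarith
    calc ((b : ℝ) - a) * (K * θ * θ) = (((b : ℝ) - a) * θ) * (K * θ) := by ring
      _ ≤ 2 * (K * θ) := mul_le_mul_of_nonneg_right h5 (by positivity)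
      _ = 2 * K * θ := by ring
  rw [e5] at e2
  rw [abs_le] at *
  constructor <;> nlinarith [e2.1, e2.2, e6.1, e6.2, e7.1, e7.2]

/-! ## Grouping -/

lemma filter_floor {θ : ℝ} (h0 : 0 < θ) {H h : ℕ} (hh : h < H) :
    (Finset.range ⌈(H : ℝ) / θ⌉₊).filter (fun j : ℕ => ⌊θ * (j : ℝ)⌋₊ = h) =
      Finset.Ico ⌈(h : ℝ) / θ⌉₊ ⌈((h : ℝ) + 1) / θ⌉₊ := by
  ext j
  have hj0 : 0 ≤ θ * (j : ℝ) := by positivity
  rw [Finset.mem_filter, Finset.mem_range, Finset.mem_Ico, Nat.lt_ceil, Nat.lt_ceil, Nat.ceil_le,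
    Nat.floor_eq_iff hj0, lt_div_iff₀' h0, lt_div_iff₀' h0, div_le_iff₀' h0]
  constructor
  · rintro ⟨_, h2, h3⟩
    exact ⟨h2, h3⟩
  · rintro ⟨h2, h3⟩
    refine ⟨h3.trans_le ?_, h2, h3⟩
    exact_mod_cast hh

lemma group {n : ℕ} {θ : ℝ} (h0 : 0 < θ) (H : ℕ) (g : ℝ → ℝ) (F : (Fin n → ℕ) → ℂ) :
    ∑ j ∈ Fintype.piFinset (fun _ : Fin n => Finset.range ⌈(H : ℝ) / θ⌉₊),
      (∏ i, ((θ * g (θ * j i) : ℝ) : ℂ)) * F (fun i => ⌊θ * (j i : ℝ)⌋₊) =
    ∑ h ∈ Fintype.piFinset (fun _ : Fin n => Finset.range H),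
      (∏ i, ((cell g θ (h i) : ℝ) : ℂ)) * F h := by
  rw [← Finset.sum_fiberwise_of_maps_to (s := Fintype.piFinset
    (fun _ : Fin n => Finset.range ⌈(H : ℝ) / θ⌉₊))
    (t := Fintype.piFinset (fun _ : Fin n => Finset.range H))
    (g := fun (j : Fin n → ℕ) (i : Fin n) => ⌊θ * (j i : ℝ)⌋₊)]
  · refine Finset.sum_congr rfl fun h hh => ?_
    rw [Fintype.mem_piFinset] at hh
    have e1 : (Fintype.piFinset (fun _ : Fin n => Finset.range ⌈(H : ℝ) / θ⌉₊)).filter
        (fun j => (fun i => ⌊θ * (j i : ℝ)⌋₊) = h) =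
        Fintype.piFinset (fun i : Fin n =>
          Finset.Ico ⌈(h i : ℝ) / θ⌉₊ ⌈((h i : ℝ) + 1) / θ⌉₊) := by
      ext j
      simp only [Finset.mem_filter, Fintype.mem_piFinset]
      constructor
      · rintro ⟨h1, h2⟩ i
        rw [← filter_floor h0 (Finset.mem_range.1 (hh i)), Finset.mem_filter]
        exact ⟨h1 i, congrFun h2 i⟩
      · intro h1
        have h2 : ∀ i, j i ∈ Finset.range ⌈(H : ℝ) / θ⌉₊ ∧ ⌊θ * (j i : ℝ)⌋₊ = h i := by
          intro i
          have h3 := h1 i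
          rw [← filter_floor h0 (Finset.mem_range.1 (hh i)), Finset.mem_filter] at h3
          exact h3
        exact ⟨fun i => (h2 i).1, funext fun i => (h2 i).2⟩
    have e2 : ∀ j ∈ (Fintype.piFinset (fun _ : Fin n => Finset.range ⌈(H : ℝ) / θ⌉₊)).filter
        (fun j => (fun i => ⌊θ * (j i : ℝ)⌋₊) = h),
        (∏ i, ((θ * g (θ * j i) : ℝ) : ℂ)) * F (fun i => ⌊θ * (j i : ℝ)⌋₊) =
        (∏ i, ((θ * g (θ * j i) : ℝ) : ℂ)) * F h := by
      intro j hj
      rw [(Finset.mem_filter.1 hj).2]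
    rw [Finset.sum_congr rfl e2, e1, ← Finset.sum_mul]
    congr 1
    rw [← Finset.prod_univ_sum (fun i : Fin n =>
      Finset.Ico ⌈(h i : ℝ) / θ⌉₊ ⌈((h i : ℝ) + 1) / θ⌉₊)
      (fun _ (j : ℕ) => ((θ * g (θ * j) : ℝ) : ℂ))]
    refine Finset.prod_congr rfl fun i _ => ?_
    unfold cell
    push_cast
    rfl
  · intro j hj
    rw [Fintype.mem_piFinset] at hj ⊢
    intro i
    have h1 := hj i
    rw [Finset.mem_range, Nat.lt_ceil, lt_div_iff₀' h0] at h1
    rw [Finset.mem_range, Nat.floor_lt (by positivity)]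
    exact h1

/-! ## Functions on the torus -/

/-- averages along the grid of mesh `θ` -/
noncomputable def av {n : ℕ} (c : (Fin n → ℝ) → ℂ) (θ : ℝ) (w : C(UnitAddTorus (Fin n), ℂ))
    (L : ℕ) : ℂ :=
  ((L : ℂ) ^ n)⁻¹ * ∑ j ∈ Fintype.piFinset (fun _ : Fin n => Finset.range L),
    w (fun i => ((θ * (j i : ℝ) : ℝ) : UnitAddCircle)) * c (fun i => θ * j i)

lemma av_add {n : ℕ} (c : (Fin n → ℝ) → ℂ) (θ : ℝ) (w w' : C(UnitAddTorus (Fin n), ℂ)) (L : ℕ) :
    av c θ (w + w') L = av c θ w L + av c θ w' L := by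
  unfold av
  rw [← mul_add, ← Finset.sum_add_distrib]
  congr 1
  refine Finset.sum_congr rfl fun j _ => ?_
  rw [ContinuousMap.add_apply]
  ring

lemma av_smul {n : ℕ} (c : (Fin n → ℝ) → ℂ) (θ : ℝ) (a : ℂ) (w : C(UnitAddTorus (Fin n), ℂ))
    (L : ℕ) : av c θ (a • w) L = a * av c θ w L := by
  unfold av
  simp only [ContinuousMap.smul_apply, smul_eq_mul, mul_assoc, ← Finset.mul_sum]
  ring

lemma av_norm {n : ℕ} (c : (Fin n → ℝ) → ℂ) {B : ℝ} (hB : ∀ t, ‖c t‖ ≤ B) (θ : ℝ)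
    (w : C(UnitAddTorus (Fin n), ℂ)) (L : ℕ) : ‖av c θ w L‖ ≤ ‖w‖ * B := by
  have hB0 : 0 ≤ B := (norm_nonneg _).trans (hB 0)
  unfold av
  rw [norm_mul, norm_inv, norm_pow, RCLike.norm_natCast]
  rcases Nat.eq_zero_or_pos (L ^ n) with h0 | h0
  · have h1 : ((L : ℝ) ^ n)⁻¹ = 0 := by
      rw [inv_eq_zero]
      exact_mod_cast h0
    rw [h1, zero_mul]
    positivity
  · have h1 : (0 : ℝ) < (L : ℝ) ^ n := by exact_mod_cast h0
    rw [inv_mul_le_iff₀ h1]
    refine (norm_sum_le _ _).trans ?_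
    refine (Finset.sum_le_sum (g := fun _ => ‖w‖ * B) fun j _ => ?_).trans (le_of_eq ?_)
    · rw [norm_mul]
      exact mul_le_mul (w.norm_coe_le_norm _) (hB _) (norm_nonneg _) (norm_nonneg _)
    · rw [Finset.sum_const, Fintype.card_piFinset]
      simp

theorem torus {n : ℕ} (c : (Fin n → ℝ) → ℂ) {B : ℝ} (hB : ∀ t, ‖c t‖ ≤ B) (θ : ℝ)
    (hZ : ∀ m : Fin n → ℤ, Tendsto (fun L : ℕ => av c θ (UnitAddTorus.mFourier m) L) atTop (𝓝 0))
    (w : C(UnitAddTorus (Fin n), ℂ)) : Tendsto (fun L : ℕ => av c θ w L) atTop (𝓝 0) := by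
  have hB0 : 0 ≤ B := (norm_nonneg _).trans (hB 0)
  have hS : ∀ w' ∈ Submodule.span ℂ (Set.range (UnitAddTorus.mFourier (d := Fin n))),
      Tendsto (fun L : ℕ => av c θ w' L) atTop (𝓝 0) := by
    intro w' hw'
    induction hw' using Submodule.span_induction with
    | mem x hx =>
      obtain ⟨m, rfl⟩ := hx
      exact hZ m
    | zero =>
      refine tendsto_const_nhds.congr fun L => ?_
      unfold av
      simp
    | add x y _ _ hx hy =>
      have := hx.add hy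
      rw [add_zero] at this
      exact this.congr fun L => (av_add c θ x y L).symm
    | smul a x _ hx =>
      have := hx.const_mul a
      rw [mul_zero] at this
      exact this.congr fun L => (av_smul c θ a x L).symm
  have hw : w ∈ (Submodule.span ℂ
      (Set.range (UnitAddTorus.mFourier (d := Fin n)))).topologicalClosure := by
    rw [UnitAddTorus.span_mFourier_closure_eq_top]
    trivial
  rw [Metric.tendsto_nhds]
  intro ε hε
  have hw2 : w ∈ closure ((Submodule.span ℂ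
      (Set.range (UnitAddTorus.mFourier (d := Fin n))) : Set C(UnitAddTorus (Fin n), ℂ))) := hw
  obtain ⟨w', hw', hd⟩ := Metric.mem_closure_iff.1 hw2 (ε / (2 * (B + 1))) (by positivity)
  have h1 := hS w' hw'
  rw [Metric.tendsto_nhds] at h1
  filter_upwards [h1 (ε / 2) (by positivity)] with L hL
  rw [dist_zero_right] at hL ⊢
  have e1 : av c θ w L = av c θ w' L + av c θ (w - w') L := by
    rw [← av_add]
    congr 1
    abel
  rw [e1]
  refine (norm_add_le _ _).trans_lt ?_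
  have h2 : ‖av c θ (w - w') L‖ ≤ ε / 2 := by
    refine (av_norm c hB θ _ L).trans ?_
    rw [dist_eq_norm] at hd
    calc ‖w - w'‖ * B ≤ (ε / (2 * (B + 1))) * (B + 1) := by
          gcongr
          linarith
      _ = ε / 2 := by field_simp
  linarith

/-- the bump function on the torus -/
noncomputable def bmpT (δ : ℝ) (n : ℕ) : C(UnitAddTorus (Fin n), ℂ) where
  toFun y := ∏ i, (((bmp_periodic δ).lift (y i) : ℝ) : ℂ)
  continuous_toFun := by
    have h1 : Continuous ((bmp_periodic δ).lift) := (bmp_continuous δ).quotient_liftOn' _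
    refine continuous_finsetProd _ fun i _ => ?_
    exact Complex.continuous_ofReal.comp (h1.comp (continuous_apply i))

lemma bmpT_apply (δ : ℝ) (n : ℕ) (t : Fin n → ℝ) :
    bmpT δ n (fun i => ((t i : ℝ) : UnitAddCircle)) = ∏ i, ((bmp δ (t i) : ℝ) : ℂ) := rfl

/-! ## The main estimate -/

theorem key {n : ℕ} (c : (Fin n → ℝ) → ℂ) {B : ℝ} (hB : ∀ t, ‖c t‖ ≤ B)
    (hU : ∀ η : ℝ, 0 < η → ∃ δ : ℝ, 0 < δ ∧ ∀ s t : Fin n → ℝ, (∀ i, |s i - t i| ≤ δ) →
      ‖c s - c t‖ ≤ η)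
    (hZ : ∀ δ : ℝ, 0 < δ → ∃ θ : ℝ, 0 < θ ∧ θ < δ ∧ ∀ w : C(UnitAddTorus (Fin n), ℂ),
      Tendsto (fun L : ℕ => av c θ w L) atTop (𝓝 0)) :
    Tendsto (fun H : ℕ => ((H : ℂ) ^ n)⁻¹ *
      ∑ h ∈ Fintype.piFinset (fun _ : Fin n => Finset.range H), c (fun i => (h i : ℝ)))
      atTop (𝓝 0) := by
  have hB0 : 0 ≤ B := (norm_nonneg _).trans (hB 0)
  rw [Metric.tendsto_nhds]
  intro ε hε
  set η : ℝ := min 1 (ε / (4 * (B + 2))) with hη
  have hη0 : 0 < η := lt_min one_pos (by positivity)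
  have hη1 : η ≤ 1 := min_le_left _ _
  have hη2 : (B + 2) * η ≤ ε / 4 := by
    calc (B + 2) * η ≤ (B + 2) * (ε / (4 * (B + 2))) :=
          mul_le_mul_of_nonneg_left (min_le_right _ _) (by linarith)
      _ = ε / 4 := by field_simp
  obtain ⟨δ₁, hδ₁, hc⟩ := hU η hη0
  set δ : ℝ := min δ₁ (1 / 2) with hδ
  have hδ0 : 0 < δ := lt_min hδ₁ (by norm_num)
  have hδ1 : δ < 1 := (min_le_right _ _).trans_lt (by norm_num)
  set I : ℝ := ∫ y in (0 : ℝ)..1, bmp δ y with hI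
  have hI0 : 0 < I := bmp_int_pos hδ0 hδ1
  have hI2 : I ≤ 2 := by
    have h1 := intervalIntegral.norm_integral_le_of_norm_le_const (f := bmp δ) (a := 0) (b := 1)
      (C := 2) (fun y _ => by
        rw [Real.norm_eq_abs, abs_of_nonneg (bmp_nonneg δ y)]; exact bmp_le δ y)
    rw [Real.norm_eq_abs] at h1
    have h2 := le_abs_self (∫ y in (0 : ℝ)..1, bmp δ y)
    simp only [sub_zero, abs_one, mul_one] at h1
    linarith
  -- the choice of θ
  set K : ℝ := 2 * (2 * Real.pi) + 2 * 2 with hK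
  have hK0 : 0 < K := by positivity
  set Q : ℝ := (K + 2) ^ n * (n * K) with hQ
  have hQ0 : 0 ≤ Q := by positivity
  obtain ⟨θ, hθ0, hθ1, hθZ⟩ := hZ (min 1 (η * I ^ n / (Q + 1))) (lt_min one_pos (by positivity))
  have hθ1' : θ ≤ 1 := hθ1.le.trans (min_le_left _ _)
  have hθ2 : Q * θ ≤ η * I ^ n := by
    calc Q * θ ≤ (Q + 1) * (η * I ^ n / (Q + 1)) := by
          refine mul_le_mul (by linarith) (hθ1.le.trans (min_le_right _ _)) hθ0.le (by linarith)
      _ = η * I ^ n := by field_simp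
  have hcell : ∀ h : ℕ, |cell (bmp δ) θ h - I| ≤ K * θ := fun h =>
    riemann (bmp_continuous δ) (bmp_periodic δ) (by positivity) (bmp_lip δ)
      (fun x => by rw [abs_of_nonneg (bmp_nonneg δ x)]; exact bmp_le δ x) hθ0 hθ1' h
  have hprod : ∀ h : Fin n → ℕ, ‖(∏ i, ((cell (bmp δ) θ (h i) : ℝ) : ℂ)) - (I : ℂ) ^ n‖ ≤
      η * I ^ n := by
    intro h
    have h1 := norm_prod_sub_prod (Finset.univ : Finset (Fin n))
      (fun i => ((cell (bmp δ) θ (h i) : ℝ) : ℂ)) (fun _ => (I : ℂ)) (C := K + 2)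
      (by linarith) (fun i _ => by
        rw [Complex.norm_real, Real.norm_eq_abs]
        have h2 := hcell (h i)
        have h3 : |cell (bmp δ) θ (h i)| ≤ |cell (bmp δ) θ (h i) - I| + |I| := by
          have := abs_add_le (cell (bmp δ) θ (h i) - I) I
          rwa [sub_add_cancel] at this
        rw [abs_of_pos hI0] at h3
        nlinarith) (fun i _ => by
        rw [Complex.norm_real, Real.norm_eq_abs, abs_of_pos hI0]
        linarith)
    rw [Finset.prod_const, Finset.card_univ, Fintype.card_fin] at h1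
    refine h1.trans ?_
    have h4 : ∑ i : Fin n, ‖((cell (bmp δ) θ (h i) : ℝ) : ℂ) - (I : ℂ)‖ ≤ n * (K * θ) := by
      calc ∑ i : Fin n, ‖((cell (bmp δ) θ (h i) : ℝ) : ℂ) - (I : ℂ)‖ ≤ ∑ _i : Fin n, K * θ := by
            refine Finset.sum_le_sum fun i _ => ?_
            rw [← Complex.ofReal_sub, Complex.norm_real, Real.norm_eq_abs]
            exact hcell (h i)
        _ = n * (K * θ) := by simp
    calc (K + 2) ^ n * ∑ i : Fin n, ‖((cell (bmp δ) θ (h i) : ℝ) : ℂ) - (I : ℂ)‖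
        ≤ (K + 2) ^ n * (n * (K * θ)) := by gcongr
      _ = Q * θ := by rw [hQ]; ring
      _ ≤ η * I ^ n := hθ2
  have hIn : (0 : ℝ) < I ^ n := by positivity
  have hprod2 : ∀ h : Fin n → ℕ, ‖(∏ i, ((cell (bmp δ) θ (h i) : ℝ) : ℂ))‖ ≤ 2 * I ^ n := by
    intro h
    have h1 := hprod h
    have h2 : ‖(∏ i, ((cell (bmp δ) θ (h i) : ℝ) : ℂ))‖ ≤
        ‖(∏ i, ((cell (bmp δ) θ (h i) : ℝ) : ℂ)) - (I : ℂ) ^ n‖ + ‖(I : ℂ) ^ n‖ := by
      have := norm_add_le ((∏ i, ((cell (bmp δ) θ (h i) : ℝ) : ℂ)) - (I : ℂ) ^ n) ((I : ℂ) ^ n)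
      rwa [sub_add_cancel] at this
    rw [norm_pow, Complex.norm_real, Real.norm_eq_abs, abs_of_pos hI0] at h2
    nlinarith
  -- the limit along the grid
  have hL : Tendsto (fun H : ℕ => ⌈(H : ℝ) / θ⌉₊) atTop atTop :=
    tendsto_nat_ceil_atTop.comp
      (Tendsto.atTop_div_const hθ0 tendsto_natCast_atTop_atTop)
  have hA := ((hθZ (bmpT δ n)).comp hL).norm.const_mul (2 ^ n / I ^ n)
  rw [norm_zero, mul_zero, Metric.tendsto_nhds] at hA
  filter_upwards [hA (ε / 2) (by positivity), eventually_ge_atTop 1] with H hH hH1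
  rw [dist_zero_right] at hH ⊢
  rw [norm_mul, norm_norm, Function.comp_apply, Real.norm_eq_abs,
    abs_of_pos (by positivity : (0 : ℝ) < 2 ^ n / I ^ n)] at hH
  set L := ⌈(H : ℝ) / θ⌉₊ with hLd
  have hH0 : (1 : ℝ) ≤ H := by exact_mod_cast hH1
  set P := Fintype.piFinset (fun _ : Fin n => Finset.range H) with hP
  set PL := Fintype.piFinset (fun _ : Fin n => Finset.range L) with hPL
  have hcard : (P.card : ℝ) = (H : ℝ) ^ n := by
    rw [hP, Fintype.card_piFinset]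
    simp
  set S1 : ℂ := ∑ j ∈ PL, (∏ i, ((θ * bmp δ (θ * j i) : ℝ) : ℂ)) * c (fun i => θ * (j i : ℝ))
    with hS1
  set S3 : ℂ := ∑ j ∈ PL, (∏ i, ((θ * bmp δ (θ * j i) : ℝ) : ℂ)) *
    c (fun i => ((⌊θ * (j i : ℝ)⌋₊ : ℕ) : ℝ)) with hS3
  set S : ℂ := ∑ h ∈ P, c (fun i => (h i : ℝ)) with hS
  have hS3' : S3 = ∑ h ∈ P, (∏ i, ((cell (bmp δ) θ (h i) : ℝ) : ℂ)) * c (fun i => (h i : ℝ)) :=
    group hθ0 H (bmp δ) (fun h => c (fun i => (h i : ℝ)))
  have hmass : ∑ j ∈ PL, (∏ i, ((θ * bmp δ (θ * j i) : ℝ) : ℂ)) =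
      ∑ h ∈ P, (∏ i, ((cell (bmp δ) θ (h i) : ℝ) : ℂ)) := by
    have := group (n := n) hθ0 H (bmp δ) (fun _ => 1)
    simpa only [mul_one] using this
  have e1 : ‖S1 - S3‖ ≤ η * (2 * I ^ n * H ^ n) := by
    rw [hS1, hS3, ← Finset.sum_sub_distrib]
    have h1 : ∀ j ∈ PL, ‖(∏ i, ((θ * bmp δ (θ * j i) : ℝ) : ℂ)) * c (fun i => θ * (j i : ℝ)) -
        (∏ i, ((θ * bmp δ (θ * j i) : ℝ) : ℂ)) * c (fun i => ((⌊θ * (j i : ℝ)⌋₊ : ℕ) : ℝ))‖ ≤
        η * ‖∏ i, ((θ * bmp δ (θ * j i) : ℝ) : ℂ)‖ := by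
      intro j _
      rw [← mul_sub, norm_mul, mul_comm]
      by_cases h0 : (∏ i, ((θ * bmp δ (θ * j i) : ℝ) : ℂ)) = 0
      · rw [h0]; simp
      · refine mul_le_mul_of_nonneg_right (hc _ _ fun i => ?_) (norm_nonneg _)
        have h2 := Finset.prod_ne_zero_iff.1 h0 i (Finset.mem_univ i)
        have h3 : bmp δ (θ * j i) ≠ 0 := by
          intro h4
          apply h2
          rw [h4, mul_zero, Complex.ofReal_zero]
        have h4 := bmp_supp hδ0 hδ1 h3
        have h5 : (0 : ℝ) ≤ θ * j i := by positivity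
        rw [← Int.self_sub_floor] at h4
        have h6 : ((⌊θ * (j i : ℝ)⌋₊ : ℕ) : ℝ) = (⌊θ * (j i : ℝ)⌋ : ℝ) := by
          exact_mod_cast natCast_floor_eq_intCast_floor h5
        rw [h6, abs_of_nonneg (by have := Int.floor_le (θ * (j i : ℝ)); linarith)]
        exact h4.le.trans (min_le_left _ _)
    refine (norm_sum_le _ _).trans ((Finset.sum_le_sum h1).trans ?_)
    rw [← Finset.mul_sum]
    refine mul_le_mul_of_nonneg_left ?_ hη0.le
    have h7 : ∑ j ∈ PL, ‖∏ i, ((θ * bmp δ (θ * j i) : ℝ) : ℂ)‖ =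
        ‖∑ j ∈ PL, (∏ i, ((θ * bmp δ (θ * j i) : ℝ) : ℂ))‖ := by
      have h8 : ∀ j : Fin n → ℕ, ‖∏ i, ((θ * bmp δ (θ * j i) : ℝ) : ℂ)‖ =
          ∏ i, θ * bmp δ (θ * j i) := by
        intro j
        rw [← Complex.ofReal_prod, Complex.norm_real, Real.norm_eq_abs, abs_of_nonneg]
        exact Finset.prod_nonneg fun i _ => mul_nonneg hθ0.le (bmp_nonneg _ _)
      simp only [h8]
      simp only [← Complex.ofReal_prod, ← Complex.ofReal_sum]
      rw [Complex.norm_real, Real.norm_eq_abs, abs_of_nonneg]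
      exact Finset.sum_nonneg fun j _ =>
        Finset.prod_nonneg fun i _ => mul_nonneg hθ0.le (bmp_nonneg _ _)
    rw [h7, hmass]
    refine (norm_sum_le _ _).trans ((Finset.sum_le_sum fun h _ => hprod2 h).trans (le_of_eq ?_))
    rw [Finset.sum_const, nsmul_eq_mul, hcard]
    ring
  have e2 : ‖S3 - (I : ℂ) ^ n * S‖ ≤ (η * I ^ n) * B * H ^ n := by
    rw [hS3', hS, Finset.mul_sum, ← Finset.sum_sub_distrib]
    refine (norm_sum_le _ _).trans ((Finset.sum_le_sum (g := fun _ => (η * I ^ n) * B)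
      fun h _ => ?_).trans (le_of_eq ?_))
    · rw [← sub_mul, norm_mul]
      exact mul_le_mul (hprod h) (hB _) (norm_nonneg _) (by positivity)
    · rw [Finset.sum_const, nsmul_eq_mul, hcard]
      ring
  have e3 : S1 = (θ * L : ℂ) ^ n * av c θ (bmpT δ n) L := by
    unfold av
    have hLpos : (0 : ℝ) < L := by
      have h9 : (0 : ℝ) < (H : ℝ) / θ := by positivity
      exact_mod_cast Nat.ceil_pos.2 h9
    have hLne : (L : ℂ) ≠ 0 := by
      have := hLpos.ne'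
      exact_mod_cast this
    rw [mul_pow, ← mul_assoc, mul_assoc ((θ : ℂ) ^ n), mul_inv_cancel₀ (pow_ne_zero _ hLne),
      mul_one, Finset.mul_sum, hS1]
    refine Finset.sum_congr rfl fun j _ => ?_
    rw [bmpT_apply]
    have h9 : (∏ i, ((θ * bmp δ (θ * j i) : ℝ) : ℂ)) =
        (θ : ℂ) ^ n * ∏ i, ((bmp δ (θ * j i) : ℝ) : ℂ) := by
      simp only [Complex.ofReal_mul, Finset.prod_mul_distrib, Finset.prod_const, Finset.card_univ,
        Fintype.card_fin]
    rw [h9, mul_assoc]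
  have e4 : ‖S1‖ ≤ (2 * H) ^ n * ‖av c θ (bmpT δ n) L‖ := by
    rw [e3, norm_mul, norm_pow]
    refine mul_le_mul_of_nonneg_right (pow_le_pow_left₀ (norm_nonneg _) ?_ n) (norm_nonneg _)
    rw [norm_mul, Complex.norm_real, RCLike.norm_natCast, Real.norm_eq_abs, abs_of_pos hθ0]
    have h9 := Nat.ceil_lt_add_one (a := (H : ℝ) / θ) (by positivity)
    calc θ * L ≤ θ * ((H : ℝ) / θ + 1) := mul_le_mul_of_nonneg_left h9.le hθ0.le
      _ = H + θ := by field_simp
      _ ≤ 2 * H := by linarith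
  -- conclusion
  have e5 : I ^ n * ‖S‖ ≤ (2 * H) ^ n * ‖av c θ (bmpT δ n) L‖ + η * (2 * I ^ n * H ^ n) +
      (η * I ^ n) * B * H ^ n := by
    have h1 : ‖(I : ℂ) ^ n * S‖ = I ^ n * ‖S‖ := by
      rw [norm_mul, norm_pow, Complex.norm_real, Real.norm_eq_abs, abs_of_pos hI0]
    rw [← h1]
    have h2 : (I : ℂ) ^ n * S = S1 - (S1 - S3) - (S3 - (I : ℂ) ^ n * S) := by ring
    calc ‖(I : ℂ) ^ n * S‖ = ‖S1 - (S1 - S3) - (S3 - (I : ℂ) ^ n * S)‖ := by rw [← h2]
      _ ≤ ‖S1‖ + ‖S1 - S3‖ + ‖S3 - (I : ℂ) ^ n * S‖ :=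
          (norm_sub_le _ _).trans (add_le_add (norm_sub_le _ _) le_rfl)
      _ ≤ _ := by linarith
  have hHn : (0 : ℝ) < (H : ℝ) ^ n := by positivity
  rw [norm_mul, norm_inv, norm_pow, RCLike.norm_natCast]
  have e6 : ((H : ℝ) ^ n)⁻¹ * ‖S‖ ≤ 2 ^ n / I ^ n * ‖av c θ (bmpT δ n) L‖ + (B + 2) * η := by
    rw [inv_mul_le_iff₀ hHn]
    have h1 : ‖S‖ = (I ^ n * ‖S‖) / I ^ n := by field_simp
    rw [h1, div_le_iff₀ hIn]
    refine e5.trans (le_of_eq ?_)
    rw [mul_pow]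
    field_simp
    ring
  linarith

/-! ## Correlations along a flow -/

section flow
variable {α : Type} [MeasurableSpace α] (Fl : Flow α)

lemma iter_T (θ : ℝ) (m : ℕ) (x : α) : (Fl.T θ)^[m] x = Fl.T (θ * m) x := by
  induction m with
  | zero => simp [Fl.T_zero]
  | succ m ih =>
    rw [Function.iterate_succ_apply', ih, ← Fl.T_add]
    congr 1
    push_cast
    ring

/-- correlations along the flow -/
noncomputable def corr (F : α → ℂ) (n : ℕ) (t : Fin n → ℝ) : ℂ :=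
  ∫ x, ∏ ε : Vx n, sg ε (F (Fl.T (∑ i ∈ Finset.univ.filter (fun i => ε i = true), t i) x)) ∂Fl.μ

variable [StandardBorelSpace α]

lemma l1 (hFC : SpecFlowCont) {F : α → ℂ} (hF : Bdd F) {η : ℝ} (hη : 0 < η) :
    ∃ δ : ℝ, 0 < δ ∧ ∀ u v : ℝ, |u - v| < δ →
      ∫ x, ‖F (Fl.T u x) - F (Fl.T v x)‖ ∂Fl.μ ≤ η := by
  have h1 := hFC α Fl F hF
  rw [Metric.tendsto_nhds_nhds] at h1
  obtain ⟨δ, hδ, h2⟩ := h1 (η ^ 2) (by positivity)
  refine ⟨δ, hδ, fun u v huv => ?_⟩
  have h3 := h2 (x := u - v) (by rwa [Real.dist_eq, sub_zero])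
  rw [Real.dist_eq, sub_zero] at h3
  have h4 := (le_abs_self _).trans_lt h3
  have hB : Bdd (fun x => F (Fl.T (u - v) x) - F x) := (hF.comp (Fl.measT _)).sub hF
  have e1 : ∫ x, ‖F (Fl.T u x) - F (Fl.T v x)‖ ∂Fl.μ = ∫ x, ‖F (Fl.T (u - v) x) - F x‖ ∂Fl.μ := by
    have h5 := (Fl.mp v).integral_comp' (f := Fl.eqv v) (fun x => ‖F (Fl.T (u - v) x) - F x‖)
    rw [← h5]
    refine integral_congr_ae (ae_of_all _ fun x => ?_)
    show ‖F (Fl.T u x) - F (Fl.T v x)‖ = ‖F (Fl.T (u - v) (Fl.T v x)) - F (Fl.T v x)‖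
    rw [← Fl.T_add, sub_add_cancel]
  rw [e1]
  have hi1 : Integrable (fun x => ‖F (Fl.T (u - v) x) - F x‖) Fl.μ := (hB.integrable Fl.μ).norm
  have hi2 : Integrable (fun x => ‖F (Fl.T (u - v) x) - F x‖ ^ 2) Fl.μ :=
    (NonnegM.Bdd.memLp hB).integrable_norm_pow (by norm_num)
  have h6 := NonnegM.sq_int_le hi1 hi2
  have h7 : (∫ x, ‖F (Fl.T (u - v) x) - F x‖ ∂Fl.μ) ^ 2 ≤ η ^ 2 := h6.trans h4.le
  exact le_of_sq_le_sq h7 hη.le

omit [StandardBorelSpace α] in
lemma corr_norm {F : α → ℂ} {C : ℝ} (hC1 : 1 ≤ C) (hC : ∀ x, ‖F x‖ ≤ C) (n : ℕ)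
    (t : Fin n → ℝ) : ‖corr Fl F n t‖ ≤ C ^ Fintype.card (Vx n) := by
  unfold corr
  have h1 := norm_integral_le_of_norm_le_const (μ := Fl.μ) (f := fun x => ∏ ε : Vx n,
    sg ε (F (Fl.T (∑ i ∈ Finset.univ.filter (fun i => ε i = true), t i) x)))
    (C := C ^ Fintype.card (Vx n)) (ae_of_all _ fun x => by
      rw [norm_prod]
      calc ∏ ε : Vx n, ‖sg ε (F (Fl.T (∑ i ∈ Finset.univ.filter (fun i => ε i = true), t i) x))‖
          ≤ ∏ _ε : Vx n, C := by
            refine Finset.prod_le_prod (fun _ _ => norm_nonneg _) fun ε _ => ?_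
            rw [norm_sg]
            exact hC _
        _ = C ^ Fintype.card (Vx n) := by rw [Finset.prod_const, Finset.card_univ])
  simpa using h1

lemma sg_sub {n : ℕ} (ε : Vx n) (z w : ℂ) : sg ε z - sg ε w = sg ε (z - w) := by
  unfold sg
  split_ifs
  · rfl
  · rw [map_sub]

lemma corr_unif (hFC : SpecFlowCont) {F : α → ℂ} (hF : Bdd F) (n : ℕ) {η : ℝ} (hη : 0 < η) :
    ∃ δ : ℝ, 0 < δ ∧ ∀ s t : Fin n → ℝ, (∀ i, |s i - t i| ≤ δ) →
      ‖corr Fl F n s - corr Fl F n t‖ ≤ η := by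
  obtain ⟨hFm, C', hC'⟩ := id hF
  set C : ℝ := max 1 C' with hCd
  have hC1 : 1 ≤ C := le_max_left _ _
  have hC : ∀ x, ‖F x‖ ≤ C := fun x => (hC' x).trans (le_max_right _ _)
  set N : ℕ := Fintype.card (Vx n) with hN
  obtain ⟨δ', hδ', h1⟩ := l1 Fl hFC hF (η := η / (C ^ N * (N + 1))) (by positivity)
  refine ⟨δ' / (n + 1), by positivity, fun s t hst => ?_⟩
  have h2 : ∀ ε : Vx n, |∑ i ∈ Finset.univ.filter (fun i => ε i = true), s i -
      ∑ i ∈ Finset.univ.filter (fun i => ε i = true), t i| < δ' := by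
    intro ε
    rw [← Finset.sum_sub_distrib]
    calc |∑ i ∈ Finset.univ.filter (fun i => ε i = true), (s i - t i)|
        ≤ ∑ i ∈ Finset.univ.filter (fun i => ε i = true), |s i - t i| :=
          Finset.abs_sum_le_sum_abs _ _
      _ ≤ ∑ i : Fin n, |s i - t i| :=
          Finset.sum_le_sum_of_subset_of_nonneg (Finset.filter_subset _ _)
            fun _ _ _ => abs_nonneg _
      _ ≤ ∑ _i : Fin n, δ' / (n + 1) := Finset.sum_le_sum fun i _ => hst i
      _ = n * (δ' / (n + 1)) := by simp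
      _ < δ' := by
          rw [mul_div_assoc', div_lt_iff₀ (by positivity)]
          nlinarith
  have hm : ∀ t : Fin n → ℝ, Bdd (fun x => ∏ ε : Vx n,
      sg ε (F (Fl.T (∑ i ∈ Finset.univ.filter (fun i => ε i = true), t i) x))) := fun t =>
    Bdd.prod _ fun ε _ => (hF.comp (Fl.measT _)).sg ε
  unfold corr
  rw [← integral_sub ((hm s).integrable _) ((hm t).integrable _)]
  refine (norm_integral_le_integral_norm _).trans ?_
  have hi : ∀ ε : Vx n, Integrable (fun x =>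
      ‖F (Fl.T (∑ i ∈ Finset.univ.filter (fun i => ε i = true), s i) x) -
        F (Fl.T (∑ i ∈ Finset.univ.filter (fun i => ε i = true), t i) x)‖) Fl.μ := fun ε =>
    (((hF.comp (Fl.measT _)).sub (hF.comp (Fl.measT _))).integrable Fl.μ).norm
  calc ∫ x, ‖∏ ε : Vx n, sg ε (F (Fl.T (∑ i ∈ Finset.univ.filter (fun i => ε i = true), s i) x)) -
        ∏ ε : Vx n, sg ε (F (Fl.T (∑ i ∈ Finset.univ.filter (fun i => ε i = true), t i) x))‖ ∂Fl.μ
      ≤ ∫ x, C ^ N * ∑ ε : Vx n,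
          ‖F (Fl.T (∑ i ∈ Finset.univ.filter (fun i => ε i = true), s i) x) -
            F (Fl.T (∑ i ∈ Finset.univ.filter (fun i => ε i = true), t i) x)‖ ∂Fl.μ := by
        refine integral_mono (((hm s).sub (hm t)).integrable _).norm
          ((integrable_finsetSum _ fun ε _ => hi ε).const_mul _) fun x => ?_
        have h3 := norm_prod_sub_prod (Finset.univ : Finset (Vx n))
          (fun ε => sg ε (F (Fl.T (∑ i ∈ Finset.univ.filter (fun i => ε i = true), s i) x)))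
          (fun ε => sg ε (F (Fl.T (∑ i ∈ Finset.univ.filter (fun i => ε i = true), t i) x)))
          hC1 (fun ε _ => by rw [norm_sg]; exact hC _) (fun ε _ => by rw [norm_sg]; exact hC _)
        simp only [sg_sub, norm_sg, Finset.card_univ] at h3
        exact h3
    _ = C ^ N * ∑ ε : Vx n, ∫ x,
          ‖F (Fl.T (∑ i ∈ Finset.univ.filter (fun i => ε i = true), s i) x) -
            F (Fl.T (∑ i ∈ Finset.univ.filter (fun i => ε i = true), t i) x)‖ ∂Fl.μ := by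
        rw [integral_const_mul, integral_finsetSum _ fun ε _ => hi ε]
    _ ≤ C ^ N * ∑ _ε : Vx n, η / (C ^ N * (N + 1)) := by
        refine mul_le_mul_of_nonneg_left (Finset.sum_le_sum fun ε _ => h1 _ _ (h2 ε)) (by positivity)
    _ = η * (N / (N + 1)) := by
        rw [Finset.sum_const, nsmul_eq_mul, Finset.card_univ, ← hN]
        field_simp
    _ ≤ η := by
        refine mul_le_of_le_one_right hη.le ?_
        rw [div_le_one (by positivity)]
        linarith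

/-- the coordinate vertex -/
def single {n : ℕ} (i : Fin n) : Vx n := fun i' => decide (i' = i)

/-- the modification at the vertices `0` and `e_i` -/
noncomputable def modi (E : α → ℂ) {n : ℕ} (m : Fin n → ℤ) (ε : Vx n) (x : α) : ℂ :=
  (∏ i, if ε = single i then (E x) ^ (m i) else 1) *
    (if ε = v0 then conj (∏ i, (E x) ^ (m i)) else 1)

omit [MeasurableSpace α] [StandardBorelSpace α] in
lemma modi_prod (E : α → ℂ) {n : ℕ} (m : Fin n → ℤ) (y : Vx n → α) :
    ∏ ε : Vx n, modi E m ε (y ε) =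
      (∏ i, (E (y (single i))) ^ (m i)) * conj (∏ i, (E (y v0)) ^ (m i)) := by
  unfold modi
  rw [Finset.prod_mul_distrib, Finset.prod_comm]
  congr 1
  · refine Finset.prod_congr rfl fun i _ => ?_
    rw [Finset.prod_ite_eq' Finset.univ (single i) (fun ε => (E (y ε)) ^ (m i)),
      if_pos (Finset.mem_univ _)]
  · rw [Finset.prod_ite_eq' Finset.univ (v0 : Vx n) (fun ε => conj (∏ i, (E (y ε)) ^ (m i))),
      if_pos (Finset.mem_univ _)]

omit [StandardBorelSpace α] in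
lemma modi_bdd {E : α → ℂ} (hE : IsPhase E) {n : ℕ} (m : Fin n → ℤ) (ε : Vx n) :
    Bdd (modi E m ε) := by
  have h1 : ∀ i, Bdd (fun x => (E x) ^ (m i)) := fun i =>
    ⟨hE.1.pow_const (m i), 1, fun x => by rw [norm_zpow, hE.2 x, one_zpow]⟩
  unfold modi
  refine Bdd.mul (Bdd.prod _ fun i _ => ?_) ?_
  · by_cases h : ε = single i
    · simp only [if_pos h]
      exact h1 i
    · simp only [if_neg h]
      exact Bdd.const 1
  · by_cases h : ε = v0
    · simp only [if_pos h]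
      exact (Bdd.prod _ fun i _ => h1 i).conj
    · simp only [if_neg h]
      exact Bdd.const 1

omit [MeasurableSpace α] [StandardBorelSpace α] in
lemma modi_top (E : α → ℂ) {k : ℕ} (m : Fin (k + 2) → ℤ) (x : α) :
    modi E m (fun _ => true) x = 1 := by
  have h1 : ∀ i : Fin (k + 2), (fun _ => true : Vx (k + 2)) ≠ single i := by
    intro i h
    obtain ⟨i', hi'⟩ := exists_ne i
    have := congrFun h i'
    unfold single at this
    rw [decide_eq_false hi'] at this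
    exact absurd this (by decide)
  have h2 : (fun _ => true : Vx (k + 2)) ≠ v0 := by
    intro h
    exact absurd (congrFun h 0) (by simp [v0])
  unfold modi
  rw [if_neg h2, mul_one]
  exact Finset.prod_eq_one fun i _ => if_neg (h1 i)

lemma sn_sg (X : Sys α) (n : ℕ) (η : Vx n) (F : α → ℂ) :
    X.sn n (fun x => sg η (F x)) = X.sn n F := by
  unfold sg
  by_cases h : isEven η = true
  · simp only [h, if_true]
  · simp only [h]
    show X.sn n (fun x => conj (F x)) = X.sn n F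
    unfold Sys.sn
    have e1 : ∀ x, cp (fun y => conj (F y)) n x = conj (cp F n x) := fun x => cp_conj F x
    simp only [e1]
    rw [integral_conj, RCLike.norm_conj]

lemma tendsto_four (hBO : SpecBoxOne) {E F : α → ℂ} (hE : IsPhase E)
    (hEq : ∀ t x, E (Fl.T t x) = Complex.exp (2 * Real.pi * t * Complex.I) * E x) (hF : Bdd F)
    (k : ℕ) {θ : ℝ} (hErg : (Fl.sys θ).Erg) (h0 : (Fl.sys θ).sn (k + 2) F = 0)
    (m : Fin (k + 2) → ℤ) :
    Tendsto (fun L : ℕ => av (corr Fl F (k + 2)) θ (UnitAddTorus.mFourier m) L) atTop (𝓝 0) := by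
  have h1 := hBO α (Fl.sys θ) hErg (k + 1) (fun ε x => sg ε (F x) * modi E m ε x)
    (fun ε => (hF.sg ε).mul (modi_bdd hE m ε)) (fun _ => true) (by
      have e1 : (fun x => sg (fun _ => true : Vx (k + 1 + 1)) (F x) *
          modi E m (fun _ => true) x) = fun x => sg (fun _ => true : Vx (k + 2)) (F x) := by
        funext x
        rw [modi_top E m x, mul_one]
      show (Fl.sys θ).sn (k + 2) (fun x => sg (fun _ => true : Vx (k + 1 + 1)) (F x) *
          modi E m (fun _ => true) x) = 0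
      rw [e1, sn_sg, h0])
  refine h1.congr fun L => ?_
  unfold av
  congr 1
  rw [BoxOneM.sum_fin (H := L) (fun h : Fin (k + 1 + 1) → ℕ => ∫ x, ∏ ε : Vx (k + 1 + 1),
    (fun (ε : Vx (k + 1 + 1)) x => sg ε (F x) * modi E m ε x) ε
      ((Fl.sys θ).S^[∑ i ∈ Finset.univ.filter (fun i => ε i = true), h i] x) ∂(Fl.sys θ).μ)]
  refine Finset.sum_congr rfl fun j _ => ?_
  unfold corr
  rw [← integral_const_mul]
  refine integral_congr_ae (ae_of_all _ fun x => ?_)
  show ∏ ε : Vx (k + 2), (sg ε (F ((Fl.T θ)^[∑ i ∈ Finset.univ.filter (fun i => ε i = true), j i] x))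
    * modi E m ε ((Fl.T θ)^[∑ i ∈ Finset.univ.filter (fun i => ε i = true), j i] x)) = _
  have e2 : ∀ ε : Vx (k + 2), (Fl.T θ)^[∑ i ∈ Finset.univ.filter (fun i => ε i = true), j i] x =
      Fl.T (∑ i ∈ Finset.univ.filter (fun i => ε i = true), θ * (j i : ℝ)) x := by
    intro ε
    rw [iter_T]
    congr 1
    push_cast
    rw [Finset.mul_sum]
  simp only [e2]
  rw [Finset.prod_mul_distrib, mul_comm]
  congr 1
  rw [modi_prod E m (fun ε => Fl.T (∑ i ∈ Finset.univ.filter (fun i => ε i = true),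
    θ * (j i : ℝ)) x), map_prod, ← Finset.prod_mul_distrib]
  show _ = ∏ i, fourier (m i) ((θ * (j i : ℝ) : ℝ) : UnitAddCircle)
  refine Finset.prod_congr rfl fun i _ => ?_
  have e3 : Finset.univ.filter (fun i' : Fin (k + 2) => (single i : Vx (k + 2)) i' = true) = {i} := by
    ext i'
    simp [single]
  have e4 : Finset.univ.filter (fun i' : Fin (k + 2) => (v0 : Vx (k + 2)) i' = true) = ∅ := by
    ext i'
    simp [v0]
  rw [e3, e4, Finset.sum_singleton, Finset.sum_empty, Fl.T_zero, hEq, mul_zpow, mul_assoc]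
  have e5 : (E x) ^ (m i) * conj ((E x) ^ (m i)) = 1 := by
    rw [Complex.mul_conj, Complex.normSq_eq_norm_sq, norm_zpow, hE.2 x, one_zpow]
    simp
  rw [e5, mul_one, ← Complex.exp_int_mul, fourier_coe_apply]
  congr 1
  push_cast
  ring

end flow

end BoxFlowM

open BoxFlowM in
theorem specBoxFlow (hBO : SpecBoxOne) (hFC : SpecFlowCont) : SpecBoxFlow := by
  intro α _ _ Fl E F hE hEq hF k hθ
  obtain ⟨hFm, C', hC'⟩ := id hF
  have hC1 : 1 ≤ max 1 C' := le_max_left _ _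
  have hC : ∀ x, ‖F x‖ ≤ max 1 C' := fun x => (hC' x).trans (le_max_right _ _)
  have h1 := key (corr Fl F (k + 2)) (corr_norm Fl hC1 hC (k + 2))
    (fun η hη => corr_unif Fl hFC hF (k + 2) hη) (fun δ hδ => by
      obtain ⟨θ, h2, h3, _, h4, h5⟩ := hθ δ hδ
      exact ⟨θ, h2, h3, torus _ (corr_norm Fl hC1 hC (k + 2)) θ
        (tendsto_four Fl hBO hE hEq hF k h4 h5)⟩)
  refine h1.congr fun H => ?_
  unfold boxAvg
  congr 1
  rw [BoxOneM.sum_fin (H := H) (fun h : Fin (k + 2) → ℕ => ∫ x, ∏ ε : Vx (k + 2),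
    sg ε (F ((Fl.T 1)^[∑ i ∈ Finset.univ.filter (fun i => ε i = true), h i] x)) ∂Fl.μ)]
  refine Finset.sum_congr rfl fun j _ => ?_
  unfold corr
  refine integral_congr_ae (ae_of_all _ fun x => ?_)
  refine Finset.prod_congr rfl fun ε _ => ?_
  rw [iter_T]
  congr 3
  push_cast
  rw [one_mul]

end MPd26.HK
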