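import Pool.Agent.Lib.MP_d26cd8_an.HK.PhDer

/-!
# MP_d26cd8_an: symmetries of the cube, `cp`, side maps
-/

set_option autoImplicit false

open MeasureTheory ProbabilityTheory Filter Topology
open scoped ComplexConjugate ENNReal

namespace MPd26.HK
namespace SymCpM

open PhM SepM PhDerM

/-- action of a symmetry on vertices -/
def tv {n : ℕ} (σ : Equiv.Perm (Fin n)) (r : Vx n) (ε : Vx n) : Vx n := fun i => xor (ε (σ i)) (r i)

lemma symm_apply {α : Type} {n : ℕ} (σ : Equiv.Perm (Fin n)) (r : Vx n) (x : Cube n α) (ε : Vx n) :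
    symm σ r x ε = x (tv σ r ε) := rfl

/-- inverse on vertices -/
def tvi {n : ℕ} (σ : Equiv.Perm (Fin n)) (r : Vx n) (ε : Vx n) : Vx n :=
  fun i => xor (ε (σ.symm i)) (r (σ.symm i))

lemma tv_tvi {n : ℕ} (σ : Equiv.Perm (Fin n)) (r : Vx n) (ε : Vx n) : tv σ r (tvi σ r ε) = ε := by
  funext i
  simp [tv, tvi]

lemma tvi_tv {n : ℕ} (σ : Equiv.Perm (Fin n)) (r : Vx n) (ε : Vx n) : tvi σ r (tv σ r ε) = ε := by
  funext i
  simp [tv, tvi]

/-- the symmetry as a permutation of the vertices -/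
def tvE {n : ℕ} (σ : Equiv.Perm (Fin n)) (r : Vx n) : Equiv.Perm (Vx n) where
  toFun := tv σ r
  invFun := tvi σ r
  left_inv := tvi_tv σ r
  right_inv := tv_tvi σ r

/-- number of ones -/
def wt {n : ℕ} (ε : Vx n) : ℕ := (Finset.univ.filter fun i => ε i = true).card

lemma wt_perm {n : ℕ} (σ : Equiv.Perm (Fin n)) (ε : Vx n) : wt (fun i => ε (σ i)) = wt ε := by
  unfold wt
  rw [Finset.card_filter, Finset.card_filter]
  exact Equiv.sum_comp σ fun i => if ε i = true then 1 else 0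

lemma wt_xor {n : ℕ} (a r : Vx n) :
    wt (fun i => xor (a i) (r i)) + 2 * wt (fun i => a i && r i) = wt a + wt r := by
  unfold wt
  simp only [Finset.card_filter]
  rw [Finset.mul_sum, ← Finset.sum_add_distrib, ← Finset.sum_add_distrib]
  refine Finset.sum_congr rfl fun i _ => ?_
  cases a i <;> cases r i <;> simp

lemma isEven_eq {n : ℕ} (ε : Vx n) : isEven ε = (wt ε % 2 == 0) := rfl

lemma isEven_tv {n : ℕ} (σ : Equiv.Perm (Fin n)) (r : Vx n) (ε : Vx n) :
    isEven (tv σ r ε) = (isEven ε == isEven r) := by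
  have h1 := wt_xor (fun i => ε (σ i)) r
  rw [wt_perm σ ε] at h1
  have h2 : isEven (tv σ r ε) = (wt (fun i => xor (ε (σ i)) (r i)) % 2 == 0) := rfl
  rw [h2, isEven_eq, isEven_eq]
  have h3 : wt (fun i => xor (ε (σ i)) (r i)) % 2 = (wt ε + wt r) % 2 := by omega
  rw [h3, Nat.add_mod]
  rcases Nat.mod_two_eq_zero_or_one (wt ε) with h | h <;>
    rcases Nat.mod_two_eq_zero_or_one (wt r) with h' | h' <;> simp [h, h']

lemma sg_sg {n : ℕ} (r : Vx n) (z : ℂ) : sg r (sg r z) = z := by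
  unfold sg
  split_ifs <;> simp

lemma sg_tv {n : ℕ} (σ : Equiv.Perm (Fin n)) (r : Vx n) (ε : Vx n) (z : ℂ) :
    sg ε z = sg r (sg (tv σ r ε) z) := by
  unfold sg
  rw [isEven_tv]
  cases isEven ε <;> cases isEven r <;> simp

lemma sg_prod {n : ℕ} {ι : Type} (s : Finset ι) (r : Vx n) (f : ι → ℂ) :
    sg r (∏ i ∈ s, f i) = ∏ i ∈ s, sg r (f i) := by
  unfold sg
  split_ifs
  · rfl
  · rw [map_prod]

/-- `cp` and symmetries -/
lemma cp_symm {α : Type} {n : ℕ} (σ : Equiv.Perm (Fin n)) (r : Vx n) (f : α → ℂ) (x : Cube n α) :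
    cp f n (symm σ r x) = sg r (cp f n x) := by
  unfold cp
  rw [sg_prod, ← Equiv.prod_comp (tvE σ r) (fun ε => sg r (sg ε (f (x ε))))]
  refine Finset.prod_congr rfl fun ε _ => ?_
  rw [symm_apply]
  exact sg_tv σ r ε _

lemma tv_side {n : ℕ} (σ : Equiv.Perm (Fin n)) (r : Vx n) (i : Fin n) (b : Bool) (ε : Vx n) :
    tv σ r ε ∈ side i b ↔ ε ∈ side (σ i) (xor b (r i)) := by
  change xor (ε (σ i)) (r i) = b ↔ ε (σ i) = xor b (r i)
  generalize ε (σ i) = u
  generalize r i = v
  cases u <;> cases v <;> cases b <;> simp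

/-- symmetries and side maps -/
lemma symm_appOn {α : Type} {n : ℕ} (σ : Equiv.Perm (Fin n)) (r : Vx n) (i : Fin n) (b : Bool)
    (g : α → α) (x : Cube n α) :
    symm σ r (appOn g (side i b) x) = appOn g (side (σ i) (xor b (r i))) (symm σ r x) := by
  funext ε
  rw [symm_apply]
  unfold appOn
  have := tv_side σ r i b ε
  by_cases h : tv σ r ε ∈ side i b
  · have h' := this.1 h
    simp only [h, h', if_true, symm_apply]
  · have h' : ¬ ε ∈ side (σ i) (xor b (r i)) := fun h' => h (this.2 h')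
    simp only [h, h', if_false, symm_apply]

/-- every side is the image of the upper side in direction `0` -/
lemma exists_symm {n : ℕ} (i : Fin (n + 1)) (b : Bool) :
    ∃ (σ : Equiv.Perm (Fin (n + 1))) (r : Vx (n + 1)), σ i = 0 ∧ xor b (r i) = true := by
  refine ⟨Equiv.swap i 0, fun _ => !b, Equiv.swap_apply_left _ _, ?_⟩
  cases b <;> rfl

lemma symm_appOn_zero {α : Type} {n : ℕ} {σ : Equiv.Perm (Fin (n + 1))} {r : Vx (n + 1)}
    {i : Fin (n + 1)} {b : Bool} (h1 : σ i = 0) (h2 : xor b (r i) = true) (g : α → α)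
    (x : Cube (n + 1) α) :
    symm σ r (appOn g (side i b) x) = appOn g (side 0 true) (symm σ r x) := by
  rw [symm_appOn, h1, h2]

lemma measurable_symm {α : Type} [mα : MeasurableSpace α] {n : ℕ} (σ : Equiv.Perm (Fin n))
    (r : Vx n) : Measurable (symm σ r : Cube n α → Cube n α) :=
  measurable_pi_lambda _ fun ε => measurable_pi_apply (tv σ r ε)

/-- invariance under the upper side in direction `0` gives invariance under all sides -/
lemma inv_sides {α : Type} [mα : MeasurableSpace α] [StandardBorelSpace α] (X : Sys α)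
    (hSym : SpecSym) {n : ℕ} {g : α → α} {A : Cube (n + 1) α → ℂ}
    (hA : ∀ (σ : Equiv.Perm (Fin (n + 1))) (r : Vx (n + 1)),
      ∀ᵐ x ∂(X.cm (n + 1)), A (symm σ r x) = sg r (A x))
    (hp : ∀ (i : Fin (n + 1)) (b : Bool),
      MeasurePreserving (appOn g (side i b)) (X.cm (n + 1)) (X.cm (n + 1)))
    (h0 : ∀ᵐ x ∂(X.cm (n + 1)), A (appOn g (side 0 true) x) = A x) (i : Fin (n + 1)) (b : Bool) :
    ∀ᵐ x ∂(X.cm (n + 1)), A (appOn g (side i b) x) = A x := by
  obtain ⟨σ, r, h1, h2⟩ := exists_symm i b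
  have e1 := hA σ r
  have e2 := (hp i b).quasiMeasurePreserving.ae e1
  have e3 := (hSym α X (n + 1) σ r).quasiMeasurePreserving.ae h0
  filter_upwards [e1, e2, e3] with x a1 a2 a3
  rw [symm_appOn_zero h1 h2] at a2
  have : sg r (A (appOn g (side i b) x)) = sg r (A x) := by rw [← a2, a3, a1]
  have := congrArg (sg r) this
  rwa [sg_sg, sg_sg] at this

section Kx
variable {α : Type} [mα : MeasurableSpace α] [StandardBorelSpace α] {X : Sys α}

omit [StandardBorelSpace α] in
lemma measurable_symm_cube (N : X.Factor) {n : ℕ} (σ : Equiv.Perm (Fin n)) (r : Vx n) :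
    Measurable[N.cube n, N.cube n] (symm σ r : Cube n α → Cube n α) :=
  @measurable_pi_lambda _ _ _ (N.cube n) (fun _ => N.σ) _ fun ε =>
    measurable_coord_cube N n (tv σ r ε)

/-- the derivatives of `cp ψ` along all sides are `N^[n+1]`-measurable -/
lemma side_meas (hSym : SpecSym) (N : X.Factor) {n : ℕ} {ψ : α → ℂ} (hψ : IsPhase ψ) (g : α → α)
    (hu : AEStronglyMeasurable[N.cube n] (cp (fun y => ψ (g y) * conj (ψ y)) n) (X.cm n))
    (i : Fin (n + 1)) (b : Bool) :
    AEStronglyMeasurable[N.cube (n + 1)]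
      (fun x => cp ψ (n + 1) (appOn g (side i b) x) * conj (cp ψ (n + 1) x)) (X.cm (n + 1)) := by
  obtain ⟨σ, r, h1, h2⟩ := exists_symm i b
  have e0 : AEStronglyMeasurable[N.cube (n + 1)]
      (fun x => conj (cp (fun y => ψ (g y) * conj (ψ y)) n (hi x))) (X.cm (n + 1)) :=
    aesm_conj (aesm_comp' hu (X.mp_hi n) (measurable_hi_cube N n))
  have e1 := aesm_comp e0 (hSym α X (n + 1) σ r) (measurable_symm_cube N σ r)
  have e2 : (fun x => cp ψ (n + 1) (appOn g (side i b) x) * conj (cp ψ (n + 1) x)) =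
      fun x => sg r (conj (cp (fun y => ψ (g y) * conj (ψ y)) n (hi (symm σ r x)))) := by
    funext x
    rw [← cp_side0 hψ.2 g, ← symm_appOn_zero h1 h2, cp_symm, cp_symm, sg_mul, sg_conj, sg_sg, sg_sg]
  rw [e2]
  unfold sg
  by_cases h : isEven r = true
  · simp only [h, if_true]; exact e1
  · simp only [h]; exact aesm_conj e1

end Kx

end SymCpM
end MPd26.HK
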