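import Pool.Agent.Lib.MP_d26cd8_an.HK.RelCb
import Pool.Agent.Lib.MP_d26cd8_an.HK.SymCp

/-!
# MP_d26cd8_an, module CocDer (Lemma 2.3, derivatives of cube cocycles)
-/

set_option autoImplicit false

open MeasureTheory ProbabilityTheory Filter Topology
open scoped ComplexConjugate ENNReal

namespace MPd26.HK
namespace CocDerM

open PhM SepM PhDerM SymCpM RelCbM

/-- extension of a permutation of the directions by the direction `0` -/
def sx {n : ℕ} (σ : Equiv.Perm (Fin n)) : Equiv.Perm (Fin (n + 1)) where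
  toFun := Fin.cons 0 fun i => (σ i).succ
  invFun := Fin.cons 0 fun i => (σ.symm i).succ
  left_inv i := by
    induction i using Fin.cases with
    | zero => rfl
    | succ i => simp
  right_inv i := by
    induction i using Fin.cases with
    | zero => rfl
    | succ i => simp

lemma sx_zero {n : ℕ} (σ : Equiv.Perm (Fin n)) : sx σ 0 = 0 := rfl

lemma sx_succ {n : ℕ} (σ : Equiv.Perm (Fin n)) (i : Fin n) : sx σ i.succ = (σ i).succ := rfl

lemma symm_sx_join {α : Type} {n : ℕ} (σ : Equiv.Perm (Fin n)) (r : Vx n)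
    (p : Cube n α × Cube n α) :
    symm (sx σ) (Fin.cons false r) (join p) = join (symm σ r p.1, symm σ r p.2) := by
  funext ε
  rw [SymCpM.symm_apply, join_apply, join_apply]
  have h0 : tv (sx σ) (Fin.cons false r) ε 0 = ε 0 := by
    simp [tv, sx_zero]
  have h1 : (fun i : Fin n => tv (sx σ) (Fin.cons false r) ε i.succ) =
      tv σ r (fun i => ε i.succ) := by
    funext i
    simp [tv, sx_succ]
  rw [h0, h1]
  rfl

lemma lo_symm_sx {α : Type} {n : ℕ} (σ : Equiv.Perm (Fin n)) (r : Vx n) (x : Cube (n + 1) α) :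
    lo (symm (sx σ) (Fin.cons false r) x) = symm σ r (lo x) := by
  have := symm_sx_join σ r (lo x, hi x)
  rw [join_lo_hi] at this
  rw [this, lo_join]

lemma hi_symm_sx {α : Type} {n : ℕ} (σ : Equiv.Perm (Fin n)) (r : Vx n) (x : Cube (n + 1) α) :
    hi (symm (sx σ) (Fin.cons false r) x) = symm σ r (hi x) := by
  have := symm_sx_join σ r (lo x, hi x)
  rw [join_lo_hi] at this
  rw [this, hi_join]

/-- swap of the directions `0` and `1` -/
def sw {α : Type} {n : ℕ} (x : Cube (n + 2) α) : Cube (n + 2) α :=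
  symm (Equiv.swap 0 1) (fun _ => false) x

lemma sw_apply {α : Type} {n : ℕ} (x : Cube (n + 2) α) (a b : Bool) (ε : Vx n) :
    sw x (Fin.cons a (Fin.cons b ε)) = x (Fin.cons b (Fin.cons a ε)) := by
  unfold sw symm
  congr 1
  funext i
  induction i using Fin.cases with
  | zero =>
    rw [Equiv.swap_apply_left]
    simp
  | succ i =>
    induction i using Fin.cases with
    | zero =>
      have : Equiv.swap (0 : Fin (n + 2)) 1 (Fin.succ 0) = 0 := Equiv.swap_apply_right _ _
      rw [this]
      simp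
    | succ i =>
      have : Equiv.swap (0 : Fin (n + 2)) 1 i.succ.succ = i.succ.succ := by
        refine Equiv.swap_apply_of_ne_of_ne (Fin.succ_ne_zero _) ?_
        intro h
        have := congrArg Fin.val h
        simp at this
      rw [this]
      simp

lemma hi_sw {α : Type} {n : ℕ} (y : Cube (n + 2) α) : hi (sw y) = join (hi (lo y), hi (hi y)) := by
  funext ε
  obtain ⟨b, ε', rfl⟩ : ∃ (b : Bool) (ε' : Vx n), ε = Fin.cons b ε' :=
    ⟨ε 0, fun i => ε i.succ, (Fin.cons_self_tail ε).symm⟩
  rw [join_apply]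
  change sw y (Fin.cons true (Fin.cons b ε')) = _
  rw [sw_apply]
  cases b <;> simp [hi, lo]

lemma lo_appOn_one {α : Type} {n : ℕ} (g : α → α) (y : Cube (n + 2) α) :
    lo (appOn g (side 1 true) y) = appOn g (side 0 true) (lo y) := by
  classical
  funext ε
  unfold lo appOn
  have h : (Fin.cons false ε : Vx (n + 2)) ∈ side 1 true ↔ ε ∈ side 0 true := Iff.rfl
  by_cases h' : ε ∈ side 0 true
  · simp only [h, h', if_true]
  · simp only [h, h', if_false]

lemma hi_appOn_one {α : Type} {n : ℕ} (g : α → α) (y : Cube (n + 2) α) :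
    hi (appOn g (side 1 true) y) = appOn g (side 0 true) (hi y) := by
  classical
  funext ε
  unfold hi appOn
  have h : (Fin.cons true ε : Vx (n + 2)) ∈ side 1 true ↔ ε ∈ side 0 true := Iff.rfl
  by_cases h' : ε ∈ side 0 true
  · simp only [h, h', if_true]
  · simp only [h, h', if_false]

lemma sw_appOn {α : Type} {n : ℕ} (g : α → α) (y : Cube (n + 2) α) :
    sw (appOn g (side 1 true) y) = appOn g (side 0 true) (sw y) := by
  unfold sw
  exact symm_appOn_zero (Equiv.swap_apply_right _ _) rfl g y

lemma cc {a : ℂ} (ha : ‖a‖ = 1) : a * conj a = 1 := by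
  rw [Complex.mul_conj, Complex.normSq_eq_norm_sq, ha]; simp

lemma cc' {a : ℂ} (ha : ‖a‖ = 1) : conj a * a = 1 := by rw [mul_comm]; exact cc ha

end CocDerM

open PhM SepM PhDerM SymCpM RelCbM CocDerM in
/-- module CocDer -/
theorem specCocDer (hCT : SpecCocTriv) (hSym : SpecSym) (hI : SpecIntertwine) : SpecCocDer := by
  intro α _ _ X n g hg hside κ hκ
  -- the representation
  obtain ⟨G, hG, hκG⟩ := hCT (Cube (n + 1) α) (X.inv (n + 1)) (X.inv_le (n + 1)) (X.cm (n + 1))
    (fun p => κ (join p)) (hκ.phase.comp measurable_join) hκ.coc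
  have hrep : ∀ᵐ x ∂(X.cm (n + 2)), κ x = G (lo x) * conj (G (hi x)) := by
    rw [X.ae_cm_succ_iff (n + 1)]
    filter_upwards [hκG] with p hp
    rw [hp, lo_join, hi_join]
  set T : Cube (n + 2) α → Cube (n + 2) α := appOn g (side 0 true) with hT
  have hTp : MeasurePreserving T (X.cm (n + 2)) (X.cm (n + 2)) := hside 0 true
  have hloT : ∀ x, lo (T x) = lo x := fun x => by rw [hT, appOn_side0, lo_join]
  have hhiT : ∀ x, hi (T x) = cmap g (hi x) := fun x => by rw [hT, appOn_side0, hi_join]
  have hgm : Measurable (cmap g : Cube (n + 1) α → Cube (n + 1) α) := measurable_cmap g.measurable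
  set κ' : Cube (n + 1) α → ℂ := fun b => G (cmap g b) * conj (G b) with hκ'
  have hκ'p : IsPhase κ' := (hG.comp hgm).mul hG.conj
  have hD : ∀ᵐ x ∂(X.cm (n + 2)), κ' (hi x) = κ x * conj (κ (T x)) := by
    filter_upwards [hrep, hTp.quasiMeasurePreserving.ae hrep] with x h1 h2
    rw [h1, h2, hloT, hhiT]
    simp only [hκ', map_mul, Complex.conj_conj]
    have := hG.mul_conj (lo x)
    calc G (cmap g (hi x)) * conj (G (hi x))
        = (G (lo x) * conj (G (lo x))) * (G (cmap g (hi x)) * conj (G (hi x))) := by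
          rw [this, one_mul]
      _ = _ := by ring
  refine ⟨κ', ⟨hκ'p, ?_, ?_⟩, ?_⟩
  · -- the cocycle identity
    have hsw : MeasurePreserving (sw : Cube (n + 2) α → Cube (n + 2) α) (X.cm (n + 2))
        (X.cm (n + 2)) := hSym α X (n + 2) _ _
    have hT' : MeasurePreserving (appOn g (side 1 true)) (X.cm (n + 2)) (X.cm (n + 2)) :=
      hside 1 true
    have hsym : ∀ᵐ x ∂(X.cm (n + 2)), κ (sw x) = κ x := by
      filter_upwards [hκ.sym (Equiv.swap 0 1) (fun _ => false)] with x hx
      change κ (symm _ _ x) = κ x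
      rw [hx]
      exact sg_v0 _
    set f : Cube (n + 1) α → ℂ := fun P => G P * conj (G (appOn g (side 0 true) P)) with hf
    have hf1 : ∀ P, ‖f P‖ = 1 := fun P => by
      simp only [hf]; rw [norm_mul, RCLike.norm_conj, hG.2, hG.2, one_mul]
    have h1 : ∀ᵐ y ∂(X.cm (n + 2)), κ' (join (hi (lo y), hi (hi y))) = f (lo y) * conj (f (hi y)) := by
      filter_upwards [hsw.quasiMeasurePreserving.ae hD, hsym, hT'.quasiMeasurePreserving.ae hsym,
        hrep, hT'.quasiMeasurePreserving.ae hrep] with y e1 e2 e3 e4 e5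
      rw [← hi_sw, e1, e2, hT, ← sw_appOn, e3, e4, e5, lo_appOn_one, hi_appOn_one]
      simp only [hf, map_mul, Complex.conj_conj]
      ring
    have h2 : ∀ᵐ p ∂(relSq (X.inv_le (n + 1)) (X.cm (n + 1))),
        κ' (join (hi p.1, hi p.2)) = f p.1 * conj (f p.2) := by
      rw [X.ae_cm_succ_iff (n + 1)] at h1
      filter_upwards [h1] with p hp
      rw [lo_join, hi_join] at hp
      exact hp
    have a1 := (mp_relCb_12 (X.inv_le (n + 1)) (X.cm (n + 1))).quasiMeasurePreserving.ae h2
    have a2 := (mp_relCb_23 (X.inv_le (n + 1)) (X.cm (n + 1))).quasiMeasurePreserving.ae h2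
    have a3 := (mp_relCb_13 (X.inv_le (n + 1)) (X.cm (n + 1))).quasiMeasurePreserving.ae h2
    have h3 : ∀ᵐ q ∂(relCb (X.inv_le (n + 1)) (X.cm (n + 1))),
        κ' (join (hi q.1, hi q.2.1)) * κ' (join (hi q.2.1, hi q.2.2)) =
          κ' (join (hi q.1, hi q.2.2)) := by
      filter_upwards [a1, a2, a3] with q e1 e2 e3
      rw [e1, e2, e3]
      have := cc' (hf1 q.2.1)
      calc f q.1 * conj (f q.2.1) * (f q.2.1 * conj (f q.2.2))
          = (conj (f q.2.1) * f q.2.1) * (f q.1 * conj (f q.2.2)) := by ring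
        _ = _ := by rw [this, one_mul]
    have hmp : MeasurePreserving (Prod.map hi (Prod.map hi hi))
        (relCb (X.inv_le (n + 1)) (X.cm (n + 1))) (relCb (X.inv_le n) (X.cm n)) :=
      mp_relCb hI (X.mp_cmap (n + 1)) (X.mp_cmap n) (X.mp_hi n) (ae_of_all _ fun x => rfl)
    rw [← hmp.map_eq]
    refine (ae_map_iff hmp.measurable.aemeasurable ?_).2 h3
    have j12 : Measurable (fun q : Cube n α × (Cube n α × Cube n α) => join (q.1, q.2.1)) :=
      measurable_join.comp (measurable_fst.prodMk (measurable_fst.comp measurable_snd))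
    have j23 : Measurable (fun q : Cube n α × (Cube n α × Cube n α) => join (q.2.1, q.2.2)) :=
      measurable_join.comp measurable_snd
    have j13 : Measurable (fun q : Cube n α × (Cube n α × Cube n α) => join (q.1, q.2.2)) :=
      measurable_join.comp (measurable_fst.prodMk (measurable_snd.comp measurable_snd))
    exact measurableSet_eq_fun ((hκ'p.1.comp j12).mul (hκ'p.1.comp j23)) (hκ'p.1.comp j13)
  · -- symmetry
    intro σ r
    set C : Cube (n + 1) α → ℂ := fun x => G (symm σ r x) * conj (sg r (G x)) with hC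
    have hCm : Measurable C := (hG.1.comp (measurable_symm σ r)).mul
      (Complex.continuous_conj.measurable.comp ((measurable_sg r).comp hG.1))
    have hC1 : ∀ x, ‖C x‖ = 1 := fun x => by
      simp only [hC]; rw [norm_mul, RCLike.norm_conj, norm_sg, hG.2, hG.2, one_mul]
    have hG1 : ∀ x, G (symm σ r x) = C x * sg r (G x) := fun x => by
      simp only [hC]
      have : ‖sg r (G x)‖ = 1 := by rw [norm_sg, hG.2]
      rw [mul_assoc, cc' this, mul_one]
    have h1 : ∀ᵐ x ∂(X.cm (n + 2)), C (lo x) = C (hi x) := by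
      filter_upwards [hκ.sym (sx σ) (Fin.cons false r), hrep,
        (hSym α X (n + 2) (sx σ) (Fin.cons false r)).quasiMeasurePreserving.ae hrep] with x e1 e2 e3
      rw [e3, lo_symm_sx, hi_symm_sx, e2, sg_cons_false, sg_mul, sg_conj, hG1, hG1] at e1
      have b1 : ‖sg r (G (lo x))‖ = 1 := by rw [norm_sg, hG.2]
      have b2 : ‖sg r (G (hi x))‖ = 1 := by rw [norm_sg, hG.2]
      have b3 := cc (hC1 (hi x))
      have b4 := cc' (hC1 (hi x))
      have b5 := cc b1
      have b6 := cc b2
      rw [map_mul] at e1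
      calc C (lo x) = (C (lo x) * sg r (G (lo x)) * (conj (C (hi x)) * conj (sg r (G (hi x))))) *
            (C (hi x) * sg r (G (hi x)) * conj (sg r (G (lo x)))) := by
              calc C (lo x) = C (lo x) * (sg r (G (lo x)) * conj (sg r (G (lo x)))) *
                    (conj (C (hi x)) * C (hi x)) * (sg r (G (hi x)) * conj (sg r (G (hi x)))) := by
                      rw [b5, b4, b6]; ring
                _ = _ := by ring
        _ = (sg r (G (lo x)) * conj (sg r (G (hi x)))) *
            (C (hi x) * sg r (G (hi x)) * conj (sg r (G (lo x)))) := by rw [e1]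
        _ = C (hi x) * (sg r (G (lo x)) * conj (sg r (G (lo x)))) *
            (sg r (G (hi x)) * conj (sg r (G (hi x)))) := by ring
        _ = C (hi x) := by rw [b5, b6]; ring
    have h2 : ∀ᵐ x ∂(X.cm (n + 2)), C (cmap g (hi x)) = C (hi x) := by
      filter_upwards [h1, hTp.quasiMeasurePreserving.ae h1] with x e1 e2
      rw [hloT, hhiT] at e2
      rw [← e2, e1]
    have h3 : ∀ᵐ b ∂(X.cm (n + 1)), C (cmap g b) = C b := by
      rw [← (X.mp_hi (n + 1)).map_eq]
      exact (ae_map_iff (X.mp_hi (n + 1)).measurable.aemeasurable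
        (measurableSet_eq_fun (hCm.comp hgm) hCm)).2 h2
    filter_upwards [h3] with b hb
    change G (cmap g (symm σ r b)) * conj (G (symm σ r b)) = sg r (G (cmap g b) * conj (G b))
    have e1 : G (cmap g (symm σ r b)) = C (cmap g b) * sg r (G (cmap g b)) := hG1 (cmap g b)
    rw [e1, hG1 b, hb, map_mul, sg_mul, sg_conj]
    have := cc (hC1 b)
    calc C b * sg r (G (cmap g b)) * (conj (C b) * conj (sg r (G b)))
        = (C b * conj (C b)) * (sg r (G (cmap g b)) * conj (sg r (G b))) := by ring
      _ = _ := by rw [this, one_mul]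
  · -- the derivative
    change ∀ᵐ p ∂(relSq (X.inv_le (n + 1)) (X.cm (n + 1))),
      κ' p.2 = κ (join p) * conj (κ (join (p.1, cmap g p.2)))
    rw [X.ae_cm_succ_iff (n + 1)] at hD
    filter_upwards [hD] with p hp
    rw [hi_join, hT, appOn_side0_join] at hp
    exact hp

end MPd26.HK
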