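import Pool.Agent.Lib.MP_d26cd8_an.HK.Spec
import Pool.Agent.Lib.MP_d26cd8_an.HK.Sq

/-!
# MP_d26cd8_an: cube cocycles are coboundaries on the fibres of `I_n` (module CocTriv)
-/

set_option autoImplicit false

open MeasureTheory ProbabilityTheory Filter Topology
open scoped ComplexConjugate ENNReal

namespace MPd26.HK

namespace CocTrivM

/-- A countable π-system generating the σ-algebra. -/
lemma exists_pi (Ω : Type) [mΩ : MeasurableSpace Ω] [MeasurableSpace.CountablyGenerated Ω] :
    ∃ A : ℕ → Set Ω, (∀ n, MeasurableSet (A n)) ∧ Set.univ ∈ Set.range A ∧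
      IsPiSystem (Set.range A) ∧ mΩ = MeasurableSpace.generateFrom (Set.range A) := by
  have hc : (generateSetAlgebra (MeasurableSpace.countableGeneratingSet Ω)).Countable :=
    countable_generateSetAlgebra MeasurableSpace.countable_countableGeneratingSet
  have ha : IsSetAlgebra (generateSetAlgebra (MeasurableSpace.countableGeneratingSet Ω)) :=
    isSetAlgebra_generateSetAlgebra
  obtain ⟨A, hA⟩ := hc.exists_eq_range ⟨_, ha.empty_mem⟩
  have hg : mΩ = MeasurableSpace.generateFrom (Set.range A) := by
    rw [← hA, generateFrom_generateSetAlgebra_eq,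
      MeasurableSpace.generateFrom_countableGeneratingSet]
  refine ⟨A, ?_, ?_, ?_, hg⟩
  · intro n
    have : MeasurableSet[MeasurableSpace.generateFrom (Set.range A)] (A n) :=
      MeasurableSpace.measurableSet_generateFrom ⟨n, rfl⟩
    rw [← hg] at this
    exact this
  · rw [← hA]
    exact ha.univ_mem
  · rw [← hA]
    intro s hs t ht _
    exact ha.inter_mem hs ht

/-- A function with vanishing integrals over a generating π-system vanishes. -/
lemma ae_zero {Ω : Type} [mΩ : MeasurableSpace Ω] {A : ℕ → Set Ω}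
    (hu : Set.univ ∈ Set.range A) (hp : IsPiSystem (Set.range A))
    (hg : mΩ = MeasurableSpace.generateFrom (Set.range A)) (ν : Measure Ω) {f : Ω → ℂ}
    (hf : Integrable f ν) (h0 : ∀ n, ∫ x in A n, f x ∂ν = 0) : f =ᵐ[ν] 0 := by
  have huniv : ∫ x, f x ∂ν = 0 := by
    obtain ⟨n, hn⟩ := hu
    have := h0 n
    rwa [hn, setIntegral_univ] at this
  refine hf.ae_eq_zero_of_forall_setIntegral_eq_zero fun s hs hfin => ?_
  clear hfin
  induction s, hs using MeasurableSpace.induction_on_inter hg hp with
  | empty => simp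
  | basic t ht =>
    obtain ⟨n, rfl⟩ := ht
    exact h0 n
  | compl t ht ih =>
    have := integral_add_compl ht hf
    rw [ih, huniv, zero_add] at this
    exact this
  | iUnion g hd hm ih =>
    rw [integral_iUnion hm hd hf.integrableOn]
    simp [ih]

/-- The conditional measures agree at the two points of the square. -/
lemma dis_eq {Ω : Type} {m : MeasurableSpace Ω} [mΩ : MeasurableSpace Ω] [StandardBorelSpace Ω]
    (hm : m ≤ mΩ) (μ : Measure Ω) [IsProbabilityMeasure μ] :
    ∀ᵐ x ∂μ, ∀ᵐ y ∂(dis hm μ x), dis hm μ y = dis hm μ x := by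
  obtain ⟨A, hA, hu, hp, hg⟩ := exists_pi Ω
  have hh : Measurable[m] (fun x : Ω => fun n : ℕ => condExpKernel μ m x (A n)) := by
    apply @measurable_pi_lambda _ _ _ m
    intro n
    exact measurable_condExpKernel (hA n)
  filter_upwards [ae_dis_eq_of_meas hm μ hh] with x hx
  filter_upwards [hx] with y hy
  have hn : ∀ n, dis hm μ y (A n) = dis hm μ x (A n) := fun n => congrFun hy n
  refine ext_of_generate_finite _ hg hp ?_ ?_
  · rintro s ⟨n, rfl⟩
    exact hn n
  · obtain ⟨n, hn'⟩ := hu
    rw [← hn']
    exact hn n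

end CocTrivM

open CocTrivM in
theorem specCocTriv : SpecCocTriv := by
  intro Ω m mΩ _ hm μ _ κ hκ hcoc
  obtain ⟨A, hA, hu, hp, hg⟩ := exists_pi Ω
  -- the functions `G_j`
  set g : ℕ → Ω → ℂ := fun j b => ∫ c in A j, κ (b, c) ∂(dis hm μ b) with hgdef
  have hgm : ∀ j, Measurable (g j) := by
    intro j
    have h1 : ∀ b, g j b = ∫ c, (A j).indicator (fun c => κ (b, c)) c ∂(dis hm μ b) := by
      intro b
      rw [integral_indicator (hA j)]
    have h2 : Measurable (fun p : Ω × Ω => (A j).indicator (fun c => κ (p.1, c)) p.2) := by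
      have : (fun p : Ω × Ω => (A j).indicator (fun c => κ (p.1, c)) p.2) =
          (Prod.snd ⁻¹' (A j)).indicator κ := by
        funext p
        by_cases h : p.2 ∈ A j
        · rw [Set.indicator_of_mem h, Set.indicator_of_mem (show p ∈ Prod.snd ⁻¹' (A j) from h)]
        · rw [Set.indicator_of_notMem h,
            Set.indicator_of_notMem (show p ∉ Prod.snd ⁻¹' (A j) from h)]
      rw [this]
      exact hκ.1.indicator (measurable_snd (hA j))
    have h3 : StronglyMeasurable (fun b => ∫ c, (A j).indicator (fun c => κ (b, c)) c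
        ∂(dis hm μ b)) :=
      StronglyMeasurable.integral_kernel_prod_right' (κ := dis hm μ) h2.stronglyMeasurable
    have h4 : g j = fun b => ∫ c, (A j).indicator (fun c => κ (b, c)) c ∂(dis hm μ b) := funext h1
    rw [h4]
    exact h3.measurable
  have hint : ∀ b, Integrable (fun c => κ (b, c)) (dis hm μ b) := fun b =>
    Integrable.of_bound (hκ.1.comp measurable_prodMk_left).aestronglyMeasurable 1
      (ae_of_all _ fun c => (hκ.2 (b, c)).le)
  have hex : ∀ b, ∃ j, g j b ≠ 0 := by
    intro b
    by_contra hcon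
    push Not at hcon
    have h1 := ae_zero hu hp hg (dis hm μ b) (hint b) hcon
    have h2 : ∀ᵐ c ∂(dis hm μ b), False := by
      filter_upwards [h1] with c hc
      have h3 := hκ.2 (b, c)
      rw [hc] at h3
      simp at h3
    have h4 : dis hm μ b = 0 := by
      rw [Filter.eventually_false_iff_eq_bot, ae_eq_bot] at h2
      exact h2
    exact IsProbabilityMeasure.ne_zero (dis hm μ b) h4
  -- the cocycle identity for the `G_j`
  have hrel : ∀ᵐ p ∂(relSq hm μ), ∀ j, g j p.1 = κ p * g j p.2 := by
    rw [ae_all_iff]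
    intro j
    have hmeas : MeasurableSet {p : Ω × Ω | g j p.1 = κ p * g j p.2} :=
      measurableSet_eq_fun ((hgm j).comp measurable_fst) (hκ.1.mul ((hgm j).comp measurable_snd))
    rw [ae_relSq_iff hm μ hmeas]
    unfold relCb at hcoc
    have h1 := Measure.ae_ae_of_ae_compProd hcoc
    filter_upwards [h1, dis_eq hm μ] with a ha1 ha2
    rw [Kernel.prod_apply] at ha1
    have h2 := Measure.ae_ae_of_ae_prod ha1
    filter_upwards [h2, ha2] with b hb1 hb2
    simp only [hgdef]
    rw [hb2, ← integral_const_mul]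
    refine setIntegral_congr_ae (hA j) ?_
    filter_upwards [hb1] with c hc _
    exact hc.symm
  -- the function `G`
  classical
  set G : Ω → ℂ := fun b => (g (Nat.find (hex b)) b) / (‖g (Nat.find (hex b)) b‖ : ℂ) with hG
  have hGm : Measurable G := by
    have h1 : Measurable (fun b => g (Nat.find (hex b)) b) :=
      Measurable.find hgm (fun n => (measurableSet_eq_fun (hgm n) measurable_const).compl) hex
    exact h1.div (Complex.measurable_ofReal.comp h1.norm)
  have hG1 : ∀ b, ‖G b‖ = 1 := by
    intro b
    have h1 : g (Nat.find (hex b)) b ≠ 0 := Nat.find_spec (hex b)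
    simp only [hG]
    rw [norm_div, Complex.norm_real, norm_norm, div_self (norm_ne_zero_iff.mpr h1)]
  refine ⟨G, ⟨hGm, hG1⟩, ?_⟩
  filter_upwards [hrel] with p hp
  have hκ1 : κ p ≠ 0 := by
    intro h
    have := hκ.2 p
    rw [h] at this
    simp at this
  have hiff : ∀ j, g j p.1 ≠ 0 ↔ g j p.2 ≠ 0 := by
    intro j
    rw [hp j]
    constructor
    · intro h h2
      apply h
      rw [h2, mul_zero]
    · intro h
      exact mul_ne_zero hκ1 h
  have hfind : Nat.find (hex p.1) = Nat.find (hex p.2) := by
    apply le_antisymm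
    · apply Nat.find_min'
      rw [hiff]
      exact Nat.find_spec (hex p.2)
    · apply Nat.find_min'
      rw [← hiff]
      exact Nat.find_spec (hex p.1)
  have hGG : G p.1 = κ p * G p.2 := by
    simp only [hG]
    rw [hfind, hp, norm_mul, hκ.2 p, one_mul]
    ring
  rw [hGG]
  have h5 : G p.2 * conj (G p.2) = 1 := by
    rw [Complex.mul_conj, Complex.normSq_eq_norm_sq, hG1]
    simp
  rw [mul_assoc, h5, mul_one]

end MPd26.HK
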