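import Pool.Agent.Lib.MP_d26cd8_an.HK.Nil

/-!
# Conclusion of block D (module D of project 86)
-/

set_option autoImplicit false

open MeasureTheory ProbabilityTheory Filter Topology
open scoped ComplexConjugate ENNReal

namespace MPd26.HK
namespace DM

open MPd26.Nil

lemma sbUI : StandardBorelSpace UI := measurableSet_Ico.standardBorel

lemma erg_congr {α : Type} [MeasurableSpace α] {Fl Fl' : Flow α} (hμ : Fl.μ = Fl'.μ)
    (hT : Fl.T = Fl'.T) (h : Fl'.Erg) : Fl.Erg := by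
  intro A hA hinv
  rw [hμ] at hinv ⊢
  rw [hT] at hinv
  exact h A hA hinv

/-- `e(r)` on the suspension. -/
noncomputable def EU (α : Type) (p : α × UI) : ℂ := Complex.exp (2 * Real.pi * (p.2 : ℝ) * Complex.I)

lemma EU_phase (α : Type) [MeasurableSpace α] : IsPhase (EU α) := by
  refine ⟨?_, fun p => ?_⟩
  · unfold EU
    have h : Measurable fun p : α × UI => ((p.2 : ℝ) : ℂ) :=
      Complex.measurable_ofReal.comp (measurable_subtype_coe.comp measurable_snd)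
    exact Complex.measurable_exp.comp (((measurable_const.mul h)).mul measurable_const)
  · unfold EU
    have : (2 * Real.pi * ((p.2 : ℝ) : ℂ) * Complex.I)
        = ((2 * Real.pi * (p.2 : ℝ) : ℝ) : ℂ) * Complex.I := by push_cast; ring
    rw [this, Complex.norm_exp_ofReal_mul_I]

lemma EU_eq {α : Type} [MeasurableSpace α] (X : Sys α) (t : ℝ) (p : α × UI) :
    EU α (suspT X t p) = Complex.exp (2 * Real.pi * t * Complex.I) * EU α p := by
  unfold EU suspT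
  simp only
  rw [← Complex.exp_add]
  have h1 : (Int.fract ((p.2 : ℝ) + t) : ℝ) = (p.2 : ℝ) + t - (⌊(p.2 : ℝ) + t⌋ : ℝ) := rfl
  rw [h1]
  have h2 : (2 * Real.pi * (((p.2 : ℝ) + t - (⌊(p.2 : ℝ) + t⌋ : ℝ) : ℝ) : ℂ) * Complex.I)
      = (2 * Real.pi * t * Complex.I + 2 * Real.pi * ((p.2 : ℝ) : ℂ) * Complex.I)
        - (⌊(p.2 : ℝ) + t⌋ : ℤ) * (2 * Real.pi * Complex.I) := by
    push_cast; ring
  rw [h2, Complex.exp_sub, Complex.exp_int_mul_two_pi_mul_I, div_one]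

section
variable {α : Type} [mα : MeasurableSpace α] [StandardBorelSpace α]

lemma Z_congr {X Y : Sys α} (h : ∀ n, X.cm n = Y.cm n) (k : ℕ) : (X.Z k).σ = (Y.Z k).σ := by
  have : ∀ A : Set α, X.InZ k A ↔ Y.InZ k A := by
    intro A
    unfold Sys.InZ
    rw [h]
  ext A
  exact this A

/-- Approximation of functions measurable for the supremum of the `Z_k`. -/
lemma approx_sup {X : Sys α} (hmono : ∀ k, (X.Z k).σ ≤ (X.Z (k + 1)).σ) {f : α → ℂ}
    (hf : Measurable[⨆ k, (X.Z k).σ] f) (hfb : ∃ B : ℝ, ∀ x, ‖f x‖ ≤ B) (η : ℝ) (hη : 0 < η) :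
    ∃ (k : ℕ) (g : α → ℂ), Bdd g ∧ Measurable[(X.Z k).σ] g ∧ dist2 X.μ f g ≤ η := by
  have hM : Monotone fun k => (X.Z k).σ := monotone_nat_of_le_succ hmono
  have hle : (⨆ k, (X.Z k).σ) ≤ mα := iSup_le fun k => (X.Z k).le
  let P : (α → ℂ) → Prop := fun f => Bdd f ∧ ∀ η : ℝ, 0 < η → ∃ (k : ℕ) (g : α → ℂ),
    Bdd g ∧ Measurable[(X.Z k).σ] g ∧ dist2 X.μ f g ≤ η
  have key : P f := by
    refine approx_gen (μ := X.μ) hle (⋃ k, {s : Set α | MeasurableSet[(X.Z k).σ] s}) ?_ ?_ P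
      ⟨Bdd.const 1, fun η hη => ⟨0, fun _ => 1, Bdd.const 1, measurable_const, by
        rw [dist2_self]; exact hη.le⟩⟩ ?_ ?_ ?_ ?_ hf hfb
    · exact (MeasurableSpace.generateFrom_iUnion_measurableSet _).symm
    · refine isPiSystem_iUnion_of_monotone _
        (fun k => @MeasurableSpace.isPiSystem_measurableSet _ (X.Z k).σ) ?_
      intro i j hij s hs
      exact hM hij s hs
    · intro s hs
      obtain ⟨k, hk⟩ := Set.mem_iUnion.1 hs
      have hk' : MeasurableSet[(X.Z k).σ] s := hk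
      have hb : Bdd (s.indicator (fun _ => (1 : ℂ))) := by
        refine ⟨measurable_const.indicator ((X.Z k).le _ hk'), 1, fun x => ?_⟩
        by_cases hx : x ∈ s <;> simp [hx]
      exact ⟨hb, fun η hη => ⟨k, _, hb, measurable_const.indicator hk', by
        rw [dist2_self]; exact hη.le⟩⟩
    · rintro f g ⟨hf, hf'⟩ ⟨hg, hg'⟩
      refine ⟨hf.add hg, fun η hη => ?_⟩
      obtain ⟨k, f', a1, a2, a3⟩ := hf' (η / 4) (by positivity)
      obtain ⟨l, g', b1, b2, b3⟩ := hg' (η / 4) (by positivity)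
      refine ⟨max k l, fun x => f' x + g' x, a1.add b1,
        (a2.mono (hM (le_max_left k l)) le_rfl).add (b2.mono (hM (le_max_right k l)) le_rfl), ?_⟩
      have t := dist2_triangle' (μ := X.μ) ((hf.add hg).memLp _ 2)
        ((a1.add hg).memLp _ 2) ((a1.add b1).memLp _ 2)
      have t1 : dist2 X.μ (fun x => f x + g x) (fun x => f' x + g x) = dist2 X.μ f f' := by
        unfold dist2; congr 1; funext x; congr 2; ring
      have t2 : dist2 X.μ (fun x => f' x + g x) (fun x => f' x + g' x) = dist2 X.μ g g' := by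
        unfold dist2; congr 1; funext x; congr 2; ring
      rw [t1, t2] at t
      linarith
    · rintro c f ⟨hf, hf'⟩
      refine ⟨(Bdd.const c).mul hf, fun η hη => ?_⟩
      obtain ⟨k, f', a1, a2, a3⟩ := hf' (η / (‖c‖ ^ 2 + 1)) (by positivity)
      refine ⟨k, fun x => c * f' x, (Bdd.const c).mul a1, a2.const_mul c, ?_⟩
      have := NilM.dist2_mul_le (μ := X.μ) (H := fun _ => c) hf a1 measurable_const
        (fun _ => le_refl ‖c‖)
      refine this.trans ?_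
      calc ‖c‖ ^ 2 * dist2 X.μ f f' ≤ (‖c‖ ^ 2 + 1) * (η / (‖c‖ ^ 2 + 1)) :=
            mul_le_mul (by linarith) a3 (dist2_nonneg _ _) (by positivity)
        _ = η := by field_simp
    · intro f hf h
      refine ⟨hf, fun η hη => ?_⟩
      obtain ⟨g, ⟨hg1, hg2⟩, hg3, hg4⟩ := h (η / 4) (by positivity)
      obtain ⟨k, g', a1, a2, a3⟩ := hg2 (η / 4) (by positivity)
      refine ⟨k, g', a1, a2, ?_⟩
      have t := dist2_triangle' (μ := X.μ) (hf.memLp _ 2) (hg1.memLp _ 2) (a1.memLp _ 2)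
      linarith
  exact key.2 η hη

end

/-- Truncation does not increase `dist2`. -/
lemma dist2_trunc_le {Ω : Type} [MeasurableSpace Ω] {μ : Measure Ω} [IsFiniteMeasure μ]
    {f g : Ω → ℂ} (hf : Measurable f) (hf1 : ∀ x, ‖f x‖ ≤ 1) (hg : Bdd g) :
    dist2 μ f (fun x => trunc (g x)) ≤ dist2 μ f g := by
  have hfb : Bdd f := ⟨hf, 1, hf1⟩
  have htb : Bdd (fun x => trunc (g x)) :=
    ⟨continuous_trunc.measurable.comp hg.1, 1, fun a => norm_trunc_le _⟩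
  unfold dist2
  refine integral_mono ?_ ?_ fun x => ?_
  · have h : Bdd (fun x => f x - trunc (g x)) := hfb.sub htb
    exact (h.memLp μ 2).integrable_norm_pow (p := 2) (by norm_num)
  · have h : Bdd (fun x => f x - g x) := hfb.sub hg
    exact (h.memLp μ 2).integrable_norm_pow (p := 2) (by norm_num)
  · exact pow_le_pow_left₀ (norm_nonneg _) (norm_sub_trunc_le (hf1 x)) 2

end DM

open MPd26.Nil

theorem specD (hS : SpecSusp) (hG : SpecGen) (hI : SpecInd) (hFS : SpecFlowSide) (hN : SpecNil)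
    (hB : SpecBoxFlow) (hZ : SpecZchar) (hZm : SpecZmono) : SpecD := by
  intro α _ _ X hX Fl hμ hT
  have := DM.sbUI
  have hFE : Fl.Erg := by
    obtain ⟨Fl', h1, h2, h3⟩ := hS α X
    exact DM.erg_congr (hμ.trans h1.symm) (hT.trans h2.symm) (h3 hX)
  have hcount := hG (α × UI) Fl hFE
  obtain ⟨θ₀, hθ₀⟩ : ∃ θ, (Fl.sys θ).Erg := by
    by_contra hno
    push Not at hno
    have : {θ : ℝ | ¬ (Fl.sys θ).Erg} = Set.univ := Set.eq_univ_of_forall hno
    rw [this] at hcount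
    exact Cardinal.not_countable_real hcount
  have hmono : ∀ k, ((Fl.sys θ₀).Z k).σ ≤ ((Fl.sys θ₀).Z (k + 1)).σ := hZm _ (Fl.sys θ₀) hθ₀
  have hinv : ∀ t s, MeasurableSet[⨆ k, ((Fl.sys θ₀).Z k).σ] s →
      MeasurableSet[⨆ k, ((Fl.sys θ₀).Z k).σ] (Fl.T t ⁻¹' s) := by
    intro t s hs
    have h1 : MeasurableSpace.comap (Fl.T t) (⨆ k, ((Fl.sys θ₀).Z k).σ)
        ≤ ⨆ k, ((Fl.sys θ₀).Z k).σ := by
      rw [MeasurableSpace.comap_iSup]
      refine iSup_mono fun k => ?_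
      rintro _ ⟨s, hs, rfl⟩
      exact (hFS _ Fl θ₀ t hθ₀ k).2.2 s hs
    exact h1 _ ⟨s, hs, rfl⟩
  refine ⟨⟨⨆ k, ((Fl.sys θ₀).Z k).σ, iSup_le fun k => ((Fl.sys θ₀).Z k).le,
    fun s hs => hinv 1 s hs, fun s hs => hinv (-1) s hs⟩, hinv, ?_, ?_⟩
  · intro f hf1 hfm η hη
    obtain ⟨k, g, hg1, hg2, hg3⟩ := DM.approx_sup hmono hfm ⟨1, hf1⟩ (η / 4) (by positivity)
    have hle : (⨆ k, ((Fl.sys θ₀).Z k).σ) ≤ (inferInstance : MeasurableSpace (α × UI)) :=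
      iSup_le fun k => ((Fl.sys θ₀).Z k).le
    have hfm' : Measurable f := hfm.mono hle le_rfl
    have htb : Bdd (fun x => trunc (g x)) :=
      ⟨continuous_trunc.measurable.comp hg1.1, 1, fun a => norm_trunc_le _⟩
    have h1 : dist2 Fl.μ f (fun x => trunc (g x)) ≤ η / 4 :=
      (DM.dist2_trunc_le hfm' hf1 hg1).trans hg3
    obtain ⟨m, π, h, a1, a2, a3, a4⟩ := hN _ Fl θ₀ hFE hθ₀ k (fun x => trunc (g x))
      (fun x => norm_trunc_le _) htb.1
      (continuous_trunc.measurable.comp hg2).stronglyMeasurable.aestronglyMeasurable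
      (η / 4) (by positivity)
    refine ⟨m, π, h, a1, a2, a3, ?_⟩
    have hhb : Bdd (fun x => h (π x)) := ⟨a2.measurable.comp a1.1, 1, fun x => a3 _⟩
    have hfb : Bdd f := ⟨hfm', 1, hf1⟩
    have t := dist2_triangle' (μ := Fl.μ) (hfb.memLp _ 2) (htb.memLp _ 2) (hhb.memLp _ 2)
    linarith
  · intro F hF hFN k
    refine hB _ Fl (DM.EU α) F (DM.EU_phase α) (fun t x => by rw [hT]; exact DM.EU_eq X t x) hF k ?_
    intro δ hδ
    obtain ⟨θ, hθ1, hθ2, hθ3, hθ4⟩ : ∃ θ : ℝ, 0 < θ ∧ θ < δ ∧ Irrational θ ∧ (Fl.sys θ).Erg := by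
      have h1 : ({θ : ℝ | ¬ (Fl.sys θ).Erg} ∪ Set.range ((↑) : ℚ → ℝ)).Countable :=
        hcount.union (Set.countable_range _)
      have h2 : ¬ (Set.Ioo (0 : ℝ) δ ⊆ {θ : ℝ | ¬ (Fl.sys θ).Erg} ∪ Set.range ((↑) : ℚ → ℝ)) :=
        fun hsub => (Cardinal.Real.Ioo_countable_iff.not.2 (by simpa using hδ)) (h1.mono hsub)
      obtain ⟨θ, hθ, hθ'⟩ := Set.not_subset.1 h2
      simp only [Set.mem_union, Set.mem_ofPred_eq, not_or, not_not] at hθ'
      exact ⟨θ, hθ.1, hθ.2, hθ'.2, hθ'.1⟩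
    refine ⟨θ, hθ1, hθ2, hθ3, hθ4, ?_⟩
    refine (hZ _ (Fl.sys θ) hθ4 (k + 1) F hF).2 ?_
    have e := DM.Z_congr (fun n => hI _ Fl θ θ₀ hθ4 hθ₀ n) (k + 1)
    rw [e]
    have hle1 : ((Fl.sys θ₀).Z (k + 1)).σ ≤ ⨆ k, ((Fl.sys θ₀).Z k).σ :=
      le_iSup (fun k => ((Fl.sys θ₀).Z k).σ) (k + 1)
    have hle2 : (⨆ k, ((Fl.sys θ₀).Z k).σ) ≤ (inferInstance : MeasurableSpace (α × UI)) :=
      iSup_le fun k => ((Fl.sys θ₀).Z k).le
    have h1 : Fl.μ[Fl.μ[F | ⨆ k, ((Fl.sys θ₀).Z k).σ] | ((Fl.sys θ₀).Z (k + 1)).σ]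
        =ᵐ[Fl.μ] Fl.μ[F | ((Fl.sys θ₀).Z (k + 1)).σ] :=
      condExp_condExp_of_le hle1 hle2
    have h2 : Fl.μ[Fl.μ[F | ⨆ k, ((Fl.sys θ₀).Z k).σ] | ((Fl.sys θ₀).Z (k + 1)).σ]
        =ᵐ[Fl.μ] Fl.μ[(0 : α × UI → ℂ) | ((Fl.sys θ₀).Z (k + 1)).σ] := condExp_congr_ae hFN
    have h3 : Fl.μ[(0 : α × UI → ℂ) | ((Fl.sys θ₀).Z (k + 1)).σ] = 0 := condExp_zero
    rw [h3] at h2
    exact h1.symm.trans h2

end MPd26.HK
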