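import Pool.Agent.Lib.MP_d26cd8_an.HK.Ker

/-!
# FIX (Lemma 1.3): SpecFix
-/

set_option autoImplicit false

open MeasureTheory ProbabilityTheory Filter Topology
open scoped ComplexConjugate ENNReal InnerProductSpace

namespace MPd26.HK
namespace FixM

open LineM KerM

/-- The phase of a complex number. -/
noncomputable def ph (z : ℂ) : ℂ := if z = 0 then 1 else (‖z‖ : ℂ)⁻¹ * z

lemma measurable_ph : Measurable ph := by
  unfold ph
  refine Measurable.ite (measurableSet_eq) measurable_const ?_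
  exact ((Complex.measurable_ofReal.comp measurable_norm).inv).mul measurable_id

lemma norm_ph (z : ℂ) : ‖ph z‖ = 1 := by
  unfold ph
  split_ifs with h
  · simp
  · have h1 : 0 < ‖z‖ := norm_pos_iff.2 h
    rw [norm_mul, norm_inv, Complex.norm_real, Real.norm_of_nonneg h1.le, inv_mul_cancel₀ h1.ne']

lemma ph_unit_mul {u z : ℂ} (hu : ‖u‖ = 1) (hz : z ≠ 0) : ph (u * z) = u * ph z := by
  have hu0 : u ≠ 0 := by
    rintro rfl
    simp at hu
  unfold ph
  rw [if_neg (mul_ne_zero hu0 hz), if_neg hz, norm_mul, hu, one_mul]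
  ring

lemma ph_mul {z w : ℂ} (hz : z ≠ 0) (hw : w ≠ 0) : ph (z * w) = ph z * ph w := by
  unfold ph
  rw [if_neg (mul_ne_zero hz hw), if_neg hz, if_neg hw, norm_mul]
  push_cast
  rw [mul_inv]
  ring

lemma ph_dist {z a : ℂ} (hz : z ≠ 0) (ha : ‖a‖ = 1) : ‖ph z - a‖ ≤ 2 * ‖z - a‖ := by
  have h1 : 0 < ‖z‖ := norm_pos_iff.2 hz
  have h2 : ‖ph z - z‖ = |1 - ‖z‖| := by
    have e : ph z - z = ((1 - ‖z‖ : ℝ) : ℂ) * ((‖z‖ : ℂ)⁻¹ * z) := by
      unfold ph
      rw [if_neg hz]
      have h3 : (‖z‖ : ℂ) ≠ 0 := by exact_mod_cast h1.ne'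
      push_cast
      field_simp
    rw [e, norm_mul, Complex.norm_real, norm_mul, norm_inv, Complex.norm_real,
      Real.norm_of_nonneg h1.le, inv_mul_cancel₀ h1.ne', mul_one, Real.norm_eq_abs]
  have h3 : |1 - ‖z‖| ≤ ‖z - a‖ := by
    rw [← ha, norm_sub_rev z a]
    exact abs_norm_sub_norm_le a z
  calc ‖ph z - a‖ = ‖(ph z - z) + (z - a)‖ := by rw [sub_add_sub_cancel]
    _ ≤ ‖ph z - z‖ + ‖z - a‖ := norm_add_le _ _
    _ ≤ 2 * ‖z - a‖ := by rw [h2]; linarith

section Entrance
variable {α : Type} [mα : MeasurableSpace α] (X : Sys α) (N : X.Factor) (B : Set α)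

/-- `x` enters `B`, or never does. -/
def ent (x : α) (k : ℕ) : Prop := X.S^[k] x ∈ B ∨ ∀ i, X.S^[i] x ∉ B

lemma ex_ent (x : α) : ∃ k, ent X B x k := by
  by_cases h : ∃ k, X.S^[k] x ∈ B
  · obtain ⟨k, hk⟩ := h
    exact ⟨k, Or.inl hk⟩
  · push Not at h
    exact ⟨0, Or.inr h⟩

open Classical in
/-- The entrance time. -/
noncomputable def J (x : α) : ℕ := Nat.find (ex_ent X B x)

lemma J_zero {x : α} (hx : x ∈ B) : J X B x = 0 := by
  classical
  unfold J
  rw [Nat.find_eq_zero]
  exact Or.inl hx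

lemma J_mem {x : α} (h : ∃ k, X.S^[k] x ∈ B) : X.S^[J X B x] x ∈ B := by
  classical
  have h1 := Nat.find_spec (ex_ent X B x)
  rcases h1 with h2 | h2
  · exact h2
  · obtain ⟨k, hk⟩ := h
    exact absurd hk (h2 k)

lemma J_succ {x : α} (hx : x ∉ B) (h : ∃ k, X.S^[k] x ∈ B) : J X B x = J X B (X.S x) + 1 := by
  classical
  have h0 : ¬ ∀ i, X.S^[i] x ∉ B := by
    push Not; exact h
  have h' : ∃ k, X.S^[k] (X.S x) ∈ B := by
    obtain ⟨k, hk⟩ := h
    cases k with
    | zero => exact absurd hk hx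
    | succ k => exact ⟨k, hk⟩
  have h0' : ¬ ∀ i, X.S^[i] (X.S x) ∉ B := by
    push Not; exact h'
  unfold J
  rw [Nat.find_eq_iff]
  constructor
  · have := J_mem X B h'
    exact Or.inl this
  · intro n hn hen
    rcases hen with h1 | h1
    · cases n with
      | zero => exact hx h1
      | succ n =>
        have h2 : n < Nat.find (ex_ent X B (X.S x)) := by omega
        exact Nat.find_min _ h2 (Or.inl h1)
    · exact h0 h1

lemma measurable_J (hB : MeasurableSet[N.σ] B) : Measurable[N.σ] (J X B) := by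
  classical
  have hS : ∀ k, @Measurable α α N.σ N.σ (X.S^[k]) := fun k =>
    @Measurable.iterate α N.σ _ (meas_S X N) k
  have key : ∀ k, MeasurableSet[N.σ] {x | ent X B x k} := by
    intro k
    have h1 : {x | ent X B x k} = (X.S^[k] ⁻¹' B) ∪ ⋂ i : ℕ, (X.S^[i] ⁻¹' B)ᶜ := by
      ext x
      simp [ent]
    rw [h1]
    exact (hS k hB).union (MeasurableSet.iInter fun i => (hS i hB).compl)
  refine @measurable_to_countable' ℕ α _ _ N.σ (J X B) fun n => ?_
  have h3 : (J X B) ⁻¹' {n} = {x | ent X B x n} ∩ ⋂ i ∈ Finset.range n, {x | ent X B x i}ᶜ := by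
    ext x
    simp only [Set.mem_preimage, Set.mem_singleton_iff, Set.mem_inter_iff, Set.mem_ofPred_eq,
      Set.mem_iInter, Finset.mem_range, Set.mem_compl_iff]
    unfold J
    rw [Nat.find_eq_iff]
  rw [h3]
  exact (key n).inter (Finset.measurableSet_biInter _ fun i _ => (key i).compl)

end Entrance

end FixM

open LineM KerM FixM in
theorem specFix : SpecFix := by
  classical
  refine ⟨1 / 80, by norm_num, 100, by norm_num, ?_⟩
  intro α _ _ X N hErg ρ φ hρ hφ δ hδ hδ0 hyp
  obtain ⟨A, hAm, hA1, hAh, hAi, hAd⟩ := specKer α X N ρ φ hρ hφ δ hδ hyp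
  obtain ⟨B, v, b, hB, hvm, hv2, hbm, hBc, hL2, hL3, hL4⟩ :=
    specLine α X N ρ φ hρ hφ δ hδ A hAm hA1 hAh hAi hAd
  set μ := X.μ with hμ
  have hm := N.le
  have hBm : MeasurableSet B := hm _ hB
  have hδ2 : δ ^ 2 ≤ 1 / 6400 := by nlinarith
  have hBpos : μ B ≠ 0 := by
    intro h0
    have h1 : μ.real B = 0 := by rw [measureReal_def, h0]; rfl
    have h2 := probReal_compl_eq_one_sub (μ := μ) hBm
    rw [h1] at h2
    linarith
  have hErg' : Ergodic X.S μ := hErg
  have hbp : ∀ j, IsPhase (bprod X.S ρ j) := by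
    intro j
    unfold bprod
    exact IsPhase.prod _ fun i _ => hρ.comp (X.S.measurable.iterate i)
  have hSm : ∀ j : ℕ, Measurable (X.S^[j]) := fun j => X.S.measurable.iterate j
  -- entrance
  have hent : ∀ᵐ x ∂μ, ∃ k, X.S^[k] x ∈ B := by
    set D : Set α := {x | ∃ k, X.S^[k] x ∈ B} with hD
    have hDm : MeasurableSet D := by
      have : D = ⋃ k : ℕ, X.S^[k] ⁻¹' B := by ext x; simp [hD]
      rw [this]
      exact MeasurableSet.iUnion fun k => hSm k hBm
    have hsub : X.S ⁻¹' D ⊆ D := by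
      rintro x ⟨k, hk⟩
      exact ⟨k + 1, hk⟩
    rcases hErg'.ae_empty_or_univ_of_preimage_ae_le hDm.nullMeasurableSet
      (LE.le.eventuallyLE hsub) with h | h
    · exfalso
      have h1 : μ D = 0 := by rw [measure_congr h]; simp
      have h2 : B ⊆ D := fun x hx => ⟨0, hx⟩
      exact hBpos (measure_mono_null h2 h1)
    · filter_upwards [h] with x hx
      have : x ∈ D := by
        have h2 : D x = (Set.univ : Set α) x := hx
        have h3 : (Set.univ : Set α) x := trivial
        rw [← h2] at h3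
        exact h3
      exact this
  have hentS : ∀ᵐ x ∂μ, ∃ k, X.S^[k] (X.S x) ∈ B := X.mp.quasiMeasurePreserving.ae hent
  -- `b j ≠ 0`
  have hb0 : ∀ j : ℕ, ∀ᵐ x ∂μ, x ∈ B → X.S^[j] x ∈ B → b j x ≠ 0 := by
    intro j
    set C : Set α := {x | (x ∈ B ∧ X.S^[j] x ∈ B) ∧ b j x = 0} with hC
    have hSj : @Measurable α α N.σ N.σ (X.S^[j]) := @Measurable.iterate α N.σ _ (meas_S X N) j
    have hSs : @Measurable α α N.σ N.σ (X.S.symm^[j]) :=
      @Measurable.iterate α N.σ _ (meas_Ssymm X N) j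
    have hCm : MeasurableSet[N.σ] C :=
      (hB.inter (hSj hB)).inter ((hbm j) (measurableSet_singleton 0))
    have hinv : ∀ x, X.S.symm^[j] (X.S^[j] x) = x := fun x =>
      (Function.LeftInverse.iterate (fun y => X.S.symm_apply_apply y) j) x
    have hinv' : ∀ x, X.S^[j] (X.S.symm^[j] x) = x := fun x =>
      (Function.LeftInverse.iterate (fun y => X.S.apply_symm_apply y) j) x
    set C' : Set α := X.S.symm^[j] ⁻¹' C with hC'
    have hC'm : MeasurableSet[N.σ] C' := hSs hCm
    have hC'B : C' ⊆ B := by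
      intro x hx
      have h1 : X.S.symm^[j] x ∈ C := hx
      have h2 := h1.1.2
      rwa [hinv'] at h2
    have hmpj := X.mp.iterate j
    have hmps : MeasurePreserving (X.S.symm^[j]) μ μ := (X.mp.symm X.S).iterate j
    have h1 : ∀ᵐ x ∂μ, x ∈ C' → v x = 0 := by
      filter_upwards [hmps.quasiMeasurePreserving.ae (hL3 j)] with x hx hxC
      have h2 : X.S.symm^[j] x ∈ C := hxC
      have h3 := hx h2.1.1 h2.1.2
      rw [h2.2, zero_mul, hinv'] at h3
      rcases mul_eq_zero.1 h3 with h4 | h4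
      · exfalso
        have h5 : ‖conj (bprod X.S ρ j (X.S.symm^[j] x))‖ = 1 :=
          ((hbp j).conj).2 (X.S.symm^[j] x)
        rw [h4] at h5
        simp at h5
      · exact h4
    have h2 : μ C' = 0 := hL2 C' hC'm hC'B h1
    have h3 : μ C = 0 := by
      have e : C = X.S^[j] ⁻¹' C' := by
        ext x
        simp only [hC', Set.mem_preimage, hinv]
      rw [e, hmpj.measure_preimage (hm _ hC'm).nullMeasurableSet, h2]
    filter_upwards [measure_eq_zero_iff_ae_notMem.1 h3] with x hx hx1 hx2 h0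
    exact hx ⟨⟨hx1, hx2⟩, h0⟩
  have hL3' : ∀ᵐ x ∂μ, ∀ j : ℕ, x ∈ B → X.S^[j] x ∈ B →
      conj (bprod X.S ρ j x) * v (X.S^[j] x) = b j x * v x := ae_all_iff.2 hL3
  have hb0' := ae_all_iff.2 hb0
  have hJm : Measurable (J X B) := (measurable_J X N B hB).mono hm le_rfl
  -- `v ≠ 0` on `B`
  have hVm : Measurable fun x => v (X.S^[J X B x] x) := by
    have h1 : Measurable fun p : α × ℕ => v (X.S^[p.2] p.1) :=
      measurable_from_prod_countable_left fun k => hvm.comp (hSm k)
    exact h1.comp (measurable_id.prodMk hJm)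
  have hv0 : ∀ᵐ x ∂μ, v (X.S^[J X B x] x) ≠ 0 := by
    set Zs : Set α := {x | v (X.S^[J X B x] x) = 0} with hZs
    have hZm : MeasurableSet Zs := hVm (measurableSet_singleton 0)
    have hpre : X.S ⁻¹' Zs ≤ᵐ[μ] Zs := by
      filter_upwards [hent, hentS, hL3', hb0'] with x h1 h2 h3 h4 hx
      have hx' : v (X.S^[J X B (X.S x)] (X.S x)) = 0 := hx
      show v (X.S^[J X B x] x) = 0
      by_cases hxB : x ∈ B
      · rw [J_zero X B hxB]
        have hj : X.S^[J X B (X.S x) + 1] x ∈ B := J_mem X B h2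
        have h5 := h3 (J X B (X.S x) + 1) hxB hj
        have h6 := h4 (J X B (X.S x) + 1) hxB hj
        have h7 : v (X.S^[J X B (X.S x) + 1] x) = 0 := hx'
        rw [h7, mul_zero] at h5
        exact (mul_eq_zero.1 h5.symm).resolve_left h6
      · rw [J_succ X B hxB h1]
        exact hx'
    rcases hErg'.ae_empty_or_univ_of_preimage_ae_le hZm.nullMeasurableSet hpre with h | h
    · have h1 : μ Zs = 0 := by rw [measure_congr h]; simp
      exact measure_eq_zero_iff_ae_notMem.1 h1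
    · exfalso
      refine hBpos (hL2 B hB le_rfl ?_)
      filter_upwards [h] with x hx hxB
      have h2 : x ∈ Zs := by
        have h2 : Zs x = (Set.univ : Set α) x := hx
        have h3 : (Set.univ : Set α) x := trivial
        rw [← h2] at h3
        exact h3
      have h3 : v (X.S^[J X B x] x) = 0 := h2
      rwa [J_zero X B hxB] at h3
  have hvB : ∀ᵐ x ∂μ, x ∈ B → v x ≠ 0 := by
    filter_upwards [hv0] with x hx hxB
    rwa [J_zero X B hxB] at hx
  -- the solution
  set ψ : α → ℂ := fun x => conj (bprod X.S ρ (J X B x) x) * ph (v (X.S^[J X B x] x)) with hψ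
  have hψp : IsPhase ψ := by
    constructor
    · have h1 : Measurable fun p : α × ℕ => conj (bprod X.S ρ p.2 p.1) :=
        measurable_from_prod_countable_left fun k => (hbp k).conj.1
      exact (h1.comp (measurable_id.prodMk hJm)).mul (measurable_ph.comp hVm)
    · intro x
      simp only [hψ]
      rw [norm_mul, norm_ph, mul_one]
      exact (hbp _).conj.2 x
  set θ : α → ℂ := fun x => if x ∈ B then ph (b (J X B (X.S x) + 1) x) else 1 with hθ
  have hθm : Measurable[N.σ] θ := by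
    refine Measurable.ite hB ?_ measurable_const
    refine measurable_ph.comp ?_
    have h1 : @Measurable (α × ℕ) ℂ (@Prod.instMeasurableSpace α ℕ N.σ _) _
        fun p : α × ℕ => b (p.2 + 1) p.1 :=
      @measurable_from_prod_countable_left α ℕ ℂ N.σ _ _ _ _ _ fun k => hbm (k + 1)
    have h2 : @Measurable α (α × ℕ) N.σ (@Prod.instMeasurableSpace α ℕ N.σ _)
        fun x => (x, J X B (X.S x)) :=
      @Measurable.prodMk α N.σ α ℕ N.σ _ _ _ (@measurable_id α N.σ)
        ((measurable_J X N B hB).comp (meas_S X N))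
    exact h1.comp h2
  have hθp : IsPhase θ := by
    refine ⟨hθm.mono hm le_rfl, fun x => ?_⟩
    simp only [hθ]
    split_ifs
    · exact norm_ph _
    · simp
  refine ⟨ψ, θ, hψp, hθp, hθm, ?_, ?_⟩
  · filter_upwards [hent, hentS, hL3', hb0', hvB, X.mp.quasiMeasurePreserving.ae hv0]
      with x h1 h2 h3 h4 h5 h6
    set j := J X B (X.S x) with hj
    have e1 : ψ (X.S x) = conj (bprod X.S ρ j (X.S x)) * ph (v (X.S^[j + 1] x)) := rfl
    have e2 : bprod X.S ρ (j + 1) x = ρ x * bprod X.S ρ j (X.S x) := bprod_succ _ _ _ _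
    have e3 : ρ x * conj (ρ x) = 1 := hρ.mul_conj x
    by_cases hxB : x ∈ B
    · have hjB : X.S^[j + 1] x ∈ B := J_mem X B h2
      have h7 := h3 (j + 1) hxB hjB
      have h8 := h4 (j + 1) hxB hjB
      have h9 := h5 hxB
      have h6' : v (X.S^[j + 1] x) ≠ 0 := h6
      have e4 : ψ x = ph (v x) := by
        simp only [hψ]
        rw [J_zero X B hxB]
        simp [bprod]
      have e5 : θ x = ph (b (j + 1) x) := by
        simp only [hθ]
        rw [if_pos hxB]
      have e6 : conj (bprod X.S ρ (j + 1) x) * ph (v (X.S^[j + 1] x)) = ph (b (j + 1) x) * ph (v x) := by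
        rw [← ph_unit_mul ((hbp (j + 1)).conj.2 x) h6', h7, ph_mul h8 h9]
      rw [e1, e4, e5]
      rw [e2, map_mul] at e6
      calc conj (bprod X.S ρ j (X.S x)) * ph (v (X.S^[j + 1] x))
          = (ρ x * conj (ρ x)) * (conj (bprod X.S ρ j (X.S x)) * ph (v (X.S^[j + 1] x))) := by
            rw [e3, one_mul]
        _ = ρ x * (conj (ρ x) * conj (bprod X.S ρ j (X.S x)) * ph (v (X.S^[j + 1] x))) := by ring
        _ = _ := by rw [e6]; ring
    · have e4 : ψ x = conj (bprod X.S ρ (j + 1) x) * ph (v (X.S^[j + 1] x)) := by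
        simp only [hψ]
        rw [J_succ X B hxB h1]
      have e5 : θ x = 1 := by
        simp only [hθ]
        rw [if_neg hxB]
      rw [e1, e4, e5, e2, map_mul]
      calc conj (bprod X.S ρ j (X.S x)) * ph (v (X.S^[j + 1] x))
          = (ρ x * conj (ρ x)) * (conj (bprod X.S ρ j (X.S x)) * ph (v (X.S^[j + 1] x))) := by
            rw [e3, one_mul]
        _ = _ := by ring
  · -- distance
    have hdm : Measurable fun x => ‖ψ x - φ x‖ ^ 2 := (hψp.1.sub hφ.1).norm.pow_const 2
    have hd4 : ∀ x, ‖ψ x - φ x‖ ^ 2 ≤ 4 := by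
      intro x
      have : ‖ψ x - φ x‖ ≤ 2 := by
        refine (norm_sub_le _ _).trans ?_
        rw [hψp.2, hφ.2]; norm_num
      nlinarith [norm_nonneg (ψ x - φ x)]
    have hdi : Integrable (fun x => ‖ψ x - φ x‖ ^ 2) μ :=
      Integrable.of_bound hdm.aestronglyMeasurable 4 (ae_of_all _ fun x => by
        rw [Real.norm_of_nonneg (by positivity)]; exact hd4 x)
    have hvi : Integrable (fun x => ‖v x - φ x‖ ^ 2) μ := by
      have := (hv2.sub (memLp_bdd hφ.bdd)).integrable_norm_pow (by norm_num)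
      simpa using this
    have h1 : ∫ x in B, ‖ψ x - φ x‖ ^ 2 ∂μ ≤ 4 * ∫ x in B, ‖v x - φ x‖ ^ 2 ∂μ := by
      rw [← integral_const_mul]
      refine integral_mono_ae hdi.integrableOn (hvi.const_mul 4).integrableOn ?_
      filter_upwards [ae_restrict_of_ae hvB, ae_restrict_mem hBm] with x h2 h3
      have e4 : ψ x = ph (v x) := by
        simp only [hψ]
        rw [J_zero X B h3]
        simp [bprod]
      rw [e4]
      have h5 := ph_dist (h2 h3) (hφ.2 x)
      calc ‖ph (v x) - φ x‖ ^ 2 ≤ (2 * ‖v x - φ x‖) ^ 2 := by gcongr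
        _ = 4 * ‖v x - φ x‖ ^ 2 := by ring
    have h2 : ∫ x in Bᶜ, ‖ψ x - φ x‖ ^ 2 ∂μ ≤ 4 * μ.real Bᶜ := by
      calc ∫ x in Bᶜ, ‖ψ x - φ x‖ ^ 2 ∂μ ≤ ∫ _ in Bᶜ, (4 : ℝ) ∂μ :=
            integral_mono hdi.integrableOn (integrable_const _) hd4
        _ = 4 * μ.real Bᶜ := by rw [setIntegral_const, smul_eq_mul, mul_comm]
    unfold dist2
    rw [← integral_add_compl hBm hdi]
    have h3 : δ ^ 2 ≤ 1 / 80 * δ := by nlinarith
    linarith

end MPd26.HK
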