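import Pool.Agent.Lib.MP_d26cd8_an.HK.Flow
import Pool.Agent.Lib.MP_d26cd8_an.HK.Sq

/-!
# MP_d26cd8_an: continuity of flows in `L²` (module FlowCont)
-/

set_option autoImplicit false

open MeasureTheory ProbabilityTheory Filter Topology
open scoped ComplexConjugate ENNReal

namespace MPd26.HK

namespace FlowContM

/-- the translations as a continuous family of continuous maps -/
noncomputable def tr (t : ℝ) : C(ℝ, ℝ) := ⟨fun u => u + t, by fun_prop⟩

lemma continuous_tr : Continuous tr := by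
  have h : Continuous (fun p : ℝ × ℝ => p.2 + p.1) := by fun_prop
  exact (ContinuousMap.curry ⟨_, h⟩).continuous

/-- Continuity of translations in `L¹`. -/
lemma translate {h : ℝ → ℂ} (hh : Integrable h) :
    Tendsto (fun t : ℝ => ∫ u, ‖h (u + t) - h u‖) (𝓝 0) (𝓝 0) := by
  set H : Lp ℂ 1 (volume : Measure ℝ) := (memLp_one_iff_integrable.2 hh).toLp h with hH
  have hHae : H =ᵐ[volume] h := (memLp_one_iff_integrable.2 hh).coeFn_toLp
  have hgm : ∀ t : ℝ, MeasurePreserving (tr t) (volume : Measure ℝ) volume := fun t =>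
    measurePreserving_add_right volume t
  have h1 : Tendsto (fun t : ℝ => Lp.compMeasurePreserving (tr t) (hgm t) H) (𝓝 0)
      (𝓝 (Lp.compMeasurePreserving (tr 0) (hgm 0) H)) :=
    tendsto_const_nhds.compMeasurePreservingLp (continuous_tr.tendsto 0) hgm (hgm 0)
      ENNReal.one_ne_top
  have h2 := tendsto_iff_norm_sub_tendsto_zero.1 h1
  refine h2.congr fun t => ?_
  rw [L1.norm_eq_integral_norm]
  refine integral_congr_ae ?_
  have e1 := Lp.coeFn_compMeasurePreserving H (hgm t)
  have e2 := Lp.coeFn_compMeasurePreserving H (hgm 0)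
  have e3 := (hgm t).quasiMeasurePreserving.ae_eq_comp hHae
  have e4 := (hgm 0).quasiMeasurePreserving.ae_eq_comp hHae
  filter_upwards [Lp.coeFn_sub (Lp.compMeasurePreserving (tr t) (hgm t) H)
    (Lp.compMeasurePreserving (tr 0) (hgm 0) H), e1, e2, e3, e4] with u h5 h6 h7 h8 h9
  rw [h5, Pi.sub_apply, h6, h7, h8, h9]
  simp [tr]

end FlowContM

open FlowContM in
theorem specFlowCont : SpecFlowCont := by
  intro α _ _ Fl f hf
  obtain ⟨hfm, C, hC⟩ := hf
  have hC0 : 0 ≤ C := by
    obtain ⟨x⟩ : Nonempty α := by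
      by_contra h
      rw [not_nonempty_iff] at h
      have h1 : Fl.μ Set.univ = 1 := measure_univ
      rw [Set.univ_eq_empty_iff.2 h, measure_empty] at h1
      exact zero_ne_one h1
    exact (norm_nonneg _).trans (hC x)
  have hd : ∀ x y : α, ‖f x - f y‖ ≤ 2 * C := by
    intro x y
    calc ‖f x - f y‖ ≤ ‖f x‖ + ‖f y‖ := norm_sub_le _ _
      _ ≤ 2 * C := by linarith [hC x, hC y]
  -- the joint function
  have hjm : ∀ t : ℝ, Measurable (fun p : α × ℝ => ‖f (Fl.T (p.2 + t) p.1) - f (Fl.T p.2 p.1)‖) := by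
    intro t
    have h1 : Measurable (fun p : α × ℝ => f (Fl.T (p.2 + t) p.1)) :=
      hfm.comp (Fl.meas.comp ((measurable_snd.add_const t).prodMk measurable_fst))
    have h2 : Measurable (fun p : α × ℝ => f (Fl.T p.2 p.1)) :=
      hfm.comp (Fl.meas.comp (measurable_snd.prodMk measurable_fst))
    exact (h1.sub h2).norm
  set e : ℝ → ℝ := fun t => ∫ x, ‖f (Fl.T t x) - f x‖ ∂Fl.μ with he
  have hes : ∀ t u : ℝ, ∫ x, ‖f (Fl.T (u + t) x) - f (Fl.T u x)‖ ∂Fl.μ = e t := by
    intro t u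
    have h1 := (Fl.mp u).integral_comp' (f := Fl.eqv u) (fun x => ‖f (Fl.T t x) - f x‖)
    show _ = ∫ x, ‖f (Fl.T t x) - f x‖ ∂Fl.μ
    rw [← h1]
    refine integral_congr_ae (ae_of_all _ fun x => ?_)
    show ‖f (Fl.T (u + t) x) - f (Fl.T u x)‖ = ‖f (Fl.T t (Fl.T u x)) - f (Fl.T u x)‖
    rw [add_comm u t, Fl.T_add]
  have hev : ∀ t : ℝ, e t = ∫ x, (∫ u in Set.Ioc (0 : ℝ) 1,
      ‖f (Fl.T (u + t) x) - f (Fl.T u x)‖) ∂Fl.μ := by
    intro t
    have h1 : ∫ u in Set.Ioc (0 : ℝ) 1, (∫ x, ‖f (Fl.T (u + t) x) - f (Fl.T u x)‖ ∂Fl.μ) = e t := by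
      simp only [hes t]
      rw [setIntegral_const]
      simp
    rw [← h1]
    rw [integral_integral_swap]
    have h2 : Integrable (fun p : α × ℝ => ‖f (Fl.T (p.2 + t) p.1) - f (Fl.T p.2 p.1)‖)
        (Fl.μ.prod (volume.restrict (Set.Ioc (0 : ℝ) 1))) := by
      refine Integrable.of_bound (hjm t).aestronglyMeasurable (2 * C) (ae_of_all _ fun p => ?_)
      rw [norm_norm]
      exact hd _ _
    exact h2.swap
  have hin : ∀ x, Tendsto (fun t : ℝ => ∫ u in Set.Ioc (0 : ℝ) 1,
      ‖f (Fl.T (u + t) x) - f (Fl.T u x)‖) (𝓝 0) (𝓝 0) := by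
    intro x
    set h : ℝ → ℂ := (Set.Icc (-1 : ℝ) 2).indicator (fun u => f (Fl.T u x)) with hh
    have hFm : Measurable (fun u : ℝ => f (Fl.T u x)) :=
      hfm.comp (Fl.meas.comp (measurable_id.prodMk measurable_const))
    have hhi : Integrable h := by
      rw [hh, integrable_indicator_iff measurableSet_Icc]
      refine Integrable.of_bound hFm.aestronglyMeasurable C (ae_of_all _ fun u => hC _)
    have h1 := translate hhi
    refine squeeze_zero' (Eventually.of_forall fun t => integral_nonneg fun u => norm_nonneg _)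
      ?_ h1
    have h2 : ∀ᶠ t : ℝ in 𝓝 0, t ∈ Set.Icc (-1 : ℝ) 1 :=
      Icc_mem_nhds (by norm_num) (by norm_num)
    filter_upwards [h2] with t ht
    have hint : Integrable (fun u => ‖h (u + t) - h u‖) :=
      ((hhi.comp_add_right t).sub hhi).norm
    calc ∫ u in Set.Ioc (0 : ℝ) 1, ‖f (Fl.T (u + t) x) - f (Fl.T u x)‖
        = ∫ u in Set.Ioc (0 : ℝ) 1, ‖h (u + t) - h u‖ := by
          refine setIntegral_congr_fun measurableSet_Ioc fun u hu => ?_
          have h3 : u + t ∈ Set.Icc (-1 : ℝ) 2 := ⟨by linarith [hu.1, ht.1], by linarith [hu.2, ht.2]⟩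
          have h4 : u ∈ Set.Icc (-1 : ℝ) 2 := ⟨by linarith [hu.1], by linarith [hu.2]⟩
          simp only [hh, Set.indicator_of_mem h3, Set.indicator_of_mem h4]
      _ ≤ ∫ u, ‖h (u + t) - h u‖ :=
          setIntegral_le_integral hint (ae_of_all _ fun u => norm_nonneg _)
  have hlim : Tendsto e (𝓝 0) (𝓝 0) := by
    have h1 : Tendsto (fun t : ℝ => ∫ x, (∫ u in Set.Ioc (0 : ℝ) 1,
        ‖f (Fl.T (u + t) x) - f (Fl.T u x)‖) ∂Fl.μ) (𝓝 0) (𝓝 (∫ _ : α, (0 : ℝ) ∂Fl.μ)) := by
      refine tendsto_integral_filter_of_dominated_convergence (fun _ => 2 * C) ?_ ?_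
        (integrable_const _) (ae_of_all _ hin)
      · refine Eventually.of_forall fun t => ?_
        exact ((hjm t).stronglyMeasurable.integral_prod_right').aestronglyMeasurable
      · refine Eventually.of_forall fun t => ae_of_all _ fun x => ?_
        have h2 := norm_setIntegral_le_of_norm_le_const (μ := (volume : Measure ℝ))
          (s := Set.Ioc (0 : ℝ) 1) (f := fun u => ‖f (Fl.T (u + t) x) - f (Fl.T u x)‖)
          (C := 2 * C) (by simp) (fun u _ => by rw [norm_norm]; exact hd _ _)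
        simpa using h2
    rw [integral_zero] at h1
    exact h1.congr fun t => (hev t).symm
  have hle : ∀ t, dist2 Fl.μ (fun x => f (Fl.T t x)) f ≤ 2 * C * e t := by
    intro t
    have hm1 : Measurable (fun x => f (Fl.T t x) - f x) := (hfm.comp (Fl.measT t)).sub hfm
    unfold dist2
    rw [he, ← integral_const_mul]
    refine integral_mono ?_ ?_ fun x => ?_
    · refine Integrable.of_bound (hm1.norm.pow_const 2).aestronglyMeasurable ((2 * C) ^ 2)
        (ae_of_all _ fun x => ?_)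
      rw [norm_pow, norm_norm]
      exact pow_le_pow_left₀ (norm_nonneg _) (hd _ _) 2
    · refine Integrable.const_mul ?_ _
      exact Integrable.of_bound hm1.norm.aestronglyMeasurable (2 * C)
        (ae_of_all _ fun x => by rw [norm_norm]; exact hd _ _)
    · show ‖f (Fl.T t x) - f x‖ ^ 2 ≤ 2 * C * ‖f (Fl.T t x) - f x‖
      rw [pow_two]
      exact mul_le_mul_of_nonneg_right (hd _ _) (norm_nonneg _)
  have h3 : Tendsto (fun t => 2 * C * e t) (𝓝 0) (𝓝 0) := by
    have := hlim.const_mul (2 * C)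
    rwa [mul_zero] at this
  exact squeeze_zero (fun t => integral_nonneg fun x => by positivity) hle h3

end MPd26.HK
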