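import Pool.Agent.Lib.MP_d26cd8_an.HK.Flow
import Pool.Agent.Lib.MP_d26cd8_an.HK.Sq

/-!
# MP_d26cd8_an: generic times of an ergodic flow are ergodic (module Gen)
-/

set_option autoImplicit false

open MeasureTheory ProbabilityTheory Filter Topology
open scoped ComplexConjugate ENNReal

namespace MPd26.HK

namespace GenM

/-! ### Fourier coefficients on the circle -/

lemma fourier_unique {F : AddCircle (1 : ℝ) → ℂ} (hF : Measurable F) {C : ℝ}
    (hC : ∀ z, ‖F z‖ ≤ C) (h : ∀ n : ℤ, n ≠ 0 → fourierCoeff F n = 0) :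
    ∀ᵐ z ∂(AddCircle.haarAddCircle : Measure (AddCircle (1 : ℝ))), F z = fourierCoeff F 0 := by
  have hm : MemLp F 2 (AddCircle.haarAddCircle : Measure (AddCircle (1 : ℝ))) :=
    MemLp.of_bound hF.aestronglyMeasurable C (ae_of_all _ hC)
  set G : Lp ℂ 2 (AddCircle.haarAddCircle : Measure (AddCircle (1 : ℝ))) := hm.toLp F with hG
  have hae : G =ᵐ[AddCircle.haarAddCircle] F := hm.coeFn_toLp
  have hcoef : fourierCoeff G = fourierCoeff F := fourierCoeff_congr_ae hae
  have h1 := hasSum_fourier_series_L2 G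
  rw [hcoef] at h1
  have h2 : HasSum (fun i : ℤ => fourierCoeff F i •
      (fourierLp 2 i : Lp ℂ 2 (AddCircle.haarAddCircle : Measure (AddCircle (1 : ℝ)))))
      (fourierCoeff F 0 • fourierLp 2 0) := by
    apply hasSum_single
    intro i hi
    rw [h i hi, zero_smul]
  have h3 := h1.unique h2
  have h4 := Lp.coeFn_smul (fourierCoeff F 0)
    (fourierLp 2 0 : Lp ℂ 2 (AddCircle.haarAddCircle : Measure (AddCircle (1 : ℝ))))
  rw [← h3] at h4
  filter_upwards [hae, h4, coeFn_fourierLp (T := (1 : ℝ)) 2 0] with z hz1 hz2 hz3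
  rw [← hz1, hz2, Pi.smul_apply, hz3, fourier_zero, smul_eq_mul, mul_one]

/-! ### Eigenvalues -/

section
variable {α : Type} [mα : MeasurableSpace α] (Fl : Flow α)

/-- eigenvalues of a flow -/
def IsEig (l : ℝ) : Prop :=
  ∃ g : α → ℂ, Bdd g ∧ (¬ g =ᵐ[Fl.μ] 0) ∧
    ∀ t x, g (Fl.T t x) = Complex.exp (2 * Real.pi * (l * t) * Complex.I) * g x

lemma exp_ne {d : ℝ} (hd : d ≠ 0) :
    Complex.exp (2 * Real.pi * (d * (1 / (2 * d))) * Complex.I) ≠ 1 := by
  have h1 : (2 * Real.pi * (d * (1 / (2 * d))) * Complex.I : ℂ) = Real.pi * Complex.I := by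
    have hd' : (d : ℂ) ≠ 0 := by exact_mod_cast hd
    field_simp
  rw [h1, Complex.exp_pi_mul_I]
  norm_num

lemma orth {l l' : ℝ} (hl : l ≠ l') {g g' : α → ℂ}
    (h : ∀ t x, g (Fl.T t x) = Complex.exp (2 * Real.pi * (l * t) * Complex.I) * g x)
    (h' : ∀ t x, g' (Fl.T t x) = Complex.exp (2 * Real.pi * (l' * t) * Complex.I) * g' x) :
    ∫ x, conj (g x) * g' x ∂Fl.μ = 0 := by
  set d : ℝ := l' - l with hd
  have hd0 : d ≠ 0 := sub_ne_zero.2 (Ne.symm hl)
  set t : ℝ := 1 / (2 * d) with ht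
  have h1 : ∫ x, conj (g x) * g' x ∂Fl.μ =
      ∫ x, conj (g (Fl.T t x)) * g' (Fl.T t x) ∂Fl.μ :=
    ((Fl.mp t).integral_comp' (f := Fl.eqv t) (fun x => conj (g x) * g' x)).symm
  have h2 : ∀ x, conj (g (Fl.T t x)) * g' (Fl.T t x) =
      Complex.exp (2 * Real.pi * (d * (1 / (2 * d))) * Complex.I) * (conj (g x) * g' x) := by
    intro x
    rw [h, h', map_mul, ← Complex.exp_conj]
    have e1 : conj (2 * Real.pi * (l * t) * Complex.I : ℂ) = -(2 * Real.pi * (l * t) * Complex.I) := by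
      simp only [map_mul, Complex.conj_ofReal, Complex.conj_I, map_ofNat]
      ring
    rw [e1]
    have e2 : Complex.exp (-(2 * Real.pi * (l * t) * Complex.I)) * conj (g x) *
        (Complex.exp (2 * Real.pi * (l' * t) * Complex.I) * g' x) =
        (Complex.exp (-(2 * Real.pi * (l * t) * Complex.I)) *
          Complex.exp (2 * Real.pi * (l' * t) * Complex.I)) * (conj (g x) * g' x) := by ring
    rw [e2, ← Complex.exp_add]
    congr 2
    rw [ht, hd]
    push_cast
    ring
  simp only [h2] at h1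
  rw [integral_const_mul] at h1
  have h3 : (1 - Complex.exp (2 * Real.pi * (d * (1 / (2 * d))) * Complex.I)) *
      ∫ x, conj (g x) * g' x ∂Fl.μ = 0 := by
    rw [sub_mul, one_mul, sub_eq_zero]
    exact h1
  rcases mul_eq_zero.1 h3 with h4 | h4
  · exact absurd (sub_eq_zero.1 h4).symm (exp_ne hd0)
  · exact h4

lemma eig_countable [StandardBorelSpace α] : {l : ℝ | IsEig Fl l}.Countable := by
  classical
  have hch : ∀ l : ℝ, ∃ g : α → ℂ, IsEig Fl l → (Bdd g ∧ (¬ g =ᵐ[Fl.μ] 0) ∧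
    ∀ t x, g (Fl.T t x) = Complex.exp (2 * Real.pi * (l * t) * Complex.I) * g x) := by
    intro l
    by_cases hl : IsEig Fl l
    · obtain ⟨g, hg⟩ := hl
      exact ⟨g, fun _ => hg⟩
    · exact ⟨fun _ => 0, fun h => absurd h hl⟩
  choose g hg using hch
  have hmem : ∀ l, IsEig Fl l → MemLp (g l) 2 Fl.μ := by
    intro l hl
    obtain ⟨⟨hm, C, hC⟩, -, -⟩ := hg l hl
    exact MemLp.of_bound hm.aestronglyMeasurable C (ae_of_all _ hC)
  let G : ℝ → Lp ℂ 2 Fl.μ := fun l => if hl : IsEig Fl l then (hmem l hl).toLp (g l) else 0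
  have hG : ∀ l (hl : IsEig Fl l), G l = (hmem l hl).toLp (g l) := fun l hl => dif_pos hl
  have hG0 : ∀ l, IsEig Fl l → G l ≠ 0 := by
    intro l hl h0
    rw [hG l hl] at h0
    apply (hg l hl).2.1
    have := (hmem l hl).coeFn_toLp
    rw [h0] at this
    exact (this.symm.trans (Lp.coeFn_zero _ _ _))
  have horth : ∀ l l', IsEig Fl l → IsEig Fl l' → l ≠ l' → inner ℂ (G l) (G l') = 0 := by
    intro l l' hl hl' hne
    rw [L2.inner_def, ← orth Fl hne (hg l hl).2.2 (hg l' hl').2.2]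
    refine integral_congr_ae ?_
    rw [hG l hl, hG l' hl']
    filter_upwards [(hmem l hl).coeFn_toLp, (hmem l' hl').coeFn_toLp] with x h1 h2
    rw [h1, h2, RCLike.inner_apply']
  -- balls of radius `‖G l‖ / 2`
  have hdisj : {l : ℝ | IsEig Fl l}.PairwiseDisjoint (fun l => Metric.ball (G l) (‖G l‖ / 2)) := by
    intro l hl l' hl' hne
    rw [Function.onFun, Set.disjoint_left]
    intro z hz hz'
    rw [Metric.mem_ball] at hz hz'
    have h1 : dist (G l) (G l') < ‖G l‖ / 2 + ‖G l'‖ / 2 := by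
      calc dist (G l) (G l') ≤ dist (G l) z + dist z (G l') := dist_triangle _ _ _
        _ < _ := add_lt_add (by rw [dist_comm]; exact hz) hz'
    have h2 : ‖G l - G l'‖ ^ 2 = ‖G l‖ ^ 2 + ‖G l'‖ ^ 2 := by
      rw [@norm_sub_sq ℂ, horth l l' hl hl' hne]
      simp
    rw [dist_eq_norm] at h1
    have h3 : ‖G l - G l'‖ ^ 2 < (‖G l‖ / 2 + ‖G l'‖ / 2) ^ 2 :=
      pow_lt_pow_left₀ h1 (norm_nonneg _) two_ne_zero
    nlinarith [sq_nonneg (‖G l‖ - ‖G l'‖), sq_nonneg (‖G l‖), sq_nonneg (‖G l'‖)]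
  have : Fact ((2 : ℝ≥0∞) ≠ ⊤) := ⟨by norm_num⟩
  have : SecondCountableTopology (Lp ℂ 2 Fl.μ) := inferInstance
  refine hdisj.countable_of_isOpen (fun l _ => Metric.isOpen_ball) ?_
  intro l hl
  refine Metric.nonempty_ball.2 ?_
  have := norm_pos_iff.2 (hG0 l hl)
  positivity

lemma erg_const (hErg : Fl.Erg) {g : α → ℂ} (hg : Measurable g)
    (hinv : ∀ t x, g (Fl.T t x) = g x) : ∃ c : ℂ, ∀ᵐ x ∂Fl.μ, g x = c := by
  have h := Filter.exists_eventuallyEq_const_of_forall_separating (l := ae Fl.μ) (f := g)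
    (β := ℂ) MeasurableSet ?_
  · obtain ⟨c, hc⟩ := h
    exact ⟨c, hc⟩
  · intro U hU
    have h1 := hErg (g ⁻¹' U) (hg hU) (fun t => by
      have : Fl.T t ⁻¹' (g ⁻¹' U) = g ⁻¹' U := by
        ext x
        simp only [Set.mem_preimage, hinv]
      exact Filter.EventuallyEq.of_eq this)
    rcases h1 with h1 | h1
    · right
      exact measure_eq_zero_iff_ae_notMem.1 h1
    · left
      exact (mem_ae_iff_prob_eq_one (hg hU)).2 h1

lemma fourier_add_arg (n : ℤ) (z w : AddCircle (1 : ℝ)) :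
    (fourier n (z + w) : ℂ) = fourier n z * fourier n w := by
  simp only [fourier_apply, smul_add, AddCircle.toCircle_add, Circle.coe_mul]

lemma fourierCoeff_translate (F : AddCircle (1 : ℝ) → ℂ) (n : ℤ) (a : AddCircle (1 : ℝ)) :
    fourierCoeff (fun z => F (z + a)) n = fourier n a * fourierCoeff F n := by
  unfold fourierCoeff
  have h1 : ∀ z : AddCircle (1 : ℝ), (fourier (-n) z : ℂ) • F (z + a) =
      (fun w : AddCircle (1 : ℝ) => fourier n a * ((fourier (-n) w : ℂ) • F w)) (z + a) := by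
    intro z
    simp only [smul_eq_mul, fourier_add_arg]
    have h2 : (fourier n a : ℂ) * fourier (-n) a = 1 := by
      rw [← fourier_add, add_neg_cancel, fourier_zero]
    calc (fourier (-n) z : ℂ) * F (z + a) = (fourier n a * fourier (-n) a) *
          (fourier (-n) z * F (z + a)) := by rw [h2, one_mul]
      _ = _ := by ring
  simp only [h1]
  rw [integral_add_right_eq_self (μ := (AddCircle.haarAddCircle : Measure (AddCircle (1 : ℝ))))
    (fun w : AddCircle (1 : ℝ) => fourier n a * ((fourier (-n) w : ℂ) • F w)) a,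
    integral_const_mul]

lemma exists_eig [StandardBorelSpace α] (hErg : Fl.Erg) {θ : ℝ} (hθ : θ ≠ 0)
    (hne : ¬ (Fl.sys θ).Erg) : ∃ n : ℤ, n ≠ 0 ∧ IsEig Fl ((n : ℝ) / θ) := by
  have h1 : ∃ s : Set α, MeasurableSet s ∧ Fl.T θ ⁻¹' s = s ∧
      ¬ EventuallyConst s (ae Fl.μ) := by
    by_contra hcon
    push Not at hcon
    apply hne
    refine ⟨Fl.mp θ, ⟨?_⟩⟩
    intro s hs hinv
    exact hcon s hs hinv
  obtain ⟨A, hA, hAinv, hAc⟩ := h1
  set f : α → ℂ := A.indicator (fun _ => (1 : ℂ)) with hf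
  have hfm : Measurable f := measurable_const.indicator hA
  have hf1 : ∀ x, ‖f x‖ ≤ 1 := by
    intro x
    by_cases hx : x ∈ A
    · simp [hf, hx]
    · simp [hf, hx]
  have hfθ : ∀ x, f (Fl.T θ x) = f x := by
    intro x
    have h2 : Fl.T θ x ∈ A ↔ x ∈ A := by
      have : x ∈ Fl.T θ ⁻¹' A ↔ x ∈ A := by rw [hAinv]
      exact this
    by_cases hx : x ∈ A
    · simp [hf, hx, h2]
    · simp [hf, hx, h2]
  have hper : ∀ x, Function.Periodic (fun s : ℝ => f (Fl.T (θ * s) x)) 1 := by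
    intro x s
    show f (Fl.T (θ * (s + 1)) x) = f (Fl.T (θ * s) x)
    rw [show θ * (s + 1) = θ + θ * s by ring, Fl.T_add, hfθ]
  let F : α → AddCircle (1 : ℝ) → ℂ := fun x => (hper x).lift
  have hFc : ∀ x (s : ℝ), F x (s : AddCircle (1 : ℝ)) = f (Fl.T (θ * s) x) := fun x s =>
    (hper x).lift_coe s
  have hFm : ∀ x, Measurable (F x) := by
    intro x
    refine measurable_from_quotient.2 ?_
    have : (F x ∘ Quotient.mk'' : ℝ → ℂ) = fun s => f (Fl.T (θ * s) x) := by
      funext s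
      exact hFc x s
    rw [this]
    exact hfm.comp (Fl.meas.comp ((measurable_const_mul θ).prodMk measurable_const))
  have hF1 : ∀ x z, ‖F x z‖ ≤ 1 := by
    intro x z
    induction z using QuotientAddGroup.induction_on with
    | H s => 
      have := hFc x s
      rw [this]
      exact hf1 _
  have hFt : ∀ t x, F (Fl.T t x) = fun z => F x (z + ((t / θ : ℝ) : AddCircle (1 : ℝ))) := by
    intro t x
    funext z
    induction z using QuotientAddGroup.induction_on with
    | H s =>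
      have h2 := hFc (Fl.T t x) s
      have h3 := hFc x (s + t / θ)
      rw [AddCircle.coe_add] at h3
      rw [h2, h3, ← Fl.T_add]
      congr 2
      field_simp
  set c : ℤ → α → ℂ := fun n x => fourierCoeff (F x) n with hc
  have hcint : ∀ n x, c n x = ∫ s in Set.Ioc (0 : ℝ) 1,
      (fourier (-n) (s : AddCircle (1 : ℝ)) : ℂ) * f (Fl.T (θ * s) x) := by
    intro n x
    rw [hc]
    simp only
    rw [fourierCoeff_eq_intervalIntegral (F x) n 0, zero_add, one_div, inv_one, one_smul,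
      intervalIntegral.integral_of_le zero_le_one]
    simp only [hFc, smul_eq_mul]
  have hcm : ∀ n, Measurable (c n) := by
    intro n
    have h2 : Measurable (fun p : α × ℝ => (fourier (-n) (p.2 : AddCircle (1 : ℝ)) : ℂ) *
        f (Fl.T (θ * p.2) p.1)) := by
      refine Measurable.mul ?_ ?_
      · exact ((fourier (-n)).continuous.comp (AddCircle.continuous_mk' 1)).measurable.comp
          measurable_snd
      · exact hfm.comp (Fl.meas.comp ((measurable_snd.const_mul θ).prodMk measurable_fst))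
    have h3 : StronglyMeasurable (fun x => ∫ s in Set.Ioc (0 : ℝ) 1,
        (fourier (-n) (s : AddCircle (1 : ℝ)) : ℂ) * f (Fl.T (θ * s) x)) :=
      h2.stronglyMeasurable.integral_prod_right'
    have h4 : c n = fun x => ∫ s in Set.Ioc (0 : ℝ) 1,
        (fourier (-n) (s : AddCircle (1 : ℝ)) : ℂ) * f (Fl.T (θ * s) x) := funext (hcint n)
    rw [h4]
    exact h3.measurable
  have hcb : ∀ n x, ‖c n x‖ ≤ 1 := by
    intro n x
    show ‖∫ z, (fourier (-n) z : ℂ) • F x z ∂AddCircle.haarAddCircle‖ ≤ 1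
    have h2 := norm_integral_le_of_norm_le_const (μ := (AddCircle.haarAddCircle :
      Measure (AddCircle (1 : ℝ)))) (f := fun z => (fourier (-n) z : ℂ) • F x z) (C := 1)
      (ae_of_all _ fun z => by
        rw [norm_smul]
        have h3 : ‖(fourier (-n) z : ℂ)‖ = 1 := by
          rw [fourier_apply]
          exact Circle.norm_coe _
        rw [h3, one_mul]
        exact hF1 x z)
    simpa using h2
  have hct : ∀ n t x, c n (Fl.T t x) =
      Complex.exp (2 * Real.pi * (((n : ℝ) / θ : ℝ) * t) * Complex.I) * c n x := by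
    intro n t x
    rw [hc]
    simp only
    rw [hFt, fourierCoeff_translate, fourier_coe_apply]
    congr 2
    push_cast
    ring
  obtain ⟨k, hk⟩ := erg_const Fl hErg (hcm 0) (fun t x => by
    rw [hct]
    simp)
  by_contra hcon
  push Not at hcon
  have hall : ∀ n : ℤ, n ≠ 0 → c n =ᵐ[Fl.μ] 0 := by
    intro n hn
    by_contra h2
    exact hcon n hn ⟨c n, ⟨hcm n, 1, hcb n⟩, h2, hct n⟩
  have hall' : ∀ᵐ x ∂Fl.μ, ∀ n : ℤ, n ≠ 0 → c n x = 0 := by
    rw [ae_all_iff]
    intro n
    by_cases hn : n = 0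
    · exact ae_of_all _ fun x h => absurd hn h
    · filter_upwards [hall n hn] with x hx _
      exact hx
  have hae : ∀ᵐ x ∂Fl.μ, ∀ᵐ s ∂(volume.restrict (Set.Ioc (0 : ℝ) 1)), f (Fl.T (θ * s) x) = k := by
    filter_upwards [hall', hk] with x hx1 hx2
    have h2 := fourier_unique (hFm x) (hF1 x) hx1
    have h3 : ∀ᵐ z ∂(volume : Measure (AddCircle (1 : ℝ))), F x z = fourierCoeff (F x) 0 := by
      rw [AddCircle.volume_eq_smul_haarAddCircle]
      exact Measure.ae_smul_measure h2 _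
    have h4 := (AddCircle.measurePreserving_mk (1 : ℝ) 0).quasiMeasurePreserving.ae h3
    rw [zero_add] at h4
    filter_upwards [h4] with s hs
    rw [← hFc, hs]
    exact hx2
  have hmeas : MeasurableSet {p : α × ℝ | f (Fl.T (θ * p.2) p.1) = k} :=
    measurableSet_eq_fun (hfm.comp (Fl.meas.comp ((measurable_snd.const_mul θ).prodMk
      measurable_fst))) measurable_const
  have hae2 := (Measure.ae_ae_comm (p := fun x s => f (Fl.T (θ * s) x) = k) hmeas).1 hae
  have hvol : (volume.restrict (Set.Ioc (0 : ℝ) 1)) ≠ 0 := by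
    intro h0
    have h5 : (volume.restrict (Set.Ioc (0 : ℝ) 1)) Set.univ = 0 := by rw [h0]; simp
    rw [Measure.restrict_apply_univ, Real.volume_Ioc] at h5
    simp at h5
  have : NeZero (volume.restrict (Set.Ioc (0 : ℝ) 1)) := ⟨hvol⟩
  obtain ⟨s, hs⟩ := hae2.exists
  have hfk : ∀ᵐ x ∂Fl.μ, f x = k := by
    rw [← (Fl.mp (θ * s)).map_eq]
    rw [ae_map_iff (Fl.measT _).aemeasurable (measurableSet_eq_fun hfm measurable_const)]
    exact hs
  apply hAc
  rw [eventuallyConst_set]
  by_cases hk1 : k = 1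
  · left
    filter_upwards [hfk] with x hx
    by_contra hxA
    rw [hk1, hf, Set.indicator_of_notMem hxA] at hx
    exact zero_ne_one hx
  · right
    filter_upwards [hfk] with x hx hxA
    rw [hf, Set.indicator_of_mem hxA] at hx
    exact hk1 hx.symm

end

end GenM

open GenM in
theorem specGen : SpecGen := by
  intro α _ _ Fl hErg
  have h1 : {θ : ℝ | ¬ (Fl.sys θ).Erg} ⊆
      {0} ∪ ⋃ n : ℤ, (fun l : ℝ => (n : ℝ) / l) '' {l : ℝ | IsEig Fl l} := by
    intro θ hθ
    by_cases h0 : θ = 0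
    · left
      exact h0
    · right
      obtain ⟨n, hn, hE⟩ := exists_eig Fl hErg h0 hθ
      rw [Set.mem_iUnion]
      refine ⟨n, (n : ℝ) / θ, hE, ?_⟩
      have hn' : (n : ℝ) ≠ 0 := by exact_mod_cast hn
      simp only
      field_simp
  refine Set.Countable.mono h1 ((Set.countable_singleton 0).union ?_)
  exact Set.countable_iUnion fun n => (eig_countable Fl).image _

end MPd26.HK
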