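import Pool.Agent.Lib.MP_d26cd8_an.HK.Flow
import Pool.Agent.Lib.MP_d26cd8_an.HK.Sq

/-!
# MP_d26cd8_an: cube measures of a flow (modules FlowSide, Ind)
-/

set_option autoImplicit false

open MeasureTheory ProbabilityTheory Filter Topology
open scoped ComplexConjugate ENNReal

namespace MPd26.HK

namespace IndM

/-- If every `m₁`-measurable set agrees almost everywhere with an `m₂`-measurable set then
`m₁`-measurable functions are `m₂`-measurable modulo null sets. -/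
lemma aesm_of_sets {Ω : Type} {m₁ m₂ : MeasurableSpace Ω} [mΩ : MeasurableSpace Ω]
    {μ : Measure Ω} (h : ∀ s, MeasurableSet[m₁] s → ∃ t, MeasurableSet[m₂] t ∧ t =ᵐ[μ] s)
    {g : Ω → ℂ} (hg : StronglyMeasurable[m₁] g) : AEStronglyMeasurable[m₂] g μ := by
  have h1 : ∀ φ : @SimpleFunc Ω m₁ ℂ, AEStronglyMeasurable[m₂] φ μ := by
    intro φ
    induction φ using SimpleFunc.induction with
    | const c hs =>
      rename_i s
      obtain ⟨t, ht, hts⟩ := h s hs
      refine ⟨t.indicator (fun _ => c), stronglyMeasurable_const.indicator ht, ?_⟩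
      filter_upwards [hts] with x hx
      have hx' : x ∈ t ↔ x ∈ s := eq_iff_iff.1 hx
      by_cases hxs : x ∈ s
      · simp [hxs, hx'.2 hxs]
      · have : x ∉ t := fun h => hxs (hx'.1 h)
        simp [hxs, this]
    | add _ hf hg => exact hf.add hg
  choose g' hg'm hg'e using fun n => h1 (hg.approx n)
  refine ⟨fun x => limUnder atTop (fun n => g' n x),
    @StronglyMeasurable.limUnder ℕ Ω ℂ m₂ _ _ atTop _ g' _ _ hg'm, ?_⟩
  filter_upwards [ae_all_iff.2 hg'e] with x hx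
  have h2 : Tendsto (fun n => g' n x) atTop (𝓝 (g x)) :=
    (hg.tendsto_approx x).congr hx
  exact h2.limUnder_eq.symm

/-- Conditional expectations with respect to σ-algebras which agree modulo null sets. -/
lemma condExp_eq_of_sets {Ω : Type} {m₁ m₂ : MeasurableSpace Ω} [mΩ : MeasurableSpace Ω]
    (hm₁ : m₁ ≤ mΩ) (hm₂ : m₂ ≤ mΩ) {μ : Measure Ω} [IsFiniteMeasure μ]
    (h : ∀ s, MeasurableSet[m₁] s → ∃ t, MeasurableSet[m₂] t ∧ t =ᵐ[μ] s)
    (h' : ∀ s, MeasurableSet[m₂] s → ∃ t, MeasurableSet[m₁] t ∧ t =ᵐ[μ] s)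
    {f : Ω → ℂ} (hf : Integrable f μ) : μ[f | m₁] =ᵐ[μ] μ[f | m₂] := by
  refine ae_eq_condExp_of_forall_setIntegral_eq hm₂ hf
    (fun s _ _ => integrable_condExp.integrableOn) ?_
    (aesm_of_sets h stronglyMeasurable_condExp)
  intro s hs _
  obtain ⟨t, ht, hts⟩ := h' s hs
  rw [← setIntegral_congr_set hts, setIntegral_condExp hm₁ hf ht, setIntegral_congr_set hts]

/-- The relatively independent squares agree. -/
lemma relSq_eq_of_sets {Ω : Type} {m₁ m₂ : MeasurableSpace Ω} [mΩ : MeasurableSpace Ω]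
    [StandardBorelSpace Ω] (hm₁ : m₁ ≤ mΩ) (hm₂ : m₂ ≤ mΩ) {μ : Measure Ω} [IsFiniteMeasure μ]
    (h : ∀ s, MeasurableSet[m₁] s → ∃ t, MeasurableSet[m₂] t ∧ t =ᵐ[μ] s)
    (h' : ∀ s, MeasurableSet[m₂] s → ∃ t, MeasurableSet[m₁] t ∧ t =ᵐ[μ] s) :
    relSq hm₁ μ = relSq hm₂ μ := by
  have : IsFiniteMeasure (relSq hm₁ μ) := by unfold relSq; infer_instance
  have : IsFiniteMeasure (relSq hm₂ μ) := by unfold relSq; infer_instance
  refine Measure.ext_prod fun {A B} hA hB => ?_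
  have hbi : ∀ {A : Set Ω}, MeasurableSet A → Integrable (A.indicator (fun _ => (1 : ℂ))) μ :=
    fun hA => (integrable_const (1 : ℂ)).indicator hA
  have h2 : (relSq hm₁ μ).real (A ×ˢ B) = (relSq hm₂ μ).real (A ×ˢ B) := by
    have h3 := relSq_real_prod hm₁ μ hA hB
    have h4 := relSq_real_prod hm₂ μ hA hB
    have h5 : (((relSq hm₁ μ).real (A ×ˢ B) : ℝ) : ℂ) =
        (((relSq hm₂ μ).real (A ×ˢ B) : ℝ) : ℂ) := by
      rw [h3, h4]
      refine integral_congr_ae ?_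
      filter_upwards [condExp_eq_of_sets hm₁ hm₂ h h' (hbi hA),
        condExp_eq_of_sets hm₁ hm₂ h h' (hbi hB)] with x h6 h7
      rw [h6, h7]
    exact_mod_cast h5
  exact (measureReal_eq_measureReal_iff).1 h2

variable {α : Type} [mα : MeasurableSpace α] (Fl : Flow α)

lemma comm (θ t : ℝ) (x : α) : Fl.eqv t ((Fl.sys θ).S x) = (Fl.sys θ).S (Fl.eqv t x) := by
  show Fl.T t (Fl.T θ x) = Fl.T θ (Fl.T t x)
  rw [← Fl.T_add, ← Fl.T_add, add_comm]

end IndM

open IndM in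
theorem specFlowSide (hAut : SpecAut) : SpecFlowSide := by
  intro α _ _ Fl θ t hErg n
  have h := hAut α (Fl.sys θ) (Fl.eqv t) hErg (Fl.mp t) (comm Fl θ t)
  refine ⟨(h n).1, (h n).2.1, ?_⟩
  intro s hs
  exact Sys.InZ.pre (Fl.sys θ) hs (Fl.measT t) (h (n + 1)).2.1

open IndM in
theorem specInd (hAut : SpecAut) : SpecInd := by
  intro α _ _ Fl
  have key : ∀ θ θ' : ℝ, (Fl.sys θ).Erg → (Fl.sys θ').Erg → ∀ n : ℕ,
      (Fl.sys θ).cm n = (Fl.sys θ').cm n →
      ∀ s, MeasurableSet[(Fl.sys θ).inv n] s →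
        ∃ t, MeasurableSet[(Fl.sys θ').inv n] t ∧ t =ᵐ[(Fl.sys θ').cm n] s := by
    intro θ θ' hθ hθ' n hn s hs
    have h1 := (hAut α (Fl.sys θ) (Fl.eqv θ') hθ (Fl.mp θ') (comm Fl θ θ') n).2.2 s hs
    rw [hn] at h1
    have hs' : MeasurableSet s := (Fl.sys θ).inv_le n s hs
    obtain ⟨t, ht1, ht2, ht3⟩ := ((Fl.sys θ').mp_cmap n).quasiMeasurePreserving.exists_preimage_eq_of_preimage_ae
      hs'.nullMeasurableSet h1
    exact ⟨t, MeasurableSpace.measurableSet_invariants.2 ⟨ht1, ht3⟩, ht2⟩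
  intro θ θ' hθ hθ' n
  induction n with
  | zero => rfl
  | succ n ih =>
    rw [Sys.cm_succ, Sys.cm_succ]
    congr 1
    have h1 := key θ θ' hθ hθ' n ih
    have h2 := key θ' θ hθ' hθ n ih.symm
    rw [ih] at h2
    have e := relSq_eq_of_sets ((Fl.sys θ).inv_le n) ((Fl.sys θ').inv_le n)
      (μ := (Fl.sys θ').cm n) h1 h2
    rw [← e]
    congr 1

end MPd26.HK
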