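import Pool.Agent.Lib.MP_d26cd8_an.HK.A_M2

/-!
# Functions invariant under `id × T`, and under the upper sides (SpecIdT, SpecUpper)
-/

set_option autoImplicit false

open MeasureTheory ProbabilityTheory Filter Topology
open scoped ComplexConjugate ENNReal

namespace MPd26.HK

namespace IdTM

variable {Ω : Type} [mΩ : MeasurableSpace Ω] [StandardBorelSpace Ω]

/-- Functions on the relative square over the invariants which are invariant under `id × T`
depend on the first coordinate only. -/
theorem idT {μ : Measure Ω} [IsProbabilityMeasure μ] {T : Ω → Ω} (hT : MeasurePreserving T μ μ)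
    {F : Ω × Ω → ℂ} (hF : Bdd F)
    (hinv : ∀ᵐ p ∂(relSq (MeasurableSpace.invariants_le T) μ), F (p.1, T p.2) = F p) :
    ∃ F' : Ω → ℂ, Bdd F' ∧ ∀ᵐ p ∂(relSq (MeasurableSpace.invariants_le T) μ), F p = F' p.1 := by
  have hle := MeasurableSpace.invariants_le T
  set ν := relSq hle μ with hν
  obtain ⟨C, hC0, hC⟩ := hF.bound
  let F' : Ω → ℂ := fun x => ∫ y, F (x, y) ∂(dis hle μ x)
  have hF'm : Measurable F' :=
    (hF.meas.stronglyMeasurable.integral_kernel_prod_right' (κ := dis hle μ)).measurable
  have hF'b : ∀ x, ‖F' x‖ ≤ C := fun x => by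
    have := norm_integral_le_of_norm_le_const (μ := dis hle μ x)
      (Eventually.of_forall fun y => hC (x, y))
    simpa using this
  have hF' : Bdd F' := ⟨hF'm, C, hF'b⟩
  refine ⟨F', hF', ?_⟩
  -- the map `id × T` preserves `ν`
  have hidT : MeasurePreserving (Prod.map id T) ν ν :=
    ⟨measurable_id.prodMap hT.measurable, relSq_map_snd hT⟩
  have hit : ∀ n : ℕ, MeasurePreserving (Prod.map id (T^[n]) : Ω × Ω → Ω × Ω) ν ν ∧
      ∀ᵐ p ∂ν, F (p.1, T^[n] p.2) = F p := by
    intro n
    induction n with
    | zero => exact ⟨by simpa using MeasurePreserving.id ν, Eventually.of_forall fun p => rfl⟩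
    | succ n ih =>
      refine ⟨?_, ?_⟩
      · have h1 := hidT.comp ih.1
        have e : (Prod.map id T ∘ Prod.map id (T^[n]) : Ω × Ω → Ω × Ω)
            = Prod.map id (T^[n + 1]) := by
          funext p
          simp [Prod.map, Function.iterate_succ_apply']
        rwa [e] at h1
      · have h2 := ih.1.quasiMeasurePreserving.ae hinv
        filter_upwards [h2, ih.2] with p h3 h4
        have e : T^[n + 1] p.2 = T (T^[n] p.2) := Function.iterate_succ_apply' _ _ _
        rw [e]
        have h5 : F ((Prod.map id (T^[n]) p).1, T (Prod.map id (T^[n]) p).2)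
          = F (Prod.map id (T^[n]) p) := h3
        exact h5.trans h4
  -- the difference is orthogonal to all products
  have hG : Bdd (fun p : Ω × Ω => F p - F' p.1) := hF.sub (hF'.comp measurable_fst)
  have key : (fun p : Ω × Ω => F p - F' p.1) =ᵐ[ν] 0 := by
    refine specZeroProd Ω Ω ν _ (hG.integrable ν) fun a b ha hb => ?_
    have hFa : Bdd (fun p : Ω × Ω => F p * a p.1) := hF.mul (ha.comp measurable_fst)
    obtain ⟨b', hb'm, hb', hbb⟩ := hb.condExp hle μ
    -- averages
    have h1 : ∀ n : ℕ, ∫ p, (F p * a p.1) * b (T^[n] p.2) ∂ν = ∫ p, (F p * a p.1) * b p.2 ∂ν := by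
      intro n
      have hmp := (hit n).1
      have hBm : Bdd (fun p : Ω × Ω => (F p * a p.1) * b p.2) := hFa.mul (hb.comp measurable_snd)
      have e1 : ∫ p, (F p * a p.1) * b p.2 ∂ν
          = ∫ p, (F (Prod.map id (T^[n]) p) * a p.1) * b (T^[n] p.2) ∂ν := by
        conv_lhs => rw [← hmp.map_eq]
        rw [integral_map hmp.measurable.aemeasurable (hBm.asm _)]
        rfl
      rw [e1]
      refine integral_congr_ae ?_
      filter_upwards [(hit n).2] with p hp
      have : F (Prod.map id (T^[n]) p) = F p := hp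
      rw [this]
    -- limit of the averages on `Ω × Ω`
    have h2 : Tendsto (fun N : ℕ => ∫ p, (F p * a p.1) * avg T b N p.2 ∂ν) atTop
        (𝓝 (∫ p, (F p * a p.1) * b' p.2 ∂ν)) := by
      have hsnd := relSq_mp_snd hle μ
      have hbL : MemLp b 2 μ := hb.memLp μ 2
      refine tendsto_integral_mul_of_dist2 (μ := ν) (u := fun N p => avg T b N p.2)
        (hFa.memLp ν 2) (fun N => (memLp_avg hT hbL N).comp_measurePreserving hsnd)
        ((hb'.comp measurable_snd).memLp ν 2) ?_
      have h3 := met hT hbL
      refine h3.congr fun N => ?_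
      rw [dist2_congr (ae_eq_refl _) hbb.symm, ← dist2_comp_ae hsnd (memLp_avg hT hbL N).1
        (hb'.asm μ)]
      rfl
    have h3 : ∀ N : ℕ, N ≠ 0 → ∫ p, (F p * a p.1) * avg T b N p.2 ∂ν
        = ∫ p, (F p * a p.1) * b p.2 ∂ν := by
      intro N hN
      have e1 : ∀ p : Ω × Ω, (F p * a p.1) * avg T b N p.2
          = (N : ℂ)⁻¹ * ∑ n ∈ Finset.range N, (F p * a p.1) * b (T^[n] p.2) := by
        intro p
        simp only [avg, Finset.mul_sum]
        refine Finset.sum_congr rfl fun n _ => ?_
        ring
      simp only [e1]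
      rw [integral_const_mul, integral_finsetSum]
      · simp only [h1]
        rw [Finset.sum_const, Finset.card_range, nsmul_eq_mul, ← mul_assoc,
          inv_mul_cancel₀ (by exact_mod_cast hN), one_mul]
      · intro n _
        exact (hFa.mul (hb.comp ((hT.measurable.iterate n).comp measurable_snd))).integrable ν
    have h4 : ∫ p, (F p * a p.1) * b p.2 ∂ν = ∫ p, (F p * a p.1) * b' p.2 ∂ν := by
      refine tendsto_nhds_unique ?_ h2
      refine tendsto_const_nhds.congr' ?_
      filter_upwards [eventually_ne_atTop 0] with N hN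
      exact (h3 N hN).symm
    -- replace `b' p.2` by `b' p.1`
    have h5 : ∫ p, (F p * a p.1) * b' p.2 ∂ν = ∫ p, (F p * a p.1) * b' p.1 ∂ν := by
      refine integral_congr_ae ?_
      filter_upwards [relSq_diag hle μ (hb'm.stronglyMeasurable.aestronglyMeasurable)] with p hp
      rw [hp]
    have h6 : ∫ p, (F p * a p.1) * b' p.1 ∂ν = ∫ x, (F' x * a x) * b' x ∂μ := by
      have hi : Bdd (fun p : Ω × Ω => (F p * a p.1) * b' p.1) := hFa.mul (hb'.comp measurable_fst)
      rw [integral_relSq hle μ (hi.integrable _)]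
      refine integral_congr_ae (Eventually.of_forall fun x => ?_)
      have e1 : (fun y => (F (x, y) * a x) * b' x) = fun y => F (x, y) * (a x * b' x) := by
        funext y; ring
      change ∫ y, (F (x, y) * a x) * b' x ∂(dis hle μ x) = (F' x * a x) * b' x
      rw [e1, integral_mul_const]
      change F' x * (a x * b' x) = _
      ring
    have h7 : ∫ p, (F' p.1 * a p.1) * b p.2 ∂ν = ∫ x, (F' x * a x) * b' x ∂μ := by
      have := relSq_int1 hle μ (hF'.mul ha) hb
      rw [this]
      refine integral_congr_ae ?_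
      filter_upwards [hbb] with x hx
      rw [hx]
    have h8 : ∀ p : Ω × Ω, (F p - F' p.1) * (a p.1 * b p.2)
        = (F p * a p.1) * b p.2 - (F' p.1 * a p.1) * b p.2 := fun p => by ring
    simp only [h8]
    rw [integral_sub ((hFa.mul (hb.comp measurable_snd)).integrable ν)
      ((((hF'.mul ha).comp measurable_fst).mul (hb.comp measurable_snd)).integrable ν),
      h4, h5, h6, h7, sub_self]
  filter_upwards [key] with p hp
  exact sub_eq_zero.1 hp

end IdTM

theorem specIdT : SpecIdT := by
  intro Ω _ _ μ _ T hT F hF h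
  exact IdTM.idT hT hF h

end MPd26.HK
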