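import Pool.Agent.Lib.MP_d26cd8_an.HK.P3_Edge

/-!
# MP_d26cd8_an, P3: module COMM (helper91)

The operators `V_K` commute.
-/

set_option autoImplicit false

open MeasureTheory ProbabilityTheory Filter Topology
open scoped ComplexConjugate ENNReal

namespace MPd26.HK.P3

open EdgeM in
theorem specComm (hEdge : SpecEdge) (hTot : SpecTotal) : SpecComm := by
  classical
  intro α _ _ X hX k hO K L hK hL f hf
  have hKb := IK_bdd X hK
  have hLb := IK_bdd X hL
  have hKb' : Bdd (K ∘ Prod.swap) := hKb.comp measurable_swap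
  have hLb' : Bdd (L ∘ Prod.swap) := hLb.comp measurable_swap
  have bV := fun {f : α → ℂ} (hf : Bdd f) => VBasicM.bdd_V X k hKb hf
  have bW := fun {f : α → ℂ} (hf : Bdd f) => VBasicM.bdd_V X k hLb hf
  have bV' := fun {f : α → ℂ} (hf : Bdd f) => VBasicM.bdd_V X k hKb' hf
  have bW' := fun {f : α → ℂ} (hf : Bdd f) => VBasicM.bdd_V X k hLb' hf
  -- the two directions
  set b : Vx (k + 2) := vi 0 with hb
  set c : Vx (k + 2) := vi 1 with hc
  have hb0 : b ≠ v0 := vi_ne_v0 _
  have hc0 : c ≠ v0 := vi_ne_v0 _
  have hbc : b ≠ c := by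
    intro h
    have h1 := congrFun h 0
    simp [hb, hc, vi, v0] at h1
  have hcb : c ≠ b := hbc.symm
  -- the function
  set D : α → ℂ := fun y => V X k K (V X k L f) y - V X k L (V X k K f) y with hD
  have hDb : Bdd D := (bV (bW hf)).sub (bW (bV hf))
  have m0 : Measurable (fun x : Cube (k + 2) α => x v0) := measurable_pi_apply v0
  have key : (fun x : Cube (k + 2) α => D (x v0)) =ᵐ[X.cm (k + 2)] 0 := by
    apply hTot α X k hO v0
    · exact (hDb.comp m0).integrable _
    · intro g hg hg0
      -- the product without `v0`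
      have hprod : ∀ x : Cube (k + 2) α, ∏ ε, g ε (x ε) = ∏ ε ∈ Finset.univ.erase v0, g ε (x ε) := by
        intro x
        rw [← Finset.mul_prod_erase _ _ (Finset.mem_univ v0), hg0, one_mul]
      -- chain of four applications of the edge lemma; `F u w z` = the integral with `u` at `v0`,
      -- `w` at `b`, `z` at `c`
      let gg : (α → ℂ) → (α → ℂ) → (α → ℂ) → Vx (k + 2) → α → ℂ := fun u w z =>
        Function.update (Function.update (Function.update g v0 u) b w) c z
      have gg0 : ∀ u w z, gg u w z v0 = u := by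
        intro u w z
        simp only [gg]
        rw [Function.update_of_ne hc0.symm, Function.update_of_ne hb0.symm, Function.update_self]
      have ggb : ∀ u w z, gg u w z b = w := by
        intro u w z
        simp only [gg]
        rw [Function.update_of_ne hbc, Function.update_self]
      have ggc : ∀ u w z, gg u w z c = z := by
        intro u w z
        simp only [gg]
        rw [Function.update_self]
      have gge : ∀ u w z ε, ε ≠ v0 → ε ≠ b → ε ≠ c → gg u w z ε = g ε := by
        intro u w z ε h1 h2 h3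
        simp only [gg]
        rw [Function.update_of_ne h3, Function.update_of_ne h2, Function.update_of_ne h1]
      have ggB : ∀ u w z, Bdd u → Bdd w → Bdd z → ∀ ε, Bdd (gg u w z ε) := by
        intro u w z hu hw hz ε
        by_cases h1 : ε = v0
        · rw [h1, gg0]; exact hu
        by_cases h2 : ε = b
        · rw [h2, ggb]; exact hw
        by_cases h3 : ε = c
        · rw [h3, ggc]; exact hz
        rw [gge u w z ε h1 h2 h3]; exact hg ε
      let F : (α → ℂ) → (α → ℂ) → (α → ℂ) → ℂ := fun u w z =>
        ∫ x, ∏ ε, gg u w z ε (x ε) ∂(X.cm (k + 2))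
      have split : ∀ (G : Vx (k + 2) → α → ℂ) (a : Vx (k + 2)) (x : Cube (k + 2) α),
          ∏ ε, G ε (x ε) = G a (x a) * ∏ ε ∈ Finset.univ.erase a, G ε (x ε) := fun G a x =>
        (Finset.mul_prod_erase _ _ (Finset.mem_univ a)).symm
      -- replacing the function at a vertex does not change the product of the others
      have ers0 : ∀ u u' w z (x : Cube (k + 2) α), ∏ ε ∈ Finset.univ.erase v0, gg u w z ε (x ε) =
          ∏ ε ∈ Finset.univ.erase v0, gg u' w z ε (x ε) := by
        intro u u' w z x
        refine Finset.prod_congr rfl fun ε hε => ?_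
        rw [Finset.mem_erase] at hε
        by_cases h2 : ε = b
        · rw [h2, ggb, ggb]
        by_cases h3 : ε = c
        · rw [h3, ggc, ggc]
        rw [gge _ _ _ ε hε.1 h2 h3, gge _ _ _ ε hε.1 h2 h3]
      have ersb : ∀ u w w' z (x : Cube (k + 2) α), ∏ ε ∈ Finset.univ.erase b, gg u w z ε (x ε) =
          ∏ ε ∈ Finset.univ.erase b, gg u w' z ε (x ε) := by
        intro u w w' z x
        refine Finset.prod_congr rfl fun ε hε => ?_
        rw [Finset.mem_erase] at hε
        by_cases h2 : ε = v0
        · rw [h2, gg0, gg0]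
        by_cases h3 : ε = c
        · rw [h3, ggc, ggc]
        rw [gge _ _ _ ε h2 hε.1 h3, gge _ _ _ ε h2 hε.1 h3]
      have ersc : ∀ u w z z' (x : Cube (k + 2) α), ∏ ε ∈ Finset.univ.erase c, gg u w z ε (x ε) =
          ∏ ε ∈ Finset.univ.erase c, gg u w z' ε (x ε) := by
        intro u w z z' x
        refine Finset.prod_congr rfl fun ε hε => ?_
        rw [Finset.mem_erase] at hε
        by_cases h2 : ε = v0
        · rw [h2, gg0, gg0]
        by_cases h3 : ε = b
        · rw [h3, ggb, ggb]
        rw [gge _ _ _ ε h2 h3 hε.1, gge _ _ _ ε h2 h3 hε.1]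
      have E0 : ∀ (J : α × α → ℂ), IK X J → ∀ u w z, Bdd u → Bdd w → Bdd z →
          F (V X k J u) w z = F u (V X k (J ∘ Prod.swap) w) z := by
        intro J hJ u w z hu hw hz
        have h1 := hEdge α X hX k 0 J hJ (gg u w z) (ggB u w z hu hw hz)
        rw [gg0, show (vi 0 : Vx (k + 2)) = b from rfl, ggb] at h1
        simp only [F]
        have e1 : ∀ x : Cube (k + 2) α, ∏ ε, gg (V X k J u) w z ε (x ε) =
            V X k J u (x v0) * ∏ ε ∈ Finset.univ.erase v0, gg u w z ε (x ε) := by
          intro x
          rw [split _ v0, gg0, ers0 _ u]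
        have e2 : ∀ x : Cube (k + 2) α, ∏ ε, gg u (V X k (J ∘ Prod.swap) w) z ε (x ε) =
            V X k (J ∘ Prod.swap) w (x b) * ∏ ε ∈ Finset.univ.erase b, gg u w z ε (x ε) := by
          intro x
          rw [split _ b, ggb, ersb _ _ w]
        simp only [e1, e2]
        exact h1
      have E1 : ∀ (J : α × α → ℂ), IK X J → ∀ u w z, Bdd u → Bdd w → Bdd z →
          F (V X k J u) w z = F u w (V X k (J ∘ Prod.swap) z) := by
        intro J hJ u w z hu hw hz
        have h1 := hEdge α X hX k 1 J hJ (gg u w z) (ggB u w z hu hw hz)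
        rw [gg0, show (vi 1 : Vx (k + 2)) = c from rfl, ggc] at h1
        simp only [F]
        have e1 : ∀ x : Cube (k + 2) α, ∏ ε, gg (V X k J u) w z ε (x ε) =
            V X k J u (x v0) * ∏ ε ∈ Finset.univ.erase v0, gg u w z ε (x ε) := by
          intro x
          rw [split _ v0, gg0, ers0 _ u]
        have e2 : ∀ x : Cube (k + 2) α, ∏ ε, gg u w (V X k (J ∘ Prod.swap) z) ε (x ε) =
            V X k (J ∘ Prod.swap) z (x c) * ∏ ε ∈ Finset.univ.erase c, gg u w z ε (x ε) := by
          intro x
          rw [split _ c, ggc, ersc _ _ _ z]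
        simp only [e1, e2]
        exact h1
      have hFF : F (V X k K (V X k L f)) (g b) (g c) = F (V X k L (V X k K f)) (g b) (g c) := by
        rw [E0 K hK _ _ _ (bW hf) (hg b) (hg c), E1 L hL _ _ _ hf (bV' (hg b)) (hg c),
          ← E0 K hK _ _ _ hf (hg b) (bW' (hg c)), ← E1 L hL _ _ _ (bV hf) (hg b) (hg c)]
      have hint : ∀ u, Bdd u → Integrable (fun x : Cube (k + 2) α =>
          ∏ ε, gg u (g b) (g c) ε (x ε)) (X.cm (k + 2)) := by
        intro u hu
        exact (Bdd.prod _ fun ε _ => (ggB u _ _ hu (hg b) (hg c) ε).comp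
          (measurable_pi_apply ε)).integrable _
      have e3 : ∀ u (x : Cube (k + 2) α), ∏ ε, gg u (g b) (g c) ε (x ε) =
          u (x v0) * ∏ ε, g ε (x ε) := by
        intro u x
        rw [split _ v0, gg0, hprod]
        congr 1
        refine Finset.prod_congr rfl fun ε hε => ?_
        rw [Finset.mem_erase] at hε
        by_cases h2 : ε = b
        · rw [h2, ggb]
        by_cases h3 : ε = c
        · rw [h3, ggc]
        rw [gge _ _ _ ε hε.1 h2 h3]
      have h1 : ∫ x, D (x v0) * ∏ δ, g δ (x δ) ∂(X.cm (k + 2)) =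
          F (V X k K (V X k L f)) (g b) (g c) - F (V X k L (V X k K f)) (g b) (g c) := by
        simp only [F]
        rw [← integral_sub (hint _ (bV (bW hf))) (hint _ (bW (bV hf)))]
        refine integral_congr_ae (ae_of_all _ fun x => ?_)
        simp only [e3, hD]
        ring
      rw [h1, hFF, sub_self]
  -- back to the space
  have hm := X.mp_marg (k + 2) v0
  have hset : MeasurableSet {y : α | D y = 0} := hDb.1 (measurableSet_singleton 0)
  have h2 : ∀ᵐ y ∂X.μ, D y = 0 := by
    rw [← hm.map_eq, ae_map_iff hm.measurable.aemeasurable hset]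
    exact key
  filter_upwards [h2] with y hy
  exact sub_eq_zero.1 hy

end MPd26.HK.P3
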