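import Pool.Agent.Lib.MP_d26cd8_an.HK.Spec3
import Pool.Agent.Lib.MP_d26cd8_an.HK.Ph

/-!
# MP_d26cd8_an, P3: module COMPL (helper91)
-/

set_option autoImplicit false

open MeasureTheory ProbabilityTheory Filter Topology
open scoped ComplexConjugate ENNReal

namespace MPd26.HK.P3

namespace ComplM

/-- limits of functions measurable for a small σ-algebra -/
lemma aesm_of_tendsto {Ω : Type} {m mΩ : MeasurableSpace Ω} {μ : @Measure Ω mΩ}
    {f : ℕ → Ω → ℂ} {g : Ω → ℂ} (hf : ∀ n, AEStronglyMeasurable[m] (f n) μ)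
    (hlim : ∀ᵐ x ∂μ, Tendsto (fun n => f n x) atTop (𝓝 (g x))) :
    AEStronglyMeasurable[m] g μ := by
  choose f' hf' hff' using hf
  set A : Set Ω := {x | ∃ l, Tendsto (fun n => f' n x) atTop (𝓝 l)} with hAdef
  have hA : MeasurableSet[m] A := by
    have h1 : ∀ n, Measurable[m] (f' n) := fun n => (hf' n).measurable
    clear hff' hf' hlim
    exact @measurableSet_exists_tendsto ℕ ℂ Ω m _ _ _ _ _ _ atTop _ f' h1
  have hh : ∀ n, StronglyMeasurable[m] (A.indicator (f' n)) := fun n => (hf' n).indicator hA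
  have hconv : ∀ x, ∃ l, Tendsto (fun n => A.indicator (f' n) x) atTop (𝓝 l) := by
    intro x
    by_cases hx : x ∈ A
    · obtain ⟨l, hl⟩ := hx
      refine ⟨l, ?_⟩
      have hx : x ∈ A := ⟨l, hl⟩
      simpa only [Set.indicator_of_mem hx] using hl
    · refine ⟨0, ?_⟩
      simp only [Set.indicator_of_notMem hx]
      exact tendsto_const_nhds
  choose G hG using hconv
  have hGm : StronglyMeasurable[m] G :=
    @stronglyMeasurable_of_tendsto Ω ℂ ℕ m _ _ atTop _ _ _ _ hh (tendsto_pi_nhds.2 hG)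
  refine ⟨G, hGm, ?_⟩
  filter_upwards [ae_all_iff.2 hff', hlim] with x h1 h2
  have h3 : Tendsto (fun n => f' n x) atTop (𝓝 (g x)) := by
    refine h2.congr fun n => h1 n
  have hx : x ∈ A := ⟨_, h3⟩
  have h4 := hG x
  simp only [Set.indicator_of_mem hx] at h4
  exact tendsto_nhds_unique h3 h4

variable {α : Type} [mα : MeasurableSpace α] [StandardBorelSpace α] (X : Sys α)

lemma simple_v0 {k : ℕ} (hO : Ord X k) (s : SimpleFunc α ℂ) :
    AEStronglyMeasurable[others α v0] (fun x : Cube (k + 2) α => s (x v0)) (X.cm (k + 2)) := by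
  induction s using SimpleFunc.induction with
  | const c hs =>
    rename_i A
    obtain ⟨-, B, hB, hAB⟩ := hO A hs
    refine ⟨(rst v0 ⁻¹' B).indicator (fun _ => c), ?_, ?_⟩
    · exact stronglyMeasurable_const.indicator ⟨B, hB, rfl⟩
    · filter_upwards [hAB] with x hx
      have hx' : (x v0 ∈ A) = (x ∈ rst v0 ⁻¹' B) := hx
      simp only [SimpleFunc.coe_piecewise, SimpleFunc.coe_const, Set.piecewise,
        Function.const_apply, Set.indicator]
      by_cases h : x v0 ∈ A
      · have h2 : x ∈ rst v0 ⁻¹' B := by rw [← hx']; exact h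
        rw [if_pos h, if_pos h2]
      · have h2 : x ∉ rst v0 ⁻¹' B := by rw [← hx']; exact h
        rw [if_neg h, if_neg h2]
  | add _ ih1 ih2 =>
    simp only [SimpleFunc.coe_add, Pi.add_apply]
    exact ih1.add ih2

lemma compl_v0 {k : ℕ} (hO : Ord X k) {f : α → ℂ} (hf : Bdd f) :
    AEStronglyMeasurable[others α v0] (fun x : Cube (k + 2) α => f (x v0)) (X.cm (k + 2)) := by
  have hs := hf.1.stronglyMeasurable
  refine aesm_of_tendsto (f := fun n (x : Cube (k + 2) α) => hs.approx n (x v0)) ?_ ?_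
  · intro n
    exact simple_v0 X hO (hs.approx n)
  · exact ae_of_all _ fun x => hs.tendsto_approx (x v0)

lemma symm_apply {n : ℕ} (r : Vx n) (x : Cube n α) (ε : Vx n) :
    symm 1 r x ε = x (fun i => xor (ε i) (r i)) := rfl

lemma symm_v0 {n : ℕ} (r : Vx n) (x : Cube n α) : symm 1 r x v0 = x r := by
  rw [symm_apply]
  congr 1
  funext i
  exact Bool.false_xor _

lemma symm_symm {n : ℕ} (r : Vx n) (x : Cube n α) : symm 1 r (symm 1 r x) = x := by
  funext ε
  rw [symm_apply, symm_apply]
  congr 1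
  funext i
  rw [Bool.xor_assoc, Bool.xor_self, Bool.xor_false]

lemma measurable_symm_others {n : ℕ} (ε : Vx n) :
    @Measurable _ _ (others α ε) (others α v0) (symm 1 ε : Cube n α → _) := by
  rw [others, measurable_comap_iff]
  have hv : ∀ η : {η : Vx n // η ≠ v0}, (fun i => xor (η.1 i) (ε i) : Vx n) ≠ ε := by
    intro η h
    apply η.2
    funext i
    have h2 : xor (η.1 i) (ε i) = ε i := congrFun h i
    cases h3 : ε i <;> cases h4 : η.1 i <;> simp_all [v0]
  have h2 : (rst v0 ∘ symm 1 ε : Cube n α → _)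
      = (fun (y : {η : Vx n // η ≠ ε} → α) (η : {η : Vx n // η ≠ v0}) =>
          y ⟨_, hv η⟩) ∘ rst ε := by
    funext x η
    rfl
  rw [h2]
  exact (measurable_pi_lambda _ fun η => measurable_pi_apply _).comp (comap_measurable _)

end ComplM

open ComplM in
theorem specCompl (hSym : SpecSym) : SpecCompl := by
  intro α _ _ X k hO ε f hf
  have h1 := PhM.aesm_comp' (compl_v0 X hO hf) (hSym α X (k + 2) 1 ε) (measurable_symm_others ε)
  simp only [symm_v0] at h1
  exact h1

end MPd26.HK.P3
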