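import Pool.Agent.Lib.MP_d26cd8_an.HK.P3_Key

/-!
# MP_d26cd8_an, block D section 3: module CONF (helper78)

The law of the two edges of a pair of cubes which differ only on an edge.
-/

set_option autoImplicit false

open MeasureTheory ProbabilityTheory Filter Topology
open scoped ComplexConjugate ENNReal

namespace MPd26.HK.P3
namespace ConfM

open EdgeM Q2M KeyM

variable {α : Type} [mα : MeasurableSpace α] [StandardBorelSpace α] (X : Sys α) {k : ℕ}
  {Q : Measure (Cube (k + 2) α × Cube (k + 2) α)}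

/-- the two edges -/
def φ (p : Cube (k + 2) α × Cube (k + 2) α) : (α × α) × (α × α) :=
  ((p.1 v0, p.2 v0), (p.1 (vi 0), p.2 (vi 0)))

omit [StandardBorelSpace α] in
lemma mφ : Measurable (φ : Cube (k + 2) α × Cube (k + 2) α → (α × α) × (α × α)) :=
  (((mv v0).comp measurable_fst).prodMk ((mv v0).comp measurable_snd)).prodMk
    (((mv (vi 0)).comp measurable_fst).prodMk ((mv (vi 0)).comp measurable_snd))

lemma mp_a (hExt : SpecExtProd) (hQ : IsQ2 X k Q) :
    MeasurePreserving (fun p : Cube (k + 2) α × Cube (k + 2) α => (p.1 v0, p.2 v0)) Q (R X k) := by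
  have := Q_prob X hQ
  have hm : Measurable (fun p : Cube (k + 2) α × Cube (k + 2) α => (p.1 v0, p.2 v0)) :=
    ((mv v0).comp measurable_fst).prodMk ((mv v0).comp measurable_snd)
  refine ⟨hm, ?_⟩
  have : IsProbabilityMeasure (Q.map fun p => (p.1 v0, p.2 v0)) :=
    Measure.isProbabilityMeasure_map hm.aemeasurable
  refine hExt α α _ _ fun f g hf hg => ?_
  have hb : Bdd (fun p : α × α => f p.1 * g p.2) :=
    (hf.comp measurable_fst).mul (hg.comp measurable_snd)
  rw [integral_map hm.aemeasurable hb.1.aestronglyMeasurable]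
  have e1 := hQ.cond g (fun x => f (x v0)) hg (hf.comp (mv v0))
  refine e1.trans ?_
  have e2 : ∫ p, f p.1 * g p.2 ∂(R X k) = ∫ x, f x * (X.μ[g | (X.Z k).σ]) x ∂X.μ :=
    integral_relSq_mul (X.Z k).le X.μ hf hg
  rw [e2]
  exact mp_int (X.mp_marg (k + 2) v0)
    (hf.1.mul (stronglyMeasurable_condExp.measurable.mono (X.Z k).le le_rfl))

lemma symm_v0' (x : Cube (k + 2) α) : symm 1 (vi 0) x v0 = x (vi 0) := ComplM.symm_v0 _ x

lemma symm_vi' (x : Cube (k + 2) α) : symm 1 (vi 0) x (vi 0) = x v0 := symm_vi_vi 0 x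

lemma mp_b (hExt : SpecExtProd) (hQ : IsQ2 X k Q) :
    MeasurePreserving (fun p : Cube (k + 2) α × Cube (k + 2) α => (p.1 (vi 0), p.2 (vi 0))) Q
      (R X k) := by
  have h := (mp_a X hExt hQ).comp hQ.flip
  have e : (fun p : Cube (k + 2) α × Cube (k + 2) α => (p.1 v0, p.2 v0)) ∘
      (Prod.map (symm 1 (vi 0)) (symm 1 (vi 0))) =
      fun p : Cube (k + 2) α × Cube (k + 2) α => (p.1 (vi 0), p.2 (vi 0)) := by
    funext p
    simp only [Function.comp_apply, Prod.map, symm_v0']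
  rw [e] at h
  exact h

lemma mp_ind (hExt : SpecExtProd) (hZP : SpecZeroProd) (hEL : SpecEdgeLaw) (hX : X.Erg)
    (hQ : IsQ2 X k Q) :
    MeasurePreserving (fun p : Cube (k + 2) α × Cube (k + 2) α =>
      ((p.1 v0, p.2 v0), p.1 (vi 0))) Q ((R X k).prod X.μ) := by
  have := Q_prob X hQ
  have hm : Measurable (fun p : Cube (k + 2) α × Cube (k + 2) α =>
      ((p.1 v0, p.2 v0), p.1 (vi 0))) := measurable_tt
  refine ⟨hm, ?_⟩
  have : IsProbabilityMeasure (Q.map fun p => ((p.1 v0, p.2 v0), p.1 (vi 0))) :=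
    Measure.isProbabilityMeasure_map hm.aemeasurable
  refine hExt (α × α) α _ _ fun F h hF hh => ?_
  have hb : Bdd (fun p : (α × α) × α => F p.1 * h p.2) :=
    (hF.comp measurable_fst).mul (hh.comp measurable_snd)
  rw [integral_map hm.aemeasurable hb.1.aestronglyMeasurable]
  have e0 : ∫ p, F p.1 * h p.2 ∂((R X k).prod X.μ) =
      (∫ x, F x ∂(R X k)) * ∫ x, h x ∂X.μ := integral_prod_mul F h
  rw [e0]
  set c : ℂ := ∫ x, h x ∂X.μ with hc
  have ha : Bdd (fun p : Cube (k + 2) α × Cube (k + 2) α => h (p.1 (vi 0)) - c) :=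
    (hh.comp ((mv _).comp measurable_fst)).sub (Bdd.const c)
  have key := integral_zero_of_products (ρ := Q) hZP
    (p1 := fun p : Cube (k + 2) α × Cube (k + 2) α => p.1 v0)
    (p2 := fun p : Cube (k + 2) α × Cube (k + 2) α => p.2 v0)
    ((mv v0).comp measurable_fst) ((mv v0).comp measurable_snd) ha ?_ F hF
  · have hFa : Bdd (fun p : Cube (k + 2) α × Cube (k + 2) α => F (p.1 v0, p.2 v0)) :=
      hF.comp (((mv v0).comp measurable_fst).prodMk ((mv v0).comp measurable_snd))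
    have i1 : Integrable (fun p : Cube (k + 2) α × Cube (k + 2) α =>
        F (p.1 v0, p.2 v0) * h (p.1 (vi 0))) Q :=
      (hFa.mul (hh.comp ((mv _).comp measurable_fst))).integrable _
    have i2 : Integrable (fun p : Cube (k + 2) α × Cube (k + 2) α =>
        F (p.1 v0, p.2 v0) * c) Q := (hFa.mul (Bdd.const c)).integrable _
    have e1 : ∫ p, F (p.1 v0, p.2 v0) * h (p.1 (vi 0)) ∂Q - ∫ p, F (p.1 v0, p.2 v0) * c ∂Q = 0 := by
      rw [← integral_sub i1 i2, ← key]
      refine integral_congr_ae (ae_of_all _ fun p => ?_)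
      show F (p.1 v0, p.2 v0) * h (p.1 (vi 0)) - F (p.1 v0, p.2 v0) * c =
        (h (p.1 (vi 0)) - c) * F (p.1 v0, p.2 v0)
      ring
    have e2 : ∫ p, F (p.1 v0, p.2 v0) * c ∂Q = (∫ x, F x ∂(R X k)) * c := by
      rw [integral_mul_const]
      congr 1
      exact mp_int (mp_a X hExt hQ) hF.1
    rw [← e2]
    exact sub_eq_zero.1 e1
  · intro f1 f2 hf1 hf2
    obtain ⟨f2', hf2'm, hf2', hf2'e⟩ := DualM.version (X.Z k).le X.μ hf2
    have hK : Bdd (fun x : Cube (k + 2) α => (h (x (vi 0)) - c) * f1 (x v0)) :=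
      ((hh.comp (mv _)).sub (Bdd.const c)).mul (hf1.comp (mv _))
    have e1 := hQ.cond f2 _ hf2 hK
    have e2 : ∫ p, (h (p.1 (vi 0)) - c) * (f1 (p.1 v0) * f2 (p.2 v0)) ∂Q =
        ∫ p, (h (p.1 (vi 0)) - c) * f1 (p.1 v0) * f2 (p.2 v0) ∂Q := by
      refine integral_congr_ae (ae_of_all _ fun p => ?_)
      show (h (p.1 (vi 0)) - c) * (f1 (p.1 v0) * f2 (p.2 v0)) =
        (h (p.1 (vi 0)) - c) * f1 (p.1 v0) * f2 (p.2 v0)
      ring
    rw [e2]
    refine e1.trans ?_
    have e3 : ∫ x, (h (x (vi 0)) - c) * f1 (x v0) * (X.μ[f2 | (X.Z k).σ]) (x v0)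
        ∂(X.cm (k + 2)) =
        ∫ x, (f1 (x v0) * f2' (x v0)) * (h (x (vi 0)) - c) ∂(X.cm (k + 2)) := by
      refine integral_congr_ae ?_
      filter_upwards [(X.mp_marg (k + 2) v0).quasiMeasurePreserving.ae_eq_comp hf2'e] with x hx
      have hx' : f2' (x v0) = (X.μ[f2 | (X.Z k).σ]) (x v0) := hx
      rw [← hx']
      ring
    rw [e3]
    have hP : Bdd (fun q : α × α => (f1 q.1 * f2' q.1) * (h q.2 - c)) :=
      ((hf1.comp measurable_fst).mul (hf2'.comp measurable_fst)).mul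
        ((hh.comp measurable_snd).sub (Bdd.const c))
    have e4 : ∫ x, (f1 (x v0) * f2' (x v0)) * (h (x (vi 0)) - c) ∂(X.cm (k + 2)) =
        ∫ q, (f1 q.1 * f2' q.1) * (h q.2 - c) ∂(X.μ.prod X.μ) :=
      mp_int (hEL α X hX (k + 1) 0) hP.1
    have e5 : ∫ q, (f1 q.1 * f2' q.1) * (h q.2 - c) ∂(X.μ.prod X.μ) =
        (∫ x, f1 x * f2' x ∂X.μ) * ∫ x, (h x - c) ∂X.μ :=
      integral_prod_mul (fun x => f1 x * f2' x) (fun x => h x - c)
    have e6 : ∫ x, (h x - c) ∂X.μ = 0 := by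
      rw [integral_sub (hh.integrable _) (integrable_const c)]
      simp [hc]
    rw [e4, e5, e6, mul_zero]

end ConfM

open ConfM Q2M KeyM EdgeM in
theorem specConf (hKey : SpecKey) (hEL : SpecEdgeLaw) (hExt : SpecExtProd)
    (hZP : SpecZeroProd) : SpecConf := by
  intro α _ _ X hX k hO Q hQ
  have := Q_prob X hQ
  have hφ : Measurable (φ : Cube (k + 2) α × Cube (k + 2) α → (α × α) × (α × α)) := mφ
  show IsConf X k (Q.map φ)
  have hS2 : Measurable (S2 X) := X.S.measurable.prodMap X.S.measurable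
  have m0f : (v0 : Vx (k + 2)) ∈ (side 0 false : Set (Vx (k + 2))) := by simp [side, v0]
  have m1f : (vi 0 : Vx (k + 2)) ∉ (side 0 false : Set (Vx (k + 2))) := by simp [side, vi]
  have m0t : (v0 : Vx (k + 2)) ∉ (side 0 true : Set (Vx (k + 2))) := by simp [side, v0]
  have m1t : (vi 0 : Vx (k + 2)) ∈ (side 0 true : Set (Vx (k + 2))) := by simp [side, vi]
  refine
    { fst := mp_of_comp hφ measurable_fst (mp_a X hExt hQ)
      snd := mp_of_comp hφ measurable_snd (mp_b X hExt hQ)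
      ind := mp_of_comp hφ (measurable_fst.prodMk (measurable_fst.comp measurable_snd))
        (mp_ind X hExt hZP hEL hX hQ)
      ind' := ?_
      invl := ?_
      invr := ?_
      ker := ?_
      key := ?_ }
  · refine mp_of_comp hφ (measurable_fst.prodMk (measurable_snd.comp measurable_snd)) ?_
    have h1 := (mp_ind X hExt hZP hEL hX hQ).comp hQ.swap
    have h2 : MeasurePreserving (Prod.map Prod.swap id) ((R X k).prod X.μ)
        ((R X k).prod X.μ) :=
      (mp_relSq_swap (X.Z k).le X.μ).prod (MeasurePreserving.id X.μ)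
    exact h2.comp h1
  · refine mp_conj hφ (hS2.prodMap measurable_id) (hQ.side 0 false) fun p => ?_
    show (S2 X (p.1 v0, p.2 v0), (p.1 (vi 0), p.2 (vi 0))) =
      ((appOn X.S (side 0 false) p.1 v0, appOn X.S (side 0 false) p.2 v0),
        (appOn X.S (side 0 false) p.1 (vi 0), appOn X.S (side 0 false) p.2 (vi 0)))
    rw [EdgeFunM.appOn_mem m0f, EdgeFunM.appOn_mem m0f, EdgeFunM.appOn_notMem m1f,
      EdgeFunM.appOn_notMem m1f]
    rfl
  · refine mp_conj hφ (measurable_id.prodMap hS2) (hQ.side 0 true) fun p => ?_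
    show ((p.1 v0, p.2 v0), S2 X (p.1 (vi 0), p.2 (vi 0))) =
      ((appOn X.S (side 0 true) p.1 v0, appOn X.S (side 0 true) p.2 v0),
        (appOn X.S (side 0 true) p.1 (vi 0), appOn X.S (side 0 true) p.2 (vi 0)))
    rw [EdgeFunM.appOn_mem m1t, EdgeFunM.appOn_mem m1t, EdgeFunM.appOn_notMem m0t,
      EdgeFunM.appOn_notMem m0t]
    rfl
  · intro K hK
    have hKm : Measurable K := (IK_bdd X hK).1
    refine (ae_map_iff hφ.aemeasurable (measurableSet_eq_fun (hKm.comp measurable_fst)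
      (hKm.comp measurable_snd))).2 ?_
    exact hQ.ker K hK
  · intro f hf
    obtain ⟨G, hG, hGe⟩ := hKey α X hX k hO Q hQ f hf
    refine ⟨G, hG, ?_⟩
    refine (ae_map_iff hφ.aemeasurable (measurableSet_eq_fun
      (hf.1.comp (measurable_snd.comp measurable_snd))
      (hG.1.comp (measurable_fst.prodMk (measurable_fst.comp measurable_snd))))).2 ?_
    exact hGe

end MPd26.HK.P3
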