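import Pool.Agent.Lib.MP_d26cd8_an.HK.P3_Gen
import Pool.Agent.Lib.MP_d26cd8_an.HK.Dist

/-!
# MP_d26cd8_an, block D, section 3: module DENSE (helper87)

Joint eigenfunctions of the operators `V_K` are total.
-/

set_option autoImplicit false

open MeasureTheory ProbabilityTheory Filter Topology
open scoped ComplexConjugate ENNReal

namespace MPd26.HK.P3.DenseM

section L2
variable {α : Type} [mα : MeasurableSpace α] {μ : Measure α} [IsProbabilityMeasure μ]

lemma bm {f : α → ℂ} (hf : Bdd f) : MemLp f 2 μ := hf.memLp μ 2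

/-- the class of a bounded function -/
noncomputable def cl (μ : Measure α) [IsProbabilityMeasure μ] {f : α → ℂ} (hf : Bdd f) :
    Lp ℂ 2 μ := (bm (μ := μ) hf).toLp f

lemma cl_ae {f : α → ℂ} (hf : Bdd f) : (cl μ hf : α → ℂ) =ᵐ[μ] f := (bm (μ := μ) hf).coeFn_toLp

lemma cl_congr {f g : α → ℂ} (hf : Bdd f) (hg : Bdd g) (h : f =ᵐ[μ] g) : cl μ hf = cl μ hg :=
  (MemLp.toLp_eq_toLp_iff (bm (μ := μ) hf) (bm (μ := μ) hg)).2 h

lemma inner_cl {g : α → ℂ} (hg : Bdd g) (x : Lp ℂ 2 μ) :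
    inner ℂ (cl μ hg) x = ∫ y, x y * conj (g y) ∂μ := by
  rw [L2.inner_def]
  refine integral_congr_ae ?_
  filter_upwards [cl_ae (μ := μ) hg] with y hy
  rw [hy]
  simp [RCLike.inner_apply]

/-- Elements of `L²` are determined by their inner products with bounded functions. -/
lemma ext_test {x y : Lp ℂ 2 μ}
    (h : ∀ (g : α → ℂ) (hg : Bdd g), inner ℂ (cl μ hg) x = inner ℂ (cl μ hg) y) : x = y := by
  have hx : Integrable (x : α → ℂ) μ := (Lp.memLp x).integrable (by norm_num)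
  have hy : Integrable (y : α → ℂ) μ := (Lp.memLp y).integrable (by norm_num)
  have h1 : (fun a => x a - y a) =ᵐ[μ] 0 := by
    refine GenM.ae_zero (hx.sub hy) fun M hM => ?_
    have h2 := h (fun a => conj (M a)) hM.conj
    rw [inner_cl, inner_cl] at h2
    simp only [Complex.conj_conj] at h2
    obtain ⟨hMm, C, hC⟩ := hM
    have h3 : Integrable (fun a => x a * M a) μ := by
      simpa only [mul_comm] using hx.bdd_mul hMm.aestronglyMeasurable (ae_of_all _ hC)
    have h4 : Integrable (fun a => y a * M a) μ := by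
      simpa only [mul_comm] using hy.bdd_mul hMm.aestronglyMeasurable (ae_of_all _ hC)
    have h5 : (fun a => M a * (x a - y a)) = fun a => x a * M a - y a * M a := by
      funext a; ring
    rw [h5, integral_sub h3 h4, h2, sub_self]
  refine Lp.ext ?_
  filter_upwards [h1] with a ha
  exact sub_eq_zero.1 ha

omit [IsProbabilityMeasure μ] in
lemma coe_sum {ι : Type} (s : Finset ι) (F : ι → Lp ℂ 2 μ) :
    ((∑ i ∈ s, F i : Lp ℂ 2 μ) : α → ℂ) =ᵐ[μ] fun x => ∑ i ∈ s, F i x := by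
  classical
  induction s using Finset.induction_on with
  | empty =>
    simp only [Finset.sum_empty]
    exact Lp.coeFn_zero ℂ 2 μ
  | insert a s ha ih =>
    rw [Finset.sum_insert ha]
    filter_upwards [Lp.coeFn_add (F a) (∑ i ∈ s, F i), ih] with x h1 h2
    rw [h1, Pi.add_apply, h2, Finset.sum_insert ha]

/-- Operators are determined by their values on bounded functions. -/
lemma op_ext {A B : Lp ℂ 2 μ →L[ℂ] Lp ℂ 2 μ}
    (h : ∀ (f : α → ℂ) (hf : Bdd f), A (cl μ hf) = B (cl μ hf)) : A = B := by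
  have h1 : ∀ (g : α → ℂ) (hg : Bdd g), ContinuousLinearMap.adjoint A (cl μ hg) =
      ContinuousLinearMap.adjoint B (cl μ hg) := by
    intro g hg
    refine ext_test fun f hf => ?_
    rw [ContinuousLinearMap.adjoint_inner_right, ContinuousLinearMap.adjoint_inner_right, h]
  ext1 x
  refine ext_test fun g hg => ?_
  rw [← ContinuousLinearMap.adjoint_inner_left, ← ContinuousLinearMap.adjoint_inner_left, h1]

end L2

section Ops
variable {α : Type} [mα : MeasurableSpace α] [StandardBorelSpace α] (X : Sys α)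

/-- `A` is the operator with kernel `K`. -/
def IsA (k : ℕ) (K : α × α → ℂ) (A : Lp ℂ 2 X.μ →L[ℂ] Lp ℂ 2 X.μ) : Prop :=
  ∀ f h : Lp ℂ 2 X.μ, inner ℂ h (A f) = ∫ p, K p * f p.2 * conj (h p.1) ∂(R X k)

/-- The product over the vertices different from `v0` and `vi 0`. -/
def GG (k : ℕ) (g : Vx (k + 2) → α → ℂ) (x : Cube (k + 2) α) : ℂ :=
  ∏ ε ∈ (Finset.univ.erase v0).erase (vi 0), g ε (x ε)

/-- `B` is the operator of the cube with the functions `g`. -/
def IsB (k : ℕ) (g : Vx (k + 2) → α → ℂ) (B : Lp ℂ 2 X.μ →L[ℂ] Lp ℂ 2 X.μ) : Prop :=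
  ∀ f h : Lp ℂ 2 X.μ,
    inner ℂ h (B f) = ∫ x, GG k g x * f (x v0) * conj (h (x (vi 0))) ∂(X.cm (k + 2))

variable {X}

omit [StandardBorelSpace α] in
lemma bdd_GG {k : ℕ} {g : Vx (k + 2) → α → ℂ} (hg : ∀ ε, Bdd (g ε)) : Bdd (GG k g) := by
  unfold GG
  exact Bdd.prod _ fun ε _ => (hg ε).comp (measurable_pi_apply ε)

omit [StandardBorelSpace α] in
lemma IK_bdd {K : α × α → ℂ} (hK : IK X K) : Bdd K :=
  ⟨hK.1.mono (MeasurableSpace.invariants_le _) le_rfl, hK.2⟩

omit [StandardBorelSpace α] in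
lemma IK_star {K : α × α → ℂ} (hK : IK X K) : IK X (fun p => conj (K p.swap)) := by
  obtain ⟨h1, C, hC⟩ := hK
  refine ⟨?_, C, fun p => by simpa using hC p.swap⟩
  have h2 : Measurable[MeasurableSpace.invariants (S2 X), MeasurableSpace.invariants (S2 X)]
      (Prod.swap : α × α → α × α) :=
    MeasurableSpace.measurable_invariants_of_semiconj measurable_swap fun p => rfl
  exact (Complex.continuous_conj.measurable.comp h1).comp h2

/-- existence of the operator with kernel `K` -/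
lemma exists_A (hOp : SpecOp) {k : ℕ} {K : α × α → ℂ} (hK : IK X K) : ∃ A, IsA X k K A :=
  hOp (α × α) α (R X k) X.μ Prod.snd Prod.fst (mp_relSq_snd _ _) (mp_relSq_fst _ _) K (IK_bdd hK)

lemma exists_B (hOp : SpecOp) {k : ℕ} {g : Vx (k + 2) → α → ℂ} (hg : ∀ ε, Bdd (g ε)) :
    ∃ B, IsB X k g B :=
  hOp (Cube (k + 2) α) α (X.cm (k + 2)) X.μ (fun x => x v0) (fun x => x (vi 0))
    (X.mp_marg _ _) (X.mp_marg _ _) (GG k g) (bdd_GG hg)

/-- The operator on bounded functions. -/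
lemma A_cl (hV : SpecVBasic) {k : ℕ} {K : α × α → ℂ} (hK : IK X K)
    {A : Lp ℂ 2 X.μ →L[ℂ] Lp ℂ 2 X.μ} (hA : IsA X k K A) {f : α → ℂ} (hf : Bdd f) :
    A (cl X.μ hf) = cl X.μ (hV α X k K f (IK_bdd hK) hf).1 := by
  refine ext_test fun h hh => ?_
  rw [hA, inner_cl]
  have h1 := ((hV α X k K f (IK_bdd hK) hf).2 (fun x => conj (h x)) hh.conj).1
  have h2 : ∫ y, (cl X.μ (hV α X k K f (IK_bdd hK) hf).1 : α → ℂ) y * conj (h y) ∂X.μ =
      ∫ x, V X k K f x * conj (h x) ∂X.μ := by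
    refine integral_congr_ae ?_
    filter_upwards [cl_ae (μ := X.μ) (hV α X k K f (IK_bdd hK) hf).1] with y hy
    rw [hy]
  rw [h2, h1]
  refine integral_congr_ae ?_
  have e1 : ∀ᵐ p ∂(R X k), (cl X.μ hf : α → ℂ) p.2 = f p.2 :=
    (mp_relSq_snd (X.Z k).le X.μ).quasiMeasurePreserving.ae (cl_ae hf)
  have e2 : ∀ᵐ p ∂(R X k), (cl X.μ hh : α → ℂ) p.1 = h p.1 :=
    (mp_relSq_fst (X.Z k).le X.μ).quasiMeasurePreserving.ae (cl_ae hh)
  filter_upwards [e1, e2] with p h3 h4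
  rw [h3, h4]

/-- The adjoint. -/
lemma A_adj {k : ℕ} {K : α × α → ℂ} {A : Lp ℂ 2 X.μ →L[ℂ] Lp ℂ 2 X.μ} (hA : IsA X k K A) :
    IsA X k (fun p => conj (K p.swap)) (ContinuousLinearMap.adjoint A) := by
  intro f h
  rw [ContinuousLinearMap.adjoint_inner_right, ← inner_conj_symm, hA, ← integral_conj]
  have h1 := (mp_relSq_swap (X.Z k).le X.μ).integral_comp
    (MeasurableEquiv.prodComm.measurableEmbedding)
    (fun p : α × α => conj (K p * h p.2 * conj (f p.1)))
  have h2 : ∫ p, conj (K p * h p.2 * conj (f p.1)) ∂(R X k) =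
      ∫ p, conj (K p.swap * h p.swap.2 * conj (f p.swap.1)) ∂(R X k) := h1.symm
  rw [h2]
  refine integral_congr_ae (ae_of_all _ fun p => ?_)
  simp only [map_mul, Complex.conj_conj, Prod.fst_swap, Prod.snd_swap]
  ring

/-- commutation of the operators -/
lemma A_comm (hV : SpecVBasic) (hComm : SpecComm) (hX : X.Erg) {k : ℕ} (hO : Ord X k)
    {K L : α × α → ℂ} (hK : IK X K) (hL : IK X L)
    {A B : Lp ℂ 2 X.μ →L[ℂ] Lp ℂ 2 X.μ} (hA : IsA X k K A) (hB : IsA X k L B) :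
    A ∘L B = B ∘L A := by
  refine op_ext fun f hf => ?_
  rw [ContinuousLinearMap.comp_apply, ContinuousLinearMap.comp_apply, A_cl hV hL hB hf,
    A_cl hV hK hA hf, A_cl hV hK hA, A_cl hV hL hB]
  exact cl_congr _ _ (hComm α X hX k hO K L hK hL f hf)

lemma vi_ne_v0 {n : ℕ} (i : Fin n) : (vi i : Vx n) ≠ v0 := by
  intro h
  have := congrFun h i
  simp [vi, v0] at this

/-- `conj (V_{K*} h) = V_{K ∘ swap} (conj h)` -/
lemma V_star (k : ℕ) (K : α × α → ℂ) (h : α → ℂ) (x : α) :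
    conj (V X k (fun p => conj (K p.swap)) h x) = V X k (K ∘ Prod.swap) (fun y => conj (h y)) x := by
  unfold V
  rw [← integral_conj]
  refine integral_congr_ae (ae_of_all _ fun z => ?_)
  simp only [map_mul, Complex.conj_conj, Function.comp_apply]

/-- commutation with the operators of cubes -/
lemma AB_comm (hV : SpecVBasic) (hEdge : SpecEdge) (hX : X.Erg) {k : ℕ}
    {K : α × α → ℂ} (hK : IK X K) {g : Vx (k + 2) → α → ℂ} (hg : ∀ ε, Bdd (g ε))
    {A B : Lp ℂ 2 X.μ →L[ℂ] Lp ℂ 2 X.μ} (hA : IsA X k K A) (hB : IsB X k g B) :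
    A ∘L B = B ∘L A := by
  classical
  refine op_ext fun f hf => ext_test fun h hh => ?_
  rw [ContinuousLinearMap.comp_apply, ContinuousLinearMap.comp_apply, A_cl hV hK hA hf,
    ← ContinuousLinearMap.adjoint_inner_left, A_cl hV (IK_star hK) (A_adj hA) hh, hB, hB]
  have hVf := (hV α X k K f (IK_bdd hK) hf).1
  have hVh := (hV α X k _ h (IK_bdd (IK_star hK)) hh).1
  have hv0 : ∀ {u : α → ℂ} (hu : Bdd u), ∀ᵐ x ∂(X.cm (k + 2)),
      (cl X.μ hu : α → ℂ) (x v0) = u (x v0) := fun hu =>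
    (X.mp_marg (k + 2) v0).quasiMeasurePreserving.ae (cl_ae hu)
  have hv1 : ∀ {u : α → ℂ} (hu : Bdd u), ∀ᵐ x ∂(X.cm (k + 2)),
      (cl X.μ hu : α → ℂ) (x (vi 0)) = u (x (vi 0)) := fun hu =>
    (X.mp_marg (k + 2) (vi 0)).quasiMeasurePreserving.ae (cl_ae hu)
  have h10 : (vi 0 : Vx (k + 2)) ≠ v0 := vi_ne_v0 0
  set g' : Vx (k + 2) → α → ℂ :=
    Function.update (Function.update g v0 f) (vi 0) (fun y => conj (h y)) with hg'
  have g0 : g' v0 = f := by rw [hg', Function.update_of_ne h10.symm, Function.update_self]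
  have g1 : g' (vi 0) = fun y => conj (h y) := by rw [hg', Function.update_self]
  have gr : ∀ ε, ε ≠ v0 → ε ≠ vi 0 → g' ε = g ε := by
    intro ε h1 h2
    rw [hg', Function.update_of_ne h2, Function.update_of_ne h1]
  have hb' : ∀ ε, Bdd (g' ε) := by
    intro ε
    by_cases h2 : ε = vi 0
    · rw [h2, g1]; exact hh.conj
    · by_cases h1 : ε = v0
      · rw [h1, g0]; exact hf
      · rw [gr ε h1 h2]; exact hg ε
  have e := hEdge α X hX k 0 K hK g' hb'
  have p1 : ∀ x : Cube (k + 2) α, ∏ ε ∈ Finset.univ.erase v0, g' ε (x ε) =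
      conj (h (x (vi 0))) * GG k g x := by
    intro x
    rw [← Finset.mul_prod_erase _ _ (Finset.mem_erase.2 ⟨h10, Finset.mem_univ _⟩), g1]
    congr 1
    refine Finset.prod_congr rfl fun ε hε => ?_
    rw [Finset.mem_erase, Finset.mem_erase] at hε
    rw [gr ε hε.2.1 hε.1]
  have p2 : ∀ x : Cube (k + 2) α, ∏ ε ∈ Finset.univ.erase (vi 0), g' ε (x ε) =
      f (x v0) * GG k g x := by
    intro x
    rw [← Finset.mul_prod_erase _ _ (Finset.mem_erase.2 ⟨h10.symm, Finset.mem_univ _⟩), g0,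
      Finset.erase_right_comm]
    congr 1
    refine Finset.prod_congr rfl fun ε hε => ?_
    rw [Finset.mem_erase, Finset.mem_erase] at hε
    rw [gr ε hε.2.1 hε.1]
  simp only [p1, p2, g0, g1] at e
  have l1 : ∫ x, GG k g x * (cl X.μ hf : α → ℂ) (x v0) *
      conj ((cl X.μ hVh : α → ℂ) (x (vi 0))) ∂(X.cm (k + 2)) =
      ∫ x, V X k (K ∘ Prod.swap) (fun y => conj (h y)) (x (vi 0)) *
        (f (x v0) * GG k g x) ∂(X.cm (k + 2)) := by
    refine integral_congr_ae ?_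
    filter_upwards [hv0 hf, hv1 hVh] with x h3 h4
    rw [h3, h4, V_star]
    ring
  have l2 : ∫ x, GG k g x * (cl X.μ hVf : α → ℂ) (x v0) *
      conj ((cl X.μ hh : α → ℂ) (x (vi 0))) ∂(X.cm (k + 2)) =
      ∫ x, V X k K f (x v0) * (conj (h (x (vi 0))) * GG k g x) ∂(X.cm (k + 2)) := by
    refine integral_congr_ae ?_
    filter_upwards [hv0 hVf, hv1 hh] with x h3 h4
    rw [h3, h4]
    ring
  rw [l1, l2, e]

omit [StandardBorelSpace α] in
/-- The tensor product of two elements of `L²`. -/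
lemma memLp_tensor {μ : Measure α} [IsProbabilityMeasure μ] (e f : Lp ℂ 2 μ) :
    MemLp (fun z : α × α => conj (e z.1) * f z.2) 2 (μ.prod μ) := by
  have he : AEStronglyMeasurable (fun z : α × α => conj (e z.1)) (μ.prod μ) :=
    Complex.continuous_conj.comp_aestronglyMeasurable ((Lp.aestronglyMeasurable e).comp_fst)
  have hf : AEStronglyMeasurable (fun z : α × α => f z.2) (μ.prod μ) :=
    (Lp.aestronglyMeasurable f).comp_snd
  refine (memLp_two_iff_integrable_sq_norm (he.mul hf)).2 ?_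
  have h1 := ((memLp_two_iff_integrable_sq_norm (Lp.aestronglyMeasurable e)).1 (Lp.memLp e))
  have h2 := ((memLp_two_iff_integrable_sq_norm (Lp.aestronglyMeasurable f)).1 (Lp.memLp f))
  refine (h1.mul_prod h2).congr (ae_of_all _ fun z => ?_)
  simp only [Pi.mul_apply, norm_mul, RCLike.norm_conj, mul_pow]

/-- compactness of the operators of cubes -/
lemma B_compact (hHSC : SpecHSC) (hEL : SpecEdgeLaw) (hX : X.Erg) {k : ℕ}
    {g : Vx (k + 2) → α → ℂ} (hg : ∀ ε, Bdd (g ε))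
    {B : Lp ℂ 2 X.μ →L[ℂ] Lp ℂ 2 X.μ} (hB : IsB X k g B) : IsCompactOperator B := by
  have hel : MeasurePreserving (fun x : Cube (k + 2) α => (x v0, x (vi 0))) (X.cm (k + 2))
    (X.μ.prod X.μ) := hEL α X hX (k + 1) 0
  have hG : MemLp (GG k g) 2 (X.cm (k + 2)) := (bdd_GG hg).memLp _ 2
  refine hHSC _ B (‖hG.toLp (GG k g)‖ ^ 2) fun m n e f he hf => ?_
  have hW : ∀ q : Fin m × Fin n, MemLp (fun x : Cube (k + 2) α =>
      conj (e q.1 (x v0)) * f q.2 (x (vi 0))) 2 (X.cm (k + 2)) := fun q =>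
    (memLp_tensor (e q.1) (f q.2)).comp_measurePreserving hel
  have hon : Orthonormal ℂ fun q : Fin m × Fin n => (hW q).toLp _ := by
    rw [orthonormal_iff_ite]
    intro q r
    rw [L2.inner_def]
    have h1 : ∫ x, inner ℂ (((hW q).toLp _ : Lp ℂ 2 (X.cm (k + 2))) x)
        (((hW r).toLp _ : Lp ℂ 2 (X.cm (k + 2))) x) ∂(X.cm (k + 2)) =
        ∫ x : Cube (k + 2) α, (fun z : α × α => (e q.1 z.1 * conj (e r.1 z.1)) *
          (f r.2 z.2 * conj (f q.2 z.2))) (x v0, x (vi 0)) ∂(X.cm (k + 2)) := by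
      refine integral_congr_ae ?_
      filter_upwards [(hW q).coeFn_toLp, (hW r).coeFn_toLp] with x h2 h3
      rw [h2, h3]
      simp only [RCLike.inner_apply, map_mul, Complex.conj_conj]
      ring
    have hm : AEStronglyMeasurable (fun z : α × α => (e q.1 z.1 * conj (e r.1 z.1)) *
          (f r.2 z.2 * conj (f q.2 z.2))) (X.μ.prod X.μ) := by
      have a1 : AEStronglyMeasurable (fun z : α × α => e q.1 z.1) (X.μ.prod X.μ) :=
        (Lp.aestronglyMeasurable _).comp_fst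
      have a2 : AEStronglyMeasurable (fun z : α × α => conj (e r.1 z.1)) (X.μ.prod X.μ) :=
        Complex.continuous_conj.comp_aestronglyMeasurable ((Lp.aestronglyMeasurable _).comp_fst)
      have a3 : AEStronglyMeasurable (fun z : α × α => f r.2 z.2) (X.μ.prod X.μ) :=
        (Lp.aestronglyMeasurable _).comp_snd
      have a4 : AEStronglyMeasurable (fun z : α × α => conj (f q.2 z.2)) (X.μ.prod X.μ) :=
        Complex.continuous_conj.comp_aestronglyMeasurable ((Lp.aestronglyMeasurable _).comp_snd)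
      exact (a1.mul a2).mul (a3.mul a4)
    have h4 : ∫ x : Cube (k + 2) α, (fun z : α × α => (e q.1 z.1 * conj (e r.1 z.1)) *
          (f r.2 z.2 * conj (f q.2 z.2))) (x v0, x (vi 0)) ∂(X.cm (k + 2)) =
        ∫ z : α × α, (e q.1 z.1 * conj (e r.1 z.1)) *
          (f r.2 z.2 * conj (f q.2 z.2)) ∂(X.μ.prod X.μ) := by
      rw [← hel.map_eq] at hm ⊢
      exact (integral_map hel.measurable.aemeasurable hm).symm
    rw [h1, h4, integral_prod_mul (fun y => e q.1 y * conj (e r.1 y))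
      (fun y => f r.2 y * conj (f q.2 y))]
    have h5 : ∀ u v : Lp ℂ 2 X.μ, ∫ y, u y * conj (v y) ∂X.μ = inner ℂ v u := by
      intro u v
      rw [L2.inner_def]
      refine integral_congr_ae (ae_of_all _ fun y => ?_)
      simp [RCLike.inner_apply]
    rw [h5, h5, (orthonormal_iff_ite.1 he) r.1 q.1, (orthonormal_iff_ite.1 hf) q.2 r.2]
    obtain ⟨q1, q2⟩ := q
    obtain ⟨r1, r2⟩ := r
    simp only [Prod.mk.injEq]
    by_cases c1 : q1 = r1 <;> by_cases c2 : q2 = r2 <;> simp [c1, c2, eq_comm]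
  have hbes := hon.sum_inner_products_le (s := Finset.univ) (x := hG.toLp (GG k g))
  refine le_trans (le_of_eq ?_) hbes
  rw [← Finset.univ_product_univ, Finset.sum_product]
  refine Finset.sum_congr rfl fun i _ => Finset.sum_congr rfl fun j _ => ?_
  congr 2
  rw [hB, L2.inner_def]
  refine integral_congr_ae ?_
  filter_upwards [(hW (i, j)).coeFn_toLp, hG.coeFn_toLp] with x h2 h3
  rw [h2, h3]
  simp only [RCLike.inner_apply, map_mul, Complex.conj_conj]
  ring

/-- the common kernel of the operators of cubes is trivial -/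
lemma ker_trivial (hOp : SpecOp) (hTot : SpecTotal) {k : ℕ} (hO : Ord X k) {x : Lp ℂ 2 X.μ}
    (hx : ∀ (g : Vx (k + 2) → α → ℂ) (B : Lp ℂ 2 X.μ →L[ℂ] Lp ℂ 2 X.μ), (∀ ε, Bdd (g ε)) →
      IsB X k g B → B x = 0) : x = 0 := by
  classical
  obtain ⟨u, hu⟩ : ∃ u : α → ℂ, u = (x : α → ℂ) := ⟨_, rfl⟩
  have hum : Measurable u := by rw [hu]; exact (Lp.stronglyMeasurable x).measurable
  have hui : Integrable u X.μ := by rw [hu]; exact (Lp.memLp x).integrable (by norm_num)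
  have hm0 := X.mp_marg (k + 2) v0
  have h10 : (vi 0 : Vx (k + 2)) ≠ v0 := vi_ne_v0 0
  have h1 : (fun c : Cube (k + 2) α => u (c v0)) =ᵐ[X.cm (k + 2)] 0 := by
    refine hTot α X k hO v0 _ (hm0.integrable_comp_of_integrable hui) fun g hg hg0 => ?_
    obtain ⟨B, hB⟩ := exists_B (X := X) hOp hg
    have h2 := hx g B hg hB
    have h3 := hB x (cl X.μ (hg (vi 0)).conj)
    rw [h2, inner_zero_right, ← hu] at h3
    rw [h3]
    refine integral_congr_ae ?_
    have h4 : ∀ᵐ c ∂(X.cm (k + 2)), (cl X.μ (hg (vi 0)).conj : α → ℂ) (c (vi 0)) =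
        conj (g (vi 0) (c (vi 0))) :=
      (X.mp_marg (k + 2) (vi 0)).quasiMeasurePreserving.ae (cl_ae (hg (vi 0)).conj)
    filter_upwards [h4] with c hc
    rw [hc, Complex.conj_conj, ← Finset.mul_prod_erase Finset.univ _ (Finset.mem_univ v0), hg0,
      one_mul, ← Finset.mul_prod_erase _ _ (Finset.mem_erase.2 ⟨h10, Finset.mem_univ _⟩)]
    unfold GG
    ring
  have h5 : ∀ᵐ y ∂X.μ, u y = 0 := by
    have hs : MeasurableSet {y : α | u y = 0} := hum (measurableSet_singleton (0 : ℂ))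
    rw [← hm0.map_eq, ae_map_iff hm0.measurable.aemeasurable hs]
    exact h1
  refine Lp.ext ?_
  filter_upwards [h5, Lp.coeFn_zero ℂ 2 X.μ] with y h6 h7
  rw [h7, ← hu]
  exact h6

/-- a joint eigenvector gives a joint eigenfunction -/
lemma JE_of (hOp : SpecOp) {k : ℕ} {x : Lp ℂ 2 X.μ}
    (hx : ∀ (K : α × α → ℂ) (A : Lp ℂ 2 X.μ →L[ℂ] Lp ℂ 2 X.μ), IK X K → IsA X k K A →
      ∃ c : ℂ, A x = c • x) : JE X k x := by
  refine ⟨(Lp.stronglyMeasurable x).measurable, Lp.memLp x, fun K hK => ?_⟩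
  obtain ⟨A, hA⟩ := exists_A (X := X) (k := k) hOp hK
  obtain ⟨c, hc⟩ := hx K A hK hA
  refine ⟨c, fun h hh => ?_⟩
  have h1 := hA x (cl X.μ hh.conj)
  rw [hc, inner_smul_right, inner_cl] at h1
  simp only [Complex.conj_conj] at h1
  rw [h1]
  have h4 : ∀ᵐ p ∂(R X k), (cl X.μ hh.conj : α → ℂ) p.1 = conj (h p.1) :=
    (mp_relSq_fst (X.Z k).le X.μ).quasiMeasurePreserving.ae (cl_ae hh.conj)
  refine integral_congr_ae ?_
  filter_upwards [h4] with p hp
  rw [hp, Complex.conj_conj]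

end Ops

end MPd26.HK.P3.DenseM

namespace MPd26.HK.P3
open DenseM

/-- DENSE -/
theorem specDense (hHSC : SpecHSC) (hJE : SpecJEig) (hOp : SpecOp) (hEdge : SpecEdge)
    (hComm : SpecComm) (hV : SpecVBasic) (hEL : SpecEdgeLaw) (hTot : SpecTotal) : SpecDense := by
  intro α _ _ X hX k hO f hf η hη
  set VV : Set (Lp ℂ 2 X.μ →L[ℂ] Lp ℂ 2 X.μ) := {A | ∃ K, IK X K ∧ IsA X k K A} with hVV
  set BB : Set (Lp ℂ 2 X.μ →L[ℂ] Lp ℂ 2 X.μ) :=
    {B | ∃ g : Vx (k + 2) → α → ℂ, (∀ ε, Bdd (g ε)) ∧ IsB X k g B} with hBB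
  have hd := hJE (Lp ℂ 2 X.μ) VV BB
    (by
      rintro A ⟨K, hK, hA⟩ B ⟨L, hL, hB⟩
      exact A_comm hV hComm hX hO hK hL hA hB)
    (by
      rintro A ⟨K, hK, hA⟩
      exact ⟨_, IK_star hK, A_adj hA⟩)
    (by
      rintro B ⟨g, hg, hB⟩
      refine ⟨B_compact hHSC hEL hX hg hB, ?_⟩
      rintro A ⟨K, hK, hA⟩
      exact AB_comm hV hEdge hX hK hg hA hB)
    (by
      intro x hx
      exact ker_trivial hOp hTot hO fun g B hg hB => hx B ⟨g, hg, hB⟩)
  have hmem : cl X.μ hf ∈ closure ((Submodule.span ℂ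
      {x : Lp ℂ 2 X.μ | ∀ A ∈ VV, ∃ c : ℂ, A x = c • x} : Submodule ℂ (Lp ℂ 2 X.μ)) :
      Set (Lp ℂ 2 X.μ)) := by
    rw [← Submodule.topologicalClosure_coe, hd]
    exact Set.mem_univ _
  obtain ⟨y, hy, hyd⟩ := Metric.mem_closure_iff.1 hmem (Real.sqrt η) (Real.sqrt_pos.2 hη)
  obtain ⟨r, c, w, hw⟩ := Submodule.mem_span_set'.1 hy
  refine ⟨r, fun i => ((c i • (w i : Lp ℂ 2 X.μ) : Lp ℂ 2 X.μ) : α → ℂ), ?_, ?_⟩
  · intro i
    refine JE_of hOp fun K A hK hA => ?_
    obtain ⟨d, hd⟩ := (w i).2 A ⟨K, hK, hA⟩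
    refine ⟨d, ?_⟩
    rw [map_smul, hd, smul_comm]
  · have h1 : (fun x => ∑ i, ((c i • (w i : Lp ℂ 2 X.μ) : Lp ℂ 2 X.μ) : α → ℂ) x) =ᵐ[X.μ]
        (y : α → ℂ) := by
      rw [← hw]
      exact (coe_sum Finset.univ _).symm
    rw [dist2_congr (ae_eq_refl f) h1, dist2_toLp (bm hf) (Lp.memLp y), Lp.toLp_coeFn]
    have h2 : ‖(bm hf).toLp f - y‖ < Real.sqrt η := by
      rw [← dist_eq_norm]; exact hyd
    have h3 := Real.sq_sqrt hη.le
    nlinarith [norm_nonneg ((bm (μ := X.μ) hf).toLp f - y), Real.sqrt_nonneg η]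

end MPd26.HK.P3
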