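import Pool.Agent.Lib.MP_d26cd8_an.HK.Spec3
import Pool.Agent.Lib.MP_d26cd8_an.HK.Ph

/-!
# MP_d26cd8_an, P3: module EDGELAW (helper91)

The two ends of an edge at `v0` are independent.
-/

set_option autoImplicit false

open MeasureTheory ProbabilityTheory Filter Topology
open scoped ComplexConjugate ENNReal

namespace MPd26.HK.P3

namespace EdgeLawM

lemma cons_false_v0 {n : ℕ} : (Fin.cons false v0 : Vx (n + 1)) = v0 := by
  funext i
  refine Fin.cases ?_ (fun j => ?_) i
  · rfl
  · rfl

lemma cons_false_vi {n : ℕ} (i : Fin n) : (Fin.cons false (vi i) : Vx (n + 1)) = vi i.succ := by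
  unfold vi
  rw [Fin.cons_update, cons_false_v0]

lemma cons_true_v0 {n : ℕ} : (Fin.cons true v0 : Vx (n + 1)) = vi 0 := by
  funext i
  refine Fin.cases ?_ (fun j => ?_) i
  · simp [vi]
  · simp [vi, v0]

variable {α : Type} [mα : MeasurableSpace α] [StandardBorelSpace α] (X : Sys α)

lemma edge_zero (hX : X.Erg) :
    MeasurePreserving (fun x : Cube 1 α => (x v0, x (vi 0))) (X.cm 1) (X.μ.prod X.μ) := by
  have h1 := X.mp_split 0
  rw [PhM.relSq_zero X hX] at h1
  have h2 := (X.mp_marg 0 v0).prod (X.mp_marg 0 v0)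
  have h3 := h2.comp h1
  have e : (Prod.map (fun x : Cube 0 α => x v0) (fun x : Cube 0 α => x v0)) ∘
      (fun x : Cube (0 + 1) α => (lo x, hi x)) = fun x : Cube 1 α => (x v0, x (vi 0)) := by
    funext x
    simp only [Function.comp_apply, Prod.map_apply, lo, hi, cons_false_v0, cons_true_v0]
  rw [e] at h3
  exact h3

lemma edge_last (hX : X.Erg) (n : ℕ) :
    MeasurePreserving (fun x : Cube (n + 1) α => (x v0, x (vi (Fin.last n)))) (X.cm (n + 1))
      (X.μ.prod X.μ) := by
  induction n with
  | zero => exact edge_zero X hX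
  | succ n ih =>
    have h1 := ih.comp (X.mp_lo (n + 1))
    have e : (fun x : Cube (n + 1) α => (x v0, x (vi (Fin.last n)))) ∘ lo =
        fun x : Cube (n + 1 + 1) α => (x v0, x (vi (Fin.last (n + 1)))) := by
      funext x
      simp only [Function.comp_apply, lo, cons_false_v0, cons_false_vi, Fin.succ_last]
    rw [e] at h1
    exact h1

/-- the permutation of the directions which exchanges `i` and `j` -/
lemma symm_swap_v0 {n : ℕ} (σ : Equiv.Perm (Fin n)) (x : Cube n α) : symm σ v0 x v0 = x v0 := by
  unfold symm v0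
  rfl

lemma symm_swap {n : ℕ} (σ : Equiv.Perm (Fin n)) (x : Cube n α) (ε : Vx n) :
    symm σ v0 x ε = x (fun i => ε (σ i)) := by
  unfold symm v0
  congr 1
  funext i
  exact Bool.xor_false _

lemma vi_swap {n : ℕ} (i j : Fin n) : (fun l => vi j (Equiv.swap i j l)) = vi i := by
  funext l
  unfold vi v0
  by_cases h : l = i
  · rw [h, Equiv.swap_apply_left, Function.update_self, Function.update_self]
  · rw [Function.update_of_ne h]
    rw [Function.update_of_ne]
    intro h2
    apply h
    have := congrArg (Equiv.swap i j) h2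
    rwa [Equiv.swap_apply_self, Equiv.swap_apply_right] at this

end EdgeLawM

open EdgeLawM in
theorem specEdgeLaw (hSym : SpecSym) : SpecEdgeLaw := by
  intro α _ _ X hX n i
  have h1 := (edge_last X hX n).comp (hSym α X (n + 1) (Equiv.swap i (Fin.last n)) v0)
  have e : (fun x : Cube (n + 1) α => (x v0, x (vi (Fin.last n)))) ∘
      symm (Equiv.swap i (Fin.last n)) v0 = fun x : Cube (n + 1) α => (x v0, x (vi i)) := by
    funext x
    simp only [Function.comp_apply]
    rw [symm_swap_v0, symm_swap, vi_swap]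
  rw [e] at h1
  exact h1

end MPd26.HK.P3
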