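import Pool.Agent.Lib.MP_d26cd8_an.HK.P3_VBasic
import Pool.Agent.Lib.MP_d26cd8_an.HK.P3_EdgeLaw
import Pool.Agent.Lib.MP_d26cd8_an.HK.P3_Compl

/-!
# MP_d26cd8_an, P3: module EDGE (helper91)

The edge lemma: `V_K` at one end of an edge is `V_{K^T}` at the other end.
-/

set_option autoImplicit false

open MeasureTheory ProbabilityTheory Filter Topology
open scoped ComplexConjugate ENNReal

namespace MPd26.HK.P3

namespace EdgeM

lemma mp_int {Ω Ω' : Type} [MeasurableSpace Ω] [MeasurableSpace Ω'] {μ : Measure Ω}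
    {ν : Measure Ω'} {T : Ω → Ω'} (hT : MeasurePreserving T μ ν) {F : Ω' → ℂ}
    (hF : Measurable F) : ∫ x, F (T x) ∂μ = ∫ y, F y ∂ν := by
  rw [← hT.map_eq, integral_map hT.measurable.aemeasurable hF.aestronglyMeasurable]

lemma vi_ne_v0 {n : ℕ} (i : Fin n) : (vi i : Vx n) ≠ v0 := by
  intro h
  have := congrFun h i
  simp [vi, v0] at this

variable {α : Type} [mα : MeasurableSpace α] [StandardBorelSpace α] (X : Sys α)

lemma IK_bdd {K : α × α → ℂ} (hK : IK X K) : Bdd K :=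
  ⟨hK.1.mono (MeasurableSpace.invariants_le _) le_rfl, hK.2⟩

lemma Q_prob {k : ℕ} {Q : Measure (Cube (k + 2) α × Cube (k + 2) α)} (hQ : IsQ2 X k Q) :
    IsProbabilityMeasure Q := by
  constructor
  have h1 := hQ.fst.measure_preimage (MeasurableSet.univ (α := Cube (k + 2) α)).nullMeasurableSet
  rw [Set.preimage_univ] at h1
  rw [h1]
  exact measure_univ

lemma condQ (hExt : SpecExtProd) {k : ℕ} {Q : Measure (Cube (k + 2) α × Cube (k + 2) α)}
    (hQ : IsQ2 X k Q) {Φ : α × α → ℂ} (hΦ : Bdd Φ) {H : Cube (k + 2) α → ℂ} (hH : Bdd H) :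
    ∫ p, H p.1 * Φ (p.1 v0, p.2 v0) ∂Q =
      ∫ x, H x * (∫ z, Φ (x v0, z) ∂(dis (X.Z k).le X.μ (x v0))) ∂(X.cm (k + 2)) := by
  have := Q_prob X hQ
  have hmeas : Measurable (fun p : Cube (k + 2) α × Cube (k + 2) α => (p.1, p.2 v0)) :=
    measurable_fst.prodMk ((measurable_pi_apply v0).comp measurable_snd)
  set κ : Kernel (Cube (k + 2) α) α := (dis (X.Z k).le X.μ).comap (fun x => x v0)
    (measurable_pi_apply v0) with hκ
  have : IsMarkovKernel κ := by rw [hκ]; infer_instance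
  have : IsProbabilityMeasure (Q.map fun p => (p.1, p.2 v0)) :=
    Measure.isProbabilityMeasure_map hmeas.aemeasurable
  have hρ : Q.map (fun p => (p.1, p.2 v0)) = (X.cm (k + 2)) ⊗ₘ κ := by
    apply hExt
    intro f g hf hg
    have hb : Bdd (fun p : Cube (k + 2) α × α => f p.1 * g p.2) :=
      (hf.comp measurable_fst).mul (hg.comp measurable_snd)
    rw [integral_map hmeas.aemeasurable hb.1.aestronglyMeasurable,
      Measure.integral_compProd (hb.integrable _)]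
    simp only
    rw [hQ.cond g f hg hf]
    have h1 := (X.mp_marg (k + 2) v0).quasiMeasurePreserving.ae_eq_comp
      (condExp_ae_eq_dis (X.Z k).le X.μ (hg.integrable X.μ))
    refine integral_congr_ae ?_
    filter_upwards [h1] with x hx
    have hx' : (X.μ[g | (X.Z k).σ]) (x v0) = ∫ y, g y ∂(dis (X.Z k).le X.μ (x v0)) := hx
    rw [hx', hκ, Kernel.comap_apply, integral_const_mul]
  have hF : Bdd (fun p : Cube (k + 2) α × α => H p.1 * Φ (p.1 v0, p.2)) :=
    (hH.comp measurable_fst).mul (hΦ.comp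
      (((measurable_pi_apply v0).comp measurable_fst).prodMk measurable_snd))
  have h2 : ∫ p, H p.1 * Φ (p.1 v0, p.2 v0) ∂Q =
      ∫ p, H p.1 * Φ (p.1 v0, p.2) ∂(Q.map fun p => (p.1, p.2 v0)) := by
    rw [integral_map hmeas.aemeasurable hF.1.aestronglyMeasurable]
  rw [h2, hρ, Measure.integral_compProd (hF.integrable _)]
  refine integral_congr_ae (ae_of_all _ fun x => ?_)
  simp only
  rw [hκ, Kernel.comap_apply, integral_const_mul]

lemma symm_vi_v0 {n : ℕ} (i : Fin n) (x : Cube n α) : symm 1 (vi i) x v0 = x (vi i) :=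
  ComplM.symm_v0 _ x

lemma symm_vi_vi {n : ℕ} (i : Fin n) (x : Cube n α) : symm 1 (vi i) x (vi i) = x v0 := by
  rw [ComplM.symm_apply]
  congr 1
  funext l
  exact Bool.xor_self _

/-- the edge in direction `0` -/
lemma edge_zero (hExt : SpecExtProd) (hSym : SpecSym) {k : ℕ}
    {Q : Measure (Cube (k + 2) α × Cube (k + 2) α)} (hQ : IsQ2 X k Q) {K : α × α → ℂ}
    (hK : IK X K) {g : Vx (k + 2) → α → ℂ} (hg : ∀ ε, Bdd (g ε)) :
    ∫ x, V X k K (g v0) (x v0) * ∏ ε ∈ Finset.univ.erase v0, g ε (x ε) ∂(X.cm (k + 2)) =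
      ∫ x, V X k (K ∘ Prod.swap) (g (vi 0)) (x (vi 0)) *
        ∏ ε ∈ Finset.univ.erase (vi 0), g ε (x ε) ∂(X.cm (k + 2)) := by
  classical
  have hKb := IK_bdd X hK
  have hKb' : Bdd (K ∘ Prod.swap) := hKb.comp measurable_swap
  set H : Cube (k + 2) α → ℂ := fun x => ∏ ε ∈ (Finset.univ.erase v0).erase (vi 0), g ε (x ε)
    with hHdef
  have hH : Bdd H := Bdd.prod _ fun ε _ => (hg ε).comp (measurable_pi_apply ε)
  have e1 : ∀ x : Cube (k + 2) α, ∏ ε ∈ Finset.univ.erase v0, g ε (x ε) =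
      g (vi 0) (x (vi 0)) * H x := by
    intro x
    rw [hHdef]
    exact (Finset.mul_prod_erase _ _ (Finset.mem_erase.2
      ⟨vi_ne_v0 _, Finset.mem_univ _⟩)).symm
  have e2 : ∀ x : Cube (k + 2) α, ∏ ε ∈ Finset.univ.erase (vi 0), g ε (x ε) =
      g v0 (x v0) * H x := by
    intro x
    rw [hHdef]
    simp only
    rw [Finset.erase_right_comm]
    exact (Finset.mul_prod_erase _ _ (Finset.mem_erase.2
      ⟨(vi_ne_v0 _).symm, Finset.mem_univ _⟩)).symm
  have m0 : Measurable (fun x : Cube (k + 2) α => x v0) := measurable_pi_apply v0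
  have m1 : Measurable (fun x : Cube (k + 2) α => x (vi 0)) := measurable_pi_apply (vi 0)
  set s : Cube (k + 2) α → Cube (k + 2) α := symm 1 (vi 0) with hs
  have hsm := hSym α X (k + 2) 1 (vi 0)
  have hHs : Bdd (fun x => H (s x)) := hH.comp hsm.measurable
  -- the two sides in terms of `Q`
  have hL : ∫ x, V X k K (g v0) (x v0) * ∏ ε ∈ Finset.univ.erase v0, g ε (x ε) ∂(X.cm (k + 2)) =
      ∫ p, (g (vi 0) (p.1 (vi 0)) * H p.1) * (K (p.1 v0, p.2 v0) * g v0 (p.2 v0)) ∂Q := by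
    have h1 := condQ X hExt hQ (Φ := fun q => K q * g v0 q.2)
      (hKb.mul ((hg v0).comp measurable_snd)) (H := fun x => g (vi 0) (x (vi 0)) * H x)
      (((hg (vi 0)).comp m1).mul hH)
    rw [h1]
    refine integral_congr_ae (ae_of_all _ fun x => ?_)
    simp only
    rw [e1, mul_comm]
    rfl
  have hR : ∫ x, V X k (K ∘ Prod.swap) (g (vi 0)) (x (vi 0)) *
        ∏ ε ∈ Finset.univ.erase (vi 0), g ε (x ε) ∂(X.cm (k + 2)) =
      ∫ p, (g v0 (p.1 (vi 0)) * H (s p.1)) *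
        ((K ∘ Prod.swap) (p.1 v0, p.2 v0) * g (vi 0) (p.2 v0)) ∂Q := by
    have h1 := condQ X hExt hQ (Φ := fun q => (K ∘ Prod.swap) q * g (vi 0) q.2)
      (hKb'.mul ((hg (vi 0)).comp measurable_snd))
      (H := fun x => g v0 (x (vi 0)) * H (s x)) (((hg v0).comp m1).mul hHs)
    rw [h1]
    have hV := VBasicM.bdd_V X k hKb' (hg (vi 0))
    have hF : Measurable (fun x : Cube (k + 2) α =>
        V X k (K ∘ Prod.swap) (g (vi 0)) (x (vi 0)) * (g v0 (x v0) * H x)) :=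
      (hV.1.comp m1).mul (((hg v0).1.comp m0).mul hH.1)
    have h2 := mp_int hsm hF
    have h3 : ∫ x, V X k (K ∘ Prod.swap) (g (vi 0)) (x (vi 0)) *
        ∏ ε ∈ Finset.univ.erase (vi 0), g ε (x ε) ∂(X.cm (k + 2)) =
        ∫ x, V X k (K ∘ Prod.swap) (g (vi 0)) (x (vi 0)) * (g v0 (x v0) * H x)
          ∂(X.cm (k + 2)) := by
      refine integral_congr_ae (ae_of_all _ fun x => ?_)
      simp only
      rw [e2]
    rw [h3, ← h2]
    refine integral_congr_ae (ae_of_all _ fun x => ?_)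
    simp only
    rw [symm_vi_v0, symm_vi_vi, mul_comm]
    rfl
  rw [hL, hR]
  -- kernel
  have h1 : ∫ p, (g (vi 0) (p.1 (vi 0)) * H p.1) * (K (p.1 v0, p.2 v0) * g v0 (p.2 v0)) ∂Q =
      ∫ p, (g (vi 0) (p.1 (vi 0)) * H p.1) *
        (K (p.1 (vi 0), p.2 (vi 0)) * g v0 (p.2 v0)) ∂Q := by
    refine integral_congr_ae ?_
    filter_upwards [hQ.ker K hK] with p hp
    rw [hp]
  -- swap
  have h2 : ∫ p, (g (vi 0) (p.1 (vi 0)) * H p.1) *
        (K (p.1 (vi 0), p.2 (vi 0)) * g v0 (p.2 v0)) ∂Q =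
      ∫ p, (g (vi 0) (p.2 (vi 0)) * H p.2) *
        (K (p.2 (vi 0), p.1 (vi 0)) * g v0 (p.1 v0)) ∂Q := by
    have hF : Measurable (fun p : Cube (k + 2) α × Cube (k + 2) α =>
        (g (vi 0) (p.1 (vi 0)) * H p.1) * (K (p.1 (vi 0), p.2 (vi 0)) * g v0 (p.2 v0))) :=
      ((((hg (vi 0)).1.comp m1).comp measurable_fst).mul (hH.1.comp measurable_fst)).mul
        ((hKb.1.comp ((m1.comp measurable_fst).prodMk (m1.comp measurable_snd))).mul
          (((hg v0).1.comp m0).comp measurable_snd))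
    exact (mp_int hQ.swap hF).symm
  -- the other coordinates
  have h3 : ∫ p, (g (vi 0) (p.2 (vi 0)) * H p.2) *
        (K (p.2 (vi 0), p.1 (vi 0)) * g v0 (p.1 v0)) ∂Q =
      ∫ p, (g (vi 0) (p.2 (vi 0)) * H p.1) *
        (K (p.2 (vi 0), p.1 (vi 0)) * g v0 (p.1 v0)) ∂Q := by
    refine integral_congr_ae ?_
    filter_upwards [hQ.same] with p hp
    have : H p.2 = H p.1 := by
      rw [hHdef]
      refine Finset.prod_congr rfl fun ε hε => ?_
      rw [Finset.mem_erase, Finset.mem_erase] at hε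
      rw [hp ε hε.2.1 hε.1]
    rw [this]
  -- flip
  have h4 : ∫ p, (g (vi 0) (p.2 (vi 0)) * H p.1) *
        (K (p.2 (vi 0), p.1 (vi 0)) * g v0 (p.1 v0)) ∂Q =
      ∫ p, (g (vi 0) (p.2 v0) * H (s p.1)) *
        (K (p.2 v0, p.1 v0) * g v0 (p.1 (vi 0))) ∂Q := by
    have hF : Measurable (fun p : Cube (k + 2) α × Cube (k + 2) α =>
        (g (vi 0) (p.2 (vi 0)) * H p.1) * (K (p.2 (vi 0), p.1 (vi 0)) * g v0 (p.1 v0))) :=
      ((((hg (vi 0)).1.comp m1).comp measurable_snd).mul (hH.1.comp measurable_fst)).mul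
        ((hKb.1.comp ((m1.comp measurable_snd).prodMk (m1.comp measurable_fst))).mul
          (((hg v0).1.comp m0).comp measurable_fst))
    rw [← mp_int hQ.flip hF]
    refine integral_congr_ae (ae_of_all _ fun p => ?_)
    simp only [Prod.map_fst, Prod.map_snd]
    rw [symm_vi_vi, symm_vi_vi, symm_vi_v0]
  rw [h1, h2, h3, h4]
  refine integral_congr_ae (ae_of_all _ fun p => ?_)
  simp only [Function.comp_apply, Prod.swap_prod_mk]
  ring

end EdgeM

open EdgeM in
theorem specEdge (hExt : SpecExtProd) (hSym : SpecSym) (hQ2 : SpecQ2) : SpecEdge := by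
  classical
  intro α _ _ X hX k i K hK g hg
  obtain ⟨Q, hQ⟩ := hQ2 α X hX k
  have hKb := IK_bdd X hK
  have hKb' : Bdd (K ∘ Prod.swap) := hKb.comp measurable_swap
  -- the permutation of the vertices
  let τ : Equiv.Perm (Vx (k + 2)) :=
    { toFun := fun ε l => ε (Equiv.swap 0 i l)
      invFun := fun ε l => ε (Equiv.swap 0 i l)
      left_inv := by intro ε; funext l; simp
      right_inv := by intro ε; funext l; simp }
  have hτ0 : τ v0 = v0 := rfl
  have hτ1 : τ (vi i) = vi 0 := EdgeLawM.vi_swap 0 i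
  have hττ : ∀ ε, τ (τ ε) = ε := by
    intro ε; funext l
    show ε (Equiv.swap 0 i (Equiv.swap 0 i l)) = ε l
    rw [Equiv.swap_apply_self]
  have hτ2 : τ (vi 0) = vi i := by rw [← hτ1, hττ]
  have hs := hSym α X (k + 2) (Equiv.swap 0 i) v0
  have hsx : ∀ (x : Cube (k + 2) α) (ε : Vx (k + 2)),
      symm (Equiv.swap 0 i) v0 x ε = x (τ ε) := fun x ε => EdgeLawM.symm_swap _ x ε
  have hprod : ∀ (F : Vx (k + 2) → ℂ) (a : Vx (k + 2)),
      ∏ ε ∈ Finset.univ.erase (τ a), F ε = ∏ ε ∈ Finset.univ.erase a, F (τ ε) := by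
    intro F a
    symm
    refine Finset.prod_bij (fun ε _ => τ ε) ?_ ?_ ?_ ?_
    · intro ε hε
      rw [Finset.mem_erase] at hε ⊢
      exact ⟨fun h => hε.1 (τ.injective h), Finset.mem_univ _⟩
    · intro a _ b _ h
      exact τ.injective h
    · intro ε hε
      rw [Finset.mem_erase] at hε
      refine ⟨τ ε, Finset.mem_erase.2 ⟨fun h => hε.1 ?_, Finset.mem_univ _⟩, hττ ε⟩
      rw [← h, hττ]
    · intro ε _
      rfl
  have m : ∀ ε : Vx (k + 2), Measurable (fun x : Cube (k + 2) α => x ε) := fun ε =>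
    measurable_pi_apply ε
  have hmp : ∀ s : Finset (Vx (k + 2)),
      Measurable (fun x : Cube (k + 2) α => ∏ ε ∈ s, g ε (x ε)) := fun s =>
    Finset.measurable_prod _ fun ε _ => (hg ε).1.comp (m ε)
  have hz := edge_zero X hExt hSym hQ hK (g := fun ε => g (τ ε)) (fun ε => hg _)
  have hL : ∫ x, V X k K (g v0) (x v0) * ∏ ε ∈ Finset.univ.erase v0, g ε (x ε) ∂(X.cm (k + 2)) =
      ∫ x, V X k K (g (τ v0)) (x v0) * ∏ ε ∈ Finset.univ.erase v0, g (τ ε) (x ε)
        ∂(X.cm (k + 2)) := by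
    have hV := VBasicM.bdd_V X k hKb (hg v0)
    have hF : Measurable (fun x : Cube (k + 2) α =>
        V X k K (g v0) (x v0) * ∏ ε ∈ Finset.univ.erase v0, g ε (x ε)) :=
      (hV.1.comp (m v0)).mul (hmp _)
    rw [← mp_int hs hF]
    refine integral_congr_ae (ae_of_all _ fun x => ?_)
    simp only [hsx, hτ0]
    congr 1
    have := hprod (fun ε => g ε (x (τ ε))) v0
    rw [hτ0] at this
    rw [this]
    refine Finset.prod_congr rfl fun ε _ => ?_
    rw [hττ]
  have hR : ∫ x, V X k (K ∘ Prod.swap) (g (vi i)) (x (vi i)) *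
        ∏ ε ∈ Finset.univ.erase (vi i), g ε (x ε) ∂(X.cm (k + 2)) =
      ∫ x, V X k (K ∘ Prod.swap) (g (τ (vi 0))) (x (vi 0)) *
        ∏ ε ∈ Finset.univ.erase (vi 0), g (τ ε) (x ε) ∂(X.cm (k + 2)) := by
    have hV := VBasicM.bdd_V X k hKb' (hg (vi i))
    have hF : Measurable (fun x : Cube (k + 2) α =>
        V X k (K ∘ Prod.swap) (g (vi i)) (x (vi i)) *
          ∏ ε ∈ Finset.univ.erase (vi i), g ε (x ε)) :=
      (hV.1.comp (m (vi i))).mul (hmp _)
    rw [← mp_int hs hF]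
    refine integral_congr_ae (ae_of_all _ fun x => ?_)
    simp only [hsx, hτ1, hτ2]
    congr 1
    have := hprod (fun ε => g ε (x (τ ε))) (vi 0)
    rw [hτ2] at this
    rw [this]
    refine Finset.prod_congr rfl fun ε _ => ?_
    rw [hττ]
  rw [hL, hR]
  exact hz

end MPd26.HK.P3
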