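import Pool.Agent.Lib.MP_d26cd8_an.HK.Spec3
import Pool.Agent.Lib.MP_d26cd8_an.HK.SymCp

/-!
# MP_d26cd8_an, block D section 3: module EDGEFUN (helper78)
-/

set_option autoImplicit false

open MeasureTheory ProbabilityTheory Filter Topology
open scoped ComplexConjugate ENNReal

namespace MPd26.HK.P3
namespace EdgeFunM

open PhDerM SymCpM

section Maps
variable {α : Type}

lemma appOn_mem {g : α → α} {n : ℕ} {F : Set (Vx n)} {x : Cube n α} {ε : Vx n} (h : ε ∈ F) :
    appOn g F x ε = g (x ε) := if_pos h

lemma appOn_notMem {g : α → α} {n : ℕ} {F : Set (Vx n)} {x : Cube n α} {ε : Vx n} (h : ε ∉ F) :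
    appOn g F x ε = x ε := if_neg h

/-- side maps in the directions `≥ 1` act on both faces -/
lemma appOn_succ_join (g : α → α) {n : ℕ} (i : Fin n) (b : Bool) (p : Cube n α × Cube n α) :
    appOn g (side i.succ b) (join p) = join (appOn g (side i b) p.1, appOn g (side i b) p.2) := by
  funext ε
  have hiff : ε ∈ side i.succ b ↔ (fun j => ε j.succ) ∈ side i b := Iff.rfl
  have e : join (appOn g (side i b) p.1, appOn g (side i b) p.2) ε =
      if ε 0 then appOn g (side i b) p.2 (fun j => ε j.succ)
      else appOn g (side i b) p.1 (fun j => ε j.succ) := rfl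
  by_cases h1 : ε ∈ side i.succ b
  · rw [e, appOn_mem h1, join_apply, appOn_mem (hiff.1 h1), appOn_mem (hiff.1 h1)]
    split_ifs <;> rfl
  · have h2 := fun h => h1 (hiff.2 h)
    rw [e, appOn_notMem h1, join_apply, appOn_notMem h2, appOn_notMem h2]

lemma vi_last_zero (n : ℕ) : (vi (Fin.last (n + 1)) : Vx (n + 2)) 0 = false := by
  unfold vi v0
  rw [Function.update_of_ne (by simp [Fin.ext_iff])]

lemma vi_last_tail (n : ℕ) :
    (fun j : Fin (n + 1) => (vi (Fin.last (n + 1)) : Vx (n + 2)) j.succ) = vi (Fin.last n) := by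
  funext j
  unfold vi v0
  by_cases h : j = Fin.last n
  · subst h
    simp
  · rw [Function.update_of_ne h, Function.update_of_ne]
    intro h2
    exact h (Fin.succ_injective _ (by rw [h2, Fin.succ_last]))

lemma join_v0 {n : ℕ} (p : Cube n α × Cube n α) : join p v0 = p.1 v0 := rfl

lemma join_vi_last {n : ℕ} (p : Cube (n + 1) α × Cube (n + 1) α) :
    join p (vi (Fin.last (n + 1))) = p.1 (vi (Fin.last n)) := by
  rw [join_apply, vi_last_zero, vi_last_tail]
  simp

end Maps

variable {α : Type} [mα : MeasurableSpace α] [StandardBorelSpace α] (X : Sys α)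

theorem edge_last (hIdT : SpecIdT) (hSide : SpecSideS) (n : ℕ) : ∀ A : Cube (n + 1) α → ℂ, Bdd A →
    (∀ i : Fin n, ∀ᵐ x ∂(X.cm (n + 1)), A (appOn X.S (side i.castSucc true) x) = A x) →
    ∃ A' : α × α → ℂ, Bdd A' ∧ ∀ᵐ x ∂(X.cm (n + 1)), A x = A' (x v0, x (vi (Fin.last n))) := by
  induction n with
  | zero =>
    intro A hA _
    have hm : Measurable (fun p : α × α => (fun ε : Vx 1 => if ε 0 then p.2 else p.1 : Cube 1 α)) := by
      refine measurable_pi_lambda _ fun ε => ?_
      by_cases h : ε 0 = true
      · simpa [h] using measurable_snd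
      · simpa [h] using measurable_fst
    refine ⟨fun p => A (fun ε => if ε 0 then p.2 else p.1), hA.comp hm, ae_of_all _ fun x => ?_⟩
    show A x = A (fun ε => if ε 0 then x (vi (Fin.last 0)) else x v0)
    congr 1
    funext ε
    by_cases h : ε 0 = true
    · have : ε = vi (Fin.last 0) := by
        funext j
        have : j = 0 := Fin.ext (by have := j.2; omega)
        subst this
        rw [h]
        rfl
      rw [if_pos h, ← this]
    · have h' : ε 0 = false := by simpa using h
      have : ε = v0 := by
        funext j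
        have : j = 0 := Fin.ext (by have := j.2; omega)
        subst this
        rw [h']
        rfl
      rw [if_neg h, ← this]
  | succ n ih =>
    intro A hA hinv
    have h0 := hinv 0
    have h0' : ∀ᵐ p ∂(relSq (X.inv_le (n + 1)) (X.cm (n + 1))),
        A (join (p.1, cmap X.S p.2)) = A (join p) := by
      have := (X.ae_cm_succ_iff (n + 1)).1 h0
      filter_upwards [this] with p hp
      rw [← hp]
      exact congrArg A (appOn_side0_join X.S p).symm
    obtain ⟨F, hF, hF2⟩ := hIdT (Cube (n + 1) α) (X.cm (n + 1)) (cmap X.S) (X.mp_cmap (n + 1))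
      (fun p => A (join p)) (hA.comp measurable_join) h0'
    have hF3 : ∀ᵐ p ∂(relSq (X.inv_le (n + 1)) (X.cm (n + 1))), A (join p) = F p.1 := hF2
    have hFinv : ∀ i : Fin n, ∀ᵐ x ∂(X.cm (n + 1)),
        F (appOn X.S (side i.castSucc true) x) = F x := by
      intro i
      have hp := (hSide α X (n + 1)).1 i.castSucc true
      have hp2 := (hSide α X (n + 2)).1 i.castSucc.succ true
      have h1 : ∀ᵐ x ∂(X.cm (n + 2)), A (appOn X.S (side i.castSucc.succ true) x) = A x := hinv i.succ
      have h2 : ∀ᵐ x ∂(X.cm (n + 2)), A x = F (lo x) := by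
        refine (X.ae_cm_succ_iff (n + 1)).2 ?_
        filter_upwards [hF3] with p hp
        rw [lo_join]
        exact hp
      have h3 := hp2.quasiMeasurePreserving.ae h2
      have h4 : ∀ᵐ x ∂(X.cm (n + 2)), F (appOn X.S (side i.castSucc true) (lo x)) = F (lo x) := by
        filter_upwards [h1, h2, h3] with x a1 a2 a3
        have h5 : lo (appOn X.S (side i.castSucc.succ true) x) =
            appOn X.S (side i.castSucc true) (lo x) := by
          obtain ⟨p, rfl⟩ := join_surj x
          rw [appOn_succ_join, lo_join, lo_join]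
        rw [← h5, ← a3, a1, a2]
      have h6 := (X.mp_lo (n + 1)).map_eq
      rw [← h6]
      refine (ae_map_iff (X.mp_lo (n + 1)).measurable.aemeasurable ?_).2 h4
      exact measurableSet_eq_fun (hF.1.comp hp.measurable) hF.1
    obtain ⟨A', hA', hA2⟩ := ih F hF hFinv
    refine ⟨A', hA', ?_⟩
    refine (X.ae_cm_succ_iff (n + 1)).2 ?_
    have h7 := (mp_relSq_fst (X.inv_le (n + 1)) (X.cm (n + 1))).quasiMeasurePreserving.ae hA2
    filter_upwards [hF3, h7] with p a1 a2
    rw [a1, a2, join_v0, join_vi_last]

end EdgeFunM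

open EdgeFunM SymCpM in
theorem specEdgeFun (hIdT : SpecIdT) (hSym : SpecSym) (hSide : SpecSideS) : SpecEdgeFun := by
  intro α _ _ X n A hA hinv
  set σ : Equiv.Perm (Fin (n + 1)) := Equiv.swap 0 (Fin.last n) with hσ
  have hmp := hSym α X (n + 1) σ v0
  have hss : ∀ x : Cube (n + 1) α, symm σ v0 (symm σ v0 x) = x := by
    intro x
    funext ε
    rw [symm_apply, symm_apply]
    congr 1
    funext i
    simp [tv, v0, hσ]
  have key := edge_last X hIdT hSide n (fun x => A (symm σ v0 x)) (hA.comp hmp.measurable) (by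
    intro i
    have hi : σ i.castSucc ≠ 0 := by
      intro h
      have : i.castSucc = Fin.last n := by
        have h2 := congrArg σ h
        rw [hσ, Equiv.swap_apply_left] at h2
        rwa [Equiv.swap_apply_self] at h2
      exact absurd this (Fin.castSucc_lt_last i).ne
    have h1 := hmp.quasiMeasurePreserving.ae (hinv _ hi)
    filter_upwards [h1] with x hx
    rw [symm_appOn]
    simpa [v0] using hx)
  obtain ⟨A', hA', h⟩ := key
  refine ⟨A', hA', ?_⟩
  have h1 := hmp.quasiMeasurePreserving.ae h
  filter_upwards [h1] with x hx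
  rw [hss] at hx
  rw [hx]
  have e1 : symm σ v0 x v0 = x v0 := by
    rw [symm_apply]
    congr 1
  have e2 : symm σ v0 x (vi (Fin.last n)) = x (vi 0) := by
    rw [symm_apply]
    congr 1
    funext i
    simp only [tv, v0, vi, Bool.xor_false]
    by_cases h : i = 0
    · subst h
      rw [hσ, Equiv.swap_apply_left]
      simp
    · have h4 : σ i ≠ Fin.last n := by
        intro h2
        apply h
        have h3 := congrArg σ h2
        rw [hσ, Equiv.swap_apply_right] at h3
        rwa [Equiv.swap_apply_self] at h3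
      rw [Function.update_of_ne h, Function.update_of_ne h4]
      rfl
  rw [e1, e2]

end MPd26.HK.P3
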