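import Pool.Agent.Lib.MP_d26cd8_an.HK.Spec3

set_option autoImplicit false

open MeasureTheory ProbabilityTheory Filter Topology
open scoped ComplexConjugate ENNReal

namespace MPd26.HK.P3

namespace HSCM

variable {H : Type} [NormedAddCommGroup H] [InnerProductSpace ℂ H]

lemma sum_le (B : H →L[ℂ] H) (M : ℝ)
    (hM : ∀ (m n : ℕ) (e : Fin m → H) (f : Fin n → H), Orthonormal ℂ e → Orthonormal ℂ f →
      ∑ i, ∑ j, ‖inner ℂ (f j) (B (e i))‖ ^ 2 ≤ M) (m : ℕ) (e : Fin m → H)
    (he : Orthonormal ℂ e) : ∑ i, ‖B (e i)‖ ^ 2 ≤ M := by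
  let W := Submodule.span ℂ (Set.range fun i => B (e i))
  have : FiniteDimensional ℂ W := FiniteDimensional.span_of_finite ℂ (Set.finite_range _)
  let b := stdOrthonormalBasis ℂ W
  let f : Fin (Module.finrank ℂ W) → H := fun j => (b j : H)
  have hf : Orthonormal ℂ f := b.orthonormal.comp_linearIsometry W.subtypeₗᵢ
  refine le_trans (le_of_eq ?_) (hM m _ e f he hf)
  refine Finset.sum_congr rfl fun i _ => ?_
  have hi : B (e i) ∈ W := Submodule.subset_span ⟨i, rfl⟩
  have := b.sum_sq_norm_inner_right ⟨B (e i), hi⟩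
  simp only [Submodule.coe_inner, Submodule.coe_norm] at this
  exact this.symm

lemma orthonormal_cons {m : ℕ} {e : Fin m → H} (he : Orthonormal ℂ e) {x : H} (hx : ‖x‖ = 1)
    (hxe : ∀ i, inner ℂ (e i) x = 0) : Orthonormal ℂ (Fin.cons x e : Fin (m + 1) → H) := by
  constructor
  · intro i
    refine Fin.cases ?_ (fun i => ?_) i
    · simpa using hx
    · simpa using he.1 i
  · intro i j hij
    revert hij
    refine Fin.cases ?_ (fun i => ?_) i <;> refine Fin.cases ?_ (fun j => ?_) j
    · intro h; exact absurd rfl h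
    · intro _
      simp only [Fin.cons_zero, Fin.cons_succ]
      rw [← inner_conj_symm, hxe j, map_zero]
    · intro _
      simpa only [Fin.cons_zero, Fin.cons_succ] using hxe i
    · intro h
      simp only [Fin.cons_succ]
      exact he.2 fun h' => h (by rw [h'])

end HSCM

open HSCM in
theorem specHSC : SpecHSC := by
  intro H _ _ _ B M hM
  -- the supremum of the sums
  let S : Set ℝ := {s | ∃ (m : ℕ) (e : Fin m → H), Orthonormal ℂ e ∧ s = ∑ i, ‖B (e i)‖ ^ 2}
  have hne : S.Nonempty := ⟨0, 0, Fin.elim0, ⟨fun i => i.elim0, fun i => i.elim0⟩, by simp⟩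
  have hbd : BddAbove S := ⟨M, by
    rintro s ⟨m, e, he, rfl⟩
    exact sum_le B M hM m e he⟩
  have key : ∀ ε : ℝ, 0 < ε → ∃ A : H →L[ℂ] H, IsCompactOperator A ∧ ‖B - A‖ ≤ ε := by
    intro ε hε
    obtain ⟨s, ⟨m, e, he, rfl⟩, hs⟩ := exists_lt_of_lt_csSup hne
      (show sSup S - ε ^ 2 < sSup S by nlinarith [hε])
    let W := Submodule.span ℂ (Set.range e)
    have : FiniteDimensional ℂ W := FiniteDimensional.span_of_finite ℂ (Set.finite_range _)
    let P : H →L[ℂ] H := W.starProjection
    have hperp : ∀ y : H, (∀ i, inner ℂ (e i) y = 0) → ‖B y‖ ≤ ε * ‖y‖ := by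
      intro y hy
      by_cases hy0 : y = 0
      · simp [hy0]
      have hyn : 0 < ‖y‖ := norm_pos_iff.2 hy0
      set c : ℂ := ((‖y‖⁻¹ : ℝ) : ℂ) with hc
      have hx1 : ‖c • y‖ = 1 := by
        rw [norm_smul, hc, Complex.norm_real, norm_inv, norm_norm, inv_mul_cancel₀ hyn.ne']
      have ho := orthonormal_cons he hx1 (fun i => by rw [inner_smul_right, hy i, mul_zero])
      have hle : ∑ i, ‖B ((Fin.cons (c • y) e : Fin (m + 1) → H) i)‖ ^ 2 ≤ sSup S :=
        le_csSup hbd ⟨m + 1, _, ho, rfl⟩
      rw [Fin.sum_univ_succ] at hle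
      simp only [Fin.cons_zero, Fin.cons_succ] at hle
      have h1 : ‖B (c • y)‖ ^ 2 ≤ ε ^ 2 := by linarith
      have h2 : ‖B (c • y)‖ ≤ ε := by
        exact (pow_le_pow_iff_left₀ (norm_nonneg _) hε.le two_ne_zero).1 h1
      rw [map_smul, norm_smul, hc, Complex.norm_real, norm_inv, norm_norm] at h2
      rw [inv_mul_le_iff₀ hyn] at h2
      linarith [h2, mul_comm ‖y‖ ε]
    refine ⟨B ∘L P, ?_, ?_⟩
    · have hP : IsCompactOperator P := by
        have : ProperSpace W := FiniteDimensional.proper ℂ W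
        have h0 : IsCompactOperator (W.orthogonalProjectionOnto : H →L[ℂ] W) :=
          isCompactOperator_of_locallyCompactSpace_dom _
        exact h0.clm_comp W.subtypeL
      exact hP.clm_comp B
    · refine ContinuousLinearMap.opNorm_le_bound _ hε.le fun x => ?_
      have h1 : (B - B ∘L P) x = B (x - P x) := by simp
      rw [h1]
      refine (hperp (x - P x) fun i => ?_).trans ?_
      · have hi : e i ∈ W := Submodule.subset_span ⟨i, rfl⟩
        have := Submodule.sub_starProjection_mem_orthogonal (K := W) x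
        exact (Submodule.mem_orthogonal W _).1 this _ hi
      · refine mul_le_mul_of_nonneg_left ?_ hε.le
        have h2 : x - P x = Wᗮ.starProjection x := by
          rw [Submodule.starProjection_orthogonal_val]
        rw [h2]
        exact Submodule.norm_starProjection_apply_le _ _
  choose A hA hAn using fun n : ℕ => key (1 / (n + 1)) (by positivity)
  refine isCompactOperator_of_tendsto (l := atTop) (F := A) (f := B) ?_
    (Eventually.of_forall hA)
  rw [tendsto_iff_norm_sub_tendsto_zero]
  refine squeeze_zero (fun n => norm_nonneg _) (fun n => ?_) tendsto_one_div_add_atTop_nhds_zero_nat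
  rw [norm_sub_rev]
  exact hAn n

end MPd26.HK.P3
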