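import Pool.Agent.Lib.MP_d26cd8_an.HK.Spec3

set_option autoImplicit false

open MeasureTheory ProbabilityTheory Filter Topology
open scoped ComplexConjugate ENNReal

namespace MPd26.HK.P3

namespace JEigM

variable {H : Type} [NormedAddCommGroup H] [InnerProductSpace ℂ H]

/-- A finite dimensional nonzero space invariant under commuting operators contains a joint
eigenvector. -/
lemma exists_joint (VV : Set (H →L[ℂ] H))
    (hcomm : ∀ A ∈ VV, ∀ B ∈ VV, A ∘L B = B ∘L A) (F : Submodule ℂ H) [FiniteDimensional ℂ F]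
    (hF : F ≠ ⊥) (hinv : ∀ A ∈ VV, ∀ x ∈ F, A x ∈ F) :
    ∃ x ∈ F, x ≠ 0 ∧ ∀ A ∈ VV, ∃ c : ℂ, A x = c • x := by
  classical
  let P : ℕ → Prop := fun n => ∃ G : Submodule ℂ H, G ≤ F ∧ G ≠ ⊥ ∧
    (∀ A ∈ VV, ∀ x ∈ G, A x ∈ G) ∧ Module.finrank ℂ G = n
  have hP : ∃ n, P n := ⟨_, F, le_rfl, hF, hinv, rfl⟩
  obtain ⟨G, hGF, hG0, hGinv, hGn⟩ := Nat.find_spec hP
  have hGmin : ∀ G' : Submodule ℂ H, G' ≤ F → G' ≠ ⊥ → (∀ A ∈ VV, ∀ x ∈ G', A x ∈ G') →
      Module.finrank ℂ G ≤ Module.finrank ℂ G' := by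
    intro G' h1 h2 h3
    rw [hGn]
    exact Nat.find_min' hP ⟨G', h1, h2, h3, rfl⟩
  have hGfd : FiniteDimensional ℂ G := Submodule.finiteDimensional_of_le hGF
  obtain ⟨x, hxG, hx0⟩ := (Submodule.ne_bot_iff G).1 hG0
  refine ⟨x, hGF hxG, hx0, fun A hA => ?_⟩
  -- `A` acts as a scalar on `G`
  have hnt : Nontrivial G := ⟨⟨⟨x, hxG⟩, 0, fun h => hx0 (by simpa using congrArg Subtype.val h)⟩⟩
  let a : G →ₗ[ℂ] G := (A : H →ₗ[ℂ] H).restrict (hGinv A hA)
  obtain ⟨c, hc⟩ := Module.End.exists_eigenvalue a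
  obtain ⟨v, hv⟩ := hc.exists_hasEigenvector
  have hva : A (v : H) = c • (v : H) := congrArg Subtype.val hv.apply_eq_smul
  let G' : Submodule ℂ H := G ⊓ Module.End.eigenspace (A : H →ₗ[ℂ] H) c
  have hG'mem : ∀ y, y ∈ G' ↔ y ∈ G ∧ A y = c • y := fun y => by
    simp [G']
  have hG'0 : G' ≠ ⊥ := by
    refine (Submodule.ne_bot_iff G').2 ⟨(v : H), (hG'mem _).2 ⟨v.2, hva⟩, fun h => ?_⟩
    exact hv.2 (Subtype.ext h)
  have hG'inv : ∀ B ∈ VV, ∀ y ∈ G', B y ∈ G' := by
    intro B hB y hy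
    obtain ⟨hyG, hyA⟩ := (hG'mem y).1 hy
    refine (hG'mem _).2 ⟨hGinv B hB y hyG, ?_⟩
    have h1 := congrArg (fun T : H →L[ℂ] H => T y) (hcomm A hA B hB)
    simp only [ContinuousLinearMap.comp_apply] at h1
    rw [h1, hyA, map_smul]
  have hle : G' ≤ G := inf_le_left
  have heq : G' = G := Submodule.eq_of_le_of_finrank_le hle
    (hGmin G' (hle.trans hGF) hG'0 hG'inv)
  have hxG' : x ∈ G' := by rw [heq]; exact hxG
  exact ⟨c, ((hG'mem x).1 hxG').2⟩

end JEigM

open JEigM in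
theorem specJEig : SpecJEig := by
  intro H _ _ _ VV BB hcomm hadj hB hker
  set J : Set H := {x : H | ∀ A ∈ VV, ∃ c : ℂ, A x = c • x} with hJ
  set N : Submodule ℂ H := (Submodule.span ℂ J).topologicalClosure with hN
  have hNclosed : IsClosed (N : Set H) := Submodule.isClosed_topologicalClosure _
  have hJN : J ⊆ N := fun x hx => Submodule.le_topologicalClosure _ (Submodule.subset_span hx)
  -- operators commuting with `VV` preserve `N`
  have hCN : ∀ C : H →L[ℂ] H, (∀ A ∈ VV, A ∘L C = C ∘L A) → ∀ x ∈ N, C x ∈ N := by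
    intro C hC
    have h1 : ∀ x ∈ Submodule.span ℂ J, C x ∈ N := by
      intro x hx
      refine Submodule.span_induction ?_ ?_ ?_ ?_ hx
      · intro y hy
        refine hJN fun A hA => ?_
        obtain ⟨c, hc⟩ := hy A hA
        refine ⟨c, ?_⟩
        have h2 := congrArg (fun T : H →L[ℂ] H => T y) (hC A hA)
        simp only [ContinuousLinearMap.comp_apply] at h2
        rw [h2, hc, map_smul]
      · rw [map_zero]; exact N.zero_mem
      · intro y z _ _ hy hz
        rw [map_add]; exact N.add_mem hy hz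
      · intro c y _ hy
        rw [map_smul]; exact N.smul_mem c hy
    intro x hx
    have h2 : x ∈ closure ((Submodule.span ℂ J : Submodule ℂ H) : Set H) := by
      rw [← Submodule.topologicalClosure_coe]; exact hx
    have h3 : Set.MapsTo C (closure ((Submodule.span ℂ J : Submodule ℂ H) : Set H))
        (closure (N : Set H)) := Set.MapsTo.closure (fun y hy => h1 y hy) C.continuous
    have := h3 h2
    rwa [hNclosed.closure_eq] at this
  by_contra hne
  have hNperp : Nᗮ ≠ ⊥ := by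
    intro h
    have : CompleteSpace N := hNclosed.completeSpace_coe
    exact hne ((Submodule.orthogonal_eq_bot_iff (K := N)).1 h)
  obtain ⟨y, hyN, hy0⟩ := (Submodule.ne_bot_iff _).1 hNperp
  obtain ⟨B, hBB, hBy⟩ : ∃ B ∈ BB, B y ≠ 0 := by
    by_contra h
    push Not at h
    exact hy0 (hker y h)
  obtain ⟨hBc, hBV⟩ := hB B hBB
  set C : H →L[ℂ] H := (ContinuousLinearMap.adjoint B) ∘L B with hC
  have hCcomm : ∀ A ∈ VV, A ∘L C = C ∘L A := by
    intro A hA
    have h1 := hBV _ (hadj A hA)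
    have h2 := congrArg ContinuousLinearMap.adjoint h1
    rw [ContinuousLinearMap.adjoint_comp, ContinuousLinearMap.adjoint_comp,
      ContinuousLinearMap.adjoint_adjoint] at h2
    rw [hC, ← ContinuousLinearMap.comp_assoc, ← h2, ContinuousLinearMap.comp_assoc,
      hBV A hA, ContinuousLinearMap.comp_assoc]
  have hCc : IsCompactOperator C := hBc.clm_comp (ContinuousLinearMap.adjoint B)
  have hCinner : ∀ u v : H, inner ℂ (C u) v = inner ℂ (B u) (B v) := by
    intro u v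
    rw [hC, ContinuousLinearMap.comp_apply, ContinuousLinearMap.adjoint_inner_left]
  have hCsymm : C.IsSymmetric := by
    intro u v
    change inner ℂ (C u) v = inner ℂ u (C v)
    rw [hCinner u v, ← inner_conj_symm u (C v), hCinner v u, inner_conj_symm]
  have hCperp : ∀ x ∈ Nᗮ, C x ∈ Nᗮ := by
    intro x hx
    rw [Submodule.mem_orthogonal]
    intro u hu
    have : inner ℂ u (C x) = inner ℂ (C u) x := (hCsymm u x).symm
    rw [this]
    exact (Submodule.mem_orthogonal N x).1 hx _ (hCN C hCcomm u hu)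
  have hVperp : ∀ A ∈ VV, ∀ x ∈ Nᗮ, A x ∈ Nᗮ := by
    intro A hA x hx
    rw [Submodule.mem_orthogonal]
    intro u hu
    rw [← ContinuousLinearMap.adjoint_inner_left]
    refine (Submodule.mem_orthogonal N x).1 hx _ (hCN _ (fun A' hA' => ?_) u hu)
    exact hcomm _ hA' _ (hadj A hA)
  -- restriction to `Nᗮ`
  have hpc : IsClosed ((Nᗮ : Submodule ℂ H) : Set H) := Submodule.isClosed_orthogonal N
  have : CompleteSpace (Nᗮ : Submodule ℂ H) := hpc.completeSpace_coe
  let T : (Nᗮ : Submodule ℂ H) →L[ℂ] (Nᗮ : Submodule ℂ H) := C.restrict hCperp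
  have hTc : IsCompactOperator T := hCc.restrict' hCperp
  have hTs : T.IsSymmetric := hCsymm.restrict_invariant hCperp
  have hT0 : T ≠ 0 := by
    intro h
    have h1 : T ⟨y, hyN⟩ = 0 := by rw [h]; rfl
    have h2 : C y = 0 := congrArg Subtype.val h1
    have h3 : inner ℂ (C y) y = inner ℂ (B y) (B y) := hCinner y y
    rw [h2, inner_zero_left] at h3
    exact hBy (inner_self_eq_zero.1 h3.symm)
  obtain ⟨ν, hν, hν0⟩ : ∃ ν : ℂ, Module.End.HasEigenvalue (T : Module.End ℂ (Nᗮ : Submodule ℂ H)) ν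
      ∧ ν ≠ 0 := by
    by_contra h
    push Not at h
    exact hT0 ((ContinuousLinearMap.eq_zero_of_forall_hasEigenvalue_eq_zero hTc hTs).1 h)
  obtain ⟨v, hv⟩ := hν.exists_hasEigenvector
  have hvC : C (v : H) = ν • (v : H) := congrArg Subtype.val hv.apply_eq_smul
  let F : Submodule ℂ H := Module.End.eigenspace (C : H →ₗ[ℂ] H) ν ⊓ Nᗮ
  have hfd : FiniteDimensional ℂ (Module.End.eigenspace (C : H →ₗ[ℂ] H) ν) :=
    ContinuousLinearMap.finite_dimensional_eigenspace hCc ν hν0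
  have hFfd : FiniteDimensional ℂ F := Submodule.finiteDimensional_of_le inf_le_left
  have hF0 : F ≠ ⊥ := by
    refine (Submodule.ne_bot_iff F).2 ⟨(v : H), ⟨?_, v.2⟩, fun h => hv.2 (Subtype.ext h)⟩
    exact Module.End.mem_eigenspace_iff.2 hvC
  have hFinv : ∀ A ∈ VV, ∀ x ∈ F, A x ∈ F := by
    rintro A hA x ⟨hx1, hx2⟩
    refine ⟨?_, hVperp A hA x hx2⟩
    have hx1' : C x = ν • x := Module.End.mem_eigenspace_iff.1 hx1
    refine Module.End.mem_eigenspace_iff.2 ?_
    have h1 := congrArg (fun T : H →L[ℂ] H => T x) (hCcomm A hA)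
    simp only [ContinuousLinearMap.comp_apply] at h1
    change C (A x) = ν • A x
    rw [← h1, hx1', map_smul]
  obtain ⟨x, hxF, hx0, hxJ⟩ := exists_joint VV hcomm F hF0 hFinv
  have hxN : x ∈ N := hJN hxJ
  have hxx : inner ℂ x x = (0 : ℂ) := (Submodule.mem_orthogonal N x).1 hxF.2 x hxN
  exact hx0 (inner_self_eq_zero.1 hxx)

end MPd26.HK.P3
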