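import Pool.Agent.Lib.MP_d26cd8_an.HK.Spec3

/-!
# MP_d26cd8_an, block D, section 3: general facts used in RANK1, UNIMOD, DENSE (helper87)
-/

set_option autoImplicit false

open MeasureTheory ProbabilityTheory Filter Topology
open scoped ComplexConjugate ENNReal

namespace MPd26.HK.P3.GenM

section CE
variable {A : Type} {m : MeasurableSpace A} [mA : MeasurableSpace A]

lemma bdd_ind {s : Set A} (hs : MeasurableSet s) : Bdd (s.indicator fun _ => (1 : ℂ)) := by
  refine ⟨measurable_const.indicator hs, 1, fun x => ?_⟩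
  by_cases hx : x ∈ s <;> simp [hx]

/-- A bounded measurable version of the conditional expectation. -/
lemma exists_condExp_version (hm : m ≤ mA)
    (μ : Measure A) [IsFiniteMeasure μ] {f : A → ℂ} (hf : Bdd f) :
    ∃ g : A → ℂ, Measurable[m] g ∧ Bdd g ∧ g =ᵐ[μ] μ[f | m] := by
  obtain ⟨hfm, C, hC⟩ := hf
  have h1 : StronglyMeasurable[m] (μ[f | m]) := stronglyMeasurable_condExp
  have h2 : ∀ᵐ x ∂μ, ‖(μ[f | m]) x‖ ≤ C :=
    ae_bdd_norm_condExp_of_ae_bdd_norm (ae_of_all _ hC)
  have hs : MeasurableSet[m] {x | ‖(μ[f | m]) x‖ ≤ C} :=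
    h1.norm.measurable measurableSet_Iic
  have hg : Measurable[m] (({x | ‖(μ[f | m]) x‖ ≤ C}).indicator (μ[f | m])) :=
    (h1.indicator hs).measurable
  refine ⟨({x | ‖(μ[f | m]) x‖ ≤ C}).indicator (μ[f | m]), hg,
    ⟨hg.mono hm le_rfl, |C|, fun x => ?_⟩, ?_⟩
  · by_cases hx : x ∈ {x | ‖(μ[f | m]) x‖ ≤ C}
    · rw [Set.indicator_of_mem hx]; exact le_trans hx (le_abs_self C)
    · rw [Set.indicator_of_notMem hx, norm_zero]; exact abs_nonneg C
  · filter_upwards [h2] with x hx
    rw [Set.indicator_of_mem (show x ∈ {x | ‖(μ[f | m]) x‖ ≤ C} from hx)]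

/-- `∫ f g = ∫ f E(g|m)` for `f` measurable with respect to `m`. -/
lemma integral_mul_ce (hm : m ≤ mA)
    (μ : Measure A) [IsFiniteMeasure μ] {f g : A → ℂ} (hf : AEStronglyMeasurable[m] f μ)
    (hfg : Integrable (fun x => f x * g x) μ) (hg : Integrable g μ) :
    ∫ x, f x * g x ∂μ = ∫ x, f x * (μ[g | m]) x ∂μ := by
  rw [← integral_condExp hm (f := fun x => f x * g x)]
  exact integral_congr_ae (condExp_mul_left hf hfg hg)

end CE

variable {A B : Type} [mA : MeasurableSpace A] [MeasurableSpace B]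

/-- Integrating out the second coordinate. -/
lemma exists_ce [StandardBorelSpace B] [Nonempty B] (C : Measure (A × B))
    [IsProbabilityMeasure C] {g : A × B → ℂ} (hgm : Measurable g) (hg : Integrable g C) :
    ∃ u : A → ℂ, Measurable u ∧ Integrable u (C.map Prod.fst) ∧
      ∀ M : A → ℂ, Bdd M → ∫ p, M p.1 * g p ∂C = ∫ a, M a * u a ∂(C.map Prod.fst) := by
  have hd : C.fst ⊗ₘ C.condKernel = C := C.disintegrate C.condKernel
  have hfst : C.map Prod.fst = C.fst := rfl
  rw [hfst]
  have hg' : Integrable g (C.fst ⊗ₘ C.condKernel) := by rw [hd]; exact hg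
  have hum : StronglyMeasurable fun a => ∫ y, g (a, y) ∂(C.condKernel a) :=
    hgm.stronglyMeasurable.integral_kernel_prod_right'
  have hui : Integrable (fun a => ∫ y, g (a, y) ∂(C.condKernel a)) C.fst := by
    have h1 := ((Measure.integrable_compProd_iff hg'.aestronglyMeasurable).1 hg').2
    refine h1.mono' hum.aestronglyMeasurable (ae_of_all _ fun a => ?_)
    exact norm_integral_le_integral_norm _
  refine ⟨fun a => ∫ y, g (a, y) ∂(C.condKernel a), hum.measurable, hui, ?_⟩
  intro M hM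
  have h2 : Integrable (fun p : A × B => M p.1 * g p) (C.fst ⊗ₘ C.condKernel) := by
    obtain ⟨hMm, K, hK⟩ := hM
    exact hg'.bdd_mul (hMm.comp measurable_fst).aestronglyMeasurable (ae_of_all _ fun p => hK p.1)
  have h1 : ∫ p, M p.1 * g p ∂C = ∫ p, M p.1 * g p ∂(C.fst ⊗ₘ C.condKernel) := by rw [hd]
  rw [h1, Measure.integral_compProd h2]
  refine integral_congr_ae (ae_of_all _ fun a => ?_)
  exact integral_const_mul (M a) _

/-- Functions orthogonal to all bounded functions vanish. -/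
lemma ae_zero {μ : Measure A} [IsFiniteMeasure μ] {u : A → ℂ} (hu : Integrable u μ)
    (h : ∀ M : A → ℂ, Bdd M → ∫ a, M a * u a ∂μ = 0) : u =ᵐ[μ] 0 := by
  refine hu.ae_eq_zero_of_forall_setIntegral_eq_zero fun s hs _ => ?_
  have h1 := h (s.indicator fun _ => 1) (bdd_ind hs)
  rw [← integral_indicator hs]
  rw [← h1]
  refine integral_congr_ae (ae_of_all _ fun a => ?_)
  by_cases ha : a ∈ s <;> simp [ha]

/-- Functions invariant in the weak sense are invariant. -/
lemma inv_of {ν : Measure A} [IsProbabilityMeasure ν] {T T' : A → A}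
    (hT : MeasurePreserving T ν ν) (hT' : Measurable T') (h1 : ∀ x, T' (T x) = x) {u : A → ℂ}
    (hum : Measurable u) (hu : Integrable u ν)
    (h : ∀ M : A → ℂ, Bdd M → ∫ a, M (T a) * u a ∂ν = ∫ a, M a * u a ∂ν) :
    ∀ᵐ a ∂ν, u (T a) = u a := by
  have hi : Integrable (fun a => u (T a)) ν := hT.integrable_comp_of_integrable hu
  have h2 : (fun a => u (T a) - u a) =ᵐ[ν] 0 := by
    refine ae_zero (hi.sub hu) fun N hN => ?_
    have e1 : ∫ a, N a * u (T a) ∂ν = ∫ a, N a * u a ∂ν := by
      have h3 : ∫ a, N a * u (T a) ∂ν = ∫ a, (fun b => N (T' b) * u b) (T a) ∂ν := by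
        refine integral_congr_ae (ae_of_all _ fun a => ?_)
        simp only [h1]
      have h4 : ∫ a, (fun b => N (T' b) * u b) (T a) ∂ν = ∫ b, N (T' b) * u b ∂ν := by
        have hm : AEStronglyMeasurable (fun b => N (T' b) * u b) (ν.map T) :=
          ((hN.1.comp hT').mul hum).aestronglyMeasurable
        have h5 := integral_map hT.measurable.aemeasurable hm
        rw [hT.map_eq] at h5
        exact h5.symm
      rw [h3, h4, ← h (fun b => N (T' b)) (hN.comp hT')]
      refine integral_congr_ae (ae_of_all _ fun a => ?_)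
      simp only [h1]
    have h6 : Integrable (fun a => N a * u (T a)) ν := by
      obtain ⟨hm, K, hK⟩ := hN
      exact hi.bdd_mul hm.aestronglyMeasurable (ae_of_all _ hK)
    have h7 : Integrable (fun a => N a * u a) ν := by
      obtain ⟨hm, K, hK⟩ := hN
      exact hu.bdd_mul hm.aestronglyMeasurable (ae_of_all _ hK)
    have h8 : (fun a => N a * (u (T a) - u a)) = fun a => N a * u (T a) - N a * u a := by
      funext a; ring
    rw [h8, integral_sub h6 h7, e1, sub_self]
  filter_upwards [h2] with a ha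
  exact sub_eq_zero.1 ha

/-- `f / (1 + ‖f‖)`. -/
noncomputable def tr (z : ℂ) : ℂ := z / ((1 + ‖z‖ : ℝ) : ℂ)

/-- The inverse of `tr`. -/
noncomputable def itr (z : ℂ) : ℂ := z / ((1 - ‖z‖ : ℝ) : ℂ)

lemma norm_tr (z : ℂ) : ‖tr z‖ = ‖z‖ / (1 + ‖z‖) := by
  unfold tr
  have h : (0 : ℝ) < 1 + ‖z‖ := by positivity
  rw [norm_div, Complex.norm_real, Real.norm_eq_abs, abs_of_pos h]

lemma norm_tr_le (z : ℂ) : ‖tr z‖ ≤ 1 := by
  rw [norm_tr, div_le_one (by positivity)]
  linarith

lemma itr_tr (z : ℂ) : itr (tr z) = z := by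
  unfold itr
  rw [norm_tr]
  have h : (0 : ℝ) < 1 + ‖z‖ := by positivity
  have h1 : (1 - ‖z‖ / (1 + ‖z‖) : ℝ) = 1 / (1 + ‖z‖) := by
    field_simp
    ring
  rw [h1]
  unfold tr
  have h2 : ((1 + ‖z‖ : ℝ) : ℂ) ≠ 0 := by exact_mod_cast h.ne'
  push_cast at h2 ⊢
  field_simp

lemma measurable_tr : Measurable tr :=
  measurable_id.div (Complex.measurable_ofReal.comp (measurable_const.add measurable_norm))

lemma measurable_itr : Measurable itr :=
  measurable_id.div (Complex.measurable_ofReal.comp (measurable_const.sub measurable_norm))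

lemma bdd_tr {f : A → ℂ} (hf : Measurable f) : Bdd (fun x => tr (f x)) :=
  ⟨measurable_tr.comp hf, 1, fun x => norm_tr_le _⟩

/-- invariant functions, not necessarily bounded -/
lemma aesm_inv (hInv : SpecInvFun) {ν : Measure A} [IsProbabilityMeasure ν] {T : A → A}
    (hT : MeasurePreserving T ν ν) {u : A → ℂ} (hum : Measurable u)
    (h : ∀ᵐ a ∂ν, u (T a) = u a) : AEStronglyMeasurable[MeasurableSpace.invariants T] u ν := by
  have h1 := (hInv A ν T hT (fun x => tr (u x)) (bdd_tr hum)).1 (by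
    filter_upwards [h] with a ha
    rw [ha])
  obtain ⟨v, hv, huv⟩ := h1
  refine ⟨fun x => itr (v x), (measurable_itr.comp hv.measurable).stronglyMeasurable, ?_⟩
  filter_upwards [huv] with a ha
  rw [← ha, itr_tr]

end MPd26.HK.P3.GenM
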