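import Pool.Agent.Lib.MP_d26cd8_an.HK.P3_Q2
import Pool.Agent.Lib.MP_d26cd8_an.HK.P3_Gen
import Pool.Agent.Lib.MP_d26cd8_an.HK.P3_Edge

/-!
# MP_d26cd8_an, block D section 3: module KEY (helper78)

In a pair of cubes which differ only on an edge, the last point is a function of the three other
points of the two edges.
-/

set_option autoImplicit false

open MeasureTheory ProbabilityTheory Filter Topology
open scoped ComplexConjugate ENNReal

namespace MPd26.HK.P3
namespace KeyM

open EdgeM GenM Q2M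

/-- conditional expectation given a map -/
lemma exists_ce_map {Ω Ω' : Type} [mΩ : MeasurableSpace Ω] [MeasurableSpace Ω'] (ρ : Measure Ω)
    [IsProbabilityMeasure ρ] {π : Ω → Ω'} (hπ : Measurable π) {a : Ω → ℂ} (ha : Bdd a) :
    ∃ G : Ω' → ℂ, Bdd G ∧ ∀ H : Ω' → ℂ, Bdd H →
      ∫ x, H (π x) * a x ∂ρ = ∫ x, H (π x) * G (π x) ∂ρ := by
  have hmle : MeasurableSpace.comap π inferInstance ≤ mΩ := hπ.comap_le
  obtain ⟨a', ha'm, ha', ha'e⟩ := DualM.version hmle ρ ha
  obtain ⟨G, hG, haG⟩ := DualM.factor (p := π) ha'm ha'.2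
  refine ⟨G, hG, fun H hH => ?_⟩
  have hHm : Measurable[MeasurableSpace.comap π inferInstance] (fun x => H (π x)) :=
    hH.1.comp (comap_measurable _)
  rw [DualM.integral_pull hmle ρ (hH.comp hπ) hHm.stronglyMeasurable.aestronglyMeasurable ha]
  refine integral_congr_ae ?_
  filter_upwards [ha'e] with x hx
  rw [← hx, haG x]

variable {α : Type} [mα : MeasurableSpace α] [StandardBorelSpace α] (X : Sys α) {k : ℕ}
  {Q : Measure (Cube (k + 2) α × Cube (k + 2) α)}

omit [StandardBorelSpace α] in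
lemma mv {n : ℕ} (ε : Vx n) : Measurable (fun x : Cube n α => x ε) := measurable_pi_apply ε

/-- the edge -/
def ed (x : Cube (k + 2) α) : α × α := (x v0, x (vi 0))

/-- `(a, a', b)` -/
def tt (p : Cube (k + 2) α × Cube (k + 2) α) : (α × α) × α := ((p.1 v0, p.2 v0), p.1 (vi 0))

omit [StandardBorelSpace α] in
lemma measurable_ed : Measurable (ed : Cube (k + 2) α → α × α) := (mv v0).prodMk (mv (vi 0))

omit [StandardBorelSpace α] in
lemma measurable_tt : Measurable (tt : Cube (k + 2) α × Cube (k + 2) α → (α × α) × α) :=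
  (((mv v0).comp measurable_fst).prodMk ((mv v0).comp measurable_snd)).prodMk
    ((mv (vi 0)).comp measurable_fst)

lemma mp_snd (hQ : IsQ2 X k Q) : MeasurePreserving Prod.snd Q (X.cm (k + 2)) :=
  hQ.fst.comp hQ.swap

/-- the function of the last point in terms of the first cube and `a'` -/
lemma hat (hC : SpecCompl) (hO : Ord X k) (hQ : IsQ2 X k Q) {f : α → ℂ} (hf : Bdd f) :
    ∃ F : Cube (k + 2) α × α → ℂ, Bdd F ∧ ∀ᵐ p ∂Q, f (p.2 (vi 0)) = F (p.1, p.2 v0) := by
  classical
  have h1 := hC α X k hO (vi 0) f hf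
  have hle := others_le (α := α) (vi 0 : Vx (k + 2))
  have hb : Bdd (fun x : Cube (k + 2) α => f (x (vi 0))) := hf.comp (mv _)
  obtain ⟨g, hgm, hg, hge⟩ := DualM.version hle (X.cm (k + 2)) hb
  have h2 := hge.trans (condExp_of_aestronglyMeasurable' hle h1 (hb.integrable _))
  obtain ⟨F0, hF0, hgF⟩ := DualM.factor (p := rst (vi 0 : Vx (k + 2))) hgm hg.2
  set r : Cube (k + 2) α × α → ({η : Vx (k + 2) // η ≠ vi 0} → α) :=
    fun q η => if η.1 = v0 then q.2 else q.1 η.1 with hr
  have hrm : Measurable r := by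
    refine measurable_pi_lambda _ fun η => ?_
    by_cases h : η.1 = v0
    · have e : (fun q => r q η) = fun q => q.2 := by
        funext q; exact if_pos h
      rw [e]
      exact measurable_snd
    · have e : (fun q => r q η) = fun q => q.1 η.1 := by
        funext q; exact if_neg h
      rw [e]
      exact (mv η.1).comp measurable_fst
  refine ⟨fun q => F0 (r q), hF0.comp hrm, ?_⟩
  have h3 := (mp_snd X hQ).quasiMeasurePreserving.ae h2
  filter_upwards [h3, hQ.same] with p a1 a2
  rw [← a1, hgF]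
  congr 1
  funext η
  show p.2 η.1 = if η.1 = v0 then p.2 v0 else p.1 η.1
  by_cases h : η.1 = v0
  · rw [if_pos h, h]
  · rw [if_neg h]
    exact (a2 η.1 h η.2).symm

/-- conditional expectations on the edge -/
lemma star (hZP : SpecZeroProd) (hQ : IsQ2 X k Q) {H : Cube (k + 2) α → ℂ} (hH : Bdd H) :
    ∃ H' : α × α → ℂ, Bdd H' ∧
      (∀ M : α × α → ℂ, Bdd M → ∫ x, M (ed x) * H x ∂(X.cm (k + 2)) =
        ∫ x, M (ed x) * H' (ed x) ∂(X.cm (k + 2))) ∧
      ∀ Ψ : (α × α) × α → ℂ, Bdd Ψ →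
        ∫ p, Ψ (tt p) * H p.1 ∂Q = ∫ p, Ψ (tt p) * H' (ed p.1) ∂Q := by
  have := Q_prob X hQ
  obtain ⟨H', hH', hce⟩ := exists_ce_map (X.cm (k + 2)) (measurable_ed (k := k)) hH
  refine ⟨H', hH', hce, fun Ψ hΨ => ?_⟩
  have ha : Bdd (fun p : Cube (k + 2) α × Cube (k + 2) α => H p.1 - H' (ed p.1)) :=
    (hH.comp measurable_fst).sub (hH'.comp (measurable_ed.comp measurable_fst))
  have hm : Measurable (fun q : (α × α) × α => ((q.1.1, q.2), q.1.2)) :=
    ((measurable_fst.comp measurable_fst).prodMk measurable_snd).prodMk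
      (measurable_snd.comp measurable_fst)
  have key := integral_zero_of_products (ρ := Q) hZP
    (p1 := fun p : Cube (k + 2) α × Cube (k + 2) α => ed p.1)
    (p2 := fun p : Cube (k + 2) α × Cube (k + 2) α => p.2 v0)
    (measurable_ed.comp measurable_fst) ((mv v0).comp measurable_snd) ha ?_
    (fun q => Ψ ((q.1.1, q.2), q.1.2)) (hΨ.comp hm)
  · have hΨt := hΨ.comp (measurable_tt (α := α) (k := k))
    rw [← sub_eq_zero, ← integral_sub]
    · rw [← key]
      refine integral_congr_ae (ae_of_all _ fun p => ?_)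
      show Ψ (tt p) * H p.1 - Ψ (tt p) * H' (ed p.1) = (H p.1 - H' (ed p.1)) * Ψ (tt p)
      ring
    · exact (hΨt.mul (hH.comp measurable_fst)).integrable _
    · exact (hΨt.mul (hH'.comp (measurable_ed.comp measurable_fst))).integrable _
  · intro f1 f2 hf1 hf2
    obtain ⟨f2', hf2'm, hf2', hf2'e⟩ := DualM.version (X.Z k).le X.μ hf2
    have hK : Bdd (fun x : Cube (k + 2) α => (H x - H' (ed x)) * f1 (ed x)) :=
      (hH.sub (hH'.comp measurable_ed)).mul (hf1.comp measurable_ed)
    have e1 := hQ.cond f2 _ hf2 hK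
    have e2 : ∫ p, (H p.1 - H' (ed p.1)) * (f1 (ed p.1) * f2 (p.2 v0)) ∂Q =
        ∫ p, (H p.1 - H' (ed p.1)) * f1 (ed p.1) * f2 (p.2 v0) ∂Q := by
      refine integral_congr_ae (ae_of_all _ fun p => ?_)
      show (H p.1 - H' (ed p.1)) * (f1 (ed p.1) * f2 (p.2 v0)) =
        (H p.1 - H' (ed p.1)) * f1 (ed p.1) * f2 (p.2 v0)
      ring
    rw [e2]
    refine e1.trans ?_
    have hM : Bdd (fun q : α × α => f1 q * f2' q.1) := hf1.mul (hf2'.comp measurable_fst)
    have e3 := hce _ hM
    have e4 : ∫ x, (H x - H' (ed x)) * f1 (ed x) * (X.μ[f2 | (X.Z k).σ]) (x v0) ∂(X.cm (k + 2)) =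
        ∫ x, (f1 (ed x) * f2' (ed x).1) * H x ∂(X.cm (k + 2)) -
          ∫ x, (f1 (ed x) * f2' (ed x).1) * H' (ed x) ∂(X.cm (k + 2)) := by
      rw [← integral_sub]
      · refine integral_congr_ae ?_
        filter_upwards [(X.mp_marg (k + 2) v0).quasiMeasurePreserving.ae_eq_comp hf2'e] with x hx
        have hx' : f2' (x v0) = (X.μ[f2 | (X.Z k).σ]) (x v0) := hx
        rw [← hx']
        show (H x - H' (ed x)) * f1 (ed x) * f2' (x v0) =
          (f1 (ed x) * f2' (x v0)) * H x - (f1 (ed x) * f2' (x v0)) * H' (ed x)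
        ring
      · exact ((hM.comp measurable_ed).mul hH).integrable _
      · exact ((hM.comp measurable_ed).mul (hH'.comp measurable_ed)).integrable _
    rw [e4, e3, sub_self]

/-- the integral of `f(b') g(a') H(c)` depends only on the conditional expectation of `H` -/
lemma main (hEF : SpecEdgeFun) (hSide : SpecSideS) (hQ : IsQ2 X k Q) {f g : α → ℂ} (hf : Bdd f)
    (hg : Bdd g) {H : Cube (k + 2) α → ℂ} (hH : Bdd H) {H' : α × α → ℂ} (hH' : Bdd H')
    (hce : ∀ M : α × α → ℂ, Bdd M → ∫ x, M (ed x) * H x ∂(X.cm (k + 2)) =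
        ∫ x, M (ed x) * H' (ed x) ∂(X.cm (k + 2))) :
    ∫ p, H p.1 * (f (p.2 (vi 0)) * g (p.2 v0)) ∂Q =
      ∫ p, H' (ed p.1) * (f (p.2 (vi 0)) * g (p.2 v0)) ∂Q := by
  have := Q_prob X hQ
  set a : Cube (k + 2) α × Cube (k + 2) α → ℂ := fun p => f (p.2 (vi 0)) * g (p.2 v0) with ha
  have hab : Bdd a := (hf.comp ((mv _).comp measurable_snd)).mul
    (hg.comp ((mv _).comp measurable_snd))
  obtain ⟨u, hu, hua⟩ := exists_ce_map Q (π := Prod.fst) measurable_fst hab
  have hint : ∀ M : Cube (k + 2) α → ℂ, Bdd M →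
      ∫ p, M p.1 * a p ∂Q = ∫ x, M x * u x ∂(X.cm (k + 2)) := by
    intro M hM
    rw [hua M hM]
    exact mp_int hQ.fst (hM.mul hu).1
  have hinv : ∀ i : Fin (k + 2), i ≠ 0 →
      ∀ᵐ x ∂(X.cm (k + 2)), u (appOn X.S (side i true) x) = u x := by
    intro i hi
    have hT := (hSide α X (k + 2)).1 i true
    have hT' : Measurable (appOn X.S.symm (side i true) : Cube (k + 2) α → Cube (k + 2) α) := by
      refine measurable_pi_lambda _ fun ε => ?_
      by_cases h : ε ∈ (side i true : Set (Vx (k + 2)))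
      · have e : (fun x : Cube (k + 2) α => appOn X.S.symm (side i true) x ε) =
            fun x => X.S.symm (x ε) := by
          funext x; exact EdgeFunM.appOn_mem h
        rw [e]
        exact X.S.symm.measurable.comp (mv ε)
      · have e : (fun x : Cube (k + 2) α => appOn X.S.symm (side i true) x ε) =
            fun x => x ε := by
          funext x; exact EdgeFunM.appOn_notMem h
        rw [e]
        exact mv ε
    refine inv_of (ν := X.cm (k + 2)) hT hT' (fun x => ?_) hu.1 (hu.integrable _) fun M hM => ?_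
    · exact appOn_symm (S := X.S.toEquiv) (side i true) x
    · rw [← hint M hM, ← hint _ (hM.comp hT.measurable)]
      have h1 := mp_int (hQ.side i true) (F := fun p => M p.1 * a p)
        ((hM.comp measurable_fst).mul hab).1
      rw [← h1]
      refine integral_congr_ae (ae_of_all _ fun p => ?_)
      have n0 : (v0 : Vx (k + 2)) ∉ (side i true : Set (Vx (k + 2))) := by
        simp [side, v0]
      have n1 : (vi 0 : Vx (k + 2)) ∉ (side i true : Set (Vx (k + 2))) := by
        simp [side, vi, v0, Function.update_of_ne hi]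
      show M (appOn X.S (side i true) p.1) * (f (p.2 (vi 0)) * g (p.2 v0)) =
        M (appOn X.S (side i true) p.1) * (f (appOn X.S (side i true) p.2 (vi 0)) *
          g (appOn X.S (side i true) p.2 v0))
      rw [EdgeFunM.appOn_notMem n0, EdgeFunM.appOn_notMem n1]
  obtain ⟨A, hA, huA⟩ := hEF α X (k + 1) u hu hinv
  rw [hint H hH, hint (fun x => H' (ed x)) (hH'.comp measurable_ed)]
  have e1 : ∫ x, H x * u x ∂(X.cm (k + 2)) = ∫ x, A (ed x) * H x ∂(X.cm (k + 2)) := by
    refine integral_congr_ae ?_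
    filter_upwards [huA] with x hx
    rw [hx]
    exact mul_comm _ _
  have e2 : ∫ x, H' (ed x) * u x ∂(X.cm (k + 2)) = ∫ x, A (ed x) * H' (ed x) ∂(X.cm (k + 2)) := by
    refine integral_congr_ae ?_
    filter_upwards [huA] with x hx
    rw [hx]
    exact mul_comm _ _
  rw [e1, e2, hce A hA]

end KeyM

open KeyM EdgeM Q2M in
theorem specKey (hC : SpecCompl) (hEF : SpecEdgeFun) (hZP : SpecZeroProd) (hSide : SpecSideS) :
    SpecKey := by
  intro α _ _ X hX k hO Q hQ f hf
  have := Q_prob X hQ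
  obtain ⟨F, hF, hFe⟩ := hat X hC hO hQ hf
  have hfb : Bdd (fun p : Cube (k + 2) α × Cube (k + 2) α => f (p.2 (vi 0))) :=
    hf.comp ((mv _).comp measurable_snd)
  obtain ⟨G, hG, hGe⟩ := exists_ce_map Q (π := tt) measurable_tt hfb
  refine ⟨G, hG, ?_⟩
  -- the difference
  have hπ : Measurable (fun p : Cube (k + 2) α × Cube (k + 2) α => (p.1, p.2 v0)) :=
    measurable_fst.prodMk ((mv v0).comp measurable_snd)
  have : IsProbabilityMeasure (Q.map fun p => (p.1, p.2 v0)) :=
    Measure.isProbabilityMeasure_map hπ.aemeasurable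
  have hr : Measurable (fun q : Cube (k + 2) α × α => ((q.1 v0, q.2), q.1 (vi 0))) :=
    (((mv v0).comp measurable_fst).prodMk measurable_snd).prodMk ((mv (vi 0)).comp measurable_fst)
  set D : Cube (k + 2) α × α → ℂ := fun q => F q - G ((q.1 v0, q.2), q.1 (vi 0)) with hD
  have hDb : Bdd D := hF.sub (hG.comp hr)
  have key : D =ᵐ[Q.map fun p => (p.1, p.2 v0)] 0 := by
    refine hZP _ _ _ D (hDb.integrable _) fun H g hH hg => ?_
    have hHg : Bdd (fun q : Cube (k + 2) α × α => D q * (H q.1 * g q.2)) :=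
      hDb.mul ((hH.comp measurable_fst).mul (hg.comp measurable_snd))
    rw [integral_map hπ.aemeasurable hHg.1.aestronglyMeasurable]
    obtain ⟨H', hH', hce, hst⟩ := star X hZP hQ hH
    have hm := main X hEF hSide hQ hf hg hH hH' hce
    -- the part with `G`
    have hΨ : Bdd (fun t : (α × α) × α => G t * g t.1.2) :=
      hG.mul (hg.comp (measurable_snd.comp measurable_fst))
    have e1 := hst _ hΨ
    have hN : Bdd (fun t : (α × α) × α => g t.1.2 * H' (t.1.1, t.2)) :=
      (hg.comp (measurable_snd.comp measurable_fst)).mul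
        (hH'.comp ((measurable_fst.comp measurable_fst).prodMk measurable_snd))
    have e2 := hGe _ hN
    have i1 : Integrable (fun p : Cube (k + 2) α × Cube (k + 2) α =>
        H p.1 * (f (p.2 (vi 0)) * g (p.2 v0))) Q :=
      ((hH.comp measurable_fst).mul (hfb.mul (hg.comp ((mv _).comp measurable_snd)))).integrable _
    have i2 : Integrable (fun p : Cube (k + 2) α × Cube (k + 2) α =>
        G (tt p) * g (tt p).1.2 * H p.1) Q :=
      ((hΨ.comp measurable_tt).mul (hH.comp measurable_fst)).integrable _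
    have e3 : ∫ p, D (p.1, p.2 v0) * (H p.1 * g (p.2 v0)) ∂Q =
        ∫ p, H p.1 * (f (p.2 (vi 0)) * g (p.2 v0)) ∂Q -
          ∫ p, G (tt p) * g (tt p).1.2 * H p.1 ∂Q := by
      rw [← integral_sub i1 i2]
      refine integral_congr_ae ?_
      filter_upwards [hFe] with p hp
      show (F (p.1, p.2 v0) - G ((p.1 v0, p.2 v0), p.1 (vi 0))) * (H p.1 * g (p.2 v0)) =
        H p.1 * (f (p.2 (vi 0)) * g (p.2 v0)) -
          G ((p.1 v0, p.2 v0), p.1 (vi 0)) * g (p.2 v0) * H p.1
      rw [hp]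
      ring
    show ∫ p, D (p.1, p.2 v0) * (H p.1 * g (p.2 v0)) ∂Q = 0
    rw [e3, sub_eq_zero, hm, e1]
    have e4 : ∫ p, G (tt p) * g (tt p).1.2 * H' (ed p.1) ∂Q =
        ∫ p, g (tt p).1.2 * H' ((tt p).1.1, (tt p).2) * G (tt p) ∂Q := by
      refine integral_congr_ae (ae_of_all _ fun p => ?_)
      show G (tt p) * g (p.2 v0) * H' (p.1 v0, p.1 (vi 0)) =
        g (p.2 v0) * H' (p.1 v0, p.1 (vi 0)) * G (tt p)
      ring
    rw [e4]
    refine Eq.trans ?_ e2
    refine integral_congr_ae (ae_of_all _ fun p => ?_)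
    show H' (p.1 v0, p.1 (vi 0)) * (f (p.2 (vi 0)) * g (p.2 v0)) =
      g (p.2 v0) * H' (p.1 v0, p.1 (vi 0)) * f (p.2 (vi 0))
    ring
  have h1 := ae_of_ae_map hπ.aemeasurable key
  filter_upwards [hFe, h1] with p a1 a2
  have a3 : F (p.1, p.2 v0) - G ((p.1 v0, p.2 v0), p.1 (vi 0)) = 0 := a2
  rw [a1]
  exact sub_eq_zero.1 a3

end MPd26.HK.P3
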