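import Pool.Agent.Lib.MP_d26cd8_an.HK.Spec3

/-!
# MP_d26cd8_an, block D, section 3: module OP (operators from couplings)
-/

set_option autoImplicit false

open MeasureTheory ProbabilityTheory Filter Topology
open scoped ComplexConjugate ENNReal

namespace MPd26.HK.P3

/-- OP -/
theorem specOp : SpecOp := by
  intro Ω α _ _ ρ μ _ _ s t hs ht G hG
  have hGm : MemLp G ⊤ ρ := by
    obtain ⟨hm, C, hC⟩ := hG
    exact memLp_top_of_bound hm.aestronglyMeasurable C (ae_of_all _ hC)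
  let Us : Lp ℂ 2 μ →L[ℂ] Lp ℂ 2 ρ :=
    (Lp.compMeasurePreservingₗᵢ (p := 2) (E := ℂ) ℂ s hs).toContinuousLinearMap
  let Ut : Lp ℂ 2 μ →L[ℂ] Lp ℂ 2 ρ :=
    (Lp.compMeasurePreservingₗᵢ (p := 2) (E := ℂ) ℂ t ht).toContinuousLinearMap
  let M : Lp ℂ 2 ρ →L[ℂ] Lp ℂ 2 ρ :=
    (ContinuousLinearMap.mul ℂ ℂ).holderL ρ ⊤ 2 2 (hGm.toLp G)
  have hUs : ∀ f : Lp ℂ 2 μ, (Us f : Ω → ℂ) =ᵐ[ρ] fun ω => f (s ω) := fun f =>
    Lp.coeFn_compMeasurePreserving f hs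
  have hUt : ∀ f : Lp ℂ 2 μ, (Ut f : Ω → ℂ) =ᵐ[ρ] fun ω => f (t ω) := fun f =>
    Lp.coeFn_compMeasurePreserving f ht
  have hM : ∀ f : Lp ℂ 2 ρ, (M f : Ω → ℂ) =ᵐ[ρ] fun ω => G ω * f ω := by
    intro f
    have h1 := ContinuousLinearMap.coeFn_holder (r := 2) (ContinuousLinearMap.mul ℂ ℂ)
      (hGm.toLp G) f
    have h2 := hGm.coeFn_toLp
    have h3 : (M f : Ω → ℂ) =ᵐ[ρ] fun ω =>
        (ContinuousLinearMap.mul ℂ ℂ) ((hGm.toLp G : Lp ℂ ⊤ ρ) ω) (f ω) := h1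
    filter_upwards [h3, h2] with ω h3 h2
    rw [h3, h2]
    rfl
  refine ⟨(ContinuousLinearMap.adjoint Ut) ∘L M ∘L Us, ?_⟩
  intro f h
  rw [ContinuousLinearMap.comp_apply, ContinuousLinearMap.adjoint_inner_right,
    ContinuousLinearMap.comp_apply, L2.inner_def]
  refine integral_congr_ae ?_
  filter_upwards [hUt h, hM (Us f), hUs f] with ω h1 h2 h3
  rw [h1, h2, h3]
  simp [RCLike.inner_apply]

end MPd26.HK.P3
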