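import Pool.Agent.Lib.MP_d26cd8_an.HK.Spec3
import Pool.Agent.Lib.MP_d26cd8_an.HK.Ph

/-!
# MP_d26cd8_an, block D, section 3: module PHASESORD (helper81)

`L²(X)` is spanned by `L^∞(Z_k)·P_{k+2}(V|Z_k)` for systems of order `k + 1`.
-/

set_option autoImplicit false

open MeasureTheory ProbabilityTheory Filter Topology
open scoped ComplexConjugate ENNReal

namespace MPd26.HK.P3
namespace PhasesOrdM

section
variable {α : Type} [mα : MeasurableSpace α] {μ : Measure α}

lemma integrable_sq {g : α → ℂ} (hg : MemLp g 2 μ) : Integrable (fun x => ‖g x‖ ^ 2) μ := by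
  have h : MemLp g ((2 : ℕ) : ℝ≥0∞) μ := by exact_mod_cast hg
  exact h.integrable_norm_pow two_ne_zero

/-- Sums in `L²`. -/
lemma dist2_sum_le {r : ℕ} {g h : Fin r → α → ℂ} (hg : ∀ i, MemLp (g i) 2 μ)
    (hh : ∀ i, MemLp (h i) 2 μ) :
    dist2 μ (fun x => ∑ i, g i x) (fun x => ∑ i, h i x) ≤ r * ∑ i, dist2 μ (g i) (h i) := by
  have hi : ∀ i, Integrable (fun x => ‖g i x - h i x‖ ^ 2) μ := fun i =>
    integrable_sq ((hg i).sub (hh i))
  unfold dist2
  rw [← integral_finsetSum _ fun i _ => hi i, ← integral_const_mul]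
  refine integral_mono_of_nonneg (ae_of_all _ fun x => by positivity)
    ((integrable_finsetSum _ fun i _ => hi i).const_mul _) (ae_of_all _ fun x => ?_)
  have h1 : ‖∑ i, g i x - ∑ i, h i x‖ ≤ ∑ i, ‖g i x - h i x‖ := by
    rw [← Finset.sum_sub_distrib]
    exact norm_sum_le _ _
  calc ‖∑ i, g i x - ∑ i, h i x‖ ^ 2 ≤ (∑ i, ‖g i x - h i x‖) ^ 2 :=
        pow_le_pow_left₀ (norm_nonneg _) h1 2
    _ ≤ (Finset.univ : Finset (Fin r)).card * ∑ i, ‖g i x - h i x‖ ^ 2 :=
        sq_sum_le_card_mul_sum_sq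
    _ = r * ∑ i, ‖g i x - h i x‖ ^ 2 := by simp

/-- Truncation. -/
noncomputable def tr (b : α → ℂ) (n : ℕ) (x : α) : ℂ := if ‖b x‖ ≤ n then b x else 0

lemma bdd_tr {b : α → ℂ} (hb : Measurable b) (n : ℕ) : Bdd (tr b n) := by
  refine ⟨Measurable.ite (measurableSet_le hb.norm measurable_const) hb measurable_const, n,
    fun x => ?_⟩
  unfold tr
  split_ifs with h
  · exact h
  · simp

omit mα in
lemma meas_tr {m : MeasurableSpace α} {b : α → ℂ} (hb : Measurable[m] b) (n : ℕ) :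
    Measurable[m] (tr b n) :=
  Measurable.ite (measurableSet_le hb.norm measurable_const) hb measurable_const

/-- The truncations converge in `L²`. -/
lemma tendsto_tr {f b φ : α → ℂ} (hf : MemLp f 2 μ) (hb : Measurable b) (hφ : IsPhase φ)
    (hfb : ∀ᵐ x ∂μ, f x = b x * φ x) :
    Tendsto (fun n => dist2 μ f (fun x => tr b n x * φ x)) atTop (𝓝 0) := by
  have hfm := hf.aestronglyMeasurable
  have h1 : Tendsto (fun n => ∫ x, ‖f x - tr b n x * φ x‖ ^ 2 ∂μ) atTop
      (𝓝 (∫ x, (0 : ℝ) ∂μ)) := by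
    refine tendsto_integral_of_dominated_convergence (fun x => ‖f x‖ ^ 2)
      (fun n => ((hfm.sub ((bdd_tr hb n).1.mul hφ.1).aestronglyMeasurable).norm.pow 2))
      (integrable_sq hf) ?_ ?_
    · intro n
      filter_upwards [hfb] with x hx
      rw [Real.norm_of_nonneg (by positivity)]
      refine pow_le_pow_left₀ (norm_nonneg _) ?_ 2
      unfold tr
      split_ifs
      · rw [hx, sub_self, norm_zero]; positivity
      · rw [zero_mul, sub_zero]
    · filter_upwards [hfb] with x hx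
      obtain ⟨N, hN⟩ := exists_nat_ge ‖b x‖
      refine tendsto_const_nhds.congr' ?_
      filter_upwards [eventually_ge_atTop N] with n hn
      have : ‖b x‖ ≤ n := hN.trans (by exact_mod_cast hn)
      rw [tr, if_pos this, hx, sub_self, norm_zero]
      norm_num
  simpa [dist2] using h1

end

end PhasesOrdM

open PhasesOrdM in
theorem specPhasesOrd (hQ2 : SpecQ2) (hConf : SpecConf) (hR1 : SpecRank1) (hU : SpecUnimod)
    (hT : SpecType) (hD : SpecDense) : SpecPhasesOrd := by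
  intro α _ _ X hX k hO f hf η hη
  obtain ⟨Q, hQ⟩ := hQ2 α X hX k
  have hC := hConf α X hX k hO Q hQ
  -- one joint eigenfunction
  have key : ∀ g : α → ℂ, JE X k g → ∀ ε : ℝ, 0 < ε → ∃ b φ : α → ℂ,
      (Bdd b ∧ Measurable[(X.Z k).σ] b ∧ X.Ph (X.Z k) (k + 2) φ) ∧
      dist2 X.μ g (fun x => b x * φ x) ≤ ε := by
    intro g hg ε hε
    by_cases h0 : g =ᵐ[X.μ] 0
    · refine ⟨fun _ => 0, fun _ => 1, ⟨Bdd.const 0, measurable_const,
        PhM.Ph.const (by simp)⟩, ?_⟩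
      have h1 : (fun _ : α => (0 : ℂ) * 1) = 0 := by funext x; simp
      rw [h1, dist2_congr h0 (Filter.EventuallyEq.refl _ _), dist2_self]
      exact hε.le
    · obtain ⟨q, hqm, hq1, hq⟩ := hR1 α X hX k _ hC g hg h0
      obtain ⟨b, φ, hφ, hb, hfb, hφC⟩ := hU α X hX k _ hC g hg.1 h0 q hqm hq1 hq
      have hF : Measurable (fun p : Cube (k + 2) α × Cube (k + 2) α =>
          ((p.1 v0, p.2 v0), (p.1 (vi 0), p.2 (vi 0)))) := by
        have e1 : ∀ ε : Vx (k + 2), Measurable (fun p : Cube (k + 2) α × Cube (k + 2) α => p.1 ε) :=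
          fun ε => (measurable_pi_apply ε).comp measurable_fst
        have e2 : ∀ ε : Vx (k + 2), Measurable (fun p : Cube (k + 2) α × Cube (k + 2) α => p.2 ε) :=
          fun ε => (measurable_pi_apply ε).comp measurable_snd
        exact ((e1 _).prodMk (e2 _)).prodMk ((e1 _).prodMk (e2 _))
      have hφQ := ae_of_ae_map hF.aemeasurable hφC
      have hPh := hT α X hX k hO Q hQ φ hφ hφQ
      have hbm : Measurable b := hb.mono (X.Z k).le le_rfl
      have hlim := tendsto_tr hg.2.1 hbm hφ hfb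
      obtain ⟨n, hn⟩ := ((tendsto_order.1 hlim).2 ε hε).exists
      exact ⟨tr b n, φ, ⟨bdd_tr hbm n, meas_tr hb n, hPh⟩, hn.le⟩
  obtain ⟨r, g, hg, hfg⟩ := hD α X hX k hO f hf (η / 4) (by positivity)
  choose b φ hb hd using fun i => key (g i) (hg i) (η / (4 * ((r : ℝ) + 1) ^ 2)) (by positivity)
  refine ⟨r, b, φ, hb, ?_⟩
  have hm1 : ∀ i, MemLp (g i) 2 X.μ := fun i => (hg i).2.1
  have hbb : ∀ i, Bdd (fun x => b i x * φ i x) := fun i => (hb i).1.mul (hb i).2.2.1.bdd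
  have hm2 : ∀ i, MemLp (fun x => b i x * φ i x) 2 X.μ := fun i => (hbb i).memLp _ _
  have hs1 : MemLp (fun x => ∑ i, g i x) 2 X.μ := memLp_finsetSum _ fun i _ => hm1 i
  have hs2 : MemLp (fun x => ∑ i, b i x * φ i x) 2 X.μ := memLp_finsetSum _ fun i _ => hm2 i
  have h1 := dist2_triangle' (hf.memLp X.μ 2) hs1 hs2
  have h2 := dist2_sum_le hm1 hm2
  have h3 : (r : ℝ) * ∑ i, dist2 X.μ (g i) (fun x => b i x * φ i x)
      ≤ r * (r * (η / (4 * ((r : ℝ) + 1) ^ 2))) := by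
    refine mul_le_mul_of_nonneg_left ?_ (Nat.cast_nonneg r)
    calc ∑ i, dist2 X.μ (g i) (fun x => b i x * φ i x)
        ≤ ∑ _i : Fin r, η / (4 * ((r : ℝ) + 1) ^ 2) := Finset.sum_le_sum fun i _ => hd i
      _ = r * (η / (4 * ((r : ℝ) + 1) ^ 2)) := by simp
  have h4 : (r : ℝ) * (r * (η / (4 * ((r : ℝ) + 1) ^ 2))) ≤ η / 4 := by
    have hr : (0 : ℝ) ≤ r := Nat.cast_nonneg r
    have e : (r : ℝ) * (r * (η / (4 * ((r : ℝ) + 1) ^ 2))) = (r / (r + 1)) ^ 2 * (η / 4) := by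
      field_simp
    rw [e]
    have : (r : ℝ) / (r + 1) ≤ 1 := by
      rw [div_le_one (by positivity)]; linarith
    have h5 : ((r : ℝ) / (r + 1)) ^ 2 ≤ 1 := pow_le_one₀ (by positivity) this
    calc ((r : ℝ) / (r + 1)) ^ 2 * (η / 4) ≤ 1 * (η / 4) :=
          mul_le_mul_of_nonneg_right h5 (by positivity)
      _ = η / 4 := one_mul _
  linarith

end MPd26.HK.P3
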