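import Pool.Agent.Lib.MP_d26cd8_an.HK.P3_Gen

/-!
# MP_d26cd8_an, block D, section 3: module RANK1 (helper87)
-/

set_option autoImplicit false

open MeasureTheory ProbabilityTheory Filter Topology
open scoped ComplexConjugate ENNReal

namespace MPd26.HK.P3

namespace Rank1M

open GenM

section
variable {α : Type} [MeasurableSpace α] [StandardBorelSpace α] {X : Sys α} {k : ℕ}
  {C : Measure ((α × α) × (α × α))}

lemma prob (hC : IsConf X k C) : IsProbabilityMeasure C := by
  constructor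
  have h := hC.fst.measure_preimage (s := Set.univ) MeasurableSet.univ.nullMeasurableSet
  simpa using h

lemma map_fst (hC : IsConf X k C) : C.map Prod.fst = R X k := hC.fst.map_eq

lemma mp22 (hC : IsConf X k C) : MeasurePreserving (fun p => p.2.2) C X.μ :=
  (mp_relSq_snd (X.Z k).le X.μ).comp hC.snd

lemma mp21 (hC : IsConf X k C) : MeasurePreserving (fun p => p.2.1) C X.μ :=
  (mp_relSq_fst (X.Z k).le X.μ).comp hC.snd

omit [StandardBorelSpace α] in
lemma measurable_S2 : Measurable (S2 X) := X.S.measurable.prodMap X.S.measurable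

/-- `S × S` preserves `R`. -/
lemma mpS2 (hC : IsConf X k C) : MeasurePreserving (S2 X) (R X k) (R X k) := by
  refine ⟨measurable_S2, ?_⟩
  have h1 : (Prod.fst : (α × α) × (α × α) → α × α) ∘ (Prod.map (S2 X) id) =
      S2 X ∘ Prod.fst := rfl
  rw [← map_fst hC, Measure.map_map measurable_S2 measurable_fst, ← h1,
    ← Measure.map_map measurable_fst (measurable_S2.prodMap measurable_id), hC.invl.map_eq]

/-- change of variables for `invl` -/
lemma int_invl (hC : IsConf X k C) {F : (α × α) × (α × α) → ℂ} (hF : Measurable F) :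
    ∫ p, F (S2 X p.1, p.2) ∂C = ∫ p, F p ∂C := by
  have h1 := integral_map (μ := C) (hC.invl.measurable.aemeasurable)
    (f := F) hF.aestronglyMeasurable
  rw [hC.invl.map_eq] at h1
  exact h1.symm

omit [StandardBorelSpace α] in
lemma S2_symm (p : α × α) : Prod.map X.S.symm X.S.symm (S2 X p) = p := by
  obtain ⟨a, b⟩ := p
  simp [S2]

/-- a marginal function which is invariant in the weak sense -/
lemma inv_R (hC : IsConf X k C) {u : α × α → ℂ} (hum : Measurable u) (hu : Integrable u (R X k))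
    (h : ∀ M : α × α → ℂ, Bdd M →
      ∫ a, M (S2 X a) * u a ∂(R X k) = ∫ a, M a * u a ∂(R X k)) :
    ∀ᵐ a ∂(R X k), u (S2 X a) = u a :=
  inv_of (T' := Prod.map X.S.symm X.S.symm) (mpS2 hC)
    (X.S.symm.measurable.prodMap X.S.symm.measurable) S2_symm hum hu h

lemma ae_fst (hC : IsConf X k C) {P : α × α → Prop} (h : ∀ᵐ a ∂(R X k), P a) :
    ∀ᵐ p ∂C, P p.1 := hC.fst.quasiMeasurePreserving.ae h

end

lemma modulus {A α Ω : Type} [MeasurableSpace A] [MeasurableSpace α] [MeasurableSpace Ω]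
    {ρ : Measure A} {μ : Measure α} {C : Measure Ω} [IsProbabilityMeasure ρ]
    [IsProbabilityMeasure μ] {s t : Ω → A × α} (hs : MeasurePreserving s C (ρ.prod μ))
    (ht : MeasurePreserving t C (ρ.prod μ)) (hst : ∀ p, (t p).1 = (s p).1) {q : A → ℂ} {f : α → ℂ}
    (hq : Measurable q) (hf : Measurable f) (h : ∀ᵐ p ∂C, f (t p).2 = q (s p).1 * f (s p).2)
    (hF0 : ∫⁻ x, ‖f x‖ₑ ^ 2 ∂μ ≠ 0) (hFt : ∫⁻ x, ‖f x‖ₑ ^ 2 ∂μ ≠ ⊤) :
    ∀ᵐ a ∂ρ, ‖q a‖ = 1 := by
  have hfe : Measurable fun x => ‖f x‖ₑ ^ 2 := hf.enorm.pow_const 2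
  have hqe : Measurable fun x => ‖q x‖ₑ ^ 2 := hq.enorm.pow_const 2
  have key : ∀ M : A → ℝ≥0∞, Measurable M →
      ∫⁻ a, M a ∂ρ = ∫⁻ a, M a * ‖q a‖ₑ ^ 2 ∂ρ := by
    intro M hM
    have l1 : ∫⁻ p, M (s p).1 * ‖f (t p).2‖ₑ ^ 2 ∂C = (∫⁻ a, M a ∂ρ) * ∫⁻ x, ‖f x‖ₑ ^ 2 ∂μ := by
      have hg : Measurable fun z : A × α => M z.1 * ‖f z.2‖ₑ ^ 2 :=
        (hM.comp measurable_fst).mul (hfe.comp measurable_snd)
      have e1 := ht.lintegral_comp hg
      have e2 : ∫⁻ p, M (s p).1 * ‖f (t p).2‖ₑ ^ 2 ∂C =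
          ∫⁻ p, M (t p).1 * ‖f (t p).2‖ₑ ^ 2 ∂C := by
        refine lintegral_congr fun p => ?_
        rw [hst]
      rw [e2, e1]
      exact lintegral_prod_mul hM.aemeasurable hfe.aemeasurable
    have l2 : ∫⁻ p, M (s p).1 * ‖f (t p).2‖ₑ ^ 2 ∂C =
        (∫⁻ a, M a * ‖q a‖ₑ ^ 2 ∂ρ) * ∫⁻ x, ‖f x‖ₑ ^ 2 ∂μ := by
      have hg : Measurable fun z : A × α => (M z.1 * ‖q z.1‖ₑ ^ 2) * ‖f z.2‖ₑ ^ 2 :=
        ((hM.mul hqe).comp measurable_fst).mul (hfe.comp measurable_snd)
      have e1 := hs.lintegral_comp hg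
      have e0 : ∫⁻ p, M (s p).1 * ‖f (t p).2‖ₑ ^ 2 ∂C =
          ∫⁻ p, (M (s p).1 * ‖q (s p).1‖ₑ ^ 2) * ‖f (s p).2‖ₑ ^ 2 ∂C := by
        refine lintegral_congr_ae ?_
        filter_upwards [h] with p hp
        rw [hp, enorm_mul, mul_pow, mul_assoc]
      rw [e0, e1]
      exact lintegral_prod_mul (hM.mul hqe).aemeasurable hfe.aemeasurable
    rw [l1] at l2
    exact (ENNReal.mul_left_inj hF0 hFt).1 l2
  have hmod : (fun a => ‖q a‖ₑ ^ 2) =ᵐ[ρ] fun _ => (1 : ℝ≥0∞) := by
    refine ae_eq_of_forall_setLIntegral_eq_of_sigmaFinite hqe measurable_const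
      fun s hs _ => ?_
    have h1 := key (s.indicator fun _ => 1) (measurable_const.indicator hs)
    rw [← lintegral_indicator hs, ← lintegral_indicator hs, h1]
    refine lintegral_congr fun a => ?_
    by_cases ha : a ∈ s <;> simp [ha]
  filter_upwards [hmod] with a ha
  have h2 : ‖q a‖ₑ ^ 2 = 1 := ha
  have h3 := congrArg ENNReal.toReal h2
  rw [ENNReal.toReal_pow, toReal_enorm, ENNReal.toReal_one] at h3
  have h4 := norm_nonneg (q a)
  nlinarith

end Rank1M

open GenM Rank1M in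
/-- RANK1 -/
theorem specRank1 (hInv : SpecInvFun) (hZP : SpecZeroProd) : SpecRank1 := by
  intro α _ _ X _ k C hC f hf hf0
  obtain ⟨hfm, hf2, hθ⟩ := hf
  have : Nonempty α := X.μ.nonempty_of_neZero
  have : IsProbabilityMeasure C := prob hC
  have : IsProbabilityMeasure (R X k) := inferInstance
  have hfi : Integrable f X.μ := hf2.integrable one_le_two
  -- the test function
  set h0 : α → ℂ := fun x => conj (tr (f x)) with hh0
  have hh0b : Bdd h0 := (bdd_tr hfm).conj
  set c0 : ℂ := ∫ x, f x * h0 x ∂X.μ with hc0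
  have hmulb : ∀ {g h : α → ℂ}, Integrable g X.μ → Bdd h → Integrable (fun x => g x * h x) X.μ := by
    intro g h hg hh
    obtain ⟨hm, K, hK⟩ := hh
    exact hg.mul_bdd hm.aestronglyMeasurable (ae_of_all _ hK)
  have hc00 : c0 ≠ 0 := by
    intro h
    have e1 : ∀ x, f x * h0 x = ((‖f x‖ ^ 2 / (1 + ‖f x‖) : ℝ) : ℂ) := by
      intro x
      simp only [hh0, tr, map_div₀, Complex.conj_ofReal]
      rw [← mul_div_assoc, Complex.mul_conj, Complex.normSq_eq_norm_sq]
      push_cast
      ring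
    have e2 : c0 = ((∫ x, ‖f x‖ ^ 2 / (1 + ‖f x‖) ∂X.μ : ℝ) : ℂ) := by
      exact (integral_congr_ae (ae_of_all _ e1)).trans integral_ofReal
    rw [h] at e2
    have e3 : ∫ x, ‖f x‖ ^ 2 / (1 + ‖f x‖) ∂X.μ = 0 := by exact_mod_cast e2.symm
    have e4 : Integrable (fun x => ‖f x‖ ^ 2 / (1 + ‖f x‖)) X.μ := by
      have e5 : Integrable (fun x => (f x * h0 x).re) X.μ := (hmulb hfi hh0b).re
      refine e5.congr (ae_of_all _ fun x => ?_)
      simp only [e1 x, Complex.ofReal_re]
    rw [integral_eq_zero_iff_of_nonneg (fun x => by positivity) e4] at e3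
    apply hf0
    filter_upwards [e3] with x hx
    have hx' : ‖f x‖ ^ 2 / (1 + ‖f x‖) = 0 := hx
    have h2 : (0 : ℝ) < 1 + ‖f x‖ := by positivity
    rcases div_eq_zero_iff.1 hx' with h3 | h3
    · simpa using h3
    · exact absurd h3 h2.ne'
  have m22 := mp22 hC
  have m21 := mp21 hC
  have i22 : Integrable (fun p : (α × α) × (α × α) => f p.2.2) C :=
    m22.integrable_comp_of_integrable hfi
  have mf22 : Measurable (fun p : (α × α) × (α × α) => f p.2.2) :=
    hfm.comp (measurable_snd.comp measurable_snd)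
  have mf21 : Measurable (fun p : (α × α) × (α × α) => f p.2.1) :=
    hfm.comp (measurable_fst.comp measurable_snd)
  have m21' : Measurable (fun p : (α × α) × (α × α) => p.2.1) :=
    measurable_fst.comp measurable_snd
  have hDm : ∀ {h : α → ℂ}, Bdd h →
      Measurable (fun p : (α × α) × (α × α) => f p.2.2 * h p.2.1) := fun hh =>
    mf22.mul (hh.1.comp m21')
  have hDi : ∀ {h : α → ℂ}, Bdd h →
      Integrable (fun p : (α × α) × (α × α) => f p.2.2 * h p.2.1) C := by
    intro h hh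
    obtain ⟨hm, K, hK⟩ := hh
    exact i22.mul_bdd (hm.comp m21').aestronglyMeasurable (ae_of_all _ fun p => hK _)
  obtain ⟨u, hum, hui, hu⟩ := exists_ce C (hDm hh0b) (hDi hh0b)
  rw [map_fst hC] at hui hu
  set q : α × α → ℂ := fun a => c0⁻¹ * u a with hq
  have hqm : Measurable q := measurable_const.mul hum
  have hqi : Integrable q (R X k) := hui.const_mul _
  have hcq : ∀ a, c0 * q a = u a := fun a => by
    simp only [hq]
    rw [← mul_assoc, mul_inv_cancel₀ hc00, one_mul]
  -- invariance of `u`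
  have huinv : ∀ᵐ a ∂(R X k), u (S2 X a) = u a := by
    refine inv_R hC hum hui fun M hM => ?_
    have e1 := hu (fun a => M (S2 X a)) (hM.comp measurable_S2)
    rw [← e1, ← hu M hM]
    exact int_invl hC (F := fun p => M p.1 * (f p.2.2 * h0 p.2.1))
      ((hM.1.comp measurable_fst).mul (hDm hh0b))
  have hqinv : ∀ᵐ a ∂(R X k), q (S2 X a) = q a := by
    filter_upwards [huinv] with a ha
    simp only [hq, ha]
  -- the kernel formula
  have hker0 : ∀ K : α × α → ℂ, IK X K → ∀ h : α → ℂ, Bdd h →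
      ∃ θ : ℂ, (∀ h : α → ℂ, Bdd h →
        ∫ p, K p.1 * (f p.2.2 * h p.2.1) ∂C = θ * ∫ x, f x * h x ∂X.μ) := by
    intro K hK _ _
    obtain ⟨θ, hθK⟩ := hθ K hK
    refine ⟨θ, fun h hh => ?_⟩
    rw [← hθK h hh]
    have hKm : Measurable K := hK.1.mono (MeasurableSpace.invariants_le _) le_rfl
    have hFm : Measurable (fun p : α × α => K p * f p.2 * h p.1) :=
      (hKm.mul (hfm.comp measurable_snd)).mul (hh.1.comp measurable_fst)
    have e1 := integral_map (μ := C) hC.snd.measurable.aemeasurable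
      (f := fun p : α × α => K p * f p.2 * h p.1) hFm.aestronglyMeasurable
    rw [hC.snd.map_eq] at e1
    rw [e1]
    refine integral_congr_ae ?_
    filter_upwards [hC.ker K hK] with p hp
    rw [hp]
    ring
  have hker : ∀ K : α × α → ℂ, IK X K → ∀ h : α → ℂ, Bdd h →
      ∫ p, K p.1 * (f p.2.2 * h p.2.1) ∂C = (∫ a, K a * q a ∂(R X k)) *
        ∫ x, f x * h x ∂X.μ := by
    intro K hK h hh
    obtain ⟨θ, hθK⟩ := hker0 K hK h hh
    have hKm : Measurable K := hK.1.mono (MeasurableSpace.invariants_le _) le_rfl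
    have hKb : Bdd K := ⟨hKm, hK.2⟩
    have e1 := hθK h0 hh0b
    rw [hu K hKb] at e1
    have e2 : ∫ a, K a * u a ∂(R X k) = c0 * ∫ a, K a * q a ∂(R X k) := by
      rw [← integral_const_mul]
      refine integral_congr_ae (ae_of_all _ fun a => ?_)
      simp only [← hcq a]
      ring
    rw [e2] at e1
    have e3 : ∫ a, K a * q a ∂(R X k) = θ := by
      have : c0 * ∫ a, K a * q a ∂(R X k) = c0 * θ := by rw [e1, ← hc0]; ring
      exact mul_left_cancel₀ hc00 this
    rw [hθK h hh, e3]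
  -- integrability of the second term
  have hmind := hC.ind
  have hqf : Integrable (fun p : (α × α) × (α × α) => q p.1 * f p.2.1) C := by
    have h1 : Integrable (fun z : (α × α) × α => q z.1 * f z.2) ((R X k).prod X.μ) :=
      hqi.mul_prod hfi
    exact hmind.integrable_comp_of_integrable h1
  have mqf : Measurable (fun p : (α × α) × (α × α) => q p.1 * f p.2.1) :=
    (hqm.comp measurable_fst).mul mf21
  -- orthogonality
  have hort : ∀ (M : α × α → ℂ) (h : α → ℂ), Bdd M → Bdd h →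
      ∫ p, M p.1 * ((f p.2.2 - q p.1 * f p.2.1) * h p.2.1) ∂C = 0 := by
    intro M h hM hh
    have hgm : Measurable (fun p : (α × α) × (α × α) =>
        (f p.2.2 - q p.1 * f p.2.1) * h p.2.1) := (mf22.sub mqf).mul (hh.1.comp m21')
    have hgi : Integrable (fun p : (α × α) × (α × α) =>
        (f p.2.2 - q p.1 * f p.2.1) * h p.2.1) C := by
      obtain ⟨hm, K, hK⟩ := hh
      exact (i22.sub hqf).mul_bdd (hm.comp m21').aestronglyMeasurable (ae_of_all _ fun p => hK _)
    obtain ⟨w, hwm, hwi, hw⟩ := exists_ce C hgm hgi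
    rw [map_fst hC] at hwi hw
    have hwinv : ∀ᵐ a ∂(R X k), w (S2 X a) = w a := by
      refine inv_R hC hwm hwi fun M hM => ?_
      have e1 := hw (fun a => M (S2 X a)) (hM.comp measurable_S2)
      rw [← e1, ← hw M hM, ← int_invl hC
        (F := fun p => M p.1 * ((f p.2.2 - q p.1 * f p.2.1) * h p.2.1))
        ((hM.1.comp measurable_fst).mul hgm)]
      refine integral_congr_ae ?_
      filter_upwards [ae_fst hC hqinv] with p hp
      simp only [hp]
    have hws := aesm_inv hInv (mpS2 hC) hwm hwinv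
    obtain ⟨K, hKm, hKb, hKe⟩ := exists_condExp_version (m := MeasurableSpace.invariants (S2 X))
      (MeasurableSpace.invariants_le _) (R X k) hM
    have hKI : IK X K := ⟨hKm, hKb.2⟩
    have hwM : Integrable (fun a => w a * M a) (R X k) := by
      obtain ⟨hm, B, hB⟩ := hM
      exact hwi.mul_bdd hm.aestronglyMeasurable (ae_of_all _ hB)
    have e2 : ∫ a, M a * w a ∂(R X k) = ∫ a, K a * w a ∂(R X k) := by
      have e3 := integral_mul_ce (MeasurableSpace.invariants_le (S2 X)) (R X k) hws hwM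
        (hM.integrable _)
      have e4 : ∫ a, M a * w a ∂(R X k) = ∫ a, w a * M a ∂(R X k) :=
        integral_congr_ae (ae_of_all _ fun a => mul_comm _ _)
      rw [e4, e3]
      refine integral_congr_ae ?_
      filter_upwards [hKe] with a ha
      rw [ha, mul_comm]
    rw [hw M hM, e2, ← hw K hKb]
    have i1 : Integrable (fun p : (α × α) × (α × α) => K p.1 * (f p.2.2 * h p.2.1)) C := by
      obtain ⟨hm, B, hB⟩ := hKb
      exact (hDi hh).bdd_mul (hm.comp measurable_fst).aestronglyMeasurable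
        (ae_of_all _ fun p => hB _)
    have i2 : Integrable (fun p : (α × α) × (α × α) =>
        K p.1 * q p.1 * (f p.2.1 * h p.2.1)) C := by
      have h1 : Integrable (fun a => K a * q a) (R X k) := by
        obtain ⟨hm, B, hB⟩ := hKb
        exact hqi.bdd_mul hm.aestronglyMeasurable (ae_of_all _ hB)
      have h2 : Integrable (fun z : (α × α) × α => (K z.1 * q z.1) * (f z.2 * h z.2))
          ((R X k).prod X.μ) := h1.mul_prod (hmulb hfi hh)
      exact hmind.integrable_comp_of_integrable h2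
    have e5 : (fun p : (α × α) × (α × α) =>
        K p.1 * ((f p.2.2 - q p.1 * f p.2.1) * h p.2.1)) = fun p =>
        K p.1 * (f p.2.2 * h p.2.1) - K p.1 * q p.1 * (f p.2.1 * h p.2.1) := by
      funext p; ring
    rw [e5, integral_sub i1 i2, hker K hKI h hh]
    have e6 : ∫ p, K p.1 * q p.1 * (f p.2.1 * h p.2.1) ∂C =
        (∫ a, K a * q a ∂(R X k)) * ∫ x, f x * h x ∂X.μ := by
      have hgm' : Measurable (fun z : (α × α) × α => K z.1 * q z.1 * (f z.2 * h z.2)) :=
        ((hKb.1.comp measurable_fst).mul (hqm.comp measurable_fst)).mul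
          ((hfm.comp measurable_snd).mul (hh.1.comp measurable_snd))
      have e7 := integral_map (μ := C) hmind.measurable.aemeasurable
        (f := fun z : (α × α) × α => K z.1 * q z.1 * (f z.2 * h z.2)) hgm'.aestronglyMeasurable
      rw [hmind.map_eq] at e7
      rw [← e7]
      exact integral_prod_mul (fun a => K a * q a) (fun x => f x * h x)
    rw [e6, sub_self]
  -- `f p.2.2` is a function of `(p.1, p.2.1)`
  obtain ⟨G, hGb, hG⟩ := hC.key (fun x => tr (f x)) (bdd_tr hfm)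
  have hG' : ∀ᵐ p ∂C, f p.2.2 = itr (G (p.1, p.2.1)) := by
    filter_upwards [hG] with p hp
    rw [← hp, itr_tr]
  set D : (α × α) × α → ℂ := fun z => itr (G z) - q z.1 * f z.2 with hD
  have hDmeas : Measurable D :=
    (measurable_itr.comp hGb.1).sub ((hqm.comp measurable_fst).mul (hfm.comp measurable_snd))
  have hDC : (fun p : (α × α) × (α × α) => D (p.1, p.2.1)) =ᵐ[C]
      fun p => f p.2.2 - q p.1 * f p.2.1 := by
    filter_upwards [hG'] with p hp
    simp only [hD, hp]
  have hDint : Integrable D ((R X k).prod X.μ) := by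
    have h1 : Integrable (D ∘ fun p : (α × α) × (α × α) => (p.1, p.2.1)) C :=
      (i22.sub hqf).congr hDC.symm
    exact (hmind.integrable_comp hDmeas.aestronglyMeasurable).1 h1
  have hD0 : D =ᵐ[(R X k).prod X.μ] 0 := by
    refine hZP (α × α) α ((R X k).prod X.μ) D hDint fun M h hM hh => ?_
    have hgm : Measurable (fun z : (α × α) × α => D z * (M z.1 * h z.2)) :=
      hDmeas.mul ((hM.1.comp measurable_fst).mul (hh.1.comp measurable_snd))
    have e7 := integral_map (μ := C) hmind.measurable.aemeasurable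
      (f := fun z : (α × α) × α => D z * (M z.1 * h z.2)) hgm.aestronglyMeasurable
    rw [hmind.map_eq] at e7
    rw [e7, ← hort M h hM hh]
    refine integral_congr_ae ?_
    filter_upwards [hDC] with p hp
    have hp' : D (p.1, p.2.1) = f p.2.2 - q p.1 * f p.2.1 := hp
    rw [hp']
    ring
  have hfinal : ∀ᵐ p ∂C, f p.2.2 = q p.1 * f p.2.1 := by
    have h1 : ∀ᵐ p ∂C, D (p.1, p.2.1) = 0 := hmind.quasiMeasurePreserving.ae hD0
    filter_upwards [h1, hDC] with p hp hp2
    have hp2' : D (p.1, p.2.1) = f p.2.2 - q p.1 * f p.2.1 := hp2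
    rw [hp2'] at hp
    exact sub_eq_zero.1 hp
  refine ⟨q, hqm, ?_, hfinal⟩
  have hF0 : ∫⁻ x, ‖f x‖ₑ ^ 2 ∂X.μ ≠ 0 := by
    intro h
    rw [lintegral_eq_zero_iff (hfm.enorm.pow_const 2)] at h
    apply hf0
    filter_upwards [h] with x hx
    simpa using hx
  have hFt : ∫⁻ x, ‖f x‖ₑ ^ 2 ∂X.μ ≠ ⊤ := by
    have h3 := (eLpNorm_lt_top_iff_lintegral_rpow_enorm_lt_top (μ := X.μ) (f := f) (p := 2)
      (by norm_num) (by norm_num)).1 hf2.2
    have h4 : ∫⁻ x, ‖f x‖ₑ ^ 2 ∂X.μ = ∫⁻ x, ‖f x‖ₑ ^ (2 : ℝ≥0∞).toReal ∂X.μ := by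
      refine lintegral_congr fun x => ?_
      norm_num
    rw [h4]
    exact h3.ne
  exact modulus hmind hC.ind' (fun _ => rfl) hqm hfm hfinal hF0 hFt

end MPd26.HK.P3
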