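import Pool.Agent.Lib.MP_d26cd8_an.HK.Spec3

/-!
# MP_d26cd8_an, block D, section 3: module REAL (helper81)

Every factor is realized by a standard Borel system.
-/

set_option autoImplicit false

open MeasureTheory ProbabilityTheory Filter Topology
open scoped ComplexConjugate ENNReal symmDiff

namespace MPd26.HK.P3
namespace RealM

/-- A countable family of `m`-measurable sets which is dense in all `m`-measurable sets. -/
lemma exists_dense {α : Type} {m : MeasurableSpace α} [mα : MeasurableSpace α]
    [StandardBorelSpace α] (hm : m ≤ mα) (μ : Measure α) [IsProbabilityMeasure μ] :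
    ∃ A : ℕ → Set α, (∀ i, MeasurableSet[m] (A i)) ∧
      ∀ B, MeasurableSet[m] B → ∀ ε : ℝ, 0 < ε → ∃ i, μ (B ∆ A i) < ENNReal.ofReal ε := by
  classical
  obtain ⟨𝒜, hc, hd⟩ := exists_countable_measureDense μ
  obtain ⟨f, hf⟩ := hc.exists_eq_range hd.nonempty
  let P : ℕ → Set α → Prop := fun i A => MeasurableSet[m] A ∧
    μ (A ∆ f i.unpair.1) < ENNReal.ofReal (1 / ((i.unpair.2 : ℝ) + 1))
  refine ⟨fun i => if h : ∃ A, P i A then h.choose else ∅, fun i => ?_, fun B hB ε hε => ?_⟩
  · by_cases h : ∃ A, P i A
    · simp only [h, dif_pos]; exact h.choose_spec.1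
    · simp only [h, dif_neg, not_false_eq_true]; exact @MeasurableSet.empty _ m
  · obtain ⟨n, hn⟩ := exists_nat_one_div_lt (half_pos hε)
    have hn0 : (0 : ℝ) < 1 / ((n : ℝ) + 1) := by positivity
    obtain ⟨t, ht, hBt⟩ := hd.approx B (hm _ hB) (measure_ne_top _ _) _ hn0
    rw [hf] at ht
    obtain ⟨j, rfl⟩ := ht
    refine ⟨Nat.pair j n, ?_⟩
    have hex : ∃ A, P (Nat.pair j n) A := ⟨B, hB, by simpa [Nat.unpair_pair] using hBt⟩
    simp only [hex, dif_pos]
    have h2 := hex.choose_spec.2
    simp only [Nat.unpair_pair] at h2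
    calc μ (B ∆ hex.choose) ≤ μ (B ∆ f j) + μ (f j ∆ hex.choose) := measure_symmDiff_le _ _ _
      _ < ENNReal.ofReal (1 / ((n : ℝ) + 1)) + ENNReal.ofReal (1 / ((n : ℝ) + 1)) := by
          rw [symmDiff_comm (f j)]
          exact ENNReal.add_lt_add hBt h2
      _ = ENNReal.ofReal (1 / ((n : ℝ) + 1) + 1 / ((n : ℝ) + 1)) :=
          (ENNReal.ofReal_add hn0.le hn0.le).symm
      _ ≤ ENNReal.ofReal ε := ENNReal.ofReal_le_ofReal (by linarith)

/-- The space of names. -/
abbrev Nm : Type := ℤ → ℕ → Bool

/-- The shift. -/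
def shift : Nm ≃ᵐ Nm where
  toFun y n := y (n + 1)
  invFun y n := y (n - 1)
  left_inv y := by funext n; simp
  right_inv y := by funext n; simp
  measurable_toFun := measurable_pi_lambda _ fun _ => measurable_pi_apply _
  measurable_invFun := measurable_pi_lambda _ fun _ => measurable_pi_apply _

section
variable {α : Type} [mα : MeasurableSpace α] (X : Sys α)

/-- The integer powers of `S`. -/
def pw (n : ℤ) (x : α) : α := ((X.S.toEquiv : Equiv.Perm α) ^ n) x

lemma pw_zero (x : α) : pw X 0 x = x := by simp [pw]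

lemma pw_S (n : ℤ) (x : α) : pw X n (X.S x) = pw X (n + 1) x := by
  unfold pw
  rw [zpow_add_one]
  rfl

lemma pw_add_one (n : ℤ) (x : α) : pw X (n + 1) x = X.S (pw X n x) := by
  unfold pw
  rw [add_comm, zpow_add, zpow_one]
  rfl

lemma pw_sub_one (n : ℤ) (x : α) : pw X (n - 1) x = X.S.symm (pw X n x) := by
  have h := pw_add_one X (n - 1) x
  rw [sub_add_cancel] at h
  rw [h]
  simp

lemma measurable_pw (N : X.Factor) (n : ℤ) : Measurable[N.σ, N.σ] (pw X n) := by
  induction n using Int.induction_on with
  | zero =>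
    have : pw X 0 = id := funext fun x => pw_zero X x
    rw [this]
    exact @measurable_id _ N.σ
  | succ i ih =>
    have : pw X ((i : ℤ) + 1) = X.S ∘ pw X i := funext fun x => pw_add_one X _ x
    rw [this]
    exact Measurable.comp (g := X.S) (fun s hs => N.inv s hs) ih
  | pred i ih =>
    have : pw X (-(i : ℤ) - 1) = X.S.symm ∘ pw X (-(i : ℤ)) := funext fun x => pw_sub_one X _ x
    rw [this]
    exact Measurable.comp (g := X.S.symm) (fun s hs => N.inv' s hs) ih

open Classical in
/-- The name of a point. -/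
noncomputable def name (A : ℕ → Set α) (x : α) : Nm := fun n i => decide (pw X n x ∈ A i)

lemma measurable_name (N : X.Factor) {A : ℕ → Set α} (hA : ∀ i, MeasurableSet[N.σ] (A i)) :
    Measurable[N.σ] (name X A) := by
  classical
  refine @measurable_pi_lambda _ _ _ N.σ _ _ fun n => @measurable_pi_lambda _ _ _ N.σ _ _ fun i => ?_
  refine @measurable_to_bool _ N.σ _ ?_
  have : (fun x => name X A x n i) ⁻¹' {true} = pw X n ⁻¹' (A i) := by
    ext x; simp [name]
  rw [this]
  exact measurable_pw X N n (hA i)

lemma name_S (A : ℕ → Set α) (x : α) : name X A (X.S x) = shift (name X A x) := by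
  classical
  funext n i
  have : shift (name X A x) n i = name X A x (n + 1) i := rfl
  rw [this]
  unfold name
  rw [pw_S]

end

end RealM

open RealM in
theorem specReal : SpecReal := by
  classical
  intro α _ _ X N
  obtain ⟨A, hA, hd⟩ := exists_dense N.le X.μ
  have hmN := measurable_name X N hA
  have hm : Measurable (name X A) := hmN.mono N.le le_rfl
  have hcomm : (shift : Nm → Nm) ∘ name X A = name X A ∘ X.S := by
    funext x; exact (name_S X A x).symm
  have : IsProbabilityMeasure (X.μ.map (name X A)) :=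
    Measure.isProbabilityMeasure_map hm.aemeasurable
  let Y : Sys Nm :=
    { μ := X.μ.map (name X A)
      prob := inferInstance
      S := shift
      mp := by
        refine ⟨shift.measurable, ?_⟩
        rw [Measure.map_map shift.measurable hm, hcomm, ← Measure.map_map hm X.S.measurable,
          X.mp.map_eq] }
  refine ⟨Nm, inferInstance, inferInstance, Y, name X A,
    ⟨hm, rfl, ae_of_all _ fun x => name_S X A x⟩, fun B hB => hmN hB, fun B hB => ?_⟩
  -- Borel-Cantelli
  choose j hj using fun n : ℕ => hd B hB ((1 / 2 : ℝ) ^ n) (by positivity)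
  refine ⟨{y : Nm | ∃ᶠ n in atTop, y 0 (j n) = true}, ?_, ?_⟩
  · have : {y : Nm | ∃ᶠ n in atTop, y 0 (j n) = true}
        = limsup (fun n => {y : Nm | y 0 (j n) = true}) atTop := by
      ext y; simp [mem_limsup_iff_frequently_mem]
    rw [this]
    refine MeasurableSet.measurableSet_limsup fun n => ?_
    have h1 : Measurable fun y : Nm => y 0 (j n) := (measurable_pi_apply _).comp (measurable_pi_apply _)
    exact h1 (measurableSet_singleton true)
  · have hsum : (∑' n, X.μ (B ∆ A (j n))) ≠ ∞ := by
      have h1 : (∑' n, X.μ (B ∆ A (j n))) ≤ ∑' n : ℕ, ENNReal.ofReal ((1 / 2 : ℝ) ^ n) :=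
        ENNReal.tsum_le_tsum fun n => (hj n).le
      refine ne_top_of_le_ne_top ?_ h1
      rw [← ENNReal.ofReal_tsum_of_nonneg (fun n => by positivity)
        (summable_geometric_of_lt_one (by norm_num) (by norm_num))]
      exact ENNReal.ofReal_ne_top
    filter_upwards [ae_eventually_notMem hsum] with x hx
    refine propext ?_
    change x ∈ B ↔ ∃ᶠ n in atTop, name X A x 0 (j n) = true
    have h2 : ∀ᶠ n in atTop, (name X A x 0 (j n) = true ↔ x ∈ B) := by
      filter_upwards [hx] with n hn
      have h3 : name X A x 0 (j n) = true ↔ x ∈ A (j n) := by simp [name, pw_zero]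
      rw [h3]
      rw [Set.mem_symmDiff] at hn
      tauto
    constructor
    · intro h
      exact (h2.mono fun n hn => hn.2 h).frequently
    · intro h
      obtain ⟨n, hn1, hn2⟩ := (h.and_eventually h2).exists
      exact hn2.1 hn1

end MPd26.HK.P3
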