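import Pool.Agent.Lib.MP_d26cd8_an.HK.Spec3
import Pool.Agent.Lib.MP_d26cd8_an.HK.SymCp

/-!
# P3, module REPL
-/

set_option autoImplicit false

open MeasureTheory ProbabilityTheory Filter Topology
open scoped ComplexConjugate ENNReal

namespace MPd26.HK.P3

namespace ReplM

variable {α : Type} [mα : MeasurableSpace α] [StandardBorelSpace α] {X : Sys α} {k : ℕ}
  {Q : Measure (Cube (k + 2) α × Cube (k + 2) α)}

lemma v0_ne_vi {n : ℕ} (i : Fin n) : (v0 : Vx n) ≠ vi i := by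
  intro h
  have := congrFun h i
  simp [v0, vi] at this

lemma probQ (hQ : IsQ2 X k Q) : IsProbabilityMeasure Q := by
  refine ⟨?_⟩
  have h := hQ.fst.measure_preimage (s := Set.univ) MeasurableSet.univ.nullMeasurableSet
  rw [Set.preimage_univ] at h
  rw [h]
  exact measure_univ

/-- `Z_k`-measurable functions agree at the two vertices `v0`. -/
lemma eq_v0 (hQ : IsQ2 X k Q) {u : α → ℂ} (hu : Bdd u) (hm : Measurable[(X.Z k).σ] u) :
    ∀ᵐ p ∂Q, u (p.1 v0) = u (p.2 v0) := by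
  have := probQ hQ
  have hm1 : Measurable (fun p : Cube (k + 2) α × Cube (k + 2) α => p.1 v0) :=
    (measurable_pi_apply _).comp measurable_fst
  have hm2 : Measurable (fun p : Cube (k + 2) α × Cube (k + 2) α => p.2 v0) :=
    (measurable_pi_apply _).comp measurable_snd
  have b1 : Bdd (fun p : Cube (k + 2) α × Cube (k + 2) α => u (p.1 v0)) := hu.comp hm1
  have b2 : Bdd (fun p : Cube (k + 2) α × Cube (k + 2) α => u (p.2 v0)) := hu.comp hm2
  have hc := hQ.cond u (fun x => conj (u (x v0))) hu (hu.comp (measurable_pi_apply v0)).conj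
  rw [condExp_of_stronglyMeasurable (X.Z k).le hm.stronglyMeasurable (hu.integrable _)] at hc
  -- `∫ conj u(p.1) u(p.2) = ∫ |u|² `
  have e1 : ∫ p, conj (u (p.1 v0)) * u (p.2 v0) ∂Q = ∫ p, conj (u (p.1 v0)) * u (p.1 v0) ∂Q := by
    rw [hc]
    rw [← hQ.fst.map_eq, integral_map hQ.fst.measurable.aemeasurable]
    exact ((hu.comp (measurable_pi_apply v0)).conj.mul
      (hu.comp (measurable_pi_apply v0))).1.aestronglyMeasurable
  have e2 : ∫ p, conj (u (p.2 v0)) * u (p.1 v0) ∂Q = ∫ p, conj (u (p.2 v0)) * u (p.2 v0) ∂Q := by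
    have h1 : ∫ p, conj (u (p.1 v0)) * u (p.2 v0) ∂(Q.map Prod.swap)
        = ∫ p, conj (u (p.1 v0)) * u (p.1 v0) ∂(Q.map Prod.swap) := by
      rw [hQ.swap.map_eq]; exact e1
    rwa [integral_map measurable_swap.aemeasurable (b1.conj.mul b2).1.aestronglyMeasurable,
      integral_map measurable_swap.aemeasurable (b1.conj.mul b1).1.aestronglyMeasurable] at h1
  have e3 : ∫ p, conj (u (p.1 v0) - u (p.2 v0)) * (u (p.1 v0) - u (p.2 v0)) ∂Q = 0 := by
    have h1 : ∫ p, conj (u (p.1 v0) - u (p.2 v0)) * (u (p.1 v0) - u (p.2 v0)) ∂Q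
        = (∫ p, conj (u (p.1 v0)) * u (p.1 v0) ∂Q - ∫ p, conj (u (p.1 v0)) * u (p.2 v0) ∂Q)
          - (∫ p, conj (u (p.2 v0)) * u (p.1 v0) ∂Q - ∫ p, conj (u (p.2 v0)) * u (p.2 v0) ∂Q) := by
      rw [← integral_sub ((b1.conj.mul b1).integrable _) ((b1.conj.mul b2).integrable _),
        ← integral_sub ((b2.conj.mul b1).integrable _) ((b2.conj.mul b2).integrable _),
        ← integral_sub (((b1.conj.mul b1).sub (b1.conj.mul b2)).integrable _)
          (((b2.conj.mul b1).sub (b2.conj.mul b2)).integrable _)]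
      congr 1; funext p
      rw [map_sub]; ring
    rw [h1, e1, e2]; ring
  have e4 : ∫ p, ‖u (p.1 v0) - u (p.2 v0)‖ ^ 2 ∂Q = 0 := by
    have h1 : ((∫ p, ‖u (p.1 v0) - u (p.2 v0)‖ ^ 2 ∂Q : ℝ) : ℂ) = 0 := by
      rw [← e3, ← integral_complex_ofReal]
      congr 1; funext p
      rw [mul_comm, Complex.mul_conj, Complex.normSq_eq_norm_sq]
    exact_mod_cast h1
  have hint : Integrable (fun p : Cube (k + 2) α × Cube (k + 2) α =>
      ‖u (p.1 v0) - u (p.2 v0)‖ ^ 2) Q := by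
    obtain ⟨hm', C, hC⟩ := b1.sub b2
    refine Integrable.of_bound (hm'.norm.pow_const 2).aestronglyMeasurable (C ^ 2)
      (ae_of_all _ fun p => ?_)
    rw [norm_pow, norm_norm]
    exact pow_le_pow_left₀ (norm_nonneg _) (hC p) 2
  have h5 := (integral_eq_zero_iff_of_nonneg (fun p => by positivity) hint).1 e4
  filter_upwards [h5] with p hp
  have h6 : ‖u (p.1 v0) - u (p.2 v0)‖ ^ 2 = 0 := hp
  exact sub_eq_zero.1 (norm_eq_zero.1 (pow_eq_zero_iff two_ne_zero |>.1 h6))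

omit mα [StandardBorelSpace α] in
lemma symm_flip_v0 (x : Cube (k + 2) α) :
    symm (1 : Equiv.Perm (Fin (k + 2))) (vi 0) x v0 = x (vi 0) := by
  unfold symm
  congr 1
  funext i
  simp [v0]

/-- `Z_k`-measurable functions agree at the two vertices `vi 0`. -/
lemma eq_vi (hQ : IsQ2 X k Q) {u : α → ℂ} (hu : Bdd u) (hm : Measurable[(X.Z k).σ] u) :
    ∀ᵐ p ∂Q, u (p.1 (vi 0)) = u (p.2 (vi 0)) := by
  have h := hQ.flip.quasiMeasurePreserving.ae (eq_v0 hQ hu hm)
  filter_upwards [h] with p hp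
  simpa only [Prod.map_fst, Prod.map_snd, symm_flip_v0] using hp

lemma sg_vi0 (z : ℂ) : sg (vi 0 : Vx (k + 2)) z = conj z := by
  have h1 : (vi 0 : Vx (k + 2)) = Fin.cons true v0 := by
    funext i
    refine Fin.cases ?_ (fun j => ?_) i
    · simp [vi]
    · simp [vi, v0]
  rw [h1, sg_cons_true, sg_v0]

/-- `φ^[k+2]` agrees on the two cubes. -/
lemma cp_eq (hQ : IsQ2 X k Q) {φ : α → ℂ} (hφ : IsPhase φ)
    (hφQ : ∀ᵐ p ∂Q, φ (p.2 v0) * conj (φ (p.1 v0)) = φ (p.2 (vi 0)) * conj (φ (p.1 (vi 0)))) :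
    ∀ᵐ p ∂Q, cp φ (k + 2) p.1 = cp φ (k + 2) p.2 := by
  filter_upwards [hφQ, hQ.same] with p h1 h2
  unfold cp
  have hmem : (vi 0 : Vx (k + 2)) ∈ Finset.univ.erase v0 :=
    Finset.mem_erase.2 ⟨(v0_ne_vi 0).symm, Finset.mem_univ _⟩
  rw [← Finset.mul_prod_erase Finset.univ _ (Finset.mem_univ v0),
    ← Finset.mul_prod_erase Finset.univ _ (Finset.mem_univ v0),
    ← Finset.mul_prod_erase (Finset.univ.erase v0) _ hmem,
    ← Finset.mul_prod_erase (Finset.univ.erase v0) _ hmem, ← mul_assoc, ← mul_assoc,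
    sg_v0, sg_v0, sg_vi0, sg_vi0]
  congr 1
  · have ha := hφ.mul_conj (p.1 v0)
    have hb := hφ.mul_conj (p.2 (vi 0))
    calc φ (p.1 v0) * conj (φ (p.1 (vi 0)))
        = (φ (p.2 (vi 0)) * conj (φ (p.1 (vi 0)))) * (φ (p.1 v0) * conj (φ (p.2 (vi 0)))) := by
          linear_combination (-(φ (p.1 v0) * conj (φ (p.1 (vi 0))))) * hb
      _ = (φ (p.2 v0) * conj (φ (p.1 v0))) * (φ (p.1 v0) * conj (φ (p.2 (vi 0)))) := by rw [h1]
      _ = φ (p.2 v0) * conj (φ (p.2 (vi 0))) := by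
          linear_combination (φ (p.2 v0) * conj (φ (p.2 (vi 0)))) * ha
  · refine Finset.prod_congr rfl fun ε hε => ?_
    have h3 := Finset.ne_of_mem_erase hε
    have h4 := Finset.ne_of_mem_erase (Finset.mem_of_mem_erase hε)
    rw [h2 ε h4 h3]

/-- The base case: vertex `v0`, direction `0`. -/
lemma base (hQ : IsQ2 X k Q) {φ : α → ℂ} (hφ : IsPhase φ)
    (hφQ : ∀ᵐ p ∂Q, φ (p.2 v0) * conj (φ (p.1 v0)) = φ (p.2 (vi 0)) * conj (φ (p.1 (vi 0))))
    (g : Vx (k + 2) → α → ℂ) (hg : ∀ ε, Bdd (g ε)) (hgm : Measurable[(X.Z k).σ] (g (vi 0))) :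
    ∫ x, cp φ (k + 2) x * ∏ ε, g ε (x ε) ∂(X.cm (k + 2)) =
    ∫ x, cp φ (k + 2) x * ((X.μ[g v0 | (X.Z k).σ]) (x v0) *
      ∏ ε ∈ Finset.univ.erase v0, g ε (x ε)) ∂(X.cm (k + 2)) := by
  have := probQ hQ
  have hH : Bdd (fun x : Cube (k + 2) α => cp φ (k + 2) x *
      ∏ ε ∈ Finset.univ.erase v0, g ε (x ε)) :=
    (hφ.bdd.cp _).mul (Bdd.prod _ fun ε _ => (hg ε).comp (measurable_pi_apply ε))
  have hF : Bdd (fun x : Cube (k + 2) α => cp φ (k + 2) x * ∏ ε, g ε (x ε)) :=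
    (hφ.bdd.cp _).mul (Bdd.prod _ fun ε _ => (hg ε).comp (measurable_pi_apply ε))
  have h1 := hQ.cond (g v0) _ (hg v0) hH
  have h2 : ∫ x, cp φ (k + 2) x * ∏ ε, g ε (x ε) ∂(X.cm (k + 2))
      = ∫ p, cp φ (k + 2) p.1 * ∏ ε, g ε (p.1 ε) ∂Q := by
    rw [← hQ.fst.map_eq, integral_map hQ.fst.measurable.aemeasurable hF.1.aestronglyMeasurable]
  have h3 : ∫ p, cp φ (k + 2) p.1 * ∏ ε, g ε (p.1 ε) ∂Q
      = ∫ p, (cp φ (k + 2) p.2 * ∏ ε ∈ Finset.univ.erase v0, g ε (p.2 ε)) * g v0 (p.1 v0) ∂Q := by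
    refine integral_congr_ae ?_
    filter_upwards [cp_eq hQ hφ hφQ, hQ.same, eq_vi hQ (hg (vi 0)) hgm] with p a1 a2 a3
    rw [← Finset.mul_prod_erase Finset.univ _ (Finset.mem_univ v0), a1]
    have a4 : ∏ ε ∈ Finset.univ.erase v0, g ε (p.1 ε)
        = ∏ ε ∈ Finset.univ.erase v0, g ε (p.2 ε) := by
      refine Finset.prod_congr rfl fun ε hε => ?_
      by_cases h : ε = vi 0
      · subst h; exact a3
      · rw [a2 ε (Finset.ne_of_mem_erase hε) h]
    rw [a4]; ring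
  have h4 : ∫ p, (cp φ (k + 2) p.2 * ∏ ε ∈ Finset.univ.erase v0, g ε (p.2 ε)) * g v0 (p.1 v0) ∂Q
      = ∫ p, (cp φ (k + 2) p.1 * ∏ ε ∈ Finset.univ.erase v0, g ε (p.1 ε)) * g v0 (p.2 v0) ∂Q := by
    conv_rhs => rw [← hQ.swap.map_eq]
    rw [integral_map measurable_swap.aemeasurable]
    · rfl
    · exact ((hH.comp measurable_fst).mul ((hg v0).comp
        ((measurable_pi_apply _).comp measurable_snd))).1.aestronglyMeasurable
  rw [h2, h3, h4, h1]
  congr 1; funext x; ring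

end ReplM

open ReplM SymCpM in
theorem specRepl (hSym : SpecSym) : SpecRepl := by
  intro α _ _ X hX k Q hQ φ hφ hφQ i δ g hg hgm
  -- the symmetry
  set σ : Equiv.Perm (Fin (k + 2)) := Equiv.swap 0 i with hσ
  set r : Vx (k + 2) := fun j => δ (σ j) with hr
  have hσσ : ∀ j, σ (σ j) = j := fun j => by rw [hσ]; exact Equiv.swap_apply_self _ _ _
  have hσs : ∀ j, σ.symm j = σ j := fun j => by
    rw [Equiv.symm_apply_eq, hσσ]
  have hv0 : tvi σ r v0 = δ := by
    funext j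
    simp [tvi, v0, hr]
  have htv : tv σ r δ = v0 := by rw [← hv0, tv_tvi]
  have hv1 : tvi σ r (vi 0) = Function.update δ i (!(δ i)) := by
    funext j
    have h1 : tvi σ r (vi 0) j = xor ((vi 0 : Vx (k + 2)) (σ j)) (δ j) := by
      simp only [tvi, hσs, hr, hσσ]
    rw [h1]
    by_cases hj : j = i
    · subst hj
      have : σ j = 0 := Equiv.swap_apply_right _ _
      rw [this, Function.update_self]
      simp [vi]
    · rw [Function.update_of_ne hj]
      have h2 : σ j ≠ 0 := by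
        intro h
        have h3 : j = σ 0 := by rw [← h, hσσ]
        rw [h3] at hj
        exact hj (Equiv.swap_apply_left _ _)
      simp [vi, Function.update_of_ne h2, v0]
  have hmp := hSym α X (k + 2) σ r
  set g' : Vx (k + 2) → α → ℂ := fun η => g (tvi σ r η) with hg'
  have hg'b : ∀ ε, Bdd (g' ε) := fun ε => hg _
  have hg'm : Measurable[(X.Z k).σ] (g' (vi 0)) := by
    rw [hg']; simp only [hv1]; exact hgm
  -- the base case for `φ` or its conjugate
  have hbase : ∫ x, sg r (cp φ (k + 2) x) * ∏ ε, g' ε (x ε) ∂(X.cm (k + 2)) =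
      ∫ x, sg r (cp φ (k + 2) x) * ((X.μ[g' v0 | (X.Z k).σ]) (x v0) *
        ∏ ε ∈ Finset.univ.erase v0, g' ε (x ε)) ∂(X.cm (k + 2)) := by
    unfold sg
    by_cases hev : isEven r = true
    · simp only [hev, if_true]
      exact base hQ hφ hφQ g' hg'b hg'm
    · simp only [hev, if_false, Bool.false_eq_true]
      have := base hQ hφ.conj (hφQ.mono fun p hp => by
        have := congrArg (starRingEnd ℂ) hp
        simpa only [map_mul] using this) g' hg'b hg'm
      simpa only [cp_conj] using this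
  have hb1 : Bdd (fun x : Cube (k + 2) α => cp φ (k + 2) x * ∏ ε, g ε (x ε)) :=
    (hφ.bdd.cp _).mul (Bdd.prod _ fun ε _ => (hg ε).comp (measurable_pi_apply ε))
  have hm2 : AEStronglyMeasurable (fun x : Cube (k + 2) α => cp φ (k + 2) x *
      ((X.μ[g δ | (X.Z k).σ]) (x δ) * ∏ ε ∈ Finset.univ.erase δ, g ε (x ε))) (X.cm (k + 2)) := by
    refine (hφ.bdd.cp _).1.aestronglyMeasurable.mul (AEStronglyMeasurable.mul ?_ ?_)
    · have : Measurable (X.μ[g δ | (X.Z k).σ]) :=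
        stronglyMeasurable_condExp.measurable.mono (X.Z k).le le_rfl
      exact (this.comp (measurable_pi_apply δ)).aestronglyMeasurable
    · exact (Bdd.prod _ fun ε _ => (hg ε).comp (measurable_pi_apply ε)).1.aestronglyMeasurable
  have e1 : ∫ x, cp φ (k + 2) x * ∏ ε, g ε (x ε) ∂(X.cm (k + 2))
      = ∫ x, sg r (cp φ (k + 2) x) * ∏ ε, g' ε (x ε) ∂(X.cm (k + 2)) := by
    conv_lhs => rw [← hmp.map_eq]
    rw [integral_map hmp.measurable.aemeasurable (by rw [hmp.map_eq]; exact hb1.1.aestronglyMeasurable)]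
    refine integral_congr_ae (ae_of_all _ fun x => ?_)
    simp only
    rw [cp_symm]
    congr 1
    rw [← Equiv.prod_comp (tvE σ r) (fun ε => g' ε (x ε))]
    refine Finset.prod_congr rfl fun ε _ => ?_
    rw [symm_apply]
    change g ε (x (tv σ r ε)) = g (tvi σ r (tv σ r ε)) (x (tv σ r ε))
    rw [tvi_tv]
  have e2 : ∫ x, cp φ (k + 2) x * ((X.μ[g δ | (X.Z k).σ]) (x δ) *
        ∏ ε ∈ Finset.univ.erase δ, g ε (x ε)) ∂(X.cm (k + 2))
      = ∫ x, sg r (cp φ (k + 2) x) * ((X.μ[g' v0 | (X.Z k).σ]) (x v0) *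
        ∏ ε ∈ Finset.univ.erase v0, g' ε (x ε)) ∂(X.cm (k + 2)) := by
    conv_lhs => rw [← hmp.map_eq]
    rw [integral_map hmp.measurable.aemeasurable (by rw [hmp.map_eq]; exact hm2)]
    refine integral_congr_ae (ae_of_all _ fun x => ?_)
    simp only
    rw [cp_symm, symm_apply, htv]
    have h3 : g' v0 = g δ := by rw [hg']; simp only [hv0]
    rw [h3]
    congr 2
    refine Finset.prod_equiv (tvE σ r) (fun ε => ?_) fun ε _ => ?_
    · simp only [Finset.mem_erase, Finset.mem_univ, and_true]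
      change ε ≠ δ ↔ tv σ r ε ≠ v0
      rw [not_iff_not]
      constructor
      · intro h; rw [h, htv]
      · intro h
        have := congrArg (tvi σ r) h
        rwa [tvi_tv, hv0] at this
    · rw [symm_apply]
      change g ε (x (tv σ r ε)) = g (tvi σ r (tv σ r ε)) (x (tv σ r ε))
      rw [tvi_tv]
  rw [e1, hbase, ← e2]

end MPd26.HK.P3
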