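import Pool.Agent.Lib.MP_d26cd8_an.HK.P3_Compl

/-!
# MP_d26cd8_an, P3: module TOTAL (helper91)
-/

set_option autoImplicit false

open MeasureTheory ProbabilityTheory Filter Topology
open scoped ComplexConjugate ENNReal

namespace MPd26.HK.P3

namespace TotalM

/-- a function orthogonal to all products is zero -/
lemma zero_of_products {α : Type} [MeasurableSpace α] {n : ℕ} (ρ : Measure (Cube n α))
    [IsProbabilityMeasure ρ] {h : Cube n α → ℂ} (hh : Integrable h ρ)
    (h0 : ∀ g : Vx n → α → ℂ, (∀ δ, Bdd (g δ)) → ∫ x, h x * ∏ δ, g δ (x δ) ∂ρ = 0) :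
    h =ᵐ[ρ] 0 := by
  classical
  have hall : ∫ x, h x ∂ρ = 0 := by
    have := h0 (fun _ _ => 1) (fun _ => Bdd.const 1)
    simpa using this
  have key : ∀ s : Set (Cube n α), MeasurableSet s → ∫ x in s, h x ∂ρ = 0 := by
    intro s hs
    refine MeasurableSpace.induction_on_inter (C := fun s _ => ∫ x in s, h x ∂ρ = 0)
      generateFrom_pi.symm isPiSystem_pi ?_ ?_ ?_ ?_ s hs
    · simp
    · rintro t ⟨t', ht', rfl⟩
      have h1 := h0 (fun δ => (t' δ).indicator fun _ => (1 : ℂ)) (fun δ => by
        refine ⟨measurable_const.indicator (ht' δ (Set.mem_univ _)), 1, fun x => ?_⟩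
        by_cases hx : x ∈ t' δ <;> simp [hx])
      rw [← h1, ← integral_indicator (MeasurableSet.univ_pi fun δ => ht' δ (Set.mem_univ _))]
      congr 1
      funext x
      by_cases hx : x ∈ Set.pi Set.univ t'
      · rw [Set.indicator_of_mem hx, Finset.prod_eq_one, mul_one]
        intro δ _
        rw [Set.indicator_of_mem (hx δ (Set.mem_univ _))]
      · rw [Set.indicator_of_notMem hx]
        have : ∃ δ, x δ ∉ t' δ := by
          by_contra hcon
          push Not at hcon
          exact hx fun δ _ => hcon δ
        obtain ⟨δ, hδ⟩ := this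
        rw [Finset.prod_eq_zero (Finset.mem_univ δ) (Set.indicator_of_notMem hδ _), mul_zero]
    · intro t ht hC
      have h1 := integral_add_compl ht hh
      rw [hC, zero_add, hall] at h1
      exact h1
    · intro t hd hm hC
      rw [integral_iUnion hm hd hh.integrableOn]
      simp [hC]
  exact hh.ae_eq_zero_of_forall_setIntegral_eq_zero fun s hs _ => key s hs

end TotalM

open ComplM TotalM in
theorem specTotal (hC : SpecCompl) (hSym : SpecSym) (hZ : SpecZeroOthers) : SpecTotal := by
  classical
  intro α _ _ X k hO ε h hh h0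
  have hs := hSym α X (k + 2) 1 ε
  -- the transported function
  set h' : Cube (k + 2) α → ℂ := fun y => h (symm 1 ε y) with hh'
  have hint : Integrable h' (X.cm (k + 2)) := hs.integrable_comp_of_integrable hh
  have tr : ∀ G : Cube (k + 2) α → ℂ, Measurable G →
      ∫ y, h' y * G y ∂(X.cm (k + 2)) = ∫ z, h z * G (symm 1 ε z) ∂(X.cm (k + 2)) := by
    intro G hG
    have h1 : ∫ z, h z * G (symm 1 ε z) ∂(X.cm (k + 2)) =
        ∫ y, (fun z => h z * G (symm 1 ε z)) (symm 1 ε y) ∂(X.cm (k + 2)) := by
      conv_lhs => rw [← hs.map_eq]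
      rw [integral_map hs.measurable.aemeasurable]
      rw [hs.map_eq]
      exact hh.aestronglyMeasurable.mul (hG.comp hs.measurable).aestronglyMeasurable
    rw [h1]
    refine integral_congr_ae (ae_of_all _ fun y => ?_)
    simp only [symm_symm, hh']
  have hv0 : ∀ f : Vx (k + 2) → α → ℂ, (∀ δ, Bdd (f δ)) → (∀ y, f v0 y = 1) →
      ∫ x, h' x * ∏ δ, f δ (x δ) ∂(X.cm (k + 2)) = 0 := by
    intro f hf hf0
    have hm : Measurable (fun x : Cube (k + 2) α => ∏ δ, f δ (x δ)) :=
      Finset.measurable_prod _ fun δ _ => (hf δ).1.comp (measurable_pi_apply δ)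
    rw [tr _ hm]
    have h1 := h0 (fun δ => f (fun i => xor (δ i) (ε i))) (fun δ => hf _) (by
      intro y
      have e : (fun i => xor (ε i) (ε i)) = (v0 : Vx (k + 2)) := by
        funext i
        exact Bool.xor_self _
      simp only [e]
      exact hf0 y)
    rw [← h1]
    refine integral_congr_ae (ae_of_all _ fun z => ?_)
    simp only
    congr 1
    -- reindex the product
    let τ : Equiv.Perm (Vx (k + 2)) :=
      { toFun := fun δ i => xor (δ i) (ε i)
        invFun := fun δ i => xor (δ i) (ε i)
        left_inv := by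
          intro δ; funext i
          simp
        right_inv := by
          intro δ; funext i
          simp }
    rw [← Equiv.prod_comp τ]
    refine Finset.prod_congr rfl fun δ _ => ?_
    rw [symm_apply]
    have e2 : (fun i => xor ((τ δ) i) (ε i)) = δ := by
      funext i
      show xor (xor (δ i) (ε i)) (ε i) = δ i
      simp
    rw [e2]
    rfl
  have hZ' := hZ α (k + 2) (X.cm (k + 2)) h' hint hv0
  have hzero : h' =ᵐ[X.cm (k + 2)] 0 := by
    refine zero_of_products _ hint fun g hg => ?_
    refine hZ' _ ?_ ?_
    · exact Bdd.prod _ fun δ _ => (hg δ).comp (measurable_pi_apply δ)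
    · have h1 : ∀ δ : Vx (k + 2), AEStronglyMeasurable[others α v0]
          (fun x : Cube (k + 2) α => g δ (x δ)) (X.cm (k + 2)) := by
        intro δ
        by_cases hδ : δ = v0
        · rw [hδ]
          exact hC α X k hO v0 (g v0) (hg v0)
        · have h2 : @Measurable _ _ (others α v0) _ (fun x : Cube (k + 2) α => g δ (x δ)) := by
            have h3 : @Measurable _ _ (others α v0) _ (fun x : Cube (k + 2) α => x δ) := by
              have h4 : (fun x : Cube (k + 2) α => x δ) =
                  (fun y : {η : Vx (k + 2) // η ≠ v0} → α => y ⟨δ, hδ⟩) ∘ rst v0 := rfl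
              rw [h4]
              exact (measurable_pi_apply _).comp (comap_measurable _)
            exact (hg δ).1.comp h3
          exact h2.stronglyMeasurable.aestronglyMeasurable
      have h5 : ∀ s : Finset (Vx (k + 2)), AEStronglyMeasurable[others α v0]
          (fun x : Cube (k + 2) α => ∏ δ ∈ s, g δ (x δ)) (X.cm (k + 2)) := by
        intro s
        induction s using Finset.induction_on with
        | empty =>
          simp only [Finset.prod_empty]
          exact stronglyMeasurable_const.aestronglyMeasurable
        | insert a s ha ih =>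
          simp only [Finset.prod_insert ha]
          exact PhM.aesm_mul (h1 a) ih
      exact h5 _
  have := hs.quasiMeasurePreserving.ae_eq_comp hzero
  filter_upwards [this] with x hx
  have hx' : h (symm 1 ε (symm 1 ε x)) = 0 := hx
  rw [symm_symm] at hx'
  exact hx'

end MPd26.HK.P3
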