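import Pool.Agent.Lib.MP_d26cd8_an.HK.Spec3

/-!
# P3, module TYPE
-/

set_option autoImplicit false

open MeasureTheory ProbabilityTheory Filter Topology
open scoped ComplexConjugate ENNReal

namespace MPd26.HK.P3

namespace TypeM

section
variable {Ω : Type} {m : MeasurableSpace Ω} [mΩ : MeasurableSpace Ω]

/-- A bounded measurable version of the conditional expectation. -/
lemma exists_version (hm : m ≤ mΩ) (μ : Measure Ω) [IsFiniteMeasure μ] {f : Ω → ℂ}
    (hf : Bdd f) : ∃ g : Ω → ℂ, Measurable[m] g ∧ Bdd g ∧ g =ᵐ[μ] μ[f | m] := by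
  obtain ⟨hfm, C, hC⟩ := hf
  have h1 : StronglyMeasurable[m] (μ[f | m]) := stronglyMeasurable_condExp
  have h2 : ∀ᵐ x ∂μ, ‖(μ[f | m]) x‖ ≤ |C| :=
    ae_bdd_norm_condExp_of_ae_bdd_norm (ae_of_all _ fun x => (hC x).trans (le_abs_self C))
  have hs : MeasurableSet[m] {x | ‖(μ[f | m]) x‖ ≤ |C|} :=
    h1.norm.measurable measurableSet_Iic
  refine ⟨({x | ‖(μ[f | m]) x‖ ≤ |C|}).indicator (μ[f | m]), (h1.indicator hs).measurable,
    ⟨(h1.indicator hs).measurable.mono hm le_rfl, |C|, fun x => ?_⟩, ?_⟩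
  · by_cases hx : x ∈ {x | ‖(μ[f | m]) x‖ ≤ |C|}
    · rw [Set.indicator_of_mem hx]; exact hx
    · rw [Set.indicator_of_notMem hx, norm_zero]; exact abs_nonneg C
  · filter_upwards [h2] with x hx
    rw [Set.indicator_of_mem (show x ∈ {x | ‖(μ[f | m]) x‖ ≤ |C|} from hx)]

omit m in
lemma setIntegral_eq_mul_ind {ρ : Measure Ω} {h : Ω → ℂ} {s : Set Ω} (hs : MeasurableSet s) :
    ∫ x in s, h x ∂ρ = ∫ x, h x * s.indicator (fun _ => (1 : ℂ)) x ∂ρ := by
  rw [← integral_indicator hs]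
  refine integral_congr_ae (Eventually.of_forall fun x => ?_)
  by_cases hx : x ∈ s <;> simp [hx]

lemma bdd_ind {s : Set Ω} (hs : MeasurableSet s) : Bdd (s.indicator (fun _ => (1 : ℂ))) := by
  refine ⟨measurable_const.indicator hs, 1, fun x => ?_⟩
  by_cases hx : x ∈ s <;> simp [hx]

/-- Orthogonality to the sets of a generating π-system of `m` gives orthogonality to bounded
`m`-measurable functions. -/
lemma integral_mul_zero_of_pi (hm : m ≤ mΩ) (ρ : Measure Ω) [IsFiniteMeasure ρ]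
    (C : Set (Set Ω)) (hC : m = MeasurableSpace.generateFrom C) (hpi : IsPiSystem C)
    {h : Ω → ℂ} (hint : Integrable h ρ) (h0 : ∫ x, h x ∂ρ = 0)
    (hC0 : ∀ s ∈ C, ∫ x in s, h x ∂ρ = 0) {F : Ω → ℂ} (hF : Measurable[m] F) (hFb : Bdd F) :
    ∫ x, h x * F x ∂ρ = 0 := by
  have hs : ∀ s, MeasurableSet[m] s → ∫ x in s, h x ∂ρ = 0 := by
    intro s hs
    induction s, hs using MeasurableSpace.induction_on_inter hC hpi with
    | empty => simp
    | basic t ht => exact hC0 t ht
    | compl t ht ih =>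
      have := integral_add_compl (hm t ht) hint
      rw [ih, h0, zero_add] at this
      exact this
    | iUnion f hd hf ih =>
      rw [integral_iUnion (fun i => hm _ (hf i)) hd hint.integrableOn]
      simp [ih]
  have h1 : ρ[h | m] =ᵐ[ρ] (0 : Ω → ℂ) := by
    refine (ae_eq_condExp_of_forall_setIntegral_eq hm hint
      (fun s _ _ => (integrable_zero _ _ _).integrableOn) ?_
      aestronglyMeasurable_zero).symm
    intro s hs' _
    rw [hs s hs']
    simp
  obtain ⟨-, c, hc⟩ := hFb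
  have hFh : Integrable (fun x => F x * h x) ρ :=
    hint.bdd_mul (hF.mono hm le_rfl).aestronglyMeasurable (ae_of_all _ hc)
  calc ∫ x, h x * F x ∂ρ = ∫ x, F x * h x ∂ρ := by simp only [mul_comm]
    _ = ∫ x, (ρ[fun x => F x * h x | m]) x ∂ρ := (integral_condExp hm).symm
    _ = ∫ x, F x * (ρ[h | m]) x ∂ρ :=
        integral_congr_ae (condExp_mul_left (hF.stronglyMeasurable.aestronglyMeasurable) hFh hint)
    _ = ∫ x, (0 : ℂ) ∂ρ := by
        refine integral_congr_ae ?_
        filter_upwards [h1] with x hx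
        rw [hx]; simp
    _ = 0 := by simp

end

section
variable {α : Type} [mα : MeasurableSpace α]

omit mα in
lemma ind_pi {n : ℕ} (s : Vx n → Set α) (x : Cube n α) :
    (Set.pi Set.univ s).indicator (fun _ => (1 : ℂ)) x
      = ∏ ε, (s ε).indicator (fun _ => (1 : ℂ)) (x ε) := by
  by_cases h : x ∈ Set.pi Set.univ s
  · rw [Set.indicator_of_mem h, Finset.prod_eq_one]
    intro ε _
    rw [Set.indicator_of_mem (h ε trivial)]
  · rw [Set.indicator_of_notMem h]
    simp only [Set.mem_univ_pi, not_forall] at h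
    obtain ⟨ε, hε⟩ := h
    exact (Finset.prod_eq_zero (Finset.mem_univ ε) (Set.indicator_of_notMem hε _)).symm

lemma cube_le {f g : α → α} (N : FactorOf mα f g) (n : ℕ) : N.cube n ≤ MeasurableSpace.pi :=
  iSup_mono fun _ => MeasurableSpace.comap_mono N.le

lemma measurable_coord {f g : α → α} (N : FactorOf mα f g) (n : ℕ) (ε : Vx n) :
    Measurable[N.cube n, N.σ] (fun x : Cube n α => x ε) :=
  @measurable_pi_apply (Vx n) (fun _ => α) (fun _ => N.σ) ε

/-- Orthogonality to products of `N`-measurable functions of the coordinates. -/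
lemma zero_cube {f g : α → α} (N : FactorOf mα f g) (n : ℕ) (ρ : Measure (Cube n α))
    [IsFiniteMeasure ρ] {h : Cube n α → ℂ} (hint : Integrable h ρ)
    (h0 : ∀ u : Vx n → α → ℂ, (∀ ε, Bdd (u ε) ∧ Measurable[N.σ] (u ε)) →
      ∫ x, h x * ∏ ε, u ε (x ε) ∂ρ = 0)
    {F : Cube n α → ℂ} (hF : Measurable[N.cube n] F) (hFb : Bdd F) :
    ∫ x, h x * F x ∂ρ = 0 := by
  refine integral_mul_zero_of_pi (cube_le N n) ρ
    (Set.pi Set.univ '' Set.pi Set.univ fun _ : Vx n => {s : Set α | MeasurableSet[N.σ] s})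
    (@generateFrom_pi (Vx n) (fun _ => α) _ (fun _ => N.σ)).symm
    (@isPiSystem_pi (Vx n) (fun _ => α) (fun _ => N.σ)) hint ?_ ?_ hF hFb
  · have := h0 (fun _ _ => 1) (fun _ => ⟨Bdd.const 1, measurable_const⟩)
    simpa using this
  · rintro s ⟨t, ht, rfl⟩
    have ht' : ∀ ε, MeasurableSet[N.σ] (t ε) := fun ε => ht ε trivial
    rw [setIntegral_eq_mul_ind (MeasurableSet.univ_pi fun ε => N.le _ (ht' ε))]
    simp only [ind_pi]
    exact h0 _ fun ε => ⟨bdd_ind (N.le _ (ht' ε)), measurable_const.indicator (ht' ε)⟩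

/-- The number of coordinates equal to one. -/
def wt {n : ℕ} (ε : Vx n) : ℕ := (Finset.univ.filter fun i => ε i = true).card

lemma wt_update {n : ℕ} (δ : Vx n) (i : Fin n) (hi : δ i = false) :
    wt δ < wt (Function.update δ i true) := by
  unfold wt
  refine Finset.card_lt_card ?_
  rw [Finset.ssubset_iff_of_subset]
  · exact ⟨i, by simp, by simp [hi]⟩
  · intro j hj
    simp only [Finset.mem_filter, Finset.mem_univ, true_and] at hj ⊢
    by_cases hji : j = i
    · subst hji; simp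
    · rw [Function.update_of_ne hji]; exact hj

/-- The replacement property. -/
def RP [StandardBorelSpace α] (X : Sys α) (k : ℕ) (Φ : Cube (k + 2) α → ℂ) : Prop :=
  ∀ (i : Fin (k + 2)) (δ : Vx (k + 2)) (g : Vx (k + 2) → α → ℂ), (∀ ε, Bdd (g ε)) →
    Measurable[(X.Z k).σ] (g (Function.update δ i (!(δ i)))) →
    ∫ x, Φ x * ∏ ε, g ε (x ε) ∂(X.cm (k + 2)) =
    ∫ x, Φ x * ((X.μ[g δ | (X.Z k).σ]) (x δ) *
      ∏ ε ∈ Finset.univ.erase δ, g ε (x ε)) ∂(X.cm (k + 2))

/-- Iterated replacement. -/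
lemma iter [StandardBorelSpace α] (X : Sys α) (k : ℕ) {Φ : Cube (k + 2) α → ℂ}
    (hRP : RP X k Φ) (g g' : Vx (k + 2) → α → ℂ) (hg : ∀ ε, Bdd (g ε))
    (hg' : ∀ ε, Bdd (g' ε)) (hm : ∀ ε, Measurable[(X.Z k).σ] (g' ε))
    (he : ∀ ε, g' ε =ᵐ[X.μ] X.μ[g ε | (X.Z k).σ]) :
    ∀ (c : ℕ) (D : Finset (Vx (k + 2))), vt ∈ D → Dᶜ.card = c →
      ∫ x, Φ x * ∏ ε, (if ε ∈ D then g' ε else g ε) (x ε) ∂(X.cm (k + 2))
        = ∫ x, Φ x * ∏ ε, g' ε (x ε) ∂(X.cm (k + 2)) := by
  intro c
  induction c with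
  | zero =>
    intro D _ hc
    have hD : ∀ ε, ε ∈ D := by
      intro ε
      by_contra h
      have : ε ∈ Dᶜ := Finset.mem_compl.2 h
      rw [Finset.card_eq_zero.1 hc] at this
      exact absurd this (Finset.notMem_empty ε)
    simp [hD]
  | succ c ih =>
    intro D hvt hc
    have hne : (Dᶜ).Nonempty := by
      rw [← Finset.card_pos]; omega
    obtain ⟨δ, hδ, hmax⟩ := Finset.exists_max_image Dᶜ wt hne
    have hδD : δ ∉ D := Finset.mem_compl.1 hδ
    have hδvt : δ ≠ vt := fun h => hδD (h ▸ hvt)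
    obtain ⟨i, hi⟩ : ∃ i, δ i = false := by
      by_contra h
      push Not at h
      exact hδvt (funext fun i => by simpa [vt] using h i)
    have hup : Function.update δ i (!(δ i)) ∈ D := by
      by_contra h
      have h1 := hmax _ (Finset.mem_compl.2 h)
      rw [hi] at h1
      have h2 := wt_update δ i hi
      simp only [Bool.not_false] at h1
      omega
    have hb : ∀ ε, Bdd (if ε ∈ D then g' ε else g ε) := by
      intro ε; split_ifs
      · exact hg' ε
      · exact hg ε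
    have h1 := hRP i δ (fun ε => if ε ∈ D then g' ε else g ε) hb (by
      simp only [hup, if_true]; exact hm _)
    rw [h1]
    have hc' : (insert δ D)ᶜ.card = c := by
      have h3 : (insert δ D)ᶜ = Dᶜ.erase δ := by
        ext ε; simp
      rw [h3, Finset.card_erase_of_mem hδ, hc]; rfl
    rw [← ih (insert δ D) (Finset.mem_insert_of_mem hvt) hc']
    refine integral_congr_ae ?_
    have h4 := (X.mp_marg (k + 2) δ).quasiMeasurePreserving.ae (he δ)
    filter_upwards [h4] with x hx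
    congr 1
    rw [← Finset.mul_prod_erase Finset.univ _ (Finset.mem_univ δ)]
    simp only [hδD, if_false, Finset.mem_insert_self, if_true]
    rw [← hx]
    congr 1
    refine Finset.prod_congr rfl fun ε hε => ?_
    have hne' : ε ≠ δ := Finset.ne_of_mem_erase hε
    simp [Finset.mem_insert, hne']

end

end TypeM

open TypeM in
theorem specType (hR : SpecRepl) (hT : SpecTotal) : SpecType := by
  intro α _ _ X hX k hord Q hQ φ hφ hφQ
  refine ⟨hφ, ?_⟩
  have hRP : RP X k (cp φ (k + 2)) := fun i δ g hg hm =>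
    hR α X hX k Q hQ φ hφ hφQ i δ g hg hm
  have hone : IsPhase (fun _ : α => (1 : ℂ)) := IsPhase.const (by simp)
  have hcp1 : ∀ x : Cube (k + 2) α, cp (fun _ : α => (1 : ℂ)) (k + 2) x = 1 := by
    intro x; unfold cp; simp
  have hRP1 : RP X k (fun _ => 1) := by
    intro i δ g hg hm
    have := hR α X hX k Q hQ (fun _ => 1) hone (ae_of_all _ fun p => by simp) i δ g hg hm
    simpa only [hcp1] using this
  have hΦ : Bdd (cp φ (k + 2)) := hφ.bdd.cp _
  have hle := cube_le (X.Z k) (k + 2)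
  obtain ⟨Ψ, hΨm, hΨb, hΨe⟩ := exists_version hle (X.cm (k + 2)) hΦ
  -- the difference is orthogonal to all products without the top vertex
  have key : (fun x => cp φ (k + 2) x - Ψ x) =ᵐ[X.cm (k + 2)] 0 := by
    refine hT α X k hord vt _ ((hΦ.sub hΨb).integrable _) fun g hg hgv => ?_
    have hv : ∀ ε, ∃ g' : α → ℂ, Bdd g' ∧ Measurable[(X.Z k).σ] g' ∧
        g' =ᵐ[X.μ] X.μ[g ε | (X.Z k).σ] ∧ (ε = vt → g' = g ε) := by
      intro ε
      by_cases h : ε = vt
      · subst h
        have h1 : g vt = fun _ => 1 := funext hgv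
        refine ⟨g vt, hg vt, ?_, ?_, fun _ => rfl⟩
        · rw [h1]; exact measurable_const
        · rw [h1, condExp_const (X.Z k).le]
      · obtain ⟨g', h1, h2, h3⟩ := exists_version (X.Z k).le X.μ (hg ε)
        exact ⟨g', h2, h1, h3, fun h' => absurd h' h⟩
    choose g' hg'b hg'm hg'e hg'v using hv
    have hG : Bdd (fun x : Cube (k + 2) α => ∏ ε, g ε (x ε)) :=
      Bdd.prod _ fun ε _ => (hg ε).comp (measurable_pi_apply ε)
    have hG' : Bdd (fun x : Cube (k + 2) α => ∏ ε, g' ε (x ε)) :=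
      Bdd.prod _ fun ε _ => (hg'b ε).comp (measurable_pi_apply ε)
    have hG'm : Measurable[(X.Z k).cube (k + 2)] (fun x : Cube (k + 2) α => ∏ ε, g' ε (x ε)) := by
      refine Finset.measurable_prod _ fun ε _ => ?_
      exact (hg'm ε).comp (measurable_coord (X.Z k) (k + 2) ε)
    -- replacement for a function with the property RP
    have hrep : ∀ Φ : Cube (k + 2) α → ℂ, RP X k Φ → ∀ u : Vx (k + 2) → α → ℂ,
        (∀ ε, Bdd (u ε) ∧ Measurable[(X.Z k).σ] (u ε)) →
        ∫ x, Φ x * ∏ ε, (g ε (x ε) * u ε (x ε)) ∂(X.cm (k + 2))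
          = ∫ x, Φ x * ∏ ε, (g' ε (x ε) * u ε (x ε)) ∂(X.cm (k + 2)) := by
      intro Φ hΦ u hu
      have h1 := iter X k hΦ (fun ε y => g ε y * u ε y) (fun ε y => g' ε y * u ε y)
        (fun ε => (hg ε).mul (hu ε).1) (fun ε => (hg'b ε).mul (hu ε).1)
        (fun ε => (hg'm ε).mul (hu ε).2) (fun ε => ?_) _ {vt} (Finset.mem_singleton_self _) rfl
      · rw [← h1]
        refine integral_congr_ae (ae_of_all _ fun x => ?_)
        simp only
        congr 1
        refine Finset.prod_congr rfl fun ε _ => ?_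
        by_cases h : ε = vt
        · rw [if_pos (by simpa using h), hg'v ε h]
        · rw [if_neg (by simpa using h)]
      · have h2 : X.μ[fun y => g ε y * u ε y | (X.Z k).σ] =ᵐ[X.μ]
            fun y => u ε y * (X.μ[g ε | (X.Z k).σ]) y := by
          have h3 : (fun y => g ε y * u ε y) = fun y => u ε y * g ε y := by
            funext y; ring
          rw [h3]
          exact condExp_mul_left (hu ε).2.stronglyMeasurable.aestronglyMeasurable
            (((hu ε).1.mul (hg ε)).integrable _) ((hg ε).integrable _)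
        filter_upwards [h2, hg'e ε] with y h4 h5
        rw [h4, ← h5]; ring
    have e1 : ∫ x, cp φ (k + 2) x * ∏ ε, g ε (x ε) ∂(X.cm (k + 2))
        = ∫ x, cp φ (k + 2) x * ∏ ε, g' ε (x ε) ∂(X.cm (k + 2)) := by
      have := hrep _ hRP (fun _ _ => 1) fun _ => ⟨Bdd.const 1, measurable_const⟩
      simpa using this
    have e2 : ∫ x, Ψ x * ∏ ε, g ε (x ε) ∂(X.cm (k + 2))
        = ∫ x, Ψ x * ∏ ε, g' ε (x ε) ∂(X.cm (k + 2)) := by
      have h1 := zero_cube (X.Z k) (k + 2) (X.cm (k + 2))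
        (h := fun x => (∏ ε, g ε (x ε)) - ∏ ε, g' ε (x ε)) ((hG.sub hG').integrable _)
        (fun u hu => ?_) hΨm hΨb
      · have h2 : ∫ x, Ψ x * ∏ ε, g ε (x ε) ∂(X.cm (k + 2))
            - ∫ x, Ψ x * ∏ ε, g' ε (x ε) ∂(X.cm (k + 2)) = 0 := by
          rw [← integral_sub ((hΨb.mul hG).integrable _) ((hΨb.mul hG').integrable _), ← h1]
          congr 1; funext x; ring
        exact sub_eq_zero.1 h2
      · have h3 := hrep _ hRP1 u hu
        simp only [one_mul, Finset.prod_mul_distrib] at h3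
        have hU : Bdd (fun x : Cube (k + 2) α => ∏ ε, u ε (x ε)) :=
          Bdd.prod _ fun ε _ => (hu ε).1.comp (measurable_pi_apply ε)
        have h4 : ∫ x, ((∏ ε, g ε (x ε)) - ∏ ε, g' ε (x ε)) * ∏ ε, u ε (x ε) ∂(X.cm (k + 2))
            = ∫ x, (∏ ε, g ε (x ε)) * ∏ ε, u ε (x ε) ∂(X.cm (k + 2))
              - ∫ x, (∏ ε, g' ε (x ε)) * ∏ ε, u ε (x ε) ∂(X.cm (k + 2)) := by
          rw [← integral_sub ((hG.mul hU).integrable _) ((hG'.mul hU).integrable _)]
          congr 1; funext x; ring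
        rw [h4, h3, sub_self]
    have e3 : ∫ x, Ψ x * ∏ ε, g' ε (x ε) ∂(X.cm (k + 2))
        = ∫ x, cp φ (k + 2) x * ∏ ε, g' ε (x ε) ∂(X.cm (k + 2)) := by
      calc ∫ x, Ψ x * ∏ ε, g' ε (x ε) ∂(X.cm (k + 2))
          = ∫ x, (∏ ε, g' ε (x ε)) * ((X.cm (k + 2))[cp φ (k + 2) | (X.Z k).cube (k + 2)]) x
              ∂(X.cm (k + 2)) := by
            refine integral_congr_ae ?_
            filter_upwards [hΨe] with x hx
            rw [hx]; ring
        _ = ∫ x, ((X.cm (k + 2))[fun x => (∏ ε, g' ε (x ε)) * cp φ (k + 2) x |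
              (X.Z k).cube (k + 2)]) x ∂(X.cm (k + 2)) :=
            (integral_congr_ae (condExp_mul_left
              (hG'm.stronglyMeasurable.aestronglyMeasurable)
              ((hG'.mul hΦ).integrable _) (hΦ.integrable _))).symm
        _ = ∫ x, (∏ ε, g' ε (x ε)) * cp φ (k + 2) x ∂(X.cm (k + 2)) := integral_condExp hle
        _ = _ := by congr 1; funext x; ring
    have h5 : ∫ x, (cp φ (k + 2) x - Ψ x) * ∏ ε, g ε (x ε) ∂(X.cm (k + 2))
        = ∫ x, cp φ (k + 2) x * ∏ ε, g ε (x ε) ∂(X.cm (k + 2))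
          - ∫ x, Ψ x * ∏ ε, g ε (x ε) ∂(X.cm (k + 2)) := by
      rw [← integral_sub ((hΦ.mul hG).integrable _) ((hΨb.mul hG).integrable _)]
      congr 1; funext x; ring
    rw [h5, e1, e2, e3, sub_self]
  refine ⟨Ψ, hΨm.stronglyMeasurable, ?_⟩
  filter_upwards [key] with x hx
  exact sub_eq_zero.1 hx

end MPd26.HK.P3
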