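import Pool.Agent.Lib.MP_d26cd8_an.HK.P3_Rank1

/-!
# MP_d26cd8_an, block D, section 3: module UNIMOD (helper87)
-/

set_option autoImplicit false

open MeasureTheory ProbabilityTheory Filter Topology
open scoped ComplexConjugate ENNReal

namespace MPd26.HK.P3

namespace UnimodM

open GenM Rank1M

section
variable {α : Type} [MeasurableSpace α] [StandardBorelSpace α] {X : Sys α} {k : ℕ}
  {C : Measure ((α × α) × (α × α))}

/-- `Z_k` is closed under null modifications. -/
lemma zk_congr {β : Type} [MeasurableSpace β] {F G : α → β} (hF : Measurable F)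
    (hG : Measurable[(X.Z k).σ] G) (h : F =ᵐ[X.μ] G) : Measurable[(X.Z k).σ] F := by
  intro s hs
  obtain ⟨_, B, hB, hAB⟩ := (hG hs : X.InZ k (G ⁻¹' s))
  refine ⟨hF hs, B, hB, ?_⟩
  have h1 : F ⁻¹' s =ᵐ[X.μ] G ⁻¹' s := h.preimage s
  exact ((X.mp_marg (k + 1) v0).quasiMeasurePreserving.preimage_ae_eq h1).trans hAB

/-- Functions with equal values at the two points of `R` are `Z_k`-measurable. -/
lemma diag_meas {F : α → ℂ} (hF : Bdd F) (h : ∀ᵐ p ∂(R X k), F p.1 = F p.2) :
    Measurable[(X.Z k).σ] F := by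
  have h1 : F =ᵐ[X.μ] X.μ[F | (X.Z k).σ] := by
    have h2 : (fun x => F x - (X.μ[F | (X.Z k).σ]) x) =ᵐ[X.μ] 0 := by
      refine ae_zero ((hF.integrable _).sub integrable_condExp) fun M hM => ?_
      have e1 := integral_relSq_mul (X.Z k).le X.μ hM hF
      have hMF : Bdd (fun x => M x * F x) := hM.mul hF
      have e2 : ∫ p, M p.1 * F p.2 ∂(relSq (X.Z k).le X.μ) = ∫ x, M x * F x ∂X.μ := by
        have e3 : ∫ p, M p.1 * F p.2 ∂(relSq (X.Z k).le X.μ) =
            ∫ p, (fun x => M x * F x) p.1 ∂(relSq (X.Z k).le X.μ) := by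
          refine integral_congr_ae ?_
          filter_upwards [h] with p hp
          simp only [hp]
        have e4 := integral_map (μ := relSq (X.Z k).le X.μ)
          (mp_relSq_fst (X.Z k).le X.μ).measurable.aemeasurable
          (f := fun x => M x * F x) hMF.1.aestronglyMeasurable
        rw [(mp_relSq_fst (X.Z k).le X.μ).map_eq] at e4
        rw [e3, e4]
      rw [e2] at e1
      have h8 : (fun a => M a * (F a - (X.μ[F | (X.Z k).σ]) a)) =
          fun a => M a * F a - M a * (X.μ[F | (X.Z k).σ]) a := by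
        funext a; ring
      rw [h8, integral_sub (hMF.integrable _) (integrable_mul_condExp hM), e1, sub_self]
    filter_upwards [h2] with x hx
    exact sub_eq_zero.1 hx
  exact zk_congr hF.1 stronglyMeasurable_condExp.measurable h1

lemma ae_snd (hC : IsConf X k C) {P : α × α → Prop} (h : ∀ᵐ a ∂(R X k), P a) :
    ∀ᵐ p ∂C, P p.2 := hC.snd.quasiMeasurePreserving.ae h

lemma ae_of_snd (hC : IsConf X k C) {P : α × α → Prop} (hP : MeasurableSet {a | P a})
    (h : ∀ᵐ p ∂C, P p.2) : ∀ᵐ a ∂(R X k), P a := by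
  rw [← hC.snd.map_eq]
  exact (ae_map_iff hC.snd.measurable.aemeasurable hP).2 h

/-- the relation after `n` steps in the second coordinate -/
lemma iter_snd (hC : IsConf X k C) {P : (α × α) × (α × α) → Prop} (h : ∀ᵐ p ∂C, P p) (n : ℕ) :
    ∀ᵐ p ∂C, P (p.1, (X.S^[n] p.2.1, X.S^[n] p.2.2)) := by
  have h1 : (Prod.map id (S2 X) : (α × α) × (α × α) → _)^[n] =
      fun p => (p.1, (X.S^[n] p.2.1, X.S^[n] p.2.2)) := by
    induction n with
    | zero => rfl
    | succ n ih =>
      funext p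
      rw [Function.iterate_succ_apply', ih]
      simp [S2, Function.iterate_succ_apply']
  have h2 := (hC.invr.iterate n).quasiMeasurePreserving.ae h
  rw [h1] at h2
  exact h2

/-- the unimodular part of the value -/
noncomputable def un (z : ℂ) : ℂ := if z = 0 then 1 else z / ((‖z‖ : ℝ) : ℂ)

lemma measurable_un : Measurable un := by
  unfold un
  exact Measurable.ite (measurableSet_singleton 0) measurable_const
    (measurable_id.div (Complex.measurable_ofReal.comp measurable_norm))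

lemma norm_un (z : ℂ) : ‖un z‖ = 1 := by
  unfold un
  split_ifs with h
  · simp
  · rw [norm_div, Complex.norm_real, norm_norm, div_self (norm_ne_zero_iff.2 h)]

lemma un_mul {q z : ℂ} (hq : ‖q‖ = 1) (hz : z ≠ 0) : un (q * z) = q * un z := by
  have hq0 : q ≠ 0 := by
    intro h
    rw [h, norm_zero] at hq
    exact zero_ne_one hq
  unfold un
  rw [if_neg (mul_ne_zero hq0 hz), if_neg hz, norm_mul, hq, one_mul, mul_div_assoc]

lemma abs_mul_un (z : ℂ) : z = ((‖z‖ : ℝ) : ℂ) * un z := by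
  unfold un
  split_ifs with h
  · simp [h]
  · have : ((‖z‖ : ℝ) : ℂ) ≠ 0 := by exact_mod_cast norm_ne_zero_iff.2 h
    field_simp

/-- the first visit to `{f ≠ 0}` (`0` if there is none) -/
def vis (X : Sys α) (f : α → ℂ) (n : ℕ) (x : α) : Prop :=
  f (X.S^[n] x) ≠ 0 ∨ ∀ m, f (X.S^[m] x) = 0

omit [StandardBorelSpace α] in
lemma vis_ex (f : α → ℂ) (x : α) : ∃ n, vis X f n x := by
  by_cases h : ∃ n, f (X.S^[n] x) ≠ 0
  · obtain ⟨n, hn⟩ := h
    exact ⟨n, Or.inl hn⟩
  · push Not at h
    exact ⟨0, Or.inr h⟩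

open Classical in
/-- the phase -/
noncomputable def ph (X : Sys α) (f : α → ℂ) (x : α) : ℂ :=
  un (f (X.S^[Nat.find (vis_ex (X := X) f x)] x))

omit [StandardBorelSpace α] in
lemma measurable_iter (n : ℕ) : Measurable (X.S^[n]) := X.S.measurable.iterate n

omit [StandardBorelSpace α] in
open Classical in
lemma measurable_ph {f : α → ℂ} (hf : Measurable f) : Measurable (ph X f) := by
  have hs : ∀ n, MeasurableSet {x | f (X.S^[n] x) = 0} := fun n =>
    (hf.comp (measurable_iter n)) (measurableSet_singleton 0)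
  refine Measurable.find (f := fun n x => un (f (X.S^[n] x)))
    (fun n => measurable_un.comp (hf.comp (measurable_iter n))) (fun n => ?_)
    (fun x => vis_ex (X := X) f x)
  have h1 : {x | vis X f n x} = {x | f (X.S^[n] x) = 0}ᶜ ∪ ⋂ m, {x | f (X.S^[m] x) = 0} := by
    ext x
    simp [vis]
  rw [h1]
  exact (hs n).compl.union (MeasurableSet.iInter hs)

omit [StandardBorelSpace α] in
open Classical in
lemma abs_mul_ph {f : α → ℂ} (x : α) : f x = ((‖f x‖ : ℝ) : ℂ) * ph X f x := by
  by_cases h : f x = 0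
  · simp [h]
  · have h0 : Nat.find (vis_ex (X := X) f x) = 0 := by
      rw [Nat.find_eq_zero]
      exact Or.inl h
    unfold ph
    rw [h0]
    exact abs_mul_un (f x)

omit [StandardBorelSpace α] in
/-- almost every point visits `{f ≠ 0}` -/
lemma ae_vis (hX : X.Erg) {f : α → ℂ} (hf : Measurable f) (hf0 : ¬ f =ᵐ[X.μ] 0) :
    ∀ᵐ x ∂X.μ, ∃ n, f (X.S^[n] x) ≠ 0 := by
  have hs : ∀ n, MeasurableSet {x | f (X.S^[n] x) = 0} := fun n =>
    (hf.comp (measurable_iter n)) (measurableSet_singleton 0)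
  set B : Set α := ⋂ m, {x | f (X.S^[m] x) = 0} with hB
  have hBm : MeasurableSet B := MeasurableSet.iInter hs
  have hsub : B ≤ᵐ[X.μ] X.S ⁻¹' B := by
    refine (ae_of_all _ fun x hx => ?_)
    have hx' : ∀ m, f (X.S^[m] x) = 0 := by
      intro m
      exact Set.mem_iInter.1 (show x ∈ B from hx) m
    show X.S x ∈ B
    refine Set.mem_iInter.2 fun m => ?_
    show f (X.S^[m] (X.S x)) = 0
    rw [← Function.iterate_succ_apply]
    exact hx' (m + 1)
  have hE : Ergodic X.S X.μ := hX
  rcases hE.ae_empty_or_univ_of_ae_le_preimage hBm.nullMeasurableSet hsub with h | h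
  · filter_upwards [h] with x hx
    have h1 : x ∉ B := by
      intro h2
      have h3 : x ∈ (∅ : Set α) := (eq_iff_iff.1 hx).1 h2
      exact h3
    by_contra hc
    push Not at hc
    exact h1 (Set.mem_iInter.2 hc)
  · exfalso
    apply hf0
    filter_upwards [h] with x hx
    have h1 : x ∈ B := (eq_iff_iff.1 hx).2 trivial
    exact Set.mem_iInter.1 h1 0

end

end UnimodM

open GenM Rank1M UnimodM in
open Classical in
/-- UNIMOD -/
theorem specUnimod (hInv : SpecInvFun) : SpecUnimod := by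
  intro α _ _ X hErg k C hC f hfm hf0 q hqm hq1 hfq
  have : Nonempty α := X.μ.nonempty_of_neZero
  have : IsProbabilityMeasure C := prob hC
  have hq1' : ∀ᵐ p ∂C, ‖q p.1‖ = 1 := ae_fst hC hq1
  -- the modulus
  have hnorm : ∀ᵐ a ∂(R X k), ‖f a.1‖ = ‖f a.2‖ := by
    refine ae_of_snd hC (P := fun a => ‖f a.1‖ = ‖f a.2‖) ?_ ?_
    · exact measurableSet_eq_fun (hfm.comp measurable_fst).norm (hfm.comp measurable_snd).norm
    · filter_upwards [hfq, hq1'] with p hp hq
      rw [hp, norm_mul, hq, one_mul]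
  have hb : Measurable[(X.Z k).σ] fun x => ((‖f x‖ : ℝ) : ℂ) := by
    have h1 : Measurable[(X.Z k).σ] fun x => tr (((‖f x‖ : ℝ) : ℂ)) := by
      refine diag_meas (bdd_tr (Complex.measurable_ofReal.comp hfm.norm)) ?_
      filter_upwards [hnorm] with a ha
      rw [ha]
    have h2 : (fun x => ((‖f x‖ : ℝ) : ℂ)) = fun x => itr (tr (((‖f x‖ : ℝ) : ℂ))) := by
      funext x
      rw [itr_tr]
    rw [h2]
    exact measurable_itr.comp h1
  -- the phase
  set φ : α → ℂ := ph X f with hφ
  have hφm : Measurable φ := measurable_ph hfm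
  have hφp : IsPhase φ := ⟨hφm, fun x => norm_un _⟩
  have hiter : ∀ᵐ p ∂C, ∀ n : ℕ, f (X.S^[n] p.2.2) = q p.1 * f (X.S^[n] p.2.1) :=
    ae_all_iff.2 fun n => iter_snd hC hfq n
  have hvis : ∀ᵐ p ∂C, ∃ n, f (X.S^[n] p.2.1) ≠ 0 :=
    (mp21 hC).quasiMeasurePreserving.ae (ae_vis hErg hfm hf0)
  have hφq : ∀ᵐ p ∂C, φ p.2.2 = q p.1 * φ p.2.1 := by
    filter_upwards [hiter, hvis, hq1'] with p hp hv hq
    have hq0 : q p.1 ≠ 0 := by
      intro h
      rw [h, norm_zero] at hq
      exact zero_ne_one hq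
    have hiff : ∀ n, vis X f n p.2.2 ↔ vis X f n p.2.1 := by
      intro n
      unfold vis
      simp only [hp, mul_ne_zero_iff, mul_eq_zero, hq0, ne_eq, not_false_eq_true, true_and,
        false_or]
    have hfind : Nat.find (vis_ex (X := X) f p.2.2) = Nat.find (vis_ex (X := X) f p.2.1) := by
      refine Nat.find_congr' ?_
      intro n
      exact hiff n
    have hne : f (X.S^[Nat.find (vis_ex (X := X) f p.2.1)] p.2.1) ≠ 0 := by
      rcases Nat.find_spec (vis_ex (X := X) f p.2.1) with h | h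
      · exact h
      · obtain ⟨n, hn⟩ := hv
        exact absurd (h n) hn
    show ph X f p.2.2 = q p.1 * ph X f p.2.1
    unfold ph
    rw [hfind, hp, un_mul hq hne]
  -- the kernel `φ(x') conj φ(x)`
  set κ : α × α → ℂ := fun a => φ a.2 * conj (φ a.1) with hκ
  have hκb : Bdd κ := (hφp.bdd.comp measurable_snd).mul (hφp.bdd.comp measurable_fst).conj
  have hκq : ∀ᵐ p ∂C, κ p.2 = q p.1 := by
    filter_upwards [hφq] with p hp
    simp only [hκ, hp]
    rw [mul_assoc, hφp.mul_conj, mul_one]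
  have hκinv : ∀ᵐ a ∂(R X k), κ (S2 X a) = κ a := by
    refine ae_of_snd hC (P := fun a => κ (S2 X a) = κ a)
      (measurableSet_eq_fun (hκb.1.comp measurable_S2) hκb.1) ?_
    have h1 : ∀ᵐ p ∂C, κ (S2 X p.2) = q p.1 := by
      have := hC.invr.quasiMeasurePreserving.ae hκq
      filter_upwards [this] with p hp
      exact hp
    filter_upwards [h1, hκq] with p h1 h2
    rw [h1, h2]
  have hκs := aesm_inv hInv (mpS2 hC) hκb.1 hκinv
  obtain ⟨K0, hK0, hκK0⟩ := hκs
  set K : α × α → ℂ := fun a => if ‖K0 a‖ ≤ 1 then K0 a else 0 with hK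
  have hKm : Measurable[MeasurableSpace.invariants (S2 X)] K := by
    refine Measurable.ite ?_ hK0.measurable measurable_const
    exact hK0.norm.measurable measurableSet_Iic
  have hKI : IK X K := by
    refine ⟨hKm, 1, fun p => ?_⟩
    simp only [hK]
    split_ifs with h
    · exact h
    · simp
  have hκK : κ =ᵐ[R X k] K := by
    filter_upwards [hκK0] with a ha
    have h1 : ‖K0 a‖ ≤ 1 := by
      rw [← ha]
      simp only [hκ, norm_mul, RCLike.norm_conj, hφp.2, mul_one, le_refl]
    simp only [hK, if_pos h1, ha]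
  refine ⟨fun x => ((‖f x‖ : ℝ) : ℂ), φ, hφp, hb, ae_of_all _ fun x => abs_mul_ph x, ?_⟩
  filter_upwards [hC.ker K hKI, ae_fst hC hκK, ae_snd hC hκK] with p h1 h2 h3
  have h4 : κ p.1 = κ p.2 := by rw [h2, h3, h1]
  exact h4

end MPd26.HK.P3
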