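import Pool.Agent.Lib.MP_d26cd8_an.HK.Spec3

/-!
# MP_d26cd8_an, P3: module VBASIC (helper91)

Basic properties of the operators `V_K`.
-/

set_option autoImplicit false

open MeasureTheory ProbabilityTheory Filter Topology
open scoped ComplexConjugate ENNReal

namespace MPd26.HK.P3

namespace VBasicM

variable {α : Type} [mα : MeasurableSpace α] [StandardBorelSpace α] (X : Sys α)

lemma bdd_V (k : ℕ) {K : α × α → ℂ} {f : α → ℂ} (hK : Bdd K) (hf : Bdd f) :
    Bdd (V X k K f) := by
  have hb : Bdd (fun p : α × α => K p * f p.2) := hK.mul (hf.comp measurable_snd)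
  obtain ⟨hm, C, hC⟩ := hb
  refine ⟨?_, C, fun x => ?_⟩
  · exact (StronglyMeasurable.integral_kernel_prod_right' (κ := dis (X.Z k).le X.μ)
      hm.stronglyMeasurable).measurable
  · have h1 := norm_integral_le_of_norm_le_const (μ := dis (X.Z k).le X.μ x)
      (f := fun z => K (x, z) * f z) (C := C) (ae_of_all _ fun z => hC (x, z))
    show ‖∫ z, K (x, z) * f z ∂(dis (X.Z k).le X.μ x)‖ ≤ C
    simpa using h1

lemma int_V (k : ℕ) {K : α × α → ℂ} {f : α → ℂ} (hK : Bdd K) (hf : Bdd f) {h : α → ℂ}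
    (hh : Bdd h) :
    ∫ x, V X k K f x * h x ∂X.μ = ∫ p, K p * f p.2 * h p.1 ∂(R X k) := by
  have hb : Bdd (fun p : α × α => K p * f p.2 * h p.1) :=
    (hK.mul (hf.comp measurable_snd)).mul (hh.comp measurable_fst)
  unfold R relSq
  rw [Measure.integral_compProd (hb.integrable _)]
  congr 1
  funext x
  unfold V
  rw [← integral_mul_const]

lemma int_V_swap (k : ℕ) {K : α × α → ℂ} {f : α → ℂ} (hK : Bdd K) (hf : Bdd f) {h : α → ℂ}
    (hh : Bdd h) :
    ∫ x, V X k K f x * h x ∂X.μ = ∫ x, f x * V X k (K ∘ Prod.swap) h x ∂X.μ := by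
  have hK' : Bdd (K ∘ Prod.swap) := hK.comp measurable_swap
  have hb : Bdd (fun p : α × α => K p * f p.2 * h p.1) :=
    (hK.mul (hf.comp measurable_snd)).mul (hh.comp measurable_fst)
  have hsw := mp_relSq_swap (X.Z k).le X.μ
  rw [int_V X k hK hf hh]
  have h1 : ∫ p, K p * f p.2 * h p.1 ∂(R X k) =
      ∫ p, (K ∘ Prod.swap) p * h p.2 * f p.1 ∂(R X k) := by
    have h2 : ∫ p, K p * f p.2 * h p.1 ∂(R X k) =
        ∫ p, (fun p : α × α => K p * f p.2 * h p.1) p.swap ∂(R X k) := by
      conv_lhs => rw [show R X k = (R X k).map Prod.swap from hsw.map_eq.symm]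
      rw [integral_map measurable_swap.aemeasurable hb.1.aestronglyMeasurable]
    rw [h2]
    refine integral_congr_ae (ae_of_all _ fun p => ?_)
    simp only [Prod.fst_swap, Prod.snd_swap, Function.comp_apply]
    ring
  rw [h1, ← int_V X k hK' hh hf]
  refine integral_congr_ae (ae_of_all _ fun x => mul_comm _ _)

end VBasicM

theorem specVBasic : SpecVBasic := by
  intro α _ _ X k K f hK hf
  exact ⟨VBasicM.bdd_V X k hK hf, fun h hh =>
    ⟨VBasicM.int_V X k hK hf hh, VBasicM.int_V_swap X k hK hf hh⟩⟩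

end MPd26.HK.P3
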