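import Pool.Agent.Lib.MP_d26cd8_an.HK.A_All
import Pool.Agent.Lib.MP_d26cd8_an.HK.A_IdT
import Pool.Agent.Lib.MP_d26cd8_an.HK.P3_HSC
import Pool.Agent.Lib.MP_d26cd8_an.HK.P3_JEig
import Pool.Agent.Lib.MP_d26cd8_an.HK.P3_Op
import Pool.Agent.Lib.MP_d26cd8_an.HK.P3_VBasic
import Pool.Agent.Lib.MP_d26cd8_an.HK.P3_EdgeLaw
import Pool.Agent.Lib.MP_d26cd8_an.HK.P3_EdgeFun
import Pool.Agent.Lib.MP_d26cd8_an.HK.P3_Compl
import Pool.Agent.Lib.MP_d26cd8_an.HK.P3_Total
import Pool.Agent.Lib.MP_d26cd8_an.HK.P3_Q2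
import Pool.Agent.Lib.MP_d26cd8_an.HK.P3_Conf
import Pool.Agent.Lib.MP_d26cd8_an.HK.P3_Key
import Pool.Agent.Lib.MP_d26cd8_an.HK.P3_Edge
import Pool.Agent.Lib.MP_d26cd8_an.HK.P3_Comm
import Pool.Agent.Lib.MP_d26cd8_an.HK.P3_Rank1
import Pool.Agent.Lib.MP_d26cd8_an.HK.P3_Unimod
import Pool.Agent.Lib.MP_d26cd8_an.HK.P3_Repl
import Pool.Agent.Lib.MP_d26cd8_an.HK.P3_Type
import Pool.Agent.Lib.MP_d26cd8_an.HK.P3_Real
import Pool.Agent.Lib.MP_d26cd8_an.HK.P3_PhasesOrd
import Pool.Agent.Lib.MP_d26cd8_an.HK.P3_Phases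
import Pool.Agent.Lib.MP_d26cd8_an.HK.P3_Dense

/-!
# Section 3: assembly
-/

set_option autoImplicit false

namespace MPd26.HK.P3.All

theorem edgeLaw : SpecEdgeLaw := specEdgeLaw A.sym
theorem edgeFun : SpecEdgeFun := specEdgeFun specIdT A.sym A.sideS
theorem compl : SpecCompl := specCompl A.sym
theorem total : SpecTotal := specTotal compl A.sym specZeroOthers
theorem q2 : SpecQ2 := specQ2 specExtProd specZeroProd specIntertwine specIntertwineSq A.ci A.sideS
theorem edge : SpecEdge := specEdge specExtProd A.sym q2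
theorem comm : SpecComm := specComm edge total
theorem rank1 : SpecRank1 := specRank1 specInvFun specZeroProd
theorem unimod : SpecUnimod := specUnimod specInvFun
theorem repl : SpecRepl := specRepl A.sym
theorem type : SpecType := specType repl total

theorem dense : SpecDense :=
  specDense specHSC specJEig specOp edge comm specVBasic edgeLaw total

theorem phases_of (hKey : SpecKey) : MPd26.HK.SpecPhases :=
  specPhases (specPhasesOrd q2 (specConf hKey edgeLaw specExtProd specZeroProd) rank1 unimod type dense)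
    specReal A.zfac A.fac

/-- **KEY.** -/
theorem key : SpecKey := specKey compl edgeFun specZeroProd A.sideS

/-- **Section 3.**  On an ergodic `MPd26` system of order `k + 2`, the bounded functions of type
`k + 1` span a dense subspace. -/
theorem phases : MPd26.HK.SpecPhases := phases_of key

end MPd26.HK.P3.All
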