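import Pool.Agent.Lib.MP_d26cd8_an.HK.Sep

/-!
# MP_d26cd8_an, module PhDer (2.0(b)) and facts on side maps
-/

set_option autoImplicit false

open MeasureTheory ProbabilityTheory Filter Topology
open scoped ComplexConjugate ENNReal

namespace MPd26.HK
namespace PhDerM

open PhM SepM

section Side
variable {α : Type}

lemma join_apply {n : ℕ} (p : Cube n α × Cube n α) (ε : Vx (n + 1)) :
    join p ε = if ε 0 then p.2 (fun i => ε i.succ) else p.1 (fun i => ε i.succ) := rfl

lemma appOn_side0 (g : α → α) {n : ℕ} (x : Cube (n + 1) α) :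
    appOn g (side 0 true) x = join (lo x, cmap g (hi x)) := by
  funext ε
  rw [join_apply]
  unfold appOn side
  by_cases h : ε 0 = true
  · have : (Fin.cons true (fun i => ε i.succ) : Vx (n + 1)) = ε := by
      rw [← h]; exact Fin.cons_self_tail ε
    simp only [Set.mem_ofPred_eq, h, if_true, cmap, hi, this]
  · have h' : ε 0 = false := by simpa using h
    have : (Fin.cons false (fun i => ε i.succ) : Vx (n + 1)) = ε := by
      rw [← h']; exact Fin.cons_self_tail ε
    simp [h', lo, this]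

lemma appOn_side0_join (g : α → α) {n : ℕ} (p : Cube n α × Cube n α) :
    appOn g (side 0 true) (join p) = join (p.1, cmap g p.2) := by
  rw [appOn_side0, lo_join, hi_join]

/-- the derivative of `cp φ` along the upper side in direction `0` -/
lemma cp_side0 {φ : α → ℂ} (hφ : ∀ x, ‖φ x‖ = 1) (g : α → α) {n : ℕ} (x : Cube (n + 1) α) :
    cp φ (n + 1) (appOn g (side 0 true) x) * conj (cp φ (n + 1) x) =
      conj (cp (fun y => φ (g y) * conj (φ y)) n (hi x)) := by
  have h1 : ∀ y : Cube n α, cp φ n y * conj (cp φ n y) = 1 := by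
    intro y
    have : ‖cp φ n y‖ = 1 := by
      unfold cp
      rw [norm_prod]
      exact Finset.prod_eq_one fun ε _ => by rw [norm_sg]; exact hφ _
    rw [Complex.mul_conj, Complex.normSq_eq_norm_sq, this]; simp
  rw [appOn_side0, cp_join, cp_succ]
  have h2 : cp (fun y => φ (g y) * conj (φ y)) n (hi x) =
      cp φ n (cmap g (hi x)) * conj (cp φ n (hi x)) := by
    rw [cp_mul, cp_conj, cp_cmap]
  rw [h2]
  simp only [map_mul, Complex.conj_conj]
  calc cp φ n (lo x) * conj (cp φ n (cmap g (hi x))) * (conj (cp φ n (lo x)) * cp φ n (hi x))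
      = (cp φ n (lo x) * conj (cp φ n (lo x))) * (conj (cp φ n (cmap g (hi x))) * cp φ n (hi x)) := by
        ring
    _ = _ := by rw [h1, one_mul]

end Side

section Norm
variable {Ω : Type} {m : MeasurableSpace Ω} [mΩ : MeasurableSpace Ω] {μ : Measure Ω}

/-- a version of modulus one -/
lemma exists_phase_version {F : Ω → ℂ} (hF : IsPhase F) (hm : AEStronglyMeasurable[m] F μ) :
    ∃ Q : Ω → ℂ, Measurable[m] Q ∧ (∀ x, ‖Q x‖ = 1) ∧ F =ᵐ[μ] Q := by
  classical
  obtain ⟨Q, hQ, hFQ⟩ := hm
  have hs : MeasurableSet[m] {x | ‖Q x‖ = 1} := by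
    have : Measurable[m] fun x => ‖Q x‖ := measurable_norm.comp hQ.measurable
    exact this (measurableSet_singleton 1)
  refine ⟨fun x => if ‖Q x‖ = 1 then Q x else 1, ?_, fun x => ?_, ?_⟩
  · exact Measurable.ite hs hQ.measurable (@measurable_const _ _ _ m _)
  · by_cases h : ‖Q x‖ = 1
    · simp only [h, if_true]
    · simp [h]
  · filter_upwards [hFQ] with x hx
    have : ‖Q x‖ = 1 := by rw [← hx]; exact hF.2 x
    simp only [this, if_true]
    exact hx

end Norm

end PhDerM

open PhM SepM PhDerM in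
/-- module PhDer -/
theorem specPhDer (hA9 : SpecA9) : SpecPhDer := by
  intro α _ _ X N m g hg hgp hside φ hφ
  set u : α → ℂ := fun x => φ (g x) * conj (φ x) with hu
  have hup : IsPhase u := (hφ.1.comp g.measurable).mul hφ.1.conj
  refine ⟨hup, ?_⟩
  obtain ⟨Q, hQ, hQ1, hFQ⟩ := exists_phase_version (hφ.1.cp (m + 2)) hφ.2
  have hs := hside 0 true
  have hgm : Measurable[N.σ, N.σ] g := fun s hs => hg s hs
  have hle := cube_le N (m + 2)
  have hQm : Measurable Q := hQ.mono hle le_rfl
  set R : Cube (m + 2) α → ℂ := fun x => Q (appOn g (side 0 true) x) * conj (Q x) with hR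
  have hRm : Measurable[N.cube (m + 2)] R :=
    (hQ.comp (measurable_appOn_cube N (m + 2) hgm _)).mul
      (Complex.continuous_conj.measurable.comp hQ)
  have hRb : Bdd R := ⟨hRm.mono hle le_rfl, 1, fun x => by
    simp only [hR]; rw [norm_mul, RCLike.norm_conj, hQ1, hQ1, one_mul]⟩
  have e1 : (fun x => cp φ (m + 2) (appOn g (side 0 true) x)) =ᵐ[X.cm (m + 2)]
      fun x => Q (appOn g (side 0 true) x) := hs.quasiMeasurePreserving.ae_eq_comp hFQ
  have e2 : (fun x => conj (cp u (m + 1) (hi x))) =ᵐ[X.cm (m + 2)] R := by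
    filter_upwards [e1, hFQ] with x h1 h2
    rw [← cp_side0 hφ.1.2 g x, h1, h2]
  obtain ⟨Q', hQ'm, hQ'b, hQ'⟩ := hA9 α X N (m + 1) (fun x => conj (cp u (m + 1) x)) R
    (hup.cp (m + 1)).conj.bdd hRb hRm
  have e3 : dist2 (X.cm (m + 2)) (fun x => (fun x => conj (cp u (m + 1) x)) (hi x)) R = 0 := by
    rw [dist2_congr (f' := R) (g' := R) e2 (Filter.EventuallyEq.refl _ _), dist2_self]
  have e4 : dist2 (X.cm (m + 1)) (fun x => conj (cp u (m + 1) x)) Q' = 0 :=
    le_antisymm (hQ'.trans e3.le) (dist2_nonneg _ _)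
  rw [dist2_eq_zero_iff ((hup.cp (m + 1)).conj.bdd.memLp _ 2) (hQ'b.memLp _ 2)] at e4
  refine ⟨fun x => conj (Q' x), ?_, ?_⟩
  · exact (Complex.continuous_conj.measurable.comp hQ'm).stronglyMeasurable
  · filter_upwards [e4] with x hx
    rw [← hx, Complex.conj_conj]

end MPd26.HK
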