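import Pool.Agent.Lib.MP_d26cd8_an.HK.NilSpec
import Pool.Agent.Lib.MP_d26cd8_an.helper29.ProdNil

/-! # Two nil-maps factor through one (binary form) -/

set_option autoImplicit false

namespace MPd26.HK

theorem specProdNil2 : ∀ (α : Type) [MeasurableSpace α] (Fl : Flow α) (m₁ m₂ : ℕ)
    (π₁ : α → MPd26.Nil.NM m₁) (π₂ : α → MPd26.Nil.NM m₂),
    Fl.NilMap m₁ π₁ → Fl.NilMap m₂ π₂ →
    ∃ (m : ℕ) (π : α → MPd26.Nil.NM m) (p₁ : MPd26.Nil.NM m → MPd26.Nil.NM m₁)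
      (p₂ : MPd26.Nil.NM m → MPd26.Nil.NM m₂),
      Fl.NilMap m π ∧ Continuous p₁ ∧ Continuous p₂ ∧
      (∀ x, p₁ (π x) = π₁ x) ∧ (∀ x, p₂ (π x) = π₂ x) := by
  intro α _ Fl m₁ m₂ π₁ π₂ h₁ h₂
  exact ⟨_, _, ProdNilM.p1 m₁ m₂, ProdNilM.p2 m₁ m₂, ProdNilM.prod2 α Fl m₁ m₂ π₁ π₂ h₁ h₂,
    ProdNilM.p1_continuous, ProdNilM.p2_continuous, fun x => ProdNilM.p1_Q _ _,
    fun x => ProdNilM.p2_Q _ _⟩

theorem specProdNilPair : SpecProdNilPair := specProdNil2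

end MPd26.HK
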