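import Pool.Agent.Lib.MP_d26cd8_an.HK.CocDer
import Pool.Agent.Lib.MP_d26cd8_an.HK.Inv99

/-!
# MP_d26cd8_an, module Small (Theorem 2.4, small cube cocycles are coboundaries)
-/

set_option autoImplicit false

open MeasureTheory ProbabilityTheory Filter Topology
open scoped ComplexConjugate ENNReal

namespace MPd26.HK
namespace SmallM

open PhM SepM PhDerM SymCpM Inv99M RelCbM CocDerM

lemma cp_const_one {α : Type} {c : ℂ} (hc : ‖c‖ = 1) {n : ℕ} (x : Cube (n + 1) α) :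
    cp (fun _ => c) (n + 1) x = 1 := by
  rw [cp_succ]
  have : cp (fun _ : α => c) n (hi x) = cp (fun _ => c) n (lo x) := rfl
  rw [this]
  refine cc ?_
  unfold cp
  rw [norm_prod]
  exact Finset.prod_eq_one fun ε _ => by rw [norm_sg]; exact hc

/-- powers -/
def pw {α : Type} [MeasurableSpace α] (S : α ≃ᵐ α) : ℕ → (α ≃ᵐ α)
  | 0 => MeasurableEquiv.refl α
  | h + 1 => (pw S h).trans S

lemma pw_coe {α : Type} [MeasurableSpace α] (S : α ≃ᵐ α) (h : ℕ) : ⇑(pw S h) = S^[h] := by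
  induction h with
  | zero => rfl
  | succ h ih =>
    funext x
    rw [Function.iterate_succ_apply', ← ih]
    rfl

section Sys
variable {α : Type} [mα : MeasurableSpace α] [StandardBorelSpace α] (X : Sys α)

/-- level one -/
lemma base0 (hCT : SpecCocTriv) (hX : X.Erg) {κ : Cube 1 α → ℂ} (hκ : X.CCoc 0 κ) {δ : ℝ}
    (hd : dist2 (X.cm 1) κ (fun _ => 1) ≤ δ) :
    ∃ F : α → ℂ, IsPhase F ∧ (∀ᵐ x ∂(X.cm 1), κ x = cp F 1 x) ∧
      dist2 X.μ F (fun _ => 1) ≤ δ := by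
  obtain ⟨G, hG, hκG⟩ := hCT (Cube 0 α) (X.inv 0) (X.inv_le 0) (X.cm 0)
    (fun p => κ (join p)) (hκ.phase.comp measurable_join) hκ.coc
  set F₀ : α → ℂ := fun x => G (pt x) with hF₀
  have hF₀p : IsPhase F₀ := hG.comp measurable_pt
  have hrep : ∀ᵐ x ∂(X.cm 1), κ x = cp F₀ 1 x := by
    rw [X.ae_cm_succ_iff 0]
    filter_upwards [hκG] with p hp
    have e1 : ∀ y : Cube 0 α, pt (y v0) = y := fun y => by
      funext ε
      exact congrArg y (Subsingleton.elim _ _)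
    rw [hp, cp_join, cp_zero, cp_zero]
    simp only [hF₀, e1]
  set j : α × α → Cube 1 α := fun p => join (pt p.1, pt p.2) with hj
  have hint : Integrable (fun p : α × α => ‖cp F₀ 1 (j p) - 1‖ ^ 2) (X.μ.prod X.μ) := by
    obtain ⟨hm, C, hC⟩ := (((hF₀p.cp 1).bdd).sub (Bdd.const 1)).comp (mp_one X hX).measurable
    refine Integrable.of_bound (hm.norm.pow_const 2).aestronglyMeasurable (C ^ 2)
      (ae_of_all _ fun x => ?_)
    rw [Real.norm_eq_abs, abs_of_nonneg (by positivity)]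
    exact pow_le_pow_left₀ (norm_nonneg _) (hC x) 2
  have h1 := dist2_comp (mp_one X hX) (hF₀p.cp 1).1 (measurable_const (a := (1 : ℂ)))
  have h2 : dist2 (X.cm 1) (cp F₀ 1) (fun _ => 1) =
      ∫ b, ∫ a, ‖cp F₀ 1 (j (a, b)) - 1‖ ^ 2 ∂X.μ ∂X.μ := by
    rw [← h1]
    unfold dist2
    exact integral_prod_symm _ hint
  obtain ⟨b, hb⟩ := exists_le_integral (μ := X.μ) hint.integral_prod_right
  rw [← h2, ← dist2_congr hrep (Filter.EventuallyEq.refl _ _)] at hb
  have hcb : ‖conj (F₀ b)‖ = 1 := by rw [RCLike.norm_conj]; exact hF₀p.2 b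
  refine ⟨fun a => F₀ a * conj (F₀ b), hF₀p.mul (IsPhase.const hcb), ?_, ?_⟩
  · filter_upwards [hrep] with x hx
    rw [hx, cp_mul F₀ (fun _ => conj (F₀ b)) x, cp_const_one hcb, mul_one]
  · refine le_trans (le_of_eq ?_) (hb.trans hd)
    unfold dist2
    refine integral_congr_ae (ae_of_all _ fun a => ?_)
    have e1 : cp F₀ 1 (j (a, b)) = F₀ a * conj (F₀ b) := by
      simp only [hj]
      rw [cp_join, cp_zero, cp_zero]; rfl
    simp only [e1]

omit [StandardBorelSpace α] in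
lemma iter_one_comp {n : ℕ} (F : Set (Vx n)) (h : ℕ) (x : Cube n α) :
    appOn (X.S^[1]) F (appOn (X.S^[h]) F x) = appOn (X.S^[h + 1]) F x := by
  rw [appOn_iter, appOn_iter, appOn_iter, Function.iterate_one, Function.iterate_succ_apply']

/-- the derivatives along the powers of `S` -/
lemma der_small (hCD : SpecCocDer) (hSS : SpecSideS) {n : ℕ} {κ : Cube (n + 2) α → ℂ}
    (hκ : X.CCoc (n + 1) κ) {e : ℝ} (he : 0 ≤ e)
    (hd : dist2 (X.cm (n + 2)) κ (fun _ => 1) ≤ e) (h : ℕ) :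
    ∃ κ' : Cube (n + 1) α → ℂ, X.CCoc n κ' ∧
      (∀ᵐ x ∂(X.cm (n + 2)), κ' (hi x) =
        κ x * conj (κ (appOn (X.S^[h]) (side 0 true) x))) ∧
      dist2 (X.cm (n + 1)) κ' (fun _ => 1) ≤ 4 * e := by
  have hSh : MeasurePreserving (X.S^[h]) X.μ X.μ := X.mp.iterate h
  have hside : ∀ (i : Fin (n + 2)) (b : Bool),
      MeasurePreserving (appOn (X.S^[h]) (side i b)) (X.cm (n + 2)) (X.cm (n + 2)) := fun i b =>
    side_iter X (hSS α X (n + 2)).1 i b h
  obtain ⟨κ', h1, h2⟩ := hCD α X n (pw X.S h) (by rw [pw_coe]; exact hSh)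
    (fun i b => by rw [pw_coe]; exact hside i b) κ hκ
  have h3 : ∀ᵐ x ∂(X.cm (n + 2)), κ' (hi x) =
        κ x * conj (κ (appOn (X.S^[h]) (side 0 true) x)) := by
    rw [X.ae_cm_succ_iff (n + 1)]
    unfold Sys.Der at h2
    filter_upwards [h2] with p hp
    rw [hi_join, hp, appOn_side0_join, pw_coe]
  refine ⟨κ', h1, h3, ?_⟩
  set T : Cube (n + 2) α → Cube (n + 2) α := appOn (X.S^[h]) (side 0 true) with hT
  have hTp := hside 0 true
  have h4 : dist2 (X.cm (n + 1)) κ' (fun _ => 1) =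
      dist2 (X.cm (n + 2)) (fun x => κ x * conj (κ (T x))) (fun _ => 1 * 1) := by
    rw [← dist2_comp (X.mp_hi (n + 1)) h1.phase.1 measurable_const,
      dist2_congr h3 (Filter.EventuallyEq.refl _ _), mul_one]
  have hone : IsPhase (fun _ : Cube (n + 2) α => (1 : ℂ)) := IsPhase.const (by simp)
  have h5 : Real.sqrt (dist2 (X.cm (n + 2)) (fun x => κ x * conj (κ (T x))) (fun _ => 1 * 1)) ≤
      Real.sqrt e + Real.sqrt e := by
    refine sqrt_dist2_mul hκ.phase hone (hκ.phase.comp hTp.measurable).conj hone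
      (Real.sqrt_le_sqrt hd) ?_
    have e1 : dist2 (X.cm (n + 2)) (fun x => conj (κ (T x))) (fun _ => 1) =
        dist2 (X.cm (n + 2)) κ (fun _ => 1) := by
      have e2 := dist2_conj (μ := X.cm (n + 2)) (fun x => κ (T x)) (fun _ => 1)
      simp only [map_one] at e2
      rw [e2]
      exact dist2_comp hTp hκ.phase.1 measurable_const
    rw [e1]
    exact Real.sqrt_le_sqrt hd
  rw [h4]
  refine (le_sq_of_sqrt_le (dist2_nonneg _ _) h5).trans (le_of_eq ?_)
  have := Real.sq_sqrt he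
  nlinarith

/-- the derivatives form a cocycle -/
lemma coc_h (hSS : SpecSideS) {n : ℕ} {κ : Cube (n + 2) α → ℂ} (hκp : IsPhase κ)
    {κ' : ℕ → Cube (n + 1) α → ℂ} (hκ' : ∀ h, IsPhase (κ' h))
    (hder : ∀ h, ∀ᵐ x ∂(X.cm (n + 2)), κ' h (hi x) =
        κ x * conj (κ (appOn (X.S^[h]) (side 0 true) x))) (h : ℕ) :
    ∀ᵐ b ∂(X.cm (n + 1)), κ' (h + 1) b = κ' h b * κ' 1 (cmap (X.S^[h]) b) := by
  have hTp := side_iter X (hSS α X (n + 2)).1 0 true h
  have h1 : ∀ᵐ x ∂(X.cm (n + 2)), κ' (h + 1) (hi x) =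
      κ' h (hi x) * κ' 1 (cmap (X.S^[h]) (hi x)) := by
    filter_upwards [hder (h + 1), hder h, hTp.quasiMeasurePreserving.ae (hder 1)] with x e1 e2 e3
    rw [iter_one_comp] at e3
    have e4 : hi (appOn (X.S^[h]) (side 0 true) x) = cmap (X.S^[h]) (hi x) := by
      rw [appOn_side0, hi_join]
    rw [e4] at e3
    rw [e1, e2, e3]
    have := hκp.conj_mul (appOn (X.S^[h]) (side 0 true) x)
    calc κ x * conj (κ (appOn (X.S^[h + 1]) (side 0 true) x))
        = (conj (κ (appOn (X.S^[h]) (side 0 true) x)) * κ (appOn (X.S^[h]) (side 0 true) x)) *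
          (κ x * conj (κ (appOn (X.S^[h + 1]) (side 0 true) x))) := by rw [this, one_mul]
      _ = _ := by ring
  rw [← (X.mp_hi (n + 1)).map_eq]
  refine (ae_map_iff (X.mp_hi (n + 1)).measurable.aemeasurable ?_).2 h1
  have hm : Measurable (cmap (X.S^[h]) : Cube (n + 1) α → Cube (n + 1) α) :=
    measurable_cmap (X.S.measurable.iterate h)
  exact measurableSet_eq_fun (hκ' (h + 1)).1 ((hκ' h).1.mul ((hκ' 1).1.comp hm))

/-- functions with trivial cubes -/
lemma ph_triv {n : ℕ} {B : α → ℂ} (hB : IsPhase B) (h : ∀ᵐ x ∂(X.cm n), cp B n x = 1) :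
    X.Ph X.triv n B :=
  ⟨hB, aesm_congr (f := fun _ => 1) stronglyMeasurable_const.aestronglyMeasurable h⟩

/-- the products `bprod F_1 h` are constant multiples of `F_h` -/
lemma bprod_const (hSep0 : SpecSep0) (hX : X.Erg) {n : ℕ} {s : ℝ}
    (hs1 : 9 * s ^ 2 < (1 / 4 : ℝ) ^ (n + 1)) {κ' : ℕ → Cube (n + 1) α → ℂ}
    (hcoc : ∀ h, ∀ᵐ b ∂(X.cm (n + 1)), κ' (h + 1) b = κ' h b * κ' 1 (cmap (X.S^[h]) b))
    (hzero : ∀ᵐ b ∂(X.cm (n + 1)), κ' 0 b = 1)
    {F : ℕ → α → ℂ} (hF : ∀ h, IsPhase (F h))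
    (hκF : ∀ h, ∀ᵐ b ∂(X.cm (n + 1)), κ' h b = cp (F h) (n + 1) b)
    (hd : ∀ h, Real.sqrt (dist2 X.μ (F h) (fun _ => 1)) ≤ s) (h : ℕ) :
    ∃ c : ℂ, ‖c‖ = 1 ∧ ∀ᵐ x ∂X.μ, bprod X.S (F 1) h x * conj (F h x) = c := by
  induction h with
  | zero =>
    have h1 : X.Ph X.triv (n + 1) (F 0) := by
      refine ph_triv X (hF 0) ?_
      filter_upwards [hzero, hκF 0] with b e1 e2
      rw [← e2, e1]
    have h2 : dist2 X.μ (F 0) (fun _ => 1) < (1 / 4 : ℝ) ^ (n + 1) := by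
      have := le_sq_of_sqrt_le (dist2_nonneg _ _) (hd 0)
      nlinarith
    obtain ⟨c, hc, hFc⟩ := hSep0 α X hX n (F 0) 1 (by simp) h1 h2
    refine ⟨conj c, by rw [RCLike.norm_conj]; exact hc, ?_⟩
    filter_upwards [hFc] with x hx
    rw [bprod_zero, one_mul, hx]
  | succ h ih =>
    obtain ⟨c, hc, hcD⟩ := ih
    have hSh : MeasurePreserving (X.S^[h]) X.μ X.μ := X.mp.iterate h
    set B : α → ℂ := fun x => (F h x * F 1 (X.S^[h] x)) * conj (F (h + 1) x) with hB
    have hBp : IsPhase B := ((hF h).mul ((hF 1).comp hSh.measurable)).mul (hF (h + 1)).conj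
    have hmp : MeasurePreserving (cmap (X.S^[h]) : Cube (n + 1) α → Cube (n + 1) α)
        (X.cm (n + 1)) (X.cm (n + 1)) := by
      have e1 : (cmap (X.S^[h]) : Cube (n + 1) α → Cube (n + 1) α) = (cmap X.S)^[h] := by
        clear hcD hSh hBp hB B
        induction h with
        | zero => rfl
        | succ h ih =>
          funext x
          rw [Function.iterate_succ_apply', ← ih]
          funext ε
          exact Function.iterate_succ_apply' _ _ _
      rw [e1]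
      exact (X.mp_cmap (n + 1)).iterate h
    have h1 : X.Ph X.triv (n + 1) B := by
      refine ph_triv X hBp ?_
      filter_upwards [hcoc h, hκF h, hκF (h + 1),
        hmp.quasiMeasurePreserving.ae (hκF 1)] with b e1 e2 e3 e4
      have e5 : cp B (n + 1) b = (cp (F h) (n + 1) b * cp (F 1) (n + 1) (cmap (X.S^[h]) b)) *
          conj (cp (F (h + 1)) (n + 1) b) := by
        simp only [hB]
        rw [cp_mul (fun x => F h x * F 1 (X.S^[h] x)) (fun x => conj (F (h + 1) x)),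
          cp_mul (F h) (fun x => F 1 (X.S^[h] x)), cp_conj, cp_cmap]
      rw [e5, ← e2, ← e4, ← e3, e1]
      refine cc ?_
      rw [e2, e4, norm_mul, ((hF h).cp (n + 1)).2, ((hF 1).cp (n + 1)).2, one_mul]
    have hone : IsPhase (fun _ : α => (1 : ℂ)) := IsPhase.const (by simp)
    have h2 : Real.sqrt (dist2 X.μ B (fun _ => (1 * 1) * 1)) ≤ (s + s) + s := by
      refine sqrt_dist2_mul ((hF h).mul ((hF 1).comp hSh.measurable)) (hone.mul hone)
        (hF (h + 1)).conj hone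
        (sqrt_dist2_mul (hF h) hone ((hF 1).comp hSh.measurable) hone (hd h) ?_) ?_
      · have := dist2_comp hSh (hF 1).1 (measurable_const (a := (1 : ℂ)))
        rw [this]; exact hd 1
      · have := dist2_conj (μ := X.μ) (F (h + 1)) (fun _ => 1)
        simp only [map_one] at this
        rw [this]; exact hd (h + 1)
    rw [mul_one, mul_one] at h2
    have h3 : dist2 X.μ B (fun _ => 1) < (1 / 4 : ℝ) ^ (n + 1) := by
      refine (le_sq_of_sqrt_le (dist2_nonneg _ _) h2).trans_lt (lt_of_eq_of_lt ?_ hs1)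
      ring
    obtain ⟨c', hc', hBc⟩ := hSep0 α X hX n B 1 (by simp) h1 h3
    refine ⟨c * c', by rw [norm_mul, hc, hc', one_mul], ?_⟩
    filter_upwards [hcD, hBc] with x e1 e2
    rw [bprod_succ, ← e1, ← e2]
    simp only [hB]
    have := (hF h).conj_mul x
    calc bprod X.S (F 1) h x * F 1 (X.S^[h] x) * conj (F (h + 1) x)
        = (conj (F h x) * F h x) *
          (bprod X.S (F 1) h x * F 1 (X.S^[h] x) * conj (F (h + 1) x)) := by rw [this, one_mul]
      _ = _ := by ring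

omit [StandardBorelSpace α] in
lemma bprod_conj (F : α → ℂ) (h : ℕ) (x : α) :
    bprod X.S (fun y => conj (F y)) h x = conj (bprod X.S F h x) := by
  unfold bprod
  rw [map_prod]

/-- the induction step -/
lemma core (hCD : SpecCocDer) (hSS : SpecSideS) (hSym : SpecSym) (hSep0 : SpecSep0)
    (hX : X.Erg) {n : ℕ} {κ : Cube (n + 2) α → ℂ} (hκ : X.CCoc (n + 1) κ) {e s η : ℝ}
    (he : 0 ≤ e) (hd : dist2 (X.cm (n + 2)) κ (fun _ => 1) ≤ e) (hs : 0 ≤ s)
    (hs1 : 9 * s ^ 2 < (1 / 4 : ℝ) ^ (n + 1))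
    (hIH : ∀ κ : Cube (n + 1) α → ℂ, X.CCoc n κ →
      dist2 (X.cm (n + 1)) κ (fun _ => 1) ≤ 4 * e →
      ∃ F : α → ℂ, IsPhase F ∧ (∀ᵐ x ∂(X.cm (n + 1)), κ x = cp F (n + 1) x) ∧
        dist2 X.μ F (fun _ => 1) ≤ s ^ 2)
    (hfix : ∀ (ρ φ : α → ℂ), IsPhase ρ → IsPhase φ →
      (∀ n : ℕ, dist2 (relSq X.triv.le X.μ)
        (fun p => conj (bprod X.S ρ n p.1) * bprod X.S ρ n p.2 *
          (φ (X.S^[n] p.1) * conj (φ (X.S^[n] p.2))))
        (fun p => φ p.1 * conj (φ p.2)) ≤ (2 * s) ^ 2) →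
      ∃ ψ θ : α → ℂ, IsPhase ψ ∧ IsPhase θ ∧ Measurable[X.triv.σ] θ ∧
      (∀ᵐ x ∂X.μ, ψ (X.S x) = θ x * ρ x * ψ x) ∧ dist2 X.μ ψ φ ≤ η) :
    ∃ F : α → ℂ, IsPhase F ∧ (∀ᵐ x ∂(X.cm (n + 2)), κ x = cp F (n + 2) x) ∧
        dist2 X.μ F (fun _ => 1) ≤ η := by
  choose κ' hκ'c hder hκ'd using der_small X hCD hSS hκ he hd
  choose F hF hκF hFd using fun h => hIH (κ' h) (hκ'c h) (hκ'd h)
  have hcoc := coc_h X hSS hκ.phase (fun h => (hκ'c h).phase) hder
  have hzero : ∀ᵐ b ∂(X.cm (n + 1)), κ' 0 b = 1 := by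
    rw [← (X.mp_hi (n + 1)).map_eq]
    refine (ae_map_iff (X.mp_hi (n + 1)).measurable.aemeasurable
      (measurableSet_eq_fun (hκ'c 0).phase.1 measurable_const)).2 ?_
    filter_upwards [hder 0] with x hx
    rw [hx, appOn_iter, Function.iterate_zero, id, hκ.phase.mul_conj]
  have hd' : ∀ h, Real.sqrt (dist2 X.μ (F h) (fun _ => 1)) ≤ s := fun h =>
    sqrt_le_of_sq_le hs (hFd h)
  have hb := bprod_const X hSep0 hX hs1 hcoc hzero hF hκF hd'
  have hone : IsPhase (fun _ : α => (1 : ℂ)) := IsPhase.const (by simp)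
  -- FIX
  obtain ⟨ψ, θ, hψ, hθ, hθm, hψθ, hψd⟩ := hfix (fun x => conj (F 1 x)) (fun _ => 1) (hF 1).conj hone
    (fix_hyp X X.triv hone (s := s) (ρ' := fun h x => conj (F h x)) (fun h => (hF h).conj)
      (fun h => by
        have e1 := dist2_conj (μ := X.μ) (F h) (fun _ => 1)
        simp only [map_one] at e1
        simp only [map_one, mul_one]
        rw [dist2_comm, e1]
        exact hd' h)
      (fun h => by
        obtain ⟨c, _, hc⟩ := hb h
        refine aesm_congr (f := fun _ => conj c)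
          stronglyMeasurable_const.aestronglyMeasurable ?_
        filter_upwards [hc] with x hx
        rw [bprod_conj, ← hx, map_mul]))
  obtain ⟨c, hc⟩ : ∃ c : ℂ, θ = fun _ => c := by
    have hθ' : StronglyMeasurable[⊥] θ := hθm.stronglyMeasurable
    exact stronglyMeasurable_bot_iff (f := θ) |>.1 hθ'
  have hc1 : ‖c‖ = 1 := by
    obtain ⟨x, _⟩ := hψθ.exists
    have := hθ.2 x
    rw [hc] at this
    exact this
  -- the cube of the derivative of `ψ`
  have h1 : (fun x => ψ (X.S x) * conj (ψ x)) =ᵐ[X.μ] fun x => c * conj (F 1 x) := by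
    filter_upwards [hψθ] with x hx
    rw [hx, hc, mul_assoc, hψ.mul_conj, mul_one]
  have h2 : ∀ᵐ b ∂(X.cm (n + 1)), cp (fun x => ψ (X.S x) * conj (ψ x)) (n + 1) b =
      conj (κ' 1 b) := by
    filter_upwards [cp_congr_ae X h1 (n + 1), hκF 1] with b e1 e2
    rw [e1, cp_mul (fun _ => c) (fun x => conj (F 1 x)), cp_const_one hc1, one_mul, cp_conj, e2]
  set κ₁ : Cube (n + 2) α → ℂ := fun x => κ x * cp ψ (n + 2) x with hκ₁
  have hκ₁p : IsPhase κ₁ := hκ.phase.mul (hψ.cp (n + 2))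
  have hinv0 : ∀ᵐ x ∂(X.cm (n + 2)), κ₁ (appOn X.S (side 0 true) x) = κ₁ x := by
    filter_upwards [hder 1, (X.mp_hi (n + 1)).quasiMeasurePreserving.ae h2] with x e1 e2
    rw [Function.iterate_one] at e1
    have e3 := cp_side0 hψ.2 X.S x
    rw [e2, Complex.conj_conj] at e3
    simp only [hκ₁]
    set Tx := appOn X.S (side 0 true) x
    have b1 := hκ.phase.mul_conj x
    have b2 := hκ.phase.conj_mul Tx
    have b3 := (hψ.cp (n + 2)).conj_mul x
    have e4 : κ Tx = κ x * conj (κ' 1 (hi x)) := by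
      rw [e1, map_mul, Complex.conj_conj, ← mul_assoc, b1, one_mul]
    have e5 : cp ψ (n + 2) Tx = κ' 1 (hi x) * cp ψ (n + 2) x := by
      rw [← e3, mul_assoc, b3, mul_one]
    rw [e4, e5]
    have b4 := (hκ'c 1).phase.conj_mul (hi x)
    calc κ x * conj (κ' 1 (hi x)) * (κ' 1 (hi x) * cp ψ (n + 2) x)
        = (conj (κ' 1 (hi x)) * κ' 1 (hi x)) * (κ x * cp ψ (n + 2) x) := by ring
      _ = _ := by rw [b4, one_mul]
  have hinv := inv_sides X hSym (A := κ₁) (fun σ r => by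
      filter_upwards [hκ.sym σ r] with x hx
      simp only [hκ₁]
      rw [hx, cp_symm, sg_mul]) (hSS α X (n + 2)).1 hinv0
  obtain ⟨d, hd1⟩ := (hSS α X (n + 1)).2 hX κ₁ hκ₁p.1 hinv
  have hd2 : ‖d‖ = 1 := by
    obtain ⟨x, hx⟩ := hd1.exists
    rw [← hx]; exact hκ₁p.2 x
  -- the constant is one
  have hd3 : ∀ᵐ p ∂(relSq (X.inv_le (n + 1)) (X.cm (n + 1))), κ₁ (join p) = d :=
    (X.ae_cm_succ_iff (n + 1)).1 hd1
  have a1 := (mp_relCb_12 (X.inv_le (n + 1)) (X.cm (n + 1))).quasiMeasurePreserving.ae hd3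
  have a2 := (mp_relCb_23 (X.inv_le (n + 1)) (X.cm (n + 1))).quasiMeasurePreserving.ae hd3
  have a3 := (mp_relCb_13 (X.inv_le (n + 1)) (X.cm (n + 1))).quasiMeasurePreserving.ae hd3
  have hd4 : d * d = d := by
    have h5 : ∀ᵐ q ∂(relCb (X.inv_le (n + 1)) (X.cm (n + 1))), d * d = d := by
      filter_upwards [a1, a2, a3, hκ.coc] with q e1 e2 e3 e4
      have e5 : κ₁ (join (q.1, q.2.1)) * κ₁ (join (q.2.1, q.2.2)) = κ₁ (join (q.1, q.2.2)) := by
        simp only [hκ₁]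
        rw [← e4, cp_join, cp_join, cp_join]
        have := (hψ.cp (n + 1)).conj_mul q.2.1
        calc κ (join (q.1, q.2.1)) * (cp ψ (n + 1) q.1 * conj (cp ψ (n + 1) q.2.1)) *
              (κ (join (q.2.1, q.2.2)) * (cp ψ (n + 1) q.2.1 * conj (cp ψ (n + 1) q.2.2)))
            = (conj (cp ψ (n + 1) q.2.1) * cp ψ (n + 1) q.2.1) *
              (κ (join (q.1, q.2.1)) * κ (join (q.2.1, q.2.2)) *
                (cp ψ (n + 1) q.1 * conj (cp ψ (n + 1) q.2.2))) := by ring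
          _ = _ := by rw [this, one_mul]
      have e6 : κ₁ (join q.2) = d := e2
      have e7 : κ₁ (join (q.2.1, q.2.2)) = d := e6
      rw [e1, e7, e3] at e5
      exact e5
    have hprob : IsProbabilityMeasure (relCb (X.inv_le (n + 1)) (X.cm (n + 1))) := by
      unfold relCb; infer_instance
    exact h5.exists.choose_spec
  have hd5 : d = 1 := by
    have hne : d ≠ 0 := fun h => by rw [h, norm_zero] at hd2; exact zero_ne_one hd2
    exact mul_left_cancel₀ hne (by rw [hd4, mul_one])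
  refine ⟨fun x => conj (ψ x), hψ.conj, ?_, ?_⟩
  · filter_upwards [hd1] with x hx
    rw [cp_conj]
    rw [hd5] at hx
    simp only [hκ₁] at hx
    have := (hψ.cp (n + 2)).mul_conj x
    calc κ x = κ x * (cp ψ (n + 2) x * conj (cp ψ (n + 2) x)) := by rw [this, mul_one]
      _ = (κ x * cp ψ (n + 2) x) * conj (cp ψ (n + 2) x) := by ring
      _ = _ := by rw [hx, one_mul]
  · have e1 := dist2_conj (μ := X.μ) ψ (fun _ => 1)
    simp only [map_one] at e1
    rw [e1]; exact hψd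

end Sys

end SmallM

open SmallM in
/-- module Small -/
theorem specSmall (hCT : SpecCocTriv) (hCD : SpecCocDer) (hFix : SpecFix) (hSep0 : SpecSep0)
    (hSS : SpecSideS) (hSym : SpecSym) : SpecSmall := by
  obtain ⟨δ₀, hδ₀, C, hC, hfix⟩ := hFix
  intro n
  induction n with
  | zero =>
    intro δ hδ
    exact ⟨δ, hδ, fun α _ _ X hX κ hκ hd => base0 X hCT hX hκ hd⟩
  | succ n ih =>
    intro δ hδ
    set s : ℝ := min (min (δ₀ / 2) (δ / (2 * C))) ((1 / 4 : ℝ) ^ (n + 1) / 10) with hs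
    have hspos : 0 < s := lt_min (lt_min (by positivity) (by positivity)) (by positivity)
    have hs1 : 2 * s ≤ δ₀ := by
      have : s ≤ δ₀ / 2 := (min_le_left _ _).trans (min_le_left _ _)
      linarith
    have hs2 : C * (2 * s) ≤ δ := by
      have : s ≤ δ / (2 * C) := (min_le_left _ _).trans (min_le_right _ _)
      rw [le_div_iff₀ (by positivity)] at this
      linarith
    have hs3 : 9 * s ^ 2 < (1 / 4 : ℝ) ^ (n + 1) := by
      have h1 : s ≤ (1 / 4 : ℝ) ^ (n + 1) / 10 := min_le_right _ _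
      have h2 : (1 / 4 : ℝ) ^ (n + 1) ≤ 1 := pow_le_one₀ (by norm_num) (by norm_num)
      have h3 : 0 < (1 / 4 : ℝ) ^ (n + 1) := by positivity
      nlinarith
    obtain ⟨e', he', hIH⟩ := ih (s ^ 2) (by positivity)
    refine ⟨e' / 4, by positivity, ?_⟩
    intro α _ _ X hX κ hκ hd
    obtain ⟨F, h1, h2, h3⟩ := core X hCD hSS hSym hSep0 hX hκ (e := e' / 4) (s := s) (η := δ)
      (by positivity) hd hspos.le hs3
      (fun κ h1 h2 => hIH α X hX κ h1 (h2.trans (by linarith)))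
      (fun ρ φ h1 h2 h3 => by
        obtain ⟨ψ, θ, a1, a2, a3, a4, a5⟩ :=
          hfix α X X.triv hX ρ φ h1 h2 (2 * s) (by positivity) hs1 h3
        exact ⟨ψ, θ, a1, a2, a3, a4, a5.trans hs2⟩)
    exact ⟨F, h1, h2, h3⟩

end MPd26.HK
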