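import Pool.Agent.Lib.MP_d26cd8_an.HK.Dist
import Pool.Agent.Lib.MP_d26cd8_an.HK.Spec0

/-!
# Bounded functions: further API (compatible with HK/Sq, Met, Dist)
-/

set_option autoImplicit false

open MeasureTheory ProbabilityTheory Filter Topology
open scoped ComplexConjugate ENNReal

namespace MPd26.HK

section
variable {α β : Type} [MeasurableSpace α] [MeasurableSpace β]

namespace Bdd

/-- A nonnegative bound. -/
lemma bound {f : α → ℂ} (hf : Bdd f) : ∃ C : ℝ, 0 ≤ C ∧ ∀ x, ‖f x‖ ≤ C := by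
  obtain ⟨C, hC⟩ := hf.2
  exact ⟨max C 0, le_max_right _ _, fun x => (hC x).trans (le_max_left _ _)⟩

lemma mk' {f : α → ℂ} (hf : Measurable f) (C : ℝ) (hC : ∀ x, ‖f x‖ ≤ C) : Bdd f := ⟨hf, C, hC⟩

lemma const_mul {f : α → ℂ} (c : ℂ) (hf : Bdd f) : Bdd (fun x => c * f x) :=
  (Bdd.const c).mul hf

lemma mul_const {f : α → ℂ} (c : ℂ) (hf : Bdd f) : Bdd (fun x => f x * c) :=
  hf.mul (Bdd.const c)

lemma cj {f : α → ℂ} (hf : Bdd f) : Bdd (fun x => (starRingEnd ℂ) (f x)) := hf.conj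

lemma comp' {f : β → ℂ} (hf : Bdd f) {p : α → β} (hp : Measurable p) : Bdd (f ∘ p) := hf.comp hp

lemma indicator {f : α → ℂ} (hf : Bdd f) {A : Set α} (hA : MeasurableSet A) :
    Bdd (A.indicator f) := by
  obtain ⟨C, hC0, hC⟩ := hf.bound
  refine ⟨hf.1.indicator hA, C, fun x => ?_⟩
  by_cases hx : x ∈ A
  · rw [Set.indicator_of_mem hx]; exact hC x
  · rw [Set.indicator_of_notMem hx, norm_zero]; exact hC0

lemma ind {A : Set α} (hA : MeasurableSet A) : Bdd (A.indicator fun _ => (1 : ℂ)) :=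
  (Bdd.const 1).indicator hA

/-- Products of functions of the coordinates. -/
lemma prodCube {n : ℕ} {f : Vx n → α → ℂ} (hf : ∀ ε, Bdd (f ε)) :
    Bdd (fun x : Cube n α => ∏ ε, f ε (x ε)) :=
  Bdd.prod _ fun ε _ => (hf ε).comp (measurable_pi_apply ε)

lemma asm {f : α → ℂ} (hf : Bdd f) (μ : Measure α) : AEStronglyMeasurable f μ :=
  hf.1.aestronglyMeasurable

lemma int {f : α → ℂ} (hf : Bdd f) (μ : Measure α) [IsFiniteMeasure μ] : Integrable f μ :=
  hf.integrable μ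

lemma int_sq {f : α → ℂ} (hf : Bdd f) (μ : Measure α) [IsFiniteMeasure μ] :
    Integrable (fun x => ‖f x‖ ^ 2) μ :=
  (hf.memLp μ 2).integrable_norm_pow (by norm_num)

end Bdd

end

section
variable {α : Type} {m : MeasurableSpace α} [mα : MeasurableSpace α]

/-- A bounded measurable version of the conditional expectation. -/
lemma Bdd.condExp (hm : m ≤ mα)
    (μ : Measure α) [IsFiniteMeasure μ] {f : α → ℂ} (hf : Bdd f) :
    ∃ g : α → ℂ, Measurable[m] g ∧ Bdd g ∧ g =ᵐ[μ] μ[f | m] := by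
  obtain ⟨C, hC0, hC⟩ := hf.bound
  obtain ⟨g, h1, h2, h3⟩ := exists_condExp_version (m := m) (μ := μ) hm hC0 hC
  exact ⟨g, h1, ⟨h1.mono hm le_rfl, C, h2⟩, h3.symm⟩

/-- Pull-out. -/
lemma condExp_mul_right
    (μ : Measure α) [IsFiniteMeasure μ] {f g : α → ℂ} (hg : AEStronglyMeasurable[m] g μ)
    (hfg : Integrable (fun x => f x * g x) μ) (hf : Integrable f μ) :
    μ[fun x => f x * g x | m] =ᵐ[μ] fun x => (μ[f | m]) x * g x :=
  condExp_bilin_of_aestronglyMeasurable_right (ContinuousLinearMap.mul ℝ ℂ) hg hfg hf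

/-- `∫ f g = ∫ f E(g|m)` for `f` measurable with respect to `m`. -/
lemma integral_mul_condExp_meas (hm : m ≤ mα)
    (μ : Measure α) [IsFiniteMeasure μ] {f g : α → ℂ} (hf : AEStronglyMeasurable[m] f μ)
    (hfg : Integrable (fun x => f x * g x) μ) (hg : Integrable g μ) :
    ∫ x, f x * g x ∂μ = ∫ x, f x * (μ[g | m]) x ∂μ := by
  rw [← integral_condExp hm (f := fun x => f x * g x)]
  exact integral_congr_ae (condExp_mul_left hf hfg hg)

lemma condExp_conj
    (μ : Measure α) [IsFiniteMeasure μ] (f : α → ℂ) :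
    μ[fun x => conj (f x) | m] =ᵐ[μ] fun x => conj ((μ[f | m]) x) := by
  by_cases hf : Integrable f μ
  · have := ContinuousLinearMap.comp_condExp_comm (m := m) (μ := μ) hf
      (Complex.conjCLE.toContinuousLinearMap)
    exact this.symm
  · have h2 : ¬ Integrable (fun x => conj (f x)) μ := by
      intro h
      apply hf
      have := (Complex.conjCLE.toContinuousLinearMap).integrable_comp h
      simpa using this
    rw [condExp_of_not_integrable hf, condExp_of_not_integrable h2]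
    exact Eventually.of_forall fun x => by simp

/-- Cauchy-Schwarz, squared form. -/
lemma norm_integral_mul_sq_le (μ : Measure α) {f g : α → ℂ}
    (hf : MemLp f 2 μ) (hg : MemLp g 2 μ) :
    ‖∫ x, f x * g x ∂μ‖ ^ 2 ≤ (∫ x, ‖f x‖ ^ 2 ∂μ) * ∫ x, ‖g x‖ ^ 2 ∂μ := by
  have h1 := norm_integral_mul_le hf hg
  have e1 : dist2 μ f 0 = ∫ x, ‖f x‖ ^ 2 ∂μ := by simp [dist2]
  have e2 : dist2 μ g 0 = ∫ x, ‖g x‖ ^ 2 ∂μ := by simp [dist2]
  rw [← e1, ← e2]
  calc ‖∫ x, f x * g x ∂μ‖ ^ 2 ≤ (Real.sqrt (dist2 μ f 0) * Real.sqrt (dist2 μ g 0)) ^ 2 :=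
        pow_le_pow_left₀ (norm_nonneg _) h1 2
    _ = _ := by rw [mul_pow, Real.sq_sqrt (dist2_nonneg _ _), Real.sq_sqrt (dist2_nonneg _ _)]

end

end MPd26.HK
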