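import Pool.Agent.Lib.MP_d26cd8_an.HK.Spec0
import Pool.Agent.Lib.MP_d26cd8_an.HK.Sq

/-!
# MP_d26cd8_an, HK: module Dual (helper18)

`E(F(x_*)|x_0)` is measurable with respect to `x_*`.
-/

set_option autoImplicit false

open MeasureTheory ProbabilityTheory Filter Topology
open scoped ComplexConjugate ENNReal

namespace MPd26.HK

namespace DualM

section
variable {Ω : Type} {m : MeasurableSpace Ω} [mΩ : MeasurableSpace Ω]

/-- A bounded measurable version of the conditional expectation. -/
lemma version (hm : m ≤ mΩ) (μ : Measure Ω) [IsFiniteMeasure μ] {f : Ω → ℂ} (hf : Bdd f) :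
    ∃ g : Ω → ℂ, Measurable[m] g ∧ Bdd g ∧ g =ᵐ[μ] μ[f | m] := by
  obtain ⟨hfm, C, hC⟩ := hf
  have h1 : StronglyMeasurable[m] (μ[f | m]) := stronglyMeasurable_condExp
  have h2 : ∀ᵐ x ∂μ, ‖(μ[f | m]) x‖ ≤ C := condExp_bdd hC
  have hs : MeasurableSet[m] {x | ‖(μ[f | m]) x‖ ≤ C} := h1.norm.measurable measurableSet_Iic
  have h3 : Measurable[m] (({x | ‖(μ[f | m]) x‖ ≤ C}).indicator (μ[f | m])) :=
    (h1.indicator hs).measurable
  refine ⟨_, h3, ⟨h3.mono hm le_rfl, |C|, fun x => ?_⟩, ?_⟩
  · by_cases hx : x ∈ {x | ‖(μ[f | m]) x‖ ≤ C}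
    · rw [Set.indicator_of_mem hx]; exact le_trans hx (le_abs_self C)
    · rw [Set.indicator_of_notMem hx, norm_zero]; exact abs_nonneg C
  · filter_upwards [h2] with x hx
    rw [Set.indicator_of_mem (show x ∈ {x | ‖(μ[f | m]) x‖ ≤ C} from hx)]

/-- `∫ f g = ∫ f E(g|m)` for `f` measurable with respect to `m`. -/
lemma integral_pull (hm : m ≤ mΩ) (μ : Measure Ω) [IsFiniteMeasure μ] {f g : Ω → ℂ}
    (hf : Bdd f) (hfm : AEStronglyMeasurable[m] f μ) (hg : Bdd g) :
    ∫ x, f x * g x ∂μ = ∫ x, f x * (μ[g | m]) x ∂μ := by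
  rw [← integral_condExp hm (f := fun x => f x * g x)]
  exact integral_congr_ae (condExp_mul_left hfm ((hf.mul hg).integrable μ) (hg.integrable μ))

omit mΩ in
/-- Bounded functions measurable with respect to `comap p` factor through `p`. -/
lemma factor {Ω' : Type} [MeasurableSpace Ω'] {p : Ω → Ω'} {F : Ω → ℂ}
    (hF : Measurable[MeasurableSpace.comap p inferInstance] F) (hb : ∃ C : ℝ, ∀ x, ‖F x‖ ≤ C) :
    ∃ G : Ω' → ℂ, Bdd G ∧ ∀ x, F x = G (p x) := by
  obtain ⟨C, hC⟩ := hb
  obtain ⟨G, hG, hFG⟩ := hF.exists_eq_measurable_comp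
  have hs : MeasurableSet {y | ‖G y‖ ≤ C} := hG.norm measurableSet_Iic
  refine ⟨({y | ‖G y‖ ≤ C}).indicator G, ⟨hG.indicator hs, |C|, fun y => ?_⟩, fun x => ?_⟩
  · by_cases hy : y ∈ {y | ‖G y‖ ≤ C}
    · rw [Set.indicator_of_mem hy]; exact le_trans hy (le_abs_self C)
    · rw [Set.indicator_of_notMem hy, norm_zero]; exact abs_nonneg C
  · have h1 : F x = G (p x) := congrFun hFG x
    have h2 : p x ∈ {y | ‖G y‖ ≤ C} := by
      change ‖G (p x)‖ ≤ C
      rw [← h1]; exact hC x
    rw [Set.indicator_of_mem h2, h1]

end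

variable {α : Type} [mα : MeasurableSpace α]

/-- The upper side map of `S` on the coordinates other than `0`. -/
def tt (S : α → α) {n : ℕ} (i : Fin n) (y : {η : Vx n // η ≠ v0} → α) :
    {η : Vx n // η ≠ v0} → α := fun η => if η.1 i = true then S (y η) else y η

omit mα in
lemma appOn_apply (S : α → α) {n : ℕ} (i : Fin n) (b : Bool) (x : Cube n α) (ε : Vx n) :
    appOn S (side i b) x ε = if ε i = b then S (x ε) else x ε := by
  unfold appOn side
  by_cases h : ε i = b <;> simp [h]

lemma rst_appOn (S : α → α) {n : ℕ} (i : Fin n) (x : Cube n α) :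
    rst v0 (appOn S (side i true) x) = tt S i (rst v0 x) := by
  funext η
  change appOn S (side i true) x η = _
  rw [appOn_apply]
  rfl

lemma appOn_v0 (S : α → α) {n : ℕ} (i : Fin n) (x : Cube n α) :
    appOn S (side i true) x v0 = x v0 := by
  rw [appOn_apply]
  simp [v0]

lemma appOn_comm (S : α → α) {n : ℕ} (i j : Fin n) (x : Cube n α) :
    appOn S (side i true) (appOn S (side j true) x)
      = appOn S (side j true) (appOn S (side i true) x) := by
  funext ε
  rw [appOn_apply, appOn_apply, appOn_apply, appOn_apply]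
  by_cases h1 : ε i = true <;> by_cases h2 : ε j = true <;> simp [h1, h2]

lemma measurable_tt {S : α → α} (hS : Measurable S) {n : ℕ} (i : Fin n) :
    Measurable (tt S i : ({η : Vx n // η ≠ v0} → α) → _) := by
  refine measurable_pi_lambda _ fun η => ?_
  unfold tt
  by_cases h : η.1 i = true
  · simp only [h, if_true]
    exact hS.comp (measurable_pi_apply η)
  · simp only [h]
    exact measurable_pi_apply η

end DualM

open DualM in
theorem specDual (hInt : SpecIntertwine) (hSide : SpecSideS) (hUp : SpecUpper) : SpecDual := by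
  intro α _ _ X n F hF hFm
  have ht : ∀ i : Fin n, MeasurePreserving (appOn X.S (side i true)) (X.cm n) (X.cm n) :=
    fun i => (hSide α X n).1 i true
  have hr : MeasurePreserving (rst v0 : Cube n α → _) (X.cm n) ((X.cm n).map (rst v0)) :=
    ⟨measurable_rst v0, rfl⟩
  have : IsProbabilityMeasure ((X.cm n).map (rst (v0 : Vx n))) :=
    Measure.isProbabilityMeasure_map (measurable_rst v0).aemeasurable
  have htt : ∀ i : Fin n, MeasurePreserving (tt X.S i) ((X.cm n).map (rst v0))
      ((X.cm n).map (rst v0)) := by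
    intro i
    refine ⟨measurable_tt X.S.measurable i, ?_⟩
    rw [Measure.map_map (measurable_tt X.S.measurable i) (measurable_rst v0)]
    have : tt X.S i ∘ rst v0 = rst v0 ∘ appOn X.S (side i true) := by
      funext x; exact (rst_appOn X.S i x).symm
    rw [this, ← Measure.map_map (measurable_rst v0) (ht i).measurable, (ht i).map_eq]
  obtain ⟨G0, hG0, hFG0⟩ := factor (p := rst (v0 : Vx n)) hFm hF.2
  have key : ∀ s : Finset (Fin n), ∃ G : ({η : Vx n // η ≠ v0} → α) → ℂ, Bdd G ∧
      (∀ i ∈ s, ∀ᵐ x ∂(X.cm n), G (rst v0 (appOn X.S (side i true) x)) = G (rst v0 x)) ∧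
      ∀ f : α → ℂ, Bdd f → ∫ x, f (x v0) * F x ∂(X.cm n) = ∫ x, f (x v0) * G (rst v0 x) ∂(X.cm n) := by
    intro s
    induction s using Finset.induction_on with
    | empty =>
      refine ⟨G0, hG0, by simp, fun f _ => ?_⟩
      simp only [hFG0]
    | insert a s _ ih =>
      obtain ⟨G, hG, hinv, hint⟩ := ih
      obtain ⟨G', hG'm, hG', hG'e⟩ :=
        version (MeasurableSpace.invariants_le (tt X.S a)) ((X.cm n).map (rst v0)) hG
      have hB : Bdd (fun x : Cube n α => G (rst v0 x)) := hG.comp (measurable_rst v0)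
      set T : Cube n α → Cube n α := appOn X.S (side a true) with hT
      have e1 : (fun x : Cube n α => G' (rst v0 x)) =ᵐ[X.cm n]
          (X.cm n)[fun x : Cube n α => G (rst v0 x) | MeasurableSpace.invariants T] := by
        have h1 := hInt (Cube n α) ({η : Vx n // η ≠ v0} → α) (X.cm n) ((X.cm n).map (rst v0))
          T (tt X.S a) (rst v0) (ht a) (htt a) hr
          (ae_of_all _ fun x => rst_appOn X.S a x) G hG
        have h2 : (fun x : Cube n α => G' (rst v0 x)) =ᵐ[X.cm n]
            (((X.cm n).map (rst v0))[G | MeasurableSpace.invariants (tt X.S a)]) ∘ rst v0 :=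
          hr.quasiMeasurePreserving.ae_eq_comp hG'e
        exact h2.trans h1.symm
      refine ⟨G', hG', ?_, ?_⟩
      · intro i hi
        -- the conditional expectation is invariant
        have h3 : (fun x : Cube n α => G' (rst v0 (appOn X.S (side i true) x))) =ᵐ[X.cm n]
            ((X.cm n)[fun x : Cube n α => G (rst v0 x) | MeasurableSpace.invariants T]) ∘
              appOn X.S (side i true) :=
          (ht i).quasiMeasurePreserving.ae_eq_comp e1
        have h4 : ((X.cm n)[fun x : Cube n α => G (rst v0 x) | MeasurableSpace.invariants T]) ∘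
              appOn X.S (side i true) =ᵐ[X.cm n]
            (X.cm n)[fun x : Cube n α => G (rst v0 x) | MeasurableSpace.invariants T] := by
          rcases Finset.mem_insert.1 hi with hi | hi
          · subst hi
            have := MeasurableSpace.comp_eq_of_measurable_invariants (f := T)
              (g := (X.cm n)[fun x : Cube n α => G (rst v0 x) | MeasurableSpace.invariants T])
              stronglyMeasurable_condExp.measurable
            rw [← hT, this]
          · have h5 := hInt (Cube n α) (Cube n α) (X.cm n) (X.cm n) T T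
              (appOn X.S (side i true)) (ht a) (ht a) (ht i)
              (ae_of_all _ fun x => appOn_comm X.S i a x) (fun x : Cube n α => G (rst v0 x)) hB
            refine h5.symm.trans (condExp_congr_ae ?_)
            exact hinv i hi
        exact (h3.trans h4).trans e1.symm
      · intro f hf
        have hfb : Bdd (fun x : Cube n α => f (x v0)) := hf.comp (measurable_pi_apply v0)
        rw [hint f hf]
        have hfi : Measurable[MeasurableSpace.invariants T] (fun x : Cube n α => f (x v0)) := by
          intro s hs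
          refine MeasurableSpace.measurableSet_invariants.2 ⟨hfb.1 hs, ?_⟩
          ext x
          simp only [Set.mem_preimage]
          rw [hT, appOn_v0]
        rw [integral_pull (MeasurableSpace.invariants_le T) (X.cm n) hfb
          hfi.stronglyMeasurable.aestronglyMeasurable hB]
        refine integral_congr_ae ?_
        filter_upwards [e1] with x hx
        rw [← hx]
  obtain ⟨G, hG, hinv, hint⟩ := key Finset.univ
  have hB : Bdd (fun x : Cube n α => G (rst v0 x)) := hG.comp (measurable_rst v0)
  obtain ⟨D, hD, hGD⟩ := hUp α X n (fun x => G (rst v0 x)) hB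
    (fun i => hinv i (Finset.mem_univ i))
  refine ⟨D, hD, ?_, fun f hf => ?_⟩
  · refine ⟨fun x => G (rst v0 x), ?_, ?_⟩
    · have : Measurable[others α (v0 : Vx n)] (fun x : Cube n α => G (rst v0 x)) :=
        hG.1.comp (comap_measurable _)
      exact this.stronglyMeasurable
    · filter_upwards [hGD] with x hx
      exact hx.symm
  · rw [hint f hf]
    refine integral_congr_ae ?_
    filter_upwards [hGD] with x hx
    rw [hx]

end MPd26.HK
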