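import Pool.Agent.Lib.MP_d26cd8_an.HK.Dist
import Pool.Agent.Lib.MP_d26cd8_an.HK.Spec0

/-!
# Factor maps and cube measures (SpecFac, SpecFacInv), helper69
-/

set_option autoImplicit false

open MeasureTheory ProbabilityTheory Filter Topology
open scoped ComplexConjugate ENNReal

namespace MPd26.HK

namespace FacM

section L2
variable {Ω : Type} {m : MeasurableSpace Ω} [mΩ : MeasurableSpace Ω] {μ : Measure Ω}

/-- `L²` limits of `m`-measurable functions are `m`-measurable. -/
theorem aesm_of_dist2 [IsProbabilityMeasure μ] (hm : m ≤ mΩ) {F : ℕ → Ω → ℂ} {g : Ω → ℂ}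
    (hF : ∀ N, Bdd (F N)) (hFm : ∀ N, AEStronglyMeasurable[m] (F N) μ) (hg : MemLp g 2 μ)
    (h : Tendsto (fun N => dist2 μ (F N) g) atTop (𝓝 0)) : AEStronglyMeasurable[m] g μ := by
  have h1 : Tendsto (fun N => ((hF N).memLp μ 2).toLp (F N)) atTop (𝓝 (hg.toLp g)) := by
    rw [tendsto_iff_norm_sub_tendsto_zero]
    have h2 := h.sqrt
    rw [Real.sqrt_zero] at h2
    refine h2.congr fun N => ?_
    rw [dist2_toLp ((hF N).memLp μ 2) hg, Real.sqrt_sq (norm_nonneg _)]
  have h2 : AEStronglyMeasurable[m] (hg.toLp g : Ω → ℂ) μ := by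
    have hcl := isClosed_aestronglyMeasurable (F := ℂ) (p := 2) (μ := μ) hm
    refine hcl.mem_of_tendsto h1 (Eventually.of_forall fun N => ?_)
    exact (hFm N).congr ((hF N).memLp μ 2).coeFn_toLp.symm
  exact h2.congr hg.coeFn_toLp

end L2

variable {α β : Type} [MeasurableSpace α] [StandardBorelSpace α] [MeasurableSpace β]
  [StandardBorelSpace β]

omit [StandardBorelSpace β] in
theorem cmap_ae {X : Sys α} {Y : Sys β} {p : α → β} (hp : FMap X Y p) (n : ℕ) :
    ∀ᵐ x ∂X.cm n, cmap p (cmap X.S x) = cmap Y.S (cmap p x) := by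
  have h1 : ∀ ε : Vx n, ∀ᵐ x ∂X.cm n, p (X.S (x ε)) = Y.S (p (x ε)) := fun ε =>
    (X.mp_marg n ε).quasiMeasurePreserving.ae hp.eqv
  filter_upwards [ae_all_iff.2 h1] with x hx
  funext ε
  exact hx ε

theorem mp (hIS : SpecIntertwineSq) {X : Sys α} {Y : Sys β} {p : α → β} (hp : FMap X Y p) (n : ℕ) :
    MeasurePreserving (cmap p : Cube n α → Cube n β) (X.cm n) (Y.cm n) := by
  induction n with
  | zero =>
    refine ⟨measurable_cmap hp.meas, ?_⟩
    rw [Sys.cm_zero, Sys.cm_zero, Measure.map_map (measurable_cmap hp.meas) measurable_pt, ← hp.law,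
      Measure.map_map measurable_pt hp.meas]
    rfl
  | succ n ih =>
    have h1 := hIS _ _ (X.cm n) (Y.cm n) (cmap X.S) (cmap Y.S) (cmap p) (X.mp_cmap n)
      (Y.mp_cmap n) ih (cmap_ae hp n)
    refine ⟨measurable_cmap hp.meas, ?_⟩
    rw [Sys.cm_succ, Sys.cm_succ, Measure.map_map (measurable_cmap hp.meas) measurable_join]
    have h2 : (cmap p : Cube (n + 1) α → Cube (n + 1) β) ∘ join
        = join ∘ Prod.map (cmap p) (cmap p) := by
      funext q
      exact Sys.cmap_join p q
    rw [h2, ← Measure.map_map measurable_join h1.measurable]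
    exact congrArg (Measure.map join) h1.map_eq

end FacM

theorem specFac (hI : SpecIntertwine) (hIS : SpecIntertwineSq) : SpecFac := by
  intro α β _ _ _ _ X Y p hp n
  refine ⟨FacM.mp hIS hp n, fun A hA => ?_⟩
  exact hI _ _ (X.cm n) (Y.cm n) (cmap X.S) (cmap Y.S) (cmap p) (X.mp_cmap n)
      (Y.mp_cmap n) (FacM.mp hIS hp n) (FacM.cmap_ae hp n) A hA

theorem specFacInv : SpecFacInv := by
  intro α _ _ X N n A hAm hA
  have hle : N.cube n ≤ MeasurableSpace.pi :=
    iSup_mono fun _ => MeasurableSpace.comap_mono N.le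
  have hS : @Measurable _ _ (N.cube n) (N.cube n) (cmap X.S : Cube n α → Cube n α) := by
    have h1 : @Measurable _ _ N.σ N.σ X.S := fun s hs => N.inv s hs
    have h2 : ∀ ε : Vx n, @Measurable (Cube n α) α (N.cube n) N.σ (fun x => x ε) := fun ε =>
      @measurable_pi_apply (Vx n) (fun _ => α) (fun _ => N.σ) ε
    exact @measurable_pi_lambda (Cube n α) (Vx n) (fun _ => α) (N.cube n) (fun _ => N.σ) _
      fun ε => h1.comp (h2 ε)
  have hSk : ∀ k : ℕ, @Measurable _ _ (N.cube n) (N.cube n)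
      ((cmap X.S : Cube n α → Cube n α)^[k]) := fun k => hS.iterate k
  have hE2 : MemLp ((X.cm n)[A | X.inv n]) 2 (X.cm n) := by
    obtain ⟨hm, C, hC⟩ := hA
    exact MemLp.of_bound integrable_condExp.aestronglyMeasurable C (condExp_bdd hC)
  refine FacM.aesm_of_dist2 hle (F := fun N x => (N : ℂ)⁻¹ * ∑ k ∈ Finset.range N,
    A ((cmap X.S)^[k] x)) (fun N => ?_) (fun M => ?_) hE2 (mean_ergodic (X.mp_cmap n) hA)
  · exact (Bdd.const _).mul (Bdd.sum _ fun k _ => hA.comp ((X.measurable_cmapS n).iterate k))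
  · refine Measurable.stronglyMeasurable ?_ |>.aestronglyMeasurable
    refine Measurable.const_mul ?_ _
    exact Finset.measurable_sum _ fun k _ => hAm.comp (hSk k)

end MPd26.HK
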