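import Pool.Agent.Lib.MP_d26cd8_an.HK.A_Bdd

/-!
# M0: uniqueness of measures and orthogonality to products
-/

set_option autoImplicit false

open MeasureTheory ProbabilityTheory Filter Topology
open scoped ComplexConjugate ENNReal

namespace MPd26.HK

section
variable {Ω : Type} {m : MeasurableSpace Ω} [mΩ : MeasurableSpace Ω]

omit m in
lemma setIntegral_eq_mul_ind {ρ : Measure Ω} {h : Ω → ℂ} {s : Set Ω} (hs : MeasurableSet s) :
    ∫ x in s, h x ∂ρ = ∫ x, h x * s.indicator (fun _ => (1 : ℂ)) x ∂ρ := by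
  rw [← integral_indicator hs]
  refine integral_congr_ae (Eventually.of_forall fun x => ?_)
  by_cases hx : x ∈ s <;> simp [hx]

/-- An integrable function whose integrals over a generating π-system vanish has vanishing
integrals over all sets of the generated σ-algebra. -/
lemma setIntegral_zero_of_pi (hm : m ≤ mΩ) (ρ : Measure Ω)
    (C : Set (Set Ω)) (hC : m = MeasurableSpace.generateFrom C) (hpi : IsPiSystem C)
    {h : Ω → ℂ} (hint : Integrable h ρ) (h0 : ∫ x, h x ∂ρ = 0)
    (hC0 : ∀ s ∈ C, ∫ x in s, h x ∂ρ = 0) (s : Set Ω) (hs : MeasurableSet[m] s) :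
    ∫ x in s, h x ∂ρ = 0 := by
  induction s, hs using MeasurableSpace.induction_on_inter hC hpi with
  | empty => simp
  | basic t ht => exact hC0 t ht
  | compl t ht ih =>
    have := integral_add_compl (hm t ht) hint
    rw [ih, h0, zero_add] at this
    exact this
  | iUnion f hd hf ih =>
    rw [integral_iUnion (fun i => hm _ (hf i)) hd hint.integrableOn]
    simp [ih]

/-- Orthogonality to the indicator functions of `m` gives orthogonality to bounded
`m`-measurable functions. -/
lemma integral_mul_eq_zero_of_sets (hm : m ≤ mΩ) (ρ : Measure Ω)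
    [IsFiniteMeasure ρ] {h : Ω → ℂ} (hint : Integrable h ρ)
    (hs : ∀ s, MeasurableSet[m] s → ∫ x in s, h x ∂ρ = 0) {F : Ω → ℂ}
    (hF : AEStronglyMeasurable[m] F ρ) (C : ℝ) (hC : ∀ᵐ x ∂ρ, ‖F x‖ ≤ C) :
    ∫ x, h x * F x ∂ρ = 0 := by
  have h1 : ρ[h | m] =ᵐ[ρ] (0 : Ω → ℂ) := by
    refine (ae_eq_condExp_of_forall_setIntegral_eq hm hint
      (fun s _ _ => (integrable_zero _ _ _).integrableOn) ?_
      aestronglyMeasurable_zero).symm
    intro s hs' _
    rw [hs s hs']
    simp
  have hFh : Integrable (fun x => F x * h x) ρ :=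
    hint.bdd_mul (hF.mono hm) hC
  calc ∫ x, h x * F x ∂ρ = ∫ x, F x * h x ∂ρ := by simp only [mul_comm]
    _ = ∫ x, F x * (ρ[h | m]) x ∂ρ := integral_mul_condExp_meas hm ρ hF hFh hint
    _ = ∫ x, (0 : ℂ) ∂ρ := by
        refine integral_congr_ae ?_
        filter_upwards [h1] with x hx
        rw [hx]; simp
    _ = 0 := by simp

end

section
variable {Ω Ω' : Type} [mΩ : MeasurableSpace Ω] [mΩ' : MeasurableSpace Ω']

omit mΩ mΩ' in
lemma ind_prod (A : Set Ω) (B : Set Ω') (p : Ω × Ω') :
    (A ×ˢ B).indicator (fun _ => (1 : ℂ)) p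
      = A.indicator (fun _ => (1 : ℂ)) p.1 * B.indicator (fun _ => (1 : ℂ)) p.2 := by
  by_cases h1 : p.1 ∈ A <;> by_cases h2 : p.2 ∈ B <;>
    simp [Set.indicator, Set.mem_prod, h1, h2]

lemma real_eq_of_integral_ind {ρ ρ' : Measure Ω} [IsFiniteMeasure ρ] [IsFiniteMeasure ρ']
    {s : Set Ω} (hs : MeasurableSet s)
    (h : ∫ x, s.indicator (fun _ => (1 : ℂ)) x ∂ρ = ∫ x, s.indicator (fun _ => (1 : ℂ)) x ∂ρ') :
    ρ s = ρ' s := by
  rw [integral_indicator hs, integral_indicator hs] at h
  simp only [integral_const, mul_one, Complex.real_smul] at h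
  have h2 : ρ.real s = ρ'.real s := by
    have := congrArg Complex.re h
    simpa [Measure.real] using this
  rwa [measureReal_eq_measureReal_iff] at h2

end

theorem specExtProd : SpecExtProd := by
  intro Ω Ω' _ _ ρ ρ' _ _ h
  refine Measure.ext_prod fun {A B} hA hB => ?_
  apply real_eq_of_integral_ind (hA.prod hB)
  simp only [ind_prod]
  exact h _ _ (Bdd.ind hA) (Bdd.ind hB)

section
variable {α : Type} [MeasurableSpace α]

omit [MeasurableSpace α] in
lemma ind_pi {n : ℕ} (s : Vx n → Set α) (x : Cube n α) :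
    (Set.pi Set.univ s).indicator (fun _ => (1 : ℂ)) x
      = ∏ ε, (s ε).indicator (fun _ => (1 : ℂ)) (x ε) := by
  by_cases h : x ∈ Set.pi Set.univ s
  · rw [Set.indicator_of_mem h, Finset.prod_eq_one]
    intro ε _
    rw [Set.indicator_of_mem (h ε trivial)]
  · rw [Set.indicator_of_notMem h]
    simp only [Set.mem_univ_pi, not_forall] at h
    obtain ⟨ε, hε⟩ := h
    exact (Finset.prod_eq_zero (Finset.mem_univ ε) (Set.indicator_of_notMem hε _)).symm

end

theorem specExtCube : SpecExtCube := by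
  intro α _ n ρ ρ' _ _ h
  refine ext_of_generate_finite _ generateFrom_pi.symm isPiSystem_pi ?_ (by simp)
  rintro s ⟨t, ht, rfl⟩
  have ht' : ∀ ε, MeasurableSet (t ε) := fun ε => ht ε trivial
  apply real_eq_of_integral_ind (MeasurableSet.univ_pi ht')
  simp only [ind_pi]
  exact h _ fun ε => Bdd.ind (ht' ε)

theorem specZeroN : SpecZeroN := by
  intro Ω Ω' m mΩ m' mΩ' hm hm' ρ _ h hint h0 F hF hFm
  have hle : m.prod m' ≤ mΩ.prod mΩ' :=
    sup_le_sup (MeasurableSpace.comap_mono hm) (MeasurableSpace.comap_mono hm')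
  have hone : ∫ x, h x ∂ρ = 0 := by
    have := h0 (fun _ => 1) (fun _ => 1) (Bdd.const 1) (Bdd.const 1) measurable_const
      measurable_const
    simpa using this
  obtain ⟨C, -, hC⟩ := hF.bound
  refine integral_mul_eq_zero_of_sets hle ρ hint (fun s hs => ?_)
    (hFm.stronglyMeasurable.aestronglyMeasurable) C (Eventually.of_forall hC)
  refine setIntegral_zero_of_pi hle ρ
    (Set.image2 (fun A B => A ×ˢ B) {s | MeasurableSet[m] s} {t | MeasurableSet[m'] t}) ?_ ?_
    hint hone ?_ s hs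
  · exact (@generateFrom_prod Ω Ω' m m').symm
  · exact @isPiSystem_prod Ω Ω' m m'
  · rintro _ ⟨A, hA, B, hB, rfl⟩
    rw [setIntegral_eq_mul_ind ((hm A hA).prod (hm' B hB))]
    simp only [ind_prod]
    exact h0 _ _ (Bdd.ind (hm A hA)) (Bdd.ind (hm' B hB))
      (measurable_const.indicator hA) (measurable_const.indicator hB)

theorem specZeroProd : SpecZeroProd := by
  intro Ω Ω' mΩ mΩ' ρ _ h hint h0
  have h1 : ∀ s, MeasurableSet s → ρ s < ⊤ → ∫ x in s, h x ∂ρ = 0 := by
    intro s hs _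
    rw [setIntegral_eq_mul_ind hs]
    exact specZeroN Ω Ω' mΩ mΩ mΩ' mΩ' le_rfl le_rfl ρ h hint
      (fun f g hf hg _ _ => h0 f g hf hg) _ (Bdd.ind hs) (measurable_const.indicator hs)
  exact Integrable.ae_eq_zero_of_forall_setIntegral_eq_zero hint h1

theorem specZeroOthers : SpecZeroOthers := by
  intro α _ n ρ _ h hint h0 F hF hFm
  have hle := others_le (α := α) (v0 : Vx n)
  have hone : ∫ x, h x ∂ρ = 0 := by
    have := h0 (fun _ _ => 1) (fun _ => Bdd.const 1) (fun _ => rfl)
    simpa using this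
  obtain ⟨C, -, hC⟩ := hF.bound
  refine integral_mul_eq_zero_of_sets hle ρ hint (fun s hs => ?_) hFm C
    (Eventually.of_forall hC)
  refine setIntegral_zero_of_pi hle ρ
    ((fun t => rst (v0 : Vx n) ⁻¹' t) '' (Set.pi Set.univ '' Set.pi Set.univ fun _ =>
      {s : Set α | MeasurableSet s})) ?_ ?_ hint hone ?_ s hs
  · unfold others
    rw [← generateFrom_pi, MeasurableSpace.comap_generateFrom]
  · exact isPiSystem_pi.comap _
  · rintro _ ⟨_, ⟨t, ht, rfl⟩, rfl⟩
    have ht' : ∀ ε, MeasurableSet (t ε) := fun ε => ht ε trivial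
    have hms : MeasurableSet (rst (v0 : Vx n) ⁻¹' Set.pi Set.univ t) :=
      measurable_rst _ (MeasurableSet.univ_pi ht')
    rw [setIntegral_eq_mul_ind hms]
    classical
    have key : ∀ x : Cube n α, (rst (v0 : Vx n) ⁻¹' Set.pi Set.univ t).indicator
        (fun _ => (1 : ℂ)) x = ∏ ε : Vx n, (if hε : ε ≠ v0 then
          (t ⟨ε, hε⟩).indicator (fun _ => (1 : ℂ)) else fun _ => 1) (x ε) := by
      intro x
      by_cases hx : x ∈ rst (v0 : Vx n) ⁻¹' Set.pi Set.univ t
      · rw [Set.indicator_of_mem hx, Finset.prod_eq_one]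
        intro ε _
        by_cases hε : ε ≠ v0
        · rw [dif_pos hε]
          exact Set.indicator_of_mem (hx ⟨ε, hε⟩ trivial) _
        · rw [dif_neg hε]
      · rw [Set.indicator_of_notMem hx]
        simp only [Set.mem_preimage, Set.mem_univ_pi, not_forall] at hx
        obtain ⟨⟨ε, hε⟩, hx⟩ := hx
        refine (Finset.prod_eq_zero (Finset.mem_univ ε) ?_).symm
        rw [dif_pos hε]
        exact Set.indicator_of_notMem hx _
    simp only [key]
    refine h0 _ (fun ε => ?_) (fun y => by simp)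
    by_cases hε : ε ≠ v0
    · rw [dif_pos hε]; exact Bdd.ind (ht' _)
    · rw [dif_neg hε]; exact Bdd.const 1

end MPd26.HK
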