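import Pool.Agent.Lib.MP_d26cd8_an.HK.A_M0

/-!
# M1: relatively independent squares
-/

set_option autoImplicit false

open MeasureTheory ProbabilityTheory Filter Topology
open scoped ComplexConjugate ENNReal

namespace MPd26.HK

section
variable {Ω : Type} {m : MeasurableSpace Ω} [mΩ : MeasurableSpace Ω] [StandardBorelSpace Ω]

/-- Integrals with respect to the relative square as iterated integrals. -/
lemma integral_relSq (hm : m ≤ mΩ) (μ : Measure Ω) [IsFiniteMeasure μ] {F : Ω × Ω → ℂ}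
    (hF : Integrable F (relSq hm μ)) :
    ∫ p, F p ∂(relSq hm μ) = ∫ x, ∫ y, F (x, y) ∂(dis hm μ x) ∂μ :=
  Measure.integral_compProd hF

lemma integral_dis (hm : m ≤ mΩ) (μ : Measure Ω) [IsFiniteMeasure μ] {g : Ω → ℂ}
    (hg : Integrable g μ) : (fun x => ∫ y, g y ∂(dis hm μ x)) =ᵐ[μ] μ[g | m] :=
  (condExp_ae_eq_integral_condExpKernel hm hg).symm

lemma relSq_int1 (hm : m ≤ mΩ) (μ : Measure Ω) [IsProbabilityMeasure μ] {f g : Ω → ℂ}
    (hf : Bdd f) (hg : Bdd g) :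
    ∫ p, f p.1 * g p.2 ∂(relSq hm μ) = ∫ x, f x * (μ[g | m]) x ∂μ := by
  have h1 : Bdd (fun p : Ω × Ω => f p.1 * g p.2) :=
    (hf.comp measurable_fst).mul (hg.comp measurable_snd)
  rw [integral_relSq hm μ (h1.int _)]
  refine integral_congr_ae ?_
  filter_upwards [integral_dis hm μ (hg.int μ)] with x hx
  rw [← hx]
  exact integral_const_mul (f x) g

lemma relSq_int3 (hm : m ≤ mΩ) (μ : Measure Ω) [IsProbabilityMeasure μ] {f g : Ω → ℂ}
    (hf : Bdd f) (hg : Bdd g) :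
    ∫ p, f p.1 * g p.2 ∂(relSq hm μ) = ∫ x, (μ[f | m]) x * (μ[g | m]) x ∂μ := by
  rw [relSq_int1 hm μ hf hg, integral_mul_condExp hm hf hg]

lemma relSq_int2 (hm : m ≤ mΩ) (μ : Measure Ω) [IsProbabilityMeasure μ] {f g : Ω → ℂ}
    (hf : Bdd f) (hg : Bdd g) :
    ∫ p, f p.1 * g p.2 ∂(relSq hm μ) = ∫ x, (μ[f | m]) x * g x ∂μ := by
  rw [relSq_int3 hm μ hf hg]
  have := integral_mul_condExp hm (μ := μ) hg hf
  calc ∫ x, (μ[f | m]) x * (μ[g | m]) x ∂μ = ∫ x, (μ[g | m]) x * (μ[f | m]) x ∂μ := by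
        simp only [mul_comm]
    _ = ∫ x, g x * (μ[f | m]) x ∂μ := this.symm
    _ = _ := by simp only [mul_comm]

lemma relSq_mp_fst (hm : m ≤ mΩ) (μ : Measure Ω) [IsProbabilityMeasure μ] :
    MeasurePreserving Prod.fst (relSq hm μ) μ :=
  ⟨measurable_fst, Measure.fst_compProd μ (dis hm μ)⟩

lemma relSq_mp_swap (hm : m ≤ mΩ) (μ : Measure Ω) [IsProbabilityMeasure μ] :
    MeasurePreserving Prod.swap (relSq hm μ) (relSq hm μ) := by
  refine ⟨measurable_swap, ?_⟩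
  have : IsProbabilityMeasure ((relSq hm μ).map Prod.swap) :=
    Measure.isProbabilityMeasure_map measurable_swap.aemeasurable
  refine specExtProd Ω Ω _ _ fun f g hf hg => ?_
  have h1 : Bdd (fun p : Ω × Ω => f p.1 * g p.2) :=
    (hf.comp measurable_fst).mul (hg.comp measurable_snd)
  rw [integral_map measurable_swap.aemeasurable (h1.asm _)]
  calc ∫ p : Ω × Ω, f p.swap.1 * g p.swap.2 ∂(relSq hm μ)
      = ∫ p : Ω × Ω, g p.1 * f p.2 ∂(relSq hm μ) := by
        simp only [Prod.fst_swap, Prod.snd_swap, mul_comm]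
    _ = ∫ x, (μ[g | m]) x * (μ[f | m]) x ∂μ := relSq_int3 hm μ hg hf
    _ = ∫ x, (μ[f | m]) x * (μ[g | m]) x ∂μ := by simp only [mul_comm]
    _ = _ := (relSq_int3 hm μ hf hg).symm

lemma relSq_mp_snd (hm : m ≤ mΩ) (μ : Measure Ω) [IsProbabilityMeasure μ] :
    MeasurePreserving Prod.snd (relSq hm μ) μ :=
  (relSq_mp_fst hm μ).comp (relSq_mp_swap hm μ)

/-- Functions of `m` have equal values at the two points. -/
lemma relSq_diag (hm : m ≤ mΩ) (μ : Measure Ω) [IsProbabilityMeasure μ] {g : Ω → ℂ}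
    (hg : AEStronglyMeasurable[m] g μ) : ∀ᵐ p ∂(relSq hm μ), g p.1 = g p.2 := by
  -- sets first
  have key : ∀ s : Set Ω, MeasurableSet[m] s → ∀ᵐ p ∂(relSq hm μ), (p.1 ∈ s → p.2 ∈ s) := by
    intro s hs
    have hs' := hm s hs
    have h1 : relSq hm μ (s ×ˢ sᶜ) = 0 := by
      rw [relSq_prod hm μ hs' hs'.compl]
      have e1 := condExpKernel_ae_eq_condExp (μ := μ) hm hs'.compl
      have e2 : μ⟦sᶜ | m⟧ = (sᶜ).indicator fun _ => (1 : ℝ) :=
        condExp_of_stronglyMeasurable hm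
          (stronglyMeasurable_const.indicator hs.compl) ((integrable_const _).indicator hs'.compl)
      rw [e2] at e1
      have e3 : ∀ᵐ x ∂(μ.restrict s), condExpKernel μ m x sᶜ = 0 := by
        filter_upwards [ae_restrict_of_ae e1, ae_restrict_mem hs'] with x hx hxs
        have : (condExpKernel μ m x).real sᶜ = 0 := by
          rw [hx, Set.indicator_of_notMem]
          simpa using hxs
        rwa [measureReal_eq_zero_iff] at this
      rw [lintegral_congr_ae e3]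
      simp
    have h2 : ∀ᵐ p ∂(relSq hm μ), p ∉ s ×ˢ sᶜ := measure_eq_zero_iff_ae_notMem.1 h1
    filter_upwards [h2] with p hp h3
    by_contra h4
    exact hp ⟨h3, h4⟩
  obtain ⟨g', hg', hgg⟩ := hg
  have h1 : ∀ᵐ p ∂(relSq hm μ), g p.1 = g' p.1 :=
    (relSq_mp_fst hm μ).quasiMeasurePreserving.ae hgg
  have h2 : ∀ᵐ p ∂(relSq hm μ), g p.2 = g' p.2 :=
    (relSq_mp_snd hm μ).quasiMeasurePreserving.ae hgg
  have h3 : ∀ᵐ p ∂(relSq hm μ), ∀ U ∈ TopologicalSpace.countableBasis ℂ,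
      (g' p.1 ∈ U → g' p.2 ∈ U) := by
    rw [ae_ball_iff (TopologicalSpace.countable_countableBasis ℂ)]
    intro U hU
    exact key (g' ⁻¹' U) (hg'.measurable
      (TopologicalSpace.isOpen_of_mem_countableBasis hU).measurableSet)
  filter_upwards [h1, h2, h3] with p e1 e2 e3
  rw [e1, e2]
  by_contra hne
  obtain ⟨U, V, hU, hV, hxU, hyV, hUV⟩ := t2_separation hne
  obtain ⟨W, hW, hxW, hWU⟩ := (TopologicalSpace.isBasis_countableBasis ℂ).exists_subset_of_mem_open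
    hxU hU
  exact Set.disjoint_left.1 hUV (hWU (e3 W hW hxW)) hyV

end

theorem specRSInt : SpecRSInt := by
  intro Ω m mΩ _ hm μ _ f g hf hg
  exact ⟨relSq_int1 hm μ hf hg, relSq_int2 hm μ hf hg, relSq_int3 hm μ hf hg⟩

theorem specRSMarg : SpecRSMarg := by
  intro Ω m mΩ _ hm μ _
  exact ⟨relSq_mp_fst hm μ, relSq_mp_snd hm μ, relSq_mp_swap hm μ⟩

theorem specRSDiag : SpecRSDiag := by
  intro Ω m mΩ _ hm μ _ g hg
  exact relSq_diag hm μ hg

end MPd26.HK
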