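import Pool.Agent.Lib.MP_d26cd8_an.HK.A_M1

/-!
# M2: the mean ergodic theorem
-/

set_option autoImplicit false

open MeasureTheory ProbabilityTheory Filter Topology
open scoped ComplexConjugate ENNReal

namespace MPd26.HK

section
variable {Ω : Type} [mΩ : MeasurableSpace Ω]

/-- Almost everywhere `T`-invariant functions are measurable with respect to the invariant
sets. -/
lemma aesm_inv_of_comp_eq {μ : Measure Ω} {T : Ω → Ω} (hT : MeasurePreserving T μ μ) {f : Ω → ℂ}
    (hf : AEStronglyMeasurable f μ) (h : ∀ᵐ x ∂μ, f (T x) = f x) :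
    AEStronglyMeasurable[MeasurableSpace.invariants T] f μ := by
  obtain ⟨f', hf', hff⟩ := hf
  have hf1 : ∀ᵐ x ∂μ, f' (T x) = f' x := by
    filter_upwards [h, hff, hT.quasiMeasurePreserving.ae hff] with x h1 h2 h3
    rw [← h3, h1, h2]
  have hf2 : ∀ᵐ x ∂μ, ∀ n : ℕ, f' (T^[n] x) = f' x := by
    rw [ae_all_iff]
    intro n
    induction n with
    | zero => exact Eventually.of_forall fun x => rfl
    | succ n ih =>
      filter_upwards [ih, (hT.iterate n).quasiMeasurePreserving.ae hf1] with x h1 h2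
      rw [Function.iterate_succ_apply', h2, h1]
  let g : Ω → ℂ := fun x => limUnder atTop (fun n : ℕ => f' (T^[n] x))
  have hg : StronglyMeasurable g :=
    StronglyMeasurable.limUnder fun n => hf'.comp_measurable (hT.measurable.iterate n)
  have hgT : ∀ x, g (T x) = g x := by
    intro x
    change limUnder atTop (fun n : ℕ => f' (T^[n] (T x))) = limUnder atTop (fun n => f' (T^[n] x))
    have e : (fun n : ℕ => f' (T^[n] (T x))) = (fun n => f' (T^[n] x)) ∘ (fun n => n + 1) := by
      funext n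
      rw [Function.comp_apply, Function.iterate_succ_apply]
    rw [e]
    unfold limUnder
    rw [← Filter.map_map, Filter.map_add_atTop_eq_nat]
  have hgm : Measurable[MeasurableSpace.invariants T] g := by
    rw [MeasurableSpace.measurable_invariants_dom]
    refine ⟨hg.measurable, fun s _ => ?_⟩
    have : g ∘ T = g := funext hgT
    rw [this]
  refine ⟨g, hgm.stronglyMeasurable, hff.trans ?_⟩
  filter_upwards [hf2] with x hx
  have : (fun n : ℕ => f' (T^[n] x)) = fun _ => f' x := funext hx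
  change f' x = limUnder atTop (fun n : ℕ => f' (T^[n] x))
  rw [this]
  exact (tendsto_const_nhds.limUnder_eq).symm

lemma comp_eq_of_aesm_inv {μ : Measure Ω} {T : Ω → Ω} (hT : MeasurePreserving T μ μ) {f : Ω → ℂ}
    (h : AEStronglyMeasurable[MeasurableSpace.invariants T] f μ) : ∀ᵐ x ∂μ, f (T x) = f x := by
  obtain ⟨g, hg, hfg⟩ := h
  have h1 : g ∘ T = g := MeasurableSpace.comp_eq_of_measurable_invariants hg.measurable
  filter_upwards [hfg, hT.quasiMeasurePreserving.ae hfg] with x h2 h3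
  rw [h2, h3]
  exact congrFun h1 x

theorem specInvFun : SpecInvFun := by
  intro Ω _ μ _ T hT f hf
  exact ⟨aesm_inv_of_comp_eq hT (hf.asm μ), comp_eq_of_aesm_inv hT⟩

/-- `dist2` in terms of the norm of `L²`. -/
lemma dist2_eq_norm {μ : Measure Ω} {f g : Ω → ℂ} (hf : MemLp f 2 μ) (hg : MemLp g 2 μ) :
    dist2 μ f g = ‖hf.toLp f - hg.toLp g‖ ^ 2 := by
  rw [← MemLp.toLp_sub, Lp.norm_toLp]
  have h := (hf.sub hg).eLpNorm_eq_integral_rpow_norm (by norm_num) (by norm_num)
  rw [h]
  have h0 : 0 ≤ ∫ x, ‖f x - g x‖ ^ 2 ∂μ := integral_nonneg fun _ => by positivity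
  simp only [ENNReal.toReal_ofNat, Real.rpow_ofNat, Pi.sub_apply]
  rw [ENNReal.toReal_ofReal (by positivity)]
  unfold dist2
  rw [← Real.rpow_natCast, ← Real.rpow_mul h0]
  norm_num

lemma memLp_avg {μ : Measure Ω} {T : Ω → Ω} (hT : MeasurePreserving T μ μ)
    {f : Ω → ℂ} (hf : MemLp f 2 μ) (N : ℕ) : MemLp (avg T f N) 2 μ := by
  have h1 : MemLp (fun x => ∑ n ∈ Finset.range N, (f ∘ T^[n]) x) 2 μ :=
    memLp_finsetSum (Finset.range N) fun n _ => hf.comp_measurePreserving (hT.iterate n)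
  exact h1.const_mul _

/-- The mean ergodic theorem in `L²`. -/
theorem met {μ : Measure Ω} [IsProbabilityMeasure μ] {T : Ω → Ω} (hT : MeasurePreserving T μ μ)
    {f : Ω → ℂ} (hf : MemLp f 2 μ) :
    Tendsto (fun N => dist2 μ (avg T f N) (μ[f | MeasurableSpace.invariants T])) atTop (𝓝 0) := by
  have hle := MeasurableSpace.invariants_le T
  let U : Lp ℂ 2 μ →L[ℂ] Lp ℂ 2 μ :=
    (Lp.compMeasurePreservingₗᵢ ℂ T hT : Lp ℂ 2 μ →ₗᵢ[ℂ] Lp ℂ 2 μ).toContinuousLinearMap
  have hU : ‖U‖ ≤ 1 := LinearIsometry.norm_toContinuousLinearMap_le _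
  have hUa : ∀ F : Lp ℂ 2 μ, U F = Lp.compMeasurePreserving T hT F := fun F => rfl
  let F : Lp ℂ 2 μ := hf.toLp f
  have h1 := U.tendsto_birkhoffAverage_orthogonalProjection hU F
  set P : Lp ℂ 2 μ := ((U.eqLocus (1 : Lp ℂ 2 μ →L[ℂ] Lp ℂ 2 μ)).orthogonalProjectionOnto F :
    Lp ℂ 2 μ) with hP
  -- the projection is invariant
  have hPinv : U P = P := by
    have := ((U.eqLocus (1 : Lp ℂ 2 μ →L[ℂ] Lp ℂ 2 μ)).orthogonalProjectionOnto F).2
    exact (LinearMap.mem_eqLocus.1 this)
  have hPae : ∀ᵐ x ∂μ, P (T x) = P x := by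
    have h2 := Lp.coeFn_compMeasurePreserving P hT
    have h3 : Lp.compMeasurePreserving T hT P = P := hPinv
    rw [h3] at h2
    filter_upwards [h2] with x hx
    rw [hx]; rfl
  have hPm : AEStronglyMeasurable[MeasurableSpace.invariants T] P μ :=
    aesm_inv_of_comp_eq hT (Lp.aestronglyMeasurable P) hPae
  -- identification with the conditional expectation
  have hPE : (P : Ω → ℂ) =ᵐ[μ] μ[f | MeasurableSpace.invariants T] := by
    refine ae_eq_condExp_of_forall_setIntegral_eq hle (hf.integrable (by norm_num))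
      (fun s _ _ => ((Lp.memLp P).integrable (by norm_num)).integrableOn) ?_ hPm
    intro s hs _
    have hs' : MeasurableSet s := hle s hs
    obtain ⟨-, hsT⟩ := MeasurableSpace.measurableSet_invariants.1 hs
    let I : Lp ℂ 2 μ := indicatorConstLp 2 hs' (measure_ne_top μ s) (1 : ℂ)
    have hI : I ∈ U.eqLocus (1 : Lp ℂ 2 μ →L[ℂ] Lp ℂ 2 μ) := by
      change U I = I
      rw [hUa]
      refine Lp.ext ?_
      have e1 := Lp.coeFn_compMeasurePreserving I hT
      have e2 : (I : Ω → ℂ) =ᵐ[μ] s.indicator fun _ => (1 : ℂ) := indicatorConstLp_coeFn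
      filter_upwards [e1, e2, hT.quasiMeasurePreserving.ae e2] with x h1 h2 h3
      rw [h1, Function.comp_apply, h3, h2]
      have : T x ∈ s ↔ x ∈ s := by
        conv_rhs => rw [← hsT]
        rfl
      by_cases hx : x ∈ s
      · rw [Set.indicator_of_mem hx, Set.indicator_of_mem (this.2 hx)]
      · rw [Set.indicator_of_notMem hx, Set.indicator_of_notMem fun h => hx (this.1 h)]
    have h4 : inner ℂ I (F - P) = 0 :=
      inner_eq_zero_symm.1 (Submodule.starProjection_inner_eq_zero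
        (K := U.eqLocus (1 : Lp ℂ 2 μ →L[ℂ] Lp ℂ 2 μ)) F I hI)
    rw [inner_sub_right, sub_eq_zero] at h4
    rw [L2.inner_indicatorConstLp_one hs' (measure_ne_top μ s) F,
      L2.inner_indicatorConstLp_one hs' (measure_ne_top μ s) P] at h4
    rw [← h4]
    exact setIntegral_congr_ae hs' (by
      filter_upwards [hf.coeFn_toLp] with x hx _
      exact hx)
  -- the averages
  have hav : ∀ N : ℕ, birkhoffAverage ℂ U _root_.id N F = (memLp_avg hT hf N).toLp (avg T f N) := by
    intro N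
    have hit : ∀ n : ℕ, U^[n] F = (hf.comp_measurePreserving (hT.iterate n)).toLp (f ∘ T^[n]) := by
      intro n
      have e : (⇑U) = (Lp.compMeasurePreserving T hT : Lp ℂ 2 μ → Lp ℂ 2 μ) := rfl
      rw [e, Lp.compMeasurePreserving_iterate hT n]
      rfl
    refine Lp.ext ?_
    have e1 : birkhoffAverage ℂ U _root_.id N F = (N : ℂ)⁻¹ • ∑ n ∈ Finset.range N,
        (hf.comp_measurePreserving (hT.iterate n)).toLp (f ∘ T^[n]) := by
      unfold birkhoffAverage birkhoffSum
      simp only [_root_.id, hit]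
    rw [e1]
    have e2 := Lp.coeFn_smul (N : ℂ)⁻¹ (∑ n ∈ Finset.range N,
      (hf.comp_measurePreserving (hT.iterate n)).toLp (f ∘ T^[n]))
    have e3 := Lp.coeFn_finsetSum (Finset.range N)
      (fun n => (hf.comp_measurePreserving (hT.iterate n)).toLp (f ∘ T^[n]))
    have e4 : ∀ᵐ x ∂μ, ∀ n : ℕ, ((hf.comp_measurePreserving (hT.iterate n)).toLp (f ∘ T^[n])) x
        = f (T^[n] x) := by
      rw [ae_all_iff]
      intro n
      filter_upwards [(hf.comp_measurePreserving (hT.iterate n)).coeFn_toLp] with x hx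
      rw [hx]; rfl
    filter_upwards [e2, e3, e4, (memLp_avg hT hf N).coeFn_toLp] with x h2 h3 h4 h5
    rw [h2, h5, Pi.smul_apply, h3]
    simp only [Finset.sum_apply, h4, smul_eq_mul]
    rfl
  have h5 : Tendsto (fun N => ‖(memLp_avg hT hf N).toLp (avg T f N) - P‖ ^ 2) atTop (𝓝 0) := by
    have h6 : Tendsto (fun N => birkhoffAverage ℂ U _root_.id N F - P) atTop (𝓝 0) := by
      simpa using h1.sub_const P
    have h7 := (h6.norm).pow 2
    simpa [hav] using h7
  refine h5.congr fun N => ?_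
  have hPL : MemLp (P : Ω → ℂ) 2 μ := Lp.memLp P
  rw [dist2_congr (Eventually.of_forall fun _ => rfl) hPE.symm,
    dist2_eq_norm (memLp_avg hT hf N) hPL, Lp.toLp_coeFn]

end

theorem specMET : SpecMET := by
  intro Ω _ μ _ T hT f hf
  exact met hT (hf.memLp μ 2)

section
variable {Ω Ω' : Type} [mΩ : MeasurableSpace Ω] [mΩ' : MeasurableSpace Ω']

lemma integrable_sub_sq {μ : Measure Ω} {f g : Ω → ℂ} (hf : MemLp f 2 μ) (hg : MemLp g 2 μ) :
    Integrable (fun x => ‖f x - g x‖ ^ 2) μ :=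
  (hf.sub hg).integrable_norm_pow (by norm_num)

lemma ae_eq_of_dist2_eq_zero {μ : Measure Ω} {f g : Ω → ℂ} (hf : MemLp f 2 μ) (hg : MemLp g 2 μ)
    (h : dist2 μ f g = 0) : f =ᵐ[μ] g := by
  unfold dist2 at h
  rw [integral_eq_zero_iff_of_nonneg (fun x => by positivity) (integrable_sub_sq hf hg)] at h
  filter_upwards [h] with x hx
  have : ‖f x - g x‖ ^ 2 = 0 := hx
  rw [sq_eq_zero_iff, norm_eq_zero, sub_eq_zero] at this
  exact this

lemma dist2_comp_ae {μ : Measure Ω} {μ' : Measure Ω'} {p : Ω → Ω'} (hp : MeasurePreserving p μ μ')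
    {f g : Ω' → ℂ} (hf : AEStronglyMeasurable f μ') (hg : AEStronglyMeasurable g μ') :
    dist2 μ (f ∘ p) (g ∘ p) = dist2 μ' f g := by
  unfold dist2
  have h1 : AEStronglyMeasurable (fun y => ‖f y - g y‖ ^ 2) (μ.map p) := by
    rw [hp.map_eq]
    exact (hf.sub hg).norm.pow 2
  conv_rhs => rw [← hp.map_eq]
  rw [integral_map hp.measurable.aemeasurable h1]
  rfl

/-- Limits in `L²` are unique. -/
lemma ae_eq_of_tendsto {μ : Measure Ω} {u : ℕ → Ω → ℂ} {f g : Ω → ℂ}
    (hu : ∀ N, MemLp (u N) 2 μ) (hf : MemLp f 2 μ) (hg : MemLp g 2 μ)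
    (h1 : Tendsto (fun N => dist2 μ (u N) f) atTop (𝓝 0))
    (h2 : Tendsto (fun N => dist2 μ (u N) g) atTop (𝓝 0)) : f =ᵐ[μ] g := by
  refine ae_eq_of_dist2_eq_zero hf hg (le_antisymm ?_ (dist2_nonneg _ _))
  have h3 : Tendsto (fun N => 2 * (dist2 μ (u N) f + dist2 μ (u N) g)) atTop
      (𝓝 (2 * (0 + 0))) := (h1.add h2).const_mul 2
  refine ge_of_tendsto' (by simpa using h3) fun N => ?_
  have := dist2_triangle' hf (hu N) hg
  rwa [dist2_comm (μ := μ) f (u N)] at this

/-- `L²` convergence implies convergence of integrals against `L²` functions. -/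
lemma tendsto_integral_mul_of_dist2 {μ : Measure Ω} {u : ℕ → Ω → ℂ} {f g : Ω → ℂ}
    (hg : MemLp g 2 μ) (hu : ∀ N, MemLp (u N) 2 μ) (hf : MemLp f 2 μ)
    (h1 : Tendsto (fun N => dist2 μ (u N) f) atTop (𝓝 0)) :
    Tendsto (fun N => ∫ x, g x * u N x ∂μ) atTop (𝓝 (∫ x, g x * f x ∂μ)) := by
  rw [tendsto_iff_norm_sub_tendsto_zero]
  have h2 : ∀ N, ‖∫ x, g x * u N x ∂μ - ∫ x, g x * f x ∂μ‖
      ≤ Real.sqrt ((∫ x, ‖g x‖ ^ 2 ∂μ) * dist2 μ (u N) f) := by
    intro N
    have e : ∫ x, g x * u N x ∂μ - ∫ x, g x * f x ∂μ = ∫ x, g x * (u N x - f x) ∂μ := by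
      have i1 : Integrable (fun x => g x * u N x) μ := hg.integrable_mul (hu N)
      have i2 : Integrable (fun x => g x * f x) μ := hg.integrable_mul hf
      rw [← integral_sub i1 i2]
      refine integral_congr_ae (Eventually.of_forall fun x => ?_)
      simp only [mul_sub]
    rw [e]
    refine Real.le_sqrt_of_sq_le ?_
    exact norm_integral_mul_sq_le μ hg ((hu N).sub hf)
  have h3 : Tendsto (fun N => Real.sqrt ((∫ x, ‖g x‖ ^ 2 ∂μ) * dist2 μ (u N) f)) atTop (𝓝 0) := by
    have := (h1.const_mul (∫ x, ‖g x‖ ^ 2 ∂μ)).sqrt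
    simpa using this
  exact squeeze_zero (fun _ => norm_nonneg _) h2 h3

/-- Averages of correlations. -/
lemma tendsto_avg_integral_mul {μ : Measure Ω} [IsProbabilityMeasure μ] {T : Ω → Ω}
    (hT : MeasurePreserving T μ μ) {g f : Ω → ℂ} (hg : MemLp g 2 μ) (hf : MemLp f 2 μ) :
    Tendsto (fun N : ℕ => (N : ℂ)⁻¹ * ∑ n ∈ Finset.range N, ∫ x, g x * f (T^[n] x) ∂μ) atTop
      (𝓝 (∫ x, g x * (μ[f | MeasurableSpace.invariants T]) x ∂μ)) := by
  have h1 := tendsto_integral_mul_of_dist2 hg (fun N => memLp_avg hT hf N)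
    (hf.condExp (by norm_num)) (met hT hf)
  refine h1.congr fun N => ?_
  have h2 : ∀ n, Integrable (fun x => g x * f (T^[n] x)) μ := fun n =>
    hg.integrable_mul (hf.comp_measurePreserving (hT.iterate n))
  rw [← integral_finsetSum _ fun n _ => h2 n, ← integral_const_mul]
  refine integral_congr_ae (Eventually.of_forall fun x => ?_)
  simp only [avg, Finset.mul_sum]
  refine Finset.sum_congr rfl fun n _ => ?_
  ring

/-- Conditional expectations on invariants and intertwining maps, for `L²` functions. -/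
theorem intertwine {μ : Measure Ω} {μ' : Measure Ω'} [IsProbabilityMeasure μ]
    [IsProbabilityMeasure μ'] {T : Ω → Ω} {T' : Ω' → Ω'} {p : Ω → Ω'}
    (hT : MeasurePreserving T μ μ) (hT' : MeasurePreserving T' μ' μ')
    (hp : MeasurePreserving p μ μ') (hpT : ∀ᵐ x ∂μ, p (T x) = T' (p x)) {A : Ω' → ℂ}
    (hA : MemLp A 2 μ') :
    μ[A ∘ p | MeasurableSpace.invariants T] =ᵐ[μ]
      (μ'[A | MeasurableSpace.invariants T']) ∘ p := by
  have hAp : MemLp (A ∘ p) 2 μ := hA.comp_measurePreserving hp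
  have h1 := met hT hAp
  have h2 := met hT' hA
  have hit : ∀ᵐ x ∂μ, ∀ n : ℕ, p (T^[n] x) = T'^[n] (p x) := by
    rw [ae_all_iff]
    intro n
    induction n with
    | zero => exact Eventually.of_forall fun x => rfl
    | succ n ih =>
      filter_upwards [ih, (hT.iterate n).quasiMeasurePreserving.ae hpT] with x h3 h4
      rw [Function.iterate_succ_apply', Function.iterate_succ_apply', h4, h3]
  have hE' : MemLp (μ'[A | MeasurableSpace.invariants T']) 2 μ' := hA.condExp (by norm_num)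
  refine ae_eq_of_tendsto (memLp_avg hT hAp) (hAp.condExp (by norm_num))
    (hE'.comp_measurePreserving hp) h1 ?_
  refine h2.congr fun N => ?_
  rw [← dist2_comp_ae hp (memLp_avg hT' hA N).1 hE'.1]
  refine dist2_congr ?_ (Eventually.of_forall fun _ => rfl)
  filter_upwards [hit] with x hx
  simp only [Function.comp_apply, avg, hx]

end

theorem specIntertwine : SpecIntertwine := by
  intro Ω Ω' _ _ μ μ' _ _ T T' p hT hT' hp hpT A hA
  exact intertwine hT hT' hp hpT (hA.memLp μ' 2)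

theorem specIntertwineSq : SpecIntertwineSq := by
  intro Ω Ω' _ _ _ _ μ μ' _ _ T T' p hT hT' hp hpT
  have hpp : Measurable (Prod.map p p) := hp.measurable.prodMap hp.measurable
  refine ⟨hpp, ?_⟩
  have : IsProbabilityMeasure ((relSq (MeasurableSpace.invariants_le T) μ).map (Prod.map p p)) :=
    Measure.isProbabilityMeasure_map hpp.aemeasurable
  refine specExtProd Ω' Ω' _ _ fun f g hf hg => ?_
  have h1 : Bdd (fun q : Ω' × Ω' => f q.1 * g q.2) :=
    (hf.comp measurable_fst).mul (hg.comp measurable_snd)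
  rw [integral_map hpp.aemeasurable (h1.asm _), relSq_int1 _ μ' hf hg]
  have h2 := relSq_int1 (MeasurableSpace.invariants_le T) μ (hf.comp' hp.measurable)
    (hg.comp' hp.measurable)
  have h3 : ∫ q, f (Prod.map p p q).1 * g (Prod.map p p q).2
      ∂(relSq (MeasurableSpace.invariants_le T) μ)
      = ∫ q, (f ∘ p) q.1 * (g ∘ p) q.2 ∂(relSq (MeasurableSpace.invariants_le T) μ) := rfl
  rw [h3, h2]
  have h4 := intertwine hT hT' hp hpT (hg.memLp μ' 2)
  have h5 : ∫ x, (f ∘ p) x * (μ[g ∘ p | MeasurableSpace.invariants T]) x ∂μ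
      = ∫ x, (fun y => f y * (μ'[g | MeasurableSpace.invariants T']) y) (p x) ∂μ := by
    refine integral_congr_ae ?_
    filter_upwards [h4] with x hx
    rw [hx]; rfl
  have h6 : AEStronglyMeasurable (fun y => f y * (μ'[g | MeasurableSpace.invariants T']) y)
      (μ.map p) := by
    rw [hp.map_eq]
    exact (hf.asm μ').mul integrable_condExp.1
  rw [h5, ← integral_map hp.measurable.aemeasurable h6, hp.map_eq]

end MPd26.HK
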