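import Pool.Agent.Lib.MP_d26cd8_an.HK.A_M2

/-!
# Symmetry of the second relative square (SpecSwap)

No ergodic decomposition, no spectral theory: exchange of limits by a uniformity functional
which vanishes for `d = conj c`, and polarization.
-/

set_option autoImplicit false

open MeasureTheory ProbabilityTheory Filter Topology
open scoped ComplexConjugate ENNReal

namespace MPd26.HK

namespace SwapM

section
variable {Ω : Type} [mΩ : MeasurableSpace Ω]

lemma bdd_avg {T : Ω → Ω} (hT : Measurable T) {g : Ω → ℂ} (hg : Bdd g) (K : ℕ) :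
    Bdd (avg T g K) := by
  unfold avg
  exact Bdd.const_mul _ (Bdd.sum _ fun n _ => hg.comp (hT.iterate n))

lemma bdd_iter {T : Ω → Ω} (hT : Measurable T) {g : Ω → ℂ} (hg : Bdd g) (n : ℕ) :
    Bdd (fun x => g (T^[n] x)) := hg.comp (hT.iterate n)

/-- Products `c · d∘T^h`. -/
def pr (T : Ω → Ω) (c d : Ω → ℂ) (h : ℕ) (x : Ω) : ℂ := c x * d (T^[h] x)

lemma bdd_pr {T : Ω → Ω} (hT : Measurable T) {c d : Ω → ℂ} (hc : Bdd c) (hd : Bdd d) (h : ℕ) :
    Bdd (pr T c d h) := hc.mul (bdd_iter hT hd h)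

variable {μ : Measure Ω} [IsProbabilityMeasure μ] {T : Ω → Ω}

lemma condExp_iter (hT : MeasurePreserving T μ μ) {g : Ω → ℂ} (hg : Bdd g) (n : ℕ) :
    μ[fun x => g (T^[n] x) | MeasurableSpace.invariants T] =ᵐ[μ]
      μ[g | MeasurableSpace.invariants T] := by
  induction n with
  | zero => exact ae_eq_refl _
  | succ n ih =>
    have h1 : (fun x => g (T^[n + 1] x)) = (fun x => g (T^[n] x)) ∘ T := by
      funext x
      rw [Function.comp_apply, Function.iterate_succ_apply]
    rw [h1]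
    exact (condExp_comp_inv hT ((bdd_iter hT.measurable hg n).integrable μ)).trans ih

lemma condExp_avg (hT : MeasurePreserving T μ μ) {g : Ω → ℂ} (hg : Bdd g) {K : ℕ} (hK : K ≠ 0) :
    μ[avg T g K | MeasurableSpace.invariants T] =ᵐ[μ] μ[g | MeasurableSpace.invariants T] := by
  have e : avg T g K = (K : ℂ)⁻¹ • ∑ n ∈ Finset.range K, fun x => g (T^[n] x) := by
    funext x
    simp [avg, Finset.sum_apply]
  rw [e]
  have h1 := condExp_smul (μ := μ) (K : ℂ)⁻¹ (∑ n ∈ Finset.range K, fun x => g (T^[n] x))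
    (MeasurableSpace.invariants T)
  have h2 := condExp_finsetSum (μ := μ) (s := Finset.range K)
    (f := fun n x => g (T^[n] x)) (fun n _ => (bdd_iter hT.measurable hg n).integrable μ)
    (MeasurableSpace.invariants T)
  have h3 : ∀ᵐ x ∂μ, ∀ n : ℕ, (μ[fun x => g (T^[n] x) | MeasurableSpace.invariants T]) x
      = (μ[g | MeasurableSpace.invariants T]) x := by
    rw [ae_all_iff]
    exact fun n => condExp_iter hT hg n
  filter_upwards [h1, h2, h3] with x e1 e2 e3
  rw [e1, Pi.smul_apply, e2, Finset.sum_apply]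
  simp only [e3, Finset.sum_const, Finset.card_range, nsmul_eq_mul, smul_eq_mul]
  rw [← mul_assoc, inv_mul_cancel₀ (by exact_mod_cast hK), one_mul]

/-- Pythagoras. -/
lemma pyth {f : Ω → ℂ} (hf : Bdd f) :
    dist2 μ f 0 = dist2 μ f (μ[f | MeasurableSpace.invariants T])
      + dist2 μ (μ[f | MeasurableSpace.invariants T]) 0 :=
  dist2_condExp_add (MeasurableSpace.invariants_le T) hf (Bdd.const 0) aestronglyMeasurable_const

/-- The defect of the mean ergodic theorem at time `K`. -/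
noncomputable def dft (μ : Measure Ω) (T : Ω → Ω) (g : Ω → ℂ) (K : ℕ) : ℝ :=
  dist2 μ (avg T g K) (μ[g | MeasurableSpace.invariants T])

lemma dft_nonneg (g : Ω → ℂ) (K : ℕ) : 0 ≤ dft μ T g K := dist2_nonneg _ _

lemma dft_eq (hT : MeasurePreserving T μ μ) {g : Ω → ℂ} (hg : Bdd g) {K : ℕ} (hK : K ≠ 0) :
    dist2 μ (avg T g K) 0
      = dft μ T g K + dist2 μ (μ[g | MeasurableSpace.invariants T]) 0 := by
  have h1 := pyth (μ := μ) (T := T) (bdd_avg hT.measurable hg K)
  have h2 := condExp_avg hT hg hK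
  rw [dist2_congr (ae_eq_refl _) h2, dist2_congr h2 (ae_eq_refl (0 : Ω → ℂ))] at h1
  exact h1

lemma dist2_zero_eq {f : Ω → ℂ} : ((dist2 μ f 0 : ℝ) : ℂ) = ∫ x, f x * conj (f x) ∂μ := by
  unfold dist2
  rw [← integral_complex_ofReal]
  refine integral_congr_ae (Eventually.of_forall fun x => ?_)
  simp only [Pi.zero_apply, sub_zero, Complex.ofReal_pow]
  rw [Complex.mul_conj']

/-- `dft` is a squared seminorm. -/
lemma dft_smul (g : Ω → ℂ) (z : ℂ) (K : ℕ) :
    dft μ T (fun x => z * g x) K = ‖z‖ ^ 2 * dft μ T g K := by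
  unfold dft dist2
  rw [← integral_const_mul]
  have h1 := condExp_smul (μ := μ) z g (MeasurableSpace.invariants T)
  have e : (z • g) = fun x => z * g x := by funext x; simp
  rw [e] at h1
  refine integral_congr_ae ?_
  filter_upwards [h1] with x hx
  rw [hx]
  have e2 : avg T (fun x => z * g x) K x = z * avg T g K x := by
    unfold avg
    rw [← Finset.mul_sum]; ring
  rw [e2, Pi.smul_apply, smul_eq_mul, ← mul_sub, norm_mul, mul_pow]

lemma dft_add (hT : MeasurePreserving T μ μ) {g g' : Ω → ℂ} (hg : Bdd g) (hg' : Bdd g')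
    (K : ℕ) : dft μ T (fun x => g x + g' x) K ≤ 2 * dft μ T g K + 2 * dft μ T g' K := by
  have h1 := condExp_add (hg.integrable μ) (hg'.integrable μ) (MeasurableSpace.invariants T)
  have e : (g + g') = fun x => g x + g' x := rfl
  rw [e] at h1
  have i1 : Integrable (fun x => ‖avg T g K x - (μ[g | MeasurableSpace.invariants T]) x‖ ^ 2) μ :=
    integrable_sub_sq (memLp_avg hT (hg.memLp μ 2) K) (hg.condExp_memLp 2)
  have i2 : Integrable (fun x => ‖avg T g' K x - (μ[g' | MeasurableSpace.invariants T]) x‖ ^ 2) μ :=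
    integrable_sub_sq (memLp_avg hT (hg'.memLp μ 2) K) (hg'.condExp_memLp 2)
  unfold dft dist2
  rw [← integral_const_mul, ← integral_const_mul, ← integral_add (i1.const_mul 2)
    (i2.const_mul 2)]
  refine integral_mono_of_nonneg (Eventually.of_forall fun x => by positivity)
    ((i1.const_mul 2).add (i2.const_mul 2)) ?_
  filter_upwards [h1] with x hx
  rw [hx]
  have e2 : avg T (fun x => g x + g' x) K x = avg T g K x + avg T g' K x := by
    unfold avg
    rw [Finset.sum_add_distrib]; ring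
  rw [e2, Pi.add_apply]
  have e3 : avg T g K x + avg T g' K x - ((μ[g | MeasurableSpace.invariants T]) x
      + (μ[g' | MeasurableSpace.invariants T]) x)
      = (avg T g K x - (μ[g | MeasurableSpace.invariants T]) x)
        + (avg T g' K x - (μ[g' | MeasurableSpace.invariants T]) x) := by ring
  rw [e3]
  have h2 := norm_add_le (avg T g K x - (μ[g | MeasurableSpace.invariants T]) x)
    (avg T g' K x - (μ[g' | MeasurableSpace.invariants T]) x)
  have h3 := norm_nonneg ((avg T g K x - (μ[g | MeasurableSpace.invariants T]) x)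
    + (avg T g' K x - (μ[g' | MeasurableSpace.invariants T]) x))
  nlinarith [sq_nonneg (‖avg T g K x - (μ[g | MeasurableSpace.invariants T]) x‖
    - ‖avg T g' K x - (μ[g' | MeasurableSpace.invariants T]) x‖)]

end

lemma sum_mul_conj (K : ℕ) (s : ℕ → ℂ) :
    ((K : ℂ)⁻¹ * ∑ k ∈ Finset.range K, s k) * conj ((K : ℂ)⁻¹ * ∑ k ∈ Finset.range K, s k)
      = ∑ k ∈ Finset.range K, ∑ k' ∈ Finset.range K,
        ((K : ℂ)⁻¹ * conj ((K : ℂ)⁻¹)) * (s k * conj (s k')) := by
  rw [map_mul, map_sum]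
  calc (K : ℂ)⁻¹ * (∑ k ∈ Finset.range K, s k) *
        (conj ((K : ℂ)⁻¹) * ∑ k' ∈ Finset.range K, conj (s k'))
      = ((K : ℂ)⁻¹ * conj ((K : ℂ)⁻¹)) * ((∑ k ∈ Finset.range K, s k) *
        ∑ k' ∈ Finset.range K, conj (s k')) := by ring
    _ = _ := by
        rw [Finset.sum_mul_sum, Finset.mul_sum]
        refine Finset.sum_congr rfl fun k _ => ?_
        rw [Finset.mul_sum]

section
variable {Ω : Type} [mΩ : MeasurableSpace Ω] [StandardBorelSpace Ω]
  {μ : Measure Ω} [IsProbabilityMeasure μ] {T : Ω → Ω}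

lemma mp2 (hT : MeasurePreserving T μ μ) :
    MeasurePreserving (Prod.map T T) (relSq (MeasurableSpace.invariants_le T) μ)
      (relSq (MeasurableSpace.invariants_le T) μ) :=
  specIntertwineSq Ω Ω μ μ T T T hT hT hT (Eventually.of_forall fun _ => rfl)

/-- The integral of `a(z00) b(z01) c(z10) d(z11)`, pairs `((z00, z10), (z01, z11))`. -/
noncomputable def L (μ : Measure Ω) [IsProbabilityMeasure μ] (T : Ω → Ω) (a b c d : Ω → ℂ) : ℂ :=
  ∫ q : (Ω × Ω) × (Ω × Ω), (a q.1.1 * c q.1.2) * (b q.2.1 * d q.2.2)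
    ∂(relSq (MeasurableSpace.invariants_le (Prod.map T T))
      (relSq (MeasurableSpace.invariants_le T) μ))

lemma bdd2 {a c : Ω → ℂ} (ha : Bdd a) (hc : Bdd c) : Bdd (fun p : Ω × Ω => a p.1 * c p.2) :=
  (ha.comp measurable_fst).mul (hc.comp measurable_snd)

lemma tendsto_L (hT : MeasurePreserving T μ μ) {a b c d : Ω → ℂ} (ha : Bdd a) (hb : Bdd b)
    (hc : Bdd c) (hd : Bdd d) :
    Tendsto (fun N : ℕ => (N : ℂ)⁻¹ * ∑ h ∈ Finset.range N,
      ∫ x, pr T a b h x * (μ[pr T c d h | MeasurableSpace.invariants T]) x ∂μ) atTop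
      (𝓝 (L μ T a b c d)) := by
  have h1 := tendsto_avg_integral_mul (mp2 hT) ((bdd2 ha hc).memLp _ 2) ((bdd2 hb hd).memLp _ 2)
  have h2 : L μ T a b c d = ∫ p, (a p.1 * c p.2) *
      ((relSq (MeasurableSpace.invariants_le T) μ)[fun p : Ω × Ω => b p.1 * d p.2 |
        MeasurableSpace.invariants (Prod.map T T)]) p
      ∂(relSq (MeasurableSpace.invariants_le T) μ) :=
    relSq_int1 (MeasurableSpace.invariants_le (Prod.map T T))
      (relSq (MeasurableSpace.invariants_le T) μ) (bdd2 ha hc) (bdd2 hb hd)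
  rw [h2]
  refine h1.congr fun N => ?_
  congr 1
  refine Finset.sum_congr rfl fun h _ => ?_
  rw [← relSq_int1 (MeasurableSpace.invariants_le T) μ (bdd_pr hT.measurable ha hb h)
    (bdd_pr hT.measurable hc hd h)]
  refine integral_congr_ae (Eventually.of_forall fun p => ?_)
  simp only [Prod.map_iterate, Prod.map_fst, Prod.map_snd, pr]
  ring

/-- The limit in `H` of the averaged squares of averages at time `K`. -/
lemma tendsto_sq (hT : MeasurePreserving T μ μ) {c d : Ω → ℂ} (hc : Bdd c) (hd : Bdd d) (K : ℕ) :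
    Tendsto (fun H : ℕ => (H : ℂ)⁻¹ * ∑ h ∈ Finset.range H,
      ((dist2 μ (avg T (pr T c d h) K) 0 : ℝ) : ℂ)) atTop
      (𝓝 ((dist2 (relSq (MeasurableSpace.invariants_le T) μ)
        (avg (Prod.map T T) (fun p : Ω × Ω => c p.1 * d p.2) K) 0 : ℝ) : ℂ)) := by
  have hTm := hT.measurable
  -- the terms
  let u : ℕ → ℕ → Ω → ℂ := fun k k' x => c (T^[k] x) * conj (c (T^[k'] x))
  let v : ℕ → ℕ → Ω → ℂ := fun k k' x => d (T^[k] x) * conj (d (T^[k'] x))
  have hu : ∀ k k', Bdd (u k k') := fun k k' => (bdd_iter hTm hc k).mul (bdd_iter hTm hc k').conj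
  have hv : ∀ k k', Bdd (v k k') := fun k k' => (bdd_iter hTm hd k).mul (bdd_iter hTm hd k').conj
  have h1 : ∀ h : ℕ, ((dist2 μ (avg T (pr T c d h) K) 0 : ℝ) : ℂ)
      = ∑ k ∈ Finset.range K, ∑ k' ∈ Finset.range K,
        ((K : ℂ)⁻¹ * conj ((K : ℂ)⁻¹)) * ∫ x, u k k' x * v k k' (T^[h] x) ∂μ := by
    intro h
    rw [dist2_zero_eq]
    have e1 : ∀ x, avg T (pr T c d h) K x * conj (avg T (pr T c d h) K x)
        = ∑ k ∈ Finset.range K, ∑ k' ∈ Finset.range K,
          ((K : ℂ)⁻¹ * conj ((K : ℂ)⁻¹)) * (u k k' x * v k k' (T^[h] x)) := by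
      intro x
      unfold avg
      rw [sum_mul_conj]
      refine Finset.sum_congr rfl fun k _ => Finset.sum_congr rfl fun k' _ => ?_
      congr 1
      simp only [pr, u, v, map_mul]
      rw [← Function.iterate_add_apply, ← Function.iterate_add_apply,
        ← Function.iterate_add_apply, ← Function.iterate_add_apply, Nat.add_comm h k,
        Nat.add_comm h k']
      ring
    simp only [e1]
    rw [integral_finsetSum]
    · refine Finset.sum_congr rfl fun k _ => ?_
      rw [integral_finsetSum]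
      · refine Finset.sum_congr rfl fun k' _ => ?_
        rw [integral_const_mul]
      · intro k' _
        exact (Bdd.const_mul _ ((hu k k').mul (bdd_iter hTm (hv k k') h))).integrable μ
    · intro k _
      exact (Bdd.sum _ fun k' _ =>
        Bdd.const_mul _ ((hu k k').mul (bdd_iter hTm (hv k k') h))).integrable μ
  have h2 : ((dist2 (relSq (MeasurableSpace.invariants_le T) μ)
        (avg (Prod.map T T) (fun p : Ω × Ω => c p.1 * d p.2) K) 0 : ℝ) : ℂ)
      = ∑ k ∈ Finset.range K, ∑ k' ∈ Finset.range K,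
        ((K : ℂ)⁻¹ * conj ((K : ℂ)⁻¹)) *
          ∫ x, u k k' x * (μ[v k k' | MeasurableSpace.invariants T]) x ∂μ := by
    rw [dist2_zero_eq]
    have e1 : ∀ p : Ω × Ω, avg (Prod.map T T) (fun p : Ω × Ω => c p.1 * d p.2) K p *
          conj (avg (Prod.map T T) (fun p : Ω × Ω => c p.1 * d p.2) K p)
        = ∑ k ∈ Finset.range K, ∑ k' ∈ Finset.range K,
          ((K : ℂ)⁻¹ * conj ((K : ℂ)⁻¹)) * (u k k' p.1 * v k k' p.2) := by
      intro p
      unfold avg
      rw [sum_mul_conj]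
      refine Finset.sum_congr rfl fun k _ => Finset.sum_congr rfl fun k' _ => ?_
      congr 1
      simp only [Prod.map_iterate, Prod.map_fst, Prod.map_snd, u, v, map_mul]
      ring
    simp only [e1]
    rw [integral_finsetSum]
    · refine Finset.sum_congr rfl fun k _ => ?_
      rw [integral_finsetSum]
      · refine Finset.sum_congr rfl fun k' _ => ?_
        rw [integral_const_mul, relSq_int1 _ μ (hu k k') (hv k k')]
      · intro k' _
        exact (Bdd.const_mul _ (bdd2 (hu k k') (hv k k'))).integrable _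
    · intro k _
      exact (Bdd.sum _ fun k' _ => Bdd.const_mul _ (bdd2 (hu k k') (hv k k'))).integrable _
  rw [h2]
  simp only [h1]
  have h3 : ∀ H : ℕ, (H : ℂ)⁻¹ * ∑ h ∈ Finset.range H, ∑ k ∈ Finset.range K,
      ∑ k' ∈ Finset.range K, ((K : ℂ)⁻¹ * conj ((K : ℂ)⁻¹)) *
        ∫ x, u k k' x * v k k' (T^[h] x) ∂μ
      = ∑ k ∈ Finset.range K, ∑ k' ∈ Finset.range K, ((K : ℂ)⁻¹ * conj ((K : ℂ)⁻¹)) *
        ((H : ℂ)⁻¹ * ∑ h ∈ Finset.range H, ∫ x, u k k' x * v k k' (T^[h] x) ∂μ) := by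
    intro H
    rw [Finset.sum_comm, Finset.mul_sum]
    refine Finset.sum_congr rfl fun k _ => ?_
    rw [Finset.sum_comm, Finset.mul_sum]
    refine Finset.sum_congr rfl fun k' _ => ?_
    rw [← Finset.mul_sum]
    ring
  simp only [h3]
  refine tendsto_finsetSum _ fun k _ => tendsto_finsetSum _ fun k' _ => ?_
  exact (tendsto_avg_integral_mul hT ((hu k k').memLp μ 2) ((hv k k').memLp μ 2)).const_mul _

/-- The uniformity functional. -/
noncomputable def V (μ : Measure Ω) (T : Ω → Ω) (c d : Ω → ℂ) (K H : ℕ) : ℝ :=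
  (H : ℝ)⁻¹ * ∑ h ∈ Finset.range H, dft μ T (pr T c d h) K

/-- Uniformity in the diagonal case `d = conj c`. -/
lemma tendsto_V_diag (hT : MeasurePreserving T μ μ) {c : Ω → ℂ} (hc : Bdd c) {K : ℕ}
    (hK : K ≠ 0) :
    Tendsto (fun H : ℕ => V μ T c (fun x => conj (c x)) K H) atTop
      (𝓝 (dft (relSq (MeasurableSpace.invariants_le T) μ) (Prod.map T T)
        (fun p : Ω × Ω => c p.1 * conj (c p.2)) K)) := by
  have hle := MeasurableSpace.invariants_le T
  set ν := relSq hle μ with hν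
  have hTm := hT.measurable
  set d : Ω → ℂ := fun x => conj (c x) with hd'
  have hd : Bdd d := hc.conj
  have hdc : ∀ x, conj (d x) = c x := fun x => by simp [hd']
  have h1 := tendsto_sq hT hc hd K
  have h2 := tendsto_L hT hc hd hd hc
  -- `∫ |E g|²`
  have h3 : ∀ h : ℕ, ((dist2 μ (μ[pr T c d h | MeasurableSpace.invariants T]) 0 : ℝ) : ℂ)
      = ∫ x, pr T c d h x * (μ[pr T d c h | MeasurableSpace.invariants T]) x ∂μ := by
    intro h
    have hg := bdd_pr hTm hc hd h
    have hg' := bdd_pr hTm hd hc h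
    rw [dist2_zero_eq, integral_mul_condExp hle hg hg']
    have e : (fun x => conj (pr T c d h x)) = pr T d c h := by
      funext x
      simp only [pr, map_mul, hd', Complex.conj_conj]
    have h4 := condExp_conj (m := MeasurableSpace.invariants T) μ (pr T c d h)
    rw [e] at h4
    refine integral_congr_ae ?_
    filter_upwards [h4] with x hx
    rw [hx]
  have h5 : Tendsto (fun H : ℕ => ((V μ T c d K H : ℝ) : ℂ)) atTop
      (𝓝 (((dist2 ν (avg (Prod.map T T) (fun p : Ω × Ω => c p.1 * d p.2) K) 0 : ℝ) : ℂ)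
        - L μ T c d d c)) := by
    refine (h1.sub h2).congr fun H => ?_
    simp only [← h3]
    unfold V
    push_cast
    rw [← mul_sub, ← Finset.sum_sub_distrib]
    congr 1
    refine Finset.sum_congr rfl fun h _ => ?_
    rw [dft_eq hT (bdd_pr hTm hc hd h) hK]
    push_cast
    ring
  -- the limit
  have hC : Bdd (fun p : Ω × Ω => c p.1 * d p.2) := bdd2 hc hd
  have h6 : L μ T c d d c
      = ((dist2 ν (ν[fun p : Ω × Ω => c p.1 * d p.2 | MeasurableSpace.invariants (Prod.map T T)])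
        0 : ℝ) : ℂ) := by
    have hC' : Bdd (fun p : Ω × Ω => d p.1 * c p.2) := bdd2 hd hc
    have e0 : L μ T c d d c = ∫ p, (ν[fun p : Ω × Ω => c p.1 * d p.2 |
          MeasurableSpace.invariants (Prod.map T T)]) p *
        (ν[fun p : Ω × Ω => d p.1 * c p.2 | MeasurableSpace.invariants (Prod.map T T)]) p ∂ν :=
      relSq_int3 (MeasurableSpace.invariants_le (Prod.map T T)) ν hC hC'
    rw [e0, dist2_zero_eq]
    have e : (fun p : Ω × Ω => conj (c p.1 * d p.2)) = fun p => d p.1 * c p.2 := by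
      funext p
      simp only [map_mul, hd', Complex.conj_conj]
    have h4 := condExp_conj (m := MeasurableSpace.invariants (Prod.map T T)) ν
      (fun p : Ω × Ω => c p.1 * d p.2)
    rw [e] at h4
    refine integral_congr_ae ?_
    filter_upwards [h4] with x hx
    rw [hx]
  rw [h6] at h5
  have h7 := dft_eq (mp2 hT) hC hK
  rw [h7, ← Complex.ofReal_sub] at h5
  have h8 := (Complex.continuous_re.tendsto _).comp h5
  simp only [Function.comp_def, Complex.ofReal_re] at h8
  rw [add_sub_cancel_right] at h8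
  exact h8

/-- Uniformity in general. -/
lemma V_small (hT : MeasurePreserving T μ μ) {c d : Ω → ℂ} (hc : Bdd c) (hd : Bdd d) {e : ℝ}
    (he : 0 < e) : ∃ K₀ : ℕ, ∀ K, K₀ ≤ K → ∀ᶠ H in atTop, V μ T c d K H ≤ e := by
  have hTm := hT.measurable
  -- diagonal case
  have hdiag : ∀ {w : Ω → ℂ}, Bdd w → ∀ {δ : ℝ}, 0 < δ → ∃ K₀ : ℕ, ∀ K, K₀ ≤ K →
      ∀ᶠ H in atTop, V μ T w (fun x => conj (w x)) K H ≤ δ := by
    intro w hw δ hδ
    have h1 := met (mp2 hT) ((bdd2 hw hw.conj).memLp _ 2)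
    have h2 : ∀ᶠ K in atTop, dft (relSq (MeasurableSpace.invariants_le T) μ) (Prod.map T T)
        (fun p : Ω × Ω => w p.1 * conj (w p.2)) K < δ := by
      have := (tendsto_order.1 h1).2 δ hδ
      exact this
    obtain ⟨K₁, hK₁⟩ := eventually_atTop.1 h2
    refine ⟨K₁ + 1, fun K hK => ?_⟩
    have h3 := tendsto_V_diag hT hw (show K ≠ 0 by omega)
    exact ((tendsto_order.1 h3).2 δ (hK₁ K (by omega))).mono fun H hH => hH.le
  -- polarization
  let z : Fin 4 → ℂ := ![1, Complex.I, -1, -Complex.I]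
  let w : Fin 4 → Ω → ℂ := fun j x => c x + z j * conj (d x)
  have hw : ∀ j, Bdd (w j) := fun j => hc.add (Bdd.const_mul _ hd.conj)
  have hz : ∀ j, ‖z j‖ = 1 := by
    intro j
    fin_cases j <;> simp [z]
  have hpol : ∀ h x, pr T c d h x = ((4 : ℂ)⁻¹ * z 0) * pr T (w 0) (fun x => conj (w 0 x)) h x
      + ((4 : ℂ)⁻¹ * z 1) * pr T (w 1) (fun x => conj (w 1 x)) h x
      + (((4 : ℂ)⁻¹ * z 2) * pr T (w 2) (fun x => conj (w 2 x)) h x
      + ((4 : ℂ)⁻¹ * z 3) * pr T (w 3) (fun x => conj (w 3 x)) h x) := by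
    intro h x
    simp only [pr, w, z, map_add, map_mul, Complex.conj_conj]
    simp only [Matrix.cons_val_zero, Matrix.cons_val_one, Matrix.cons_val, map_one, Complex.conj_I,
      map_neg]
    ring_nf
    simp only [Complex.I_sq]
    ring
  have hterm : ∀ h K, dft μ T (pr T c d h) K ≤ ∑ j : Fin 4,
      dft μ T (pr T (w j) (fun x => conj (w j x)) h) K := by
    intro h K
    have hb : ∀ j, Bdd (pr T (w j) (fun x => conj (w j x)) h) := fun j =>
      bdd_pr hTm (hw j) (hw j).conj h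
    have e : pr T c d h = fun x => (((4 : ℂ)⁻¹ * z 0) * pr T (w 0) (fun x => conj (w 0 x)) h x
      + ((4 : ℂ)⁻¹ * z 1) * pr T (w 1) (fun x => conj (w 1 x)) h x)
      + (((4 : ℂ)⁻¹ * z 2) * pr T (w 2) (fun x => conj (w 2 x)) h x
      + ((4 : ℂ)⁻¹ * z 3) * pr T (w 3) (fun x => conj (w 3 x)) h x) := funext (hpol h)
    have hs : ∀ j, dft μ T (fun x => ((4 : ℂ)⁻¹ * z j) *
        pr T (w j) (fun x => conj (w j x)) h x) K
        = (1 / 16) * dft μ T (pr T (w j) (fun x => conj (w j x)) h) K := by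
      intro j
      rw [dft_smul, norm_mul, hz j]
      norm_num
    rw [e]
    have q1 := dft_add hT (K := K)
      ((Bdd.const_mul ((4 : ℂ)⁻¹ * z 0) (hb 0)).add (Bdd.const_mul ((4 : ℂ)⁻¹ * z 1) (hb 1)))
      ((Bdd.const_mul ((4 : ℂ)⁻¹ * z 2) (hb 2)).add (Bdd.const_mul ((4 : ℂ)⁻¹ * z 3) (hb 3)))
    have q2 := dft_add hT (K := K) (Bdd.const_mul ((4 : ℂ)⁻¹ * z 0) (hb 0))
      (Bdd.const_mul ((4 : ℂ)⁻¹ * z 1) (hb 1))
    have q3 := dft_add hT (K := K) (Bdd.const_mul ((4 : ℂ)⁻¹ * z 2) (hb 2))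
      (Bdd.const_mul ((4 : ℂ)⁻¹ * z 3) (hb 3))
    rw [hs 0, hs 1] at q2
    rw [hs 2, hs 3] at q3
    rw [Fin.sum_univ_four]
    have n0 := dft_nonneg (μ := μ) (T := T) (pr T (w 0) (fun x => conj (w 0 x)) h) K
    have n1 := dft_nonneg (μ := μ) (T := T) (pr T (w 1) (fun x => conj (w 1 x)) h) K
    have n2 := dft_nonneg (μ := μ) (T := T) (pr T (w 2) (fun x => conj (w 2 x)) h) K
    have n3 := dft_nonneg (μ := μ) (T := T) (pr T (w 3) (fun x => conj (w 3 x)) h) K
    linarith
  have hV : ∀ K H, V μ T c d K H ≤ ∑ j : Fin 4, V μ T (w j) (fun x => conj (w j x)) K H := by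
    intro K H
    unfold V
    rw [← Finset.mul_sum, Finset.sum_comm]
    exact mul_le_mul_of_nonneg_left (Finset.sum_le_sum fun h _ => hterm h K) (by positivity)
  choose K₀ hK₀ using fun j => hdiag (hw j) (δ := e / 4) (by positivity)
  refine ⟨Finset.univ.sup K₀, fun K hK => ?_⟩
  have h4 : ∀ᶠ H in atTop, ∀ j : Fin 4, V μ T (w j) (fun x => conj (w j x)) K H ≤ e / 4 := by
    rw [eventually_all]
    exact fun j => hK₀ j K ((Finset.le_sup (Finset.mem_univ j)).trans hK)
  filter_upwards [h4] with H hH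
  refine (hV K H).trans ?_
  rw [Fin.sum_univ_four]
  linarith [hH 0, hH 1, hH 2, hH 3]

/-- The symmetry. -/
theorem L_swap (hT : MeasurePreserving T μ μ) {a b c d : Ω → ℂ} (ha : Bdd a) (hb : Bdd b)
    (hc : Bdd c) (hd : Bdd d) : L μ T a b c d = L μ T a c b d := by
  have hTm := hT.measurable
  have hle := MeasurableSpace.invariants_le T
  obtain ⟨Ca, hCa0, hCa⟩ := ha.bound
  obtain ⟨Cb, hCb0, hCb⟩ := hb.bound
  set M : ℝ := (Ca * Cb) ^ 2 with hM
  have hM0 : 0 ≤ M := by positivity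
  let J : ℕ → ℕ → ℂ := fun (K H : ℕ) => (H : ℂ)⁻¹ * ∑ h ∈ Finset.range H,
    ∫ x, pr T a b h x * avg T (pr T c d h) K x ∂μ
  let A : ℕ → ℂ := fun (H : ℕ) => (H : ℂ)⁻¹ * ∑ h ∈ Finset.range H,
    ∫ x, pr T a b h x * (μ[pr T c d h | MeasurableSpace.invariants T]) x ∂μ
  let B : ℕ → ℂ := fun (K : ℕ) => (K : ℂ)⁻¹ * ∑ k ∈ Finset.range K,
    ∫ x, pr T a c k x * (μ[pr T b d k | MeasurableSpace.invariants T]) x ∂μ
  have hA : Tendsto A atTop (𝓝 (L μ T a b c d)) := tendsto_L hT ha hb hc hd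
  have hB : Tendsto B atTop (𝓝 (L μ T a c b d)) := tendsto_L hT ha hc hb hd
  have hJ : ∀ K, Tendsto (J K) atTop (𝓝 (B K)) := by
    intro K
    have h1 : ∀ H, J K H = (K : ℂ)⁻¹ * ∑ k ∈ Finset.range K, ((H : ℂ)⁻¹ *
        ∑ h ∈ Finset.range H, ∫ x, pr T a c k x * pr T b d k (T^[h] x) ∂μ) := by
      intro H
      have e1 : ∀ h, ∫ x, pr T a b h x * avg T (pr T c d h) K x ∂μ
          = (K : ℂ)⁻¹ * ∑ k ∈ Finset.range K, ∫ x, pr T a c k x * pr T b d k (T^[h] x) ∂μ := by
        intro h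
        have e2 : ∀ x, pr T a b h x * avg T (pr T c d h) K x
            = (K : ℂ)⁻¹ * ∑ k ∈ Finset.range K, pr T a c k x * pr T b d k (T^[h] x) := by
          intro x
          unfold avg
          rw [mul_left_comm, Finset.mul_sum]
          congr 1
          refine Finset.sum_congr rfl fun k _ => ?_
          simp only [pr]
          rw [← Function.iterate_add_apply, ← Function.iterate_add_apply, Nat.add_comm h k]
          ring
        simp only [e2]
        rw [integral_const_mul, integral_finsetSum]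
        intro k _
        exact ((bdd_pr hTm ha hc k).mul
          (bdd_iter hTm (bdd_pr hTm hb hd k) h)).integrable μ
      simp only [J, e1]
      rw [← Finset.mul_sum, Finset.sum_comm, mul_left_comm, Finset.mul_sum]
    have h2 : J K = fun (H : ℕ) => (K : ℂ)⁻¹ * ∑ k ∈ Finset.range K, ((H : ℂ)⁻¹ *
        ∑ h ∈ Finset.range H, ∫ x, pr T a c k x * pr T b d k (T^[h] x) ∂μ) := funext h1
    rw [h2]
    refine Tendsto.const_mul _ (tendsto_finsetSum _ fun k _ => ?_)
    exact tendsto_avg_integral_mul hT ((bdd_pr hTm ha hc k).memLp μ 2)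
      ((bdd_pr hTm hb hd k).memLp μ 2)
  have hJA : ∀ K H, ‖J K H - A H‖ ^ 2 ≤ M * V μ T c d K H := by
    intro K H
    rcases Nat.eq_zero_or_pos H with hH | hH
    · subst hH
      simp [J, A, V]
    have hH' : (0 : ℝ) < H := by exact_mod_cast hH
    let S : ℕ → ℂ := fun h => ∫ x, pr T a b h x * (avg T (pr T c d h) K x
      - (μ[pr T c d h | MeasurableSpace.invariants T]) x) ∂μ
    have hS : ∀ h, ‖S h‖ ^ 2 ≤ M * dft μ T (pr T c d h) K := by
      intro h
      have hg := bdd_pr hTm hc hd h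
      have hL2 : MemLp (fun x => avg T (pr T c d h) K x
          - (μ[pr T c d h | MeasurableSpace.invariants T]) x) 2 μ :=
        ((bdd_avg hTm hg K).memLp μ 2).sub (hg.condExp_memLp 2)
      refine (norm_integral_mul_sq_le μ ((bdd_pr hTm ha hb h).memLp μ 2) hL2).trans ?_
      refine mul_le_mul_of_nonneg_right ?_ (dft_nonneg _ _)
      have h3 : ∀ x, ‖pr T a b h x‖ ^ 2 ≤ M := by
        intro x
        have : ‖pr T a b h x‖ ≤ Ca * Cb := by
          unfold pr
          rw [norm_mul]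
          exact mul_le_mul (hCa _) (hCb _) (norm_nonneg _) hCa0
        exact pow_le_pow_left₀ (norm_nonneg _) this 2
      calc ∫ x, ‖pr T a b h x‖ ^ 2 ∂μ ≤ ∫ _, M ∂μ :=
            integral_mono ((bdd_pr hTm ha hb h).int_sq μ) (integrable_const M) h3
        _ = M := by simp
    have hdiff : J K H - A H = (H : ℂ)⁻¹ * ∑ h ∈ Finset.range H, S h := by
      simp only [J, A]
      rw [← mul_sub, ← Finset.sum_sub_distrib]
      congr 1
      refine Finset.sum_congr rfl fun h _ => ?_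
      have hg := bdd_pr hTm hc hd h
      rw [← integral_sub]
      · refine integral_congr_ae (Eventually.of_forall fun x => ?_)
        simp only [mul_sub]
      · exact ((bdd_pr hTm ha hb h).mul (bdd_avg hTm hg K)).integrable μ
      · exact integrable_mul_condExp (bdd_pr hTm ha hb h)
    have h4 : ‖J K H - A H‖ ≤ (H : ℝ)⁻¹ * ∑ h ∈ Finset.range H, ‖S h‖ := by
      rw [hdiff, norm_mul, norm_inv, Complex.norm_natCast]
      exact mul_le_mul_of_nonneg_left (norm_sum_le _ _) (by positivity)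
    have h5 : (∑ h ∈ Finset.range H, ‖S h‖) ^ 2 ≤ H * ∑ h ∈ Finset.range H, ‖S h‖ ^ 2 := by
      have := sq_sum_le_card_mul_sum_sq (s := Finset.range H) (f := fun h => ‖S h‖)
      simpa using this
    calc ‖J K H - A H‖ ^ 2 ≤ ((H : ℝ)⁻¹ * ∑ h ∈ Finset.range H, ‖S h‖) ^ 2 :=
          pow_le_pow_left₀ (norm_nonneg _) h4 2
      _ = ((H : ℝ)⁻¹) ^ 2 * (∑ h ∈ Finset.range H, ‖S h‖) ^ 2 := by ring
      _ ≤ ((H : ℝ)⁻¹) ^ 2 * (H * ∑ h ∈ Finset.range H, ‖S h‖ ^ 2) :=
          mul_le_mul_of_nonneg_left h5 (by positivity)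
      _ = (H : ℝ)⁻¹ * ∑ h ∈ Finset.range H, ‖S h‖ ^ 2 := by
          field_simp
      _ ≤ (H : ℝ)⁻¹ * ∑ h ∈ Finset.range H, M * dft μ T (pr T c d h) K :=
          mul_le_mul_of_nonneg_left (Finset.sum_le_sum fun h _ => hS h) (by positivity)
      _ = M * V μ T c d K H := by
          unfold V
          rw [← Finset.mul_sum]; ring
  -- conclusion
  have key : ∀ e : ℝ, 0 < e → ‖L μ T a c b d - L μ T a b c d‖ ^ 2 ≤ M * e := by
    intro e he
    obtain ⟨K₀, hK₀⟩ := V_small hT hc hd he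
    have h6 : ∀ K, K₀ ≤ K → ‖B K - L μ T a b c d‖ ^ 2 ≤ M * e := by
      intro K hK
      have h7 : Tendsto (fun H => ‖J K H - A H‖ ^ 2) atTop
          (𝓝 (‖B K - L μ T a b c d‖ ^ 2)) := (((hJ K).sub hA).norm).pow 2
      refine le_of_tendsto h7 ?_
      filter_upwards [hK₀ K hK] with H hH
      exact (hJA K H).trans (mul_le_mul_of_nonneg_left hH hM0)
    have h8 : Tendsto (fun K => ‖B K - L μ T a b c d‖ ^ 2) atTop
        (𝓝 (‖L μ T a c b d - L μ T a b c d‖ ^ 2)) := ((hB.sub_const _).norm).pow 2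
    refine le_of_tendsto h8 ?_
    filter_upwards [eventually_ge_atTop K₀] with K hK
    exact h6 K hK
  have h9 : ‖L μ T a c b d - L μ T a b c d‖ ^ 2 ≤ 0 := by
    by_contra hcon
    rw [not_le] at hcon
    set x := ‖L μ T a c b d - L μ T a b c d‖ ^ 2 with hx
    have h10 := key (x / (2 * (M + 1))) (by positivity)
    have h11 : M * (x / (2 * (M + 1))) < x := by
      rw [mul_div_assoc', div_lt_iff₀ (by positivity)]
      nlinarith
    linarith
  have h12 : ‖L μ T a c b d - L μ T a b c d‖ = 0 := by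
    have := le_antisymm h9 (by positivity)
    exact pow_eq_zero_iff (two_ne_zero) |>.1 this
  exact (sub_eq_zero.1 (norm_eq_zero.1 h12)).symm

end

/-- Measures on `(Ω × Ω) × (Ω × Ω)` are determined by products of four functions. -/
lemma ext4 {Ω : Type} [MeasurableSpace Ω] (ρ ρ' : Measure ((Ω × Ω) × (Ω × Ω)))
    [IsProbabilityMeasure ρ] [IsProbabilityMeasure ρ']
    (h : ∀ a b c d : Ω → ℂ, Bdd a → Bdd b → Bdd c → Bdd d →
      ∫ q, (a q.1.1 * b q.1.2) * (c q.2.1 * d q.2.2) ∂ρ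
        = ∫ q, (a q.1.1 * b q.1.2) * (c q.2.1 * d q.2.2) ∂ρ') : ρ = ρ' := by
  -- rectangles
  have h1 : ∀ A B C D : Set Ω, MeasurableSet A → MeasurableSet B → MeasurableSet C →
      MeasurableSet D → ρ ((A ×ˢ B) ×ˢ (C ×ˢ D)) = ρ' ((A ×ˢ B) ×ˢ (C ×ˢ D)) := by
    intro A B C D hA hB hC hD
    apply real_eq_of_integral_ind ((hA.prod hB).prod (hC.prod hD))
    simp only [ind_prod]
    exact h _ _ _ _ (Bdd.ind hA) (Bdd.ind hB) (Bdd.ind hC) (Bdd.ind hD)
  -- first pair arbitrary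
  have h2 : ∀ (E : Set (Ω × Ω)) (C D : Set Ω), MeasurableSet E → MeasurableSet C →
      MeasurableSet D → ρ (E ×ˢ (C ×ˢ D)) = ρ' (E ×ˢ (C ×ˢ D)) := by
    intro E C D hE hC hD
    have hm : ∀ (σ : Measure ((Ω × Ω) × (Ω × Ω))) (E : Set (Ω × Ω)), MeasurableSet E →
        (σ.restrict (Set.univ ×ˢ (C ×ˢ D))).map Prod.fst E = σ (E ×ˢ (C ×ˢ D)) := by
      intro σ E hE
      rw [Measure.map_apply measurable_fst hE, Measure.restrict_apply (measurable_fst hE)]
      congr 1
      ext q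
      simp
    have h3 : (ρ.restrict (Set.univ ×ˢ (C ×ˢ D))).map Prod.fst
        = (ρ'.restrict (Set.univ ×ˢ (C ×ˢ D))).map Prod.fst := by
      refine Measure.ext_prod fun {A B} hA hB => ?_
      rw [hm ρ _ (hA.prod hB), hm ρ' _ (hA.prod hB)]
      exact h1 A B C D hA hB hC hD
    rw [← hm ρ E hE, ← hm ρ' E hE, h3]
  refine Measure.ext_prod fun {E F} hE hF => ?_
  have hm : ∀ (σ : Measure ((Ω × Ω) × (Ω × Ω))) (F : Set (Ω × Ω)), MeasurableSet F →
      (σ.restrict (E ×ˢ Set.univ)).map Prod.snd F = σ (E ×ˢ F) := by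
    intro σ F hF
    rw [Measure.map_apply measurable_snd hF, Measure.restrict_apply (measurable_snd hF)]
    congr 1
    ext q
    simp [and_comm]
  have h3 : (ρ.restrict (E ×ˢ Set.univ)).map Prod.snd
      = (ρ'.restrict (E ×ˢ Set.univ)).map Prod.snd := by
    refine Measure.ext_prod fun {C D} hC hD => ?_
    rw [hm ρ _ (hC.prod hD), hm ρ' _ (hC.prod hD)]
    exact h2 E C D hE hC hD
  rw [← hm ρ F hF, ← hm ρ' F hF, h3]

end SwapM

theorem specSwap : SpecSwap := by
  intro Ω _ _ μ _ T hT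
  set ν₂ := relSq (MeasurableSpace.invariants_le (Prod.map T T))
    (relSq (MeasurableSpace.invariants_le T) μ) with hν
  have hm : Measurable (fun q : (Ω × Ω) × (Ω × Ω) => ((q.1.1, q.2.1), (q.1.2, q.2.2))) := by
    fun_prop
  refine ⟨hm, ?_⟩
  have : IsProbabilityMeasure (ν₂.map
      (fun q : (Ω × Ω) × (Ω × Ω) => ((q.1.1, q.2.1), (q.1.2, q.2.2)))) :=
    Measure.isProbabilityMeasure_map hm.aemeasurable
  refine SwapM.ext4 _ _ fun a b c d ha hb hc hd => ?_
  have hB : Bdd (fun q : (Ω × Ω) × (Ω × Ω) => (a q.1.1 * b q.1.2) * (c q.2.1 * d q.2.2)) :=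
    ((SwapM.bdd2 ha hb).comp measurable_fst).mul ((SwapM.bdd2 hc hd).comp measurable_snd)
  rw [integral_map hm.aemeasurable (hB.asm _)]
  have h1 := SwapM.L_swap hT ha hb hc hd
  -- `L a b c d = ∫ a(z00) b(z01) c(z10) d(z11)`
  calc ∫ q, (a q.1.1 * b q.2.1) * (c q.1.2 * d q.2.2) ∂ν₂
      = SwapM.L μ T a b c d := by
        refine integral_congr_ae (Eventually.of_forall fun q => ?_)
        simp only
        ring
    _ = SwapM.L μ T a c b d := h1
    _ = ∫ q, (a q.1.1 * b q.1.2) * (c q.2.1 * d q.2.2) ∂ν₂ := rfl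

end MPd26.HK
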