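import Pool.Agent.Lib.MP_d26cd8_an.HK.Spec0
import Pool.Agent.Lib.MP_d26cd8_an.HK.Sq

/-!
# MP_d26cd8_an, HK: module Zchar (helper18)

`|||f|||_{k+1} = 0` iff `E(f|Z_k) = 0`.
-/

set_option autoImplicit false

open MeasureTheory ProbabilityTheory Filter Topology
open scoped ComplexConjugate ENNReal

namespace MPd26.HK

namespace ZcharM

variable {α : Type} [mα : MeasurableSpace α]

/-- The product over the vertices other than `0`. -/
noncomputable def po (f : α → ℂ) {n : ℕ} (x : Cube n α) : ℂ :=
  ∏ ε : {ε : Vx n // ε ≠ v0}, sg ε.1 (f (x ε.1))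

omit mα in
lemma cp_eq (f : α → ℂ) {n : ℕ} (x : Cube n α) : cp f n x = f (x v0) * po f x := by
  classical
  unfold cp po
  rw [← Finset.mul_prod_erase Finset.univ (fun ε => sg ε (f (x ε))) (Finset.mem_univ v0), sg_v0]
  congr 1
  rw [Finset.prod_subtype (p := fun ε : Vx n => ε ≠ v0) (Finset.univ.erase v0)
    (fun ε => by simp) (fun ε => sg ε (f (x ε)))]

lemma po_meas {f : α → ℂ} (hf : Measurable f) {n : ℕ} :
    Measurable[others α v0] (po f : Cube n α → ℂ) := by
  have h : (po f : Cube n α → ℂ) = (fun y : {ε : Vx n // ε ≠ v0} → α =>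
      ∏ ε : {ε : Vx n // ε ≠ v0}, sg ε.1 (f (y ε))) ∘ rst v0 := rfl
  rw [h]
  have h1 : Measurable (fun y : {ε : Vx n // ε ≠ v0} → α =>
      ∏ ε : {ε : Vx n // ε ≠ v0}, sg ε.1 (f (y ε))) :=
    Finset.measurable_prod _ fun ε _ => (measurable_sg ε.1).comp (hf.comp (measurable_pi_apply ε))
  exact h1.comp (comap_measurable _)

lemma po_bdd {f : α → ℂ} (hf : Bdd f) {n : ℕ} : Bdd (po f : Cube n α → ℂ) :=
  Bdd.prod _ fun ε _ => (hf.comp (measurable_pi_apply ε.1)).sg ε.1

end ZcharM

open ZcharM in
theorem specZchar (hCI : SpecCI) (hGCS : SpecGCS) (hZO : SpecZeroOthers) : SpecZchar := by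
  intro α _ _ X hX k f hf
  have hm := X.mp_marg (k + 1) v0
  constructor
  · intro h0
    -- orthogonality to all functions of the other coordinates
    have h1 : ∀ F : Cube (k + 1) α → ℂ, Bdd F →
        AEStronglyMeasurable[others α v0] F (X.cm (k + 1)) →
        ∫ x, f (x v0) * F x ∂(X.cm (k + 1)) = 0 := by
      refine hZO α (k + 1) (X.cm (k + 1)) (fun x => f (x v0))
        ((hf.comp (measurable_pi_apply v0)).integrable _) ?_
      intro g hg hg0
      classical
      let g' : Vx (k + 1) → α → ℂ := fun ε => if ε = v0 then f else g ε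
      have hg' : ∀ ε, Bdd (g' ε) := by
        intro ε
        by_cases h : ε = v0
        · simp only [g', h, if_true]; exact hf
        · simp only [g', h, if_false]; exact hg ε
      have e1 : ∀ x : Cube (k + 1) α, f (x v0) * ∏ ε, g ε (x ε) = ∏ ε, g' ε (x ε) := by
        intro x
        rw [← Finset.mul_prod_erase Finset.univ (fun ε => g ε (x ε)) (Finset.mem_univ v0),
          ← Finset.mul_prod_erase Finset.univ (fun ε => g' ε (x ε)) (Finset.mem_univ v0), hg0,
          one_mul]
        congr 1
        · simp [g']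
        · refine Finset.prod_congr rfl fun ε hε => ?_
          have : ε ≠ v0 := (Finset.mem_erase.1 hε).1
          simp [g', this]
      have e2 : ∫ x, f (x v0) * ∏ ε, g ε (x ε) ∂(X.cm (k + 1))
          = ∫ x, ∏ ε, g' ε (x ε) ∂(X.cm (k + 1)) := integral_congr_ae (ae_of_all _ e1)
      rw [e2]
      have h2 := hGCS α X k g' hg'
      have h3 : ∏ ε, X.sn (k + 1) (g' ε) = 0 := by
        refine Finset.prod_eq_zero (Finset.mem_univ v0) ?_
        simp only [g', if_true]
        exact h0
      rw [h3] at h2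
      exact norm_le_zero_iff.1 h2
    have h2 : ∀ A : Set α, MeasurableSet[(X.Z k).σ] A → ∫ x in A, f x ∂X.μ = 0 := by
      intro A hA
      obtain ⟨hAm, B, hB, hAB⟩ := hA
      have h3 := h1 (fun x => ((fun x : Cube (k + 1) α => x v0) ⁻¹' A).indicator
        (fun _ => (1 : ℂ)) x) ?_ ?_
      · rw [← integral_indicator hAm, ← hm.map_eq, integral_map hm.measurable.aemeasurable
          ((hf.1.indicator hAm).aestronglyMeasurable)]
        refine Eq.trans (integral_congr_ae (ae_of_all _ fun x => ?_)) h3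
        by_cases hx : x v0 ∈ A
        · simp [Set.indicator, hx]
        · simp [Set.indicator, hx]
      · refine ⟨measurable_const.indicator (measurable_pi_apply v0 hAm), 1, fun x => ?_⟩
        by_cases hx : x v0 ∈ A <;> simp [Set.indicator, hx]
      · refine ⟨(rst v0 ⁻¹' B).indicator (fun _ => (1 : ℂ)), ?_, ?_⟩
        · have hB' : MeasurableSet[others α v0] (rst v0 ⁻¹' B : Set (Cube (k + 1) α)) :=
            ⟨B, hB, rfl⟩
          exact (measurable_const.indicator hB').stronglyMeasurable
        · filter_upwards [hAB] with x hx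
          have hx' : (x ∈ (fun x : Cube (k + 1) α => x v0) ⁻¹' A) ↔ x ∈ rst v0 ⁻¹' B :=
            Iff.of_eq hx
          by_cases h : x ∈ rst v0 ⁻¹' B
          · rw [Set.indicator_of_mem h, Set.indicator_of_mem (hx'.2 h)]
          · rw [Set.indicator_of_notMem h, Set.indicator_of_notMem (fun h' => h (hx'.1 h'))]
    have h4 : (0 : α → ℂ) =ᵐ[X.μ] X.μ[f | (X.Z k).σ] := by
      refine ae_eq_condExp_of_forall_setIntegral_eq (X.Z k).le (hf.integrable X.μ) ?_ ?_ ?_
      · intro s _ _
        exact integrableOn_zero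
      · intro s hs _
        simp [h2 s hs]
      · exact aestronglyMeasurable_zero
    exact h4.symm
  · intro h0
    have h1 : ∫ x, cp f (k + 1) x ∂(X.cm (k + 1)) = 0 := by
      have h2 := hCI α X hX k v0 f (po f) hf (po_bdd hf) (po_meas hf.1)
      have h3 : ∫ x, cp f (k + 1) x ∂(X.cm (k + 1)) = ∫ x, f (x v0) * po f x ∂(X.cm (k + 1)) :=
        integral_congr_ae (ae_of_all _ fun x => cp_eq f x)
      rw [h3, h2]
      have h4 : (fun x : Cube (k + 1) α => (X.μ[f | (X.Z k).σ]) (x v0) * po f x)
          =ᵐ[X.cm (k + 1)] fun _ => 0 := by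
        have := hm.quasiMeasurePreserving.ae_eq_comp h0
        filter_upwards [this] with x hx
        have hx' : (X.μ[f | (X.Z k).σ]) (x v0) = 0 := hx
        rw [hx', zero_mul]
      rw [integral_congr_ae h4, integral_zero]
    unfold Sys.sn
    rw [h1, norm_zero]
    exact Real.zero_rpow (by positivity)

end MPd26.HK
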