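import Pool.Agent.Lib.MP_d26cd8_an.HK.NilSpec
import Pool.Agent.Lib.MP_d26cd8_an.HK.Dist

/-!
# Factorization and approximation lemmas used for Theorem 5 (module Nil of project 86)
-/

set_option autoImplicit false

open MeasureTheory ProbabilityTheory Filter Topology
open scoped ComplexConjugate ENNReal

namespace MPd26.HK

section Compl
variable {Ω Ω' : Type} {m' : MeasurableSpace Ω} [mΩ : MeasurableSpace Ω] [MeasurableSpace Ω']
  {μ : Measure Ω}

/-- Factorization of functions modulo null sets. -/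
lemma exists_fac {q : Ω → Ω'}
    (h : ∀ S, MeasurableSet[m'] S → ∃ B, MeasurableSet B ∧ S =ᵐ[μ] q ⁻¹' B)
    {g : Ω → ℂ} (hg : Measurable[m'] g) :
    ∃ K : Ω' → ℂ, Measurable K ∧ ∀ᵐ x ∂μ, g x = K (q x) := by
  classical
  have hs : StronglyMeasurable[m'] g := hg.stronglyMeasurable
  clear hg
  induction g, hs using StronglyMeasurable.induction' with
  | const c => exact ⟨fun _ => c, measurable_const, ae_of_all _ fun _ => rfl⟩
  | @pcw f g s hf' hg' hs hf hg =>
    obtain ⟨K₁, hK₁, h₁⟩ := hf
    obtain ⟨K₂, hK₂, h₂⟩ := hg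
    obtain ⟨B, hB, hsB⟩ := h s hs
    refine ⟨B.piecewise K₁ K₂, hK₁.piecewise hB hK₂, ?_⟩
    filter_upwards [h₁, h₂, hsB.mem_iff] with x h1 h2 h3
    by_cases hx : x ∈ s
    · have : q x ∈ B := h3.1 hx
      rw [Set.piecewise_eq_of_mem _ _ _ hx, Set.piecewise_eq_of_mem _ _ _ this, h1]
    · have : q x ∉ B := fun hb => hx (h3.2 hb)
      rw [Set.piecewise_eq_of_notMem _ _ _ hx, Set.piecewise_eq_of_notMem _ _ _ this, h2]
  | @lim f g hf' hg' hf hlim =>
    choose K hK hfK using hf
    refine ⟨fun y => limUnder atTop (fun n => K n y), ?_, ?_⟩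
    · exact (StronglyMeasurable.limUnder fun n => (hK n).stronglyMeasurable).measurable
    · filter_upwards [ae_all_iff.2 hfK] with x hx
      refine (Tendsto.limUnder_eq ?_).symm
      simpa only [← hx] using hlim x

/-- The σ-algebra of sets equal mod null sets to a pull-back. -/
@[instance_reducible] def compSig (μ : Measure Ω) (q : Ω → Ω') : MeasurableSpace Ω where
  MeasurableSet' := fun S => ∃ B : Set Ω', MeasurableSet B ∧ S =ᵐ[μ] q ⁻¹' B
  measurableSet_empty := ⟨∅, MeasurableSet.empty, by simp⟩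
  measurableSet_compl := by
    rintro A ⟨B, hB, hAB⟩
    exact ⟨Bᶜ, hB.compl, hAB.compl⟩
  measurableSet_iUnion := by
    intro A hA
    choose B hB hAB using hA
    refine ⟨⋃ i, B i, MeasurableSet.iUnion hB, ?_⟩
    simp only [Set.preimage_iUnion]
    exact Filter.EventuallyEq.countable_iUnion hAB

end Compl

section CubeFac
variable {α β : Type} [mα : MeasurableSpace α] [StandardBorelSpace α] [mβ : MeasurableSpace β]
  {X : Sys α} {Y : Sys β} {p : α → β}

/-- Sets of `σ(p)^[n]` are pull-backs modulo null sets. -/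
lemma FMap.fac_cube (h : FMap X Y p) (n : ℕ) (S : Set (Cube n α))
    (hS : MeasurableSet[h.fac.cube n] S) :
    ∃ B : Set (Cube n β), MeasurableSet B ∧ S =ᵐ[X.cm n] cmap p ⁻¹' B := by
  have hle : h.fac.cube n ≤ compSig (X.cm n) (cmap p) := by
    refine iSup_le fun ε => ?_
    rintro S ⟨A, ⟨hA, B, hB, hAB⟩, rfl⟩
    refine ⟨(fun y : Cube n β => y ε) ⁻¹' B, measurable_pi_apply ε hB, ?_⟩
    exact (X.mp_marg n ε).quasiMeasurePreserving.preimage_ae_eq hAB
  exact hle S hS

/-- `σ(p)^[n]`-measurable functions factor through `p^[n]` modulo null sets. -/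
lemma FMap.exists_fac_cube (h : FMap X Y p) (n : ℕ) {F : Cube n α → ℂ}
    (hF : AEStronglyMeasurable[h.fac.cube n] F (X.cm n)) :
    ∃ K : Cube n β → ℂ, Measurable K ∧ ∀ᵐ x ∂(X.cm n), F x = K (cmap p x) := by
  obtain ⟨K, hK, hg⟩ := exists_fac (h.fac_cube n) hF.stronglyMeasurable_mk.measurable
  exact ⟨K, hK, by filter_upwards [hF.ae_eq_mk, hg] with x h1 h2; rw [h1, h2]⟩

omit [StandardBorelSpace α] in
lemma FMap.meas_cmap (h : FMap X Y p) (n : ℕ) :
    Measurable[h.fac.cube n] (cmap p : Cube n α → Cube n β) := by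
  refine @measurable_pi_lambda _ _ _ (h.fac.cube n) _ _ fun ε => ?_
  have h1 : @Measurable _ _ (h.fac.cube n) h.fac.σ (fun x : Cube n α => x ε) :=
    @measurable_pi_apply _ _ (fun _ => h.fac.σ) ε
  exact h.fac_measurable.comp h1

end CubeFac

/-! ### Approximation -/

section Approx
variable {Ω : Type} {m : MeasurableSpace Ω} [mΩ : MeasurableSpace Ω] {μ : Measure Ω}
  [IsFiniteMeasure μ]

/-- `dist2` tends to zero along bounded pointwise limits. -/
lemma tendsto_dist2_of_tendsto {f : Ω → ℂ} {F : ℕ → Ω → ℂ} {C : ℝ} (hf : Measurable f)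
    (hF : ∀ n, Measurable (F n)) (hC : ∀ n x, ‖F n x‖ ≤ C)
    (h : ∀ x, Tendsto (fun n => F n x) atTop (𝓝 (f x))) :
    Tendsto (fun n => dist2 μ f (F n)) atTop (𝓝 0) := by
  have hfC : ∀ x, ‖f x‖ ≤ C := fun x =>
    le_of_tendsto' (h x).norm fun n => hC n x
  have h1 : Tendsto (fun n => ∫ x, ‖f x - F n x‖ ^ 2 ∂μ) atTop (𝓝 (∫ x, (0 : ℝ) ∂μ)) := by
    refine tendsto_integral_of_dominated_convergence (fun _ => (2 * C) ^ 2)
      (fun n => ((hf.sub (hF n)).norm.pow_const 2).aestronglyMeasurable)
      (integrable_const _) ?_ ?_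
    · intro n
      refine ae_of_all _ fun x => ?_
      rw [Real.norm_of_nonneg (by positivity)]
      have : ‖f x - F n x‖ ≤ 2 * C := by
        have := norm_sub_le (f x) (F n x)
        linarith [hfC x, hC n x]
      exact pow_le_pow_left₀ (norm_nonneg _) this 2
    · refine ae_of_all _ fun x => ?_
      have h2 : Tendsto (fun n => ‖f x - F n x‖ ^ 2) atTop (𝓝 (‖f x - f x‖ ^ 2)) :=
        ((tendsto_const_nhds.sub (h x)).norm).pow 2
      simpa using h2
  simpa [dist2] using h1

/-- Functional monotone class argument. -/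
lemma approx_gen (hm : m ≤ mΩ) (C : Set (Set Ω)) (hC : m = MeasurableSpace.generateFrom C)
    (hπ : IsPiSystem C) (P : (Ω → ℂ) → Prop) (h1 : P fun _ => 1)
    (hind : ∀ s ∈ C, P (s.indicator fun _ => 1))
    (hadd : ∀ f g, P f → P g → P (fun x => f x + g x))
    (hmul : ∀ (c : ℂ) f, P f → P (fun x => c * f x))
    (hlim : ∀ f, Bdd f → (∀ η : ℝ, 0 < η → ∃ g, P g ∧ Bdd g ∧ dist2 μ f g ≤ η) → P f)
    {F : Ω → ℂ} (hF : Measurable[m] F) (hFb : ∃ B : ℝ, ∀ x, ‖F x‖ ≤ B) : P F := by
  classical
  -- indicators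
  have hbi : ∀ {A : Set Ω}, MeasurableSet A → Bdd (A.indicator (fun _ => (1 : ℂ))) := by
    intro A hA
    refine ⟨measurable_const.indicator hA, 1, fun x => ?_⟩
    by_cases hx : x ∈ A <;> simp [hx]
  have h0 : P fun _ => 0 := by simpa using hmul 0 _ h1
  have hI : ∀ s, MeasurableSet[m] s → P (s.indicator fun _ => 1) := by
    intro s hs
    refine MeasurableSpace.induction_on_inter (C := fun s _ => P (s.indicator fun _ => 1))
      hC hπ ?_ ?_ ?_ ?_ s hs
    · simpa using h0
    · intro t ht; exact hind t ht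
    · intro t ht hPt
      have := hadd _ _ h1 (hmul (-1) _ hPt)
      refine (congrArg P ?_).mp this
      funext x
      by_cases hx : x ∈ t <;> simp [hx]
    · intro t hd ht hPt
      refine hlim _ (hbi (MeasurableSet.iUnion fun i => hm _ (ht i))) fun η hη => ?_
      have hsum : ∀ k : ℕ, P (fun x => ∑ i ∈ Finset.range k, (t i).indicator (fun _ => (1 : ℂ)) x)
          := by
        intro k
        induction k with
        | zero => simpa using h0
        | succ k ih =>
          simp only [Finset.sum_range_succ]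
          exact hadd _ _ ih (hPt k)
      have hval : ∀ k x, ∑ i ∈ Finset.range k, (t i).indicator (fun _ => (1 : ℂ)) x
          = (⋃ i ∈ Finset.range k, t i).indicator (fun _ => (1 : ℂ)) x := by
        intro k x
        by_cases hx : ∃ i ∈ Finset.range k, x ∈ t i
        · obtain ⟨i, hi, hxi⟩ := hx
          rw [Finset.sum_eq_single i]
          · have : x ∈ ⋃ i ∈ Finset.range k, t i := Set.mem_iUnion₂.2 ⟨i, hi, hxi⟩
            rw [Set.indicator_of_mem hxi, Set.indicator_of_mem this]
          · intro j _ hj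
            exact Set.indicator_of_notMem (fun h => (hd hj).le_bot ⟨h, hxi⟩) _
          · intro h; exact absurd hi h
        · push Not at hx
          rw [Finset.sum_eq_zero fun i hi => Set.indicator_of_notMem (hx i hi) _,
            Set.indicator_of_notMem]
          intro h
          obtain ⟨i, hi, hxi⟩ := Set.mem_iUnion₂.1 h
          exact hx i hi hxi
      have hconv : Tendsto (fun k : ℕ => dist2 μ ((⋃ i, t i).indicator fun _ => (1 : ℂ))
          (fun x => ∑ i ∈ Finset.range k, (t i).indicator (fun _ => (1 : ℂ)) x)) atTop (𝓝 0) := by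
        refine tendsto_dist2_of_tendsto (C := 1)
          (hbi (MeasurableSet.iUnion fun i => hm _ (ht i))).1 (fun k => ?_) (fun k x => ?_)
          (fun x => ?_)
        · exact Finset.measurable_sum _ fun i _ => (hbi (hm _ (ht i))).1
        · rw [hval]
          by_cases hx : x ∈ ⋃ i ∈ Finset.range k, t i
          · rw [Set.indicator_of_mem hx]; simp
          · rw [Set.indicator_of_notMem hx]; simp
        · by_cases hx : ∃ i, x ∈ t i
          · obtain ⟨i, hxi⟩ := hx
            refine tendsto_const_nhds.congr' ?_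
            filter_upwards [eventually_gt_atTop i] with k hk
            have h2 : x ∈ ⋃ i ∈ Finset.range k, t i :=
              Set.mem_iUnion₂.2 ⟨i, Finset.mem_range.2 hk, hxi⟩
            have h3 : x ∈ ⋃ i, t i := Set.mem_iUnion.2 ⟨i, hxi⟩
            show (⋃ i, t i).indicator (fun _ => (1 : ℂ)) x
              = ∑ i ∈ Finset.range k, (t i).indicator (fun _ => (1 : ℂ)) x
            rw [hval, Set.indicator_of_mem h2, Set.indicator_of_mem h3]
          · push Not at hx
            refine tendsto_const_nhds.congr' ?_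
            refine Eventually.of_forall fun k => ?_
            have h2 : x ∉ ⋃ i ∈ Finset.range k, t i := by
              intro h
              obtain ⟨i, _, hxi⟩ := Set.mem_iUnion₂.1 h
              exact hx i hxi
            have h3 : x ∉ ⋃ i, t i := by
              intro h
              obtain ⟨i, hxi⟩ := Set.mem_iUnion.1 h
              exact hx i hxi
            show (⋃ i, t i).indicator (fun _ => (1 : ℂ)) x
              = ∑ i ∈ Finset.range k, (t i).indicator (fun _ => (1 : ℂ)) x
            rw [hval, Set.indicator_of_notMem h2, Set.indicator_of_notMem h3]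
      obtain ⟨k, hk⟩ := ((tendsto_order.1 hconv).2 η hη).exists
      exact ⟨_, hsum k, Bdd.sum _ fun i _ => hbi (hm _ (ht i)), hk.le⟩
  -- simple functions
  have hS : ∀ s : @SimpleFunc Ω m ℂ, P s := by
    intro s
    refine @SimpleFunc.induction Ω ℂ m _ (fun s => P s) ?_ ?_ s
    · intro c t ht
      have := hmul c _ (hI t ht)
      refine (congrArg P ?_).mp this
      funext x
      by_cases hx : x ∈ t <;> simp [hx]
    · intro f g _ hf hg
      exact hadd _ _ hf hg
  -- bounded functions
  obtain ⟨B, hB⟩ := hFb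
  have hFs : StronglyMeasurable[m] F := hF.stronglyMeasurable
  have hFb' : Bdd F := ⟨hF.mono hm le_rfl, B, hB⟩
  refine hlim _ hFb' fun η hη => ?_
  have hB0 : 0 ≤ |B| := abs_nonneg B
  obtain ⟨a, ha1, ha2, ha3⟩ : ∃ a : ℕ → Ω → ℂ, (∀ k, Measurable[m] (a k) ∧ P (a k)) ∧
      (∀ k x, ‖a k x‖ ≤ |B|) ∧ ∀ x, Tendsto (fun k => a k x) atTop (𝓝 (F x)) := by
    refine ⟨fun k => @SimpleFunc.toFun Ω m ℂ (hFs.approxBounded |B| k), fun k =>
      ⟨@SimpleFunc.measurable Ω ℂ m _ (hFs.approxBounded |B| k), hS _⟩,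
      fun k x => hFs.norm_approxBounded_le hB0 k x,
      fun x => hFs.tendsto_approxBounded_of_norm_le ((hB x).trans (le_abs_self B))⟩
  have hconv : Tendsto (fun k : ℕ => dist2 μ F (a k)) atTop (𝓝 0) :=
    tendsto_dist2_of_tendsto (C := |B|) hFb'.1 (fun k => (ha1 k).1.mono hm le_rfl) ha2 ha3
  obtain ⟨k, hk⟩ := ((tendsto_order.1 hconv).2 η hη).exists
  exact ⟨_, (ha1 k).2, ⟨(ha1 k).1.mono hm le_rfl, |B|, ha2 k⟩, hk.le⟩

end Approx

end MPd26.HK
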