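import Pool.Agent.Lib.MP_d26cd8_an.HK.BridgeSpec
import Pool.Agent.Lib.MP_d26cd8_an.HK.SymCp

/-!
# MP_d26cd8_an, bridge: CCOCFAC (the phase of a cube on a factor is a cube cocycle)
-/

set_option autoImplicit false

open MeasureTheory ProbabilityTheory Filter Topology
open scoped ComplexConjugate ENNReal

namespace MPd26.HK

namespace CCocFacM

section tri
variable {Ω : Type} {m : MeasurableSpace Ω} [mΩ : MeasurableSpace Ω] [StandardBorelSpace Ω]

instance (hm : m ≤ mΩ) (μ : Measure Ω) [IsProbabilityMeasure μ] :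
    IsProbabilityMeasure (relCb hm μ) := by
  unfold relCb; infer_instance

/-- the measure of a box -/
lemma relCb_prod (hm : m ≤ mΩ) (μ : Measure Ω) [IsProbabilityMeasure μ] {A B C : Set Ω}
    (hA : MeasurableSet A) (hB : MeasurableSet B) (hC : MeasurableSet C) :
    relCb hm μ (A ×ˢ B ×ˢ C) = ∫⁻ x in A, dis hm μ x B * dis hm μ x C ∂μ := by
  unfold relCb
  rw [Measure.compProd_apply_prod hA (hB.prod hC)]
  refine lintegral_congr fun x => ?_
  rw [Kernel.prod_apply_prod]

/-- the law of `(a,b)` -/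
lemma mp12 (hm : m ≤ mΩ) (μ : Measure Ω) [IsProbabilityMeasure μ] :
    MeasurePreserving (fun q : Ω × Ω × Ω => (q.1, q.2.1)) (relCb hm μ) (relSq hm μ) := by
  have hmeas : Measurable (fun q : Ω × Ω × Ω => (q.1, q.2.1)) :=
    measurable_fst.prodMk (measurable_fst.comp measurable_snd)
  refine ⟨hmeas, ?_⟩
  have : IsProbabilityMeasure ((relCb hm μ).map (fun q : Ω × Ω × Ω => (q.1, q.2.1))) :=
    Measure.isProbabilityMeasure_map hmeas.aemeasurable
  refine Measure.ext_prod fun {A B} hA hB => ?_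
  rw [Measure.map_apply hmeas (hA.prod hB)]
  have e : (fun q : Ω × Ω × Ω => (q.1, q.2.1)) ⁻¹' (A ×ˢ B) = A ×ˢ B ×ˢ Set.univ := by
    ext q; simp
  rw [e, relCb_prod hm μ hA hB MeasurableSet.univ, relSq_prod hm μ hA hB]
  refine lintegral_congr fun x => ?_
  rw [measure_univ, mul_one]
  rfl

/-- the law of `(a,c)` -/
lemma mp13 (hm : m ≤ mΩ) (μ : Measure Ω) [IsProbabilityMeasure μ] :
    MeasurePreserving (fun q : Ω × Ω × Ω => (q.1, q.2.2)) (relCb hm μ) (relSq hm μ) := by
  have hmeas : Measurable (fun q : Ω × Ω × Ω => (q.1, q.2.2)) :=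
    measurable_fst.prodMk (measurable_snd.comp measurable_snd)
  refine ⟨hmeas, ?_⟩
  have : IsProbabilityMeasure ((relCb hm μ).map (fun q : Ω × Ω × Ω => (q.1, q.2.2))) :=
    Measure.isProbabilityMeasure_map hmeas.aemeasurable
  refine Measure.ext_prod fun {A B} hA hB => ?_
  rw [Measure.map_apply hmeas (hA.prod hB)]
  have e : (fun q : Ω × Ω × Ω => (q.1, q.2.2)) ⁻¹' (A ×ˢ B) = A ×ˢ Set.univ ×ˢ B := by
    ext q; simp
  rw [e, relCb_prod hm μ hA MeasurableSet.univ hB, relSq_prod hm μ hA hB]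
  refine lintegral_congr fun x => ?_
  rw [measure_univ, one_mul]
  rfl

/-- the law of `(b,c)` -/
lemma mp23 (hm : m ≤ mΩ) (μ : Measure Ω) [IsProbabilityMeasure μ] :
    MeasurePreserving (fun q : Ω × Ω × Ω => (q.2.1, q.2.2)) (relCb hm μ) (relSq hm μ) := by
  have hmeas : Measurable (fun q : Ω × Ω × Ω => (q.2.1, q.2.2)) :=
    (measurable_fst.comp measurable_snd).prodMk (measurable_snd.comp measurable_snd)
  refine ⟨hmeas, ?_⟩
  have : IsProbabilityMeasure ((relCb hm μ).map (fun q : Ω × Ω × Ω => (q.2.1, q.2.2))) :=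
    Measure.isProbabilityMeasure_map hmeas.aemeasurable
  refine Measure.ext_prod fun {A B} hA hB => ?_
  rw [Measure.map_apply hmeas (hA.prod hB)]
  have e : (fun q : Ω × Ω × Ω => (q.2.1, q.2.2)) ⁻¹' (A ×ˢ B) = Set.univ ×ˢ A ×ˢ B := by
    ext q; simp
  rw [e, relCb_prod hm μ MeasurableSet.univ hA hB, Measure.restrict_univ]
  rw [← ENNReal.toReal_eq_toReal_iff' ?_ (measure_ne_top _ _)]
  swap
  · have : ∫⁻ x, dis hm μ x A * dis hm μ x B ∂μ ≤ ∫⁻ _x, 1 ∂μ :=
      lintegral_mono fun x => by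
        calc dis hm μ x A * dis hm μ x B ≤ 1 * 1 := mul_le_mul' prob_le_one prob_le_one
          _ = 1 := one_mul 1
    refine ne_top_of_le_ne_top ?_ this
    simp
  have hmA : Measurable fun x => dis hm μ x A := (dis hm μ).measurable_coe hA
  have hmB : Measurable fun x => dis hm μ x B := (dis hm μ).measurable_coe hB
  have h1 : (∫⁻ x, dis hm μ x A * dis hm μ x B ∂μ).toReal
      = ∫ x, (dis hm μ x).real A * (dis hm μ x).real B ∂μ := by
    have hm2 : AEMeasurable (fun x => dis hm μ x A * dis hm μ x B) μ := (hmA.mul hmB).aemeasurable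
    rw [← integral_toReal hm2]
    · refine integral_congr_ae (ae_of_all _ fun x => ?_)
      simp only [ENNReal.toReal_mul, Measure.real]
    · refine ae_of_all _ fun x => ?_
      exact ENNReal.mul_lt_top (measure_lt_top _ _) (measure_lt_top _ _)
  rw [h1]
  have h2 := relSq_real_prod hm μ hA hB
  have h3 : ∀ {D : Set Ω}, MeasurableSet D → μ[D.indicator (fun _ => (1 : ℂ)) | m] =ᵐ[μ]
      fun x => (((dis hm μ x).real D : ℝ) : ℂ) := by
    intro D hD
    refine (condExp_ae_eq_dis hm μ ((integrable_const (1 : ℂ)).indicator hD)).trans ?_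
    refine ae_of_all _ fun x => ?_
    simp only
    rw [integral_indicator hD]
    simp
  have h4 : ∫ x, (μ[A.indicator (fun _ => (1 : ℂ)) | m]) x *
      (μ[B.indicator (fun _ => (1 : ℂ)) | m]) x ∂μ
      = ((∫ x, (dis hm μ x).real A * (dis hm μ x).real B ∂μ : ℝ) : ℂ) := by
    rw [← integral_complex_ofReal]
    refine integral_congr_ae ?_
    filter_upwards [h3 hA, h3 hB] with x h5 h6
    rw [h5, h6]
    push_cast
    rfl
  rw [h4] at h2
  exact (Complex.ofReal_injective h2).symm

/-- maps of relative triples -/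
lemma mp_tri {Ω' : Type} {m' : MeasurableSpace Ω'} [mΩ' : MeasurableSpace Ω']
    [StandardBorelSpace Ω'] (hm : m ≤ mΩ) (hm' : m' ≤ mΩ') (μ : Measure Ω) (μ' : Measure Ω')
    [IsProbabilityMeasure μ] [IsProbabilityMeasure μ'] {P : Ω → Ω'}
    (hP : MeasurePreserving P μ μ')
    (h : ∀ B : Set Ω', MeasurableSet B → ∀ᵐ x ∂μ, dis hm μ x (P ⁻¹' B) = dis hm' μ' (P x) B) :
    MeasurePreserving (fun q : Ω × Ω × Ω => (P q.1, P q.2.1, P q.2.2)) (relCb hm μ)
      (relCb hm' μ') := by
  have hPm := hP.measurable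
  have hmeas : Measurable (fun q : Ω × Ω × Ω => (P q.1, P q.2.1, P q.2.2)) :=
    (hPm.comp measurable_fst).prodMk ((hPm.comp (measurable_fst.comp measurable_snd)).prodMk
      (hPm.comp (measurable_snd.comp measurable_snd)))
  refine ⟨hmeas, ?_⟩
  have : IsProbabilityMeasure
      ((relCb hm μ).map (fun q : Ω × Ω × Ω => (P q.1, P q.2.1, P q.2.2))) :=
    Measure.isProbabilityMeasure_map hmeas.aemeasurable
  refine Measure.ext_prod₃ fun {A B C} hA hB hC => ?_
  rw [Measure.map_apply hmeas (hA.prod (hB.prod hC))]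
  have e : (fun q : Ω × Ω × Ω => (P q.1, P q.2.1, P q.2.2)) ⁻¹' (A ×ˢ B ×ˢ C)
      = (P ⁻¹' A) ×ˢ (P ⁻¹' B) ×ˢ (P ⁻¹' C) := by
    ext q; simp
  rw [e, relCb_prod hm μ (hPm hA) (hPm hB) (hPm hC), relCb_prod hm' μ' hA hB hC]
  have hmB : Measurable fun x => dis hm' μ' x B := (dis hm' μ').measurable_coe hB
  have hmC : Measurable fun x => dis hm' μ' x C := (dis hm' μ').measurable_coe hC
  calc ∫⁻ x in P ⁻¹' A, dis hm μ x (P ⁻¹' B) * dis hm μ x (P ⁻¹' C) ∂μ
      = ∫⁻ x in P ⁻¹' A, (fun y => dis hm' μ' y B * dis hm' μ' y C) (P x) ∂μ := by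
        refine lintegral_congr_ae (ae_restrict_of_ae ?_)
        filter_upwards [h B hB, h C hC] with x h1 h2
        rw [h1, h2]
    _ = ∫⁻ y, (dis hm' μ' y B * dis hm' μ' y C) ∂((μ.restrict (P ⁻¹' A)).map P) :=
        (lintegral_map (hmB.mul hmC) hPm).symm
    _ = _ := by rw [(hP.restrict_preimage hA).map_eq]

end tri

end CCocFacM

open CCocFacM in
theorem specCCocFac (hFac : SpecFac) (hSym : SpecSym) : SpecCCocFac := by
  intro α β _ _ _ _ X Y p hp n φ K hφ hK hcp
  obtain ⟨hmpn, hcon⟩ := hFac α β X Y p hp n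
  obtain ⟨hmp1, -⟩ := hFac α β X Y p hp (n + 1)
  refine ⟨hK, ?_, ?_⟩
  · -- the law of triples
    have hdis : ∀ B : Set (Cube n β), MeasurableSet B → ∀ᵐ x ∂(X.cm n),
        dis (X.inv_le n) (X.cm n) x (cmap p ⁻¹' B)
          = dis (Y.inv_le n) (Y.cm n) (cmap p x) B := by
      intro B hB
      have hBd : Bdd (B.indicator fun _ => (1 : ℂ)) := by
        refine ⟨measurable_const.indicator hB, 1, fun x => ?_⟩
        by_cases h : x ∈ B <;> simp [h]
      have h1 := hcon _ hBd
      have e : (B.indicator fun _ => (1 : ℂ)) ∘ cmap p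
          = (cmap p ⁻¹' B).indicator fun _ => (1 : ℂ) := by
        funext x; rfl
      rw [e] at h1
      have h2 := condExp_ae_eq_dis (X.inv_le n) (X.cm n)
        ((integrable_const (1 : ℂ)).indicator (hmpn.measurable hB))
      have h3 := condExp_ae_eq_dis (Y.inv_le n) (Y.cm n) ((integrable_const (1 : ℂ)).indicator hB)
      have h4 := hmpn.quasiMeasurePreserving.ae h3
      filter_upwards [h1, h2, h4] with x h5 h6 h7
      rw [h6] at h5
      simp only [Function.comp] at h5
      rw [h7, integral_indicator (hmpn.measurable hB), integral_indicator hB] at h5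
      simp only [integral_const, MeasurableSet.univ, measureReal_restrict_apply, Set.univ_inter,
        Complex.real_smul, mul_one, Complex.ofReal_inj] at h5
      exact (measureReal_eq_measureReal_iff).1 h5
    have htri := mp_tri (X.inv_le n) (Y.inv_le n) (X.cm n) (Y.cm n) hmpn hdis
    rw [← htri.map_eq]
    have hKm := hK.1
    have hS : MeasurableSet {q : Cube n β × Cube n β × Cube n β |
        K (join (q.1, q.2.1)) * K (join (q.2.1, q.2.2)) = K (join (q.1, q.2.2))} := by
      refine measurableSet_eq_fun ?_ ?_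
      · exact (hKm.comp (measurable_join.comp
          (measurable_fst.prodMk (measurable_fst.comp measurable_snd)))).mul
          (hKm.comp (measurable_join.comp
          ((measurable_fst.comp measurable_snd).prodMk (measurable_snd.comp measurable_snd))))
      · exact hKm.comp (measurable_join.comp
          (measurable_fst.prodMk (measurable_snd.comp measurable_snd)))
    rw [ae_map_iff htri.measurable.aemeasurable hS]
    have hsq : ∀ᵐ q ∂(relSq (X.inv_le n) (X.cm n)),
        cp φ n q.1 * conj (cp φ n q.2) = K (join (cmap p q.1, cmap p q.2)) := by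
      have := (X.ae_cm_succ_iff n).1 hcp
      filter_upwards [this] with q hq
      rw [cp_join, Sys.cmap_join] at hq
      exact hq
    have h12 := (mp12 (X.inv_le n) (X.cm n)).quasiMeasurePreserving.ae hsq
    have h13 := (mp13 (X.inv_le n) (X.cm n)).quasiMeasurePreserving.ae hsq
    have h23 := (mp23 (X.inv_le n) (X.cm n)).quasiMeasurePreserving.ae hsq
    filter_upwards [h12, h13, h23] with q h1 h2 h3
    rw [← h1, ← h2, ← h3]
    have h4 := (hφ.cp n).conj_mul q.2.1
    calc cp φ n q.1 * conj (cp φ n q.2.1) * (cp φ n q.2.1 * conj (cp φ n q.2.2))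
        = cp φ n q.1 * (conj (cp φ n q.2.1) * cp φ n q.2.1) * conj (cp φ n q.2.2) := by ring
      _ = _ := by rw [h4, mul_one]
  · intro σ r
    have hs := hSym α X (n + 1) σ r
    have hsY := hSym β Y (n + 1) σ r
    rw [← hmp1.map_eq]
    have hS : MeasurableSet {x : Cube (n + 1) β | K (symm σ r x) = sg r (K x)} :=
      measurableSet_eq_fun (hK.1.comp hsY.measurable) ((measurable_sg r).comp hK.1)
    rw [ae_map_iff hmp1.measurable.aemeasurable hS]
    filter_upwards [hcp, hs.quasiMeasurePreserving.ae hcp] with x h1 h2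
    have e : symm σ r (cmap p x) = cmap p (symm σ r x) := rfl
    rw [e, ← h1, ← h2, SymCpM.cp_symm]

end MPd26.HK
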