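import Pool.Agent.Lib.MP_d26cd8_an.HK.Defs

set_option autoImplicit false

open MeasureTheory ProbabilityTheory Filter Topology
open scoped ComplexConjugate ENNReal

namespace MPd26.HK

section RelSq
variable {Ω : Type} {m : MeasurableSpace Ω} [mΩ : MeasurableSpace Ω] [StandardBorelSpace Ω]

lemma relSq_prod (hm : m ≤ mΩ) (μ : Measure Ω) [IsFiniteMeasure μ] {A B : Set Ω}
    (hA : MeasurableSet A) (hB : MeasurableSet B) :
    relSq hm μ (A ×ˢ B) = ∫⁻ x in A, condExpKernel μ m x B ∂μ := by
  unfold relSq
  rw [Measure.compProd_apply_prod hA hB]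
  rfl

omit [StandardBorelSpace Ω] in
/-- `E(B∘T|I) = E(B|I)` for `T` measure preserving, `I` its invariant σ-algebra. -/
lemma condExp_comp_inv {E : Type} [NormedAddCommGroup E] [NormedSpace ℝ E] [CompleteSpace E]
    {μ : Measure Ω} [IsFiniteMeasure μ] {T : Ω → Ω} (hT : MeasurePreserving T μ μ)
    {f : Ω → E} (hf : Integrable f μ) :
    μ[f ∘ T | MeasurableSpace.invariants T] =ᵐ[μ] μ[f | MeasurableSpace.invariants T] := by
  have hle : MeasurableSpace.invariants T ≤ mΩ := MeasurableSpace.invariants_le T
  refine (ae_eq_condExp_of_forall_setIntegral_eq hle hf (fun s _ _ => integrable_condExp.integrableOn)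
    ?_ stronglyMeasurable_condExp.aestronglyMeasurable)
  intro s hs _
  rw [setIntegral_condExp hle ((hT.integrable_comp_of_integrable hf)) hs]
  obtain ⟨hs1, hs2⟩ := MeasurableSpace.measurableSet_invariants.1 hs
  have h1 : ∫ x in s, (f ∘ T) x ∂μ = ∫ x in T ⁻¹' s, (f ∘ T) x ∂μ := by rw [hs2]
  rw [h1]
  have h2 := hT.restrict_preimage hs1
  calc ∫ x in T ⁻¹' s, (f ∘ T) x ∂μ = ∫ x, f x ∂((μ.restrict (T ⁻¹' s)).map T) := by
        rw [integral_map hT.measurable.aemeasurable]
        · rfl
        · rw [h2.map_eq]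
          exact hf.aestronglyMeasurable.restrict
    _ = ∫ x in s, f x ∂μ := by rw [h2.map_eq]

/-- `id × T` preserves the square relatively independent over the invariants of `T`. -/
lemma relSq_map_snd {μ : Measure Ω} [IsFiniteMeasure μ] {T : Ω → Ω} (hT : MeasurePreserving T μ μ) :
    (relSq (MeasurableSpace.invariants_le T) μ).map (Prod.map id T)
      = relSq (MeasurableSpace.invariants_le T) μ := by
  have : IsFiniteMeasure ((relSq (MeasurableSpace.invariants_le T) μ).map (Prod.map id T)) := by
    unfold relSq; infer_instance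
  refine Measure.ext_prod fun {A B} hA hB => ?_
  rw [Measure.map_apply (measurable_id.prodMap hT.measurable) (hA.prod hB)]
  have h1 : Prod.map id T ⁻¹' (A ×ˢ B) = A ×ˢ (T ⁻¹' B) := by ext p; simp
  rw [h1, relSq_prod _ _ hA (hT.measurable hB), relSq_prod _ _ hA hB]
  refine lintegral_congr_ae (ae_restrict_of_ae ?_)
  have hle := MeasurableSpace.invariants_le T
  have e1 := condExpKernel_ae_eq_condExp (μ := μ) hle (hT.measurable hB)
  have e2 := condExpKernel_ae_eq_condExp (μ := μ) hle hB
  have e3 := condExp_comp_inv hT (f := B.indicator fun _ => (1 : ℝ))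
    ((integrable_const (1 : ℝ)).indicator hB)
  have e4 : (B.indicator fun _ => (1 : ℝ)) ∘ T = (T ⁻¹' B).indicator fun _ => (1 : ℝ) := rfl
  rw [e4] at e3
  filter_upwards [e1, e2, e3] with x h1 h2 h3
  have : (condExpKernel μ (MeasurableSpace.invariants T) x).real (T ⁻¹' B)
      = (condExpKernel μ (MeasurableSpace.invariants T) x).real B := by rw [h1, h2, h3]
  rw [← ofReal_measureReal, ← ofReal_measureReal, this]

/-- `T × id` preserves the square relatively independent over the invariants of `T`. -/
lemma relSq_map_fst {μ : Measure Ω} [IsFiniteMeasure μ] {T : Ω → Ω} (hT : MeasurePreserving T μ μ) :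
    (relSq (MeasurableSpace.invariants_le T) μ).map (Prod.map T id)
      = relSq (MeasurableSpace.invariants_le T) μ := by
  have : IsFiniteMeasure ((relSq (MeasurableSpace.invariants_le T) μ).map (Prod.map T id)) := by
    unfold relSq; infer_instance
  refine Measure.ext_prod fun {A B} hA hB => ?_
  rw [Measure.map_apply (hT.measurable.prodMap measurable_id) (hA.prod hB)]
  have h1 : Prod.map T id ⁻¹' (A ×ˢ B) = (T ⁻¹' A) ×ˢ B := by ext p; simp
  rw [h1, relSq_prod _ _ (hT.measurable hA) hB, relSq_prod _ _ hA hB]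
  have h2 : (fun x => condExpKernel μ (MeasurableSpace.invariants T) x B) ∘ T
      = fun x => condExpKernel μ (MeasurableSpace.invariants T) x B :=
    MeasurableSpace.comp_eq_of_measurable_invariants (measurable_condExpKernel hB)
  have h3 := hT.restrict_preimage hA
  calc ∫⁻ x in T ⁻¹' A, condExpKernel μ (MeasurableSpace.invariants T) x B ∂μ
      = ∫⁻ x in T ⁻¹' A, ((fun x => condExpKernel μ (MeasurableSpace.invariants T) x B) ∘ T) x ∂μ
        := by rw [h2]
    _ = ∫⁻ x, condExpKernel μ (MeasurableSpace.invariants T) x B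
          ∂((μ.restrict (T ⁻¹' A)).map T) := by
        rw [lintegral_map _ hT.measurable]
        · rfl
        · exact (measurable_condExpKernel hB).mono (MeasurableSpace.invariants_le T) le_rfl
    _ = _ := by rw [h3.map_eq]

end RelSq

namespace Sys
variable {α : Type} [mα : MeasurableSpace α] [StandardBorelSpace α] (X : Sys α)

lemma cmap_join {β γ : Type} (f : β → γ) {n : ℕ} (p : Cube n β × Cube n β) :
    cmap f (join p) = join (Prod.map (cmap f) (cmap f) p) := by
  funext ε
  unfold cmap join
  by_cases h : ε 0 = true <;> simp [h, Prod.map]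

omit [StandardBorelSpace α] in
lemma measurable_cmapS (n : ℕ) : Measurable (cmap X.S : Cube n α → Cube n α) :=
  measurable_cmap X.S.measurable

/-- `S^[n]` preserves the cube measure. -/
theorem mp_cmap (n : ℕ) : MeasurePreserving (cmap X.S) (X.cm n) (X.cm n) := by
  induction n with
  | zero =>
    refine ⟨X.measurable_cmapS 0, ?_⟩
    have : (cmap X.S : Cube 0 α → Cube 0 α) ∘ pt = pt ∘ X.S := rfl
    rw [cm_zero, Measure.map_map (X.measurable_cmapS 0) measurable_pt, this,
      ← Measure.map_map measurable_pt X.S.measurable, X.mp.map_eq]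
  | succ n ih =>
    refine ⟨X.measurable_cmapS (n + 1), ?_⟩
    rw [cm_succ, Measure.map_map (X.measurable_cmapS (n + 1)) measurable_join]
    have h1 : (cmap X.S : Cube (n + 1) α → Cube (n + 1) α) ∘ join
        = join ∘ (Prod.map (cmap X.S) id ∘ Prod.map id (cmap X.S)) := by
      funext p
      exact cmap_join X.S p
    have h2 := relSq_map_fst ih
    have h3 := relSq_map_snd ih
    have hm := X.measurable_cmapS n
    rw [h1, ← Measure.map_map measurable_join ((hm.prodMap measurable_id).comp
      (measurable_id.prodMap hm)), ← Measure.map_map (hm.prodMap measurable_id)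
      (measurable_id.prodMap hm)]
    exact congrArg (Measure.map join) ((congrArg _ h3).trans h2)

omit [StandardBorelSpace α] in
lemma measurable_cmapSi (n : ℕ) : Measurable (cmap X.S.symm : Cube n α → Cube n α) :=
  measurable_cmap X.S.symm.measurable

/-- The inverse of `S^[n]` preserves the cube measure. -/
theorem mp_cmap_symm (n : ℕ) : MeasurePreserving (cmap X.S.symm) (X.cm n) (X.cm n) := by
  refine ⟨X.measurable_cmapSi n, ?_⟩
  conv_lhs => rw [← (X.mp_cmap n).map_eq]
  rw [Measure.map_map (X.measurable_cmapSi n) (X.measurable_cmapS n)]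
  have : (cmap X.S.symm : Cube n α → Cube n α) ∘ cmap X.S = id := by
    funext x ε
    simp [cmap]
  rw [this, Measure.map_id]

/-- `A ∈ Z_k`: under `μ^[k+1]` the event `x_0 ∈ A` is measurable with respect to the other
coordinates. -/
def InZ (k : ℕ) (A : Set α) : Prop :=
  MeasurableSet A ∧ ∃ B : Set ({η : Vx (k + 1) // η ≠ v0} → α), MeasurableSet B ∧
    (fun x : Cube (k + 1) α => x v0) ⁻¹' A =ᵐ[X.cm (k + 1)] rst v0 ⁻¹' B

lemma InZ.pre {k : ℕ} {A : Set α} (h : X.InZ k A) {T : α → α} (hT : Measurable T)
    (hp : MeasurePreserving (cmap T) (X.cm (k + 1)) (X.cm (k + 1))) : X.InZ k (T ⁻¹' A) := by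
  obtain ⟨hA, B, hB, hAB⟩ := h
  refine ⟨hT hA, (fun y η => T (y η)) ⁻¹' B,
    (measurable_pi_lambda _ fun η => hT.comp (measurable_pi_apply η)) hB, ?_⟩
  exact hp.quasiMeasurePreserving.preimage_ae_eq hAB

/-- The factor `Z_k`. -/
noncomputable def Z (k : ℕ) : X.Factor where
  σ :=
    { MeasurableSet' := X.InZ k
      measurableSet_empty := ⟨MeasurableSet.empty, ∅, MeasurableSet.empty, by simp⟩
      measurableSet_compl := by
        rintro A ⟨hA, B, hB, hAB⟩
        exact ⟨hA.compl, Bᶜ, hB.compl, hAB.compl⟩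
      measurableSet_iUnion := by
        intro A hA
        choose hm B hB hAB using hA
        refine ⟨MeasurableSet.iUnion hm, ⋃ i, B i, MeasurableSet.iUnion hB, ?_⟩
        simp only [Set.preimage_iUnion]
        exact Filter.EventuallyEq.countable_iUnion hAB }
  le := fun A hA => hA.1
  inv := fun A hA => InZ.pre X hA X.S.measurable (X.mp_cmap (k + 1))
  inv' := fun A hA => InZ.pre X hA X.S.symm.measurable (X.mp_cmap_symm (k + 1))

end Sys

end MPd26.HK
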