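import Pool.Agent.Lib.MP_d26cd8_an.HK.NilSpec
import Pool.Agent.Lib.MP_d26cd8_an.D5.Spec
import Pool.Agent.Lib.MP_d26cd8_an.Nil.Spec

/-!
# The bridge: `SpecNilPhase` from sections 2, 4 and 5 (helper15)

Text: /team-store/MP_d26cd8_an_BRIDGE_h15.md.
-/

set_option autoImplicit false

open MeasureTheory ProbabilityTheory Filter Topology
open scoped ComplexConjugate ENNReal

namespace MPd26.HK

open MPd26.Nil

/-- The map `z ↦ x₀ ψ(z) Γ`. -/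
noncomputable def qm {m d : ℕ} (x0 : UT m) {P : PG d} (ψ : P.Gp →* UT m) (z : Fin d → ℝ) : NM m :=
  ((x0 * ψ z : UT m) : NM m)

/-- Box coordinates on the support of `ν`. -/
structure Chart {m d : ℕ} (x0 : UT m) (P : PG d) (ψ : P.Gp →* UT m) (b : NM m → Fin d → ℝ)
    (ν : Measure (NM m)) : Prop where
  meas : Measurable b
  mem : ∀ y, b y ∈ box d
  right : ∀ z : Fin d → ℝ, ∃ γ, IsInt γ ∧ P.mul (b (qm x0 ψ z)) γ = z
  left : ∀ᵐ y ∂ν, qm x0 ψ (b y) = y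
  law : ν.map b = volume.restrict (box d)

/-- CHART -/
def SpecChart : Prop :=
  ∀ (m : ℕ) [StandardBorelSpace (NM m)] (x0 : UT m) (d : ℕ) (P : PG d) (ψ : P.Gp →* UT m),
    Continuous ψ → Function.Injective ψ → (∀ z : P.Gp, ψ z ∈ LT m ↔ HK.IsInt z) →
    ∀ ν : Measure (NM m), ν = (volume.restrict (box d)).map (qm x0 ψ) →
    ∃ b : NM m → Fin d → ℝ, Chart x0 P ψ b ν

/-- YSIDE: 4.3 for the cube measures of an ergodic nilflow. -/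
def SpecYSide : Prop :=
  ∀ (m : ℕ) [StandardBorelSpace (NM m)] (ξ : Mat m), IsSU ξ → ∀ (Fl : Flow (NM m)) (θ : ℝ),
    (∀ t y, Fl.T t y = expU (t • ξ) • y) → (Fl.sys θ).Erg →
    ∀ (x0 : UT m) (A : RAlg Unit m), (Ad (fun _ => x0⁻¹) (fun _ => ξ)) ∈ A.V →
    FlowIrr A (fun _ : Unit => Ad (fun _ => x0⁻¹) (fun _ => ξ)) →
    IsHaar A.V (fun _ => x0) (Fl.μ.map (fun y _ => y)) →
    (∀ O : Set (NM m), IsOpen O → ((x0 : UT m) : NM m) ∈ O → 0 < Fl.μ O) →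
    ∀ v ∈ A.V, ∀ n : ℕ, (Fl.sys θ).SidePres (fun y => (x0 * E v () * x0⁻¹) • y) n

/-- CCOCFAC: the phase of a cube on a factor is a cube cocycle. -/
def SpecCCocFac : Prop :=
  ∀ (α β : Type) [MeasurableSpace α] [StandardBorelSpace α] [MeasurableSpace β]
    [StandardBorelSpace β] (X : Sys α) (Y : Sys β) (p : α → β), FMap X Y p →
    ∀ (n : ℕ) (φ : α → ℂ) (K : Cube (n + 1) β → ℂ), IsPhase φ → IsPhase K →
      (∀ᵐ x ∂(X.cm (n + 1)), cp φ (n + 1) x = K (cmap p x)) → Y.CCoc n K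

/-- RHO: 5(a). -/
def SpecRho : Prop :=
  ∀ (α : Type) [MeasurableSpace α] [StandardBorelSpace α] (Fl : Flow α) (θ : ℝ),
    Fl.Erg → (Fl.sys θ).Erg → ∀ (m : ℕ) (π : α → NM m), Fl.NilMap m π →
    ∀ (d : ℕ) (φ : α → ℂ) (K : Cube (d + 2) (NM m) → ℂ), IsPhase φ → Measurable K →
      (∀ᵐ x ∂((Fl.sys θ).cm (d + 2)), cp φ (d + 2) x = K (cmap π x)) →
      ∀ t : ℝ, ∃ R : NM m → ℂ, IsPhase R ∧ ∀ᵐ x ∂Fl.μ, φ (Fl.T t x) = R (π x) * φ x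

/-- EMBED: a map into the box of a `PG` with a one-parameter group is a nil-map. -/
def SpecEmbed : Prop :=
  ∀ (D : ℕ) (A : PG D) (α : Type) [MeasurableSpace α] (Fl : Flow α) (σ : ℝ → Fin D → ℝ)
    (p : α → Fin D → ℝ) (Φ : (Fin D → ℝ) → ℂ), Continuous σ →
    (∀ s t, σ (s + t) = A.mul (σ s) (σ t)) → Measurable p → (∀ x, p x ∈ box D) → Measurable Φ →
    (∀ t, ∀ᵐ x ∂Fl.μ, ∃ γ, HK.IsInt γ ∧ A.mul (σ t) (p x) = A.mul (p (Fl.T t x)) γ) →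
    ∃ (m : ℕ) (π : α → NM m) (h : NM m → ℂ), Fl.NilMap m π ∧ Measurable h ∧
      ∀ x, Φ (p x) = h (π x)

/-- ACTCONT: `L²`-continuity of the action on cubes of `NM m`. -/
def SpecActCont : Prop :=
  ∀ (m n d : ℕ) [StandardBorelSpace (NM m)] (ρ : Measure (Cube n (NM m))) [IsProbabilityMeasure ρ]
    (g : (Fin d → ℝ) → UT m) (F : Set (Vx n)), Continuous g → g 0 = 1 →
    (∀ z, MeasurePreserving (appOn (fun y : NM m => g z • y) F) ρ ρ) →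
    ∀ κ : Cube n (NM m) → ℂ, Bdd κ →
    Tendsto (fun z => dist2 ρ (fun x => κ (appOn (fun y : NM m => g z • y) F x)) κ) (𝓝 0) (𝓝 0)

/-- The predicate of lifts: `K'_g = F^[n+1]`. -/
def LiftP {m d : ℕ} [StandardBorelSpace (NM m)] (Y : Sys (NM m)) (x0 : UT m) (P : PG d)
    (ψ : P.Gp →* UT m) (b : NM m → Fin d → ℝ) (n : ℕ) (K : Cube (n + 2) (NM m) → ℂ)
    (g : Fin d → ℝ) (F : (Fin d → ℝ) → ℂ) : Prop :=
  P.RPh F ∧ Y.Der (fun y : NM m => (x0 * ψ g * x0⁻¹) • y) (n + 1) K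
    (cp (fun y => F (b y)) (n + 1))

/-- LIFT: the predicate of lifts satisfies `LiftData`. -/
def SpecLift : Prop :=
  ∀ (m d : ℕ) [StandardBorelSpace (NM m)] (Y : Sys (NM m)) (x0 : UT m) (P : PG d)
    (ψ : P.Gp →* UT m) (b : NM m → Fin d → ℝ) (n : ℕ) (K : Cube (n + 2) (NM m) → ℂ),
    Y.Erg → Chart x0 P ψ b Y.μ → Continuous ψ → (∀ z : P.Gp, ψ z ∈ LT m ↔ HK.IsInt z) →
    Y.CCoc (n + 1) K →
    (∀ (z : Fin d → ℝ) (k : ℕ), Y.SidePres (fun y : NM m => (x0 * ψ z * x0⁻¹) • y) k) →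
    (∀ z : Fin d → ℝ, MeasurePreserving (fun y : NM m => (x0 * ψ z * x0⁻¹) • y) Y.μ Y.μ) →
    LiftData P (LiftP Y x0 P ψ b n K)

end MPd26.HK
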