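import Pool.Agent.Lib.MP_d26cd8_an.HK.Spec

/-!
# Inner Specs of FIX (Lemma 1.3)

Operator version (helper84).  `A` = invariant kernel near `φ ⊗ conj φ` (twisted mean ergodic
theorem); `B` = the fibres on which `A` is close to `φ ⊗ conj φ` in Hilbert-Schmidt norm;
`T = 1_B A`, `P = 1_B φ ⊗ conj φ` as operators on `L²(μ)`, `‖T - P‖ ≤ 1/40`;
`E = 1_{> 1/2}(T)`, `v = E φ`.
-/

set_option autoImplicit false

open MeasureTheory ProbabilityTheory Filter Topology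
open scoped ComplexConjugate ENNReal

namespace MPd26.HK

/-- Twisted mean ergodic theorem: if `W^n a` stays within `δ` of `a`, `W f = w · f∘T`, then some
`W`-invariant `A` is within `δ` of `a`. -/
def SpecTwMet : Prop :=
  ∀ (Ω : Type) [MeasurableSpace Ω] (ν : Measure Ω) [IsProbabilityMeasure ν] (T : Ω → Ω),
    MeasurePreserving T ν ν → ∀ (w a : Ω → ℂ), IsPhase w → IsPhase a → ∀ δ : ℝ, 0 ≤ δ →
    (∀ n : ℕ, dist2 ν (fun x => bprod T w n x * a (T^[n] x)) a ≤ δ ^ 2) →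
    ∃ A : Ω → ℂ, Measurable A ∧ (∀ x, ‖A x‖ ≤ 1) ∧ (∀ᵐ x ∂ν, w x * A (T x) = A x) ∧
      dist2 ν A a ≤ δ ^ 2

/-- The invariant kernel. -/
def SpecKer : Prop :=
  ∀ (α : Type) [MeasurableSpace α] [StandardBorelSpace α] (X : Sys α) (N : X.Factor)
    (ρ φ : α → ℂ), IsPhase ρ → IsPhase φ → ∀ δ : ℝ, 0 ≤ δ →
    (∀ n : ℕ, dist2 (relSq N.le X.μ)
        (fun p => conj (bprod X.S ρ n p.1) * bprod X.S ρ n p.2 *
          (φ (X.S^[n] p.1) * conj (φ (X.S^[n] p.2))))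
        (fun p => φ p.1 * conj (φ p.2)) ≤ δ ^ 2) →
    ∃ A : α × α → ℂ, Measurable A ∧ (∀ p, ‖A p‖ ≤ 1) ∧
      (∀ᵐ p ∂(relSq N.le X.μ), A (p.2, p.1) = conj (A p)) ∧
      (∀ᵐ p ∂(relSq N.le X.μ), conj (ρ p.1) * ρ p.2 * A (X.S p.1, X.S p.2) = A p) ∧
      dist2 (relSq N.le X.μ) A (fun p => φ p.1 * conj (φ p.2)) ≤ δ ^ 2

/-- The spectral projection of the invariant kernel applied to `φ`. -/
def SpecLine : Prop :=
  ∀ (α : Type) [MeasurableSpace α] [StandardBorelSpace α] (X : Sys α) (N : X.Factor)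
    (ρ φ : α → ℂ), IsPhase ρ → IsPhase φ → ∀ δ : ℝ, 0 ≤ δ → ∀ A : α × α → ℂ,
    Measurable A → (∀ p, ‖A p‖ ≤ 1) →
    (∀ᵐ p ∂(relSq N.le X.μ), A (p.2, p.1) = conj (A p)) →
    (∀ᵐ p ∂(relSq N.le X.μ), conj (ρ p.1) * ρ p.2 * A (X.S p.1, X.S p.2) = A p) →
    dist2 (relSq N.le X.μ) A (fun p => φ p.1 * conj (φ p.2)) ≤ δ ^ 2 →
    ∃ (B : Set α) (v : α → ℂ) (b : ℕ → α → ℂ), MeasurableSet[N.σ] B ∧ Measurable v ∧
      MemLp v 2 X.μ ∧ (∀ j, Measurable[N.σ] (b j)) ∧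
      X.μ.real Bᶜ ≤ 1600 * δ ^ 2 ∧
      (∀ C, MeasurableSet[N.σ] C → C ⊆ B → (∀ᵐ x ∂X.μ, x ∈ C → v x = 0) → X.μ C = 0) ∧
      (∀ j, ∀ᵐ x ∂X.μ, x ∈ B → X.S^[j] x ∈ B →
        conj (bprod X.S ρ j x) * v (X.S^[j] x) = b j x * v x) ∧
      ∫ x in B, ‖v x - φ x‖ ^ 2 ∂X.μ ≤ 2 * δ ^ 2

end MPd26.HK
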