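import Pool.Agent.Lib.MP_d26cd8_an.HK.Sq

/-!
# The mean ergodic theorem for bounded functions (module MET of project 86)
-/

set_option autoImplicit false

open MeasureTheory ProbabilityTheory Filter Topology
open scoped ComplexConjugate ENNReal

namespace MPd26.HK

section Met
variable {Ω : Type} [mΩ : MeasurableSpace Ω] {μ : Measure Ω}

lemma Bdd.memLp {f : Ω → ℂ} (hf : Bdd f) (μ : Measure Ω) [IsFiniteMeasure μ] (p : ℝ≥0∞) :
    MemLp f p μ := by
  obtain ⟨hm, C, hC⟩ := hf
  exact MemLp.of_bound hm.aestronglyMeasurable C (ae_of_all _ hC)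

/-- `dist2` as the square of the distance in `L²`. -/
lemma dist2_toLp {f g : Ω → ℂ} (hf : MemLp f 2 μ) (hg : MemLp g 2 μ) :
    dist2 μ f g = ‖hf.toLp f - hg.toLp g‖ ^ 2 := by
  have h1 : ‖hf.toLp f - hg.toLp g‖ ^ 2
      = RCLike.re (inner ℂ (hf.toLp f - hg.toLp g) (hf.toLp f - hg.toLp g)) := by
    rw [inner_self_eq_norm_sq]
  rw [h1, ← MemLp.toLp_sub, L2.inner_def]
  have h2 : ∀ᵐ x ∂μ, inner ℂ (((hf.sub hg).toLp (f - g)) x) (((hf.sub hg).toLp (f - g)) x)
      = (((‖f x - g x‖ ^ 2 : ℝ)) : ℂ) := by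
    filter_upwards [(hf.sub hg).coeFn_toLp] with x hx
    rw [hx, inner_self_eq_norm_sq_to_K]
    simp
  rw [integral_congr_ae h2]
  have h3 : ∫ x, ((‖f x - g x‖ ^ 2 : ℝ) : ℂ) ∂μ = ((∫ x, ‖f x - g x‖ ^ 2 ∂μ : ℝ) : ℂ) :=
    integral_ofReal
  rw [h3]
  simp [dist2]

/-- An almost invariant real function has a strictly invariant version. -/
lemma exists_inv_version_real {T : Ω → Ω} (hT : MeasurePreserving T μ μ) {u : Ω → ℝ}
    (hu : Measurable u) (h : ∀ᵐ x ∂μ, u (T x) = u x) :
    ∃ v : Ω → ℝ, Measurable[MeasurableSpace.invariants T] v ∧ u =ᵐ[μ] v := by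
  refine ⟨fun x => limsup (fun n : ℕ => u (T^[n] x)) atTop, ?_, ?_⟩
  · rw [MeasurableSpace.measurable_invariants_dom]
    refine ⟨Measurable.limsup fun n => hu.comp (hT.measurable.iterate n), ?_⟩
    intro s _
    have : (fun x => limsup (fun n : ℕ => u (T^[n] x)) atTop) ∘ T
        = fun x => limsup (fun n : ℕ => u (T^[n] x)) atTop := by
      funext x
      simp only [Function.comp]
      have := Filter.limsup_nat_add (fun n : ℕ => u (T^[n] x)) 1
      rw [← this]
      rfl
    rw [this]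
  · have h1 : ∀ n : ℕ, ∀ᵐ x ∂μ, u (T^[n] x) = u x := by
      intro n
      induction n with
      | zero => exact ae_of_all _ fun x => rfl
      | succ n ih =>
        have h2 := (hT.iterate n).quasiMeasurePreserving.ae h
        filter_upwards [ih, h2] with x h3 h4
        rw [Function.iterate_succ_apply', h4, h3]
    filter_upwards [ae_all_iff.2 h1] with x hx
    simp only [hx]
    exact (Filter.limsup_const (u x)).symm

/-- An almost invariant complex function has a strictly invariant version. -/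
lemma exists_inv_version {T : Ω → Ω} (hT : MeasurePreserving T μ μ) {u : Ω → ℂ}
    (hu : Measurable u) (h : ∀ᵐ x ∂μ, u (T x) = u x) :
    ∃ v : Ω → ℂ, Measurable[MeasurableSpace.invariants T] v ∧ u =ᵐ[μ] v := by
  obtain ⟨a, ha, ha'⟩ := exists_inv_version_real hT (Complex.measurable_re.comp hu)
    (h.mono fun x hx => by simp [hx])
  obtain ⟨b, hb, hb'⟩ := exists_inv_version_real hT (Complex.measurable_im.comp hu)
    (h.mono fun x hx => by simp [hx])
  refine ⟨fun x => (a x : ℂ) + (b x : ℂ) * Complex.I, ?_, ?_⟩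
  · exact (Complex.measurable_ofReal.comp ha).add
      ((Complex.measurable_ofReal.comp hb).mul measurable_const)
  · filter_upwards [ha', hb'] with x h1 h2
    simp only [Function.comp] at h1 h2
    rw [← h1, ← h2]
    exact (Complex.re_add_im (u x)).symm

/-- **Mean ergodic theorem.** -/
theorem mean_ergodic [IsProbabilityMeasure μ] {T : Ω → Ω} (hT : MeasurePreserving T μ μ)
    {f : Ω → ℂ} (hf : Bdd f) :
    Tendsto (fun N : ℕ => dist2 μ (fun x => (N : ℂ)⁻¹ * ∑ k ∈ Finset.range N, f (T^[k] x))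
      (μ[f | MeasurableSpace.invariants T])) atTop (𝓝 0) := by
  classical
  have hle : MeasurableSpace.invariants T ≤ mΩ := MeasurableSpace.invariants_le T
  set U : Lp ℂ 2 μ →ₗᵢ[ℂ] Lp ℂ 2 μ := Lp.compMeasurePreservingₗᵢ ℂ T hT with hU
  have hf2 := hf.memLp μ 2
  set x₀ : Lp ℂ 2 μ := hf2.toLp f with hx₀
  have hconv := ContinuousLinearMap.tendsto_birkhoffAverage_orthogonalProjection (𝕜 := ℂ)
    (U.toContinuousLinearMap) U.norm_toContinuousLinearMap_le x₀
  set g : Lp ℂ 2 μ := (((U.toContinuousLinearMap).eqLocus (1 : Lp ℂ 2 μ →L[ℂ] Lp ℂ 2 μ)).orthogonalProjectionOnto x₀ : Lp ℂ 2 μ) with hg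
  have hgU : U g = g := by
    have := (((U.toContinuousLinearMap).eqLocus (1 : Lp ℂ 2 μ →L[ℂ] Lp ℂ 2 μ)).orthogonalProjectionOnto x₀).2
    exact this
  have hgT : ∀ᵐ x ∂μ, (g : Ω → ℂ) (T x) = (g : Ω → ℂ) x := by
    have h1 := Lp.coeFn_compMeasurePreserving g hT
    have h2 : Lp.compMeasurePreserving T hT g = g := hgU
    rw [h2] at h1
    filter_upwards [h1] with x hx
    exact hx.symm
  obtain ⟨v, hv, hgv⟩ := exists_inv_version hT (Lp.stronglyMeasurable g).measurable hgT
  -- the averages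
  set F : ℕ → Ω → ℂ := fun N x => (N : ℂ)⁻¹ * ∑ k ∈ Finset.range N, f (T^[k] x) with hF
  have hFb : ∀ N, Bdd (F N) := fun N =>
    (Bdd.const _).mul (Bdd.sum _ fun k _ => hf.comp (hT.measurable.iterate k))
  have hUk : ∀ k : ℕ, (U.toContinuousLinearMap)^[k] x₀
      = ((hf.comp (hT.measurable.iterate k)).memLp μ 2).toLp (fun x => f (T^[k] x)) := by
    intro k
    induction k with
    | zero => rfl
    | succ k ih =>
      rw [Function.iterate_succ_apply', ih]
      rw [← sub_eq_zero]
      have h1 := Lp.coeFn_compMeasurePreserving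
        (((hf.comp (hT.measurable.iterate k)).memLp μ 2).toLp (fun x => f (T^[k] x))) hT
      have h2 := hT.quasiMeasurePreserving.ae
        (((hf.comp (hT.measurable.iterate k)).memLp μ 2).coeFn_toLp)
      have h3 := ((hf.comp (hT.measurable.iterate (k + 1))).memLp μ 2).coeFn_toLp
      rw [sub_eq_zero]
      apply Lp.ext
      filter_upwards [h1, h2, h3] with x h1 h2 h3
      rw [h3]
      exact (h1.trans h2)
  have hbA : ∀ N : ℕ, birkhoffAverage ℂ (U.toContinuousLinearMap) _root_.id N x₀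
      = ((hFb N).memLp μ 2).toLp (F N) := by
    intro N
    unfold birkhoffAverage birkhoffSum
    simp only [id, hUk]
    apply Lp.ext
    have h1 := Lp.coeFn_smul ((N : ℂ)⁻¹) (∑ k ∈ Finset.range N,
      ((hf.comp (hT.measurable.iterate k)).memLp μ 2).toLp (fun x => f (T^[k] x)))
    have h2 : ∀ s : Finset ℕ, ∀ᵐ x ∂μ, ((∑ k ∈ s,
        ((hf.comp (hT.measurable.iterate k)).memLp μ 2).toLp (fun x => f (T^[k] x)) :
          Lp ℂ 2 μ) : Ω → ℂ) x = ∑ k ∈ s, f (T^[k] x) := by
      intro s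
      induction s using Finset.induction_on with
      | empty =>
        simp only [Finset.sum_empty]
        exact Lp.coeFn_zero ℂ 2 μ
      | insert a s ha ih =>
        rw [Finset.sum_insert ha]
        have h3 := Lp.coeFn_add
          (((hf.comp (hT.measurable.iterate a)).memLp μ 2).toLp (fun x => f (T^[a] x)))
          (∑ k ∈ s, ((hf.comp (hT.measurable.iterate k)).memLp μ 2).toLp (fun x => f (T^[k] x)))
        filter_upwards [ih, h3, ((hf.comp (hT.measurable.iterate a)).memLp μ 2).coeFn_toLp]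
          with x h4 h5 h6
        rw [Finset.sum_insert ha, h5, Pi.add_apply, h4, h6]
    filter_upwards [h1, h2 (Finset.range N), ((hFb N).memLp μ 2).coeFn_toLp] with x h3 h4 h5
    rw [h3, h5, Pi.smul_apply, h4, smul_eq_mul]
  have hconv' : Tendsto (fun N => ((hFb N).memLp μ 2).toLp (F N)) atTop (𝓝 g) := by
    simpa only [hbA] using hconv
  -- identification of the limit
  have hlim : v =ᵐ[μ] μ[f | MeasurableSpace.invariants T] := by
    have hgint : Integrable (g : Ω → ℂ) μ := (Lp.memLp g).integrable one_le_two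
    refine ae_eq_condExp_of_forall_setIntegral_eq hle (hf.integrable μ)
      (fun s _ _ => (hgint.congr hgv).integrableOn) ?_ hv.stronglyMeasurable.aestronglyMeasurable
    intro s hs _
    obtain ⟨hs1, hs2⟩ := MeasurableSpace.measurableSet_invariants.1 hs
    have e1 : ∫ x in s, v x ∂μ = ∫ x in s, (g : Ω → ℂ) x ∂μ :=
      integral_congr_ae (ae_restrict_of_ae (hgv.mono fun x hx => hx.symm))
    have e2 : ∀ k : ℕ, ∫ x in s, f (T^[k] x) ∂μ = ∫ x in s, f x ∂μ := by
      intro k
      induction k with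
      | zero => rfl
      | succ k ih =>
        rw [← ih]
        have hr := hT.restrict_preimage hs1
        rw [hs2] at hr
        have hk : Measurable fun x => f (T^[k] x) := hf.1.comp (hT.measurable.iterate k)
        calc ∫ x in s, f (T^[k + 1] x) ∂μ = ∫ x in s, (fun y => f (T^[k] y)) (T x) ∂μ := rfl
          _ = ∫ y, f (T^[k] y) ∂((μ.restrict s).map T) :=
            (integral_map hT.measurable.aemeasurable hk.aestronglyMeasurable).symm
          _ = _ := by rw [hr.map_eq]
    have e3 : ∀ N : ℕ, 0 < N → ∫ x in s, F N x ∂μ = ∫ x in s, f x ∂μ := by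
      intro N hN
      simp only [hF]
      rw [integral_const_mul, integral_finsetSum _ fun k _ =>
        ((hf.comp (hT.measurable.iterate k)).integrable μ).integrableOn]
      simp only [e2, Finset.sum_const, Finset.card_range, nsmul_eq_mul]
      have : (N : ℂ) ≠ 0 := by exact_mod_cast hN.ne'
      field_simp
    have e4 : ∀ h : Lp ℂ 2 μ, ∫ x in s, (h : Ω → ℂ) x ∂μ
        = inner ℂ (indicatorConstLp 2 hs1 (measure_ne_top μ s) (1 : ℂ)) h := fun h =>
      (L2.inner_indicatorConstLp_one hs1 (measure_ne_top μ s) h).symm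
    have e5 : Tendsto (fun N => ∫ x in s, F N x ∂μ) atTop (𝓝 (∫ x in s, (g : Ω → ℂ) x ∂μ)) := by
      have h1 : ∀ N, ∫ x in s, F N x ∂μ
          = inner ℂ (indicatorConstLp 2 hs1 (measure_ne_top μ s) (1 : ℂ))
            (((hFb N).memLp μ 2).toLp (F N)) := by
        intro N
        rw [← e4]
        exact integral_congr_ae (ae_restrict_of_ae
          (((hFb N).memLp μ 2).coeFn_toLp.mono fun x hx => hx.symm))
      simp only [h1, e4]
      exact tendsto_const_nhds.inner hconv'
    have e6 : Tendsto (fun N => ∫ x in s, F N x ∂μ) atTop (𝓝 (∫ x in s, f x ∂μ)) := by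
      refine tendsto_const_nhds.congr' ?_
      filter_upwards [eventually_gt_atTop 0] with N hN
      exact (e3 N hN).symm
    rw [e1]
    exact tendsto_nhds_unique e5 e6
  have hE : (g : Ω → ℂ) =ᵐ[μ] μ[f | MeasurableSpace.invariants T] := hgv.trans hlim
  have hd : ∀ N, dist2 μ (F N) (μ[f | MeasurableSpace.invariants T])
      = ‖((hFb N).memLp μ 2).toLp (F N) - g‖ ^ 2 := by
    intro N
    have h1 : dist2 μ (F N) (μ[f | MeasurableSpace.invariants T]) = dist2 μ (F N) g := by
      unfold dist2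
      refine integral_congr_ae ?_
      filter_upwards [hE] with x hx
      rw [hx]
    rw [h1, dist2_toLp ((hFb N).memLp μ 2) (Lp.memLp g), Lp.toLp_coeFn]
  have h0 : Tendsto (fun N => ‖((hFb N).memLp μ 2).toLp (F N) - g‖ ^ 2) atTop (𝓝 0) := by
    have h1 := (tendsto_iff_norm_sub_tendsto_zero.1 hconv')
    simpa using h1.pow 2
  exact h0.congr fun N => (hd N).symm

/-- Mean ergodic theorem, weak form: correlations. -/
theorem mean_ergodic_weak [IsProbabilityMeasure μ] {T : Ω → Ω} (hT : MeasurePreserving T μ μ)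
    {f g : Ω → ℂ} (hf : Bdd f) (hg : Bdd g) :
    Tendsto (fun N : ℕ => (N : ℂ)⁻¹ * ∑ k ∈ Finset.range N, ∫ x, f x * g (T^[k] x) ∂μ)
      atTop (𝓝 (∫ x, f x * (μ[g | MeasurableSpace.invariants T]) x ∂μ)) := by
  have hFb : ∀ N : ℕ, Bdd (fun x => (N : ℂ)⁻¹ * ∑ k ∈ Finset.range N, g (T^[k] x)) := fun N =>
    (Bdd.const _).mul (Bdd.sum _ fun k _ => hg.comp (hT.measurable.iterate k))
  have h1 : ∀ N : ℕ, (N : ℂ)⁻¹ * ∑ k ∈ Finset.range N, ∫ x, f x * g (T^[k] x) ∂μ
      = ∫ x, f x * ((N : ℂ)⁻¹ * ∑ k ∈ Finset.range N, g (T^[k] x)) ∂μ := by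
    intro N
    rw [← integral_finsetSum _ fun k _ =>
      ((hf.mul (hg.comp (hT.measurable.iterate k))).integrable μ), ← integral_const_mul]
    congr 1; funext x
    rw [← Finset.mul_sum]; ring
  have hE2 : MemLp (μ[g | MeasurableSpace.invariants T]) 2 μ := by
    obtain ⟨hm, C, hC⟩ := hg
    exact MemLp.of_bound integrable_condExp.aestronglyMeasurable C (condExp_bdd hC)
  have hfc := hf.conj.memLp μ 2
  have key : ∀ {h : Ω → ℂ} (hh : MemLp h 2 μ), ∫ x, f x * h x ∂μ
      = inner ℂ (hfc.toLp _) (hh.toLp h) := by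
    intro h hh
    rw [L2.inner_def]
    refine integral_congr_ae ?_
    filter_upwards [hfc.coeFn_toLp, hh.coeFn_toLp] with x h1 h2
    rw [h1, h2]
    simp [mul_comm]
  have h2 := mean_ergodic hT hg
  have h3 : Tendsto (fun N => ((hFb N).memLp μ 2).toLp _) atTop (𝓝 (hE2.toLp _)) := by
    rw [tendsto_iff_norm_sub_tendsto_zero]
    have h4 : ∀ N : ℕ, ‖((hFb N).memLp μ 2).toLp _ - hE2.toLp _‖
        = Real.sqrt (dist2 μ (fun x => (N : ℂ)⁻¹ * ∑ k ∈ Finset.range N, g (T^[k] x))
          (μ[g | MeasurableSpace.invariants T])) := by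
      intro N
      rw [dist2_toLp ((hFb N).memLp μ 2) hE2, Real.sqrt_sq (norm_nonneg _)]
    simp only [h4]
    have := h2.sqrt
    simpa using this
  simp only [h1]
  have h5 : ∀ N : ℕ, ∫ x, f x * ((N : ℂ)⁻¹ * ∑ k ∈ Finset.range N, g (T^[k] x)) ∂μ
      = inner ℂ (hfc.toLp _) (((hFb N).memLp μ 2).toLp _) := fun N => key _
  simp only [h5, key hE2]
  exact tendsto_const_nhds.inner h3

end Met

end MPd26.HK
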