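import Pool.Agent.Lib.MP_d26cd8_an.HK.Line
import Pool.Agent.Lib.MP_d26cd8_an.HK.Met

/-!
# TWMET and KER: the invariant kernel
-/

set_option autoImplicit false

open MeasureTheory ProbabilityTheory Filter Topology
open scoped ComplexConjugate ENNReal InnerProductSpace

namespace MPd26.HK
namespace KerM

open LineM

lemma mulOp_norm {Ω : Type} [MeasurableSpace Ω] {ν : Measure Ω} {b : Ω → ℂ} (hb : Bdd b) {c : ℝ}
    (hc : ∀ x, ‖b x‖ ≤ c) (f : Lp ℂ 2 ν) : ‖mulOp ν b hb f‖ ≤ c * ‖f‖ := by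
  refine Lp.norm_le_mul_norm_of_ae_le_mul ?_
  filter_upwards [mulOp_coe b hb f] with x h1
  rw [h1, norm_mul]
  gcongr
  exact hc x

/-- Truncation. -/
noncomputable def trunc (z : ℂ) : ℂ := if ‖z‖ ≤ 1 then z else (‖z‖ : ℂ)⁻¹ * z

lemma measurable_trunc : Measurable trunc := by
  unfold trunc
  refine Measurable.ite (measurableSet_le measurable_norm measurable_const) measurable_id ?_
  exact ((Complex.measurable_ofReal.comp measurable_norm).inv).mul measurable_id

lemma norm_trunc (z : ℂ) : ‖trunc z‖ ≤ 1 := by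
  unfold trunc
  split_ifs with h
  · exact h
  · have h1 : 0 < ‖z‖ := by linarith [not_le.1 h]
    rw [norm_mul, norm_inv, Complex.norm_real, Real.norm_of_nonneg h1.le, inv_mul_cancel₀ h1.ne']

lemma trunc_mul {u z : ℂ} (hu : ‖u‖ = 1) : trunc (u * z) = u * trunc z := by
  unfold trunc
  rw [norm_mul, hu, one_mul]
  split_ifs
  · rfl
  · ring

lemma trunc_dist {z a : ℂ} (ha : ‖a‖ = 1) : ‖trunc z - a‖ ≤ ‖z - a‖ := by
  unfold trunc
  split_ifs with h
  · exact le_rfl
  · have hr : 1 < ‖z‖ := not_le.1 h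
    have h0 : 0 < ‖z‖ := by linarith
    refine (pow_le_pow_iff_left₀ (norm_nonneg _) (norm_nonneg _) (by norm_num : 2 ≠ 0)).1 ?_
    rw [norm_sub_sq_real, norm_sub_sq_real]
    have e1 : ((‖z‖ : ℂ)⁻¹ * z) = (‖z‖⁻¹ : ℝ) • z := by
      rw [Complex.real_smul]; push_cast; rfl
    rw [e1, real_inner_smul_left, norm_smul, ha, Real.norm_of_nonneg (by positivity),
      inv_mul_cancel₀ h0.ne']
    have ht : ⟪z, a⟫_ℝ ≤ ‖z‖ := by
      have := real_inner_le_norm z a
      rwa [ha, mul_one] at this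
    have h2 : ‖z‖⁻¹ * ⟪z, a⟫_ℝ = ⟪z, a⟫_ℝ / ‖z‖ := by ring
    rw [h2]
    have h3 : ⟪z, a⟫_ℝ - ⟪z, a⟫_ℝ / ‖z‖ ≤ ‖z‖ - 1 := by
      have e : ⟪z, a⟫_ℝ - ⟪z, a⟫_ℝ / ‖z‖ = ⟪z, a⟫_ℝ * (1 - 1 / ‖z‖) := by ring
      have e' : ‖z‖ - 1 = ‖z‖ * (1 - 1 / ‖z‖) := by field_simp
      rw [e, e']
      have h4 : 0 ≤ 1 - 1 / ‖z‖ := by
        rw [sub_nonneg, div_le_one h0]; exact hr.le
      gcongr
    nlinarith [sq_nonneg (‖z‖ - 1)]

lemma bprod_succ {Ω : Type} (T : Ω → Ω) (w : Ω → ℂ) (n : ℕ) (x : Ω) :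
    bprod T w (n + 1) x = w x * bprod T w n (T x) := by
  unfold bprod
  rw [Finset.prod_range_succ']
  rw [mul_comm]
  rfl

end KerM

open LineM KerM in
theorem specTwMet : SpecTwMet := by
  intro Ω _ ν _ T hT w a hw ha δ hδ hyp
  set U : Lp ℂ 2 ν →L[ℂ] Lp ℂ 2 ν := (Lp.compMeasurePreservingₗᵢ ℂ T hT).toContinuousLinearMap
    with hU
  have hUc : ∀ f : Lp ℂ 2 ν, U f =ᵐ[ν] fun x => f (T x) := fun f =>
    Lp.coeFn_compMeasurePreserving f hT
  have hUn : ∀ f : Lp ℂ 2 ν, ‖U f‖ = ‖f‖ := fun f =>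
    (Lp.compMeasurePreservingₗᵢ ℂ T hT).norm_map f
  set W : Lp ℂ 2 ν →L[ℂ] Lp ℂ 2 ν := mulOp ν w hw.bdd * U with hW
  have hWc : ∀ f : Lp ℂ 2 ν, W f =ᵐ[ν] fun x => w x * f (T x) := by
    intro f
    filter_upwards [mulOp_coe w hw.bdd (U f), hUc f] with x h1 h2
    rw [hW, mul_apply_eq_comp, h1, h2]
  have hWn : ‖W‖ ≤ 1 := by
    refine ContinuousLinearMap.opNorm_le_bound _ zero_le_one fun f => ?_
    rw [hW, mul_apply_eq_comp]
    refine (mulOp_norm hw.bdd (fun x => (hw.2 x).le) _).trans ?_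
    rw [hUn]
  have ha2 : MemLp a 2 ν := memLp_bdd ha.bdd
  set aH : Lp ℂ 2 ν := ha2.toLp a with haH
  have hac : aH =ᵐ[ν] a := MemLp.coeFn_toLp ha2
  have hiter : ∀ n : ℕ, (W^[n]) aH =ᵐ[ν] fun x => bprod T w n x * a (T^[n] x) := by
    intro n
    induction n with
    | zero =>
      filter_upwards [hac] with x hx
      simp [bprod, hx]
    | succ n ih =>
      rw [Function.iterate_succ_apply']
      filter_upwards [hWc (W^[n] aH), hT.quasiMeasurePreserving.ae ih] with x h1 h2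
      rw [h1, h2, bprod_succ]
      rw [mul_assoc]
      rfl
  have hphn : ∀ n, IsPhase (fun x => bprod T w n x * a (T^[n] x)) := by
    intro n
    refine IsPhase.mul ?_ (ha.comp (hT.measurable.iterate n))
    unfold bprod
    exact IsPhase.prod _ fun i _ => hw.comp (hT.measurable.iterate i)
  have hdist : ∀ n : ℕ, ‖(W^[n]) aH - aH‖ ≤ δ := by
    intro n
    have h1 := hyp n
    rw [dist2_toLp (memLp_bdd (hphn n).bdd) ha2] at h1
    have h2 : (memLp_bdd (hphn n).bdd).toLp _ = (W^[n]) aH := by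
      ext1
      filter_upwards [MemLp.coeFn_toLp (memLp_bdd (μ := ν) (hphn n).bdd), hiter n] with x e1 e2
      rw [e1, e2]
    rw [h2] at h1
    exact (pow_le_pow_iff_left₀ (norm_nonneg _) hδ (by norm_num)).1 h1
  have havg : ∀ᶠ n : ℕ in atTop, ‖birkhoffAverage ℂ W _root_.id n aH - aH‖ ≤ δ := by
    filter_upwards [eventually_gt_atTop 0] with n hn
    have hn' : (n : ℂ) ≠ 0 := by exact_mod_cast hn.ne'
    have e1 : birkhoffAverage ℂ W _root_.id n aH - aH
        = (n : ℂ)⁻¹ • ∑ k ∈ Finset.range n, ((W^[k]) aH - aH) := by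
      rw [Finset.sum_sub_distrib, smul_sub, Finset.sum_const, Finset.card_range,
        ← Nat.cast_smul_eq_nsmul ℂ, inv_smul_smul₀ hn']
      rfl
    rw [e1, norm_smul, norm_inv, Complex.norm_natCast]
    have h2 : ‖∑ k ∈ Finset.range n, ((W^[k]) aH - aH)‖ ≤ n * δ := by
      refine (norm_sum_le _ _).trans ?_
      refine (Finset.sum_le_sum fun k _ => hdist k).trans ?_
      rw [Finset.sum_const, Finset.card_range, nsmul_eq_mul]
    have hn'' : (0 : ℝ) < n := by exact_mod_cast hn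
    calc (n : ℝ)⁻¹ * ‖∑ k ∈ Finset.range n, ((W^[k]) aH - aH)‖ ≤ (n : ℝ)⁻¹ * (n * δ) := by gcongr
      _ = δ := by field_simp
  have hlim := ContinuousLinearMap.tendsto_birkhoffAverage_orthogonalProjection W hWn aH
  set p' := (W.eqLocus (1 : Lp ℂ 2 ν →L[ℂ] Lp ℂ 2 ν)).orthogonalProjectionOnto aH
    with hp'
  set p : Lp ℂ 2 ν := (p' : Lp ℂ 2 ν) with hp
  have hWp : W p = p := by
    have := p'.2
    rw [LinearMap.mem_eqLocus] at this
    exact this
  have hpd : ‖p - aH‖ ≤ δ := by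
    refine le_of_tendsto ((hlim.sub_const aH).norm) ?_
    exact havg
  have hpm : Measurable p := (Lp.stronglyMeasurable p).measurable
  have hpw : ∀ᵐ x ∂ν, w x * p (T x) = p x := by
    have h1 := hWc p
    rw [hWp] at h1
    filter_upwards [h1] with x hx
    rw [hx]
  refine ⟨fun x => trunc (p x), measurable_trunc.comp hpm, fun x => norm_trunc _, ?_, ?_⟩
  · filter_upwards [hpw] with x hx
    rw [← trunc_mul (hw.2 x), hx]
  · have h1 : dist2 ν (fun x => trunc (p x)) a ≤ dist2 ν p a := by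
      unfold dist2
      refine integral_mono ?_ ?_ fun x => ?_
      · refine Integrable.of_bound (((measurable_trunc.comp hpm).sub ha.1).norm.pow_const
          2).aestronglyMeasurable 4 (ae_of_all _ fun x => ?_)
        rw [Real.norm_of_nonneg (by positivity)]
        have : ‖trunc (p x) - a x‖ ≤ 2 := by
          refine (norm_sub_le _ _).trans ?_
          have := norm_trunc (p x)
          have := ha.2 x
          linarith
        show ‖trunc (p x) - a x‖ ^ 2 ≤ 4
        nlinarith [norm_nonneg (trunc (p x) - a x)]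
      · have := ((Lp.memLp p).sub ha2).integrable_norm_pow (by norm_num)
        simpa using this
      · show ‖trunc (p x) - a x‖ ^ 2 ≤ ‖p x - a x‖ ^ 2
        gcongr
        exact trunc_dist (ha.2 x)
    refine h1.trans ?_
    rw [dist2_toLp (Lp.memLp p) ha2, Lp.toLp_coeFn]
    gcongr

open LineM KerM in
theorem specKer : SpecKer := by
  intro α _ _ X N ρ φ hρ hφ δ hδ hyp
  set ν := relSq N.le X.μ with hν
  set T : α × α → α × α := Prod.map X.S X.S with hT
  have hTm : MeasurePreserving T ν ν := mp_relSq_S X N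
  set w : α × α → ℂ := fun p => conj (ρ p.1) * ρ p.2 with hw
  set a : α × α → ℂ := fun p => φ p.1 * conj (φ p.2) with ha
  have hwp : IsPhase w := (hρ.comp measurable_fst).conj.mul (hρ.comp measurable_snd)
  have hap : IsPhase a := (hφ.comp measurable_fst).mul (hφ.comp measurable_snd).conj
  have hb : ∀ n p, bprod T w n p = conj (bprod X.S ρ n p.1) * bprod X.S ρ n p.2 := by
    intro n p
    unfold bprod
    rw [map_prod, ← Finset.prod_mul_distrib]
    refine Finset.prod_congr rfl fun j _ => ?_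
    rw [hT, Prod.map_iterate]
    rfl
  have hyp' : ∀ n : ℕ, dist2 ν (fun x => bprod T w n x * a (T^[n] x)) a ≤ δ ^ 2 := by
    intro n
    have e : (fun x => bprod T w n x * a (T^[n] x)) = fun p : α × α =>
        conj (bprod X.S ρ n p.1) * bprod X.S ρ n p.2 *
          (φ (X.S^[n] p.1) * conj (φ (X.S^[n] p.2))) := by
      funext p
      rw [hb, hT, Prod.map_iterate]
      rfl
    rw [e]
    exact hyp n
  obtain ⟨A1, hA1m, hA1, hA1i, hA1d⟩ := specTwMet (α × α) ν T hTm w a hwp hap δ hδ hyp'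
  have hsw := mp_relSq_swap N.le X.μ
  refine ⟨fun p => (A1 p + conj (A1 p.swap)) / 2, ?_, ?_, ?_, ?_, ?_⟩
  · exact (hA1m.add (Complex.continuous_conj.measurable.comp
      (hA1m.comp measurable_swap))).div_const 2
  · intro p
    rw [norm_div]
    have h1 : ‖A1 p + conj (A1 p.swap)‖ ≤ 2 := by
      refine (norm_add_le _ _).trans ?_
      have h2 := hA1 p
      have h3 := hA1 p.swap
      rw [RCLike.norm_conj]
      linarith
    have h4 : ‖(2 : ℂ)‖ = 2 := by simp
    rw [h4]
    linarith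
  · refine ae_of_all _ fun p => ?_
    simp only [Prod.swap, map_div₀, map_add, Complex.conj_conj]
    have h2 : (starRingEnd ℂ) 2 = 2 := Complex.conj_ofNat 2
    rw [h2]
    ring
  · filter_upwards [hA1i, hsw.quasiMeasurePreserving.ae hA1i] with p h1 h2
    simp only [hw, hT, Prod.map, Prod.swap] at h1 h2 ⊢
    rw [← h1, ← h2]
    simp only [map_mul, Complex.conj_conj]
    ring
  · -- distance
    set d1 : α × α → ℝ := fun p => ‖A1 p - a p‖ ^ 2 with hd1
    have hd1m : Measurable d1 := (hA1m.sub hap.1).norm.pow_const 2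
    have hd1b : ∀ p, d1 p ≤ 4 := by
      intro p
      have : ‖A1 p - a p‖ ≤ 2 := by
        refine (norm_sub_le _ _).trans ?_
        have := hA1 p
        have := hap.2 p
        linarith
      show ‖A1 p - a p‖ ^ 2 ≤ 4
      nlinarith [norm_nonneg (A1 p - a p)]
    have hd1i : Integrable d1 ν := Integrable.of_bound hd1m.aestronglyMeasurable 4
      (ae_of_all _ fun p => by rw [Real.norm_of_nonneg (by positivity)]; exact hd1b p)
    have hd2i : Integrable (fun p => d1 p.swap) ν := hsw.integrable_comp_of_integrable hd1i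
    have hpt : ∀ p : α × α, ‖(A1 p + conj (A1 p.swap)) / 2 - a p‖ ^ 2
        ≤ (d1 p + d1 p.swap) / 2 := by
      intro p
      have e1 : (A1 p + conj (A1 p.swap)) / 2 - a p
          = ((A1 p - a p) + conj (A1 p.swap - a p.swap)) / 2 := by
        have : conj (a p.swap) = a p := by
          simp only [ha, Prod.swap, map_mul, Complex.conj_conj]
          ring
        rw [map_sub, this]; ring
      have h1 : ‖(A1 p - a p) + conj (A1 p.swap - a p.swap)‖
          ≤ ‖A1 p - a p‖ + ‖A1 p.swap - a p.swap‖ := by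
        refine (norm_add_le _ _).trans ?_
        rw [RCLike.norm_conj]
      have h4 : ‖(2 : ℂ)‖ = 2 := by simp
      rw [e1, norm_div, h4]
      show _ ≤ (‖A1 p - a p‖ ^ 2 + ‖A1 p.swap - a p.swap‖ ^ 2) / 2
      have h5 : 0 ≤ ‖(A1 p - a p) + conj (A1 p.swap - a p.swap)‖ := norm_nonneg _
      nlinarith [sq_nonneg (‖A1 p - a p‖ - ‖A1 p.swap - a p.swap‖), norm_nonneg (A1 p - a p),
        norm_nonneg (A1 p.swap - a p.swap)]
    unfold dist2
    calc ∫ p, ‖(A1 p + conj (A1 p.swap)) / 2 - φ p.1 * conj (φ p.2)‖ ^ 2 ∂ν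
        ≤ ∫ p, (d1 p + d1 p.swap) / 2 ∂ν := by
          refine integral_mono_of_nonneg (ae_of_all _ fun p => by positivity)
            ((hd1i.add hd2i).div_const 2) (ae_of_all _ fun p => hpt p)
      _ = (∫ p, d1 p ∂ν + ∫ p, d1 p.swap ∂ν) / 2 := by
          rw [integral_div, integral_add hd1i hd2i]
      _ = ∫ p, d1 p ∂ν := by
          have : ∫ p, d1 p.swap ∂ν = ∫ p, d1 p ∂ν :=
            hsw.integral_comp' (f := MeasurableEquiv.prodComm) (g := d1)
          rw [this]; ring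
      _ ≤ δ ^ 2 := hA1d

end MPd26.HK
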