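import Pool.Agent.Lib.MP_d26cd8_an.HK.LineC

/-!
# LINE: the spectral projection of the invariant kernel applied to `φ` (SpecLine)
-/

set_option autoImplicit false

open MeasureTheory ProbabilityTheory Filter Topology
open scoped ComplexConjugate ENNReal InnerProductSpace

namespace MPd26.HK
namespace LineM

section
variable {Ω : Type} [MeasurableSpace Ω]

/-- The indicator function of a set. -/
noncomputable def ind (C : Set Ω) : Ω → ℂ := C.indicator fun _ => 1

lemma bdd_ind {C : Set Ω} (hC : MeasurableSet C) : Bdd (ind C) := by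
  refine ⟨measurable_const.indicator hC, 1, fun x => ?_⟩
  unfold ind
  by_cases h : x ∈ C <;> simp [h]

omit [MeasurableSpace Ω] in
lemma ind_mem {C : Set Ω} {x : Ω} (h : x ∈ C) : ind C x = 1 := by simp [ind, h]

omit [MeasurableSpace Ω] in
lemma ind_not_mem {C : Set Ω} {x : Ω} (h : x ∉ C) : ind C x = 0 := by simp [ind, h]

omit [MeasurableSpace Ω] in
lemma meas_ind {m : MeasurableSpace Ω} {C : Set Ω} (hC : MeasurableSet[m] C) :
    Measurable[m] (ind C) := measurable_const.indicator hC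

lemma memLp_bdd {μ : Measure Ω} [IsFiniteMeasure μ] {f : Ω → ℂ} (hf : Bdd f) : MemLp f 2 μ := by
  obtain ⟨hm, C, hC⟩ := hf
  exact MemLp.of_bound hm.aestronglyMeasurable C (ae_of_all _ hC)

lemma mulOp_apply_ext {ν : Measure Ω} {b b' : Ω → ℂ} (hb : Bdd b) (hb' : Bdd b')
    {f g : Lp ℂ 2 ν} (h : ∀ᵐ x ∂ν, b x * f x = b' x * g x) :
    mulOp ν b hb f = mulOp ν b' hb' g := by
  ext1
  filter_upwards [mulOp_coe b hb f, mulOp_coe b' hb' g, h] with x h1 h2 h3
  rw [h1, h2, h3]

lemma enorm_sq (z : ℂ) : ‖z‖ₑ ^ 2 = ENNReal.ofReal (‖z‖ ^ 2) := by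
  rw [ENNReal.ofReal_pow (norm_nonneg _), ofReal_norm]

lemma lint_eq {ν : Measure Ω} [IsFiniteMeasure ν] {f : Ω → ℂ} (hf : Bdd f) :
    ∫⁻ x, ‖f x‖ₑ ^ 2 ∂ν = ENNReal.ofReal (∫ x, ‖f x‖ ^ 2 ∂ν) := by
  obtain ⟨hm, C, hC⟩ := hf
  have hint : Integrable (fun x => ‖f x‖ ^ 2) ν := by
    refine Integrable.of_bound (hm.norm.pow_const 2).aestronglyMeasurable (|C| ^ 2)
      (ae_of_all _ fun x => ?_)
    rw [Real.norm_of_nonneg (by positivity)]
    gcongr
    exact (hC x).trans (le_abs_self C)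
  rw [ofReal_integral_eq_lintegral_ofReal hint (ae_of_all _ fun x => by positivity)]
  exact lintegral_congr fun x => enorm_sq _

lemma norm_sq_lp {ν : Measure Ω} (f : Lp ℂ 2 ν) : ENNReal.ofReal (‖f‖ ^ 2) = ∫⁻ x, ‖f x‖ₑ ^ 2 ∂ν := by
  rw [← sq_enorm, ENNReal.ofReal_pow (norm_nonneg _), ofReal_norm]

end

lemma ker_iter {α : Type} [MeasurableSpace α] [StandardBorelSpace α] (X : Sys α) (N : X.Factor)
    {ρ : α → ℂ} {A : α × α → ℂ}
    (hinv : ∀ᵐ p ∂(relSq N.le X.μ), conj (ρ p.1) * ρ p.2 * A (X.S p.1, X.S p.2) = A p) (j : ℕ) :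
    ∀ᵐ p ∂(relSq N.le X.μ), conj (bprod X.S ρ j p.1) * bprod X.S ρ j p.2 *
        A (X.S^[j] p.1, X.S^[j] p.2) = A p := by
  induction j with
  | zero => exact ae_of_all _ fun p => by simp [bprod]
  | succ j ih =>
    have h1 := (mp_relSq_iterE X N j).quasiMeasurePreserving.ae hinv
    filter_upwards [ih, h1] with p hp1 hp2
    rw [iterE_coe] at hp2
    simp only [Prod.map_fst, Prod.map_snd] at hp2
    have e1 : ∀ x, bprod X.S ρ (j + 1) x = bprod X.S ρ j x * ρ (X.S^[j] x) := by
      intro x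
      unfold bprod
      rw [Finset.prod_range_succ]
    have e2 : Prod.map (X.S^[j]) (X.S^[j]) p = (X.S^[j] p.1, X.S^[j] p.2) := rfl
    rw [e2] at hp2
    rw [← hp1, e1, e1, Function.iterate_succ_apply', Function.iterate_succ_apply', ← hp2]
    simp only [map_mul]
    ring

end LineM

open LineM in
theorem specLine : SpecLine := by
  classical
  intro α _ _ X N ρ φ hρ hφ δ hδ A hAm hA1 hherm hinv hdist
  set μ := X.μ with hμ
  have hm := N.le
  have hAb : Bdd A := ⟨hAm, 1, hA1⟩
  have hPb : Bdd (kφ φ) := bdd_kφ hφ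
  set G : α × α → ℂ := fun p => A p - kφ φ p with hG
  have hGb : Bdd G := hAb.sub hPb
  set g : α → ℝ≥0∞ := fun x => ∫⁻ z, row hm μ G z ∂(dis hm μ x) with hg
  have hrG : Measurable (row hm μ G) := measurable_row hm μ hGb.1
  have hgm : Measurable[N.σ] g := measurable_lint hm μ hrG
  set c0 : ℝ≥0∞ := ENNReal.ofReal ((1 / 40 : ℝ) ^ 2) with hc0
  set B : Set α := {x | g x ≤ c0} with hBdef
  have hB : MeasurableSet[N.σ] B := @measurableSet_le _ _ _ _ _ N.σ _ _ _ _ _ hgm measurable_const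
  have hBm : MeasurableSet B := hm _ hB
  -- total mass
  have htot : ∫⁻ x, row hm μ G x ∂μ ≤ ENNReal.ofReal (δ ^ 2) := by
    have e1 : ∫⁻ x, row hm μ G x ∂μ = ∫⁻ p, ‖G p‖ₑ ^ 2 ∂(relSq hm μ) := by
      unfold relSq
      rw [Measure.lintegral_compProd (hGb.1.enorm.pow_const 2)]
      rfl
    rw [e1, lint_eq hGb]
    exact ENNReal.ofReal_le_ofReal hdist
  have hgtot : ∫⁻ x, g x ∂μ ≤ ENNReal.ofReal (δ ^ 2) := by
    have h := lint_pull hm μ (w := fun _ => 1) measurable_const hrG
    simp only [one_mul] at h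
    rw [← h]; exact htot
  have hL1 : μ.real Bᶜ ≤ 1600 * δ ^ 2 := by
    have h1 : c0 * μ {x | c0 ≤ g x} ≤ ENNReal.ofReal (δ ^ 2) :=
      (mul_meas_ge_le_lintegral (hgm.mono hm le_rfl) c0).trans hgtot
    have h2 : c0 * μ Bᶜ ≤ ENNReal.ofReal (δ ^ 2) := by
      refine le_trans ?_ h1
      gcongr
      intro x hx
      simp only [hBdef, Set.mem_compl_iff, Set.mem_ofPred_eq, not_le] at hx
      exact le_of_lt hx
    have h3 : (1 / 40 : ℝ) ^ 2 * μ.real Bᶜ ≤ δ ^ 2 := by
      have h4 : ENNReal.ofReal ((1 / 40 : ℝ) ^ 2 * μ.real Bᶜ) ≤ ENNReal.ofReal (δ ^ 2) := by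
        rw [ENNReal.ofReal_mul (by positivity), ofReal_measureReal]
        exact h2
      exact (ENNReal.ofReal_le_ofReal_iff (by positivity)).1 h4
    linarith
  -- the operators
  have hkA : Bdd (resK B A) := bdd_resK hBm hAb
  have hkP : Bdd (resK B (kφ φ)) := bdd_resK hBm hPb
  set T := Op hm μ (resK B A) hkA with hT
  set P := Op hm μ (resK B (kφ φ)) hkP with hP
  have hTs : IsSelfAdjoint T := by
    refine Op_selfAdjoint hm μ _ ?_
    filter_upwards [ae_mem_iff hm μ hB, hherm] with p hp hp2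
    unfold resK
    by_cases h : p.1 ∈ B
    · rw [if_pos h, if_pos (hp.1 h), hp2]
    · rw [if_neg h, if_neg (fun h' => h (hp.2 h'))]
      simp
  have hPs : IsSelfAdjoint P := P_selfAdjoint hm μ hB hφ
  have hP2 : P * P = P := P_proj hm μ hB hφ
  have hkG : Bdd (fun p => resK B A p - resK B (kφ φ) p) := hkA.sub hkP
  have hTP : T - P = Op hm μ (fun p => resK B A p - resK B (kφ φ) p) hkG := Op_sub hm μ hkA hkP
  have hrow : ∀ z, row hm μ (fun p => resK B A p - resK B (kφ φ) p) z ≤ row hm μ G z := by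
    intro z
    unfold row
    refine lintegral_mono fun y => ?_
    unfold resK
    by_cases h : z ∈ B
    · simp only [h, if_true]
      exact le_rfl
    · simp [h]
  have hrow0 : ∀ z, z ∉ B → row hm μ (fun p => resK B A p - resK B (kφ φ) p) z = 0 := by
    intro z hz
    unfold row resK
    simp [hz]
  have hTPn : ‖T - P‖ ≤ 1 / 40 := by
    rw [hTP]
    refine Op_norm hm μ hkG (by norm_num) ?_
    filter_upwards [dis_apply_of_meas hm μ hB] with x hx
    by_cases h : x ∈ B
    · refine le_trans (lintegral_mono fun z => hrow z) ?_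
      exact h
    · have : ∫⁻ z, row hm μ (fun p => resK B A p - resK B (kφ φ) p) z ∂(dis hm μ x) = 0 := by
        rw [lintegral_eq_zero_iff (measurable_row hm μ hkG.1)]
        filter_upwards [hx] with z hz
        exact hrow0 z fun h' => h (hz.1 h')
      rw [this]
      exact zero_le
  obtain ⟨E, hEs, hE2, hET, hEc⟩ := spectral hTs hPs hP2 hTPn
  have hEP : ‖E - P‖ ≤ 1 / 4 := by
    calc ‖E - P‖ = ‖(E - T) + (T - P)‖ := by rw [sub_add_sub_cancel]
      _ ≤ ‖E - T‖ + ‖T - P‖ := norm_add_le _ _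
      _ ≤ 1 / 5 + 1 / 40 := add_le_add hET hTPn
      _ ≤ 1 / 4 := by norm_num
  have hEE : ∀ f, E (E f) = E f := fun f => by
    have := congrArg (fun L : Lp ℂ 2 μ →L[ℂ] Lp ℂ 2 μ => L f) hE2
    simpa only [mul_apply_eq_comp] using this
  have hcomm : ∀ (M : Lp ℂ 2 μ →L[ℂ] Lp ℂ 2 μ), Commute T M → ∀ f, E (M f) = M (E f) := by
    intro M hM f
    have := congrArg (fun L : Lp ℂ 2 μ →L[ℂ] Lp ℂ 2 μ => L f) (hEc M hM).eq
    simpa only [mul_apply_eq_comp] using this
  have hcb : ∀ (b : α → ℂ) (hb : Bdd b), Measurable[N.σ] b → ∀ f,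
      E (mulOp μ b hb f) = mulOp μ b hb (E f) := fun b hb hbm f =>
    hcomm _ (Op_mulOp hm μ hkA hb hbm) f
  have hφ2 : MemLp φ 2 μ := memLp_bdd hφ.bdd
  set φH : Lp ℂ 2 μ := hφ2.toLp φ with hφH
  have hφc : φH =ᵐ[μ] φ := MemLp.coeFn_toLp hφ2
  set vH := E φH with hvH
  have hEv : E vH = vH := hEE φH
  -- `vH` vanishes off `B`
  have hBc : Bdd (ind Bᶜ) := bdd_ind hBm.compl
  have hTBc : ∀ f, mulOp μ (ind Bᶜ) hBc (T f) = 0 := by
    intro f
    ext1
    filter_upwards [mulOp_coe (ind Bᶜ) hBc (T f), Op_coe hm μ hkA f, Lp.coeFn_zero ℂ 2 μ]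
      with x h1 h2 h3
    rw [h1, h2, h3]
    by_cases h : x ∈ B
    · rw [ind_not_mem (by simpa using h)]; simp
    · have : opFun hm μ (resK B A) f x = 0 := by
        unfold opFun resK
        simp [h]
      rw [this]; simp
  have hv0 : mulOp μ (ind Bᶜ) hBc vH = 0 := by
    set w := mulOp μ (ind Bᶜ) hBc vH with hw
    have h1 : E w = w := by
      rw [hw, hcb _ _ (meas_ind hB.compl), hEv]
    have h2 : T w = 0 := by
      have := congrArg (fun L : Lp ℂ 2 μ →L[ℂ] Lp ℂ 2 μ => L vH)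
        (Op_mulOp hm μ hkA hBc (meas_ind hB.compl)).eq
      simp only [mul_apply_eq_comp] at this
      rw [hw, this, hTBc]
    have h3 : ‖w‖ ≤ 1 / 5 * ‖w‖ := by
      calc ‖w‖ = ‖(E - T) w‖ := by rw [sub_apply, h1, h2, sub_zero]
        _ ≤ ‖E - T‖ * ‖w‖ := ContinuousLinearMap.le_opNorm _ _
        _ ≤ 1 / 5 * ‖w‖ := by gcongr
    have h4 : ‖w‖ = 0 := by linarith [norm_nonneg w]
    exact norm_eq_zero.1 h4
  have hvB : ∀ᵐ x ∂μ, x ∉ B → vH x = 0 := by
    have h1 := mulOp_coe (ind Bᶜ) hBc vH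
    rw [hv0] at h1
    filter_upwards [h1, Lp.coeFn_zero ℂ 2 μ] with x h2 h3 hx
    rw [h3, ind_mem (by simpa using hx)] at h2
    simpa using h2.symm
  set v : α → ℂ := fun x => if x ∈ B then vH x else 0 with hv
  have hvm : Measurable v :=
    Measurable.ite hBm (Lp.stronglyMeasurable vH).measurable measurable_const
  have hvc : vH =ᵐ[μ] v := by
    filter_upwards [hvB] with x hx
    simp only [hv]
    split_ifs with h
    · rfl
    · exact hx h
  have hv2 : MemLp v 2 μ := (Lp.memLp vH).ae_eq hvc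
  -- rank one
  have rank : ∀ f : Lp ℂ 2 μ, E f = f → ∃ b : α → ℂ, Measurable[N.σ] b ∧
      ∀ᵐ x ∂μ, f x = b x * vH x := by
    intro f hf
    obtain ⟨f', hf'⟩ := onto hEs hE2 hEP f hf
    set b := coef hm μ B φ f' with hb
    have hbm : Measurable[N.σ] b := measurable_coef hm μ hB hφ (Lp.stronglyMeasurable f')
    have hPf : P f' =ᵐ[μ] fun x => b x * φ x := P_coe hm μ hBm hφ f'
    refine ⟨b, hbm, ?_⟩
    have hk : ∀ k : ℕ, ∀ᵐ x ∂μ, ‖b x‖ ≤ k → f x = b x * vH x := by
      intro k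
      set C : Set α := {x | ‖b x‖ ≤ k} with hC
      have hCm : MeasurableSet[N.σ] C :=
        @measurableSet_le _ _ _ _ _ N.σ _ _ _ _ _ (measurable_norm.comp hbm) measurable_const
      set bk : α → ℂ := fun x => if x ∈ C then b x else 0 with hbk
      have hbkm : Measurable[N.σ] bk := Measurable.ite hCm hbm measurable_const
      have hbkb : Bdd bk := by
        refine ⟨hbkm.mono hm le_rfl, k, fun x => ?_⟩
        simp only [hbk]
        split_ifs with h
        · exact h
        · simp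
      have hCb : Bdd (ind C) := bdd_ind (hm _ hCm)
      have e1 : mulOp μ (ind C) hCb (P f') = mulOp μ bk hbkb φH := by
        refine mulOp_apply_ext _ _ ?_
        filter_upwards [hPf, hφc] with x h1 h2
        rw [h1, h2]
        by_cases h : x ∈ C
        · rw [ind_mem h]; simp [hbk, h]
        · rw [ind_not_mem h]; simp [hbk, h]
      have e2 : mulOp μ (ind C) hCb f = mulOp μ bk hbkb vH := by
        rw [hf', ← hcb _ _ (meas_ind hCm), e1, hcb _ _ hbkm]
      have h1 := mulOp_coe (ind C) hCb f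
      rw [e2] at h1
      filter_upwards [h1, mulOp_coe bk hbkb vH] with x h2 h3 h4
      have h5 : x ∈ C := h4
      rw [h3, ind_mem h5, one_mul] at h2
      simp only [hbk, h5, if_true] at h2
      exact h2.symm
    filter_upwards [ae_all_iff.2 hk] with x hx
    obtain ⟨k, hk⟩ := exists_nat_ge ‖b x‖
    exact hx k hk
  -- (L3)
  have hL3 : ∀ j : ℕ, ∃ b : α → ℂ, Measurable[N.σ] b ∧
      ∀ᵐ x ∂μ, x ∈ B → X.S^[j] x ∈ B → conj (bprod X.S ρ j x) * v (X.S^[j] x) = b x * v x := by
    intro j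
    have hSj : Measurable (X.S^[j]) := X.S.measurable.iterate j
    have hSjm : @Measurable α α N.σ N.σ (X.S^[j]) := by
      exact @Measurable.iterate α N.σ _ (meas_S X N) j
    set D : Set α := {x | x ∈ B ∧ X.S^[j] x ∈ B} with hD
    have hDm : MeasurableSet[N.σ] D := hB.inter (hSjm hB)
    have hbp : IsPhase (bprod X.S ρ j) := by
      unfold bprod
      exact IsPhase.prod _ fun i _ => hρ.comp (X.S.measurable.iterate i)
    set c : α → ℂ := fun x => if x ∈ D then conj (bprod X.S ρ j x) else 0 with hc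
    have hcb : Bdd c := by
      refine ⟨Measurable.ite (hm _ hDm) hbp.conj.1 measurable_const, 1, fun x => ?_⟩
      simp only [hc]
      split_ifs
      · exact (hbp.conj.2 x).le
      · simp
    -- iterated invariance of the kernel
    have hinvj := ker_iter X N hinv j
    have hcom : Commute T (mulOp μ c hcb *
        (Lp.compMeasurePreservingₗᵢ ℂ (iterE X j) (mp_iterE X j)).toContinuousLinearMap) := by
      refine Op_comp hm μ hkA hcb (iterE X j) (mp_iterE X j) (mp_relSq_iterE X N j) ?_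
      filter_upwards [hinvj, ae_mem_iff hm μ hB, ae_mem_iff hm μ hDm] with p hp1 hp2 hp3
      rw [iterE_coe]
      simp only [hc, resK]
      by_cases h : p.1 ∈ D
      · have h' : p.2 ∈ D := hp3.1 h
        rw [if_pos h, if_pos h', if_pos h.2, if_pos h.1, ← hp1]
        have := hbp.mul_conj p.2
        linear_combination (-(conj (bprod X.S ρ j p.1)) * A (X.S^[j] p.1, X.S^[j] p.2)) * this
      · have h' : p.2 ∉ D := fun h' => h (hp3.2 h')
        rw [if_neg h, if_neg h']
        simp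
    set XX := mulOp μ c hcb *
        (Lp.compMeasurePreservingₗᵢ ℂ (iterE X j) (mp_iterE X j)).toContinuousLinearMap with hXX
    have hEX : E (XX vH) = XX vH := by rw [hcomm _ hcom, hEv]
    obtain ⟨b, hbm, hb⟩ := rank _ hEX
    refine ⟨b, hbm, ?_⟩
    have h1 : XX vH =ᵐ[μ] fun x => c x * vH (X.S^[j] x) := by
      have h2 : (Lp.compMeasurePreservingₗᵢ ℂ (iterE X j) (mp_iterE X j)) vH
          =ᵐ[μ] fun x => vH (iterE X j x) := Lp.coeFn_compMeasurePreserving vH (mp_iterE X j)
      filter_upwards [mulOp_coe c hcb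
        ((Lp.compMeasurePreservingₗᵢ ℂ (iterE X j) (mp_iterE X j)) vH), h2] with x h3 h4
      rw [hXX]
      show (mulOp μ c hcb ((Lp.compMeasurePreservingₗᵢ ℂ (iterE X j) (mp_iterE X j)) vH)) x = _
      rw [h3, h4, iterE_coe]
    filter_upwards [hb, h1, hvc, (X.mp.iterate j).quasiMeasurePreserving.ae hvc]
      with x e1 e2 e3 e4 hx1 hx2
    rw [e2, e3, e4] at e1
    have hxD : x ∈ D := ⟨hx1, hx2⟩
    simp only [hc, hxD, if_true] at e1
    exact e1
  choose b hbm hb using hL3
  refine ⟨B, v, b, hB, hvm, hv2, hbm, hL1, ?_, hb, ?_⟩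
  · -- (L2)
    intro C hC hCB hC0
    have hCm : MeasurableSet C := hm _ hC
    have hCb : Bdd (ind C) := bdd_ind hCm
    have hφb : Bdd φ := hφ.bdd
    set f := mulOp μ (ind C) hCb φH with hf
    have hfc : f =ᵐ[μ] fun x => ind C x * φ x := by
      filter_upwards [mulOp_coe (ind C) hCb φH, hφc] with x h1 h2
      rw [h1, h2]
    have hPf : P f = f := by
      ext1
      filter_upwards [P_coe hm μ hBm hφ f,
        coef_mul_phi hm μ hB hφ (meas_ind hC) hfc, hfc] with x h1 h2 h3
      rw [h1, h2, h3]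
      split_ifs with h
      · rfl
      · rw [ind_not_mem (fun h' => h (hCB h'))]
    have hEf : E f = 0 := by
      rw [hf, hcb _ _ (meas_ind hC)]
      ext1
      filter_upwards [mulOp_coe (ind C) hCb (E φH), hvc, hC0, Lp.coeFn_zero ℂ 2 μ]
        with x h1 h2 h3 h4
      rw [h1, h4]
      by_cases h : x ∈ C
      · show ind C x * vH x = 0
        rw [h2, h3 h, mul_zero]
      · rw [ind_not_mem h, zero_mul]; rfl
    have hn : ‖f‖ ≤ 1 / 4 * ‖f‖ := by
      calc ‖f‖ = ‖(E - P) f‖ := by rw [sub_apply, hEf, hPf, zero_sub, norm_neg]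
        _ ≤ ‖E - P‖ * ‖f‖ := ContinuousLinearMap.le_opNorm _ _
        _ ≤ 1 / 4 * ‖f‖ := by gcongr
    have hf0 : f = 0 := norm_eq_zero.1 (by linarith [norm_nonneg f])
    have h1 : ∀ᵐ x ∂μ, x ∉ C := by
      rw [hf0] at hfc
      filter_upwards [hfc, Lp.coeFn_zero ℂ 2 μ] with x h1 h2 h3
      rw [h2, ind_mem h3, one_mul] at h1
      have := hφ.2 x
      rw [← h1] at this
      simp at this
    exact measure_eq_zero_iff_ae_notMem.2 h1
  · -- (L4)
    have hBb : Bdd (ind B) := bdd_ind hBm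
    set f := mulOp μ (ind B) hBb φH with hf
    have hfc : f =ᵐ[μ] fun x => ind B x * φ x := by
      filter_upwards [mulOp_coe (ind B) hBb φH, hφc] with x h1 h2
      rw [h1, h2]
    have hPf : P f = f := by
      ext1
      filter_upwards [P_coe hm μ hBm hφ f,
        coef_mul_phi hm μ hB hφ (meas_ind hB) hfc, hfc] with x h1 h2 h3
      rw [h1, h2, h3]
      split_ifs with h
      · rfl
      · rw [ind_not_mem h]
    have hEf : E f = vH := by
      rw [hf, hcb _ _ (meas_ind hB)]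
      ext1
      filter_upwards [mulOp_coe (ind B) hBb (E φH), hvB] with x h1 h2
      rw [h1]
      by_cases h : x ∈ B
      · rw [ind_mem h, one_mul]
      · rw [ind_not_mem h, zero_mul, h2 h]
    have hd := defect hEs hE2 hET (hEc T (Commute.refl T)) f
    rw [hEf] at hd
    have hTf : ‖T f - f‖ ≤ δ := by
      have e1 : T f - f = Op hm μ (fun p => resK B A p - resK B (kφ φ) p) hkG f := by
        rw [← hTP, sub_apply, hPf]
      rw [e1]
      have h1 : ENNReal.ofReal (‖Op hm μ (fun p => resK B A p - resK B (kφ φ) p) hkG f‖ ^ 2)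
          ≤ ENNReal.ofReal (δ ^ 2) := by
        rw [norm_sq_lp, Op_lint]
        refine le_trans ?_ htot
        refine lintegral_mono_ae ?_
        have h2 : ∀ᵐ x ∂μ, ∫⁻ z, ‖f z‖ₑ ^ 2 ∂(dis hm μ x) ≤ 1 := by
          filter_upwards [ae_dis_of_ae hm μ hfc] with x hx
          calc ∫⁻ z, ‖f z‖ₑ ^ 2 ∂(dis hm μ x) ≤ ∫⁻ _, 1 ∂(dis hm μ x) := by
                refine lintegral_mono_ae ?_
                filter_upwards [hx] with z hz
                rw [hz, enorm_sq]
                have h5 : ‖ind B z * φ z‖ ^ 2 ≤ 1 := by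
                  rw [norm_mul, hφ.2, mul_one]
                  by_cases h : z ∈ B
                  · rw [ind_mem h]; simp
                  · rw [ind_not_mem h]; simp
                calc ENNReal.ofReal (‖ind B z * φ z‖ ^ 2) ≤ ENNReal.ofReal 1 :=
                      ENNReal.ofReal_le_ofReal h5
                  _ = 1 := ENNReal.ofReal_one
            _ = 1 := by simp
        filter_upwards [h2] with x hx
        calc _ ≤ row hm μ (fun p => resK B A p - resK B (kφ φ) p) x *
              ∫⁻ z, ‖f z‖ₑ ^ 2 ∂(dis hm μ x) := opFun_le hm μ hkG.1 (Lp.stronglyMeasurable f) x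
          _ ≤ row hm μ G x * 1 := by gcongr; exact hrow x
          _ = _ := mul_one _
      have h3 := (ENNReal.ofReal_le_ofReal_iff (by positivity)).1 h1
      exact (pow_le_pow_iff_left₀ (norm_nonneg _) hδ (by norm_num)).1 h3
    have hd2 : ‖f - vH‖ ^ 2 ≤ 2 * δ ^ 2 := by
      have h1 : ‖f - vH‖ ≤ 5 / 4 * δ := hd.trans (by linarith)
      calc ‖f - vH‖ ^ 2 ≤ (5 / 4 * δ) ^ 2 := by gcongr
        _ ≤ 2 * δ ^ 2 := by nlinarith [sq_nonneg δ]
    refine le_trans (le_of_eq ?_) hd2
    have hint : ENNReal.ofReal (∫ x in B, ‖v x - φ x‖ ^ 2 ∂μ) = ENNReal.ofReal (‖f - vH‖ ^ 2) := by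
      rw [norm_sq_lp]
      have hvφ : MemLp (fun x => v x - φ x) 2 μ := hv2.sub hφ2
      have hi : Integrable (fun x => ‖v x - φ x‖ ^ 2) μ := by
        have := hvφ.integrable_norm_pow (by norm_num)
        simpa using this
      rw [ofReal_integral_eq_lintegral_ofReal hi.integrableOn (ae_of_all _ fun x => by positivity),
        ← lintegral_indicator hBm]
      refine lintegral_congr_ae ?_
      filter_upwards [Lp.coeFn_sub f vH, hfc, hvc] with x h1 h2 h3
      rw [h1, Pi.sub_apply, h2, h3]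
      by_cases h : x ∈ B
      · rw [Set.indicator_of_mem h, ind_mem h, one_mul, enorm_sq, norm_sub_rev]
      · rw [Set.indicator_of_notMem h, ind_not_mem h]
        simp [hv, h]
    have h1 : 0 ≤ ∫ x in B, ‖v x - φ x‖ ^ 2 ∂μ := integral_nonneg fun x => by positivity
    exact (ENNReal.ofReal_eq_ofReal_iff h1 (by positivity)).1 hint

end MPd26.HK
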