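import Mathlib

/-!
# LINE, part A: two nearby projections in a Hilbert space
-/

set_option autoImplicit false

open Filter Topology
open scoped ComplexConjugate InnerProductSpace

namespace MPd26.HK.LineM

variable {H : Type} [NormedAddCommGroup H] [InnerProductSpace ℂ H] [CompleteSpace H]

lemma proj_norm_le {P : H →L[ℂ] H} (hP : IsSelfAdjoint P) (hP2 : P * P = P) : ‖P‖ ≤ 1 := by
  have h1 : ‖P‖ * ‖P‖ = ‖P‖ := by
    have := CStarRing.norm_star_mul_self (x := P)
    rw [hP.star_eq, hP2] at this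
    exact this.symm
  by_contra h
  push Not at h
  nlinarith

/-- Spectral projection of an almost projection. -/
theorem spectral {T P : H →L[ℂ] H} (hT : IsSelfAdjoint T) (hP : IsSelfAdjoint P)
    (hP2 : P * P = P) (hd : ‖T - P‖ ≤ 1 / 40) :
    ∃ E : H →L[ℂ] H, IsSelfAdjoint E ∧ E * E = E ∧ ‖E - T‖ ≤ 1 / 5 ∧
      ∀ M : H →L[ℂ] H, Commute T M → Commute E M := by
  have hP1 := proj_norm_le hP hP2
  have hT1 : ‖T‖ ≤ 41 / 40 := by
    calc ‖T‖ = ‖(T - P) + P‖ := by rw [sub_add_cancel]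
      _ ≤ ‖T - P‖ + ‖P‖ := norm_add_le _ _
      _ ≤ 41 / 40 := by linarith
  have hTT : ‖T * T - T‖ ≤ 1 / 10 := by
    have e : T * T - T = (T - P) * T + P * (T - P) - (T - P) := by
      rw [sub_mul, mul_sub, hP2]; abel
    rw [e]
    calc ‖(T - P) * T + P * (T - P) - (T - P)‖
        ≤ ‖(T - P) * T + P * (T - P)‖ + ‖T - P‖ := norm_sub_le _ _
      _ ≤ ‖(T - P) * T‖ + ‖P * (T - P)‖ + ‖T - P‖ := by gcongr; exact norm_add_le _ _
      _ ≤ ‖T - P‖ * ‖T‖ + ‖P‖ * ‖T - P‖ + ‖T - P‖ := by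
          gcongr <;> exact norm_mul_le _ _
      _ ≤ 1 / 40 * (41 / 40) + 1 * (1 / 40) + 1 / 40 := by gcongr
      _ ≤ 1 / 10 := by norm_num
  have hcT : cfc (fun t : ℝ => t * t - t) T = T * T - T := by
    rw [cfc_sub (fun t : ℝ => t * t) (fun t : ℝ => t) T, cfc_mul (fun t : ℝ => t) (fun t : ℝ => t) T,
      cfc_id' ℝ T]
  have hspec : ∀ t ∈ spectrum ℝ T, |t * t - t| ≤ 1 / 10 := by
    intro t ht
    have := norm_apply_le_norm_cfc (fun t : ℝ => t * t - t) T ht
    rw [hcT] at this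
    exact this.trans hTT
  set e : ℝ → ℝ := fun t => if 1 / 2 < t then 1 else 0 with he
  have hne : ∀ t ∈ spectrum ℝ T, t ≠ 1 / 2 := by
    rintro t ht rfl
    have := hspec _ ht
    norm_num [abs_le] at this
  have hcont : ContinuousOn e (spectrum ℝ T) := by
    intro t ht
    rcases lt_or_gt_of_ne (hne t ht) with h | h
    · have h1 : e =ᶠ[𝓝 t] fun _ => 0 := by
        filter_upwards [Iio_mem_nhds h] with s hs
        simp only [he]
        rw [if_neg (not_lt.2 (le_of_lt (Set.mem_Iio.1 hs)))]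
      exact (continuousAt_const.congr h1.symm).continuousWithinAt
    · have h1 : e =ᶠ[𝓝 t] fun _ => 1 := by
        filter_upwards [Ioi_mem_nhds h] with s hs
        simp only [he]
        rw [if_pos (Set.mem_Ioi.1 hs)]
      exact (continuousAt_const.congr h1.symm).continuousWithinAt
  refine ⟨cfc e T, IsSelfAdjoint.cfc, ?_, ?_, fun M hM => hM.cfc_real e⟩
  · rw [← cfc_mul e e T hcont hcont]
    congr 1
    funext t
    simp only [he]
    split_ifs <;> simp
  · have h1 : cfc e T - T = cfc (fun t => e t - t) T := by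
      rw [cfc_sub e (fun t : ℝ => t) T hcont, cfc_id' ℝ T]
    rw [h1]
    refine norm_cfc_le (by norm_num) fun t ht => ?_
    have h2 := hspec t ht
    rw [Real.norm_eq_abs]
    simp only [he]
    split_ifs with h
    · have h3 : t * t - t = t * (t - 1) := by ring
      rw [h3, abs_mul] at h2
      have h4 : 1 / 2 ≤ |t| := (le_of_lt h).trans (le_abs_self t)
      rw [abs_sub_comm]
      nlinarith [abs_nonneg (t - 1)]
    · have h3 : t * t - t = t * (t - 1) := by ring
      rw [h3, abs_mul] at h2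
      have h4 : 1 / 2 ≤ |t - 1| := by
        rw [abs_sub_comm]
        exact (by linarith : (1 : ℝ) / 2 ≤ 1 - t).trans (le_abs_self _)
      rw [zero_sub, abs_neg]
      nlinarith [abs_nonneg t]

/-- `E` maps the range of `P` onto its range. -/
theorem onto {E P : H →L[ℂ] H} (hE : IsSelfAdjoint E) (hE2 : E * E = E) (hEP : ‖E - P‖ ≤ 1 / 4)
    (f : H) (hf : E f = f) : ∃ f' : H, f = E (P f') := by
  have hE1 := proj_norm_le hE hE2
  have hn : ‖E * (E - P) * E‖ < 1 := by
    calc ‖E * (E - P) * E‖ ≤ ‖E * (E - P)‖ * ‖E‖ := norm_mul_le _ _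
      _ ≤ ‖E‖ * ‖E - P‖ * ‖E‖ := by gcongr; exact norm_mul_le _ _
      _ ≤ 1 * (1 / 4) * 1 := by gcongr
      _ < 1 := by norm_num
  set G := Units.oneSub (E * (E - P) * E) hn with hG
  have hGc : Commute E (G : H →L[ℂ] H) := by
    rw [hG, Units.val_oneSub]
    refine Commute.sub_right (Commute.one_right _) ?_
    show E * (E * (E - P) * E) = E * (E - P) * E * E
    rw [mul_assoc (E * (E - P)) E E, hE2, ← mul_assoc E (E * (E - P)) E, ← mul_assoc E E (E - P), hE2]
  have hGi : Commute E (↑G⁻¹ : H →L[ℂ] H) := hGc.units_inv_right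
  set g : H := (↑G⁻¹ : H →L[ℂ] H) f with hg
  have hEg : E g = g := by
    have := congrArg (fun L : H →L[ℂ] H => L f) hGi.eq
    simp only [mul_apply_eq_comp] at this
    rw [hf] at this
    exact this
  have hGg : (G : H →L[ℂ] H) g = f := by
    have := congrArg (fun L : H →L[ℂ] H => L f) (Units.mul_inv G)
    simp only [mul_apply_eq_comp, one_apply_eq_self] at this
    exact this
  refine ⟨g, ?_⟩
  rw [hG, Units.val_oneSub] at hGg
  simp only [sub_apply, one_apply_eq_self,
    mul_apply_eq_comp, map_sub] at hGg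
  have hEE : E (E g) = g := by rw [hEg, hEg]
  have hEEP : E (E (P g)) = E (P g) := by
    have := congrArg (fun L : H →L[ℂ] H => L (P g)) hE2
    simpa using this
  rw [hEg] at hGg
  rw [← hGg, hEg, hEg]
  abel_nf

/-- The defect of a vector. -/
theorem defect {E T : H →L[ℂ] H} (hE : IsSelfAdjoint E) (hE2 : E * E = E) (hET : ‖E - T‖ ≤ 1 / 5)
    (hc : Commute E T) (f : H) : ‖f - E f‖ ≤ 5 / 4 * ‖T f - f‖ := by
  have h1E : ‖(1 - E : H →L[ℂ] H)‖ ≤ 1 := by
    refine proj_norm_le ((IsSelfAdjoint.one _).sub hE) ?_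
    rw [sub_mul, mul_sub, one_mul, one_mul, mul_sub, mul_one, hE2]; abel
  set w := f - E f with hw
  have hEw : E w = 0 := by
    have := congrArg (fun L : H →L[ℂ] H => L f) hE2
    simp only [mul_apply_eq_comp] at this
    rw [hw, map_sub, this, sub_self]
  have h1 : T w - w = (1 - E : H →L[ℂ] H) (T f - f) := by
    have := congrArg (fun L : H →L[ℂ] H => L f) hc.eq
    simp only [mul_apply_eq_comp] at this
    rw [sub_apply, one_apply_eq_self, hw, map_sub, map_sub, this]
    abel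
  have h2 : ‖T w‖ ≤ 1 / 5 * ‖w‖ := by
    have : T w = -((E - T) w) := by
      rw [sub_apply, hEw]; abel
    rw [this, norm_neg]
    exact (ContinuousLinearMap.le_opNorm _ _).trans (by gcongr)
  have h3 : ‖w‖ ≤ ‖T w‖ + ‖T w - w‖ := by
    calc ‖w‖ = ‖T w - (T w - w)‖ := by rw [sub_sub_cancel]
      _ ≤ _ := norm_sub_le _ _
  have h4 : ‖T w - w‖ ≤ ‖T f - f‖ := by
    rw [h1]
    calc _ ≤ ‖(1 - E : H →L[ℂ] H)‖ * ‖T f - f‖ := ContinuousLinearMap.le_opNorm _ _
      _ ≤ 1 * ‖T f - f‖ := by gcongr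
      _ = _ := one_mul _
  linarith

end MPd26.HK.LineM
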