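import Pool.Agent.Lib.MP_d26cd8_an.HK.Sq
import Pool.Agent.Lib.MP_d26cd8_an.HK.FixSpec

/-!
# LINE, part B: operators on `L²(μ)` with kernels on the relatively independent square
-/

set_option autoImplicit false

open MeasureTheory ProbabilityTheory Filter Topology
open scoped ComplexConjugate ENNReal InnerProductSpace

namespace MPd26.HK.LineM

/-- Cauchy-Schwarz. -/
lemma cs {Ω : Type} [MeasurableSpace Ω] (ν : Measure Ω) {g h : Ω → ℝ≥0∞}
    (hg : AEMeasurable g ν) (hh : AEMeasurable h ν) :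
    (∫⁻ x, g x * h x ∂ν) ^ 2 ≤ (∫⁻ x, g x ^ 2 ∂ν) * (∫⁻ x, h x ^ 2 ∂ν) := by
  have h1 := ENNReal.lintegral_mul_le_Lp_mul_Lq ν Real.HolderConjugate.two_two hg hh
  simp only [Pi.mul_apply] at h1
  have h2 : ∀ a : ℝ≥0∞, (a ^ (1 / 2 : ℝ)) ^ 2 = a := by
    intro a
    rw [← ENNReal.rpow_natCast, ← ENNReal.rpow_mul]
    norm_num
  calc (∫⁻ x, g x * h x ∂ν) ^ 2
      ≤ ((∫⁻ a, g a ^ (2 : ℝ) ∂ν) ^ (1 / 2 : ℝ) * (∫⁻ a, h a ^ (2 : ℝ) ∂ν) ^ (1 / 2 : ℝ)) ^ 2 := by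
        gcongr
    _ = (∫⁻ x, g x ^ 2 ∂ν) * (∫⁻ x, h x ^ 2 ∂ν) := by
        rw [mul_pow, h2, h2]
        simp only [ENNReal.rpow_two]

section L2
variable {Ω : Type} [MeasurableSpace Ω] {ν : Measure Ω}

lemma sq_eLpNorm (f : Ω → ℂ) : (eLpNorm f 2 ν) ^ 2 = ∫⁻ x, ‖f x‖ₑ ^ 2 ∂ν := by
  rw [eLpNorm_eq_lintegral_rpow_enorm_toReal (by norm_num) (by norm_num)]
  rw [← ENNReal.rpow_natCast, ← ENNReal.rpow_mul]
  simp

lemma sq_enorm (f : Lp ℂ 2 ν) : ‖f‖ₑ ^ 2 = ∫⁻ x, ‖f x‖ₑ ^ 2 ∂ν := by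
  rw [← sq_eLpNorm, Lp.enorm_def]

lemma memLp_of_lint {f : Ω → ℂ} (hf : AEStronglyMeasurable f ν)
    (h : ∫⁻ x, ‖f x‖ₑ ^ 2 ∂ν < ∞) : MemLp f 2 ν := by
  refine ⟨hf, ?_⟩
  rw [← sq_eLpNorm] at h
  by_contra hn
  rw [not_lt, top_le_iff] at hn
  rw [hn] at h
  simp at h

lemma norm_le_of_lint {f g : Lp ℂ 2 ν} {c : ℝ} (hc : 0 ≤ c)
    (h : ∫⁻ x, ‖f x‖ₑ ^ 2 ∂ν ≤ ENNReal.ofReal (c ^ 2) * ∫⁻ x, ‖g x‖ₑ ^ 2 ∂ν) :
    ‖f‖ ≤ c * ‖g‖ := by
  rw [← sq_enorm, ← sq_enorm, ENNReal.ofReal_pow hc, ← mul_pow] at h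
  have h1 : ‖f‖ₑ ≤ ENNReal.ofReal c * ‖g‖ₑ := by
    by_contra hn
    rw [not_le] at hn
    exact absurd h (not_le.2 (ENNReal.pow_lt_pow_left (by norm_num) hn))
  rw [← ofReal_norm, ← ofReal_norm, ← ENNReal.ofReal_mul hc] at h1
  exact (ENNReal.ofReal_le_ofReal_iff (by positivity)).1 h1

/-- Multiplication by a bounded function. -/
lemma memLp_bmul {b : Ω → ℂ} (hb : Bdd b) {f : Ω → ℂ} (hf : MemLp f 2 ν) :
    MemLp (fun x => b x * f x) 2 ν := by
  obtain ⟨hm, C, hC⟩ := hb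
  refine hf.of_le_mul (c := C) (hm.aestronglyMeasurable.mul hf.1) (ae_of_all _ fun x => ?_)
  rw [norm_mul]
  gcongr
  exact hC x

/-- The operator of multiplication by a bounded function. -/
noncomputable def mulOp (ν : Measure Ω) (b : Ω → ℂ) (hb : Bdd b) : Lp ℂ 2 ν →L[ℂ] Lp ℂ 2 ν :=
  LinearMap.mkContinuous
    { toFun := fun f => (memLp_bmul hb (Lp.memLp f)).toLp _
      map_add' := by
        intro f g
        ext1
        filter_upwards [MemLp.coeFn_toLp (memLp_bmul hb (Lp.memLp (f + g))),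
          MemLp.coeFn_toLp (memLp_bmul hb (Lp.memLp f)),
          MemLp.coeFn_toLp (memLp_bmul hb (Lp.memLp g)), Lp.coeFn_add f g,
          Lp.coeFn_add ((memLp_bmul hb (Lp.memLp f)).toLp _)
            ((memLp_bmul hb (Lp.memLp g)).toLp _)] with x h1 h2 h3 h4 h5
        rw [h1, h5, Pi.add_apply, h2, h3, h4, Pi.add_apply, mul_add]
      map_smul' := by
        intro c f
        ext1
        filter_upwards [MemLp.coeFn_toLp (memLp_bmul hb (Lp.memLp (c • f))),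
          MemLp.coeFn_toLp (memLp_bmul hb (Lp.memLp f)), Lp.coeFn_smul c f,
          Lp.coeFn_smul c ((memLp_bmul hb (Lp.memLp f)).toLp _)] with x h1 h2 h3 h4
        rw [h1, RingHom.id_apply, h4, Pi.smul_apply, h2, h3, Pi.smul_apply, smul_eq_mul,
          smul_eq_mul]
        ring }
    hb.2.choose (by
      intro f
      refine Lp.norm_le_mul_norm_of_ae_le_mul ?_
      filter_upwards [MemLp.coeFn_toLp (memLp_bmul hb (Lp.memLp f))] with x h1
      show ‖((memLp_bmul hb (Lp.memLp f)).toLp _ : Ω → ℂ) x‖ ≤ _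
      rw [h1, norm_mul]
      gcongr
      exact hb.2.choose_spec x)

lemma mulOp_coe (b : Ω → ℂ) (hb : Bdd b) (f : Lp ℂ 2 ν) :
    mulOp ν b hb f =ᵐ[ν] fun x => b x * f x :=
  MemLp.coeFn_toLp (memLp_bmul hb (Lp.memLp f))

end L2

section Ker
variable {α : Type} {m : MeasurableSpace α} [mα : MeasurableSpace α] [StandardBorelSpace α]
  (hm : m ≤ mα) (μ : Measure α) [IsProbabilityMeasure μ]

lemma ae_dis_of_ae {P : α → Prop} (h : ∀ᵐ x ∂μ, P x) :
    ∀ᵐ x ∂μ, ∀ᵐ z ∂(dis hm μ x), P z := by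
  have h1 : ∀ᵐ p ∂(relSq hm μ), P p.2 := (mp_relSq_snd hm μ).quasiMeasurePreserving.ae h
  exact ae_ae_of_ae_relSq hm μ h1

lemma measurable_lint {g : α → ℝ≥0∞} (hg : Measurable g) :
    Measurable[m] fun x => ∫⁻ z, g z ∂(dis hm μ x) := by
  have : Measurable[m] fun x => ∫⁻ z, g z ∂(condExpKernel μ m x) :=
    Measurable.lintegral_kernel hg
  exact this

/-- `∫ w Γ = ∫ w(x) (∫ Γ dμ_x)` for `w` measurable with respect to `m`. -/
lemma lint_pull {w Γ : α → ℝ≥0∞} (hw : Measurable[m] w) (hΓ : Measurable Γ) :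
    ∫⁻ x, w x * Γ x ∂μ = ∫⁻ x, w x * ∫⁻ z, Γ z ∂(dis hm μ x) ∂μ := by
  have hw' : Measurable w := hw.mono hm le_rfl
  have h1 : ∫⁻ p, w p.1 * Γ p.2 ∂(relSq hm μ) = ∫⁻ x, w x * ∫⁻ z, Γ z ∂(dis hm μ x) ∂μ := by
    have hmeas : Measurable fun p : α × α => w p.1 * Γ p.2 :=
      (hw'.comp measurable_fst).mul (hΓ.comp measurable_snd)
    unfold relSq
    rw [Measure.lintegral_compProd hmeas]
    refine lintegral_congr fun x => ?_
    exact lintegral_const_mul (w x) hΓ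
  have h2 : ∫⁻ p, w p.1 * Γ p.2 ∂(relSq hm μ) = ∫⁻ p, w p.2 * Γ p.2 ∂(relSq hm μ) := by
    refine lintegral_congr_ae ?_
    filter_upwards [ae_relSq_eq_of_meas hm μ hw] with p hp
    rw [hp]
  have h3 : ∫⁻ p, w p.2 * Γ p.2 ∂(relSq hm μ) = ∫⁻ x, w x * Γ x ∂μ :=
    (mp_relSq_snd hm μ).lintegral_comp (f := fun x => w x * Γ x) (hw'.mul hΓ)
  rw [← h3, ← h2, h1]

/-- The kernel operator on functions. -/
noncomputable def opFun (k : α × α → ℂ) (f : α → ℂ) (x : α) : ℂ :=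
  ∫ z, k (x, z) * f z ∂(dis hm μ x)

lemma sm_opFun {k : α × α → ℂ} (hk : Measurable k) {f : α → ℂ} (hf : StronglyMeasurable f) :
    StronglyMeasurable (opFun hm μ k f) := by
  have h : StronglyMeasurable fun p : α × α => k p * f p.2 :=
    hk.stronglyMeasurable.mul (hf.comp_measurable measurable_snd)
  exact StronglyMeasurable.integral_kernel_prod_right' (κ := dis hm μ) h

/-- Hilbert-Schmidt norm square of the row `x`. -/
noncomputable def row (k : α × α → ℂ) (x : α) : ℝ≥0∞ := ∫⁻ z, ‖k (x, z)‖ₑ ^ 2 ∂(dis hm μ x)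

lemma measurable_row {k : α × α → ℂ} (hk : Measurable k) : Measurable (row hm μ k) := by
  have h : Measurable fun p : α × α => ‖k p‖ₑ ^ 2 := hk.enorm.pow_const 2
  exact Measurable.lintegral_kernel_prod_right' (κ := dis hm μ) h

lemma opFun_le {k : α × α → ℂ} (hk : Measurable k) {f : α → ℂ} (hf : StronglyMeasurable f)
    (x : α) : ‖opFun hm μ k f x‖ₑ ^ 2 ≤ row hm μ k x * ∫⁻ z, ‖f z‖ₑ ^ 2 ∂(dis hm μ x) := by
  have h1 : ‖opFun hm μ k f x‖ₑ ≤ ∫⁻ z, ‖k (x, z)‖ₑ * ‖f z‖ₑ ∂(dis hm μ x) := by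
    refine (enorm_integral_le_lintegral_enorm _).trans (le_of_eq ?_)
    refine lintegral_congr fun z => ?_
    rw [enorm_mul]
  calc ‖opFun hm μ k f x‖ₑ ^ 2 ≤ (∫⁻ z, ‖k (x, z)‖ₑ * ‖f z‖ₑ ∂(dis hm μ x)) ^ 2 := by gcongr
    _ ≤ _ := cs _ ((hk.comp measurable_prodMk_left).enorm.aemeasurable)
        hf.measurable.enorm.aemeasurable

/-- The main bound. -/
lemma opFun_bound {k : α × α → ℂ} (hk : Measurable k) {C : ℝ≥0∞}
    (hC : ∀ᵐ x ∂μ, ∫⁻ z, row hm μ k z ∂(dis hm μ x) ≤ C) {f : α → ℂ}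
    (hf : StronglyMeasurable f) :
    ∫⁻ x, ‖opFun hm μ k f x‖ₑ ^ 2 ∂μ ≤ C * ∫⁻ x, ‖f x‖ₑ ^ 2 ∂μ := by
  have hf2 : Measurable fun z => ‖f z‖ₑ ^ 2 := hf.measurable.enorm.pow_const 2
  calc ∫⁻ x, ‖opFun hm μ k f x‖ₑ ^ 2 ∂μ
      ≤ ∫⁻ x, (∫⁻ z, ‖f z‖ₑ ^ 2 ∂(dis hm μ x)) * row hm μ k x ∂μ := by
        refine lintegral_mono fun x => ?_
        rw [mul_comm]
        exact opFun_le hm μ hk hf x
    _ = ∫⁻ x, (∫⁻ z, ‖f z‖ₑ ^ 2 ∂(dis hm μ x)) * ∫⁻ z, row hm μ k z ∂(dis hm μ x) ∂μ :=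
        lint_pull hm μ (measurable_lint hm μ hf2) (measurable_row hm μ hk)
    _ ≤ ∫⁻ x, (∫⁻ z, ‖f z‖ₑ ^ 2 ∂(dis hm μ x)) * C ∂μ := by
        refine lintegral_mono_ae ?_
        filter_upwards [hC] with x hx
        gcongr
    _ = (∫⁻ x, ∫⁻ z, ‖f z‖ₑ ^ 2 ∂(dis hm μ x) ∂μ) * C := by
        rw [lintegral_mul_const _ ((measurable_lint hm μ hf2).mono hm le_rfl)]
    _ = C * ∫⁻ x, ‖f x‖ₑ ^ 2 ∂μ := by
        have h := lint_pull hm μ (w := fun _ => 1) measurable_const hf2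
        simp only [one_mul] at h
        rw [← h, mul_comm]

lemma row_le {k : α × α → ℂ} {c : ℝ} (hc : 0 ≤ c) (hk : ∀ p, ‖k p‖ ≤ c) (x : α) :
    row hm μ k x ≤ ENNReal.ofReal (c ^ 2) := by
  calc row hm μ k x ≤ ∫⁻ _, ENNReal.ofReal (c ^ 2) ∂(dis hm μ x) := by
        refine lintegral_mono fun z => ?_
        rw [ENNReal.ofReal_pow hc, ← ofReal_norm]
        gcongr
        exact hk _
    _ = _ := by simp

lemma row_row_le {k : α × α → ℂ} {c : ℝ} (hc : 0 ≤ c) (hk : ∀ p, ‖k p‖ ≤ c) :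
    ∀ᵐ x ∂μ, ∫⁻ z, row hm μ k z ∂(dis hm μ x) ≤ ENNReal.ofReal (c ^ 2) := by
  refine ae_of_all _ fun x => ?_
  calc ∫⁻ z, row hm μ k z ∂(dis hm μ x) ≤ ∫⁻ _, ENNReal.ofReal (c ^ 2) ∂(dis hm μ x) :=
        lintegral_mono fun z => row_le hm μ hc hk z
    _ = _ := by simp

omit [StandardBorelSpace α] in
lemma bdd_nonneg {k : α × α → ℂ} (hk : Bdd k) : ∃ c : ℝ, 0 ≤ c ∧ ∀ p, ‖k p‖ ≤ c := by
  obtain ⟨_, C, hC⟩ := hk
  exact ⟨|C|, abs_nonneg _, fun p => (hC p).trans (le_abs_self _)⟩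

lemma memLp_opFun {k : α × α → ℂ} (hk : Bdd k) (f : Lp ℂ 2 μ) :
    MemLp (opFun hm μ k f) 2 μ := by
  obtain ⟨c, hc, hkc⟩ := bdd_nonneg hk
  have hf := Lp.stronglyMeasurable f
  refine memLp_of_lint (sm_opFun hm μ hk.1 hf).aestronglyMeasurable ?_
  refine lt_of_le_of_lt (opFun_bound hm μ hk.1 (row_row_le hm μ hc hkc) hf) ?_
  refine ENNReal.mul_lt_top ENNReal.ofReal_lt_top ?_
  rw [← sq_enorm]
  exact ENNReal.pow_lt_top enorm_lt_top

lemma integrable_kf {k : α × α → ℂ} (hk : Bdd k) {f : α → ℂ} (hf : Integrable f μ) :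
    Integrable (fun p : α × α => k p * f p.2) (relSq hm μ) := by
  obtain ⟨hkm, C, hC⟩ := hk
  have h : Integrable (fun p : α × α => f p.2) (relSq hm μ) :=
    (mp_relSq_snd hm μ).integrable_comp_of_integrable hf
  exact h.bdd_mul hkm.aestronglyMeasurable (ae_of_all _ hC)

lemma integrable_fib {k : α × α → ℂ} (hk : Bdd k) {f : α → ℂ} (hf : Integrable f μ) :
    ∀ᵐ x ∂μ, Integrable (fun z => k (x, z) * f z) (dis hm μ x) := by
  have h := integrable_kf hm μ hk hf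
  unfold relSq at h
  exact ((Measure.integrable_compProd_iff h.1).1 h).1

lemma opFun_add {k : α × α → ℂ} (hk : Bdd k) (f g : Lp ℂ 2 μ) :
    opFun hm μ k (f + g : Lp ℂ 2 μ) =ᵐ[μ] fun x => opFun hm μ k f x + opFun hm μ k g x := by
  have hf : Integrable f μ := (Lp.memLp f).integrable (by norm_num)
  have hg : Integrable g μ := (Lp.memLp g).integrable (by norm_num)
  filter_upwards [ae_dis_of_ae hm μ (Lp.coeFn_add f g), integrable_fib hm μ hk hf,
    integrable_fib hm μ hk hg] with x h1 h2 h3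
  unfold opFun
  rw [← integral_add h2 h3]
  refine integral_congr_ae ?_
  filter_upwards [h1] with z hz
  rw [hz, Pi.add_apply]; ring

lemma opFun_smul {k : α × α → ℂ} (c : ℂ) (f : Lp ℂ 2 μ) :
    opFun hm μ k (c • f : Lp ℂ 2 μ) =ᵐ[μ] fun x => c * opFun hm μ k f x := by
  filter_upwards [ae_dis_of_ae hm μ (Lp.coeFn_smul c f)] with x h1
  unfold opFun
  rw [← integral_const_mul]
  refine integral_congr_ae ?_
  filter_upwards [h1] with z hz
  rw [hz, Pi.smul_apply, smul_eq_mul]; ring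

/-- The operator with kernel `k`. -/
noncomputable def Op (k : α × α → ℂ) (hk : Bdd k) : Lp ℂ 2 μ →L[ℂ] Lp ℂ 2 μ :=
  LinearMap.mkContinuous
    { toFun := fun f => (memLp_opFun hm μ hk f).toLp _
      map_add' := by
        intro f g
        ext1
        filter_upwards [MemLp.coeFn_toLp (memLp_opFun hm μ hk (f + g)),
          MemLp.coeFn_toLp (memLp_opFun hm μ hk f), MemLp.coeFn_toLp (memLp_opFun hm μ hk g),
          opFun_add hm μ hk f g,
          Lp.coeFn_add ((memLp_opFun hm μ hk f).toLp _)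
            ((memLp_opFun hm μ hk g).toLp _)] with x h1 h2 h3 h4 h5
        rw [h1, h5, Pi.add_apply, h2, h3, h4]
      map_smul' := by
        intro c f
        ext1
        filter_upwards [MemLp.coeFn_toLp (memLp_opFun hm μ hk (c • f)),
          MemLp.coeFn_toLp (memLp_opFun hm μ hk f), opFun_smul hm μ (k := k) c f,
          Lp.coeFn_smul c ((memLp_opFun hm μ hk f).toLp _)] with x h1 h2 h3 h4
        rw [h1, RingHom.id_apply, h4, Pi.smul_apply, h2, h3, smul_eq_mul] }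
    (bdd_nonneg hk).choose (by
      intro f
      refine norm_le_of_lint (bdd_nonneg hk).choose_spec.1 ?_
      have h1 := opFun_bound hm μ hk.1 (row_row_le hm μ (bdd_nonneg hk).choose_spec.1
        (bdd_nonneg hk).choose_spec.2) (Lp.stronglyMeasurable f)
      refine le_trans (le_of_eq ?_) h1
      refine lintegral_congr_ae ?_
      filter_upwards [MemLp.coeFn_toLp (memLp_opFun hm μ hk f)] with x hx
      show ‖((memLp_opFun hm μ hk f).toLp _ : α → ℂ) x‖ₑ ^ 2 = _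
      rw [hx])

lemma Op_coe {k : α × α → ℂ} (hk : Bdd k) (f : Lp ℂ 2 μ) :
    Op hm μ k hk f =ᵐ[μ] opFun hm μ k f :=
  MemLp.coeFn_toLp (memLp_opFun hm μ hk f)

lemma Op_lint {k : α × α → ℂ} (hk : Bdd k) (f : Lp ℂ 2 μ) :
    ∫⁻ x, ‖Op hm μ k hk f x‖ₑ ^ 2 ∂μ = ∫⁻ x, ‖opFun hm μ k f x‖ₑ ^ 2 ∂μ := by
  refine lintegral_congr_ae ?_
  filter_upwards [Op_coe hm μ hk f] with x hx
  rw [hx]

/-- Norm bound. -/
lemma Op_norm {k : α × α → ℂ} (hk : Bdd k) {c : ℝ} (hc : 0 ≤ c)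
    (h : ∀ᵐ x ∂μ, ∫⁻ z, row hm μ k z ∂(dis hm μ x) ≤ ENNReal.ofReal (c ^ 2)) :
    ‖Op hm μ k hk‖ ≤ c := by
  refine ContinuousLinearMap.opNorm_le_bound _ hc fun f => norm_le_of_lint hc ?_
  rw [Op_lint]
  exact opFun_bound hm μ hk.1 h (Lp.stronglyMeasurable f)

/-- The inner product formula. -/
lemma Op_inner {k : α × α → ℂ} (hk : Bdd k) (h f : Lp ℂ 2 μ) :
    ⟪h, Op hm μ k hk f⟫_ℂ = ∫ p, conj (h p.1) * (k p * f p.2) ∂(relSq hm μ) := by
  rw [L2.inner_def]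
  have h1 : MemLp (fun p : α × α => h p.1) 2 (relSq hm μ) :=
    (Lp.memLp h).comp_measurePreserving (mp_relSq_fst hm μ)
  have h2 : MemLp (fun p : α × α => f p.2) 2 (relSq hm μ) :=
    (Lp.memLp f).comp_measurePreserving (mp_relSq_snd hm μ)
  have h3 : MemLp (fun p : α × α => k p * f p.2) 2 (relSq hm μ) := memLp_bmul hk h2
  have h4 : MemLp (fun p : α × α => conj (h p.1)) 2 (relSq hm μ) := by
    refine h1.of_le (Complex.continuous_conj.comp_aestronglyMeasurable h1.1) (ae_of_all _ ?_)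
    intro p; simp
  have hint : Integrable (fun p : α × α => conj (h p.1) * (k p * f p.2)) (relSq hm μ) :=
    h4.integrable_mul h3
  unfold relSq at hint ⊢
  rw [Measure.integral_compProd hint]
  refine integral_congr_ae ?_
  filter_upwards [Op_coe hm μ hk f] with x hx
  rw [hx, integral_const_mul, RCLike.inner_apply, mul_comm]
  rfl

lemma Op_congr {k k' : α × α → ℂ} (hk : Bdd k) (hk' : Bdd k')
    (h : ∀ᵐ p ∂(relSq hm μ), k p = k' p) : Op hm μ k hk = Op hm μ k' hk' := by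
  refine ContinuousLinearMap.ext fun f => ext_inner_left ℂ fun g => ?_
  rw [Op_inner, Op_inner]
  refine integral_congr_ae ?_
  filter_upwards [h] with p hp
  rw [hp]

lemma Op_sub {k k' : α × α → ℂ} (hk : Bdd k) (hk' : Bdd k') :
    Op hm μ k hk - Op hm μ k' hk' = Op hm μ (fun p => k p - k' p) (hk.sub hk') := by
  refine ContinuousLinearMap.ext fun f => ?_
  have hf : Integrable f μ := (Lp.memLp f).integrable (by norm_num)
  ext1
  filter_upwards [Lp.coeFn_sub (Op hm μ k hk f) (Op hm μ k' hk' f), Op_coe hm μ hk f,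
    Op_coe hm μ hk' f, Op_coe hm μ (hk.sub hk') f, integrable_fib hm μ hk hf,
    integrable_fib hm μ hk' hf] with x h1 h2 h3 h4 h5 h6
  show (Op hm μ k hk f - Op hm μ k' hk' f : Lp ℂ 2 μ) x = _
  rw [h1, Pi.sub_apply, h2, h3, h4]
  unfold opFun
  rw [← integral_sub h5 h6]
  congr 1
  funext z; ring

lemma Op_selfAdjoint {k : α × α → ℂ} (hk : Bdd k)
    (h : ∀ᵐ p ∂(relSq hm μ), k (p.2, p.1) = conj (k p)) : IsSelfAdjoint (Op hm μ k hk) := by
  rw [ContinuousLinearMap.isSelfAdjoint_iff_isSymmetric]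
  intro f g
  show ⟪Op hm μ k hk f, g⟫_ℂ = ⟪f, Op hm μ k hk g⟫_ℂ
  rw [← inner_conj_symm, Op_inner, Op_inner, ← integral_conj]
  rw [← (mp_relSq_swap hm μ).integral_comp' (f := MeasurableEquiv.prodComm)]
  refine integral_congr_ae ?_
  filter_upwards [h] with p hp
  simp only [MeasurableEquiv.prodComm, MeasurableEquiv.coe_mk, Equiv.coe_prodComm, Prod.swap]
  rw [hp]
  simp only [map_mul, Complex.conj_conj]
  ring

/-- Commutation with multiplication by `m`-measurable functions. -/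
lemma Op_mulOp {k : α × α → ℂ} (hk : Bdd k) {b : α → ℂ} (hb : Bdd b) (hbm : Measurable[m] b) :
    Commute (Op hm μ k hk) (mulOp μ b hb) := by
  refine ContinuousLinearMap.ext fun f => ?_
  show Op hm μ k hk (mulOp μ b hb f) = mulOp μ b hb (Op hm μ k hk f)
  ext1
  filter_upwards [Op_coe hm μ hk (mulOp μ b hb f), mulOp_coe b hb (Op hm μ k hk f),
    Op_coe hm μ hk f, ae_dis_of_ae hm μ (mulOp_coe b hb f),
    ae_dis_eq_of_meas hm μ hbm] with x h1 h2 h3 h4 h5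
  rw [h1, h2, h3]
  unfold opFun
  rw [← integral_const_mul]
  refine integral_congr_ae ?_
  filter_upwards [h4, h5] with z hz1 hz2
  rw [hz1, hz2]; ring

/-- Commutation with weighted compositions. -/
lemma Op_comp {k : α × α → ℂ} (hk : Bdd k) {c : α → ℂ} (hc : Bdd c) (τ : α ≃ᵐ α)
    (hτ : MeasurePreserving τ μ μ)
    (hττ : MeasurePreserving (Prod.map τ τ) (relSq hm μ) (relSq hm μ))
    (h : ∀ᵐ p ∂(relSq hm μ), c p.1 * k (τ p.1, τ p.2) = k p * c p.2) :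
    Commute (Op hm μ k hk)
      (mulOp μ c hc * (Lp.compMeasurePreservingₗᵢ ℂ τ hτ).toContinuousLinearMap) := by
  set U : Lp ℂ 2 μ →L[ℂ] Lp ℂ 2 μ := (Lp.compMeasurePreservingₗᵢ ℂ τ hτ).toContinuousLinearMap
    with hU
  have hUc : ∀ f : Lp ℂ 2 μ, U f =ᵐ[μ] fun x => f (τ x) := fun f =>
    Lp.coeFn_compMeasurePreserving f hτ
  refine ContinuousLinearMap.ext fun f => ext_inner_left ℂ fun g => ?_
  show ⟪g, Op hm μ k hk (mulOp μ c hc (U f))⟫_ℂ = ⟪g, mulOp μ c hc (U (Op hm μ k hk f))⟫_ℂ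
  -- the adjoint of the weighted composition
  have hτs : MeasurePreserving τ.symm μ μ := hτ.symm τ
  have hcs : Bdd (fun x => conj (c (τ.symm x))) := (hc.comp τ.symm.measurable).conj
  have hg1 : MemLp (fun x => conj (c (τ.symm x)) * g (τ.symm x)) 2 μ :=
    memLp_bmul hcs ((Lp.memLp g).comp_measurePreserving hτs)
  set g1 : Lp ℂ 2 μ := hg1.toLp _ with hg1def
  have hg1c : g1 =ᵐ[μ] fun x => conj (c (τ.symm x)) * g (τ.symm x) := MemLp.coeFn_toLp hg1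
  have e1 : ⟪g, mulOp μ c hc (U (Op hm μ k hk f))⟫_ℂ = ⟪g1, Op hm μ k hk f⟫_ℂ := by
    rw [L2.inner_def, L2.inner_def]
    rw [← hτ.integral_comp' (g := fun x => ⟪g1 x, Op hm μ k hk f x⟫_ℂ)]
    refine integral_congr_ae ?_
    filter_upwards [mulOp_coe c hc (U (Op hm μ k hk f)), hUc (Op hm μ k hk f),
      hτ.quasiMeasurePreserving.ae hg1c] with x h1 h2 h3
    rw [h1, h2, h3, RCLike.inner_apply, RCLike.inner_apply]
    simp only [MeasurableEquiv.symm_apply_apply, map_mul]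
    rw [RingHomCompTriple.comp_apply]
    simp only [RingHom.id_apply]
    ring
  rw [e1, Op_inner, Op_inner]
  have hττ' : MeasurePreserving (MeasurableEquiv.prodCongr τ τ) (relSq hm μ) (relSq hm μ) := hττ
  rw [← hττ'.integral_comp' (g := fun p : α × α => conj (g1 p.1) * (k p * f p.2))]
  have h5 : ∀ᵐ p ∂(relSq hm μ), g1 (τ p.1) = conj (c p.1) * g p.1 := by
    have h6 : ∀ᵐ x ∂μ, g1 (τ x) = conj (c x) * g x := by
      filter_upwards [hτ.quasiMeasurePreserving.ae hg1c] with x hx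
      rw [hx]; simp
    exact (mp_relSq_fst hm μ).quasiMeasurePreserving.ae h6
  have h7 : ∀ᵐ p ∂(relSq hm μ), (mulOp μ c hc (U f)) p.2 = c p.2 * f (τ p.2) := by
    have h8 : ∀ᵐ x ∂μ, (mulOp μ c hc (U f)) x = c x * f (τ x) := by
      filter_upwards [mulOp_coe c hc (U f), hUc f] with x h1 h2
      rw [h1, h2]
    exact (mp_relSq_snd hm μ).quasiMeasurePreserving.ae h8
  refine integral_congr_ae ?_
  filter_upwards [h, h5, h7] with p hp1 hp2 hp3
  have e2 : (MeasurableEquiv.prodCongr τ τ) p = (τ p.1, τ p.2) := rfl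
  rw [hp3, e2]
  simp only
  rw [hp2]
  simp only [map_mul, Complex.conj_conj]
  linear_combination (-(conj (g p.1) * f (τ p.2))) * hp1

end Ker

end MPd26.HK.LineM
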