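import Pool.Agent.Lib.MP_d26cd8_an.HK.LineA
import Pool.Agent.Lib.MP_d26cd8_an.HK.LineB

/-!
# LINE, part C: invariance of the square, the projection onto `L²(N) φ`
-/

set_option autoImplicit false

open MeasureTheory ProbabilityTheory Filter Topology
open scoped ComplexConjugate ENNReal InnerProductSpace

namespace MPd26.HK.LineM

/-! ### Invariance of `relSq` under `S × S` -/

section Inv
variable {α : Type} [mα : MeasurableSpace α] (X : Sys α) (N : X.Factor)

lemma meas_S : @Measurable α α N.σ N.σ X.S := fun s hs => N.inv s hs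

lemma meas_Ssymm : @Measurable α α N.σ N.σ X.S.symm := fun s hs => N.inv' s hs

/-- `E(f∘S|N) = E(f|N)∘S`. -/
lemma condExp_comp_S {f : α → ℂ} (hf : Integrable f X.μ) :
    X.μ[f ∘ X.S | N.σ] =ᵐ[X.μ] (X.μ[f | N.σ]) ∘ X.S := by
  symm
  have hS := X.mp
  have hSs : MeasurePreserving X.S.symm X.μ X.μ := X.mp.symm X.S
  have hf' : Integrable (f ∘ X.S) X.μ := hS.integrable_comp_of_integrable hf
  have hc : Integrable ((X.μ[f | N.σ]) ∘ X.S) X.μ :=
    hS.integrable_comp_of_integrable integrable_condExp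
  refine ae_eq_condExp_of_forall_setIntegral_eq N.le hf' (fun s _ _ => hc.integrableOn) ?_ ?_
  · intro s hs _
    have hs' : MeasurableSet s := N.le _ hs
    have hD : MeasurableSet[N.σ] (X.S.symm ⁻¹' s) := N.inv' s hs
    have key : ∀ g : α → ℂ, ∫ x in s, (g ∘ X.S) x ∂X.μ = ∫ x in X.S.symm ⁻¹' s, g x ∂X.μ := by
      intro g
      have h1 := hS.setIntegral_preimage_emb X.S.measurableEmbedding g (X.S.symm ⁻¹' s)
      have h2 : X.S ⁻¹' (X.S.symm ⁻¹' s) = s := by
        ext x; simp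
      rw [h2] at h1
      exact h1
    rw [key, key, setIntegral_condExp N.le hf hD]
  · refine StronglyMeasurable.aestronglyMeasurable ?_
    exact stronglyMeasurable_condExp.comp_measurable (meas_S X N)

variable [StandardBorelSpace α]

lemma mp_relSq_S : MeasurePreserving (Prod.map X.S X.S) (relSq N.le X.μ) (relSq N.le X.μ) := by
  refine ⟨X.S.measurable.prodMap X.S.measurable, ?_⟩
  have : IsFiniteMeasure (relSq N.le X.μ) := inferInstance
  refine Measure.ext_prod fun {A B} hA hB => ?_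
  rw [Measure.map_apply (X.S.measurable.prodMap X.S.measurable) (hA.prod hB)]
  have h1 : Prod.map X.S X.S ⁻¹' (A ×ˢ B) = (X.S ⁻¹' A) ×ˢ (X.S ⁻¹' B) := by
    ext p; simp
  rw [h1]
  have hA' : MeasurableSet (X.S ⁻¹' A) := X.S.measurable hA
  have hB' : MeasurableSet (X.S ⁻¹' B) := X.S.measurable hB
  have hi : ∀ {A : Set α}, MeasurableSet A → Integrable (A.indicator fun _ => (1 : ℂ)) X.μ :=
    fun hA => (integrable_const (1 : ℂ)).indicator hA
  have hcomp : ∀ A : Set α, ((X.S ⁻¹' A).indicator fun _ => (1 : ℂ))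
      = (A.indicator fun _ => (1 : ℂ)) ∘ X.S := by
    intro A; rfl
  have h2 : (((relSq N.le X.μ).real ((X.S ⁻¹' A) ×ˢ (X.S ⁻¹' B)) : ℝ) : ℂ)
      = (((relSq N.le X.μ).real (A ×ˢ B) : ℝ) : ℂ) := by
    rw [relSq_real_prod N.le X.μ hA' hB', relSq_real_prod N.le X.μ hA hB, hcomp A, hcomp B]
    have e := X.mp.integral_comp' (g := fun x => (X.μ[A.indicator (fun _ => (1 : ℂ)) | N.σ]) x *
      (X.μ[B.indicator (fun _ => (1 : ℂ)) | N.σ]) x)
    rw [← e]
    refine integral_congr_ae ?_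
    filter_upwards [condExp_comp_S X N (hi hA), condExp_comp_S X N (hi hB)] with x h3 h4
    rw [h3, h4]
    rfl
  have h3 : (relSq N.le X.μ).real ((X.S ⁻¹' A) ×ˢ (X.S ⁻¹' B))
      = (relSq N.le X.μ).real (A ×ˢ B) := by exact_mod_cast h2
  exact (measureReal_eq_measureReal_iff).1 h3

/-- The iterates of `S` as measurable equivalences. -/
noncomputable def iterE : ℕ → (α ≃ᵐ α)
  | 0 => MeasurableEquiv.refl α
  | n + 1 => X.S.trans (iterE n)

omit [StandardBorelSpace α] in
lemma iterE_coe (n : ℕ) : ⇑(iterE X n) = X.S^[n] := by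
  induction n with
  | zero => rfl
  | succ n ih =>
    funext x
    show iterE X n (X.S x) = X.S^[n + 1] x
    rw [ih]
    rfl

omit [StandardBorelSpace α] in
lemma mp_iterE (n : ℕ) : MeasurePreserving (iterE X n) X.μ X.μ := by
  rw [iterE_coe]; exact X.mp.iterate n

lemma mp_relSq_iterE (n : ℕ) :
    MeasurePreserving (Prod.map (iterE X n) (iterE X n)) (relSq N.le X.μ) (relSq N.le X.μ) := by
  rw [iterE_coe]
  have h := (mp_relSq_S X N).iterate n
  rw [Prod.map_iterate] at h
  exact h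

end Inv

/-! ### The projection onto `L²(N) φ`, restricted to `B` -/

section P
variable {α : Type} {m : MeasurableSpace α} [mα : MeasurableSpace α] [StandardBorelSpace α]
  (hm : m ≤ mα) (μ : Measure α) [IsProbabilityMeasure μ]

open Classical in
/-- Restriction of a kernel to `B`. -/
noncomputable def resK (B : Set α) (k : α × α → ℂ) (p : α × α) : ℂ :=
  if p.1 ∈ B then k p else 0

omit [StandardBorelSpace α] in
lemma bdd_resK {B : Set α} (hB : MeasurableSet B) {k : α × α → ℂ} (hk : Bdd k) :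
    Bdd (resK B k) := by
  obtain ⟨hkm, C, hC⟩ := hk
  refine ⟨?_, |C|, fun p => ?_⟩
  · exact Measurable.ite (measurable_fst hB) hkm measurable_const
  · unfold resK
    split_ifs
    · exact (hC p).trans (le_abs_self C)
    · simp

lemma ae_mem_iff {B : Set α} (hB : MeasurableSet[m] B) :
    ∀ᵐ p ∂(relSq hm μ), (p.1 ∈ B ↔ p.2 ∈ B) := by
  have hmeas : MeasurableSet {p : α × α | p.1 ∈ B ↔ p.2 ∈ B} :=
    (measurable_fst (hm _ hB)).iff (measurable_snd (hm _ hB))
  rw [ae_relSq_iff hm μ hmeas]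
  filter_upwards [dis_apply_of_meas hm μ hB] with x hx
  filter_upwards [hx] with z hz
  exact hz.symm

/-- `φ ⊗ conj φ`. -/
noncomputable def kφ (φ : α → ℂ) (p : α × α) : ℂ := φ p.1 * conj (φ p.2)

omit [StandardBorelSpace α] in
lemma bdd_kφ {φ : α → ℂ} (hφ : IsPhase φ) : Bdd (kφ φ) :=
  (hφ.bdd.comp measurable_fst).mul (hφ.bdd.comp measurable_snd).conj

open Classical in
/-- The coefficient of `P f`. -/
noncomputable def coef (B : Set α) (φ : α → ℂ) (f : α → ℂ) (x : α) : ℂ :=
  if x ∈ B then ∫ z, conj (φ z) * f z ∂(dis hm μ x) else 0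

lemma measurable_coef {B : Set α} (hB : MeasurableSet[m] B) {φ f : α → ℂ} (hφ : IsPhase φ)
    (hf : StronglyMeasurable f) : Measurable[m] (coef hm μ B φ f) := by
  have h1 : StronglyMeasurable fun z => conj (φ z) * f z :=
    (hφ.conj.1.stronglyMeasurable).mul hf
  have h2 : StronglyMeasurable[m] fun x => ∫ z, conj (φ z) * f z ∂(condExpKernel μ m x) :=
    StronglyMeasurable.integral_kernel (κ := condExpKernel μ m) h1
  refine Measurable.ite hB ?_ measurable_const
  exact h2.measurable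

lemma P_coe {B : Set α} (hB : MeasurableSet B) {φ : α → ℂ} (hφ : IsPhase φ) (f : Lp ℂ 2 μ) :
    Op hm μ (resK B (kφ φ)) (bdd_resK hB (bdd_kφ hφ)) f
      =ᵐ[μ] fun x => coef hm μ B φ f x * φ x := by
  filter_upwards [Op_coe hm μ (bdd_resK hB (bdd_kφ hφ)) f] with x hx
  rw [hx]
  unfold opFun coef resK kφ
  by_cases h : x ∈ B
  · simp only [h, if_true]
    rw [← integral_mul_const]
    congr 1; funext z; ring
  · simp [h]

open Classical in
lemma coef_mul_phi {B : Set α} (hB : MeasurableSet[m] B) {φ : α → ℂ} (hφ : IsPhase φ)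
    {b : α → ℂ} (hb : Measurable[m] b) {f : α → ℂ} (hf : f =ᵐ[μ] fun x => b x * φ x) :
    ∀ᵐ x ∂μ, coef hm μ B φ f x = if x ∈ B then b x else 0 := by
  classical
  filter_upwards [ae_dis_of_ae hm μ hf, ae_dis_eq_of_meas hm μ hb] with x h1 h2
  unfold coef
  by_cases h : x ∈ B
  · simp only [h, if_true]
    have : ∫ z, conj (φ z) * f z ∂(dis hm μ x) = ∫ _, b x ∂(dis hm μ x) := by
      refine integral_congr_ae ?_
      filter_upwards [h1, h2] with z hz1 hz2
      rw [hz1, hz2]
      have := hφ.conj_mul z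
      linear_combination (b x) * this
    rw [this]
    simp
  · simp [h]

lemma P_proj {B : Set α} (hB : MeasurableSet[m] B) {φ : α → ℂ} (hφ : IsPhase φ) :
    Op hm μ (resK B (kφ φ)) (bdd_resK (hm _ hB) (bdd_kφ hφ)) *
      Op hm μ (resK B (kφ φ)) (bdd_resK (hm _ hB) (bdd_kφ hφ))
      = Op hm μ (resK B (kφ φ)) (bdd_resK (hm _ hB) (bdd_kφ hφ)) := by
  classical
  refine ContinuousLinearMap.ext fun f => ?_
  rw [mul_apply_eq_comp]
  ext1
  have h1 := P_coe hm μ (hm _ hB) hφ f
  have h2 := P_coe hm μ (hm _ hB) hφ (Op hm μ (resK B (kφ φ)) (bdd_resK (hm _ hB) (bdd_kφ hφ)) f)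
  have h3 := coef_mul_phi hm μ hB hφ (measurable_coef hm μ hB hφ (Lp.stronglyMeasurable f)) h1
  filter_upwards [h1, h2, h3] with x e1 e2 e3
  rw [e2, e1, e3]
  unfold coef
  split_ifs <;> simp

lemma P_selfAdjoint {B : Set α} (hB : MeasurableSet[m] B) {φ : α → ℂ} (hφ : IsPhase φ) :
    IsSelfAdjoint (Op hm μ (resK B (kφ φ)) (bdd_resK (hm _ hB) (bdd_kφ hφ))) := by
  refine Op_selfAdjoint hm μ _ ?_
  filter_upwards [ae_mem_iff hm μ hB] with p hp
  unfold resK kφ
  by_cases h : p.1 ∈ B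
  · rw [if_pos h, if_pos (hp.1 h)]
    simp [mul_comm]
  · rw [if_neg h, if_neg (fun h' => h (hp.2 h'))]
    simp

end P

end MPd26.HK.LineM
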