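import Pool.Agent.Lib.MP_d26cd8_an.HK.Flow

/-!
# Products of nil-maps; the factor of a factor map
-/

set_option autoImplicit false

open MeasureTheory ProbabilityTheory Filter Topology
open scoped ComplexConjugate ENNReal

namespace MPd26.HK

open MPd26.Nil

/-- Two nil-maps of a flow factor through one nil-map. -/
def SpecProdNilPair : Prop :=
  ∀ (α : Type) [MeasurableSpace α] (Fl : Flow α) (m₁ m₂ : ℕ) (π₁ : α → NM m₁) (π₂ : α → NM m₂),
    Fl.NilMap m₁ π₁ → Fl.NilMap m₂ π₂ →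
    ∃ (m : ℕ) (π : α → NM m) (p₁ : NM m → NM m₁) (p₂ : NM m → NM m₂),
      Fl.NilMap m π ∧ Continuous p₁ ∧ Continuous p₂ ∧
      (∀ x, p₁ (π x) = π₁ x) ∧ (∀ x, p₂ (π x) = π₂ x)

section Fac
variable {α β : Type} [mα : MeasurableSpace α] [MeasurableSpace β] {X : Sys α} {Y : Sys β}
  {p : α → β}

lemma FMap.mp (h : FMap X Y p) : MeasurePreserving p X.μ Y.μ := ⟨h.meas, h.law⟩

lemma FMap.eqv' (h : FMap X Y p) : ∀ᵐ x ∂X.μ, p (X.S.symm x) = Y.S.symm (p x) := by
  have h1 : MeasurePreserving X.S.symm X.μ X.μ := X.mp.symm X.S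
  filter_upwards [h1.quasiMeasurePreserving.ae h.eqv] with x hx
  rw [MeasurableEquiv.apply_symm_apply] at hx
  rw [hx, MeasurableEquiv.symm_apply_apply]

/-- The factor `σ(p)` (completed). -/
def FMap.fac (h : FMap X Y p) : X.Factor where
  σ :=
    { MeasurableSet' := fun A => MeasurableSet A ∧ ∃ B, MeasurableSet B ∧ A =ᵐ[X.μ] p ⁻¹' B
      measurableSet_empty := ⟨MeasurableSet.empty, ∅, MeasurableSet.empty, by simp⟩
      measurableSet_compl := by
        rintro A ⟨hA, B, hB, hAB⟩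
        exact ⟨hA.compl, Bᶜ, hB.compl, hAB.compl⟩
      measurableSet_iUnion := by
        intro A hA
        choose hm B hB hAB using hA
        refine ⟨MeasurableSet.iUnion hm, ⋃ i, B i, MeasurableSet.iUnion hB, ?_⟩
        simp only [Set.preimage_iUnion]
        exact Filter.EventuallyEq.countable_iUnion hAB }
  le := fun A hA => hA.1
  inv := by
    rintro A ⟨hA, B, hB, hAB⟩
    refine ⟨X.S.measurable hA, Y.S ⁻¹' B, Y.S.measurable hB, ?_⟩
    have h1 : X.S ⁻¹' A =ᵐ[X.μ] X.S ⁻¹' (p ⁻¹' B) :=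
      X.mp.quasiMeasurePreserving.preimage_ae_eq hAB
    refine h1.trans ?_
    filter_upwards [h.eqv] with x hx
    show (p (X.S x) ∈ B) = (Y.S (p x) ∈ B)
    rw [hx]
  inv' := by
    rintro A ⟨hA, B, hB, hAB⟩
    refine ⟨X.S.symm.measurable hA, Y.S.symm ⁻¹' B, Y.S.symm.measurable hB, ?_⟩
    have h1 : X.S.symm ⁻¹' A =ᵐ[X.μ] X.S.symm ⁻¹' (p ⁻¹' B) :=
      (X.mp.symm X.S).quasiMeasurePreserving.preimage_ae_eq hAB
    refine h1.trans ?_
    filter_upwards [h.eqv'] with x hx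
    show (p (X.S.symm x) ∈ B) = (Y.S.symm (p x) ∈ B)
    rw [hx]

lemma FMap.fac_measurable (h : FMap X Y p) : Measurable[h.fac.σ] p := fun B hB =>
  ⟨h.meas hB, B, hB, ae_eq_refl _⟩

end Fac

end MPd26.HK
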