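import Pool.Agent.Lib.MP_d26cd8_an.HK.Spec3
import Pool.Agent.Lib.MP_d26cd8_an.HK.Ph
import Pool.Agent.Lib.MP_d26cd8_an.HK.Approx
import Pool.Agent.Lib.MP_d26cd8_an.HK.A_Zfac

/-!
# MP_d26cd8_an, block D, section 3: module PHASES (helper81)

Reduction of section 3 to systems of order `k + 1`.
-/

set_option autoImplicit false

open MeasureTheory ProbabilityTheory Filter Topology
open scoped ComplexConjugate ENNReal

namespace MPd26.HK.P3
namespace PhasesM

/-- truncation of a complex function -/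
noncomputable def tr {β : Type} (C : ℝ) (K : β → ℂ) (y : β) : ℂ := if ‖K y‖ ≤ C then K y else 0

lemma bdd_tr {β : Type} [MeasurableSpace β] {C : ℝ} (hC : 0 ≤ C) {K : β → ℂ} (hK : Measurable K) :
    Bdd (tr C K) := by
  refine ⟨Measurable.ite (measurableSet_le hK.norm measurable_const) hK measurable_const, C,
    fun y => ?_⟩
  unfold tr
  split_ifs with h
  · exact h
  · simpa using hC

end PhasesM

open PhasesM in
theorem specPhases (hOrd : SpecPhasesOrd) (hReal : SpecReal) (hZfac : SpecZfac) (hFac : SpecFac) :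
    SpecPhases := by
  intro α _ _ X hX k f hf hfm η hη
  obtain ⟨β, _, _, Y, p, hp, hpm, hpe⟩ := hReal α X (X.Z (k + 1))
  have hmp : MeasurePreserving p X.μ Y.μ := ⟨hp.meas, hp.law⟩
  have hY : Y.Erg := ZfacM.erg hX hp
  have hO : Ord Y k := fun B hB => (hZfac α β X Y p hX hp (k + 1) B hB).2 (hpm B hB)
  obtain ⟨K, hK, hfK⟩ := exists_fac (m' := (X.Z (k + 1)).σ) (μ := X.μ) (q := p) hpe hfm
  obtain ⟨C, hC⟩ := hf.2
  have hC0 : 0 ≤ C := by
    obtain ⟨x⟩ : Nonempty α := by
      by_contra h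
      rw [not_nonempty_iff] at h
      have := measure_univ (μ := X.μ)
      rw [Set.univ_eq_empty_iff.2 h, measure_empty] at this
      exact zero_ne_one this
    exact (norm_nonneg _).trans (hC x)
  have hb := bdd_tr hC0 hK
  have hfe : f =ᵐ[X.μ] fun x => tr C K (p x) := by
    filter_upwards [hfK] with x hx
    unfold tr
    rw [← hx, if_pos (hC x)]
  obtain ⟨r, b, φ, h1, h2⟩ := hOrd β Y hY k hO (tr C K) hb η hη
  have hpk : Measurable[(X.Z k).σ, (Y.Z k).σ] p := fun A hA =>
    (hZfac α β X Y p hX hp k A ((Y.Z k).le A hA)).1 hA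
  refine ⟨r, fun i x => b i (p x), fun i x => φ i (p x), fun i => ⟨(h1 i).1.comp hp.meas,
    (h1 i).2.1.comp hpk, (h1 i).2.2.1.comp hp.meas, ?_⟩, ?_⟩
  · have hcm : Measurable[(X.Z k).cube (k + 2), (Y.Z k).cube (k + 2)]
        (cmap p : Cube (k + 2) α → Cube (k + 2) β) :=
      @measurable_pi_lambda _ _ _ ((X.Z k).cube (k + 2)) (fun _ => (Y.Z k).σ) _ fun ε =>
        hpk.comp (@measurable_pi_apply _ _ (fun _ => (X.Z k).σ) ε)
    have h3 := PhM.aesm_comp' (h1 i).2.2.2 (hFac α β X Y p hp (k + 2)).1 hcm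
    exact h3
  · have h3 : dist2 X.μ f (fun x => ∑ i, b i (p x) * φ i (p x))
        = dist2 Y.μ (tr C K) (fun x => ∑ i, b i x * φ i x) := by
      have hm : Bdd (fun x => ∑ i, b i x * φ i x) :=
        Bdd.sum _ fun i _ => (h1 i).1.mul (h1 i).2.2.1.bdd
      rw [dist2_congr hfe (Filter.EventuallyEq.refl _ _)]
      unfold dist2
      rw [← hmp.map_eq, integral_map hp.meas.aemeasurable]
      exact ((hb.1.sub hm.1).norm.pow_const 2).aestronglyMeasurable
    rw [h3]
    exact h2

end MPd26.HK.P3
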