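import Pool.Agent.Lib.MP_d26cd8_an.HK.Spec3
import Pool.Agent.Lib.MP_d26cd8_an.HK.SymCp
import Pool.Agent.Lib.MP_d26cd8_an.HK.A_Dual
import Pool.Agent.Lib.MP_d26cd8_an.HK.P3_Compl
import Pool.Agent.Lib.MP_d26cd8_an.HK.P3_EdgeFun
import Pool.Agent.Lib.MP_d26cd8_an.HK.P3_EdgeLaw

/-!
# MP_d26cd8_an, block D section 3: module Q2 (helper78)

The measure on pairs of cubes which differ only on the edge `(v0, vi 0)`.
-/

set_option autoImplicit false

open MeasureTheory ProbabilityTheory Filter Topology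
open scoped ComplexConjugate ENNReal

namespace MPd26.HK.P3
namespace Q2M

open PhDerM SymCpM PhM

/-! ### General lemmas -/

section Gen
variable {Ω Ω' Ω'' : Type} [mΩ : MeasurableSpace Ω] [mΩ' : MeasurableSpace Ω']
  [mΩ'' : MeasurableSpace Ω'']

lemma mp_of_comp {μ : Measure Ω} {ν : Measure Ω''} {J : Ω → Ω'} {f : Ω' → Ω''}
    (hJ : Measurable J) (hf : Measurable f) (h : MeasurePreserving (f ∘ J) μ ν) :
    MeasurePreserving f (μ.map J) ν :=
  ⟨hf, by rw [Measure.map_map hf hJ]; exact h.map_eq⟩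

lemma mp_conj {μ : Measure Ω} {J : Ω → Ω'} {f : Ω' → Ω'} {f' : Ω → Ω}
    (hJ : Measurable J) (hf : Measurable f) (h : MeasurePreserving f' μ μ)
    (e : ∀ x, f (J x) = J (f' x)) : MeasurePreserving f (μ.map J) (μ.map J) := by
  refine mp_of_comp hJ hf ?_
  have h1 : f ∘ J = J ∘ f' := funext e
  rw [h1]
  exact (show MeasurePreserving J μ (μ.map J) from ⟨hJ, rfl⟩).comp h

/-- orthogonality to products of functions of two maps -/
lemma integral_zero_of_products (hZP : SpecZeroProd) {ρ : Measure Ω} [IsProbabilityMeasure ρ]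
    {p1 : Ω → Ω'} {p2 : Ω → Ω''} (h1 : Measurable p1) (h2 : Measurable p2) {a : Ω → ℂ}
    (ha : Bdd a)
    (h : ∀ (f1 : Ω' → ℂ) (f2 : Ω'' → ℂ), Bdd f1 → Bdd f2 →
      ∫ x, a x * (f1 (p1 x) * f2 (p2 x)) ∂ρ = 0) (H : Ω' × Ω'' → ℂ) (hH : Bdd H) :
    ∫ x, a x * H (p1 x, p2 x) ∂ρ = 0 := by
  set π : Ω → Ω' × Ω'' := fun x => (p1 x, p2 x) with hπ
  have hπm : Measurable π := h1.prodMk h2
  have hmle : MeasurableSpace.comap π inferInstance ≤ mΩ := hπm.comap_le
  obtain ⟨a', ha'm, ha', ha'e⟩ := DualM.version hmle ρ ha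
  obtain ⟨G, hG, haG⟩ := DualM.factor (p := π) ha'm ha'.2
  have hmpπ : MeasurePreserving π ρ (ρ.map π) := ⟨hπm, rfl⟩
  have : IsProbabilityMeasure (ρ.map π) := Measure.isProbabilityMeasure_map hπm.aemeasurable
  have key : ∀ H : Ω' × Ω'' → ℂ, Bdd H →
      ∫ x, a x * H (π x) ∂ρ = ∫ y, G y * H y ∂(ρ.map π) := by
    intro H hH
    have hHm : Measurable[MeasurableSpace.comap π inferInstance] (fun x => H (π x)) :=
      hH.1.comp (comap_measurable _)
    have e1 : ∫ x, H (π x) * a x ∂ρ =
        ∫ x, H (π x) * (ρ[a | MeasurableSpace.comap π inferInstance]) x ∂ρ :=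
      DualM.integral_pull hmle ρ (hH.comp hπm) hHm.stronglyMeasurable.aestronglyMeasurable ha
    calc ∫ x, a x * H (π x) ∂ρ = ∫ x, H (π x) * a x ∂ρ := by
          refine integral_congr_ae (ae_of_all _ fun x => mul_comm _ _)
      _ = ∫ x, H (π x) * (ρ[a | MeasurableSpace.comap π inferInstance]) x ∂ρ := e1
      _ = ∫ x, G (π x) * H (π x) ∂ρ := by
          refine integral_congr_ae ?_
          filter_upwards [ha'e] with x hx
          rw [← hx, haG x, mul_comm]
      _ = ∫ y, G y * H y ∂(ρ.map π) := by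
          rw [integral_map hπm.aemeasurable (hG.mul hH).1.aestronglyMeasurable]
  have hG0 : G =ᵐ[ρ.map π] 0 := by
    refine hZP Ω' Ω'' (ρ.map π) G (hG.integrable _) ?_
    intro f1 f2 hf1 hf2
    rw [← key _ ((hf1.comp measurable_fst).mul (hf2.comp measurable_snd))]
    exact h f1 f2 hf1 hf2
  rw [key H hH]
  calc ∫ y, G y * H y ∂(ρ.map π) = ∫ y, (0 : ℂ) ∂(ρ.map π) := by
        refine integral_congr_ae ?_
        filter_upwards [hG0] with y hy
        rw [hy]
        simp
    _ = 0 := by simp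

end Gen

section GM
variable {Ω : Type} {m : MeasurableSpace Ω} [mΩ : MeasurableSpace Ω] [StandardBorelSpace Ω]

/-- an invertible map preserving the small σ-algebra acts on the relative square -/
lemma mp_relSq (hExt : SpecExtProd) (hm : m ≤ mΩ) {μ : Measure Ω} [IsProbabilityMeasure μ]
    {g g' : Ω → Ω} (hg : MeasurePreserving g μ μ) (h1 : ∀ x, g' (g x) = x)
    (hgm : Measurable[m, m] g) (hg'm : Measurable[m, m] g') :
    MeasurePreserving (Prod.map g g) (relSq hm μ) (relSq hm μ) := by
  have hmeas : Measurable (Prod.map g g) := hg.measurable.prodMap hg.measurable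
  refine ⟨hmeas, ?_⟩
  have : IsProbabilityMeasure ((relSq hm μ).map (Prod.map g g)) :=
    Measure.isProbabilityMeasure_map hmeas.aemeasurable
  refine hExt Ω Ω _ _ ?_
  intro f1 f2 hf1 hf2
  have hb : Bdd (fun p : Ω × Ω => f1 p.1 * f2 p.2) :=
    (hf1.comp measurable_fst).mul (hf2.comp measurable_snd)
  rw [integral_map hmeas.aemeasurable hb.1.aestronglyMeasurable]
  have e1 : ∫ p, f1 (Prod.map g g p).1 * f2 (Prod.map g g p).2 ∂(relSq hm μ) =
      ∫ x, f1 (g x) * (μ[fun x => f2 (g x) | m]) x ∂μ :=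
    integral_relSq_mul hm μ (hf1.comp hg.measurable) (hf2.comp hg.measurable)
  rw [e1, integral_relSq_mul hm μ hf1 hf2]
  have e2 := condExp_comp (μ := μ) hm hg h1 hgm hg'm (hf2.integrable μ)
  calc ∫ x, f1 (g x) * (μ[fun x => f2 (g x) | m]) x ∂μ
      = ∫ x, (fun y => f1 y * (μ[f2 | m]) y) (g x) ∂μ := by
        refine integral_congr_ae ?_
        filter_upwards [e2] with x hx
        rw [← hx]
    _ = ∫ x, f1 x * (μ[f2 | m]) x ∂μ := by
        conv_rhs => rw [← hg.map_eq]
        rw [integral_map hg.measurable.aemeasurable]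
        rw [hg.map_eq]
        exact hf1.1.aestronglyMeasurable.mul integrable_condExp.aestronglyMeasurable

end GM

/-! ### coordinatewise maps and the σ-algebra of the other coordinates -/

section Coord
variable {α : Type} [mα : MeasurableSpace α] {n : ℕ}

lemma measurable_coordwise {h : Vx n → α → α} (hh : ∀ ε, Measurable (h ε)) (ε₀ : Vx n) :
    @Measurable _ _ (others α ε₀) (others α ε₀) (fun (x : Cube n α) ε => h ε (x ε)) := by
  rw [others, measurable_comap_iff]
  have h2 : (rst ε₀ ∘ (fun (x : Cube n α) ε => h ε (x ε)) : Cube n α → _)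
      = (fun (y : {η : Vx n // η ≠ ε₀} → α) (η : {η : Vx n // η ≠ ε₀}) => h η.1 (y η)) ∘ rst ε₀ := by
    funext x η
    rfl
  rw [h2]
  exact (measurable_pi_lambda _ fun (η : {η : Vx n // η ≠ ε₀}) =>
    (hh η.1).comp (measurable_pi_apply _)).comp (comap_measurable _)

lemma measurable_appOn_others {g : α → α} (hg : Measurable g) (F : Set (Vx n)) (ε₀ : Vx n) :
    @Measurable _ _ (others α ε₀) (others α ε₀) (appOn g F : Cube n α → Cube n α) := by
  classical
  have e : (appOn g F : Cube n α → Cube n α) =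
      fun (x : Cube n α) ε => (if ε ∈ F then g else id) (x ε) := by
    funext x ε
    by_cases h : ε ∈ F
    · rw [EdgeFunM.appOn_mem h, if_pos h]
    · rw [EdgeFunM.appOn_notMem h, if_neg h]; rfl
  rw [e]
  refine measurable_coordwise (h := fun ε => if ε ∈ F then g else id) (fun ε => ?_) ε₀
  by_cases h : ε ∈ F
  · simpa [h] using hg
  · simpa [h] using measurable_id

lemma measurable_cmap_others {g : α → α} (hg : Measurable g) (ε₀ : Vx n) :
    @Measurable _ _ (others α ε₀) (others α ε₀) (cmap g : Cube n α → Cube n α) :=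
  measurable_coordwise (h := fun _ => g) (fun _ => hg) ε₀

omit mα in
lemma appOn_symm {S : α ≃ α} (F : Set (Vx n)) (x : Cube n α) :
    appOn S.symm F (appOn S F x) = x := by
  funext ε
  by_cases h : ε ∈ F
  · rw [EdgeFunM.appOn_mem h, EdgeFunM.appOn_mem h, Equiv.symm_apply_apply]
  · rw [EdgeFunM.appOn_notMem h, EdgeFunM.appOn_notMem h]

omit mα in
lemma appOn_cmap (g : α → α) (F : Set (Vx n)) (x : Cube n α) :
    appOn g F (cmap g x) = cmap g (appOn g F x) := by
  funext ε
  by_cases h : ε ∈ F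
  · rw [EdgeFunM.appOn_mem h]
    show g (g (x ε)) = g (appOn g F x ε)
    rw [EdgeFunM.appOn_mem h]
  · rw [EdgeFunM.appOn_notMem h]
    show g (x ε) = g (appOn g F x ε)
    rw [EdgeFunM.appOn_notMem h]

end Coord

/-! ### maps on joins -/

section Join
variable {α : Type} {n : ℕ}

lemma join_vi0 (p : Cube n α × Cube n α) : join p (vi 0) = p.2 v0 := by
  rw [join_apply]
  have h1 : (vi 0 : Vx (n + 1)) 0 = true := by simp [vi]
  rw [if_pos h1]
  rfl

lemma symm_join (p : Cube n α × Cube n α) : symm 1 (vi 0) (join p) = join p.swap := by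
  funext ε
  have h0 : symm 1 (vi 0) (join p) ε = join p (fun i => xor (ε i) ((vi 0 : Vx (n + 1)) i)) := rfl
  rw [h0, join_apply, join_apply]
  have h1 : (fun i : Fin n => xor (ε i.succ) ((vi 0 : Vx (n + 1)) i.succ)) = fun i => ε i.succ := by
    funext i
    have : (vi 0 : Vx (n + 1)) i.succ = false := by
      unfold vi v0
      rw [Function.update_of_ne (Fin.succ_ne_zero i)]
    rw [this, Bool.xor_false]
  have h2 : xor (ε 0) ((vi 0 : Vx (n + 1)) 0) = !ε 0 := by
    simp [vi]
  simp only [h1, h2]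
  cases h : ε 0 <;> simp

lemma appOn_side0_false_join (g : α → α) (p : Cube n α × Cube n α) :
    appOn g (side 0 false) (join p) = join (cmap g p.1, p.2) := by
  funext ε
  by_cases h : ε 0 = true
  · have h1 : ε ∉ (side 0 false : Set (Vx (n + 1))) := by
      unfold side
      simp [h]
    rw [EdgeFunM.appOn_notMem h1, join_apply, join_apply, if_pos h, if_pos h]
  · have h' : ε 0 = false := by simpa using h
    have h1 : ε ∈ (side 0 false : Set (Vx (n + 1))) := h'
    rw [EdgeFunM.appOn_mem h1, join_apply, join_apply, if_neg h, if_neg h]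
    rfl

end Join

variable {α : Type} [mα : MeasurableSpace α] [StandardBorelSpace α] (X : Sys α) (k : ℕ)

/-! ### `Z_k`-measurable functions at the vertex `v0` -/

lemma simple_Z (s : @SimpleFunc α (X.Z k).σ ℂ) :
    AEStronglyMeasurable[others α v0] (fun x : Cube (k + 1) α => s (x v0)) (X.cm (k + 1)) := by
  induction s using SimpleFunc.induction with
  | const c hs =>
    rename_i A
    obtain ⟨-, B, hB, hAB⟩ := hs
    refine ⟨(rst v0 ⁻¹' B).indicator (fun _ => c), ?_, ?_⟩
    · exact stronglyMeasurable_const.indicator ⟨B, hB, rfl⟩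
    · filter_upwards [hAB] with x hx
      have hx' : (x v0 ∈ A) = (x ∈ rst v0 ⁻¹' B) := hx
      simp only [SimpleFunc.coe_piecewise, SimpleFunc.coe_const, Set.piecewise,
        Function.const_apply, Set.indicator]
      by_cases h : x v0 ∈ A
      · have h2 : x ∈ rst v0 ⁻¹' B := by rw [← hx']; exact h
        rw [if_pos h, if_pos h2]
      · have h2 : x ∉ rst v0 ⁻¹' B := by rw [← hx']; exact h
        rw [if_neg h, if_neg h2]
  | add _ ih1 ih2 =>
    simp only [SimpleFunc.coe_add, Pi.add_apply]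
    exact ih1.add ih2

lemma aesm_v0 {f : α → ℂ} (hf : Measurable[(X.Z k).σ] f) :
    AEStronglyMeasurable[others α v0] (fun x : Cube (k + 1) α => f (x v0)) (X.cm (k + 1)) := by
  have hs := hf.stronglyMeasurable
  refine ComplM.aesm_of_tendsto (f := fun n (x : Cube (k + 1) α) => hs.approx n (x v0)) ?_ ?_
  · intro n
    exact simple_Z X k (hs.approx n)
  · exact ae_of_all _ fun x => hs.tendsto_approx (x v0)

/-- the conditional expectation of `g (x v0)` on the other coordinates -/
lemma condExp_v0 (hX : X.Erg) (hCI : SpecCI) {g g' : α → ℂ} (hg : Bdd g) (hg' : Bdd g')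
    (hg'm : Measurable[(X.Z k).σ] g') (hgg' : g' =ᵐ[X.μ] X.μ[g | (X.Z k).σ]) :
    (fun x : Cube (k + 1) α => g' (x v0)) =ᵐ[X.cm (k + 1)]
      (X.cm (k + 1))[fun x : Cube (k + 1) α => g (x v0) | others α v0] := by
  have hv : Measurable (fun x : Cube (k + 1) α => x v0) := measurable_pi_apply _
  refine ae_eq_condExp_of_forall_setIntegral_eq (others_le v0) ((hg.comp hv).integrable _)
    (fun s _ _ => ((hg'.comp hv).integrable _).integrableOn) ?_ (aesm_v0 X k hg'm)
  intro s hs _
  have hs' : MeasurableSet s := others_le v0 s hs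
  have hF : Bdd (s.indicator fun _ : Cube (k + 1) α => (1 : ℂ)) :=
    ⟨measurable_const.indicator hs', 1, fun x => by by_cases h : x ∈ s <;> simp [h]⟩
  have hFm : Measurable[others α v0] (s.indicator fun _ : Cube (k + 1) α => (1 : ℂ)) :=
    measurable_const.indicator hs
  have h1 := hCI α X hX k v0 g _ hg hF hFm
  have e : ∀ f : Cube (k + 1) α → ℂ, ∫ x in s, f x ∂(X.cm (k + 1)) =
      ∫ x, f x * s.indicator (fun _ => (1 : ℂ)) x ∂(X.cm (k + 1)) := by
    intro f
    rw [← integral_indicator hs']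
    refine integral_congr_ae (Eventually.of_forall fun x => ?_)
    by_cases hx : x ∈ s <;> simp [hx]
  rw [e, e, h1]
  refine integral_congr_ae ?_
  filter_upwards [(X.mp_marg (k + 1) v0).quasiMeasurePreserving.ae_eq_comp hgg'] with x hx
  have hx' : g' (x v0) = (X.μ[g | (X.Z k).σ]) (x v0) := hx
  rw [hx']

/-! ### the measures -/

/-- pairs of `(k+1)`-cubes which differ only at `v0` -/
noncomputable def Qs : Measure (Cube (k + 1) α × Cube (k + 1) α) :=
  relSq (others_le (v0 : Vx (k + 1))) (X.cm (k + 1))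

instance : IsProbabilityMeasure (Qs X k) := by unfold Qs; infer_instance

/-- the diagonal map -/
def T2 : Cube (k + 1) α × Cube (k + 1) α → Cube (k + 1) α × Cube (k + 1) α :=
  Prod.map (cmap X.S) (cmap X.S)

/-- pairs of pairs -/
noncomputable def Q' : Measure ((Cube (k + 1) α × Cube (k + 1) α) ×
    (Cube (k + 1) α × Cube (k + 1) α)) :=
  relSq (MeasurableSpace.invariants_le (T2 X k)) (Qs X k)

instance : IsProbabilityMeasure (Q' X k) := by unfold Q'; infer_instance

/-- the rearrangement -/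
def J : (Cube (k + 1) α × Cube (k + 1) α) × (Cube (k + 1) α × Cube (k + 1) α) ≃ᵐ
    Cube (k + 2) α × Cube (k + 2) α where
  toFun p := (join (p.1.1, p.2.1), join (p.1.2, p.2.2))
  invFun q := ((lo q.1, lo q.2), (hi q.1, hi q.2))
  left_inv p := by simp
  right_inv q := by simp
  measurable_toFun := (measurable_join.comp ((measurable_fst.comp measurable_fst).prodMk
      (measurable_fst.comp measurable_snd))).prodMk
    (measurable_join.comp ((measurable_snd.comp measurable_fst).prodMk
      (measurable_snd.comp measurable_snd)))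
  measurable_invFun := ((measurable_lo.comp measurable_fst).prodMk
      (measurable_lo.comp measurable_snd)).prodMk
    ((measurable_hi.comp measurable_fst).prodMk (measurable_hi.comp measurable_snd))

omit [StandardBorelSpace α] in
lemma J_apply (p : (Cube (k + 1) α × Cube (k + 1) α) × (Cube (k + 1) α × Cube (k + 1) α)) :
    J k p = (join (p.1.1, p.2.1), join (p.1.2, p.2.2)) := rfl

/-- the measure -/
noncomputable def Q : Measure (Cube (k + 2) α × Cube (k + 2) α) := (Q' X k).map (J k)

lemma ae_Q_iff {P : Cube (k + 2) α × Cube (k + 2) α → Prop} :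
    (∀ᵐ p ∂(Q X k), P p) ↔ ∀ᵐ w ∂(Q' X k), P (J k w) :=
  (J k).measurableEmbedding.ae_map_iff

lemma mp_T2 (hExt : SpecExtProd) : MeasurePreserving (T2 X k) (Qs X k) (Qs X k) :=
  mp_relSq hExt _ (X.mp_cmap (k + 1)) (g' := cmap X.S.symm) (fun x => by
    funext ε
    simp [cmap]) (measurable_cmap_others X.S.measurable v0)
    (measurable_cmap_others X.S.symm.measurable v0)

lemma mp_Q' (hIS : SpecIntertwineSq) (hExt : SpecExtProd)
    {D : Cube (k + 1) α × Cube (k + 1) α → Cube (k + 1) α × Cube (k + 1) α}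
    (hD : MeasurePreserving D (Qs X k) (Qs X k)) (hc : ∀ w, D (T2 X k w) = T2 X k (D w)) :
    MeasurePreserving (Prod.map D D) (Q' X k) (Q' X k) :=
  hIS _ _ (Qs X k) (Qs X k) (T2 X k) (T2 X k) D (mp_T2 X k hExt) (mp_T2 X k hExt) hD
    (ae_of_all _ hc)

lemma mp_fst' (hIS : SpecIntertwineSq) (hExt : SpecExtProd) :
    MeasurePreserving (Prod.map Prod.fst Prod.fst) (Q' X k)
      (relSq (X.inv_le (k + 1)) (X.cm (k + 1))) :=
  hIS _ _ (Qs X k) (X.cm (k + 1)) (T2 X k) (cmap X.S) Prod.fst (mp_T2 X k hExt)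
    (X.mp_cmap (k + 1)) (mp_relSq_fst _ _) (ae_of_all _ fun _ => rfl)

lemma mp_fst (hIS : SpecIntertwineSq) (hExt : SpecExtProd) :
    MeasurePreserving Prod.fst (Q X k) (X.cm (k + 2)) :=
  mp_of_comp (J k).measurable measurable_fst ((X.mp_join (k + 1)).comp (mp_fst' X k hIS hExt))

lemma mp_swap (hIS : SpecIntertwineSq) (hExt : SpecExtProd) :
    MeasurePreserving Prod.swap (Q X k) (Q X k) :=
  mp_conj (J k).measurable measurable_swap
    (mp_Q' X k hIS hExt (D := Prod.swap) (mp_relSq_swap _ _) fun _ => rfl) fun _ => rfl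

lemma mp_flip : MeasurePreserving (Prod.map (symm 1 (vi 0)) (symm 1 (vi 0))) (Q X k) (Q X k) := by
  refine mp_conj (J k).measurable ((measurable_symm _ _).prodMap (measurable_symm _ _))
    (f' := Prod.swap) (mp_relSq_swap _ _) fun p => ?_
  simp only [J_apply, Prod.map, symm_join]
  rfl

lemma mp_side (hIS : SpecIntertwineSq) (hExt : SpecExtProd) (hSide : SpecSideS)
    (i : Fin (k + 2)) (b : Bool) :
    MeasurePreserving (Prod.map (appOn X.S (side i b)) (appOn X.S (side i b))) (Q X k) (Q X k) := by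
  have hmeas : Measurable (appOn X.S (side i b) : Cube (k + 2) α → Cube (k + 2) α) :=
    ((hSide α X (k + 2)).1 i b).measurable
  have hT2 := mp_T2 X k hExt
  refine Fin.cases ?_ (fun i => ?_) i (motive := fun i =>
    Measurable (appOn X.S (side i b) : Cube (k + 2) α → Cube (k + 2) α) →
    MeasurePreserving (Prod.map (appOn X.S (side i b)) (appOn X.S (side i b))) (Q X k) (Q X k)) hmeas
  · intro hmeas
    cases b with
    | true =>
      refine mp_conj (J k).measurable (hmeas.prodMap hmeas) (f' := Prod.map id (T2 X k))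
        ⟨measurable_id.prodMap hT2.measurable, relSq_map_snd hT2⟩ fun p => ?_
      simp only [J_apply, Prod.map, appOn_side0_join]
      rfl
    | false =>
      refine mp_conj (J k).measurable (hmeas.prodMap hmeas) (f' := Prod.map (T2 X k) id)
        ⟨hT2.measurable.prodMap measurable_id, relSq_map_fst hT2⟩ fun p => ?_
      simp only [J_apply, Prod.map, appOn_side0_false_join]
      rfl
  · intro hmeas
    have hD := (hSide α X (k + 1)).1 i b
    have hD2 : MeasurePreserving (Prod.map (appOn X.S (side i b)) (appOn X.S (side i b)))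
        (Qs X k) (Qs X k) :=
      mp_relSq hExt _ hD (g' := appOn X.S.symm (side i b))
        (fun x => appOn_symm (S := X.S.toEquiv) (side i b) x)
        (measurable_appOn_others X.S.measurable _ v0)
        (measurable_appOn_others X.S.symm.measurable _ v0)
    have h3 := mp_Q' X k hIS hExt hD2 (fun w => by
      show (appOn X.S (side i b) (cmap X.S w.1), appOn X.S (side i b) (cmap X.S w.2)) =
        (cmap X.S (appOn X.S (side i b) w.1), cmap X.S (appOn X.S (side i b) w.2))
      rw [appOn_cmap, appOn_cmap])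
    refine mp_conj (J k).measurable (hmeas.prodMap hmeas) h3 fun p => ?_
    simp only [J_apply, Prod.map, EdgeFunM.appOn_succ_join]

lemma ae_same : ∀ᵐ p ∂(Q X k), ∀ ε : Vx (k + 2), ε ≠ v0 → ε ≠ vi 0 → p.1 ε = p.2 ε := by
  rw [ae_Q_iff]
  have h1 : ∀ᵐ w ∂(Qs X k), rst (v0 : Vx (k + 1)) w.1 = rst v0 w.2 :=
    ae_relSq_eq_of_meas (others_le (v0 : Vx (k + 1))) (X.cm (k + 1)) (comap_measurable _)
  have h2 := (mp_relSq_fst (MeasurableSpace.invariants_le (T2 X k))
    (Qs X k)).quasiMeasurePreserving.ae h1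
  have h3 := (mp_relSq_snd (MeasurableSpace.invariants_le (T2 X k))
    (Qs X k)).quasiMeasurePreserving.ae h1
  filter_upwards [h2, h3] with p a1 a2 ε e1 e2
  rw [J_apply]
  show join (p.1.1, p.2.1) ε = join (p.1.2, p.2.2) ε
  rw [join_apply, join_apply]
  by_cases h : ε 0 = true
  · rw [if_pos h, if_pos h]
    have hne : (fun i : Fin (k + 1) => ε i.succ) ≠ v0 := by
      intro h4
      apply e2
      rw [← EdgeLawM.cons_true_v0, ← h4, ← h]
      exact (Fin.cons_self_tail ε).symm
    exact congrFun a2 ⟨_, hne⟩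
  · rw [if_neg h, if_neg h]
    have h' : ε 0 = false := by simpa using h
    have hne : (fun i : Fin (k + 1) => ε i.succ) ≠ v0 := by
      intro h4
      apply e1
      rw [← EdgeLawM.cons_false_v0, ← h4, ← h']
      exact (Fin.cons_self_tail ε).symm
    exact congrFun a1 ⟨_, hne⟩

lemma ae_ker {K : α × α → ℂ} (hK : IK X K) :
    ∀ᵐ p ∂(Q X k), K (p.1 v0, p.2 v0) = K (p.1 (vi 0), p.2 (vi 0)) := by
  rw [ae_Q_iff]
  have hm : Measurable[MeasurableSpace.invariants (T2 X k)]
      (fun w : Cube (k + 1) α × Cube (k + 1) α => K (w.1 v0, w.2 v0)) := by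
    intro U hU
    obtain ⟨h1, h2⟩ := MeasurableSpace.measurableSet_invariants.1 (hK.1 hU)
    have he : Measurable (fun w : Cube (k + 1) α × Cube (k + 1) α => (w.1 v0, w.2 v0)) :=
      ((measurable_pi_apply _).comp measurable_fst).prodMk
        ((measurable_pi_apply _).comp measurable_snd)
    refine MeasurableSpace.measurableSet_invariants.2 ⟨he h1, ?_⟩
    ext w
    exact (Set.ext_iff.1 h2 (w.1 v0, w.2 v0))
  have h1 := ae_relSq_eq_of_meas (MeasurableSpace.invariants_le (T2 X k)) (Qs X k) hm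
  filter_upwards [h1] with p hp
  rw [J_apply]
  simp only [join_vi0]
  exact hp

lemma cond (hX : X.Erg) (hExt : SpecExtProd) (hZP : SpecZeroProd) (hInt : SpecIntertwine)
    (hIS : SpecIntertwineSq) (hCI : SpecCI) {g : α → ℂ} {H : Cube (k + 2) α → ℂ} (hg : Bdd g)
    (hH : Bdd H) :
    ∫ p, H p.1 * g (p.2 v0) ∂(Q X k) =
      ∫ x, H x * (X.μ[g | (X.Z k).σ]) (x v0) ∂(X.cm (k + 2)) := by
  obtain ⟨g', hg'm, hg', hg'e⟩ := DualM.version (X.Z k).le X.μ hg
  have hv : ∀ n : ℕ, Measurable (fun x : Cube n α => x v0) := fun n => measurable_pi_apply _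
  -- the right side
  have e1 : ∫ x, H x * (X.μ[g | (X.Z k).σ]) (x v0) ∂(X.cm (k + 2)) =
      ∫ p, H p.1 * g' (p.1 v0) ∂(Q X k) := by
    have hmp := mp_fst X k hIS hExt
    have : ∫ x, H x * (X.μ[g | (X.Z k).σ]) (x v0) ∂(X.cm (k + 2)) =
        ∫ x, H x * g' (x v0) ∂(X.cm (k + 2)) := by
      refine integral_congr_ae ?_
      filter_upwards [(X.mp_marg (k + 2) v0).quasiMeasurePreserving.ae_eq_comp hg'e] with x hx
      have hx' : g' (x v0) = (X.μ[g | (X.Z k).σ]) (x v0) := hx
      rw [hx']
    rw [this, ← hmp.map_eq, integral_map hmp.measurable.aemeasurable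
      (hH.mul (hg'.comp (hv _))).1.aestronglyMeasurable]
  rw [e1]
  -- the difference on `Q'`
  set a : (Cube (k + 1) α × Cube (k + 1) α) × (Cube (k + 1) α × Cube (k + 1) α) → ℂ :=
    fun p => g (p.1.2 v0) - g' (p.1.1 v0) with ha
  have hab : Bdd a :=
    (hg.comp ((hv _).comp (measurable_snd.comp measurable_fst))).sub
      (hg'.comp ((hv _).comp (measurable_fst.comp measurable_fst)))
  have key : ∫ p, a p * H (join (p.1.1, p.2.1)) ∂(Q' X k) = 0 := by
    refine integral_zero_of_products (ρ := Q' X k) hZP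
      (p1 := fun p => p.1.1) (p2 := fun p => p.2.1)
      (measurable_fst.comp measurable_fst) (measurable_fst.comp measurable_snd) hab ?_
      (fun q => H (join q)) (hH.comp measurable_join)
    intro f1 f2 hf1 hf2
    have hA : Bdd (fun w : Cube (k + 1) α × Cube (k + 1) α =>
        (g (w.2 v0) - g' (w.1 v0)) * f1 w.1) :=
      ((hg.comp ((hv _).comp measurable_snd)).sub (hg'.comp ((hv _).comp measurable_fst))).mul
        (hf1.comp measurable_fst)
    have h1 := integral_relSq_mul (MeasurableSpace.invariants_le (T2 X k)) (Qs X k) hA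
      (hf2.comp measurable_fst)
    have h2 : ∫ p, a p * (f1 p.1.1 * f2 p.2.1) ∂(Q' X k) =
        ∫ p, (fun w : Cube (k + 1) α × Cube (k + 1) α =>
          (g (w.2 v0) - g' (w.1 v0)) * f1 w.1) p.1 * f2 (p.2.1) ∂(Q' X k) := by
      refine integral_congr_ae (ae_of_all _ fun p => ?_)
      simp only [ha]
      ring
    rw [h2]
    refine h1.trans ?_
    have h3 := hInt _ _ (Qs X k) (X.cm (k + 1)) (T2 X k) (cmap X.S) Prod.fst (mp_T2 X k hExt)
      (X.mp_cmap (k + 1)) (mp_relSq_fst (others_le (v0 : Vx (k + 1))) (X.cm (k + 1)))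
      (ae_of_all _ fun _ => rfl) f2 hf2
    obtain ⟨u, hum, hu, hue⟩ := DualM.version (X.inv_le (k + 1)) (X.cm (k + 1)) hf2
    have h4 := (mp_relSq_fst (others_le (v0 : Vx (k + 1)))
      (X.cm (k + 1))).quasiMeasurePreserving.ae_eq_comp hue
    have h5 : ∫ w, (g (w.2 v0) - g' (w.1 v0)) * f1 w.1 *
        ((Qs X k)[fun w => f2 w.1 | MeasurableSpace.invariants (T2 X k)]) w ∂(Qs X k) =
        ∫ w, (f1 w.1 * u w.1) * g (w.2 v0) ∂(Qs X k) -
          ∫ w, f1 w.1 * u w.1 * g' (w.1 v0) ∂(Qs X k) := by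
      rw [← integral_sub]
      · refine integral_congr_ae ?_
        filter_upwards [h3, h4] with w a1 a2
        have a1' : ((Qs X k)[fun w => f2 w.1 | MeasurableSpace.invariants (T2 X k)]) w =
            ((X.cm (k + 1))[f2 | MeasurableSpace.invariants (cmap X.S)]) w.1 := a1
        have a2' : u w.1 = ((X.cm (k + 1))[f2 | X.inv (k + 1)]) w.1 := a2
        rw [a1']
        have a3 : ((X.cm (k + 1))[f2 | MeasurableSpace.invariants (cmap X.S)]) w.1 = u w.1 :=
          a2'.symm
        rw [a3]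
        ring
      · exact (((hf1.comp measurable_fst).mul (hu.comp measurable_fst)).mul
          (hg.comp ((hv _).comp measurable_snd))).integrable _
      · exact (((hf1.comp measurable_fst).mul (hu.comp measurable_fst)).mul
          (hg'.comp ((hv _).comp measurable_fst))).integrable _
    refine h5.trans ?_
    have h6 : ∫ w, (f1 w.1 * u w.1) * g (w.2 v0) ∂(Qs X k) =
        ∫ x, (f1 x * u x) * ((X.cm (k + 1))[fun x : Cube (k + 1) α => g (x v0) | others α v0]) x
          ∂(X.cm (k + 1)) :=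
      integral_relSq_mul (others_le (v0 : Vx (k + 1))) (X.cm (k + 1)) (hf1.mul hu)
        (hg.comp (hv _))
    have h7 : ∫ w, f1 w.1 * u w.1 * g' (w.1 v0) ∂(Qs X k) =
        ∫ x, f1 x * u x * g' (x v0) ∂(X.cm (k + 1)) := by
      have hmp := mp_relSq_fst (others_le (v0 : Vx (k + 1))) (X.cm (k + 1))
      conv_rhs => rw [← hmp.map_eq]
      rw [integral_map hmp.measurable.aemeasurable
        (((hf1.mul hu).mul (hg'.comp (hv _))).1.aestronglyMeasurable)]
      rfl
    rw [h6, h7, sub_eq_zero]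
    refine integral_congr_ae ?_
    filter_upwards [condExp_v0 X k hX hCI hg hg' hg'm hg'e] with x hx
    rw [← hx]
  -- back to `Q`
  have tr : ∀ F : Cube (k + 2) α × Cube (k + 2) α → ℂ,
      ∫ p, F p ∂(Q X k) = ∫ w, F (J k w) ∂(Q' X k) := fun F => integral_map_equiv (J k) F
  rw [tr, tr, ← sub_eq_zero, ← integral_sub]
  · rw [← key]
    refine integral_congr_ae (ae_of_all _ fun w => ?_)
    simp only [J_apply, ha, EdgeFunM.join_v0]
    ring
  · exact (((hH.comp measurable_fst).mul (hg.comp ((hv _).comp measurable_snd))).comp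
      (J k).measurable).integrable _
  · exact (((hH.comp measurable_fst).mul (hg'.comp ((hv _).comp measurable_fst))).comp
      (J k).measurable).integrable _

end Q2M

open Q2M in
theorem specQ2 (hExt : SpecExtProd) (hZP : SpecZeroProd) (hInt : SpecIntertwine)
    (hIS : SpecIntertwineSq) (hCI : SpecCI) (hSide : SpecSideS) : SpecQ2 := by
  intro α _ _ X hX k
  exact ⟨Q X k,
    { fst := mp_fst X k hIS hExt
      swap := mp_swap X k hIS hExt
      flip := mp_flip X k
      side := mp_side X k hIS hExt hSide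
      same := ae_same X k
      cond := fun g H hg hH => cond X k hX hExt hZP hInt hIS hCI hg hH
      ker := fun K hK => ae_ker X k hK }⟩

end MPd26.HK.P3
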