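import Pool.Agent.Lib.MP_d26cd8_an.HK.CocTriv
import Pool.Agent.Lib.MP_d26cd8_an.HK.Spec0

/-!
# MP_d26cd8_an: the triple law `relCb`: marginals, functoriality
-/

set_option autoImplicit false

open MeasureTheory ProbabilityTheory Filter Topology
open scoped ComplexConjugate ENNReal

namespace MPd26.HK
namespace RelCbM

open CocTrivM

/-- images of compositions of a measure and a kernel -/
lemma compProd_map {Ω Ω' A A' : Type} [MeasurableSpace Ω] [MeasurableSpace Ω'] [MeasurableSpace A]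
    [MeasurableSpace A'] (μ : Measure Ω) [SFinite μ] (κ : Kernel Ω A) [IsSFiniteKernel κ]
    (κ' : Kernel Ω' A') [IsSFiniteKernel κ'] {p : Ω → Ω'} {q : A → A'} (hp : Measurable p)
    (hq : Measurable q) (h : ∀ᵐ x ∂μ, (κ x).map q = κ' (p x)) :
    (μ ⊗ₘ κ).map (Prod.map p q) = (μ.map p) ⊗ₘ κ' := by
  ext s hs
  rw [Measure.map_apply (hp.prodMap hq) hs, Measure.compProd_apply ((hp.prodMap hq) hs),
    Measure.compProd_apply hs, lintegral_map (Kernel.measurable_kernel_prodMk_left hs) hp]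
  refine lintegral_congr_ae ?_
  filter_upwards [h] with x hx
  rw [← hx, Measure.map_apply hq (measurable_prodMk_left hs)]
  rfl

section Fun
variable {Ω Ω' : Type} [mΩ : MeasurableSpace Ω] [StandardBorelSpace Ω]
  [mΩ' : MeasurableSpace Ω'] [StandardBorelSpace Ω']

omit [StandardBorelSpace Ω] [StandardBorelSpace Ω'] in
lemma integral_ind {p : Ω → Ω'} (hp : Measurable p) (ν : Measure Ω) [IsProbabilityMeasure ν]
    {A : Set Ω'} (hA : MeasurableSet A) :
    ∫ y, A.indicator (fun _ => (1 : ℂ)) (p y) ∂ν = ((ν.map p).real A : ℂ) := by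
  have h1 : (fun y => A.indicator (fun _ => (1 : ℂ)) (p y)) =
      (p ⁻¹' A).indicator (fun _ => (1 : ℂ)) := by
    funext y; rfl
  rw [h1, integral_indicator (hp hA), integral_const, Measure.real, Measure.real,
    Measure.restrict_apply_univ, Measure.map_apply hp hA]
  simp

/-- the conditional measures of intertwined maps -/
lemma dis_map (hI : SpecIntertwine) {μ : Measure Ω} {μ' : Measure Ω'} [IsProbabilityMeasure μ]
    [IsProbabilityMeasure μ'] {T : Ω → Ω} {T' : Ω' → Ω'} {p : Ω → Ω'}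
    (hT : MeasurePreserving T μ μ) (hT' : MeasurePreserving T' μ' μ')
    (hp : MeasurePreserving p μ μ') (hc : ∀ᵐ x ∂μ, p (T x) = T' (p x)) :
    ∀ᵐ x ∂μ, (dis (MeasurableSpace.invariants_le T) μ x).map p =
      dis (MeasurableSpace.invariants_le T') μ' (p x) := by
  obtain ⟨A, hA, hu, hpi, hg⟩ := exists_pi Ω'
  have key : ∀ n, ∀ᵐ x ∂μ, (dis (MeasurableSpace.invariants_le T) μ x).map p (A n) =
      dis (MeasurableSpace.invariants_le T') μ' (p x) (A n) := by
    intro n
    have hb : Bdd ((A n).indicator (fun _ => (1 : ℂ))) := by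
      refine ⟨measurable_const.indicator (hA n), 1, fun x => ?_⟩
      by_cases hx : x ∈ A n <;> simp [hx]
    have h1 := hI Ω Ω' μ μ' T T' p hT hT' hp hc _ hb
    have h2 := condExp_ae_eq_dis (MeasurableSpace.invariants_le T) μ
      ((hb.comp hp.measurable).integrable μ)
    have h3 := hp.quasiMeasurePreserving.ae_eq_comp
      (condExp_ae_eq_dis (MeasurableSpace.invariants_le T') μ' (hb.integrable μ'))
    filter_upwards [h1, h2, h3] with x e1 e2 e3
    have e4 := integral_ind hp.measurable (dis (MeasurableSpace.invariants_le T) μ x) (hA n)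
    have e5 := integral_ind measurable_id (dis (MeasurableSpace.invariants_le T') μ' (p x)) (hA n)
    have e6 : (((dis (MeasurableSpace.invariants_le T) μ x).map p).real (A n) : ℂ) =
        ((dis (MeasurableSpace.invariants_le T') μ' (p x)).real (A n) : ℂ) := by
      rw [← e4, ← e2]
      rw [Measure.map_id] at e5
      rw [← e5]
      exact e1.trans e3
    have e7 : ((dis (MeasurableSpace.invariants_le T) μ x).map p).real (A n) =
        (dis (MeasurableSpace.invariants_le T') μ' (p x)).real (A n) := by exact_mod_cast e6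
    have := Measure.isProbabilityMeasure_map (μ := dis (MeasurableSpace.invariants_le T) μ x)
      hp.measurable.aemeasurable
    exact (measureReal_eq_measureReal_iff).1 e7
  filter_upwards [ae_all_iff.2 key] with x hx
  have := Measure.isProbabilityMeasure_map (μ := dis (MeasurableSpace.invariants_le T) μ x)
    hp.measurable.aemeasurable
  refine ext_of_generate_finite _ hg hpi ?_ ?_
  · rintro s ⟨n, rfl⟩
    exact hx n
  · obtain ⟨n, hn⟩ := hu
    rw [← hn]
    exact hx n

/-- functoriality of the triple law -/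
lemma mp_relCb (hI : SpecIntertwine) {μ : Measure Ω} {μ' : Measure Ω'} [IsProbabilityMeasure μ]
    [IsProbabilityMeasure μ'] {T : Ω → Ω} {T' : Ω' → Ω'} {p : Ω → Ω'}
    (hT : MeasurePreserving T μ μ) (hT' : MeasurePreserving T' μ' μ')
    (hp : MeasurePreserving p μ μ') (hc : ∀ᵐ x ∂μ, p (T x) = T' (p x)) :
    MeasurePreserving (Prod.map p (Prod.map p p)) (relCb (MeasurableSpace.invariants_le T) μ)
      (relCb (MeasurableSpace.invariants_le T') μ') := by
  refine ⟨hp.measurable.prodMap (hp.measurable.prodMap hp.measurable), ?_⟩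
  unfold relCb
  rw [compProd_map μ _ (dis (MeasurableSpace.invariants_le T') μ' ×ₖ
    dis (MeasurableSpace.invariants_le T') μ') hp.measurable
    (hp.measurable.prodMap hp.measurable) ?_, hp.map_eq]
  filter_upwards [dis_map hI hT hT' hp hc] with x hx
  rw [Kernel.prod_apply, Kernel.prod_apply, ← hx, Measure.map_prod_map _ _ hp.measurable
    hp.measurable]

end Fun

section Marg
variable {Ω : Type} {m : MeasurableSpace Ω} [mΩ : MeasurableSpace Ω] [StandardBorelSpace Ω]

lemma mp_relCb_12 (hm : m ≤ mΩ) (μ : Measure Ω) [IsProbabilityMeasure μ] :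
    MeasurePreserving (fun p : Ω × (Ω × Ω) => (p.1, p.2.1)) (relCb hm μ) (relSq hm μ) := by
  have h0 : Measurable (fun p : Ω × (Ω × Ω) => (p.1, p.2.1)) :=
    measurable_fst.prodMk (measurable_fst.comp measurable_snd)
  refine ⟨h0, ?_⟩
  have h1 : (fun p : Ω × (Ω × Ω) => (p.1, p.2.1)) = Prod.map id Prod.fst := rfl
  unfold relCb relSq
  rw [h1, compProd_map μ _ (dis hm μ) measurable_id measurable_fst, Measure.map_id]
  refine ae_of_all _ fun x => ?_
  rw [Kernel.prod_apply]
  exact measurePreserving_fst.map_eq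

lemma mp_relCb_13 (hm : m ≤ mΩ) (μ : Measure Ω) [IsProbabilityMeasure μ] :
    MeasurePreserving (fun p : Ω × (Ω × Ω) => (p.1, p.2.2)) (relCb hm μ) (relSq hm μ) := by
  have h0 : Measurable (fun p : Ω × (Ω × Ω) => (p.1, p.2.2)) :=
    measurable_fst.prodMk (measurable_snd.comp measurable_snd)
  refine ⟨h0, ?_⟩
  have h1 : (fun p : Ω × (Ω × Ω) => (p.1, p.2.2)) = Prod.map id Prod.snd := rfl
  unfold relCb relSq
  rw [h1, compProd_map μ _ (dis hm μ) measurable_id measurable_snd, Measure.map_id]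
  refine ae_of_all _ fun x => ?_
  rw [Kernel.prod_apply]
  exact measurePreserving_snd.map_eq

lemma mp_relCb_23 (hm : m ≤ mΩ) (μ : Measure Ω) [IsProbabilityMeasure μ] :
    MeasurePreserving (fun p : Ω × (Ω × Ω) => p.2) (relCb hm μ) (relSq hm μ) := by
  refine ⟨measurable_snd, ?_⟩
  ext s hs
  rw [Measure.map_apply measurable_snd hs]
  unfold relCb
  rw [Measure.compProd_apply (measurable_snd hs)]
  have h1 : ∀ a, (dis hm μ ×ₖ dis hm μ) a (Prod.mk a ⁻¹' (Prod.snd ⁻¹' s)) =
      ∫⁻ b, dis hm μ a (Prod.mk b ⁻¹' s) ∂(dis hm μ a) := by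
    intro a
    have : Prod.mk a ⁻¹' (Prod.snd ⁻¹' s : Set (Ω × (Ω × Ω))) = s := rfl
    rw [this, Kernel.prod_apply, Measure.prod_apply hs]
  simp only [h1]
  have h2 : ∀ᵐ a ∂μ, ∫⁻ b, dis hm μ a (Prod.mk b ⁻¹' s) ∂(dis hm μ a) =
      ∫⁻ b, dis hm μ b (Prod.mk b ⁻¹' s) ∂(dis hm μ a) := by
    filter_upwards [dis_eq hm μ] with a ha
    refine lintegral_congr_ae ?_
    filter_upwards [ha] with b hb
    rw [hb]
  rw [lintegral_congr_ae h2]
  have hmeas : Measurable fun b => dis hm μ b (Prod.mk b ⁻¹' s) :=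
    Kernel.measurable_kernel_prodMk_left hs
  have h3 : ∫⁻ p, dis hm μ p.2 (Prod.mk p.2 ⁻¹' s) ∂(relSq hm μ) =
      ∫⁻ b, dis hm μ b (Prod.mk b ⁻¹' s) ∂μ :=
    (mp_relSq_snd hm μ).lintegral_comp hmeas
  have h4 : ∫⁻ p, dis hm μ p.2 (Prod.mk p.2 ⁻¹' s) ∂(relSq hm μ) =
      ∫⁻ a, ∫⁻ b, dis hm μ b (Prod.mk b ⁻¹' s) ∂(dis hm μ a) ∂μ :=
    Measure.lintegral_compProd (hmeas.comp measurable_snd)
  rw [← h4, h3]
  unfold relSq
  rw [Measure.compProd_apply hs]

end Marg

end RelCbM
end MPd26.HK
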