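import Pool.Agent.Lib.MP_d26cd8_an.HK.Spec0
import Pool.Agent.Lib.MP_d26cd8_an.HK.Sq

/-!
# MP_d26cd8_an, block D, section 3 (PHASES): inner specifications

Text: /team-store/MP_d26cd8_an_P3_h74.md.
-/

set_option autoImplicit false

open MeasureTheory ProbabilityTheory Filter Topology
open scoped ComplexConjugate ENNReal

namespace MPd26.HK.P3

/-- The neighbour of the vertex `0` in direction `i`. -/
def vi {n : ℕ} (i : Fin n) : Vx n := Function.update v0 i true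

/-- The vertex `(1,...,1)`. -/
def vt {n : ℕ} : Vx n := fun _ => true

section Defs
variable {α : Type} [mα : MeasurableSpace α] [StandardBorelSpace α] (X : Sys α)

/-- `X` has order `k + 1`: the σ-algebra `Z_{k+1}` is everything. -/
def Ord (k : ℕ) : Prop := ∀ A : Set α, MeasurableSet A → X.InZ (k + 1) A

/-- `S × S`. -/
def S2 : α × α → α × α := Prod.map X.S X.S

/-- The measure `μ ×_{Z_k} μ`. -/
noncomputable def R (k : ℕ) : Measure (α × α) := relSq (X.Z k).le X.μ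

instance (k : ℕ) : IsProbabilityMeasure (R X k) := by unfold R; infer_instance

/-- Bounded invariant kernels. -/
def IK (K : α × α → ℂ) : Prop :=
  Measurable[MeasurableSpace.invariants (S2 X)] K ∧ ∃ C : ℝ, ∀ p, ‖K p‖ ≤ C

/-- The operator with kernel `K`: `(V_K f)(x) = ∫ K(x,z) f(z) dμ_{Z_k(x)}(z)`. -/
noncomputable def V (k : ℕ) (K : α × α → ℂ) (f : α → ℂ) (x : α) : ℂ :=
  ∫ z, K (x, z) * f z ∂(dis (X.Z k).le X.μ x)

/-- Pairs of `(k+2)`-cubes `(c, c')` which differ only on the edge `(v0, vi 0)`. -/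
structure IsQ2 (k : ℕ) (Q : Measure (Cube (k + 2) α × Cube (k + 2) α)) : Prop where
  fst : MeasurePreserving Prod.fst Q (X.cm (k + 2))
  swap : MeasurePreserving Prod.swap Q Q
  flip : MeasurePreserving (Prod.map (symm 1 (vi 0)) (symm 1 (vi 0))) Q Q
  side : ∀ (i : Fin (k + 2)) (b : Bool),
    MeasurePreserving (Prod.map (appOn X.S (side i b)) (appOn X.S (side i b))) Q Q
  same : ∀ᵐ p ∂Q, ∀ ε : Vx (k + 2), ε ≠ v0 → ε ≠ vi 0 → p.1 ε = p.2 ε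
  cond : ∀ (g : α → ℂ) (H : Cube (k + 2) α → ℂ), Bdd g → Bdd H →
    ∫ p, H p.1 * g (p.2 v0) ∂Q = ∫ x, H x * (X.μ[g | (X.Z k).σ]) (x v0) ∂(X.cm (k + 2))
  ker : ∀ K : α × α → ℂ, IK X K → ∀ᵐ p ∂Q, K (p.1 v0, p.2 v0) = K (p.1 (vi 0), p.2 (vi 0))

/-- The law of `((a, a'), (b, b'))`, where `(a, b)`, `(a', b')` are the edges of the two cubes. -/
structure IsConf (k : ℕ) (C : Measure ((α × α) × (α × α))) : Prop where
  fst : MeasurePreserving Prod.fst C (R X k)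
  snd : MeasurePreserving Prod.snd C (R X k)
  ind : MeasurePreserving (fun p : (α × α) × (α × α) => (p.1, p.2.1)) C ((R X k).prod X.μ)
  ind' : MeasurePreserving (fun p : (α × α) × (α × α) => (p.1, p.2.2)) C ((R X k).prod X.μ)
  invl : MeasurePreserving (Prod.map (S2 X) id) C C
  invr : MeasurePreserving (Prod.map id (S2 X)) C C
  ker : ∀ K : α × α → ℂ, IK X K → ∀ᵐ p ∂C, K p.1 = K p.2
  key : ∀ f : α → ℂ, Bdd f → ∃ G : (α × α) × α → ℂ, Bdd G ∧ ∀ᵐ p ∂C, f p.2.2 = G (p.1, p.2.1)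

/-- Joint eigenfunctions of the operators `V_K` (weak form). -/
def JE (k : ℕ) (f : α → ℂ) : Prop :=
  Measurable f ∧ MemLp f 2 X.μ ∧ ∀ K : α × α → ℂ, IK X K → ∃ θ : ℂ, ∀ h : α → ℂ, Bdd h →
    ∫ p, K p * f p.2 * h p.1 ∂(R X k) = θ * ∫ x, f x * h x ∂X.μ

end Defs

/-! ## Part A: cubes -/

/-- EDGELAW: the two ends of an edge at `v0` are independent. -/
def SpecEdgeLaw : Prop :=
  ∀ (α : Type) [MeasurableSpace α] [StandardBorelSpace α] (X : Sys α), X.Erg →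
    ∀ (n : ℕ) (i : Fin (n + 1)),
      MeasurePreserving (fun x : Cube (n + 1) α => (x v0, x (vi i))) (X.cm (n + 1))
        (X.μ.prod X.μ)

/-- COMPL: completion at every vertex. -/
def SpecCompl : Prop :=
  ∀ (α : Type) [MeasurableSpace α] [StandardBorelSpace α] (X : Sys α) (k : ℕ), Ord X k →
    ∀ (ε : Vx (k + 2)) (f : α → ℂ), Bdd f →
      AEStronglyMeasurable[others α ε] (fun x : Cube (k + 2) α => f (x ε)) (X.cm (k + 2))

/-- TOTAL: products without the vertex `ε` are total. -/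
def SpecTotal : Prop :=
  ∀ (α : Type) [MeasurableSpace α] [StandardBorelSpace α] (X : Sys α) (k : ℕ), Ord X k →
    ∀ (ε : Vx (k + 2)) (h : Cube (k + 2) α → ℂ), Integrable h (X.cm (k + 2)) →
      (∀ g : Vx (k + 2) → α → ℂ, (∀ δ, Bdd (g δ)) → (∀ y, g ε y = 1) →
        ∫ x, h x * ∏ δ, g δ (x δ) ∂(X.cm (k + 2)) = 0) → h =ᵐ[X.cm (k + 2)] 0

/-- EDGEFUN: functions invariant under the upper sides in the directions `≠ 0` are functions of
the edge `(v0, vi 0)`. -/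
def SpecEdgeFun : Prop :=
  ∀ (α : Type) [MeasurableSpace α] [StandardBorelSpace α] (X : Sys α) (n : ℕ)
    (A : Cube (n + 1) α → ℂ), Bdd A →
    (∀ i : Fin (n + 1), i ≠ 0 → ∀ᵐ x ∂(X.cm (n + 1)), A (appOn X.S (side i true) x) = A x) →
    ∃ A' : α × α → ℂ, Bdd A' ∧ ∀ᵐ x ∂(X.cm (n + 1)), A x = A' (x v0, x (vi 0))

/-- Q2: the measure on pairs of cubes exists. -/
def SpecQ2 : Prop :=
  ∀ (α : Type) [MeasurableSpace α] [StandardBorelSpace α] (X : Sys α), X.Erg → ∀ k : ℕ,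
    ∃ Q : Measure (Cube (k + 2) α × Cube (k + 2) α), IsQ2 X k Q

/-- KEY: `b'` is a function of `(a, a', b)`. -/
def SpecKey : Prop :=
  ∀ (α : Type) [MeasurableSpace α] [StandardBorelSpace α] (X : Sys α), X.Erg → ∀ k : ℕ, Ord X k →
    ∀ Q : Measure (Cube (k + 2) α × Cube (k + 2) α), IsQ2 X k Q → ∀ f : α → ℂ, Bdd f →
      ∃ G : (α × α) × α → ℂ, Bdd G ∧
        ∀ᵐ p ∂Q, f (p.2 (vi 0)) = G ((p.1 v0, p.2 v0), p.1 (vi 0))

/-- CONF: the law of the edges. -/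
def SpecConf : Prop :=
  ∀ (α : Type) [MeasurableSpace α] [StandardBorelSpace α] (X : Sys α), X.Erg → ∀ k : ℕ, Ord X k →
    ∀ Q : Measure (Cube (k + 2) α × Cube (k + 2) α), IsQ2 X k Q →
      IsConf X k (Q.map fun p => ((p.1 v0, p.2 v0), (p.1 (vi 0), p.2 (vi 0))))

/-! ## Part B: the operators `V_K` -/

/-- VBASIC: basic properties of `V_K` (`K` bounded measurable, not necessarily invariant). -/
def SpecVBasic : Prop :=
  ∀ (α : Type) [MeasurableSpace α] [StandardBorelSpace α] (X : Sys α) (k : ℕ)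
    (K : α × α → ℂ) (f : α → ℂ), Bdd K → Bdd f →
    Bdd (V X k K f) ∧
    (∀ h : α → ℂ, Bdd h →
      ∫ x, V X k K f x * h x ∂X.μ = ∫ p, K p * f p.2 * h p.1 ∂(R X k) ∧
      ∫ x, V X k K f x * h x ∂X.μ = ∫ x, f x * V X k (K ∘ Prod.swap) h x ∂X.μ)

/-- EDGE: the edge lemma. -/
def SpecEdge : Prop :=
  ∀ (α : Type) [MeasurableSpace α] [StandardBorelSpace α] (X : Sys α), X.Erg →
    ∀ (k : ℕ) (i : Fin (k + 2)) (K : α × α → ℂ), IK X K →
    ∀ g : Vx (k + 2) → α → ℂ, (∀ ε, Bdd (g ε)) →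
      ∫ x, V X k K (g v0) (x v0) * ∏ ε ∈ Finset.univ.erase v0, g ε (x ε) ∂(X.cm (k + 2)) =
      ∫ x, V X k (K ∘ Prod.swap) (g (vi i)) (x (vi i)) *
        ∏ ε ∈ Finset.univ.erase (vi i), g ε (x ε) ∂(X.cm (k + 2))

/-- COMM: the operators `V_K` commute. -/
def SpecComm : Prop :=
  ∀ (α : Type) [MeasurableSpace α] [StandardBorelSpace α] (X : Sys α), X.Erg → ∀ k : ℕ, Ord X k →
    ∀ K L : α × α → ℂ, IK X K → IK X L → ∀ f : α → ℂ, Bdd f →
      V X k K (V X k L f) =ᵐ[X.μ] V X k L (V X k K f)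

/-! ## Part C: Hilbert spaces -/

/-- HSC: a Hilbert-Schmidt operator is compact. -/
def SpecHSC : Prop :=
  ∀ (H : Type) [NormedAddCommGroup H] [InnerProductSpace ℂ H] [CompleteSpace H]
    (B : H →L[ℂ] H) (M : ℝ),
    (∀ (m n : ℕ) (e : Fin m → H) (f : Fin n → H), Orthonormal ℂ e → Orthonormal ℂ f →
      ∑ i, ∑ j, ‖inner ℂ (f j) (B (e i))‖ ^ 2 ≤ M) → IsCompactOperator B

/-- JEIG: joint eigenvectors are total. -/
def SpecJEig : Prop :=
  ∀ (H : Type) [NormedAddCommGroup H] [InnerProductSpace ℂ H] [CompleteSpace H]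
    (VV BB : Set (H →L[ℂ] H)),
    (∀ A ∈ VV, ∀ B ∈ VV, A ∘L B = B ∘L A) → (∀ A ∈ VV, ContinuousLinearMap.adjoint A ∈ VV) →
    (∀ B ∈ BB, IsCompactOperator B ∧ ∀ A ∈ VV, A ∘L B = B ∘L A) →
    (∀ x : H, (∀ B ∈ BB, B x = 0) → x = 0) →
    (Submodule.span ℂ {x : H | ∀ A ∈ VV, ∃ c : ℂ, A x = c • x}).topologicalClosure = ⊤

/-- OP: operators from couplings. -/
def SpecOp : Prop :=
  ∀ (Ω α : Type) [MeasurableSpace Ω] [MeasurableSpace α] (ρ : Measure Ω) (μ : Measure α)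
    [IsProbabilityMeasure ρ] [IsProbabilityMeasure μ] (s t : Ω → α),
    MeasurePreserving s ρ μ → MeasurePreserving t ρ μ → ∀ G : Ω → ℂ, Bdd G →
    ∃ B : Lp ℂ 2 μ →L[ℂ] Lp ℂ 2 μ, ∀ f h : Lp ℂ 2 μ,
      inner ℂ h (B f) = ∫ ω, G ω * f (s ω) * conj (h (t ω)) ∂ρ

/-- DENSE: joint eigenfunctions are total. -/
def SpecDense : Prop :=
  ∀ (α : Type) [MeasurableSpace α] [StandardBorelSpace α] (X : Sys α), X.Erg → ∀ k : ℕ, Ord X k →
    ∀ f : α → ℂ, Bdd f → ∀ η : ℝ, 0 < η → ∃ (r : ℕ) (g : Fin r → α → ℂ),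
      (∀ i, JE X k (g i)) ∧ dist2 X.μ f (fun x => ∑ i, g i x) ≤ η

/-! ## Part D: rank one, phases -/

/-- RANK1: a joint eigenfunction `f` satisfies `f(b') = q(a,a') f(b)`. -/
def SpecRank1 : Prop :=
  ∀ (α : Type) [MeasurableSpace α] [StandardBorelSpace α] (X : Sys α), X.Erg → ∀ (k : ℕ)
    (C : Measure ((α × α) × (α × α))), IsConf X k C → ∀ f : α → ℂ, JE X k f →
    ¬ f =ᵐ[X.μ] 0 → ∃ q : α × α → ℂ, Measurable q ∧ (∀ᵐ p ∂(R X k), ‖q p‖ = 1) ∧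
      ∀ᵐ p ∂C, f p.2.2 = q p.1 * f p.2.1

/-- UNIMOD: `f = b φ` with `b` measurable with respect to `Z_k`, `φ` a phase. -/
def SpecUnimod : Prop :=
  ∀ (α : Type) [MeasurableSpace α] [StandardBorelSpace α] (X : Sys α), X.Erg → ∀ (k : ℕ)
    (C : Measure ((α × α) × (α × α))), IsConf X k C → ∀ f : α → ℂ, Measurable f →
    ¬ f =ᵐ[X.μ] 0 → ∀ q : α × α → ℂ, Measurable q → (∀ᵐ p ∂(R X k), ‖q p‖ = 1) →
    (∀ᵐ p ∂C, f p.2.2 = q p.1 * f p.2.1) →
    ∃ b φ : α → ℂ, IsPhase φ ∧ Measurable[(X.Z k).σ] b ∧ (∀ᵐ x ∂X.μ, f x = b x * φ x) ∧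
      ∀ᵐ p ∂C, φ p.1.2 * conj (φ p.1.1) = φ p.2.2 * conj (φ p.2.1)

/-- REPL: replacing a function at a vertex `δ` by its conditional expectation on `Z_k`, when the
function at the other end of an edge is `Z_k`-measurable. -/
def SpecRepl : Prop :=
  ∀ (α : Type) [MeasurableSpace α] [StandardBorelSpace α] (X : Sys α), X.Erg → ∀ (k : ℕ)
    (Q : Measure (Cube (k + 2) α × Cube (k + 2) α)), IsQ2 X k Q → ∀ φ : α → ℂ, IsPhase φ →
    (∀ᵐ p ∂Q, φ (p.2 v0) * conj (φ (p.1 v0)) = φ (p.2 (vi 0)) * conj (φ (p.1 (vi 0)))) →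
    ∀ (i : Fin (k + 2)) (δ : Vx (k + 2)) (g : Vx (k + 2) → α → ℂ), (∀ ε, Bdd (g ε)) →
      Measurable[(X.Z k).σ] (g (Function.update δ i (!(δ i)))) →
      ∫ x, cp φ (k + 2) x * ∏ ε, g ε (x ε) ∂(X.cm (k + 2)) =
      ∫ x, cp φ (k + 2) x * ((X.μ[g δ | (X.Z k).σ]) (x δ) *
        ∏ ε ∈ Finset.univ.erase δ, g ε (x ε)) ∂(X.cm (k + 2))

/-- TYPE: `φ^[k+2]` is measurable with respect to `Z_k^[k+2]`. -/
def SpecType : Prop :=
  ∀ (α : Type) [MeasurableSpace α] [StandardBorelSpace α] (X : Sys α), X.Erg → ∀ k : ℕ, Ord X k →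
    ∀ Q : Measure (Cube (k + 2) α × Cube (k + 2) α), IsQ2 X k Q → ∀ φ : α → ℂ, IsPhase φ →
    (∀ᵐ p ∂Q, φ (p.2 v0) * conj (φ (p.1 v0)) = φ (p.2 (vi 0)) * conj (φ (p.1 (vi 0)))) →
    X.Ph (X.Z k) (k + 2) φ

/-! ## Part E: reduction to systems of order `k + 1` and assembly -/

/-- REAL: every factor is realized by a standard Borel system. -/
def SpecReal : Prop :=
  ∀ (α : Type) [MeasurableSpace α] [StandardBorelSpace α] (X : Sys α) (N : X.Factor),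
    ∃ (β : Type) (_ : MeasurableSpace β) (_ : StandardBorelSpace β) (Y : Sys β) (p : α → β),
      FMap X Y p ∧ (∀ B : Set β, MeasurableSet B → MeasurableSet[N.σ] (p ⁻¹' B)) ∧
      ∀ A : Set α, MeasurableSet[N.σ] A → ∃ B : Set β, MeasurableSet B ∧ A =ᵐ[X.μ] p ⁻¹' B

/-- PHASESORD: section 3 for systems of order `k + 1`. -/
def SpecPhasesOrd : Prop :=
  ∀ (α : Type) [MeasurableSpace α] [StandardBorelSpace α] (X : Sys α), X.Erg →
    ∀ k : ℕ, Ord X k → ∀ f : α → ℂ, Bdd f → ∀ η : ℝ, 0 < η →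
      ∃ (r : ℕ) (b φ : Fin r → α → ℂ),
        (∀ i, Bdd (b i) ∧ Measurable[(X.Z k).σ] (b i) ∧ X.Ph (X.Z k) (k + 2) (φ i)) ∧
        dist2 X.μ f (fun x => ∑ i, b i x * φ i x) ≤ η

end MPd26.HK.P3
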